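import Mathlib

/-! (L4) The dimension formula for domains of finite type over a field. -/

namespace H50.Z

open Cardinal

theorem l4_succ_le {k A B : Type} [Field k] [CommRing A] [IsDomain A] [CommRing B] [IsDomain B]
    [Algebra k A] [Algebra k B] (π : A →ₐ[k] B) (hπ : Function.Surjective π)
    (hfin : Algebra.trdeg k A < ℵ₀) {a : A} (ha : a ≠ 0) (h0 : π a = 0) :
    Algebra.trdeg k B + 1 ≤ Algebra.trdeg k A := by
  by_contra hlt
  push Not at hlt
  have hle : Algebra.trdeg k A ≤ Algebra.trdeg k B := by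
    have hB : Algebra.trdeg k B < ℵ₀ := (trdeg_le_of_surjective π hπ).trans_lt hfin
    obtain ⟨n, hn⟩ := Cardinal.lt_aleph0.1 hfin
    obtain ⟨m, hm⟩ := Cardinal.lt_aleph0.1 hB
    rw [hn, hm] at hlt ⊢
    norm_cast at hlt ⊢
    omega
  obtain ⟨s, hs⟩ := exists_isTranscendenceBasis k B
  choose y hy using fun x : s => hπ x
  have hcomp : (π ∘ y) = ((↑) : s → B) := by
    funext x
    exact hy x
  have hy' : AlgebraicIndependent k y := by
    refine AlgebraicIndependent.of_comp π ?_
    rw [hcomp]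
    exact hs.1
  have hb : IsTranscendenceBasis k y := by
    refine hy'.isTranscendenceBasis_of_trdeg_le hfin ?_
    rw [hs.cardinalMk_eq_trdeg]
    exact hle
  have halg := hb.isAlgebraic
  have hne := Ideal.comap_ne_bot_of_algebraic_mem (R := Algebra.adjoin k (Set.range y))
    (I := RingHom.ker π) ha ((RingHom.mem_ker).2 h0) (halg.isAlgebraic a)
  apply hne
  rw [eq_bot_iff]
  rintro ⟨x, hx⟩ hxI
  have hx0 : π x = 0 := hxI
  have hx2 := hx
  rw [Algebra.adjoin_range_eq_range_aeval] at hx2
  obtain ⟨p, hp⟩ := hx2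
  have hp' : (MvPolynomial.aeval y) p = x := hp
  have hp0 : MvPolynomial.aeval ((↑) : s → B) p = 0 := by
    rw [← hcomp]
    have := MvPolynomial.comp_aeval_apply y π p
    rw [hp', hx0] at this
    exact this.symm
  have : p = 0 := by
    have hi := hs.1
    rw [algebraicIndependent_iff] at hi
    exact hi p hp0
  have hxz : x = 0 := by
    rw [← hp', this, map_zero]
  subst hxz
  rfl

theorem l4_degreeOf_zero {σ k : Type} [Field k] (i : σ) (p : MvPolynomial σ k)
    (h : i ∉ p.vars) : p.degreeOf i = 0 := by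
  classical
  rw [MvPolynomial.degreeOf_def, Multiset.count_eq_zero]
  rw [MvPolynomial.vars_def, Multiset.mem_toFinset] at h
  exact h

theorem l4_degreeOf_pos {σ k : Type} [Field k] (i : σ) (p : MvPolynomial σ k)
    (h : i ∈ p.vars) : p.degreeOf i ≠ 0 := by
  classical
  rw [MvPolynomial.degreeOf_def, ne_eq, Multiset.count_eq_zero, not_not]
  rw [MvPolynomial.vars_def, Multiset.mem_toFinset] at h
  exact h

theorem l4_hyper {k : Type} [Field k] (s : ℕ) (f : MvPolynomial (Fin s) k) (hf : Prime f) :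
    (s : Cardinal) ≤ Algebra.trdeg k (MvPolynomial (Fin s) k ⧸ Ideal.span {f}) + 1 := by
  classical
  have hex : ∃ i, i ∈ f.vars := by
    by_contra hno
    push Not at hno
    have : f.vars = ∅ := Finset.eq_empty_of_forall_notMem hno
    rw [MvPolynomial.vars_eq_empty_iff_eq_C] at this
    apply hf.not_isUnit
    rw [this]
    have hc : f.coeff 0 ≠ 0 := by
      intro h0
      rw [h0, map_zero] at this
      exact hf.ne_zero this
    exact (IsUnit.mk0 _ hc).map MvPolynomial.C
  obtain ⟨i, hi⟩ := hex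
  have hai : AlgebraicIndependent k (fun j : {j : Fin s // j ≠ i} =>
      (Ideal.Quotient.mkₐ k (Ideal.span {f})) (MvPolynomial.X (j : Fin s))) := by
    rw [algebraicIndependent_iff]
    intro p hp
    have h1 : (Ideal.Quotient.mkₐ k (Ideal.span {f}))
        (MvPolynomial.rename (Subtype.val : {j : Fin s // j ≠ i} → Fin s) p) = 0 := by
      rw [← hp]
      have := MvPolynomial.comp_aeval_apply (fun j : {j : Fin s // j ≠ i} =>
        (MvPolynomial.X (j : Fin s) : MvPolynomial (Fin s) k))
        (Ideal.Quotient.mkₐ k (Ideal.span {f})) p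
      rw [← this]
      congr 1
      have hr : (MvPolynomial.rename (R := k) (Subtype.val : {j : Fin s // j ≠ i} → Fin s)) =
          MvPolynomial.aeval (fun j : {j : Fin s // j ≠ i} =>
            (MvPolynomial.X (j : Fin s) : MvPolynomial (Fin s) k)) := by
        ext j
        simp
      rw [hr]
    have h2 : MvPolynomial.rename (Subtype.val : {j : Fin s // j ≠ i} → Fin s) p ∈
        Ideal.span {f} := by
      rw [Ideal.Quotient.mkₐ_eq_mk] at h1
      exact Ideal.Quotient.eq_zero_iff_mem.1 h1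
    rw [Ideal.mem_span_singleton] at h2
    obtain ⟨h, hh⟩ := h2
    by_contra hp0
    have hr0 : MvPolynomial.rename (Subtype.val : {j : Fin s // j ≠ i} → Fin s) p ≠ 0 := by
      intro h0
      apply hp0
      apply MvPolynomial.rename_injective _ Subtype.val_injective
      rw [h0, map_zero]
    have hh0 : h ≠ 0 := by
      rintro rfl
      rw [mul_zero] at hh
      exact hr0 hh
    have hd : (MvPolynomial.rename (Subtype.val : {j : Fin s // j ≠ i} → Fin s) p).degreeOf i
        = 0 := by
      apply l4_degreeOf_zero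
      intro hm
      obtain ⟨j, _, hj⟩ := MvPolynomial.mem_vars_rename _ _ hm
      exact j.2 hj
    rw [hh, MvPolynomial.degreeOf_mul_eq hf.ne_zero hh0] at hd
    exact l4_degreeOf_pos i f hi (by omega)
  have : Nontrivial (MvPolynomial (Fin s) k ⧸ Ideal.span {f}) := by
    apply Ideal.Quotient.nontrivial_iff.2
    rw [Ne, Ideal.span_singleton_eq_top]
    exact hf.not_isUnit
  have hle := hai.cardinalMk_le_trdeg
  have hcard : #{j : Fin s // j ≠ i} + 1 = (s : Cardinal) := by
    have : Fintype.card {j : Fin s // j ≠ i} = s - 1 := by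
      rw [Fintype.card_subtype_compl]
      simp
    rw [Cardinal.mk_fintype, this]
    have hs : 0 < s := i.pos
    norm_cast
    omega
  rw [← hcard]
  gcongr

theorem l4_down {k R : Type} [Field k] [CommRing R] [IsDomain R] [Algebra k R]
    [Algebra.FiniteType k R] (P : Ideal R) [P.IsPrime] (hP : P ≠ ⊥) :
    ∃ Q : Ideal R, Q.IsPrime ∧ Q ≤ P ∧ Q ≠ ⊥ ∧
      Algebra.trdeg k R ≤ Algebra.trdeg k (R ⧸ Q) + 1 := by
  obtain ⟨s, g, ginj, gint⟩ := exists_integral_inj_algHom_of_fg k R
  let _ : Algebra (MvPolynomial (Fin s) k) R := g.toRingHom.toAlgebra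
  have hst : IsScalarTower k (MvPolynomial (Fin s) k) R :=
    IsScalarTower.of_algebraMap_eq (fun x => (g.commutes x).symm)
  have hfs : FaithfulSMul (MvPolynomial (Fin s) k) R :=
    (faithfulSMul_iff_algebraMap_injective _ _).2 ginj
  have hint : Algebra.IsIntegral (MvPolynomial (Fin s) k) R := ⟨gint⟩
  have hfk : FaithfulSMul k (MvPolynomial (Fin s) k) := inferInstance
  have htr : Algebra.trdeg k R = (s : Cardinal) := by
    rw [← trdeg_add_eq k (MvPolynomial (Fin s) k) (A := R)]
    rw [trdeg_eq_zero (R := MvPolynomial (Fin s) k) (A := R), add_zero,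
      MvPolynomial.trdeg_of_isDomain]
    simp
  set p : Ideal (MvPolynomial (Fin s) k) := P.under (MvPolynomial (Fin s) k) with hp
  have hpne : p ≠ ⊥ := by
    obtain ⟨x, hx, hx0⟩ := Submodule.exists_mem_ne_zero_of_ne_bot hP
    exact Ideal.comap_ne_bot_of_integral_mem hx0 hx (Algebra.IsIntegral.isIntegral x)
  have hpp : p.IsPrime := inferInstance
  obtain ⟨f, hfp, hf⟩ := hpp.exists_mem_prime_of_ne_bot hpne
  have hfpr : (Ideal.span {f}).IsPrime := (Ideal.span_singleton_prime hf.ne_zero).2 hf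
  have hfle : Ideal.span {f} ≤ p := (Ideal.span_singleton_le_iff_mem p).2 hfp
  obtain ⟨Q, hQP, hQ, hQl⟩ := Ideal.exists_ideal_le_liesOver_of_le (p := Ideal.span {f})
    (q := p) P hfle
  refine ⟨Q, hQ, hQP, ?_, ?_⟩
  · rintro rfl
    have h1 : f ∈ (⊥ : Ideal R).under (MvPolynomial (Fin s) k) := by
      rw [← hQl.over]
      exact Ideal.mem_span_singleton_self f
    have h2 : g f = 0 := h1
    rw [← map_zero g] at h2
    exact hf.ne_zero (ginj h2)
  · rw [htr]
    refine (l4_hyper s f hf).trans ?_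
    gcongr
    have hle : Ideal.span {f} ≤ Q.comap g := by
      have := hQl.over
      exact this.le
    refine trdeg_le_of_injective (Ideal.quotientMapₐ Q g hle) ?_
    exact Ideal.quotientMap_injective' (H := hle) hQl.over.ge

theorem l4_nat {k R : Type} [Field k] [CommRing R] [IsDomain R] [Algebra k R]
    [Algebra.FiniteType k R] : Algebra.trdeg k R = (Cardinal.toNat (Algebra.trdeg k R) : Cardinal) :=
  (Cardinal.cast_toNat_of_lt_aleph0 (trdeg_lt_aleph0_of_finiteType)).symm

/-- transcendence degree as a natural number -/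
noncomputable def l4_td (k R : Type) [Field k] [CommRing R] [Algebra k R] : ℕ :=
  Cardinal.toNat (Algebra.trdeg k R)

theorem l4_td_succ {k A B : Type} [Field k] [CommRing A] [IsDomain A] [CommRing B] [IsDomain B]
    [Algebra k A] [Algebra k B] [Algebra.FiniteType k A] [Algebra.FiniteType k B]
    (π : A →ₐ[k] B) (hπ : Function.Surjective π)
    {a : A} (ha : a ≠ 0) (h0 : π a = 0) : l4_td k B + 1 ≤ l4_td k A := by
  have := l4_succ_le π hπ trdeg_lt_aleph0_of_finiteType ha h0
  rw [l4_nat (k := k) (R := A), l4_nat (k := k) (R := B)] at this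
  unfold l4_td
  exact_mod_cast this

theorem l4_td_quot {k R : Type} [Field k] [CommRing R] [IsDomain R] [Algebra k R]
    [Algebra.FiniteType k R] (q P : Ideal R) [q.IsPrime] [P.IsPrime] (h : q < P) :
    l4_td k (R ⧸ P) + 1 ≤ l4_td k (R ⧸ q) := by
  obtain ⟨x, hxP, hxq⟩ := Set.exists_of_ssubset h
  refine l4_td_succ (Ideal.Quotient.factorₐ k h.le) (Ideal.Quotient.factor_surjective h.le)
    (a := Ideal.Quotient.mk q x) ?_ ?_
  · rw [Ne, Ideal.Quotient.eq_zero_iff_mem]
    exact hxq
  · rw [Ideal.Quotient.factorₐ_apply_mk]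
    exact Ideal.Quotient.eq_zero_iff_mem.2 hxP

theorem l4_td_le {k R : Type} [Field k] [CommRing R] [IsDomain R] [Algebra k R]
    [Algebra.FiniteType k R] (q : Ideal R) [q.IsPrime] :
    l4_td k (R ⧸ q) ≤ l4_td k R := by
  have := trdeg_le_of_surjective (Ideal.Quotient.mkₐ k q) (Ideal.Quotient.mkₐ_surjective k q)
  rw [l4_nat (k := k) (R := R), l4_nat (k := k) (R := R ⧸ q)] at this
  unfold l4_td
  exact_mod_cast this

theorem l4_upper {k R : Type} [Field k] [CommRing R] [IsDomain R] [Algebra k R]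
    [Algebra.FiniteType k R] (m : ℕ) : ∀ (P : Ideal R) [P.IsPrime],
    l4_td k R ≤ m + l4_td k (R ⧸ P) → P.height ≤ m := by
  induction m with
  | zero =>
    intro P hP h
    rw [Ideal.height_le_iff]
    intro q hq hqP
    exfalso
    have h1 := l4_td_quot (k := k) q P hqP
    have h2 := l4_td_le (k := k) q
    omega
  | succ m ih =>
    intro P hP h
    rw [Ideal.height_le_iff]
    intro q hq hqP
    have h1 := l4_td_quot (k := k) q P hqP
    have h2 := ih q (by omega)
    refine h2.trans_lt ?_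
    exact_mod_cast Nat.lt_succ_self m

theorem l4_down' {k R : Type} [Field k] [CommRing R] [IsDomain R] [Algebra k R]
    [Algebra.FiniteType k R] (P : Ideal R) [P.IsPrime] (hP : P ≠ ⊥) :
    ∃ Q : Ideal R, Q.IsPrime ∧ Q ≤ P ∧ Q ≠ ⊥ ∧
      l4_td k R ≤ l4_td k (R ⧸ Q) + 1 := by
  obtain ⟨Q, hQ, h1, h2, h3⟩ := l4_down (k := k) P hP
  refine ⟨Q, hQ, h1, h2, ?_⟩
  rw [l4_nat (k := k) (R := R), l4_nat (k := k) (R := R ⧸ Q)] at h3
  unfold l4_td
  exact_mod_cast h3

theorem l4_lower {k R : Type} [Field k] [CommRing R] [IsDomain R] [Algebra k R]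
    [Algebra.FiniteType k R] (m : ℕ) : ∀ (Q P : Ideal R) [Q.IsPrime] [P.IsPrime], Q ≤ P →
    l4_td k (R ⧸ P) + m ≤ l4_td k (R ⧸ Q) → Q.height + m ≤ P.height := by
  induction m with
  | zero =>
    intro Q P hQ hP hQP _
    simpa using Ideal.height_mono hQP
  | succ m ih =>
    intro Q P hQ hP hQP h
    have hne : Q ≠ P := by
      rintro rfl
      omega
    have hlt : Q < P := lt_of_le_of_ne hQP hne
    have hPQ : (P.map (Ideal.Quotient.mk Q)).IsPrime :=
      Ideal.map_isPrime_of_surjective Ideal.Quotient.mk_surjective (by rwa [Ideal.mk_ker])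
    have hcm : (P.map (Ideal.Quotient.mk Q)).comap (Ideal.Quotient.mk Q) = P := by
      rw [Ideal.comap_map_of_surjective _ Ideal.Quotient.mk_surjective]
      rw [← RingHom.ker_eq_comap_bot, Ideal.mk_ker]
      exact sup_eq_left.2 hQP
    have hPne : P.map (Ideal.Quotient.mk Q) ≠ ⊥ := by
      intro h0
      rw [h0, ← RingHom.ker_eq_comap_bot, Ideal.mk_ker] at hcm
      exact hne hcm
    obtain ⟨Q', hQ', h1, h2, h3⟩ := l4_down' (k := k) (P.map (Ideal.Quotient.mk Q)) hPne
    have hQ'' : (Q'.comap (Ideal.Quotient.mk Q)).IsPrime := inferInstance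
    have hle : Q'.comap (Ideal.Quotient.mk Q) ≤ P := by
      rw [← hcm]
      exact Ideal.comap_mono h1
    have hltQ : Q < Q'.comap (Ideal.Quotient.mk Q) := by
      refine lt_of_le_of_ne ?_ ?_
      · intro x hx
        rw [Ideal.mem_comap, Ideal.Quotient.eq_zero_iff_mem.2 hx]
        exact Q'.zero_mem
      · intro h0
        apply h2
        have := Ideal.map_comap_of_surjective (Ideal.Quotient.mk Q) Ideal.Quotient.mk_surjective Q'
        rw [← this, ← h0]
        exact Ideal.map_quotient_self Q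
    have h4 : l4_td k ((R ⧸ Q) ⧸ Q') ≤ l4_td k (R ⧸ Q'.comap (Ideal.Quotient.mk Q)) := by
      have hs : Function.Surjective (Ideal.quotientMapₐ Q' (Ideal.Quotient.mkₐ k Q)
          (le_refl (Q'.comap (Ideal.Quotient.mkₐ k Q)))) := by
        intro x
        obtain ⟨y, rfl⟩ := Ideal.Quotient.mk_surjective x
        obtain ⟨z, rfl⟩ := Ideal.Quotient.mk_surjective y
        exact ⟨Ideal.Quotient.mk _ z, rfl⟩
      have hk := trdeg_le_of_surjective (R := k) _ hs
      rw [l4_nat (k := k) (R := (R ⧸ Q) ⧸ Q')] at hk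
      have hQ3 : (Q'.comap (Ideal.Quotient.mkₐ k Q)).IsPrime := inferInstance
      rw [l4_nat (k := k) (R := R ⧸ (Q'.comap (Ideal.Quotient.mkₐ k Q)))] at hk
      unfold l4_td
      exact_mod_cast hk
    have h5 := ih (Q'.comap (Ideal.Quotient.mk Q)) P hle (by omega)
    have h6 := Ideal.height_add_one_le_of_lt_of_isPrime hltQ
    calc Q.height + ((m + 1 : ℕ) : ℕ∞) = (Q.height + 1) + m := by
          push_cast
          ring
      _ ≤ (Q'.comap (Ideal.Quotient.mk Q)).height + m := by gcongr
      _ ≤ P.height := h5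

/-- `ht P + trdeg (R/P) = trdeg R` -/
theorem height_add_trdeg {k R : Type} [Field k] [CommRing R] [IsDomain R] [Algebra k R]
    [Algebra.FiniteType k R] (P : Ideal R) [P.IsPrime] :
    P.height + Cardinal.toENat (Algebra.trdeg k (R ⧸ P)) = Cardinal.toENat (Algebra.trdeg k R) := by
  have e1 : Cardinal.toENat (Algebra.trdeg k (R ⧸ P)) = (l4_td k (R ⧸ P) : ℕ∞) :=
    Cardinal.toENat_eq_natCast.2 l4_nat
  have e2 : Cardinal.toENat (Algebra.trdeg k R) = (l4_td k R : ℕ∞) :=
    Cardinal.toENat_eq_natCast.2 l4_nat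
  rw [e1, e2]
  have h0 := l4_td_le (k := k) P
  obtain ⟨m, hm⟩ := Nat.exists_eq_add_of_le h0
  have hu := l4_upper (k := k) m P (by omega)
  have hb : l4_td k (R ⧸ (⊥ : Ideal R)) = l4_td k R := by
    unfold l4_td
    rw [(AlgEquiv.quotientBot k R).trdeg_eq]
  have hl := l4_lower (k := k) m ⊥ P bot_le (by omega)
  rw [Ideal.height_bot, zero_add] at hl
  have : P.height = (m : ℕ∞) := le_antisymm hu hl
  rw [this, hm]
  push_cast
  ring

end H50.Z
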