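import Mathlib

/-! (L5) Derivations of fields of characteristic zero. -/

open scoped TensorProduct

namespace H50.Z

namespace L5

/-- an extension of fields of characteristic zero is formally smooth -/
theorem formallySmooth (E E' : Type) [Field E] [Field E'] [CharZero E] [Algebra E E'] :
    Algebra.FormallySmooth E E' := by
  obtain ⟨ι, v, hv⟩ := exists_isTranscendenceBasis' E E'
  have : Algebra.IsAlgebraic (IntermediateField.adjoin E (Set.range v)) E' :=
    hv.isAlgebraic_field
  have : CharZero (IntermediateField.adjoin E (Set.range v)) :=
    charZero_of_injective_algebraMap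
      (algebraMap E (IntermediateField.adjoin E (Set.range v))).injective
  have : Algebra.IsSeparable (IntermediateField.adjoin E (Set.range v)) E' :=
    inferInstance
  exact Algebra.FormallySmooth.of_algebraicIndependent_of_isSeparable hv.1

open scoped IntermediateField.algebraAdjoinAdjoin in
/-- an extension of fields of characteristic zero is formally smooth over the subalgebra generated
by a transcendence basis -/
theorem formallySmooth_adjoin {F E ι : Type} [Field F] [Field E] [CharZero F] [Algebra F E]
    {t : ι → E} (ht : IsTranscendenceBasis F t) :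
    Algebra.FormallySmooth (Algebra.adjoin F (Set.range t)) E := by
  have : Algebra.IsAlgebraic (IntermediateField.adjoin F (Set.range t)) E :=
    ht.isAlgebraic_field
  have : CharZero (IntermediateField.adjoin F (Set.range t)) :=
    charZero_of_injective_algebraMap
      (algebraMap F (IntermediateField.adjoin F (Set.range t))).injective
  have : Algebra.IsSeparable (IntermediateField.adjoin F (Set.range t)) E :=
    inferInstance
  have : Algebra.FormallySmooth (Algebra.adjoin F (Set.range t))
      (IntermediateField.adjoin F (Set.range t)) :=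
    .of_isLocalization (nonZeroDivisors _)
  have : Algebra.FormallyEtale (IntermediateField.adjoin F (Set.range t)) E :=
    Algebra.FormallyEtale.of_isSeparable _ E
  exact .comp _ (IntermediateField.adjoin F (Set.range t)) _

/-- evaluation of a combination of derivations -/
theorem sum_apply {F A : Type} [Field F] [CommRing A] [Algebra F A] {g : ℕ} (a : Fin g → A)
    (D : Fin g → Derivation F A A) (x : A) : (∑ j, a j • D j) x = ∑ j, a j * D j x := by
  have h := congrFun (map_sum (Derivation.coeFnAddMonoidHom (R := F) (A := A) (M := A))
    (fun j => a j • D j) Finset.univ) x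
  rw [Finset.sum_apply] at h
  exact h

/-- over a transcendence basis an extension of fields of characteristic zero is formally etale -/
theorem mapBaseChange_injective (F S T : Type) [CommRing F] [CommRing S] [CommRing T]
    [Algebra F S] [Algebra S T] [Algebra F T] [IsScalarTower F S T] [Algebra.FormallySmooth S T] :
    Function.Injective (KaehlerDifferential.mapBaseChange F S T) := by
  have h := Algebra.H1Cotangent.exact_δ_mapBaseChange F S T
  have : Subsingleton (Algebra.H1Cotangent S T) :=
    Algebra.FormallySmooth.subsingleton_h1Cotangent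
  rw [injective_iff_map_eq_zero]
  intro x hx
  obtain ⟨y, rfl⟩ := (h x).1 hx
  rw [Subsingleton.elim y 0, map_zero]

/-- derivations with values in `E'` extend -/
theorem exists_extend (F S E' : Type) [CommRing F] [CommRing S] [Field E']
    [Algebra F S] [Algebra S E'] [Algebra F E'] [IsScalarTower F S E'] 
    [Algebra.FormallySmooth S E'] (D : Derivation F S E') :
    ∃ D' : Derivation F E' E', ∀ x : S, D' (algebraMap S E' x) = D x := by
  let f : E' ⊗[S] Ω[S⁄F] →ₗ[E'] E' := LinearMap.liftBaseChange E' D.liftKaehlerDifferential
  obtain ⟨g, hg⟩ := LinearMap.exists_leftInverse_of_injective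
    (KaehlerDifferential.mapBaseChange F S E')
    (LinearMap.ker_eq_bot.2 (mapBaseChange_injective F S E'))
  refine ⟨(f ∘ₗ g).compDer (KaehlerDifferential.D F E'), ?_⟩
  intro x
  have h1 : KaehlerDifferential.mapBaseChange F S E' (1 ⊗ₜ KaehlerDifferential.D F S x) =
      KaehlerDifferential.D F E' (algebraMap S E' x) := by
    rw [KaehlerDifferential.mapBaseChange_tmul, one_smul, KaehlerDifferential.map_D]
  have h2 : g (KaehlerDifferential.D F E' (algebraMap S E' x)) = 1 ⊗ₜ KaehlerDifferential.D F S x := by
    rw [← h1]
    exact LinearMap.congr_fun hg _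
  change f (g (KaehlerDifferential.D F E' (algebraMap S E' x))) = D x
  rw [h2]
  simp [f]

end L5

/-- derivations with prescribed values on a transcendence basis exist -/
theorem exists_derivation {F E ι : Type} [Field F] [Field E] [CharZero F] [Algebra F E] {t : ι → E}
    (ht : IsTranscendenceBasis F t) (c : ι → E) :
    ∃ D : Derivation F E E, ∀ j, D (t j) = c j := by
  let _ : Algebra (MvPolynomial ι F) E := (MvPolynomial.aeval t).toAlgebra
  have hst : IsScalarTower F (MvPolynomial ι F) E :=
    IsScalarTower.of_algebraMap_eq' (by
      ext x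
      simp [RingHom.algebraMap_toAlgebra])
  let B := Algebra.adjoin F (Set.range t)
  let e : MvPolynomial ι F ≃ₐ[F] B := ht.1.aevalEquiv
  have he : ∀ p, ((e p : B) : E) = MvPolynomial.aeval t p := fun p => by
    simp [e, B]
  have := L5.formallySmooth_adjoin ht
  let d := MvPolynomial.mkDerivation F (A := E) c
  let D0 : Derivation F B E :=
    { toFun := fun b => d (e.symm b)
      map_add' := fun x y => by rw [map_add, map_add]
      map_smul' := fun r x => by
        rw [map_smul]
        exact d.map_smul r (e.symm x)
      map_one_eq_zero' := by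
        change d (e.symm 1) = 0
        rw [map_one, Derivation.map_one_eq_zero]
      leibniz' := fun x y => by
        change d (e.symm (x * y)) = (x : E) * d (e.symm y) + (y : E) * d (e.symm x)
        have hx : (x : E) = MvPolynomial.aeval t (e.symm x) := by
          rw [← he, AlgEquiv.apply_symm_apply]
        have hy : (y : E) = MvPolynomial.aeval t (e.symm y) := by
          rw [← he, AlgEquiv.apply_symm_apply]
        rw [map_mul, d.leibniz, hx, hy]
        rfl }
  obtain ⟨D, hD⟩ := L5.exists_extend F B E D0
  refine ⟨D, fun j => ?_⟩
  have h1 := hD (e (MvPolynomial.X j))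
  have h2 : algebraMap B E (e (MvPolynomial.X j)) = t j := by
    change ((e (MvPolynomial.X j) : B) : E) = t j
    rw [he, MvPolynomial.aeval_X]
  rw [h2] at h1
  rw [h1]
  change d (e.symm (e (MvPolynomial.X j))) = c j
  rw [AlgEquiv.symm_apply_apply]
  exact MvPolynomial.mkDerivation_X F c j

/-- a derivation (with values in a torsion free module over a domain of characteristic zero) killing a transcendence basis
(more generally: a set over which everything is algebraic) is zero -/
theorem derivation_eq_zero {F A M ι : Type} [Field F] [CharZero F] [CommRing A] [IsDomain A]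
    [Algebra F A] [AddCommGroup M] [Module A M] [Module F M] [IsScalarTower F A M]
    [NoZeroSMulDivisors A M] {t : ι → A} (ht : Algebra.IsAlgebraic (Algebra.adjoin F (Set.range t)) A)
    (D : Derivation F A M) (h : ∀ j, D (t j) = 0) : D = 0 := by
  have : CharZero A := charZero_of_injective_algebraMap (algebraMap F A).injective
  have hB : ∀ b ∈ Algebra.adjoin F (Set.range t), D b = 0 := by
    intro b hb
    induction hb using Algebra.adjoin_induction with
    | mem x hx =>
      obtain ⟨j, rfl⟩ := hx
      exact h j
    | algebraMap r => exact D.map_algebraMap r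
    | add x y _ _ hx hy => rw [map_add, hx, hy, add_zero]
    | mul x y _ _ hx hy => rw [D.leibniz, hx, hy, smul_zero, smul_zero, add_zero]
  let B := Algebra.adjoin F (Set.range t)
  let DB : Derivation B A M :=
    { toFun := D
      map_add' := D.map_add
      map_smul' := fun b x => by
        change D ((b : A) * x) = (b : A) • D x
        rw [D.leibniz, hB b b.2, smul_zero, add_zero]
      map_one_eq_zero' := D.map_one_eq_zero
      leibniz' := D.leibniz }
  ext a
  change D a = 0
  obtain ⟨p, hp0, hp⟩ := ht.isAlgebraic a
  classical
  have hex : ∃ n, ∃ p : Polynomial B, p ≠ 0 ∧ Polynomial.aeval a p = 0 ∧ p.natDegree = n :=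
    ⟨_, p, hp0, hp, rfl⟩
  obtain ⟨q, hq0, hq, hqn⟩ := Nat.find_spec hex
  have hmin : ∀ r : Polynomial B, r ≠ 0 → r.natDegree < q.natDegree → Polynomial.aeval a r ≠ 0 := by
    intro r hr0 hr hra
    rw [hqn] at hr
    exact Nat.find_min hex hr ⟨r, hr0, hra, rfl⟩
  have hdeg : q.natDegree ≠ 0 := by
    intro h0
    rw [Polynomial.natDegree_eq_zero] at h0
    obtain ⟨c, rfl⟩ := h0
    rw [Polynomial.aeval_C] at hq
    apply hq0
    have : c = 0 := by
      apply Subtype.ext
      simpa using hq
    rw [this, Polynomial.C_0]
  have hder : Polynomial.derivative q ≠ 0 := by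
    intro h0
    exact hdeg (Polynomial.derivative_eq_zero.1 h0)
  have hlt : (Polynomial.derivative q).natDegree < q.natDegree :=
    Polynomial.natDegree_derivative_lt hdeg
  have h1 := DB.map_aeval q a
  rw [hq, map_zero] at h1
  have h2 := (smul_eq_zero.1 h1.symm).resolve_left (hmin _ hder hlt)
  exact h2

/-- derivations extend along extensions of fields of characteristic zero -/
theorem exists_derivation_extend {F E E' : Type} [Field F] [Field E] [Field E'] [CharZero F]
    [Algebra F E] [Algebra E E'] [Algebra F E'] [IsScalarTower F E E'] (D : Derivation F E E') :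
    ∃ D' : Derivation F E' E', ∀ x : E, D' (algebraMap E E' x) = D x := by
  have : CharZero E := charZero_of_injective_algebraMap (algebraMap F E).injective
  have := L5.formallySmooth E E'
  exact L5.exists_extend F E E' D

/-- an element killed by all derivations is algebraic over the base field -/
theorem isAlgebraic_of_derivation {F E : Type} [Field F] [Field E] [CharZero F] [Algebra F E]
    (x : E) (h : ∀ D : Derivation F E E, D x = 0) : IsAlgebraic F x := by
  by_contra hx
  have hx' : Transcendental F x := hx
  have h1 : AlgebraicIndepOn F id ({x} : Set E) := by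
    exact (algebraicIndependent_unique_type_iff (ι := ({x} : Set E))).2 (by simpa using hx')
  obtain ⟨s, hs, hb⟩ := exists_isTranscendenceBasis_superset h1
  obtain ⟨D, hD⟩ := exists_derivation hb (fun _ => 1)
  have h2 := hD ⟨x, hs rfl⟩
  rw [h D] at h2
  exact zero_ne_one h2

/-- If `E ⊆ E'` are fields of characteristic zero, `y_1, …, y_n ∈ E'` and the vectors
`(D y_1, …, D y_n)`, `D ∈ Der_F(E')`, all lie in a subspace of dimension `g` of `E'^n`, then
`trdeg F(y) ≤ g`. -/
theorem trdeg_adjoin_le {F E' : Type} [Field F] [Field E'] [CharZero F] [Algebra F E'] {n : ℕ}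
    (y : Fin n → E') (W : Submodule E' (Fin n → E'))
    (h : ∀ D : Derivation F E' E', (fun i => D (y i)) ∈ W) :
    Algebra.trdeg F (Algebra.adjoin F (Set.range y)) ≤ Module.finrank E' W := by
  let B := Algebra.adjoin F (Set.range y)
  let yB : Fin n → B := fun i => ⟨y i, Algebra.subset_adjoin ⟨i, rfl⟩⟩
  have htop : Algebra.adjoin F (Set.range yB) = ⊤ := by
    have h1 : (Set.range yB) = ((↑) : B → E') ⁻¹' (Set.range y) := by
      ext b
      constructor
      · rintro ⟨i, rfl⟩
        exact ⟨i, rfl⟩
      · rintro ⟨i, hi⟩
        exact ⟨i, Subtype.ext hi⟩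
    rw [h1]
    exact Algebra.adjoin_adjoin_coe_preimage
  have halg : Algebra.IsAlgebraic (Algebra.adjoin F (Set.range yB)) B := by
    rw [htop]
    exact ⟨fun b => isAlgebraic_algebraMap (⟨b, Algebra.mem_top⟩ : (⊤ : Subalgebra F B))⟩
  obtain ⟨s, hs, hbs⟩ := exists_isTranscendenceBasis_subset (R := F) (A := B) (Set.range yB)
  rw [← hbs.cardinalMk_eq_trdeg]
  -- extend to a transcendence basis of `E'`
  have hind : AlgebraicIndependent F (fun b : s => ((b : B) : E')) :=
    hbs.1.map' (f := B.val) Subtype.val_injective
  have hind' : AlgebraicIndepOn F id (Set.range (fun b : s => ((b : B) : E'))) := by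
    exact (algebraicIndependent_subtype_range (by
      intro a b hab
      exact Subtype.ext (Subtype.ext hab))).2 hind
  obtain ⟨u, hu, hbu⟩ := exists_isTranscendenceBasis_superset hind'
  classical
  have hD : ∀ b : s, ∃ D : Derivation F E' E', ∀ b' : s,
      D ((b' : B) : E') = if b' = b then 1 else 0 := by
    intro b
    obtain ⟨D, hD⟩ := exists_derivation hbu (fun v => if (v : E') = ((b : B) : E') then 1 else 0)
    refine ⟨D, fun b' => ?_⟩
    have := hD ⟨((b' : B) : E'), hu ⟨b', rfl⟩⟩
    simp only at this
    rw [this]
    congr 1
    simp only [eq_iff_iff]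
    constructor
    · intro h
      exact Subtype.ext (Subtype.ext h)
    · rintro rfl
      rfl
  choose D hD using hD
  have hidx : ∀ b : s, ∃ i, y i = ((b : B) : E') := by
    intro b
    obtain ⟨i, hi⟩ := hs b.2
    exact ⟨i, congrArg Subtype.val hi⟩
  choose idx hidx using hidx
  have hfin : Finite s := Set.Finite.subset (Set.finite_range yB) hs
  have := Fintype.ofFinite s
  have hli : LinearIndependent E' (fun b : s => (⟨fun i => D b (y i), h (D b)⟩ : W)) := by
    rw [Fintype.linearIndependent_iff]
    intro a ha b
    have h1 := congrArg (fun w : W => (w : Fin n → E') (idx b)) ha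
    simp only [Submodule.coe_sum, Submodule.coe_smul, Finset.sum_apply, Pi.smul_apply,
      smul_eq_mul, hidx, hD] at h1
    simpa using h1
  have := hli.fintype_card_le_finrank
  rw [Cardinal.mk_fintype]
  exact_mod_cast this

/-- If a domain `A` of finite transcendence degree has `g` derivations and elements `y_1, …, y_n`
such that the matrix `(D_j y_i)` has independent columns over the fraction field then
`g ≤ trdeg`. -/
theorem le_trdeg_of_derivations {F A : Type} [Field F] [CharZero F] [CommRing A] [IsDomain A]
    [Algebra F A] {g n : ℕ} (D : Fin g → Derivation F A A) (y : Fin n → A)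
    (h : LinearIndependent A (fun j => fun i => D j (y i))) :
    (g : Cardinal) ≤ Algebra.trdeg F A := by
  by_contra hlt
  rw [not_le] at hlt
  obtain ⟨ι, t, ht⟩ := exists_isTranscendenceBasis' F A
  have hcard : Cardinal.mk ι = Algebra.trdeg F A := ht.cardinalMk_eq_trdeg
  rw [← hcard] at hlt
  have : Finite ι := Cardinal.lt_aleph0_iff_finite.1 (hlt.trans (Cardinal.natCast_lt_aleph0))
  have := Fintype.ofFinite ι
  rw [Cardinal.mk_fintype, Nat.cast_lt] at hlt
  have hdep : ¬ LinearIndependent A (fun (j : Fin g) => fun k => D j (t k)) := by
    intro hli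
    have h1 := hli.fintype_card_le_finrank
    rw [Fintype.card_fin, Module.finrank_fintype_fun_eq_card] at h1
    omega
  rw [Fintype.not_linearIndependent_iff] at hdep
  obtain ⟨a, ha, j0, hj0⟩ := hdep
  have hD0 : (∑ j, a j • D j) = 0 := by
    apply derivation_eq_zero ht.isAlgebraic
    intro k
    have := congrFun ha k
    rw [L5.sum_apply]
    simpa [Finset.sum_apply] using this
  apply hj0
  rw [Fintype.linearIndependent_iff] at h
  apply h a
  ext i
  have := congrArg (fun E : Derivation F A A => E (y i)) hD0
  simp only [L5.sum_apply] at this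
  simpa [Finset.sum_apply] using this

end H50.Z
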