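import Pool.Agent.H50.Z.R3_Hilbert
import Pool.Agent.H50.Z.L5_Der

/-! (C2a) Upper bound for the growth of `D(A)`. -/

open MvPolynomial H50.DO

set_option linter.unusedSectionVars false

namespace H50.Z

namespace C2a

/-- polynomials with independent leading exponents are algebraically independent -/
theorem algebraicIndependent_of_degree {σ ι k : Type} [Fintype ι] [Field k] (m : MonomialOrder σ)
    (w : ι → MvPolynomial σ k) (hw : ∀ i, w i ≠ 0)
    (hinj : Function.Injective fun α : ι →₀ ℕ => ∑ i, α i • m.degree (w i)) :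
    AlgebraicIndependent k w := by
  classical
  rw [algebraicIndependent_iff]
  intro p hp
  by_contra hp0
  obtain ⟨α, hα, hmax⟩ := p.support.exists_max_image
    (fun α => m.toSyn (∑ i, α i • m.degree (w i))) (support_nonempty.2 hp0)
  have hdeg : ∀ β : ι →₀ ℕ, m.degree (∏ i, w i ^ β i) = ∑ i, β i • m.degree (w i) := by
    intro β
    rw [MonomialOrder.degree_prod (fun i _ => pow_ne_zero _ (hw i))]
    apply Finset.sum_congr rfl
    intro i _
    rw [MonomialOrder.degree_pow]
  have h1 : coeff (∑ i, α i • m.degree (w i)) (aeval w p) = 0 := by rw [hp]; simp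
  rw [aeval_def, eval₂_eq', coeff_sum, Finset.sum_eq_single α] at h1
  · rw [algebraMap_eq, coeff_C_mul, ← hdeg α] at h1
    rcases mul_eq_zero.1 h1 with h2 | h2
    · exact (mem_support_iff.1 hα) h2
    · rw [MonomialOrder.coeff_degree_eq_zero_iff] at h2
      exact (Finset.prod_ne_zero_iff.2 fun i _ => pow_ne_zero _ (hw i)) h2
  · intro β hβ hne
    rw [algebraMap_eq, coeff_C_mul, m.coeff_eq_zero_of_lt, mul_zero]
    rw [hdeg β]
    refine lt_of_le_of_ne (hmax β hβ) ?_
    intro heq
    exact hne (hinj (m.toSyn.injective heq))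
  · intro h
    exact absurd hα h

/-- dimension of a space of polynomials of bounded degree in a subalgebra of transcendence
degree at most `e` -/
theorem finrank_le {σ : Type} [Fintype σ] (B : Subalgebra ℂ (MvPolynomial σ ℂ)) (e : ℕ)
    (hB : Algebra.trdeg ℂ B ≤ e) (W : Submodule ℂ (MvPolynomial σ ℂ)) (hWB : ∀ w ∈ W, w ∈ B)
    (M : ℕ) (hM : ∀ w ∈ W, w.totalDegree ≤ M) :
    Module.Finite ℂ W ∧ Module.finrank ℂ W ≤ (M + 1) ^ e := by
  classical
  let _ : LinearOrder σ := LinearOrder.lift' (Fintype.equivFin σ) (Equiv.injective _)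
  let m : MonomialOrder σ := MonomialOrder.lex
  let E : Set (σ →₀ ℕ) := m.degree '' {w : MvPolynomial σ ℂ | w ∈ W ∧ w ≠ 0}
  have hE : ∀ v : E, ∀ i, (v : σ →₀ ℕ) i < M + 1 := by
    rintro ⟨_, w, ⟨hw, hw0⟩, rfl⟩ i
    have h1 : m.degree w ∈ w.support := m.degree_mem_support hw0
    have h2 := (le_totalDegree h1).trans (hM w hw)
    have h3 : m.degree w i ≤ (m.degree w).sum fun _ n => n := by
      by_cases hi : i ∈ (m.degree w).support
      · exact Finset.single_le_sum (f := fun i => m.degree w i) (fun _ _ => Nat.zero_le _) hi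
      · rw [Finsupp.notMem_support_iff.1 hi]
        exact Nat.zero_le _
    exact Nat.lt_succ_of_le (h3.trans h2)
  let cast : E → (σ → ℚ) := fun v i => ((v : σ →₀ ℕ) i : ℚ)
  let V : Submodule ℚ (σ → ℚ) := Submodule.span ℚ (Set.range cast)
  have hV : Module.finrank ℚ V ≤ e := by
    obtain ⟨κ, a, ha, hsp, hli⟩ := exists_linearIndependent' ℚ cast
    have : Finite κ := hli.finite
    have := Fintype.ofFinite κ
    have h1 : Module.finrank ℚ V = Fintype.card κ := by
      change Module.finrank ℚ (Submodule.span ℚ (Set.range cast)) = _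
      rw [← hsp, finrank_span_eq_card hli]
    have h2 : ∀ k : κ, ∃ w : MvPolynomial σ ℂ, (w ∈ W ∧ w ≠ 0) ∧ m.degree w = a k := fun k =>
      (a k).2
    choose w hw hdw using h2
    have h3 : AlgebraicIndependent ℂ w := by
      apply algebraicIndependent_of_degree m w (fun k => (hw k).2)
      intro α β hαβ
      simp only [hdw] at hαβ
      rw [Fintype.linearIndependent_iff] at hli
      have h4 := hli (fun k => (α k : ℚ) - β k) (by
        funext i
        have h5 := DFunLike.congr_fun hαβ i
        simp only [Finsupp.coe_finsetSum, Finset.sum_apply, Finsupp.coe_smul, Pi.smul_apply,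
          smul_eq_mul] at h5
        have h6 : (∑ k, (α k : ℚ) * (((a k : E) : σ →₀ ℕ) i : ℚ)) =
            ∑ k, (β k : ℚ) * (((a k : E) : σ →₀ ℕ) i : ℚ) := by exact_mod_cast h5
        simp only [Function.comp_apply, Finset.sum_apply, Pi.smul_apply, smul_eq_mul, cast,
          Pi.zero_apply, sub_mul, Finset.sum_sub_distrib]
        rw [h6, sub_self])
      ext k
      have := h4 k
      have h7 : (α k : ℚ) = β k := by linarith
      exact_mod_cast h7
    have h4 : AlgebraicIndependent ℂ (fun k => (⟨w k, hWB _ (hw k).1⟩ : B)) :=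
      AlgebraicIndependent.of_comp B.val (x := fun k => (⟨w k, hWB _ (hw k).1⟩ : B)) h3
    have h5 := h4.lift_cardinalMk_le_trdeg
    rw [Cardinal.lift_id, Cardinal.lift_id, Cardinal.mk_fintype] at h5
    have h6 := h5.trans hB
    rw [h1]
    exact_mod_cast h6
  -- coordinates
  obtain ⟨κ, a, ha, hsp, hli⟩ := exists_linearIndependent' ℚ
    (fun i : σ => (LinearMap.proj i : (σ → ℚ) →ₗ[ℚ] ℚ).comp V.subtype)
  have : Finite κ := hli.finite
  have := Fintype.ofFinite κ
  have hκ : Fintype.card κ ≤ e := by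
    have h1 := hli.fintype_card_le_finrank
    rw [Subspace.dual_finrank_eq] at h1
    exact h1.trans hV
  let g : E → (κ → Fin (M + 1)) := fun v k => ⟨(v : σ →₀ ℕ) (a k), hE v (a k)⟩
  have hg : Function.Injective g := by
    intro v v' hvv
    apply Subtype.ext
    ext i
    have hc : ∀ v : E, cast v ∈ V := fun v => Submodule.subset_span ⟨v, rfl⟩
    let u : V := ⟨cast v, hc v⟩ - ⟨cast v', hc v'⟩
    have h1 : ∀ k, ((LinearMap.proj (a k) : (σ → ℚ) →ₗ[ℚ] ℚ).comp V.subtype) u = 0 := by
      intro k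
      have h2 := congrArg Fin.val (congrFun hvv k)
      simp only [g] at h2
      simp [u, cast, h2]
    have h2 : ∀ φ ∈ Submodule.span ℚ (Set.range
        ((fun i : σ => (LinearMap.proj i : (σ → ℚ) →ₗ[ℚ] ℚ).comp V.subtype) ∘ a)), φ u = 0 := by
      intro φ hφ
      induction hφ using Submodule.span_induction with
      | mem x hx =>
        obtain ⟨k, rfl⟩ := hx
        exact h1 k
      | zero => rfl
      | add x y _ _ hx hy => rw [LinearMap.add_apply, hx, hy, add_zero]
      | smul c x _ hx => rw [LinearMap.smul_apply, hx, smul_zero]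
    rw [hsp] at h2
    have h3 := h2 _ (Submodule.subset_span ⟨i, rfl⟩)
    simp only [LinearMap.comp_apply, Submodule.subtype_apply, LinearMap.proj_apply, u,
      Submodule.coe_sub, Pi.sub_apply, cast, sub_eq_zero] at h3
    exact_mod_cast h3
  have hEfin : Finite E := Finite.of_injective g hg
  have := Fintype.ofFinite E
  have hEcard : Fintype.card E ≤ (M + 1) ^ e := by
    have h1 := Fintype.card_le_of_injective g hg
    rw [Fintype.card_fun, Fintype.card_fin] at h1
    exact h1.trans (Nat.pow_le_pow_right (Nat.succ_pos M) hκ)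
  let Φ : W →ₗ[ℂ] (E → ℂ) := LinearMap.pi fun v => (lcoeff ℂ (v : σ →₀ ℕ)).comp W.subtype
  have hΦ : Function.Injective Φ := by
    rw [injective_iff_map_eq_zero]
    intro w hw
    by_contra hne
    have hw0 : (w : MvPolynomial σ ℂ) ≠ 0 := fun h => hne (Subtype.ext h)
    have h1 := congrFun hw ⟨m.degree (w : MvPolynomial σ ℂ), w, ⟨w.2, hw0⟩, rfl⟩
    have h2 : coeff (m.degree (w : MvPolynomial σ ℂ)) (w : MvPolynomial σ ℂ) = 0 := h1
    rw [MonomialOrder.coeff_degree_eq_zero_iff] at h2
    exact hw0 h2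
  refine ⟨Module.Finite.of_injective Φ hΦ, ?_⟩
  have h1 := LinearMap.finrank_le_finrank_of_injective hΦ
  rw [Module.finrank_fintype_fun_eq_card] at h1
  exact h1.trans hEcard

section Kernel

variable {A : Type} [CommRing A] [IsDomain A] [Algebra ℂ A]

/-- the derivation `g ↦ [E, g]` given by an operator of order `≤ 1` -/
noncomputable def derOf (E : Module.End ℂ A) (hE : DOp 2 E) : Derivation ℂ A A :=
  Derivation.mk'
    { toFun := fun g => ad g E 1
      map_add' := fun f g => by rw [ad_add_left, LinearMap.add_apply]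
      map_smul' := fun c g => by rw [ad_smul_left, LinearMap.smul_apply]; rfl }
    (fun f g => by
      change ad (f * g) E 1 = f * ad g E 1 + g * ad f E 1
      have h1 := LinearMap.congr_fun (hE g).eq_mulLeft f
      rw [LinearMap.mulLeft_apply] at h1
      rw [ad_mul_left, LinearMap.add_apply, Module.End.mul_apply, Module.End.mul_apply,
        LinearMap.mulLeft_apply, LinearMap.mulLeft_apply, mul_one, h1, mul_comm])

lemma derOf_apply (E : Module.End ℂ A) (hE : DOp 2 E) (g : A) : derOf E hE g = ad g E 1 := rfl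

lemma adL_mixed {ι : Type} (a : ι → A)
    (ha : Algebra.IsAlgebraic (Algebra.adjoin ℂ (Set.range a)) A) {n : ℕ} {P : Module.End ℂ A}
    (hP : DOp (n + 1) P) (h : ∀ w : List ι, w.length = n → adL (w.map a) P = 0) (l₁ : List A)
    (l₂ : List ι) (hl : l₁.length + l₂.length = n) : adL (l₁ ++ l₂.map a) P = 0 := by
  induction l₁ generalizing l₂ with
  | nil => exact h l₂ (by simpa using hl)
  | cons f l₁ ih =>
    have hE : DOp 2 (adL (l₁ ++ l₂.map a) P) := by
      apply DOp.adL
      rw [List.length_append, List.length_map]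
      simp only [List.length_cons] at hl
      rwa [show 2 + (l₁.length + l₂.length) = n + 1 by omega]
    have h0 : derOf _ hE = 0 := by
      apply derivation_eq_zero ha
      intro j
      rw [derOf_apply]
      have h1 := ih (j :: l₂) (by simp only [List.length_cons] at hl ⊢; omega)
      have h3 : (a j :: (l₁ ++ l₂.map a)).Perm (l₁ ++ (j :: l₂).map a) := List.perm_middle.symm
      rw [← adL_cons, adL_perm h3, h1]
      rfl
    have h2 : ad f (adL (l₁ ++ l₂.map a) P) 1 = 0 := by
      rw [← derOf_apply _ hE, h0]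
      rfl
    rw [List.cons_append, adL_cons, (hE f).eq_mulLeft, h2]
    simp

/-- iterated commutators as a linear map -/
noncomputable def adLin (l : List A) : Module.End ℂ A →ₗ[ℂ] Module.End ℂ A := (l.map adE).prod

lemma adLin_apply (l : List A) (P : Module.End ℂ A) : adLin l P = adL l P := by
  induction l with
  | nil => rfl
  | cons f l ih =>
    unfold adLin at ih ⊢
    rw [List.map_cons, List.prod_cons, Module.End.mul_apply, ih]
    rfl

/-- the canonical word with given multiplicities -/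
noncomputable def word {ι : Type} (α : ι →₀ ℕ) : List ι := (Finsupp.toMultiset α).toList

lemma length_word {ι : Type} (α : ι →₀ ℕ) : (word α).length = α.sum fun _ n => n := by
  unfold word
  rw [Multiset.length_toList, Finsupp.card_toMultiset]
  rfl

lemma perm_word {ι : Type} [DecidableEq ι] (w : List ι) :
    (word (Multiset.toFinsupp (w : Multiset ι))).Perm w := by
  rw [← Multiset.coe_eq_coe]
  unfold word
  rw [Multiset.coe_toList, Multiset.toFinsupp_toMultiset]

/-- exponents of degree `≤ n` -/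
noncomputable def TT (d n : ℕ) : Finset (Fin d →₀ ℕ) :=
  (Finset.range (n + 1)).biUnion fun k => Finset.univ.finsuppAntidiag k

lemma mem_TT {d n : ℕ} {α : Fin d →₀ ℕ} : α ∈ TT d n ↔ (α.sum fun _ n => n) ≤ n := by
  classical
  have h1 : (α.sum fun _ n => n) = ∑ i, α i := Finsupp.sum_fintype _ _ (fun _ => rfl)
  unfold TT
  simp only [Finset.mem_biUnion, Finset.mem_range, Finset.mem_finsuppAntidiag, h1]
  constructor
  · rintro ⟨k, hk, h2, -⟩
    have h3 : ∑ i, α i = k := h2
    omega
  · intro h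
    exact ⟨_, Nat.lt_succ_of_le h, rfl, Finset.subset_univ _⟩

/-- the full symbol -/
noncomputable def Psi {d : ℕ} (a : Fin d → A) (n : ℕ) :
    Module.End ℂ A →ₗ[ℂ] MvPolynomial (Fin d) A :=
  ∑ α ∈ TT d n, (((monomial α : A →ₗ[A] MvPolynomial (Fin d) A).restrictScalars ℂ).comp
    (LinearMap.applyₗ (1 : A))).comp (adLin ((word α).map a))

lemma Psi_apply {d : ℕ} (a : Fin d → A) (n : ℕ) (P : Module.End ℂ A) :
    Psi a n P = ∑ α ∈ TT d n, monomial α (adL ((word α).map a) P 1) := by
  unfold Psi
  rw [LinearMap.sum_apply]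
  apply Finset.sum_congr rfl
  intro α _
  rw [LinearMap.comp_apply, adLin_apply]
  rfl

lemma eq_zero_of_Psi {d : ℕ} (a : Fin d → A)
    (ha : Algebra.IsAlgebraic (Algebra.adjoin ℂ (Set.range a)) A) {n : ℕ} {P : Module.End ℂ A}
    (hP : DOp (n + 1) P) (h : Psi a n P = 0) : P = 0 := by
  classical
  have h1 : ∀ w : List (Fin d), w.length ≤ n → adL (w.map a) P 1 = 0 := by
    intro w hw
    have h2 := congrArg (coeff (Multiset.toFinsupp (w : Multiset (Fin d)))) h
    rw [Psi_apply, coeff_sum, coeff_zero, Finset.sum_eq_single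
      (Multiset.toFinsupp (w : Multiset (Fin d)))] at h2
    · rw [coeff_monomial, if_pos rfl] at h2
      rw [← h2, adL_perm ((perm_word w).map a)]
    · intro β _ hne
      rw [coeff_monomial, if_neg hne]
    · intro hn
      exfalso
      apply hn
      rw [mem_TT, ← length_word, (perm_word w).length_eq]
      exact hw
  have h2 : ∀ k ≤ n + 1, DOp (n + 1 - k) P := by
    intro k
    induction k with
    | zero => intro _; exact hP
    | succ k ih =>
      intro hk
      have h3 := ih (by omega)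
      rw [show n + 1 - k = (n + 1 - (k + 1)) + 1 by omega] at h3
      rw [DOp_iff_adL]
      intro l hl
      have h4 := adL_mixed a ha h3 (fun w hw => by
        have h5 : DOp 1 (adL (w.map a) P) := by
          apply DOp.adL
          rw [List.length_map, hw, add_comm]
          exact h3
        rw [h5.eq_mulLeft, h1 w (by omega)]
        simp) l [] (by simpa using hl)
      simpa using h4
  have h3 := h2 (n + 1) le_rfl
  rw [Nat.sub_self] at h3
  exact h3

end Kernel

section Theta

variable {ν : Type} (A : Subalgebra ℂ (MvPolynomial ν ℂ)) (d : ℕ)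

/-- `A[c] ⊆ ℂ[c, x]` -/
noncomputable def Theta : MvPolynomial (Fin d) A →ₐ[ℂ] MvPolynomial (Fin d ⊕ ν) ℂ :=
  ((sumAlgEquiv ℂ (Fin d) ν).symm : MvPolynomial (Fin d) (MvPolynomial ν ℂ) →ₐ[ℂ] _).comp
    (mapAlgHom A.val)

lemma Theta_injective : Function.Injective (Theta A d) := by
  intro F G h
  have h1 := (sumAlgEquiv ℂ (Fin d) ν).symm.injective h
  exact MvPolynomial.map_injective (A.val : A →+* MvPolynomial ν ℂ) Subtype.val_injective h1

lemma Theta_monomial (α : Fin d →₀ ℕ) (f : A) :
    Theta A d (monomial α f) =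
      (∏ j, X (Sum.inl j) ^ α j) * rename Sum.inr (f : MvPolynomial ν ℂ) := by
  have h1 : Theta A d (monomial α f) =
      (sumAlgEquiv ℂ (Fin d) ν).symm (monomial α (f : MvPolynomial ν ℂ)) := by
    unfold Theta
    rw [AlgHom.comp_apply, mapAlgHom_apply, map_monomial]
    rfl
  rw [h1, AlgEquiv.symm_apply_eq]
  simp only [map_mul, map_prod, map_pow, sumAlgEquiv_X_inl]
  have h := AlgHom.congr_fun (sumAlgEquiv_comp_rename_inr (R := ℂ) (S₁ := Fin d) (S₂ := ν))
    (f : MvPolynomial ν ℂ)
  have h2 : (sumAlgEquiv ℂ (Fin d) ν) (rename Sum.inr (f : MvPolynomial ν ℂ)) = C (f : MvPolynomial ν ℂ) := h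
  rw [h2, monomial_eq, mul_comm, Finsupp.prod_fintype _ _ (by simp)]

lemma totalDegree_Theta_monomial (α : Fin d →₀ ℕ) (f : A) (n m : ℕ)
    (hα : (α.sum fun _ n => n) ≤ n) (hf : (f : MvPolynomial ν ℂ).totalDegree ≤ m) :
    (Theta A d (monomial α f)).totalDegree ≤ n + m := by
  rw [Theta_monomial]
  refine (totalDegree_mul _ _).trans (add_le_add ?_ ?_)
  · refine (totalDegree_finsetProd _ _).trans (le_trans ?_ hα)
    rw [Finsupp.sum_fintype _ _ (fun _ => rfl)]
    apply Finset.sum_le_sum
    intro j _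
    refine (totalDegree_pow _ _).trans ?_
    rw [totalDegree_X, mul_one]
  · exact (totalDegree_rename_le _ _).trans hf

lemma trdeg_range_Theta (hd : Algebra.trdeg ℂ A = d) :
    Algebra.trdeg ℂ (Theta A d).range ≤ ((2 * d : ℕ) : Cardinal) := by
  have h1 := trdeg_add_eq ℂ A (A := MvPolynomial (Fin d) A)
  rw [hd, MvPolynomial.trdeg_of_isDomain] at h1
  have h2 : Algebra.trdeg ℂ (Theta A d).range ≤ Algebra.trdeg ℂ (MvPolynomial (Fin d) A) :=
    trdeg_le_of_surjective _ (AlgHom.rangeRestrict_surjective (Theta A d))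
  rw [← h1] at h2
  refine h2.trans ?_
  simp only [Cardinal.mk_fin, Cardinal.lift_natCast]
  rw [two_mul]
  push_cast
  exact le_rfl

lemma exists_basis {A : Type} [CommRing A] [IsDomain A] [Algebra ℂ A] {d : ℕ}
    (hd : Algebra.trdeg ℂ A = d) : ∃ a : Fin d → A, IsTranscendenceBasis ℂ a := by
  obtain ⟨ι, t, ht⟩ := exists_isTranscendenceBasis' ℂ A
  have h1 : Cardinal.mk ι = d := by rw [ht.cardinalMk_eq_trdeg, hd]
  have h2 : Cardinal.mk ι = Cardinal.mk (Fin d) := by rw [h1, Cardinal.mk_fin]
  obtain ⟨e⟩ := Cardinal.eq.1 h2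
  exact ⟨t ∘ e.symm, (isTranscendenceBasis_equiv e.symm).2 ht⟩

end Theta

end C2a

variable {ν : Type} [Fintype ν] [DecidableEq ν]

/-- elements of `A` of degree `≤ m` -/
noncomputable def degLE (A : Subalgebra ℂ (MvPolynomial ν ℂ)) (m : ℕ) : Submodule ℂ A :=
  (restrictTotalDegree ν ℂ m).comap A.val.toLinearMap

/-- growth of `A` -/
theorem finrank_degLE_le (K : Subgroup (Matrix.unitaryGroup ν ℂ)) {d : ℕ}
    (hd : Algebra.trdeg ℂ (InvAlg K) = d) :
    ∃ C : ℕ, ∀ m : ℕ, Module.finrank ℂ (degLE (InvAlg K) m) ≤ C * (m + 1) ^ d := by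
  refine ⟨1, fun m => ?_⟩
  have h1 := (C2a.finrank_le (InvAlg K) d hd.le ((degLE (InvAlg K) m).map (InvAlg K).val.toLinearMap)
    (by
      rintro _ ⟨a, _, rfl⟩
      exact a.2) m (by
      rintro _ ⟨a, ha, rfl⟩
      exact (mem_restrictTotalDegree _ _ _).1 ha)).2
  rw [one_mul]
  refine le_trans (le_of_eq ?_) h1
  exact (Submodule.equivMapOfInjective (InvAlg K).val.toLinearMap Subtype.val_injective
    (degLE (InvAlg K) m)).finrank_eq

/-- operators of order `≤ n` and degree `≤ M` -/
noncomputable def EE (A : Subalgebra ℂ (MvPolynomial ν ℂ)) (n M : ℕ) : Submodule ℂ (Module.End ℂ A) where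
  carrier := {P | DOp (n + 1) P ∧ ∀ a : A, ((P a : A) : MvPolynomial ν ℂ).totalDegree ≤
    (a : MvPolynomial ν ℂ).totalDegree + M}
  add_mem' := by
    intro P Q hP hQ
    refine ⟨hP.1.add hQ.1, fun a => ?_⟩
    rw [LinearMap.add_apply, Subalgebra.coe_add]
    exact (totalDegree_add _ _).trans (max_le (hP.2 a) (hQ.2 a))
  zero_mem' := ⟨DOp.zero _, fun a => by simp⟩
  smul_mem' := by
    intro c P hP
    refine ⟨hP.1.smul c, fun a => ?_⟩
    rw [LinearMap.smul_apply, Subalgebra.coe_smul]
    exact (totalDegree_smul_le _ _).trans (hP.2 a)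

lemma C2a.totalDegree_adL {A : Subalgebra ℂ (MvPolynomial ν ℂ)} {δ M : ℕ} {P : Module.End ℂ A}
    (hP : ∀ a : A, ((P a : A) : MvPolynomial ν ℂ).totalDegree ≤
      (a : MvPolynomial ν ℂ).totalDegree + M) (l : List A)
    (hl : ∀ f ∈ l, (f : MvPolynomial ν ℂ).totalDegree ≤ δ) (a : A) :
    ((adL l P a : A) : MvPolynomial ν ℂ).totalDegree ≤
      (a : MvPolynomial ν ℂ).totalDegree + (M + δ * l.length) := by
  induction l generalizing a with
  | nil => simpa using hP a
  | cons f l ih =>
    have hf := hl f (by simp)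
    have ih' := ih (fun g hg => hl g (by simp [hg]))
    rw [adL_cons, ad_apply, Subalgebra.coe_sub]
    refine (totalDegree_sub _ _).trans (max_le ?_ ?_)
    · refine (ih' (f * a)).trans ?_
      rw [Subalgebra.coe_mul]
      have h1 := totalDegree_mul (f : MvPolynomial ν ℂ) (a : MvPolynomial ν ℂ)
      rw [List.length_cons]
      have h2 : δ * (l.length + 1) = δ * l.length + δ := by ring
      omega
    · rw [Subalgebra.coe_mul]
      refine (totalDegree_mul _ _).trans ?_
      have h1 := ih' a
      rw [List.length_cons]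
      have h2 : δ * (l.length + 1) = δ * l.length + δ := by ring
      omega

/-- (C2a) -/
theorem finrank_EE_le (K : Subgroup (Matrix.unitaryGroup ν ℂ)) {d : ℕ}
    (hd : Algebra.trdeg ℂ (InvAlg K) = d) :
    (∀ n M, Module.Finite ℂ (EE (InvAlg K) n M)) ∧
    ∃ C : ℕ, ∀ n M : ℕ, Module.finrank ℂ (EE (InvAlg K) n M) ≤ C * (n + M + 1) ^ (2 * d) := by
  obtain ⟨a, ha⟩ := C2a.exists_basis hd
  let δ : ℕ := Finset.univ.sup fun j => ((a j : InvAlg K) : MvPolynomial ν ℂ).totalDegree
  have hδ : ∀ j, ((a j : InvAlg K) : MvPolynomial ν ℂ).totalDegree ≤ δ := fun j =>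
    Finset.le_sup (f := fun j => ((a j : InvAlg K) : MvPolynomial ν ℂ).totalDegree)
      (Finset.mem_univ j)
  have key : ∀ n M, Module.Finite ℂ (EE (InvAlg K) n M) ∧
      Module.finrank ℂ (EE (InvAlg K) n M) ≤ (n + (M + δ * n) + 1) ^ (2 * d) := by
    intro n M
    let Φ : Module.End ℂ (InvAlg K) →ₗ[ℂ] MvPolynomial (Fin d ⊕ ν) ℂ :=
      (C2a.Theta (InvAlg K) d).toLinearMap.comp (C2a.Psi a n)
    have h1 := C2a.finrank_le (C2a.Theta (InvAlg K) d).range (2 * d)
      (C2a.trdeg_range_Theta (InvAlg K) d hd) ((EE (InvAlg K) n M).map Φ) (by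
        rintro _ ⟨P, _, rfl⟩
        exact ⟨C2a.Psi a n P, rfl⟩) (n + (M + δ * n)) (by
        rintro _ ⟨P, hP, rfl⟩
        change (C2a.Theta (InvAlg K) d (C2a.Psi a n P)).totalDegree ≤ _
        rw [C2a.Psi_apply, map_sum]
        refine (totalDegree_finsetSum _ _).trans (Finset.sup_le fun α hα => ?_)
        have h2 := C2a.mem_TT.1 hα
        apply C2a.totalDegree_Theta_monomial _ _ _ _ _ _ h2
        refine (C2a.totalDegree_adL hP.2 _ (δ := δ) ?_ 1).trans ?_
        · intro f hf
          obtain ⟨j, -, rfl⟩ := List.mem_map.1 hf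
          exact hδ j
        · rw [Subalgebra.coe_one, totalDegree_one, zero_add, List.length_map, C2a.length_word]
          gcongr)
    let Φ' : EE (InvAlg K) n M →ₗ[ℂ] (EE (InvAlg K) n M).map Φ :=
      (Φ.domRestrict (EE (InvAlg K) n M)).codRestrict _ fun P => ⟨P, P.2, rfl⟩
    have hinj : Function.Injective Φ' := by
      intro P P' hPP
      have h2 : Φ (P : Module.End ℂ (InvAlg K)) = Φ (P' : Module.End ℂ (InvAlg K)) :=
        congrArg Subtype.val hPP
      have h3 : Φ ((P : Module.End ℂ (InvAlg K)) + (-1 : ℂ) • (P' : Module.End ℂ (InvAlg K))) = 0 := by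
        rw [Φ.map_add, Φ.map_smul, h2, neg_smul, one_smul, add_neg_cancel]
      have h4 : (P : Module.End ℂ (InvAlg K)) + (-1 : ℂ) • (P' : Module.End ℂ (InvAlg K)) = 0 := by
        apply C2a.eq_zero_of_Psi a ha.isAlgebraic (n := n) (P.2.1.add (P'.2.1.smul (-1)))
        apply C2a.Theta_injective (InvAlg K) d
        rw [map_zero]
        exact h3
      apply Subtype.ext
      apply LinearMap.ext
      intro x
      have h5 := LinearMap.congr_fun h4 x
      rw [LinearMap.add_apply, LinearMap.smul_apply, neg_smul, one_smul, LinearMap.zero_apply,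
        ← sub_eq_add_neg, sub_eq_zero] at h5
      exact h5
    have := h1.1
    exact ⟨Module.Finite.of_injective Φ' hinj,
      (LinearMap.finrank_le_finrank_of_injective hinj).trans h1.2⟩
  refine ⟨fun n M => (key n M).1, (δ + 1) ^ (2 * d), fun n M => (key n M).2.trans ?_⟩
  rw [← mul_pow]
  apply Nat.pow_le_pow_left
  nlinarith [Nat.zero_le (δ * M), Nat.zero_le δ]

end H50.Z
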