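import Pool.Agent.H50.Z.C2a_Upper

/-! (C2b) The second difference. -/

open MvPolynomial H50.DO

set_option linter.unusedSectionVars false

namespace H50.Z

variable {ν : Type} [Fintype ν] [DecidableEq ν]

/-- left multiplication by `b` on operators -/
noncomputable def lmul (A : Subalgebra ℂ (MvPolynomial ν ℂ)) (b : A) :
    Module.End ℂ A →ₗ[ℂ] Module.End ℂ A :=
  LinearMap.mulLeft ℂ (LinearMap.mulLeft ℂ b)

omit [Fintype ν] [DecidableEq ν] in
lemma lmul_apply (A : Subalgebra ℂ (MvPolynomial ν ℂ)) (b : A) (P : Module.End ℂ A) (a : A) :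
    lmul A b P a = b * P a := rfl

omit [Fintype ν] [DecidableEq ν] in
lemma ad_lmul (A : Subalgebra ℂ (MvPolynomial ν ℂ)) (b f : A) (P : Module.End ℂ A) :
    ad f (lmul A b P) = lmul A b (ad f P) := by
  apply LinearMap.ext
  intro a
  rw [ad_apply, lmul_apply, lmul_apply, lmul_apply, ad_apply]
  ring

omit [Fintype ν] [DecidableEq ν] in
lemma DOp_lmul (A : Subalgebra ℂ (MvPolynomial ν ℂ)) (b : A) {n : ℕ} {P : Module.End ℂ A}
    (h : DOp n P) : DOp n (lmul A b P) := by
  induction n generalizing P with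
  | zero =>
    rw [DOp_zero_iff] at *
    rw [h, map_zero]
  | succ n ih =>
    intro f
    rw [ad_lmul]
    exact ih (h f)

omit [Fintype ν] [DecidableEq ν] in
lemma DOp_of_lmul (A : Subalgebra ℂ (MvPolynomial ν ℂ)) {b : A} (hb : b ≠ 0) {n : ℕ}
    {P : Module.End ℂ A} (h : DOp n (lmul A b P)) : DOp n P := by
  induction n generalizing P with
  | zero =>
    rw [DOp_zero_iff] at *
    apply LinearMap.ext
    intro a
    have h1 := LinearMap.congr_fun h a
    rw [lmul_apply, LinearMap.zero_apply] at h1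
    exact (mul_eq_zero.1 h1).resolve_left hb
  | succ n ih =>
    intro f
    apply ih
    rw [← ad_lmul]
    exact h f

omit [Fintype ν] [DecidableEq ν] in
lemma lmul_mem_EE (A : Subalgebra ℂ (MvPolynomial ν ℂ)) (b : A) {n M M' : ℕ}
    (hM : (b : MvPolynomial ν ℂ).totalDegree + M' ≤ M) {P : Module.End ℂ A} (h : P ∈ EE A n M') :
    lmul A b P ∈ EE A n M := by
  refine ⟨DOp_lmul A b h.1, fun a => ?_⟩
  rw [lmul_apply, Subalgebra.coe_mul]
  have h1 := totalDegree_mul (b : MvPolynomial ν ℂ) ((P a : A) : MvPolynomial ν ℂ)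
  have h2 := h.2 a
  omega

/-- the quotient of an operator whose values are divisible by `b` -/
lemma exists_lmul_eq (A : Subalgebra ℂ (MvPolynomial ν ℂ)) {b : A} (hb : b ≠ 0)
    (P : Module.End ℂ A) (h : ∀ a, b ∣ P a) : ∃ P' : Module.End ℂ A, lmul A b P' = P := by
  choose g hg using h
  refine ⟨{ toFun := g, map_add' := fun x y => ?_, map_smul' := fun c x => ?_ }, ?_⟩
  · apply mul_left_cancel₀ hb
    rw [mul_add, ← hg, ← hg, ← hg, map_add]
  · apply mul_left_cancel₀ hb
    rw [RingHom.id_apply, mul_smul_comm, ← hg, ← hg, map_smul]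
  · apply LinearMap.ext
    intro a
    rw [lmul_apply]
    exact (hg a).symm

/-- the underlying linear algebra -/
lemma finrank_second_aux {V : Type*} [AddCommGroup V] [Module ℂ V] (l l' : V →ₗ[ℂ] V)
    (E E1 E2 E3 U : Submodule ℂ V) [Module.Finite ℂ E] [Module.Finite ℂ E1] [Module.Finite ℂ E2]
    [Module.Finite ℂ E3] (h1 : ∀ x ∈ E1, l x ∈ E) (h2 : ∀ x ∈ E2, l' x ∈ E)
    (hl : Function.Injective l) (hker : ∀ x ∈ E1, ∀ y ∈ E2, l x + l' y = 0 → ∃ z ∈ E3, l z = y)
    (hU : U ≤ E) (hU' : ∀ x ∈ E1, ∀ y ∈ E2, l x + l' y ∈ U → l x + l' y = 0) :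
    Module.finrank ℂ U + Module.finrank ℂ E1 + Module.finrank ℂ E2 ≤
      Module.finrank ℂ E + Module.finrank ℂ E3 := by
  let φ : (E1 × E2) →ₗ[ℂ] V := LinearMap.coprod (l.comp E1.subtype) (l'.comp E2.subtype)
  have hφ : ∀ x, φ x = l (x.1 : V) + l' (x.2 : V) := fun x => rfl
  have hrange : LinearMap.range φ ≤ E := by
    rintro _ ⟨x, rfl⟩
    rw [hφ]
    exact E.add_mem (h1 _ x.1.2) (h2 _ x.2.2)
  have hdisj : Disjoint U (LinearMap.range φ) := by
    rw [Submodule.disjoint_def]
    rintro P hP ⟨x, rfl⟩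
    rw [hφ] at hP ⊢
    exact hU' _ x.1.2 _ x.2.2 hP
  have hker' : ∀ x : LinearMap.ker φ, ∃ z ∈ E3, l z = (x : E1 × E2).2 := by
    intro x
    have hx := LinearMap.mem_ker.1 x.2
    rw [hφ] at hx
    exact hker _ (x : E1 × E2).1.2 _ (x : E1 × E2).2.2 hx
  choose g hg1 hg2 using hker'
  let ψ : LinearMap.ker φ →ₗ[ℂ] E3 :=
    { toFun := fun x => ⟨g x, hg1 x⟩
      map_add' := fun x y => by
        apply Subtype.ext
        apply hl
        rw [Submodule.coe_add, map_add, hg2, hg2, hg2]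
        rfl
      map_smul' := fun c x => by
        apply Subtype.ext
        apply hl
        rw [RingHom.id_apply, Submodule.coe_smul, map_smul, hg2, hg2]
        rfl }
  have hψ : Function.Injective ψ := by
    rw [injective_iff_map_eq_zero]
    intro x hx
    have h1 : g x = 0 := congrArg Subtype.val hx
    have h2 := hg2 x
    rw [h1, map_zero] at h2
    have h3 := LinearMap.mem_ker.1 x.2
    rw [hφ, ← h2, map_zero, add_zero] at h3
    have h4 : ((x : E1 × E2).1 : V) = 0 := by
      apply hl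
      rw [h3, map_zero]
    apply Subtype.ext
    apply Prod.ext
    · exact Subtype.ext h4
    · exact Subtype.ext h2.symm
  have e1 : Module.finrank ℂ (LinearMap.ker φ) ≤ Module.finrank ℂ E3 :=
    LinearMap.finrank_le_finrank_of_injective hψ
  have e2 := LinearMap.finrank_range_add_finrank_ker φ
  rw [Module.finrank_prod] at e2
  have hUfin : Module.Finite ℂ U := Module.Finite.of_injective (Submodule.inclusion hU)
    (Submodule.inclusion_injective hU)
  have e3 := Submodule.finrank_sup_add_finrank_inf_eq U (LinearMap.range φ)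
  rw [hdisj.eq_bot, finrank_bot, add_zero] at e3
  have e4 : Module.finrank ℂ (U ⊔ LinearMap.range φ : Submodule ℂ V) ≤ Module.finrank ℂ E :=
    Submodule.finrank_mono (sup_le hU hrange)
  omega

lemma finrank_second_aux' {V : Type*} [AddCommMonoid V] [hV : Module ℂ V] (l l' : V →ₗ[ℂ] V)
    (E E1 E2 E3 U : Submodule ℂ V) [Module.Finite ℂ E] [Module.Finite ℂ E1] [Module.Finite ℂ E2]
    [Module.Finite ℂ E3] (h1 : ∀ x ∈ E1, l x ∈ E) (h2 : ∀ x ∈ E2, l' x ∈ E)
    (hl : Function.Injective l) (hker : ∀ x ∈ E1, ∀ y ∈ E2, l x + l' y = 0 → ∃ z ∈ E3, l z = y)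
    (hU : U ≤ E) (hU' : ∀ x ∈ E1, ∀ y ∈ E2, l x + l' y ∈ U → l x + l' y = 0) :
    Module.finrank ℂ U + Module.finrank ℂ E1 + Module.finrank ℂ E2 ≤
      Module.finrank ℂ E + Module.finrank ℂ E3 := by
  let _ : AddCommGroup V := Module.addCommMonoidToAddCommGroup ℂ
  exact finrank_second_aux l l' E E1 E2 E3 U h1 h2 hl hker hU hU'

/-- (C2b) `b, b'` a regular pair: a subspace of `D(A)` of order `≤ n`, degree `≤ M` which meets
`b D(A) + b' D(A)` only in `0` has dimension at most the second difference of the growth function. -/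
theorem finrank_le_second_difference (A : Subalgebra ℂ (MvPolynomial ν ℂ))
    (hfin : ∀ n M, Module.Finite ℂ (EE A n M)) (b b' : A) (hb : b ≠ 0) (hb' : b' ≠ 0)
    (hreg : ∀ v : A, b ∣ b' * v → b ∣ v) (n M : ℕ)
    (hM : (b : MvPolynomial ν ℂ).totalDegree + (b' : MvPolynomial ν ℂ).totalDegree ≤ M)
    (U : Submodule ℂ (Module.End ℂ A)) (hU : U ≤ EE A n M)
    (hU' : ∀ P ∈ U, (∃ P₁ P₂ : Module.End ℂ A, DOp (n + 1) P₁ ∧ DOp (n + 1) P₂ ∧
      ∀ a, P a = b * P₁ a + b' * P₂ a) → P = 0) :
    Module.finrank ℂ U + Module.finrank ℂ (EE A n (M - (b : MvPolynomial ν ℂ).totalDegree)) +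
        Module.finrank ℂ (EE A n (M - (b' : MvPolynomial ν ℂ).totalDegree)) ≤
      Module.finrank ℂ (EE A n M) + Module.finrank ℂ
        (EE A n (M - (b : MvPolynomial ν ℂ).totalDegree - (b' : MvPolynomial ν ℂ).totalDegree)) := by
  set β := (b : MvPolynomial ν ℂ).totalDegree with hβ
  set β' := (b' : MvPolynomial ν ℂ).totalDegree with hβ'
  have hb0 : (b : MvPolynomial ν ℂ) ≠ 0 := fun h => hb (Subtype.ext h)
  have i1 := hfin n M
  have i2 := hfin n (M - β)
  have i3 := hfin n (M - β')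
  have i4 := hfin n (M - β - β')
  have hlinj : Function.Injective (lmul A b) := by
    intro P Q hPQ
    apply LinearMap.ext
    intro a
    have h1 := LinearMap.congr_fun hPQ a
    rw [lmul_apply, lmul_apply] at h1
    exact mul_left_cancel₀ hb h1
  refine finrank_second_aux' (lmul A b) (lmul A b') (EE A n M) (EE A n (M - β)) (EE A n (M - β'))
    (EE A n (M - β - β')) U (fun x hx => lmul_mem_EE A b (by omega) hx)
    (fun x hx => lmul_mem_EE A b' (by omega) hx) hlinj ?_ hU ?_
  · intro P₁ h₁ P₂ h₂ hx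
    have hdiv : ∀ a, b ∣ P₂ a := by
      intro a
      apply hreg
      have h1 := LinearMap.congr_fun hx a
      rw [LinearMap.add_apply, lmul_apply, lmul_apply, LinearMap.zero_apply] at h1
      exact ⟨-P₁ a, by linear_combination h1⟩
    obtain ⟨P₃, hP₃⟩ := exists_lmul_eq A hb _ hdiv
    refine ⟨P₃, ⟨?_, fun a => ?_⟩, hP₃⟩
    · apply DOp_of_lmul A hb
      rw [hP₃]
      exact h₂.1
    · by_cases h0 : P₃ a = 0
      · rw [h0]
        simp
      · have h1 := h₂.2 a
        rw [← hP₃, lmul_apply, Subalgebra.coe_mul,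
          totalDegree_mul_of_isDomain hb0 (fun h => h0 (Subtype.ext h))] at h1
        omega
  · intro P₁ h₁ P₂ h₂ hx
    refine hU' _ hx ⟨P₁, P₂, h₁.1, h₂.1, fun a => ?_⟩
    rw [LinearMap.add_apply, lmul_apply, lmul_apply]

omit [Fintype ν] [DecidableEq ν] in
/-- the elementary growth argument -/
theorem no_growth (H : ℕ → ℕ → ℕ) (L : ℕ → ℕ) (C D β β' e : ℕ) (hD : 0 < D)
    (hmono : ∀ n M, H n M ≤ H n (M + 1))
    (hup : ∀ n M, H n M ≤ C * (n + M + 1) ^ (e + 1))
    (hL : ∀ n, n ^ e ≤ D * L n)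
    (hsec : ∀ n M, n ≤ 2 * M → M ≤ n → β + β' ≤ M →
      L n + H n (M - β) + H n (M - β') ≤ H n M + H n (M - β - β')) : False := by
  have hLpos : ∀ n, 0 < n → 0 < L n := by
    intro n hn
    by_contra h
    have h1 := hL n
    have h2 : L n = 0 := by omega
    rw [h2, mul_zero] at h1
    have := Nat.pow_pos (n := e) hn
    omega
  rcases Nat.eq_zero_or_pos β with h0 | hβ
  · subst h0
    have h1 := hsec (β' + 1) (β' + 1) (by omega) le_rfl (by omega)
    have h2 := hLpos (β' + 1) (by omega)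
    rw [Nat.sub_zero] at h1
    omega
  rcases Nat.eq_zero_or_pos β' with h0 | hβ'
  · subst h0
    have h1 := hsec (β + 1) (β + 1) (by omega) le_rfl (by omega)
    have h2 := hLpos (β + 1) (by omega)
    rw [Nat.sub_zero, Nat.sub_zero] at h1
    omega
  have hmono' : ∀ n, Monotone (H n) := fun n => monotone_nat_of_le_succ (hmono n)
  set T := 4 * D * C * 3 ^ (e + 1) + 1 with hT
  set q := T * (β * β') with hq
  set n := 4 * q with hn
  have hTpos : 0 < T := by omega
  have hqpos : 0 < q := Nat.mul_pos hTpos (Nat.mul_pos hβ hβ')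
  have hββ : β + β' ≤ 2 * q := by
    have h1 : β * 1 ≤ β * β' := Nat.mul_le_mul_left _ hβ'
    have h2 : 1 * β' ≤ β * β' := Nat.mul_le_mul_right _ hβ
    have h3 : 1 * (β * β') ≤ T * (β * β') := Nat.mul_le_mul_right _ hTpos
    omega
  -- first differences
  have c1 : ∀ k M, 2 * q + k * β' ≤ M → M ≤ n → H n (M - β) + k * L n ≤ H n M := by
    intro k
    induction k with
    | zero =>
      intro M _ _
      rw [zero_mul, add_zero]
      exact hmono' n (Nat.sub_le _ _)
    | succ k ih =>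
      intro M h1 h2
      rw [add_mul, one_mul] at h1
      have h3 := ih (M - β') (by omega) (by omega)
      have h4 := hsec n M (by omega) h2 (by omega)
      rw [Nat.sub_right_comm] at h3
      rw [add_mul, one_mul]
      omega
  -- values
  have c2 : ∀ j M, 3 * q + j * β ≤ M → M ≤ n → j * (T * β * L n) ≤ H n M := by
    intro j
    induction j with
    | zero => intro M _ _; simp
    | succ j ih =>
      intro M h1 h2
      rw [add_mul, one_mul] at h1
      have h3 := ih (M - β) (by omega) (by omega)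
      have h4 := c1 (T * β) M (by
        have : T * β * β' = q := by rw [hq, mul_assoc]
        rw [this]
        omega) h2
      rw [add_mul, one_mul]
      omega
  have h1 := c2 (T * β') n (by
    have : T * β' * β = q := by rw [hq, mul_assoc, mul_comm β' β]
    rw [this]
    omega) le_rfl
  have h2 := hup n n
  have h3 := hL n
  have h4 : (n + n + 1) ^ (e + 1) ≤ (3 * n) ^ (e + 1) := Nat.pow_le_pow_left (by omega) _
  have h5 : T * β' * (T * β) * n ^ e ≤ D * C * (3 * n) ^ (e + 1) := by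
    calc T * β' * (T * β) * n ^ e ≤ T * β' * (T * β) * (D * L n) := Nat.mul_le_mul_left _ h3
      _ = D * (T * β' * (T * β * L n)) := by ring
      _ ≤ D * (C * (n + n + 1) ^ (e + 1)) := Nat.mul_le_mul_left _ (h1.trans h2)
      _ ≤ D * (C * (3 * n) ^ (e + 1)) := Nat.mul_le_mul_left _ (Nat.mul_le_mul_left _ h4)
      _ = D * C * (3 * n) ^ (e + 1) := by ring
  have h6 : (n ^ e * (T * (β * β'))) * T ≤ (n ^ e * (T * (β * β'))) * (4 * D * C * 3 ^ (e + 1)) := by
    calc (n ^ e * (T * (β * β'))) * T = T * β' * (T * β) * n ^ e := by ring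
      _ ≤ D * C * (3 * n) ^ (e + 1) := h5
      _ = D * C * 3 ^ (e + 1) * n ^ e * n := by rw [mul_pow, pow_succ n e]; ring
      _ = D * C * 3 ^ (e + 1) * n ^ e * (4 * (T * (β * β'))) := by rw [hn, hq]
      _ = (n ^ e * (T * (β * β'))) * (4 * D * C * 3 ^ (e + 1)) := by ring
  have h7 : 0 < n ^ e * (T * (β * β')) := Nat.mul_pos (Nat.pow_pos (by omega)) hqpos
  have h8 := Nat.le_of_mul_le_mul_left h6 h7
  omega

end H50.Z
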