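import Mathlib

/-! (L1b) A prime of dimension at most one through a given maximal ideal avoiding a given element. -/

namespace H50.Z

/-- If in a noetherian domain all nonzero primes inside the prime `m` contain `h ≠ 0` then `m` has
height at most one. -/
theorem height_le_one_of_forall_mem {R : Type} [CommRing R] [IsDomain R] [IsNoetherianRing R]
    (m : Ideal R) [m.IsPrime] (h : R) (hh : h ≠ 0)
    (H : ∀ q : Ideal R, q.IsPrime → q ≤ m → q ≠ ⊥ → h ∈ q) : m.height ≤ 1 := by
  by_contra hcon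
  rw [not_le] at hcon
  have hmbot : m ≠ ⊥ := by
    rintro rfl
    rw [Ideal.height_bot] at hcon
    exact absurd hcon (by simp)
  have hhm : h ∈ m := H m inferInstance le_rfl hmbot
  have hfin : (Ideal.span {h}).minimalPrimes.Finite :=
    Ideal.finite_minimalPrimes_of_isNoetherianRing R _
  have hnot : ¬ ∃ p ∈ hfin.toFinset, m ≤ p := by
    rintro ⟨p, hp, hmp⟩
    rw [Set.Finite.mem_toFinset] at hp
    have h1 := Ideal.height_le_one_of_isPrincipal_of_mem_minimalPrimes (Ideal.span {h}) p hp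
    exact absurd ((Ideal.height_mono hmp).trans h1) (not_le.mpr hcon)
  have hnot2 : ¬ ((m : Set R) ⊆ ⋃ i ∈ (↑hfin.toFinset : Set (Ideal R)), (i : Set R)) := by
    intro hsub
    refine hnot ((Ideal.subset_union_prime (f := fun i : Ideal R => i) ⊥ ⊥ ?_).mp hsub)
    intro i hi _ _
    rw [Set.Finite.mem_toFinset] at hi
    exact hi.isPrime
  obtain ⟨y, hym, hy⟩ := Set.not_subset.mp hnot2
  have hy' : ∀ p ∈ (Ideal.span {h}).minimalPrimes, y ∉ p := by
    intro p hp hyp
    apply hy
    simp only [Set.mem_iUnion]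
    exact ⟨p, by simpa using hp, hyp⟩
  obtain ⟨p0, hp0, hp0m⟩ := Ideal.exists_minimalPrimes_le
    (show Ideal.span {h} ≤ m by rwa [Ideal.span_singleton_le_iff_mem])
  have hy0 : y ≠ 0 := by
    rintro rfl
    exact hy' p0 hp0 p0.zero_mem
  obtain ⟨q, hq, hqm⟩ := Ideal.exists_minimalPrimes_le
    (show Ideal.span {y} ≤ m by rwa [Ideal.span_singleton_le_iff_mem])
  have hq1 := Ideal.height_le_one_of_isPrincipal_of_mem_minimalPrimes (Ideal.span {y}) q hq
  have hqp : q.IsPrime := hq.isPrime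
  have hyq : y ∈ q := hq.le (Ideal.mem_span_singleton_self y)
  have hqbot : q ≠ ⊥ := by
    rintro rfl
    exact hy0 (by simpa using hyq)
  have hhq : h ∈ q := H q hqp hqm hqbot
  obtain ⟨p, hp, hpq⟩ := Ideal.exists_minimalPrimes_le
    (show Ideal.span {h} ≤ q by rwa [Ideal.span_singleton_le_iff_mem])
  have hpp : p.IsPrime := hp.isPrime
  have hhp : h ∈ p := hp.le (Ideal.mem_span_singleton_self h)
  have hpbot : p ≠ ⊥ := by
    rintro rfl
    exact hh (by simpa using hhp)
  have hbp : (⊥ : Ideal R) < p := bot_lt_iff_ne_bot.mpr hpbot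
  have h1 := Ideal.height_add_one_le_of_lt_of_isPrime hbp
  rw [Ideal.height_bot] at h1
  by_cases hpe : p = q
  · exact hy' p hp (hpe ▸ hyq)
  · have h2 := Ideal.height_add_one_le_of_lt_of_isPrime (lt_of_le_of_ne hpq hpe)
    have h3 : (0 : ℕ∞) + 1 + 1 ≤ 1 := (add_le_add_left h1 1).trans (h2.trans hq1)
    exact absurd h3 (by decide)

/-- In a noetherian domain `R` let `m` be a prime and `h ≠ 0`. There is a prime `c ⊆ m`, `h ∉ c`,
such that `m / c` has height at most one. -/
theorem exists_prime_curve (R : Type) [CommRing R] [IsDomain R] [IsNoetherianRing R]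
    (m : Ideal R) [m.IsPrime] (h : R) (hh : h ≠ 0) :
    ∃ c : Ideal R, c.IsPrime ∧ c ≤ m ∧ h ∉ c ∧
      (m.map (Ideal.Quotient.mk c)).height ≤ 1 := by
  let S : Set (Ideal R) := {c | c.IsPrime ∧ c ≤ m ∧ h ∉ c}
  have hS : S.Nonempty := ⟨⊥, Ideal.isPrime_bot, bot_le, by simpa using hh⟩
  obtain ⟨c, hcS, hmax⟩ := set_has_maximal_iff_noetherian.mpr (inferInstance : IsNoetherianRing R) S hS
  obtain ⟨hcp, hcm, hhc⟩ := hcS
  refine ⟨c, hcp, hcm, hhc, ?_⟩
  have hker : RingHom.ker (Ideal.Quotient.mk c) ≤ m := by rwa [Ideal.mk_ker]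
  have hmp : (m.map (Ideal.Quotient.mk c)).IsPrime :=
    Ideal.map_isPrime_of_surjective Ideal.Quotient.mk_surjective hker
  refine height_le_one_of_forall_mem (m.map (Ideal.Quotient.mk c)) (Ideal.Quotient.mk c h)
    (by rwa [Ne, Ideal.Quotient.eq_zero_iff_mem]) ?_
  intro q hq hqm hqb
  by_contra hhq
  have hq' : (q.comap (Ideal.Quotient.mk c)).IsPrime := hq.comap _
  have h1 : c ≤ q.comap (Ideal.Quotient.mk c) := by
    intro x hx
    rw [Ideal.mem_comap, Ideal.Quotient.eq_zero_iff_mem.mpr hx]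
    exact q.zero_mem
  have h2 : q.comap (Ideal.Quotient.mk c) ≤ m := by
    refine (Ideal.comap_mono hqm).trans ?_
    rw [Ideal.comap_map_of_surjective _ Ideal.Quotient.mk_surjective]
    exact sup_le le_rfl hker
  have h3 : q.comap (Ideal.Quotient.mk c) ∈ S := ⟨hq', h2, hhq⟩
  have h4 : c ≠ q.comap (Ideal.Quotient.mk c) := by
    intro he
    apply hqb
    rw [eq_bot_iff]
    intro x hx
    obtain ⟨y, rfl⟩ := Ideal.Quotient.mk_surjective x
    have hy : y ∈ q.comap (Ideal.Quotient.mk c) := hx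
    rw [← he] at hy
    exact Ideal.Quotient.eq_zero_iff_mem.mpr hy
  exact hmax _ h3 (lt_of_le_of_ne h1 h4)

end H50.Z
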