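import Mathlib

/-! (L1c) A discrete valuation ring containing its residue field embeds into power series. -/

namespace H50.Z

namespace L1c

variable {L V : Type} [Field L] [CommRing V] [Algebra L V]

/-- value at `w` of the truncation -/
noncomputable def ev (w : V) (n : ℕ) (p : PowerSeries L) : V :=
  Polynomial.aeval w (PowerSeries.trunc n p)

/-- the element `r` is represented by `p` -/
def Rep (w : V) (r : V) (p : PowerSeries L) : Prop := ∀ n, w ^ n ∣ r - ev w n p

theorem ev_zero (w : V) (p : PowerSeries L) : ev w 0 p = 0 := by simp [ev]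

theorem ev_succ (w : V) (n : ℕ) (p : PowerSeries L) :
    ev w (n + 1) p = ev w n p + algebraMap L V (PowerSeries.coeff n p) * w ^ n := by
  simp [ev, PowerSeries.trunc_succ]

theorem ev_add (w : V) (n : ℕ) (p q : PowerSeries L) :
    ev w n (p + q) = ev w n p + ev w n q := by
  simp [ev]

theorem ev_sub (w : V) (n : ℕ) (p q : PowerSeries L) :
    ev w n (p - q) = ev w n p - ev w n q := by
  have := ev_add w n (p - q) q
  rw [sub_add_cancel] at this
  rw [this]; ring

theorem ev_mul (w : V) (n : ℕ) (p q : PowerSeries L) :
    w ^ n ∣ ev w n p * ev w n q - ev w n (p * q) := by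
  have h : (Polynomial.X : Polynomial L) ^ n ∣
      PowerSeries.trunc n p * PowerSeries.trunc n q - PowerSeries.trunc n (p * q) := by
    rw [Polynomial.X_pow_dvd_iff]
    intro d hd
    have h1 := PowerSeries.trunc_trunc_mul_trunc (n := n) p q
    have h2 : (PowerSeries.trunc n (((PowerSeries.trunc n p * PowerSeries.trunc n q : Polynomial L)) : PowerSeries L)) =
      PowerSeries.trunc n (p * q) := by
      rw [← h1]; push_cast; rfl
    rw [Polynomial.coeff_sub, ← h2, PowerSeries.coeff_trunc, if_pos hd, Polynomial.coeff_coe, sub_self]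
  obtain ⟨c, hc⟩ := h
  refine ⟨Polynomial.aeval w c, ?_⟩
  have := congrArg (Polynomial.aeval w) hc
  simpa [ev] using this

theorem rep_add {w r s : V} {p q : PowerSeries L} (hr : Rep w r p) (hs : Rep w s q) :
    Rep w (r + s) (p + q) := by
  intro n
  rw [ev_add]
  have := dvd_add (hr n) (hs n)
  convert this using 1; ring

theorem rep_sub {w r s : V} {p q : PowerSeries L} (hr : Rep w r p) (hs : Rep w s q) :
    Rep w (r - s) (p - q) := by
  intro n
  rw [ev_sub]
  have := dvd_sub (hr n) (hs n)
  convert this using 1; ring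

theorem rep_mul {w r s : V} {p q : PowerSeries L} (hr : Rep w r p) (hs : Rep w s q) :
    Rep w (r * s) (p * q) := by
  intro n
  obtain ⟨a, ha⟩ := hr n
  obtain ⟨b, hb⟩ := hs n
  obtain ⟨c, hc⟩ := ev_mul w n p q
  refine ⟨a * s + ev w n p * b + c, ?_⟩
  have h1 : r = ev w n p + w ^ n * a := by rw [← ha]; ring
  have h2 : s = ev w n q + w ^ n * b := by rw [← hb]; ring
  have h3 : ev w n (p * q) = ev w n p * ev w n q - w ^ n * c := by rw [← hc]; ring
  rw [h3]
  rw [show r * s = (ev w n p + w ^ n * a) * s by rw [← h1]]
  rw [add_mul]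
  rw [show ev w n p * s = ev w n p * (ev w n q + w ^ n * b) by rw [← h2]]
  ring

theorem rep_C (w : V) (c : L) : Rep w (algebraMap L V c) (PowerSeries.C c) := by
  intro n
  cases n with
  | zero => simp
  | succ n =>
    have : ev w (n + 1) (PowerSeries.C c) = algebraMap L V c := by
      simp [ev]
    rw [this]; simp

theorem eq_zero_of_rep [IsDomain V] (z : V →ₐ[L] L) {w : V} (hw : w ≠ 0) (hz : z w = 0)
    {p : PowerSeries L} (h : Rep w 0 p) : p = 0 := by
  have key : ∀ n, PowerSeries.coeff n p = 0 ∧ ev w n p = 0 := by
    intro n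
    induction n using Nat.strong_induction_on with
    | _ n ih =>
      have h0 : ev w n p = 0 := by
        cases n with
        | zero => exact ev_zero w p
        | succ n =>
          rw [ev_succ, (ih n (Nat.lt_succ_self n)).1, (ih n (Nat.lt_succ_self n)).2]; simp
      refine ⟨?_, h0⟩
      obtain ⟨c, hc⟩ := h (n + 1)
      rw [ev_succ, h0, zero_add, zero_sub, pow_succ] at hc
      have h1 : w ^ n * (algebraMap L V (PowerSeries.coeff n p) + w * c) = 0 := by
        have : w ^ n * (algebraMap L V (PowerSeries.coeff n p) + w * c) =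
          -(-(algebraMap L V (PowerSeries.coeff n p) * w ^ n)) + w ^ n * w * c := by ring
        rw [this, hc]; ring
      have h2 := (mul_eq_zero.1 h1).resolve_left (pow_ne_zero n hw)
      have h3 := congrArg z h2
      simpa [hz] using h3
  ext n
  simpa using (key n).1

theorem exists_rep (z : V →ₐ[L] L) {w : V} (hw : ∀ r, z r = 0 → w ∣ r) (r : V) :
    ∃ p : PowerSeries L, Rep w r p := by
  have hstep : ∀ r : V, ∃ s, r = algebraMap L V (z r) + w * s := by
    intro r
    obtain ⟨s, hs⟩ := hw (r - algebraMap L V (z r)) (by simp)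
    exact ⟨s, by rw [← hs]; ring⟩
  choose f hf using hstep
  refine ⟨PowerSeries.mk fun n => z (f^[n] r), ?_⟩
  intro n
  refine ⟨f^[n] r, ?_⟩
  have key : ∀ n, r = ev w n (PowerSeries.mk fun n => z (f^[n] r)) + w ^ n * f^[n] r := by
    intro n
    induction n with
    | zero => simp [ev_zero]
    | succ n ih =>
      rw [ev_succ, PowerSeries.coeff_mk, Function.iterate_succ_apply']
      conv_lhs => rw [ih]
      conv_lhs => rw [hf (f^[n] r)]
      ring
  exact sub_eq_iff_eq_add'.2 (key n)

end L1c

open L1c in
/-- `V` a discrete valuation ring which is an algebra over a field `L`, `z : V → L` an `L`-algebra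
map (so its kernel is the maximal ideal). Then `V` embeds into `L[[s]]` with constant term `z`. -/
theorem exists_embed_powerSeries (L V : Type) [Field L] [CommRing V] [IsDomain V]
    [IsDiscreteValuationRing V] [Algebra L V] (z : V →ₐ[L] L) :
    ∃ γ : V →ₐ[L] PowerSeries L, Function.Injective γ ∧
      ∀ r, PowerSeries.constantCoeff (γ r) = z r := by
  obtain ⟨w, hwirr⟩ := IsDiscreteValuationRing.exists_irreducible V
  have hw0 : w ≠ 0 := hwirr.ne_zero
  have hmax : IsLocalRing.maximalIdeal V = Ideal.span {w} := hwirr.maximalIdeal_eq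
  have hker : RingHom.ker z = IsLocalRing.maximalIdeal V := by
    apply IsLocalRing.eq_maximalIdeal
    apply RingHom.ker_isMaximal_of_surjective
    intro c
    exact ⟨algebraMap L V c, by simp⟩
  have hz : z w = 0 := by
    have : w ∈ RingHom.ker z := by
      rw [hker, hmax]; exact Ideal.mem_span_singleton_self w
    exact this
  have hdvd : ∀ r, z r = 0 → w ∣ r := by
    intro r hr
    have : r ∈ RingHom.ker z := hr
    rw [hker, hmax] at this
    exact Ideal.mem_span_singleton.1 this
  choose g hg using exists_rep z hdvd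
  have huniq : ∀ {r : V} {p q : PowerSeries L}, Rep w r p → Rep w r q → p = q := by
    intro r p q hp hq
    have := rep_sub hp hq
    rw [sub_self] at this
    exact sub_eq_zero.1 (eq_zero_of_rep z hw0 hz this)
  have hone : Rep w (1 : V) (1 : PowerSeries L) := by
    have := rep_C (V := V) w (1 : L)
    simpa using this
  have hzero : Rep w (0 : V) (0 : PowerSeries L) := by
    have := rep_C (V := V) w (0 : L)
    simpa using this
  let γ : V →ₐ[L] PowerSeries L :=
    { toFun := g
      map_one' := huniq (hg 1) hone
      map_mul' := fun a b => huniq (hg _) (rep_mul (hg a) (hg b))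
      map_zero' := huniq (hg 0) hzero
      map_add' := fun a b => huniq (hg _) (rep_add (hg a) (hg b))
      commutes' := fun c => huniq (hg _) (rep_C w c) }
  refine ⟨γ, ?_, ?_⟩
  · rw [injective_iff_map_eq_zero]
    intro r hr
    have h1 : Rep w r (0 : PowerSeries L) := by
      have := hg r
      rwa [show g r = 0 from hr] at this
    by_contra hne
    have h2 : ∀ n, w ^ n ∣ r := by
      intro n
      have := h1 n
      simpa [ev] using this
    have hfin : FiniteMultiplicity w r :=
      FiniteMultiplicity.of_not_isUnit hwirr.not_isUnit hne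
    obtain ⟨n, hn⟩ := hfin
    exact hn (h2 _)
  · intro r
    have h1 := hg r 1
    rw [ev_succ, ev_zero] at h1
    obtain ⟨c, hc⟩ := h1
    have h2 := congrArg z hc
    simp [hz] at h2
    change PowerSeries.constantCoeff (g r) = z r
    rw [← PowerSeries.coeff_zero_eq_constantCoeff_apply]
    rw [sub_eq_zero] at h2
    simpa using h2.symm

end H50.Z
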