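import Pool.Agent.H50.Z.L1a_Ext
import Pool.Agent.H50.Z.L1b_Curve
import Pool.Agent.H50.Z.L1c_DVR
import Pool.Agent.H50.Z.L4_Dim

/-! (L1) The arc lemma. -/

namespace H50.Z

open Polynomial

/-- Residue field of a maximal ideal `M` of an `L`-algebra `C`, integral over `A`, above the
kernel of `z : A → L`. -/
theorem l1_residue (L A C : Type) [Field L] [IsAlgClosed L] [CommRing A]
    [Algebra L A] [CommRing C] [Algebra L C] [Algebra A C] [IsScalarTower L A C]
    [Algebra.IsIntegral A C] (z : A →ₐ[L] L) (M : Ideal C) [M.IsMaximal]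
    (hM : M.comap (algebraMap A C) = RingHom.ker z) :
    ∃ zC : C →ₐ[L] L, RingHom.ker zC = M ∧ ∀ a, zC (algebraMap A C a) = z a := by
  let _ : Field (C ⧸ M) := Ideal.Quotient.field M
  have hfac : ∀ a : A, Ideal.Quotient.mk M (algebraMap A C a) = algebraMap L (C ⧸ M) (z a) := by
    intro a
    have h1 : a - algebraMap L A (z a) ∈ M.comap (algebraMap A C) := by
      rw [hM, RingHom.mem_ker, map_sub]
      simp
    rw [Ideal.mem_comap, map_sub, ← IsScalarTower.algebraMap_apply] at h1
    have h2 := (Ideal.Quotient.mk_eq_mk_iff_sub_mem _ _).2 h1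
    rw [h2]
    rfl
  have hint : Algebra.IsIntegral L (C ⧸ M) := by
    constructor
    intro x
    obtain ⟨c, rfl⟩ := Ideal.Quotient.mk_surjective x
    obtain ⟨P, hP, hPc⟩ := Algebra.IsIntegral.isIntegral (R := A) c
    refine ⟨P.map (z : A →+* L), hP.map _, ?_⟩
    rw [eval₂_map]
    have h3 : (algebraMap L (C ⧸ M)).comp (z : A →+* L) =
        (Ideal.Quotient.mk M).comp (algebraMap A C) := by
      ext a
      exact (hfac a).symm
    rw [h3, ← hom_eval₂, hPc, map_zero]
  have hbij := IsAlgClosed.algebraMap_bijective_of_isIntegral (k := L) (K := C ⧸ M)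
  let e : L ≃ₐ[L] (C ⧸ M) := AlgEquiv.ofBijective (Algebra.ofId L (C ⧸ M)) hbij
  refine ⟨e.symm.toAlgHom.comp (Ideal.Quotient.mkₐ L M), ?_, ?_⟩
  · ext c
    rw [RingHom.mem_ker]
    change e.symm (Ideal.Quotient.mk M c) = 0 ↔ c ∈ M
    rw [EmbeddingLike.map_eq_zero_iff]
    exact Ideal.Quotient.eq_zero_iff_mem
  · intro a
    change e.symm (Ideal.Quotient.mk M (algebraMap A C a)) = z a
    rw [hfac, AlgEquiv.symm_apply_eq]
    rfl

theorem l1_core (L A F : Type) [Field L] [IsAlgClosed L] [CharZero L] [CommRing A] [IsDomain A]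
    [Algebra L A] [Algebra L[X] A] [IsScalarTower L L[X] A] [Algebra.IsIntegral L[X] A]
    [Field F] [Algebra L F] [Algebra L[X] F] [Algebra (FractionRing L[X]) F]
    [IsScalarTower L[X] (FractionRing L[X]) F] [IsScalarTower L L[X] F]
    [FiniteDimensional (FractionRing L[X]) F] [Algebra A F] [IsScalarTower L[X] A F]
    [IsScalarTower L A F] (hinj : Function.Injective (algebraMap A F))
    (z : A →ₐ[L] L) (hz : RingHom.ker z ≠ ⊥) :
    ∃ γ : F →ₐ[L] LaurentSeries L, ∀ a : A, ∃ p : PowerSeries L,
      γ (algebraMap A F a) = (p : LaurentSeries L) ∧ PowerSeries.constantCoeff p = z a := by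
  have hchar : CharZero (FractionRing L[X]) :=
    charZero_of_injective_algebraMap (IsFractionRing.injective L[X] (FractionRing L[X]))
  have hsep : Algebra.IsSeparable (FractionRing L[X]) F := inferInstance
  have hDed : IsDedekindDomain (integralClosure L[X] F) :=
    integralClosure.isDedekindDomain L[X] (FractionRing L[X]) F
  have hFr : IsFractionRing (integralClosure L[X] F) F :=
    integralClosure.isFractionRing_of_finite_extension (FractionRing L[X]) F
  let ρ : A →ₐ[L[X]] integralClosure L[X] F := IsIntegralClosure.lift L[X] (integralClosure L[X] F) F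
  have hρ : ∀ a, ((ρ a : integralClosure L[X] F) : F) = algebraMap A F a := fun a =>
    IsIntegralClosure.algebraMap_lift L[X] (integralClosure L[X] F) F a
  let _ : Algebra A (integralClosure L[X] F) := ρ.toRingHom.toAlgebra
  have hst1 : IsScalarTower L[X] A (integralClosure L[X] F) :=
    IsScalarTower.of_algebraMap_eq (fun x => (ρ.commutes x).symm)
  have hst2 : IsScalarTower L A (integralClosure L[X] F) := by
    refine IsScalarTower.of_algebraMap_eq (fun x => ?_)
    apply Subtype.ext
    have h1 : ((algebraMap A (integralClosure L[X] F) (algebraMap L A x) :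
      integralClosure L[X] F) : F) = algebraMap A F (algebraMap L A x) := hρ _
    rw [h1, ← IsScalarTower.algebraMap_apply L A F]
    rfl
  have hint : Algebra.IsIntegral L[X] (integralClosure L[X] F) := inferInstance
  have hintA : Algebra.IsIntegral A (integralClosure L[X] F) := Algebra.IsIntegral.tower_top L[X]
  have hρinj : Function.Injective (algebraMap A (integralClosure L[X] F)) := by
    intro a b hab
    apply hinj
    rw [← hρ, ← hρ]
    exact congrArg _ hab
  have hPmax : (RingHom.ker z).IsMaximal := by
    apply RingHom.ker_isMaximal_of_surjective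
    intro c
    exact ⟨algebraMap L A c, by simp⟩
  obtain ⟨M, hMmax, hM⟩ := Ideal.exists_ideal_over_maximal_of_isIntegral
    (S := integralClosure L[X] F) (RingHom.ker z) (by
      rw [(RingHom.injective_iff_ker_eq_bot _).1 hρinj]
      exact bot_le)
  have hMne : M ≠ ⊥ := by
    rintro rfl
    apply hz
    rw [← hM, ← RingHom.ker_eq_comap_bot]
    exact (RingHom.injective_iff_ker_eq_bot _).1 hρinj
  have hMp : M.IsPrime := hMmax.isPrime
  obtain ⟨zC, hzC, hzCa⟩ := l1_residue L A (integralClosure L[X] F) z M hM
  have hDVR : IsDiscreteValuationRing (Localization.AtPrime M) :=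
    IsLocalization.AtPrime.isDiscreteValuationRing_of_dedekind_domain _ hMne _
  let zV : Localization.AtPrime M →ₐ[L] L := IsLocalization.liftAlgHom (M := M.primeCompl)
    (f := zC) (by
      rintro ⟨y, hy⟩
      apply IsUnit.mk0
      intro h0
      apply hy
      rw [← hzC]
      exact h0)
  have hzV : ∀ c, zV (algebraMap (integralClosure L[X] F) (Localization.AtPrime M) c) = zC c := by
    intro c
    exact IsLocalization.lift_eq _ c
  obtain ⟨γ0, hγ0, hγc⟩ := exists_embed_powerSeries L (Localization.AtPrime M) zV
  let ι : PowerSeries L →ₐ[L] LaurentSeries L :=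
    { HahnSeries.ofPowerSeries ℤ L with
      commutes' := fun r => rfl }
  let δ : integralClosure L[X] F →ₐ[L] LaurentSeries L :=
    (ι.comp γ0).comp
      (IsScalarTower.toAlgHom L (integralClosure L[X] F) (Localization.AtPrime M))
  have hδ : ∀ c, δ c = ((γ0 (algebraMap (integralClosure L[X] F) (Localization.AtPrime M) c) :
    PowerSeries L) : LaurentSeries L) := by
    intro c
    rfl
  have hδinj : Function.Injective δ := by
    intro a b hab
    rw [hδ, hδ] at hab
    have h1 := HahnSeries.ofPowerSeries_injective hab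
    have h2 := hγ0 h1
    exact IsLocalization.injective (Localization.AtPrime M) M.primeCompl_le_nonZeroDivisors h2
  have hst3 : IsScalarTower L (integralClosure L[X] F) F := inferInstance
  refine ⟨IsFractionRing.liftAlgHom hδinj, ?_⟩
  intro a
  refine ⟨γ0 (algebraMap (integralClosure L[X] F) (Localization.AtPrime M)
    (algebraMap A (integralClosure L[X] F) a)), ?_, ?_⟩
  · rw [← hδ, ← hρ a]
    have := IsFractionRing.lift_algebraMap (K := F) (g := (δ : integralClosure L[X] F →+* LaurentSeries L))
      hδinj (ρ a)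
    exact this
  · rw [hγc, hzV, hzCa]

theorem l1_trdeg {k A : Type} [Field k] [CommRing A] [IsDomain A] [Algebra k A] {s : ℕ}
    (g : MvPolynomial (Fin s) k →ₐ[k] A) (ginj : Function.Injective g) (gint : g.IsIntegral) :
    Algebra.trdeg k A = (s : Cardinal) := by
  let _ : Algebra (MvPolynomial (Fin s) k) A := g.toRingHom.toAlgebra
  have hst : IsScalarTower k (MvPolynomial (Fin s) k) A :=
    IsScalarTower.of_algebraMap_eq (fun x => (g.commutes x).symm)
  have hfs : FaithfulSMul (MvPolynomial (Fin s) k) A :=
    (faithfulSMul_iff_algebraMap_injective _ _).2 ginj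
  have hint : Algebra.IsIntegral (MvPolynomial (Fin s) k) A := ⟨gint⟩
  have hfk : FaithfulSMul k (MvPolynomial (Fin s) k) := inferInstance
  rw [← trdeg_add_eq k (MvPolynomial (Fin s) k) (A := A)]
  rw [trdeg_eq_zero (R := MvPolynomial (Fin s) k) (A := A), add_zero,
    MvPolynomial.trdeg_of_isDomain]
  simp

/-- A domain of finite type of dimension one is integral over `L[X]`. -/
theorem l1_noether {L A : Type} [Field L] [CommRing A] [IsDomain A]
    [Algebra L A] [Algebra.FiniteType L A] (z : A →ₐ[L] L) (hz : RingHom.ker z ≠ ⊥)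
    (hht : (RingHom.ker z).height ≤ 1) :
    ∃ g : L[X] →ₐ[L] A, Function.Injective g ∧ g.IsIntegral := by
  obtain ⟨s, g, ginj, gint⟩ := exists_integral_inj_algHom_of_fg L A
  have hp : (RingHom.ker z).IsPrime := RingHom.ker_isPrime z
  have h1 := height_add_trdeg (k := L) (RingHom.ker z)
  have hsurj : Function.Surjective z := fun c => ⟨algebraMap L A c, by simp⟩
  have h2 : Algebra.trdeg L (A ⧸ RingHom.ker z) = 0 := by
    have e := (Ideal.quotientKerAlgEquivOfSurjective hsurj).trdeg_eq
    rw [e]
    exact trdeg_eq_zero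
  have hge : 1 ≤ (RingHom.ker z).height := by
    have h3 : (⊥ : Ideal A) < RingHom.ker z := bot_lt_iff_ne_bot.2 hz
    have := Ideal.height_add_one_le_of_lt_of_isPrime h3
    rw [Ideal.height_bot, zero_add] at this
    exact this
  have h4 : (RingHom.ker z).height = 1 := le_antisymm hht hge
  rw [h4, h2, l1_trdeg g ginj gint] at h1
  have h5 : s = 1 := by
    rw [map_zero, add_zero, map_natCast] at h1
    exact_mod_cast h1.symm
  subst h5
  let e : MvPolynomial (Fin 1) L ≃ₐ[L] L[X] := MvPolynomial.uniqueAlgEquiv L (Fin 1)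
  refine ⟨g.comp e.symm.toAlgHom, ?_, ?_⟩
  · intro a b hab
    exact e.symm.injective (ginj hab)
  · have h6 : (e.symm.toAlgHom).IsIntegral :=
      RingHom.isIntegral_of_surjective _ e.symm.surjective
    exact RingHom.IsIntegral.trans _ _ h6 gint

/-- **Arc lemma.** `L` algebraically closed of characteristic zero, `T` a domain of finite type over `L`,
`R ⊆ T` a subalgebra of finite type, `z : R → L`. There is an `L`-algebra map `T → L((s))` which
maps `R` into `L[[s]]` with constant term `z`. -/
theorem arc_lemma (L T : Type) [Field L] [IsAlgClosed L] [CharZero L] [CommRing T] [IsDomain T]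
    [Algebra L T] [Algebra.FiniteType L T] (R : Subalgebra L T) [Algebra.FiniteType L R]
    (z : R →ₐ[L] L) :
    ∃ γ : T →ₐ[L] LaurentSeries L, ∀ r : R, ∃ p : PowerSeries L,
      γ (r : T) = (p : LaurentSeries L) ∧ PowerSeries.constantCoeff p = z r := by
  have hft : Algebra.FiniteType R T := Algebra.FiniteType.of_restrictScalars_finiteType L R T
  obtain ⟨h, hh0, hext⟩ := exists_extend_hom R T Subtype.val_injective
  by_cases hzh : z h = 0
  swap
  · obtain ⟨ψ, hψ⟩ := hext L (z : R →+* L) hzh
    have hψr : ∀ r : R, ψ (r : T) = z r := fun r => RingHom.congr_fun hψ r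
    let ψ' : T →ₐ[L] L :=
      { ψ with
        commutes' := fun l => by
          have h1 := hψr (algebraMap L R l)
          rw [AlgHom.commutes] at h1
          exact h1 }
    refine ⟨(Algebra.ofId L (LaurentSeries L)).comp ψ', ?_⟩
    intro r
    refine ⟨PowerSeries.C (z r), ?_, by simp⟩
    change algebraMap L (LaurentSeries L) (ψ (r : T)) = _
    rw [hψr]
    rfl
  · have hnoeth : IsNoetherianRing R := Algebra.FiniteType.isNoetherianRing L R
    have hmp : (RingHom.ker z).IsPrime := RingHom.ker_isPrime z
    obtain ⟨c, hc, hcm, hhc, hht⟩ := exists_prime_curve R (RingHom.ker z) h hh0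
    let zA : (R ⧸ c) →ₐ[L] L := Ideal.Quotient.liftₐ c z (fun a ha => hcm ha)
    have hzA : ∀ r : R, zA (Ideal.Quotient.mk c r) = z r := fun r => rfl
    have hker : RingHom.ker zA = (RingHom.ker z).map (Ideal.Quotient.mk c) := by
      ext x
      obtain ⟨r, rfl⟩ := Ideal.Quotient.mk_surjective x
      rw [RingHom.mem_ker, hzA, Ideal.mem_map_iff_of_surjective _ Ideal.Quotient.mk_surjective]
      constructor
      · intro hr
        exact ⟨r, hr, rfl⟩
      · rintro ⟨y, hy, hyr⟩
        have h1 := congrArg zA hyr
        rw [hzA, hzA] at h1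
        rw [← h1]
        exact hy
    have hzAne : RingHom.ker zA ≠ ⊥ := by
      intro h0
      have h1 : Ideal.Quotient.mk c h ∈ RingHom.ker zA := by
        rw [RingHom.mem_ker, hzA, hzh]
      rw [h0, Ideal.mem_bot, Ideal.Quotient.eq_zero_iff_mem] at h1
      exact hhc h1
    obtain ⟨g, ginj, gint⟩ := l1_noether zA hzAne (by rw [hker]; exact hht)
    let _ : Algebra L[X] (R ⧸ c) := g.toRingHom.toAlgebra
    have hst : IsScalarTower L L[X] (R ⧸ c) :=
      IsScalarTower.of_algebraMap_eq (fun x => (g.commutes x).symm)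
    have hint : Algebra.IsIntegral L[X] (R ⧸ c) := ⟨gint⟩
    have hfs : FaithfulSMul L[X] (R ⧸ c) := (faithfulSMul_iff_algebraMap_injective _ _).2 ginj
    have hinjΩ : Function.Injective (algebraMap L[X] (AlgebraicClosure (FractionRing L[X]))) := by
      rw [IsScalarTower.algebraMap_eq L[X] (FractionRing L[X])]
      exact (algebraMap (FractionRing L[X]) (AlgebraicClosure (FractionRing L[X]))).injective.comp
        (IsFractionRing.injective L[X] (FractionRing L[X]))
    have hfsΩ : FaithfulSMul L[X] (AlgebraicClosure (FractionRing L[X])) :=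
      (faithfulSMul_iff_algebraMap_injective _ _).2 hinjΩ
    let jA : (R ⧸ c) →ₐ[L[X]] AlgebraicClosure (FractionRing L[X]) := IsAlgClosed.lift
    have jAinj : Function.Injective jA := by
      refine (RingHom.injective_iff_ker_eq_bot jA.toRingHom).2 ?_
      apply Ideal.eq_bot_of_comap_eq_bot (R := L[X])
      rw [eq_bot_iff]
      intro x hx
      have h1 : jA (algebraMap L[X] (R ⧸ c) x) = 0 := hx
      rw [jA.commutes] at h1
      exact hinjΩ (h1.trans (map_zero _).symm)
    obtain ⟨ψ, hψ⟩ := hext (AlgebraicClosure (FractionRing L[X]))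
      (jA.toRingHom.comp (Ideal.Quotient.mk c)) (by
        intro h0
        have h1 : jA (Ideal.Quotient.mk c h) = jA 0 := by rw [map_zero]; exact h0
        have h2 := jAinj h1
        rw [Ideal.Quotient.eq_zero_iff_mem] at h2
        exact hhc h2)
    have hψr : ∀ r : R, ψ (r : T) = jA (Ideal.Quotient.mk c r) := fun r => RingHom.congr_fun hψ r
    have hψL : ∀ l : L, ψ (algebraMap L T l) =
        algebraMap L (AlgebraicClosure (FractionRing L[X])) l := by
      intro l
      have h1 : algebraMap L T l = ((algebraMap L R l : R) : T) := rfl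
      rw [h1, hψr]
      have h2 : Ideal.Quotient.mk c (algebraMap L R l) = algebraMap L[X] (R ⧸ c) (C l) := by
        have := g.commutes l
        exact this.symm
      rw [h2, jA.commutes]
      rfl
    obtain ⟨S, hS⟩ := (Algebra.FiniteType.out : (⊤ : Subalgebra L T).FG)
    let F := IntermediateField.adjoin (FractionRing L[X]) (ψ '' (S : Set T))
    have hfin : FiniteDimensional (FractionRing L[X]) F := by
      have : Finite (ψ '' (S : Set T)) := (S.finite_toSet.image ψ)
      exact IntermediateField.finiteDimensional_adjoin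
        (fun x _ => Algebra.IsIntegral.isIntegral x)
    have hTF : ∀ t : T, ψ t ∈ F := by
      intro t
      have ht : t ∈ Algebra.adjoin L (S : Set T) := by rw [hS]; trivial
      induction ht using Algebra.adjoin_induction with
      | mem x hx => exact IntermediateField.subset_adjoin _ _ ⟨x, hx, rfl⟩
      | algebraMap l =>
        rw [hψL, IsScalarTower.algebraMap_apply L (FractionRing L[X])]
        exact F.algebraMap_mem _
      | add x y _ _ hx hy => rw [map_add]; exact F.add_mem hx hy
      | mul x y _ _ hx hy => rw [map_mul]; exact F.mul_mem hx hy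
    have hAF : ∀ a : R ⧸ c, jA.toRingHom a ∈ F := by
      intro a
      obtain ⟨r, rfl⟩ := Ideal.Quotient.mk_surjective a
      have := hTF (r : T)
      rw [hψr] at this
      exact this
    let jF : (R ⧸ c) →+* F := jA.toRingHom.codRestrict F hAF
    let _ : Algebra (R ⧸ c) F := jF.toAlgebra
    have hst1 : IsScalarTower L[X] (R ⧸ c) F := by
      refine IsScalarTower.of_algebraMap_eq (fun x => ?_)
      apply Subtype.ext
      exact (jA.commutes x).symm
    have hst2 : IsScalarTower L (R ⧸ c) F := by
      refine IsScalarTower.of_algebraMap_eq (fun x => ?_)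
      apply Subtype.ext
      have h1 := hψL x
      have h2 := hψr (algebraMap L R x)
      exact h1.symm.trans h2
    have hst3 : IsScalarTower L L[X] F := by
      refine IsScalarTower.of_algebraMap_eq (fun x => ?_)
      apply Subtype.ext
      exact IsScalarTower.algebraMap_apply L L[X] (AlgebraicClosure (FractionRing L[X])) x
    have hjF : Function.Injective (algebraMap (R ⧸ c) F) := by
      intro a b hab
      exact jAinj (congrArg Subtype.val hab)
    obtain ⟨γF, hγF⟩ := l1_core L (R ⧸ c) F hjF zA hzAne
    let ψF : T →ₐ[L] F :=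
      { ψ.codRestrict F hTF with
        commutes' := fun l => Subtype.ext (hψL l) }
    refine ⟨γF.comp ψF, ?_⟩
    intro r
    obtain ⟨p, hp, hpc⟩ := hγF (Ideal.Quotient.mk c r)
    refine ⟨p, ?_, ?_⟩
    · rw [← hp]
      have : ψF (r : T) = algebraMap (R ⧸ c) F (Ideal.Quotient.mk c r) := Subtype.ext (hψr r)
      rw [← this]
      rfl
    · rw [hpc, hzA]

end H50.Z
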