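import Pool.Agent.H50.Z.R1_Rey

/-!
(R1b) Consequences of the Reynolds operator, also over extensions `L` of `ℂ`.
-/

open MvPolynomial

set_option linter.unusedSectionVars false

namespace H50.Z

variable {ν : Type} [Fintype ν] [DecidableEq ν]

/-- `act` commutes with extension of scalars -/
lemma act_map {L : Type*} [CommRing L] [Algebra ℂ L] (M : Matrix ν ν ℂ) (g : MvPolynomial ν ℂ) :
    act (kL L M) (map (algebraMap ℂ L) g) = map (algebraMap ℂ L) (act M g) := by
  induction g using MvPolynomial.induction_on with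
  | C a =>
    rw [map_C, algHom_C, algHom_C, algebraMap_eq, algebraMap_eq, map_C]
  | add p q hp hq => rw [map_add, map_add, map_add, map_add, hp, hq]
  | mul_X p i hp =>
    rw [map_mul, map_mul, map_mul, map_mul, hp, map_X, act_X, act_X, map_sum]
    congr 1
    apply Finset.sum_congr rfl
    intro j _
    rw [map_mul, map_C, map_X]
    rfl

/-- evaluation of `act M f` -/
lemma eval_act (M : Matrix ν ν ℂ) (x : ν → ℂ) (f : MvPolynomial ν ℂ) :
    eval x (act M f) = eval (M.mulVec x) f := by
  induction f using MvPolynomial.induction_on with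
  | C a => rw [algHom_C, algebraMap_eq, eval_C, eval_C]
  | add p q hp hq => rw [map_add, map_add, map_add, hp, hq]
  | mul_X p i hp =>
    rw [map_mul, map_mul, map_mul, hp, act_X, map_sum, eval_X]
    congr 1
    simp only [map_mul, eval_C, eval_X]
    rfl

/-- `act M` preserves homogeneity -/
lemma act_isHomogeneous (M : Matrix ν ν ℂ) {f : MvPolynomial ν ℂ} {m : ℕ}
    (hf : f.IsHomogeneous m) : (act M f).IsHomogeneous m := by
  rw [f.as_sum, map_sum]
  apply IsHomogeneous.sum
  intro s hs
  have hdeg : s.degree = m := by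
    have := hf (mem_support_iff.1 hs)
    rw [Finsupp.degree_eq_weight_one]
    exact this
  rw [monomial_eq, map_mul, algHom_C, algebraMap_eq, Finsupp.prod, map_prod]
  have h1 : (∏ i ∈ s.support, act M (X i ^ s i)).IsHomogeneous (∑ i ∈ s.support, s i) := by
    apply IsHomogeneous.prod
    intro i _
    rw [map_pow, act_X]
    have h2 : (∑ j, C (M i j) * X j : MvPolynomial ν ℂ).IsHomogeneous 1 := by
      apply IsHomogeneous.sum
      intro j _
      have := (isHomogeneous_C ν (M i j)).mul (isHomogeneous_X ℂ j)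
      rwa [zero_add] at this
    have := h2.pow (s i)
    rwa [one_mul] at this
  have := (isHomogeneous_C ν (coeff s f)).mul h1
  rw [zero_add] at this
  have hsum : ∑ i ∈ s.support, s i = m := by
    rw [← hdeg]
    rfl
  rwa [hsum] at this

/-- over an extension `L` of `ℂ`: in bounded degree some finite combination of group elements (the
same for all `L`) maps `L[x]` into the `L`-span of the invariants and is the identity there -/
theorem exists_reyL (K : Subgroup (Matrix.unitaryGroup ν ℂ)) (m : ℕ) :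
    ∃ (s : Finset (Matrix.unitaryGroup ν ℂ)) (c : Matrix.unitaryGroup ν ℂ → ℂ),
      (∀ k ∈ s, k ∈ K) ∧ ∑ k ∈ s, c k = 1 ∧
      ∀ (L : Type) [CommRing L] [Algebra ℂ L] (f : MvPolynomial ν L), f.totalDegree ≤ m →
        ∑ k ∈ s, C (algebraMap ℂ L (c k)) * act (kL L (k : Matrix ν ν ℂ)) f ∈
          Submodule.span L ((fun a : MvPolynomial ν ℂ => map (algebraMap ℂ L) a) ''
            (InvAlg K : Set (MvPolynomial ν ℂ))) := by
  obtain ⟨ρ, hρ, -, hcomb⟩ := exists_rey K
  obtain ⟨s, c, hs, hc, h⟩ := hcomb m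
  refine ⟨s, c, hs, hc, ?_⟩
  intro L _ _ f hf
  -- on extended polynomials
  have hmon : ∀ g : MvPolynomial ν ℂ, g.totalDegree ≤ m →
      ∑ k ∈ s, C (algebraMap ℂ L (c k)) * act (kL L (k : Matrix ν ν ℂ)) (map (algebraMap ℂ L) g) =
        map (algebraMap ℂ L) (ρ g) := by
    intro g hg
    rw [h g hg, map_sum]
    apply Finset.sum_congr rfl
    intro k _
    rw [act_map, smul_eq_C_mul, map_mul, map_C]
  have hf' : ∑ k ∈ s, C (algebraMap ℂ L (c k)) * act (kL L (k : Matrix ν ν ℂ)) f =
      ∑ t ∈ f.support, coeff t f • map (algebraMap ℂ L) (ρ (monomial t (1 : ℂ))) := by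
    have h1 : ∀ k ∈ s, C (algebraMap ℂ L (c k)) * act (kL L (k : Matrix ν ν ℂ)) f =
        ∑ t ∈ f.support, coeff t f • (C (algebraMap ℂ L (c k)) *
          act (kL L (k : Matrix ν ν ℂ)) (map (algebraMap ℂ L) (monomial t (1 : ℂ)))) := by
      intro k _
      conv_lhs => rw [f.as_sum, map_sum, Finset.mul_sum]
      apply Finset.sum_congr rfl
      intro t _
      rw [map_monomial, map_one]
      have : (monomial t (coeff t f) : MvPolynomial ν L) = coeff t f • monomial t 1 := by
        rw [smul_monomial, smul_eq_mul, mul_one]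
      rw [this, map_smul, mul_smul_comm]
    rw [Finset.sum_congr rfl h1, Finset.sum_comm]
    apply Finset.sum_congr rfl
    intro t ht
    rw [← Finset.smul_sum, hmon]
    exact le_trans (totalDegree_monomial_le _ _) (le_trans (le_totalDegree ht) hf)
  rw [hf']
  apply Submodule.sum_mem
  intro t _
  apply Submodule.smul_mem
  exact Submodule.subset_span ⟨_, hρ _, rfl⟩

/-- The Reynolds operator: linear, projects onto `A`, is `A`-linear, preserves every `K`-stable
subspace, and `ρ f - f` is a combination of differences `k f - f` -/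
theorem exists_rey' (K : Subgroup (Matrix.unitaryGroup ν ℂ)) :
    ∃ ρ : MvPolynomial ν ℂ →ₗ[ℂ] MvPolynomial ν ℂ, (∀ f, ρ f ∈ InvAlg K) ∧
      (∀ f ∈ InvAlg K, ρ f = f) ∧ (∀ a ∈ InvAlg K, ∀ f, ρ (a * f) = a * ρ f) ∧
      (∀ U : Submodule ℂ (MvPolynomial ν ℂ),
        (∀ k ∈ K, ∀ f ∈ U, act (k : Matrix ν ν ℂ) f ∈ U) → ∀ f ∈ U, ρ f ∈ U) ∧
      (∀ f m, f.IsHomogeneous m → (ρ f).IsHomogeneous m) ∧
      (∀ f, (ρ f).totalDegree ≤ f.totalDegree) := by
  obtain ⟨ρ, hρ, hfix, hcomb⟩ := exists_rey K
  have hU : ∀ U : Submodule ℂ (MvPolynomial ν ℂ),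
        (∀ k ∈ K, ∀ f ∈ U, act (k : Matrix ν ν ℂ) f ∈ U) → ∀ f ∈ U, ρ f ∈ U := by
    intro U hU f hf
    obtain ⟨s, c, hs, -, h⟩ := hcomb f.totalDegree
    rw [h f le_rfl]
    apply Submodule.sum_mem
    intro k hk
    exact Submodule.smul_mem _ _ (hU k (hs k hk) f hf)
  have hhom : ∀ f m, f.IsHomogeneous m → (ρ f).IsHomogeneous m := by
    intro f m hf
    exact hU (homogeneousSubmodule ν ℂ m) (fun k _ g hg => act_isHomogeneous _ hg) f hf
  refine ⟨ρ, hρ, hfix, ?_, hU, hhom, ?_⟩
  · intro a ha f
    obtain ⟨s, c, hs, -, h⟩ := hcomb (max (a * f).totalDegree f.totalDegree)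
    rw [h (a * f) (le_max_left _ _), h f (le_max_right _ _), Finset.mul_sum]
    apply Finset.sum_congr rfl
    intro k hk
    rw [map_mul, ha k (hs k hk), mul_smul_comm]
  · intro f
    have := hU (restrictTotalDegree ν ℂ f.totalDegree) ?_ f
      ((mem_restrictTotalDegree _ _ _).2 le_rfl)
    · exact (mem_restrictTotalDegree _ _ _).1 this
    · intro k _ g hg
      rw [mem_restrictTotalDegree] at hg ⊢
      rw [← sum_homogeneousComponent g, map_sum]
      apply (totalDegree_finsetSum _ _).trans
      apply Finset.sup_le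
      intro i hi
      have h1 := (act_isHomogeneous (k : Matrix ν ν ℂ)
        (homogeneousComponent_isHomogeneous i g)).totalDegree_le
      rw [Finset.mem_range] at hi
      omega

/-- `A` is graded -/
theorem isGraded_invAlg (K : Subgroup (Matrix.unitaryGroup ν ℂ)) :
    H50.DO.IsGraded (InvAlg K) := by
  intro a ha d k hk
  have h1 : act (k : Matrix ν ν ℂ) (homogeneousComponent d a) =
      homogeneousComponent d (act (k : Matrix ν ν ℂ) a) := by
    conv_rhs => rw [← sum_homogeneousComponent a, map_sum, map_sum]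
    have h2 : ∀ i ∈ Finset.range (a.totalDegree + 1),
        homogeneousComponent d (act (k : Matrix ν ν ℂ) (homogeneousComponent i a)) =
          if d = i then act (k : Matrix ν ν ℂ) (homogeneousComponent d a) else 0 := by
      intro i _
      have h3 := act_isHomogeneous (k : Matrix ν ν ℂ) (homogeneousComponent_isHomogeneous i a)
      split_ifs with h
      · subst h
        rw [homogeneousComponent_of_mem h3, if_pos rfl]
      · rw [homogeneousComponent_of_mem h3, if_neg h]
    rw [Finset.sum_congr rfl h2, Finset.sum_ite_eq]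
    split_ifs with h
    · rfl
    · rw [Finset.mem_range, not_lt] at h
      rw [homogeneousComponent_eq_zero d a (by omega), map_zero]
  rw [h1, ha k hk]

/-- Functions on a `K`-stable set: if `u : (ν → ℂ) → ℂ` is `K`-invariant on a `K`-stable set `Y` and
coincides there with a polynomial then it coincides with an invariant polynomial. -/
theorem exists_inv_eq_on (K : Subgroup (Matrix.unitaryGroup ν ℂ)) (Y : Set (ν → ℂ))
    (hY : ∀ k ∈ K, ∀ x ∈ Y, (k : Matrix ν ν ℂ).mulVec x ∈ Y) (F : MvPolynomial ν ℂ)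
    (hF : ∀ k ∈ K, ∀ x ∈ Y, eval ((k : Matrix ν ν ℂ).mulVec x) F = eval x F) :
    ∃ a ∈ InvAlg K, ∀ x ∈ Y, eval x a = eval x F := by
  obtain ⟨ρ, hρ, -, hcomb⟩ := exists_rey K
  obtain ⟨s, c, hs, hc, h⟩ := hcomb F.totalDegree
  refine ⟨ρ F, hρ F, fun x hx => ?_⟩
  rw [h F le_rfl, map_sum]
  have h1 : ∀ k ∈ s, eval x (c k • act (k : Matrix ν ν ℂ) F) = c k * eval x F := by
    intro k hk
    rw [smul_eval, eval_act, hF k (hs k hk) x hx]
  rw [Finset.sum_congr rfl h1, ← Finset.sum_mul, hc, one_mul]

end H50.Z
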