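import Pool.Agent.H50.Z.Z1_Good
import Pool.Agent.H50.Z.R1b_ReyL

/-! Basic properties of `I_Z`: prime, `K`-stable, homogeneous, the algebra `B`. -/

open MvPolynomial H50.DO

set_option linter.unusedSectionVars false

namespace H50.Z

variable {ν : Type} [Fintype ν] [DecidableEq ν]

namespace Z2

omit [Fintype ν] [DecidableEq ν] in
/-- scaling the `ξ` variables in a `ξ`-homogeneous polynomial -/
lemma aeval_scale {L : Type*} [CommRing L] [Algebra ℂ L] (x ξ : ν → L) (s : L)
    (G : MvPolynomial (ν ⊕ ν) ℂ) (m : ℕ) (hG : IsWeightedHomogeneous wxi G m) :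
    aeval (Sum.elim x fun i => s * ξ i) G = s ^ m * aeval (Sum.elim x ξ) G := by
  have hel : ∀ i : ν ⊕ ν, Sum.elim x (fun i => s * ξ i) i = s ^ (wxi i) * Sum.elim x ξ i := by
    rintro (i | i)
    · simp [wxi]
    · simp [wxi]
  rw [aeval_def, aeval_def, eval₂_eq, eval₂_eq, Finset.mul_sum]
  apply Finset.sum_congr rfl
  intro d hd
  have hw : Finsupp.weight wxi d = m := hG (mem_support_iff.1 hd)
  have hp : ∏ i ∈ d.support, Sum.elim x (fun i => s * ξ i) i ^ d i =
      s ^ m * ∏ i ∈ d.support, Sum.elim x ξ i ^ d i := by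
    simp_rw [hel, mul_pow]
    rw [Finset.prod_mul_distrib]
    congr 1
    simp_rw [← pow_mul]
    rw [Finset.prod_pow_eq_pow_sum, ← hw, Finsupp.weight_apply, Finsupp.sum]
    congr 1
    apply Finset.sum_congr rfl
    intro i _
    rw [smul_eq_mul, mul_comm]
  rw [hp]
  ring

omit [Fintype ν] [DecidableEq ν] in
/-- a polynomial is the finite sum of its `ξ`-homogeneous components -/
lemma exists_sum_components (F : MvPolynomial (ν ⊕ ν) ℂ) :
    ∃ s : Finset ℕ, F = ∑ m ∈ s, weightedHomogeneousComponent wxi m F := by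
  have hf := weightedHomogeneousComponent_finsupp (w := wxi) F
  refine ⟨hf.toFinset, ?_⟩
  conv_lhs => rw [← sum_weightedHomogeneousComponent wxi F]
  rw [finsum_eq_sum_of_support_subset]
  intro j hj
  rw [Finset.mem_coe]
  exact (Set.Finite.mem_toFinset hf).2 hj

omit [Fintype ν] [DecidableEq ν] in
lemma exists_sum_components' (F : MvPolynomial (ν ⊕ ν) ℂ) (m : ℕ) :
    ∃ s : Finset ℕ, m ∈ s ∧ F = ∑ m ∈ s, weightedHomogeneousComponent wxi m F := by
  classical
  obtain ⟨s, hs⟩ := exists_sum_components F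
  have hf := weightedHomogeneousComponent_finsupp (w := wxi) F
  refine ⟨insert m hf.toFinset, Finset.mem_insert_self _ _, ?_⟩
  conv_lhs => rw [← sum_weightedHomogeneousComponent wxi F]
  rw [finsum_eq_sum_of_support_subset]
  intro j hj
  rw [Finset.mem_coe, Finset.mem_insert]
  right
  exact (Set.Finite.mem_toFinset hf).2 hj

omit [Fintype ν] [DecidableEq ν] in
/-- `F(x, da + t(da' - da))` -/
lemma dsub_line (a a' : MvPolynomial ν ℂ) (F : MvPolynomial (ν ⊕ ν) ℂ) (t : ℂ) :
    Polynomial.eval (C t) (aeval (Sum.elim (fun i => Polynomial.C (X i))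
      (fun i => Polynomial.C (pderiv i a) + Polynomial.X * Polynomial.C (pderiv i (a' - a)))) F :
        Polynomial (MvPolynomial ν ℂ)) = dsub (a + t • (a' - a)) F := by
  have h : ((Polynomial.aeval (C t : MvPolynomial ν ℂ)).restrictScalars ℂ).comp
      (aeval (Sum.elim (fun i => (Polynomial.C (X i) : Polynomial (MvPolynomial ν ℂ)))
      (fun i => Polynomial.C (pderiv i a) + Polynomial.X * Polynomial.C (pderiv i (a' - a))))) =
      dsub (a + t • (a' - a)) := by
    apply MvPolynomial.algHom_ext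
    rintro (i | i)
    · simp [dsub]
    · simp [dsub, MvPolynomial.smul_eq_C_mul]
  rw [← h]
  simp

omit [DecidableEq ν] in
/-- chain rule for linear substitutions -/
lemma pderiv_act (M : Matrix ν ν ℂ) (f : MvPolynomial ν ℂ) (j : ν) :
    pderiv j (act M f) = ∑ i, C (M i j) * act M (pderiv i f) := by
  classical
  induction f using MvPolynomial.induction_on with
  | C a => simp [act]
  | add p q hp hq =>
    rw [map_add, map_add, hp, hq, ← Finset.sum_add_distrib]
    apply Finset.sum_congr rfl
    intro i _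
    rw [map_add, map_add, mul_add]
  | mul_X p l hp =>
    rw [map_mul, Derivation.leibniz, hp, act_X, map_sum]
    have h1 : ∑ x, pderiv j (C (M l x) * X x : MvPolynomial ν ℂ) = C (M l j) := by
      rw [Finset.sum_eq_single j]
      · simp
      · intro b _ hb
        simp [pderiv_X, hb]
      · simp
    rw [h1]
    have h2 : ∀ i ∈ (Finset.univ : Finset ν), C (M i j) * act M (pderiv i (p * X l)) =
        (if l = i then C (M i j) * act M p else 0) +
          (∑ x, C (M l x) * X x) * (C (M i j) * act M (pderiv i p)) := by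
      intro i _
      rw [Derivation.leibniz, smul_eq_mul, smul_eq_mul, map_add, map_mul, map_mul, act_X]
      by_cases h : l = i
      · subst h
        rw [pderiv_X_self, map_one, if_pos rfl]
        ring
      · have h' : i ≠ l := fun e => h e.symm
        rw [if_neg h, pderiv_X_of_ne h, map_zero]
        ring
    rw [Finset.sum_congr rfl h2, Finset.sum_add_distrib, ← Finset.mul_sum]
    rw [Finset.sum_ite_eq, if_pos (Finset.mem_univ _), smul_eq_mul, smul_eq_mul]
    ring

end Z2

open Z2

omit [Fintype ν] [DecidableEq ν] in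
theorem isPrime_IZ (A : Subalgebra ℂ (MvPolynomial ν ℂ)) : (IZ A).IsPrime := by
  constructor
  · intro h
    have h1 : (1 : MvPolynomial (ν ⊕ ν) ℂ) ∈ IZ A := by rw [h]; trivial
    have h2 := mem_IZ.1 h1 0 A.zero_mem
    rw [map_one] at h2
    exact one_ne_zero h2
  · intro F G hFG
    by_contra hcon
    push Not at hcon
    obtain ⟨hF, hG⟩ := hcon
    rw [mem_IZ] at hF hG
    push Not at hF hG
    obtain ⟨a, ha, hF⟩ := hF
    obtain ⟨a', ha', hG⟩ := hG
    let ψ : MvPolynomial (ν ⊕ ν) ℂ →ₐ[ℂ] Polynomial (MvPolynomial ν ℂ) :=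
      aeval (Sum.elim (fun i => Polynomial.C (X i))
      (fun i => Polynomial.C (pderiv i a) + Polynomial.X * Polynomial.C (pderiv i (a' - a))))
    have hψ : ∀ (t : ℂ) F, Polynomial.eval (C t) (ψ F) = dsub (a + t • (a' - a)) F :=
      fun t F => dsub_line a a' F t
    have h0 : ψ F * ψ G = 0 := by
      rw [← map_mul]
      apply Polynomial.eq_zero_of_infinite_isRoot
      apply Set.Infinite.mono (s := Set.range (C : ℂ → MvPolynomial ν ℂ))
      · rintro _ ⟨t, rfl⟩
        change Polynomial.eval _ _ = 0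
        rw [hψ]
        exact mem_IZ.1 hFG _ (A.add_mem ha (A.smul_mem (A.sub_mem ha' ha) t))
      · exact Set.infinite_range_of_injective (C_injective ν ℂ)
    rcases mul_eq_zero.1 h0 with h | h
    · apply hF
      have := hψ 0 F
      rw [h] at this
      simpa using this.symm
    · apply hG
      have := hψ 1 G
      rw [h] at this
      simpa using this.symm

omit [Fintype ν] [DecidableEq ν] in
/-- `I_Z` is homogeneous in `ξ` -/
theorem IZ_component (A : Subalgebra ℂ (MvPolynomial ν ℂ)) (F : MvPolynomial (ν ⊕ ν) ℂ)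
    (hF : F ∈ IZ A) (m : ℕ) : weightedHomogeneousComponent wxi m F ∈ IZ A := by
  obtain ⟨s, hms, hs⟩ := exists_sum_components' F m
  rw [mem_IZ] at hF ⊢
  intro a ha
  -- the polynomial `∑ t^m F_m(x, da)`
  let P : Polynomial (MvPolynomial ν ℂ) :=
    ∑ j ∈ s, Polynomial.X ^ j * Polynomial.C (dsub a (weightedHomogeneousComponent wxi j F))
  have hP : P = 0 := by
    apply Polynomial.eq_zero_of_infinite_isRoot
    apply Set.Infinite.mono (s := Set.range (C : ℂ → MvPolynomial ν ℂ))
    · rintro _ ⟨t, rfl⟩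
      change Polynomial.eval _ _ = 0
      rw [Polynomial.eval_finsetSum]
      have h1 := hF (t • a) (A.smul_mem ha t)
      rw [hs, map_sum] at h1
      rw [← h1]
      apply Finset.sum_congr rfl
      intro j _
      have h2 := aeval_scale (L := MvPolynomial ν ℂ) X (fun i => pderiv i a) (C t)
        (weightedHomogeneousComponent wxi j F) j
        (weightedHomogeneousComponent_isWeightedHomogeneous j F)
      have h3 : dsub (t • a) = aeval (Sum.elim X fun i => C t * pderiv i a) := by
        unfold dsub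
        congr 2
        funext i
        rw [Derivation.map_smul, MvPolynomial.smul_eq_C_mul]
      rw [h3, h2, Polynomial.eval_mul, Polynomial.eval_pow, Polynomial.eval_X, Polynomial.eval_C]
      rfl
    · exact Set.infinite_range_of_injective (C_injective ν ℂ)
  have h4 := congrArg (fun p => Polynomial.coeff p m) hP
  simp only [P, Polynomial.finsetSum_coeff, Polynomial.coeff_zero] at h4
  rw [Finset.sum_eq_single m] at h4
  · simpa using h4
  · intro j _ hj
    rw [Polynomial.coeff_X_pow_mul', Polynomial.coeff_C]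
    split_ifs with h5 h6
    · omega
    · rfl
    · rfl
  · intro h; exact absurd hms h

omit [Fintype ν] [DecidableEq ν] in
/-- `Z`-points may be scaled in `ξ` -/
theorem IsZ.smul {A : Subalgebra ℂ (MvPolynomial ν ℂ)} {L : Type} [CommRing L] [Algebra ℂ L]
    {x ξ : ν → L} (h : IsZ A x ξ) (s : L) : IsZ A x (fun i => s * ξ i) := by
  intro F hF
  obtain ⟨S, hS⟩ := exists_sum_components F
  rw [hS, map_sum]
  apply Finset.sum_eq_zero
  intro m _
  rw [aeval_scale x ξ s _ m (weightedHomogeneousComponent_isWeightedHomogeneous m F),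
    h _ (IZ_component A F hF m), mul_zero]

omit [Fintype ν] [DecidableEq ν] in
/-- `I_Z ∩ S = 0` -/
theorem inS_mem_IZ (A : Subalgebra ℂ (MvPolynomial ν ℂ)) (f : MvPolynomial ν ℂ) :
    inS f ∈ IZ A ↔ f = 0 := by
  have h : ∀ a, dsub a (inS f) = f := by
    intro a
    rw [dsub, inS, aeval_rename]
    have : (Sum.elim X fun i => pderiv i a) ∘ Sum.inl = (X : ν → MvPolynomial ν ℂ) := by
      funext i; rfl
    rw [this, aeval_X_left_apply]
  constructor
  · intro hf
    rw [← h 0]
    exact mem_IZ.1 hf 0 A.zero_mem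
  · rintro rfl
    rw [map_zero]
    exact Ideal.zero_mem _

/-- `I_Z` is `K`-stable -/
theorem act_mem_IZ (K : Subgroup (Matrix.unitaryGroup ν ℂ)) (k) (hk : k ∈ dbl K)
    (F : MvPolynomial (ν ⊕ ν) ℂ) (hF : F ∈ IZ (InvAlg K)) :
    act (k : Matrix (ν ⊕ ν) (ν ⊕ ν) ℂ) F ∈ IZ (InvAlg K) := by
  obtain ⟨l, hl, rfl⟩ := Subgroup.mem_map.1 hk
  rw [mem_IZ] at hF ⊢
  intro a ha
  have hU : (l : Matrix ν ν ℂ) * star (l : Matrix ν ν ℂ) = 1 :=
    Matrix.mem_unitaryGroup_iff.1 l.2
  have hU' : ∀ i j, ∑ m, (starRingEnd ℂ) ((l : Matrix ν ν ℂ) i m) * (l : Matrix ν ν ℂ) j m =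
      if i = j then 1 else 0 := by
    intro i j
    have h := congrFun (congrFun hU j) i
    rw [Matrix.mul_apply] at h
    rw [Matrix.one_apply] at h
    rw [show (if i = j then (1 : ℂ) else 0) = if j = i then 1 else 0 by
      by_cases hij : i = j <;> simp [hij, eq_comm], ← h]
    apply Finset.sum_congr rfl
    intro m _
    rw [Matrix.star_apply, mul_comm]
    rfl
  have hd : ∀ i, act (l : Matrix ν ν ℂ) (pderiv i a) =
      ∑ j, C ((starRingEnd ℂ) ((l : Matrix ν ν ℂ) i j)) * pderiv j a := by
    intro i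
    have h1 : ∀ j, pderiv j a = ∑ m, C ((l : Matrix ν ν ℂ) m j) * act (l : Matrix ν ν ℂ) (pderiv m a) := by
      intro j
      rw [← pderiv_act, ha l hl]
    conv_rhs => 
      arg 2
      ext j
      rw [h1 j]
    simp_rw [Finset.mul_sum, ← mul_assoc, ← C_mul]
    rw [Finset.sum_comm]
    simp_rw [← Finset.sum_mul, ← map_sum, hU']
    simp
  have hcomp : (dsub a).comp (act (dblM (l : Matrix ν ν ℂ))) =
      (act (l : Matrix ν ν ℂ)).comp (dsub a) := by
    apply MvPolynomial.algHom_ext
    rintro (i | i)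
    · rw [AlgHom.comp_apply, AlgHom.comp_apply, act_X, map_sum]
      simp [dblM, dsub, act_X]
    · rw [AlgHom.comp_apply, AlgHom.comp_apply, act_X, map_sum]
      simp only [dblM, dsub, map_mul, algHom_C, algebraMap_eq, aeval_X, Sum.elim_inr,
        Fintype.sum_sum_type, Matrix.fromBlocks_apply₂₁, Matrix.fromBlocks_apply₂₂,
        Matrix.zero_apply, Sum.elim_inl, Matrix.map_apply, map_zero, zero_mul,
        Finset.sum_const_zero, zero_add]
      rw [hd i]
  have h := DFunLike.congr_fun hcomp F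
  rw [AlgHom.comp_apply, AlgHom.comp_apply, hF a ha, map_zero] at h
  exact h

/-- invariants of `V` are invariants of `V × V*` -/
theorem inS_mem_InvAlg_dbl (K : Subgroup (Matrix.unitaryGroup ν ℂ)) (f : MvPolynomial ν ℂ)
    (hf : f ∈ InvAlg K) : inS f ∈ InvAlg (dbl K) := by
  intro k hk
  obtain ⟨l, hl, rfl⟩ := Subgroup.mem_map.1 hk
  have hcomp : (act (dblM (l : Matrix ν ν ℂ))).comp inS =
      inS.comp (act (l : Matrix ν ν ℂ)) := by
    apply MvPolynomial.algHom_ext
    intro i
    rw [AlgHom.comp_apply, AlgHom.comp_apply, act_X, map_sum]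
    simp [inS, dblM, act_X]
  have h := DFunLike.congr_fun hcomp f
  rw [AlgHom.comp_apply, AlgHom.comp_apply, hf l hl] at h
  exact h

/-- the inclusion `A → O^K` -/
noncomputable def inA (K : Subgroup (Matrix.unitaryGroup ν ℂ)) : InvAlg K →ₐ[ℂ] InvAlg (dbl K) :=
  (inS.comp (InvAlg K).val).codRestrict _ fun a => inS_mem_InvAlg_dbl K a a.2

/-- the ideal `I_Z ∩ O^K` -/
noncomputable def IZK (K : Subgroup (Matrix.unitaryGroup ν ℂ)) : Ideal (InvAlg (dbl K)) :=
  (IZ (InvAlg K)).comap (InvAlg (dbl K)).val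

end H50.Z
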