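import Pool.Agent.H50.Z.KL2_Red
import Pool.Agent.H50.Z.Z2_Struct
import Pool.Agent.H50.Z.L1_Arc

/-! (KL3) Polynomial arcs through `Z`-points and the final form of KL. -/

open MvPolynomial H50.DO

set_option linter.unusedSectionVars false

namespace H50.Z

variable {ν : Type} [Fintype ν] [DecidableEq ν]

namespace KL3

omit [Fintype ν] [DecidableEq ν] in
/-- chain rule -/
lemma pderiv_aeval {m : ℕ} (f : Fin m → MvPolynomial ν ℂ) (p : MvPolynomial (Fin m) ℂ) (i : ν) :
    pderiv i (aeval f p) = ∑ j, aeval f (pderiv j p) * pderiv i (f j) := by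
  classical
  induction p using MvPolynomial.induction_on with
  | C a => simp
  | add p q hp hq =>
    rw [map_add, map_add, hp, hq, ← Finset.sum_add_distrib]
    apply Finset.sum_congr rfl
    intro j _
    rw [map_add, map_add, add_mul]
  | mul_X p l hp =>
    rw [map_mul, Derivation.leibniz, hp, aeval_X, smul_eq_mul, smul_eq_mul]
    have h2 : ∀ j ∈ (Finset.univ : Finset (Fin m)), aeval f (pderiv j (p * X l)) * pderiv i (f j) =
        (if l = j then aeval f p * pderiv i (f l) else 0) +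
          f l * (aeval f (pderiv j p) * pderiv i (f j)) := by
      intro j _
      rw [Derivation.leibniz, smul_eq_mul, smul_eq_mul, map_add, map_mul, map_mul, aeval_X]
      by_cases h : l = j
      · subst h
        rw [pderiv_X_self, map_one, if_pos rfl]
        ring
      · have h' : j ≠ l := fun e => h e.symm
        rw [if_neg h, pderiv_X_of_ne h, map_zero]
        ring
    rw [Finset.sum_congr rfl h2, Finset.sum_add_distrib, ← Finset.mul_sum, Finset.sum_ite_eq,
      if_pos (Finset.mem_univ _)]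

/-- `F ↦ F(x, ∑ c_j df_j)` -/
noncomputable def theta {m : ℕ} (f : Fin m → MvPolynomial ν ℂ) :
    MvPolynomial (ν ⊕ ν) ℂ →ₐ[ℂ] MvPolynomial (ν ⊕ Fin m) ℂ :=
  aeval (Sum.elim (fun i => X (Sum.inl i))
    fun i => ∑ j, X (Sum.inr j) * rename Sum.inl (pderiv i (f j)))

omit [Fintype ν] [DecidableEq ν] in
lemma ker_theta {m : ℕ} (f : Fin m → MvPolynomial ν ℂ) (F : MvPolynomial (ν ⊕ ν) ℂ)
    (hF : theta f F = 0) : F ∈ IZ (Algebra.adjoin ℂ (Set.range f)) := by
  rw [mem_IZ]
  intro a ha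
  rw [Algebra.adjoin_range_eq_range_aeval] at ha
  obtain ⟨p, rfl⟩ := ha
  change dsub (aeval f p) F = 0
  have h : (aeval (Sum.elim X fun j => aeval f (pderiv j p)) :
      MvPolynomial (ν ⊕ Fin m) ℂ →ₐ[ℂ] MvPolynomial ν ℂ).comp (theta f) = dsub (aeval f p) := by
    apply MvPolynomial.algHom_ext
    rintro (i | i)
    · simp [theta, dsub]
    · rw [AlgHom.comp_apply, theta, aeval_X, dsub, aeval_X, Sum.elim_inr, Sum.elim_inr,
        pderiv_aeval, map_sum]
      apply Finset.sum_congr rfl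
      intro j _
      rw [map_mul, aeval_X, Sum.elim_inr, aeval_rename]
      congr 1
      have h1 : (Sum.elim X fun j => aeval f (pderiv j p)) ∘ Sum.inl =
        (X : ν → MvPolynomial ν ℂ) := by
        funext i; rfl
      rw [h1, aeval_X_left_apply]
  rw [← h, AlgHom.comp_apply, hF, map_zero]

/-- congruence of evaluations modulo `X^M` -/
lemma dvd_aeval_sub {σ : Type} (M : ℕ) (u v : σ → PowerSeries ℂ)
    (h : ∀ i, (PowerSeries.X : PowerSeries ℂ) ^ M ∣ u i - v i) (p : MvPolynomial σ ℂ) :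
    (PowerSeries.X : PowerSeries ℂ) ^ M ∣ aeval u p - aeval v p := by
  rw [← Ideal.mem_span_singleton, ← Ideal.Quotient.mk_eq_mk_iff_sub_mem]
  have h1 : ∀ w : σ → PowerSeries ℂ, Ideal.Quotient.mkₐ ℂ (Ideal.span {(PowerSeries.X : PowerSeries ℂ) ^ M})
      (aeval w p) = aeval (fun i => Ideal.Quotient.mkₐ ℂ
        (Ideal.span {(PowerSeries.X : PowerSeries ℂ) ^ M}) (w i)) p := by
    intro w
    rw [← AlgHom.comp_apply, comp_aeval]
  change Ideal.Quotient.mkₐ ℂ (Ideal.span {(PowerSeries.X : PowerSeries ℂ) ^ M}) (aeval u p) =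
    Ideal.Quotient.mkₐ ℂ (Ideal.span {(PowerSeries.X : PowerSeries ℂ) ^ M}) (aeval v p)
  rw [h1, h1]
  congr 2
  funext i
  change Ideal.Quotient.mk _ (u i) = Ideal.Quotient.mk _ (v i)
  rw [Ideal.Quotient.mk_eq_mk_iff_sub_mem, Ideal.mem_span_singleton]
  exact h i

lemma dvd_sub_trunc (M : ℕ) (u : PowerSeries ℂ) :
    (PowerSeries.X : PowerSeries ℂ) ^ M ∣ u - (PowerSeries.trunc M u : Polynomial ℂ) := by
  rw [PowerSeries.X_pow_dvd_iff]
  intro n hn
  rw [map_sub, Polynomial.coeff_coe, PowerSeries.coeff_trunc, if_pos hn, sub_self]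

lemma coe_aeval {σ : Type} (x : σ → Polynomial ℂ) (p : MvPolynomial σ ℂ) :
    ((aeval x p : Polynomial ℂ) : PowerSeries ℂ) = aeval (fun i => (x i : PowerSeries ℂ)) p := by
  have h : (Polynomial.coeToPowerSeries.algHom ℂ).comp (aeval x) =
      aeval (fun i => (x i : PowerSeries ℂ)) := by
    apply MvPolynomial.algHom_ext
    intro i
    simp [Polynomial.coeToPowerSeries.algHom_apply]
  have h1 := DFunLike.congr_fun h p
  rw [AlgHom.comp_apply, Polynomial.coeToPowerSeries.algHom_apply] at h1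
  simpa using h1

end KL3

open KL3

/-- every complex `Z`-point is the limit of a polynomial arc `(x(t), ∑ c_j(t) df_j(x(t)))` -/
theorem exists_poly_arc (A : Subalgebra ℂ (MvPolynomial ν ℂ)) {m : ℕ}
    (f : Fin m → MvPolynomial ν ℂ) (hf : A = Algebra.adjoin ℂ (Set.range f)) (x₀ ξ₀ : ν → ℂ)
    (hz : IsZ A x₀ ξ₀) :
    ∃ (x : ν → Polynomial ℂ) (c : Fin m → Polynomial ℂ) (r : ℕ) (η : ν → Polynomial ℂ),
      (∀ i, Polynomial.X ^ r * η i = ∑ j, c j * aeval x (pderiv i (f j))) ∧
      (∀ i, (x i).eval 0 = x₀ i) ∧ ∀ i, (η i).eval 0 = ξ₀ i := by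
  classical
  -- the point of `R = range (theta f)`
  let φ : MvPolynomial (ν ⊕ ν) ℂ →ₐ[ℂ] ℂ := aeval (Sum.elim x₀ ξ₀)
  have hφ : ∀ F, theta f F = 0 → φ F = 0 := by
    intro F hF
    apply hz
    rw [hf]
    exact ker_theta f F hF
  let θ' := (theta f).rangeRestrict
  have hθ' : Function.Surjective θ' := (theta f).rangeRestrict_surjective
  have hker : ∀ F ∈ RingHom.ker θ', φ F = 0 := by
    intro F hF
    apply hφ
    have h1 : θ' F = 0 := hF
    have h2 := congrArg Subtype.val h1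
    exact h2
  let z : (theta f).range →ₐ[ℂ] ℂ :=
    (Ideal.Quotient.liftₐ (RingHom.ker θ') φ hker).comp
      (Ideal.quotientKerAlgEquivOfSurjective hθ').symm.toAlgHom
  have hzθ : ∀ F, z (θ' F) = φ F := by
    intro F
    change Ideal.Quotient.liftₐ (RingHom.ker θ') φ hker
      ((Ideal.quotientKerAlgEquivOfSurjective hθ').symm (θ' F)) = φ F
    have h1 : (Ideal.quotientKerAlgEquivOfSurjective hθ').symm (θ' F) =
        Ideal.Quotient.mk _ F := by
      rw [AlgEquiv.symm_apply_eq]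
      rfl
    rw [h1]
    rfl
  have hfin : Algebra.FiniteType ℂ (theta f).range :=
    Algebra.FiniteType.of_surjective θ' hθ'
  obtain ⟨γ, hγ⟩ := arc_lemma ℂ (MvPolynomial (ν ⊕ Fin m) ℂ) (theta f).range z
  -- the power series
  have hx : ∀ i, ∃ p : PowerSeries ℂ, γ (X (Sum.inl i)) = (p : LaurentSeries ℂ) ∧
      PowerSeries.constantCoeff p = x₀ i := by
    intro i
    obtain ⟨p, hp, hp'⟩ := hγ (θ' (X (Sum.inl i)))
    refine ⟨p, ?_, ?_⟩
    · rw [← hp]
      congr 1
      change X (Sum.inl i) = theta f (X (Sum.inl i))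
      rw [theta, aeval_X, Sum.elim_inl]
    · rw [hp', hzθ]
      simp [φ]
  have hη : ∀ i, ∃ p : PowerSeries ℂ, γ (theta f (X (Sum.inr i))) = (p : LaurentSeries ℂ) ∧
      PowerSeries.constantCoeff p = ξ₀ i := by
    intro i
    obtain ⟨p, hp, hp'⟩ := hγ (θ' (X (Sum.inr i)))
    refine ⟨p, hp, ?_⟩
    rw [hp', hzθ]
    simp [φ]
  choose xs hxs hxs0 using hx
  choose es hes hes0 using hη
  -- clear denominators
  obtain ⟨⟨b, hb⟩, hbc⟩ := IsLocalization.exist_integer_multiples_of_finite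
    (Submonoid.powers (PowerSeries.X : PowerSeries ℂ)) (fun j : Fin m => γ (X (Sum.inr j)))
  obtain ⟨r, rfl⟩ := hb
  choose cs hcs using hbc
  have hinj : Function.Injective (algebraMap (PowerSeries ℂ) (LaurentSeries ℂ)) :=
    HahnSeries.ofPowerSeries_injective
  have hren : ∀ g : MvPolynomial ν ℂ, γ (rename Sum.inl g) =
      algebraMap (PowerSeries ℂ) (LaurentSeries ℂ) (aeval xs g) := by
    intro g
    induction g using MvPolynomial.induction_on with
    | C a =>
      rw [rename_C, ← algebraMap_eq, AlgHom.commutes, ← algebraMap_eq, AlgHom.commutes]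
      rfl
    | add p q hp hq => rw [map_add, map_add, hp, hq, map_add, map_add]
    | mul_X p i hp =>
      rw [map_mul, map_mul, hp, map_mul, map_mul, rename_X, aeval_X, hxs]
      rfl
  have hmain : ∀ i, (PowerSeries.X : PowerSeries ℂ) ^ r * es i =
      ∑ j, cs j * aeval xs (pderiv i (f j)) := by
    intro i
    apply hinj
    rw [map_mul, map_sum]
    have h1 : algebraMap (PowerSeries ℂ) (LaurentSeries ℂ) (es i) =
        ∑ j, γ (X (Sum.inr j)) * algebraMap (PowerSeries ℂ) (LaurentSeries ℂ)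
          (aeval xs (pderiv i (f j))) := by
      have h2 : algebraMap (PowerSeries ℂ) (LaurentSeries ℂ) (es i) =
        γ (theta f (X (Sum.inr i))) := (hes i).symm
      rw [h2, theta, aeval_X, Sum.elim_inr, map_sum]
      apply Finset.sum_congr rfl
      intro j _
      rw [map_mul, hren]
    rw [h1, Finset.mul_sum]
    apply Finset.sum_congr rfl
    intro j _
    rw [map_mul, hcs j, Algebra.smul_def]
    ring
  -- truncation
  let M := r + 1
  let x : ν → Polynomial ℂ := fun i => PowerSeries.trunc M (xs i)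
  let c : Fin m → Polynomial ℂ := fun j => PowerSeries.trunc M (cs j)
  let G : ν → Polynomial ℂ := fun i => ∑ j, c j * aeval x (pderiv i (f j))
  have hG : ∀ i, (PowerSeries.X : PowerSeries ℂ) ^ M ∣
      (PowerSeries.X : PowerSeries ℂ) ^ r * es i - (G i : PowerSeries ℂ) := by
    intro i
    rw [hmain i]
    have h1 : (G i : PowerSeries ℂ) =
        ∑ j, (c j : PowerSeries ℂ) * aeval (fun l => (x l : PowerSeries ℂ)) (pderiv i (f j)) := by
      have h2 := map_sum (Polynomial.coeToPowerSeries.ringHom (R := ℂ))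
        (fun j => c j * aeval x (pderiv i (f j))) Finset.univ
      refine h2.trans ?_
      apply Finset.sum_congr rfl
      intro j _
      rw [map_mul]
      change (c j : PowerSeries ℂ) * ((aeval x (pderiv i (f j)) : Polynomial ℂ) : PowerSeries ℂ) = _
      rw [coe_aeval]
    rw [h1, ← Finset.sum_sub_distrib]
    apply Finset.dvd_sum
    intro j _
    have h3 : cs j * aeval xs (pderiv i (f j)) -
        (c j : PowerSeries ℂ) * aeval (fun l => (x l : PowerSeries ℂ)) (pderiv i (f j)) =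
        (cs j - c j) * aeval xs (pderiv i (f j)) + c j * (aeval xs (pderiv i (f j)) -
          aeval (fun l => (x l : PowerSeries ℂ)) (pderiv i (f j))) := by ring
    rw [h3]
    apply dvd_add
    · exact Dvd.dvd.mul_right (dvd_sub_trunc M (cs j)) _
    · exact Dvd.dvd.mul_left (dvd_aeval_sub M _ _ (fun l => dvd_sub_trunc M (xs l)) _) _
  have hcoef : ∀ i n, n < M → (G i).coeff n =
      PowerSeries.coeff n ((PowerSeries.X : PowerSeries ℂ) ^ r * es i) := by
    intro i n hn
    have h1 := (PowerSeries.X_pow_dvd_iff.1 (hG i)) n hn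
    rw [map_sub, Polynomial.coeff_coe, sub_eq_zero] at h1
    exact h1.symm
  have hdvd : ∀ i, Polynomial.X ^ r ∣ G i := by
    intro i
    rw [Polynomial.X_pow_dvd_iff]
    intro n hn
    rw [hcoef i n (by omega), PowerSeries.coeff_X_pow_mul', if_neg (by omega)]
  choose η hη using hdvd
  refine ⟨x, c, r, η, fun i => (hη i).symm, ?_, ?_⟩
  · intro i
    rw [← Polynomial.coeff_zero_eq_eval_zero]
    change (PowerSeries.trunc M (xs i)).coeff 0 = _
    rw [PowerSeries.coeff_trunc, if_pos (by omega), PowerSeries.coeff_zero_eq_constantCoeff_apply,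
      hxs0]
  · intro i
    rw [← Polynomial.coeff_zero_eq_eval_zero]
    have h1 := hcoef i r (by omega)
    rw [hη i, Polynomial.coeff_X_pow_mul', if_pos le_rfl, PowerSeries.coeff_X_pow_mul',
      if_pos le_rfl, Nat.sub_self, PowerSeries.coeff_zero_eq_constantCoeff_apply, hes0] at h1
    exact h1

/-- **KL** -/
theorem kl (A : Subalgebra ℂ (MvPolynomial ν ℂ)) [Algebra.FiniteType ℂ A]
    {P P₁ P₂ : Module.End ℂ A} {Q Q₁ Q₂ : Module.End ℂ (MvPolynomial ν ℂ)}
    (hQ : ∃ N, DOp N Q) (hQ₁ : ∃ N, DOp N Q₁) (hQ₂ : ∃ N, DOp N Q₂)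
    (hPQ : ∀ a : A, Q a = ((P a : A) : MvPolynomial ν ℂ))
    (hPQ₁ : ∀ a : A, Q₁ a = ((P₁ a : A) : MvPolynomial ν ℂ))
    (hPQ₂ : ∀ a : A, Q₂ a = ((P₂ a : A) : MvPolynomial ν ℂ))
    (b b' : A) (hP : ∀ a, P a = b * P₁ a + b' * P₂ a) {n : ℕ} (hn : DOp (n + 1) P)
    (F : MvPolynomial (ν ⊕ ν) ℂ)
    (hF : ∀ a : A, ((symb a n P : A) : MvPolynomial ν ℂ) = dsub (a : MvPolynomial ν ℂ) F)
    (x₀ ξ₀ : ν → ℂ) (hz : IsZ A x₀ ξ₀) (hb : eval x₀ (b : MvPolynomial ν ℂ) = 0)
    (hb' : eval x₀ (b' : MvPolynomial ν ℂ) = 0) :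
    eval (Sum.elim x₀ ξ₀) F = 0 := by
  obtain ⟨N, hN⟩ := hQ
  obtain ⟨N₁, hN₁⟩ := hQ₁
  obtain ⟨N₂, hN₂⟩ := hQ₂
  obtain ⟨s, hs⟩ := (Subalgebra.fg_iff_finiteType A).2 inferInstance
  obtain ⟨m, f, hf⟩ : ∃ (m : ℕ) (f : Fin m → MvPolynomial ν ℂ), Set.range f = (s : Set _) := by
    refine ⟨s.card, fun i => (s.equivFin.symm i : MvPolynomial ν ℂ), ?_⟩
    ext y
    constructor
    · rintro ⟨i, rfl⟩
      exact (s.equivFin.symm i).2
    · intro hy
      exact ⟨s.equivFin ⟨y, hy⟩, by simp⟩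
  have hA : A = Algebra.adjoin ℂ (Set.range f) := by rw [hf, hs]
  obtain ⟨x, c, r, η, h1, h2, h3⟩ := exists_poly_arc A f hA x₀ ξ₀ hz
  have h4 := kl_arc A f hA (N := N + N₁ + N₂) (hN.mono (by omega)) (hN₁.mono (by omega))
    (hN₂.mono (by omega)) hPQ hPQ₁ hPQ₂ b b' hP hn F hF x c r η h1
    (by rw [show (fun j => (x j).eval 0) = x₀ from funext h2]; exact hb)
    (by rw [show (fun j => (x j).eval 0) = x₀ from funext h2]; exact hb')
  rw [show (fun i => (x i).eval 0) = x₀ from funext h2,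
    show (fun i => (η i).eval 0) = ξ₀ from funext h3] at h4
  exact h4

end H50.Z
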