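import Pool.Agent.H50.Z.Defs

/-! (O) The operators `Op F`, `Op (x^α ξ^β) = x^α ∂^β`. -/

open MvPolynomial H50.DO

set_option linter.unusedSectionVars false

namespace H50.Z

variable {ν : Type} [Fintype ν] [DecidableEq ν]

/-- the commuting operators `∂_i^{β_i}` -/
noncomputable def dpow (β : ν →₀ ℕ) : Module.End ℂ (MvPolynomial ν ℂ) :=
  Finset.noncommProd Finset.univ (fun i => ((pderiv i).toLinearMap : Module.End ℂ (MvPolynomial ν ℂ)) ^ β i)
    (fun i _ j _ _ => Commute.pow_pow (LinearMap.ext fun f => pderiv_comm i j f) _ _)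

/-- restriction of exponents -/
noncomputable def expL (m : ν ⊕ ν →₀ ℕ) : ν →₀ ℕ := Finsupp.equivFunOnFinite.symm fun i => m (Sum.inl i)

/-- restriction of exponents -/
noncomputable def expR (m : ν ⊕ ν →₀ ℕ) : ν →₀ ℕ := Finsupp.equivFunOnFinite.symm fun i => m (Sum.inr i)

/-- `Op (x^α ξ^β) = x^α ∂^β` -/
noncomputable def Op : MvPolynomial (ν ⊕ ν) ℂ →ₗ[ℂ] Module.End ℂ (MvPolynomial ν ℂ) :=
  (basisMonomials (ν ⊕ ν) ℂ).constr ℂ fun m =>
    LinearMap.mulLeft ℂ (monomial (expL m) (1 : ℂ)) * dpow (expR m)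

/-! ### auxiliary lemmas -/

section Aux

/-- the operator `∂_i` -/
noncomputable abbrev dd (i : ν) : Module.End ℂ (MvPolynomial ν ℂ) :=
  ((pderiv i : Derivation ℂ (MvPolynomial ν ℂ) (MvPolynomial ν ℂ)).toLinearMap :
    Module.End ℂ (MvPolynomial ν ℂ))

theorem dd_comm (i j : ν) : Commute (dd i) (dd j) := LinearMap.ext fun f => pderiv_comm i j f

theorem dd_pw (s : Finset ν) (β : ν → ℕ) :
    (s : Set ν).Pairwise (Function.onFun Commute fun i => dd i ^ β i) :=
  fun i _ j _ _ => Commute.pow_pow (dd_comm i j) _ _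

theorem commute_dpowS (s : Finset ν) (β : ν → ℕ) (i : ν) :
    Commute (dd i) (s.noncommProd (fun i => dd i ^ β i) (dd_pw s β)) :=
  Finset.noncommProd_commute _ _ _ _ fun j _ => (dd_comm i j).pow_right _

theorem dpowS_add_single (s : Finset ν) (β : ν →₀ ℕ) (i : ν) :
    s.noncommProd (fun j => dd j ^ (β + Finsupp.single i 1 : ν →₀ ℕ) j) (dd_pw s _) =
      s.noncommProd (fun j => dd j ^ β j) (dd_pw s _) * (if i ∈ s then dd i else 1) := by
  induction s using Finset.induction_on with
  | empty => simp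
  | insert a s ha ih =>
    rw [Finset.noncommProd_insert_of_notMem _ _ _ _ ha, Finset.noncommProd_insert_of_notMem _ _ _ _ ha,
      ih]
    by_cases hai : a = i
    · subst hai
      rw [if_neg ha, mul_one, if_pos (Finset.mem_insert_self _ _), Finsupp.add_apply,
        Finsupp.single_eq_same, pow_succ, mul_assoc, mul_assoc, (commute_dpowS s β a).eq]
    · rw [Finsupp.add_apply, Finsupp.single_eq_of_ne hai, add_zero, mul_assoc]
      congr 2
      simp [Finset.mem_insert, Ne.symm hai]

theorem dpow_add_single (β : ν →₀ ℕ) (i : ν) :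
    dpow (β + Finsupp.single i 1) = dpow β * dd i := by
  have h := dpowS_add_single Finset.univ β i
  rw [if_pos (Finset.mem_univ i)] at h
  exact h

theorem dpow_zero : dpow (0 : ν →₀ ℕ) = 1 := by
  have h : ∀ s : Finset ν, s.noncommProd (fun j => dd j ^ (0 : ν →₀ ℕ) j) (dd_pw s _) = 1 := by
    intro s
    induction s using Finset.induction_on with
    | empty => rfl
    | insert a s ha ih =>
      rw [Finset.noncommProd_insert_of_notMem _ _ _ _ ha, ih]
      simp
  exact h Finset.univ

theorem Op_monomial (m : ν ⊕ ν →₀ ℕ) (c : ℂ) :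
    Op (monomial m c) = c • (LinearMap.mulLeft ℂ (monomial (expL m) (1 : ℂ)) * dpow (expR m)) := by
  have h1 : (monomial m c : MvPolynomial (ν ⊕ ν) ℂ) = c • basisMonomials (ν ⊕ ν) ℂ m := by
    rw [coe_basisMonomials, smul_monomial, smul_eq_mul, mul_one]
  rw [h1, map_smul, Op, Module.Basis.constr_basis]

theorem expL_add_inl (m : ν ⊕ ν →₀ ℕ) (i : ν) :
    expL (m + Finsupp.single (Sum.inl i) 1) = expL m + Finsupp.single i 1 := by
  ext j
  simp only [expL, Finsupp.equivFunOnFinite_symm_apply_apply, Finsupp.add_apply, Finsupp.single_apply,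
    Sum.inl.injEq]

theorem expR_add_inl (m : ν ⊕ ν →₀ ℕ) (i : ν) :
    expR (m + Finsupp.single (Sum.inl i) 1) = expR m := by
  ext j
  simp [expR]

theorem expL_add_inr (m : ν ⊕ ν →₀ ℕ) (i : ν) :
    expL (m + Finsupp.single (Sum.inr i) 1) = expL m := by
  ext j
  simp [expL]

theorem expR_add_inr (m : ν ⊕ ν →₀ ℕ) (i : ν) :
    expR (m + Finsupp.single (Sum.inr i) 1) = expR m + Finsupp.single i 1 := by
  ext j
  simp only [expR, Finsupp.equivFunOnFinite_symm_apply_apply, Finsupp.add_apply, Finsupp.single_apply,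
    Sum.inr.injEq]

theorem Op_C (c : ℂ) : Op (C c : MvPolynomial (ν ⊕ ν) ℂ) = c • 1 := by
  have h1 : expL (0 : ν ⊕ ν →₀ ℕ) = 0 := by ext; simp [expL]
  have h2 : expR (0 : ν ⊕ ν →₀ ℕ) = 0 := by ext; simp [expR]
  rw [C_apply, Op_monomial, h1, h2, dpow_zero, mul_one, ← C_apply, C_1, LinearMap.mulLeft_one]
  rfl

theorem Op_mul_inl (F : MvPolynomial (ν ⊕ ν) ℂ) (i : ν) :
    Op (F * X (Sum.inl i)) = LinearMap.mulLeft ℂ (X i) * Op F := by
  induction F using MvPolynomial.induction_on' with
  | monomial m c =>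
    rw [X, monomial_mul, mul_one, Op_monomial, Op_monomial, expL_add_inl, expR_add_inl,
      mul_smul_comm, ← mul_assoc]
    congr 2
    apply LinearMap.ext
    intro f
    rw [Module.End.mul_apply, LinearMap.mulLeft_apply, LinearMap.mulLeft_apply,
      LinearMap.mulLeft_apply, ← mul_assoc]
    congr 1
    rw [X, monomial_mul, mul_one, add_comm]
  | add p q hp hq => rw [add_mul, map_add, hp, hq, map_add, mul_add]

theorem Op_mul_inr (F : MvPolynomial (ν ⊕ ν) ℂ) (i : ν) :
    Op (F * X (Sum.inr i)) = Op F * dd i := by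
  induction F using MvPolynomial.induction_on' with
  | monomial m c =>
    rw [X, monomial_mul, mul_one, Op_monomial, Op_monomial, expL_add_inr, expR_add_inr,
      dpow_add_single, smul_mul_assoc, mul_assoc]
  | add p q hp hq => rw [add_mul, map_add, hp, hq, map_add, add_mul]

theorem weight_wxi (m : ν ⊕ ν →₀ ℕ) : Finsupp.weight wxi m = (expR m).degree := by
  rw [Finsupp.weight_apply, Finsupp.sum_fintype _ _ (fun i => by simp), Fintype.sum_sum_type,
    Finsupp.degree_eq_sum]
  simp [wxi, expR]

/-- induction on exponents -/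
theorem dpow_induction {P : (ν →₀ ℕ) → Prop} (h0 : P 0)
    (h1 : ∀ β i, P β → P (β + Finsupp.single i 1)) (β : ν →₀ ℕ) : P β := by
  induction h : β.degree generalizing β with
  | zero =>
    rw [Finsupp.degree_eq_zero_iff] at h
    rwa [h]
  | succ n ih =>
    have hne : β ≠ 0 := by
      rintro rfl
      simp at h
    obtain ⟨i, hi⟩ := Finsupp.ne_iff.1 hne
    have hi' : 1 ≤ β i := Nat.one_le_iff_ne_zero.2 hi
    have e : β = (β - Finsupp.single i 1) + Finsupp.single i 1 := by
      ext j
      simp only [Finsupp.add_apply, Finsupp.tsub_apply, Finsupp.single_apply]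
      split_ifs with hij
      · subst hij
        omega
      · omega
    rw [e]
    apply h1
    apply ih
    have h2 := congrArg Finsupp.degree e
    rw [map_add, Finsupp.degree_single, h] at h2
    omega

theorem DOp_dpow (β : ν →₀ ℕ) : DOp (β.degree + 1) (dpow β) := by
  induction β using dpow_induction with
  | h0 =>
    rw [dpow_zero, map_zero, zero_add]
    have := DOp_mulLeft (A := MvPolynomial ν ℂ) 1
    rwa [LinearMap.mulLeft_one] at this
  | h1 β i ih =>
    rw [dpow_add_single, map_add, Finsupp.degree_single]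
    exact ih.comp (n := 1) (DOp_derivation _)

theorem symb_dpow (β : ν →₀ ℕ) (f : MvPolynomial ν ℂ) :
    symb f β.degree (dpow β) = β.prod fun i k => (pderiv i f) ^ k := by
  induction β using dpow_induction with
  | h0 =>
    rw [dpow_zero, map_zero, Finsupp.prod_zero_index]
    simp [symb, adI]
  | h1 β i ih =>
    rw [dpow_add_single, map_add, Finsupp.degree_single,
      symb_mul f (DOp_dpow β) (n := 1) (DOp_derivation _), ih, Finsupp.prod_add_index']
    · congr 1
      rw [Finsupp.prod_single_index (h := fun i k => (pderiv i f) ^ k) (pow_zero _), pow_one]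
      simp only [symb, adI, Nat.factorial_one, Nat.cast_one, inv_one, one_smul]
      rw [ad_derivation, LinearMap.mulLeft_apply, mul_one]
    · intro a
      exact pow_zero _
    · intro a b₁ b₂
      exact pow_add _ _ _

end Aux

section Space

/-- polynomials of `ξ`-degree `< n` -/
def Ulow (n : ℕ) : Submodule ℂ (MvPolynomial (ν ⊕ ν) ℂ) where
  carrier := {F | ∀ m, n ≤ Finsupp.weight wxi m → coeff m F = 0}
  add_mem' := by
    intro F G hF hG m hm
    rw [coeff_add, hF m hm, hG m hm, add_zero]
  zero_mem' := fun m _ => coeff_zero m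
  smul_mem' := by
    intro c F hF m hm
    rw [coeff_smul, hF m hm, smul_zero]

theorem mem_Ulow {n : ℕ} {F : MvPolynomial (ν ⊕ ν) ℂ} :
    F ∈ Ulow n ↔ ∀ m, n ≤ Finsupp.weight wxi m → coeff m F = 0 := Iff.rfl

theorem mem_Ulow_iff {n : ℕ} {F : MvPolynomial (ν ⊕ ν) ℂ} :
    F ∈ Ulow n ↔ ∀ k, n ≤ k → weightedHomogeneousComponent wxi k F = 0 := by
  rw [mem_Ulow]
  constructor
  · intro h k hk
    ext m
    rw [coeff_weightedHomogeneousComponent, coeff_zero]
    split_ifs with hm
    · exact h m (by omega)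
    · rfl
  · intro h m hm
    have h1 := congrArg (coeff m) (h _ hm)
    rwa [coeff_weightedHomogeneousComponent, if_pos rfl, coeff_zero] at h1

theorem Ulow_mono {n n' : ℕ} (h : n ≤ n') : Ulow (ν := ν) n ≤ Ulow n' :=
  fun _ hF m hm => hF m (h.trans hm)

theorem Ulow_mul_inr {n : ℕ} {F : MvPolynomial (ν ⊕ ν) ℂ} (hF : F ∈ Ulow n) (i : ν) :
    F * X (Sum.inr i) ∈ Ulow (n + 1) := by
  intro m hm
  rw [coeff_mul_X']
  split_ifs with hi
  · apply hF
    have h1 : 1 ≤ m (Sum.inr i) := Nat.one_le_iff_ne_zero.2 (Finsupp.mem_support_iff.1 hi)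
    have e : m = (m - Finsupp.single (Sum.inr i) 1) + Finsupp.single (Sum.inr i) 1 := by
      ext j
      simp only [Finsupp.add_apply, Finsupp.tsub_apply, Finsupp.single_apply]
      split_ifs with hij
      · subst hij
        omega
      · omega
    have h2 := congrArg (Finsupp.weight (wxi (ν := ν))) e
    rw [map_add, Finsupp.weight_single, wxi, Sum.elim_inr, smul_eq_mul, mul_one] at h2
    have h3 : Finsupp.weight wxi m = Finsupp.weight wxi (m - Finsupp.single (Sum.inr i) 1) + 1 := h2
    omega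
  · rfl

theorem Ulow_mul_inr_pow {n : ℕ} {F : MvPolynomial (ν ⊕ ν) ℂ} (hF : F ∈ Ulow n) (i : ν) (k : ℕ) :
    F * X (Sum.inr i) ^ k ∈ Ulow (n + k) := by
  induction k with
  | zero => rwa [pow_zero, mul_one]
  | succ k ih =>
    rw [pow_succ, ← mul_assoc, ← add_assoc]
    exact Ulow_mul_inr ih i

theorem Op_mul_inr_pow (F : MvPolynomial (ν ⊕ ν) ℂ) (i : ν) (k : ℕ) :
    Op (F * X (Sum.inr i) ^ k) = Op F * dd i ^ k := by
  induction k with
  | zero => rw [pow_zero, mul_one, pow_zero, mul_one]
  | succ k ih => rw [pow_succ, ← mul_assoc, Op_mul_inr, ih, mul_assoc, ← pow_succ]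

theorem Op_inS (q : MvPolynomial ν ℂ) : Op (inS q) = LinearMap.mulLeft ℂ q := by
  induction q using MvPolynomial.induction_on with
  | C c =>
    rw [inS, rename_C, Op_C]
    apply LinearMap.ext
    intro f
    rw [LinearMap.mulLeft_apply, ← MvPolynomial.smul_eq_C_mul]
    rfl
  | add p q hp hq =>
    rw [map_add, map_add, hp, hq]
    apply LinearMap.ext
    intro f
    simp only [LinearMap.add_apply, LinearMap.mulLeft_apply, add_mul]
  | mul_X p i hp =>
    rw [map_mul, inS, rename_X, Op_mul_inl, ← inS, hp]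
    apply LinearMap.ext
    intro f
    simp only [Module.End.mul_apply, LinearMap.mulLeft_apply]
    ring

theorem inS_mem_Ulow (q : MvPolynomial ν ℂ) : inS q ∈ Ulow (ν := ν) 1 := by
  induction q using MvPolynomial.induction_on' with
  | monomial s c =>
    intro m hm
    rw [inS, rename_monomial, coeff_monomial]
    split_ifs with h
    · exfalso
      rw [← h, weight_wxi] at hm
      have h2 : expR (Finsupp.mapDomain Sum.inl s) = (0 : ν →₀ ℕ) := by
        ext j
        simp only [expR, Finsupp.equivFunOnFinite_symm_apply_apply, Finsupp.coe_zero, Pi.zero_apply]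
        exact Finsupp.mapDomain_of_notMem_range _ _ (by simp)
      rw [h2, map_zero] at hm
      omega
    · rfl
  | add p q hp hq =>
    rw [map_add]
    exact add_mem hp hq

/-- operators with a symbol polynomial of the right degree -/
def IsOp (n : ℕ) (Q : Module.End ℂ (MvPolynomial ν ℂ)) : Prop :=
  ∃ F : MvPolynomial (ν ⊕ ν) ℂ, Q = Op F ∧ F ∈ Ulow n

theorem IsOp.add {n : ℕ} {P Q : Module.End ℂ (MvPolynomial ν ℂ)} (hP : IsOp n P) (hQ : IsOp n Q) :
    IsOp n (P + Q) := by
  obtain ⟨F, rfl, hF⟩ := hP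
  obtain ⟨G, rfl, hG⟩ := hQ
  exact ⟨F + G, by rw [map_add], add_mem hF hG⟩

theorem IsOp.smul {n : ℕ} {P : Module.End ℂ (MvPolynomial ν ℂ)} (hP : IsOp n P) (c : ℂ) :
    IsOp n (c • P) := by
  obtain ⟨F, rfl, hF⟩ := hP
  exact ⟨c • F, by rw [map_smul], Submodule.smul_mem _ c hF⟩

theorem IsOp.sum {n : ℕ} {ι : Type*} (s : Finset ι) {P : ι → Module.End ℂ (MvPolynomial ν ℂ)}
    (hP : ∀ i ∈ s, IsOp n (P i)) : IsOp n (∑ i ∈ s, P i) := by
  classical
  induction s using Finset.induction_on with
  | empty => exact ⟨0, by simp, zero_mem _⟩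
  | insert i s hi ih =>
    rw [Finset.sum_insert hi]
    exact (hP i (by simp)).add (ih fun j hj => hP j (by simp [hj]))

theorem IsOp.mono {n n' : ℕ} (h : n ≤ n') {P : Module.End ℂ (MvPolynomial ν ℂ)} (hP : IsOp n P) :
    IsOp n' P := by
  obtain ⟨F, rfl, hF⟩ := hP
  exact ⟨F, rfl, Ulow_mono h hF⟩

theorem IsOp.mul_dd_pow {n : ℕ} {P : Module.End ℂ (MvPolynomial ν ℂ)} (hP : IsOp n P) (i : ν)
    (k : ℕ) : IsOp (n + k) (P * dd i ^ k) := by
  obtain ⟨F, rfl, hF⟩ := hP
  exact ⟨F * X (Sum.inr i) ^ k, (Op_mul_inr_pow F i k).symm, Ulow_mul_inr_pow hF i k⟩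

theorem isOp_mulLeft (q : MvPolynomial ν ℂ) : IsOp 1 (LinearMap.mulLeft ℂ q) :=
  ⟨inS q, (Op_inS q).symm, inS_mem_Ulow q⟩

theorem isOp_zero (n : ℕ) : IsOp n (0 : Module.End ℂ (MvPolynomial ν ℂ)) :=
  ⟨0, by rw [map_zero], zero_mem _⟩

theorem isOp_of_DOp_aux (I : Finset ν) : ∀ (n : ℕ) (Q : Module.End ℂ (MvPolynomial ν ℂ)),
    DOp n Q → (∀ i, i ∉ I → ad (X i) Q = 0) → IsOp n Q := by
  classical
  induction I using Finset.induction_on with
  | empty =>
    intro n Q hQ h
    rcases n with _ | n
    · rw [DOp_zero_iff] at hQ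
      subst hQ
      exact isOp_zero 0
    · rw [eq_mulLeft_of_comm (fun i => h i (by simp))]
      exact (isOp_mulLeft _).mono (by omega)
  | insert j I hj ih =>
    intro n
    induction n using Nat.strong_induction_on with
    | _ n ihn =>
      intro Q hQ h
      rcases n with _ | n
      · rw [DOp_zero_iff] at hQ
        subst hQ
        exact isOp_zero 0
      · set D := (pderiv j : Derivation ℂ (MvPolynomial ν ℂ) (MvPolynomial ν ℂ)).toLinearMap
          with hD
        have hD2 : DOp 2 D := DOp_derivation _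
        -- the projected operator
        have h1 : IsOp (n + 1) (Pr j Q (n + 1)) := by
          apply ih (n + 1)
          · unfold Pr
            apply DOp.sum
            intro m hm
            rw [Finset.mem_range] at hm
            apply DOp.smul
            have h2 : DOp (n - m + 1) (adI (X j) m Q) := by
              apply DOp.adI
              rwa [show n - m + 1 + m = n + 1 by omega]
            have h3 : DOp (m + 1) (D ^ m) := by
              have := hD2.pow (n := 1) m
              rwa [one_mul] at this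
            exact (h2.comp h3).mono (by omega)
          · intro i hi
            by_cases hij : i = j
            · subst hij
              rw [ad_Pr, hQ.adI_eq_zero _ le_rfl, zero_mul, smul_zero]
            · have h4 : ad (X i) Q = 0 := h i (by simp [hij, hi])
              unfold Pr
              rw [ad_sum]
              apply Finset.sum_eq_zero
              intro m _
              rw [ad_smul, ad_mul, ad_adI, h4, adI_zero_right, zero_mul, zero_add,
                ad_pow_pderiv_ne hij, mul_zero, smul_zero]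
        have h5 : Pr j Q (n + 1) = ∑ m ∈ Finset.range n,
            (((-1) ^ (m + 1) : ℂ) * (((m + 1).factorial : ℂ))⁻¹) •
            (adI (X j) (m + 1) Q * D ^ (m + 1)) + Q := by
          unfold Pr
          rw [Finset.sum_range_succ']
          simp [adI, hD]
        have h6 : IsOp (n + 1) (∑ m ∈ Finset.range n,
            (((-1) ^ (m + 1) : ℂ) * (((m + 1).factorial : ℂ))⁻¹) •
            (adI (X j) (m + 1) Q * D ^ (m + 1))) := by
          apply IsOp.sum
          intro m hm
          rw [Finset.mem_range] at hm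
          apply IsOp.smul
          have h8 : IsOp (n - m) (adI (X j) (m + 1) Q) := by
            apply ihn (n - m) (by omega)
            · apply DOp.adI
              rwa [show n - m + (m + 1) = n + 1 by omega]
            · intro i hi
              rw [ad_adI, h i hi, adI_zero_right]
          exact (h8.mul_dd_pow j (m + 1)).mono (by omega)
        have h7 : Q = Pr j Q (n + 1) + (-1 : ℂ) • (∑ m ∈ Finset.range n,
            (((-1) ^ (m + 1) : ℂ) * (((m + 1).factorial : ℂ))⁻¹) •
            (adI (X j) (m + 1) Q * D ^ (m + 1))) := by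
          rw [h5]
          have h8 : ∀ a b : Module.End ℂ (MvPolynomial ν ℂ), b = a + b + (-1 : ℂ) • a := by
            intro a b
            apply LinearMap.ext
            intro x
            simp only [LinearMap.add_apply, LinearMap.smul_apply, neg_smul, one_smul]
            abel
          exact h8 _ _
        rw [h7]
        exact h1.add (h6.smul _)

end Space

/-- order of `Op F` -/
theorem DOp_Op {F : MvPolynomial (ν ⊕ ν) ℂ} {m : ℕ} (hF : XiHom F m) : DOp (m + 1) (Op F) := by
  rw [F.as_sum, map_sum]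
  apply DOp.sum
  intro s hs
  rw [Op_monomial]
  apply DOp.smul
  have h1 : Finsupp.weight wxi s = m := hF (mem_support_iff.1 hs)
  rw [weight_wxi] at h1
  rw [← h1]
  exact (DOp_mulLeft _).comp_zero_left (DOp_dpow _)

/-- symbol of `Op F` -/
theorem symb_Op {F : MvPolynomial (ν ⊕ ν) ℂ} {m : ℕ} (hF : XiHom F m) (f : MvPolynomial ν ℂ) :
    symb f m (Op F) = dsub f F := by
  have hadd : ∀ (s : Finset (ν ⊕ ν →₀ ℕ)) (P : (ν ⊕ ν →₀ ℕ) → Module.End ℂ (MvPolynomial ν ℂ)),
      symb f m (∑ i ∈ s, P i) = ∑ i ∈ s, symb f m (P i) := by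
    intro s P
    induction s using Finset.induction_on with
    | empty => simp [symb]
    | insert i s hi ih =>
      rw [Finset.sum_insert hi, Finset.sum_insert hi, ← ih]
      simp only [symb, adI_add, LinearMap.add_apply, smul_add]
  conv_lhs => rw [F.as_sum, map_sum, hadd]
  conv_rhs => rw [F.as_sum, map_sum]
  refine Finset.sum_congr rfl fun s hs => ?_
  have h1 : Finsupp.weight wxi s = m := hF (mem_support_iff.1 hs)
  rw [weight_wxi] at h1
  have h2 : symb f m (Op (monomial s (coeff s F))) = coeff s F • symb f m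
      (LinearMap.mulLeft ℂ (monomial (expL s) (1 : ℂ)) * dpow (expR s)) := by
    rw [Op_monomial]
    simp only [symb, adI_smul, LinearMap.smul_apply]
    rw [smul_comm]
  have h3 : symb f m (LinearMap.mulLeft ℂ (monomial (expL s) (1 : ℂ)) * dpow (expR s)) =
      monomial (expL s) (1 : ℂ) * (expR s).prod fun i k => (pderiv i f) ^ k := by
    have h4 := symb_mul f (DOp_mulLeft (monomial (expL s) (1 : ℂ))) (m := 0) (DOp_dpow (expR s))
    rw [zero_add, h1] at h4
    rw [h4, ← h1, symb_dpow]
    congr 1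
    simp [symb, adI]
  rw [h2, h3, dsub, aeval_monomial, MvPolynomial.smul_eq_C_mul, algebraMap_eq]
  congr 1
  rw [Finsupp.prod_fintype _ _ (fun i => pow_zero _), Finsupp.prod_fintype _ _ (fun i => pow_zero _),
    Fintype.prod_sum_type, monomial_eq, C_1, one_mul, Finsupp.prod_fintype _ _ (fun i => pow_zero _)]
  rfl

/-- every operator is `Op F` for some `F` -/
theorem exists_Op_eq {Q : Module.End ℂ (MvPolynomial ν ℂ)} {m : ℕ} (hQ : DOp m Q) :
    ∃ F : MvPolynomial (ν ⊕ ν) ℂ, Q = Op F ∧ ∀ k, m ≤ k → weightedHomogeneousComponent wxi k F = 0 := by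
  obtain ⟨F, h1, h2⟩ := isOp_of_DOp_aux Finset.univ m Q hQ (fun i hi => absurd (Finset.mem_univ i) hi)
  exact ⟨F, h1, mem_Ulow_iff.1 h2⟩

theorem symb_add (f : MvPolynomial ν ℂ) (m : ℕ) (P Q : Module.End ℂ (MvPolynomial ν ℂ)) :
    symb f m (P + Q) = symb f m P + symb f m Q := by
  simp only [symb, adI_add, LinearMap.add_apply, smul_add]

theorem symb_sum (f : MvPolynomial ν ℂ) (m : ℕ) {ι : Type*} (s : Finset ι)
    (P : ι → Module.End ℂ (MvPolynomial ν ℂ)) :
    symb f m (∑ i ∈ s, P i) = ∑ i ∈ s, symb f m (P i) := by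
  classical
  induction s using Finset.induction_on with
  | empty => simp [symb]
  | insert i s hi ih => rw [Finset.sum_insert hi, Finset.sum_insert hi, ← ih, symb_add]

theorem symb_eq_zero_of_DOp {m : ℕ} {P : Module.End ℂ (MvPolynomial ν ℂ)} (hP : DOp m P)
    (f : MvPolynomial ν ℂ) : symb f m P = 0 := by
  rw [symb, hP.adI_eq_zero f le_rfl]
  simp

/-- every operator of order `≤ m` has a symbol -/
theorem exists_symbol {Q : Module.End ℂ (MvPolynomial ν ℂ)} {m : ℕ} (hQ : DOp (m + 1) Q) :
    ∃ F : MvPolynomial (ν ⊕ ν) ℂ, XiHom F m ∧ ∀ f, symb f m Q = dsub f F := by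
  obtain ⟨F, rfl, hF⟩ := exists_Op_eq hQ
  refine ⟨weightedHomogeneousComponent wxi m F, weightedHomogeneousComponent_isWeightedHomogeneous m F,
    fun f => ?_⟩
  have hfin : (Function.support fun k => weightedHomogeneousComponent (wxi (ν := ν)) k F) ⊆
      (Finset.range (m + 1) : Set ℕ) := by
    intro k hk
    rw [Finset.coe_range, Set.mem_Iio]
    by_contra hcon
    exact hk (hF k (by omega))
  have h1 : F = ∑ k ∈ Finset.range (m + 1), weightedHomogeneousComponent (wxi (ν := ν)) k F := by
    conv_lhs => rw [← sum_weightedHomogeneousComponent (wxi (ν := ν)) F]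
    exact finsum_eq_sum_of_support_subset _ hfin
  conv_lhs => rw [h1, map_sum, symb_sum, Finset.sum_range_succ]
  rw [Finset.sum_eq_zero, zero_add, symb_Op (weightedHomogeneousComponent_isWeightedHomogeneous m F)]
  intro k hk
  rw [Finset.mem_range] at hk
  exact symb_eq_zero_of_DOp ((DOp_Op (weightedHomogeneousComponent_isWeightedHomogeneous k F)).mono
    (by omega)) f

/-- an operator with vanishing symbol has smaller order -/
theorem DOp_of_symb_eq_zero {Q : Module.End ℂ (MvPolynomial ν ℂ)} {m : ℕ} (hQ : DOp (m + 1) Q)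
    (h : ∀ f, symb f m Q = 0) : DOp m Q := by
  rw [DOp_iff_adL]
  intro l hl
  refine polar ⊤ m (fun f _ => ?_) l hl (fun _ _ => Submodule.mem_top)
  have h1 : adI f m Q 1 = 0 := by
    have h2 := h f
    rw [symb, smul_eq_zero] at h2
    exact h2.resolve_left (inv_ne_zero (by exact_mod_cast Nat.factorial_ne_zero m))
  rw [hQ.adI_eq_mul f, h1]
  simp

/-- chain rule -/
theorem pderiv_act (M : Matrix ν ν ℂ) (j : ν) (f : MvPolynomial ν ℂ) :
    pderiv j (act M f) = ∑ l, C (M l j) * act M (pderiv l f) := by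
  induction f using MvPolynomial.induction_on with
  | C c => simp [act]
  | add p q hp hq =>
    rw [map_add, map_add, hp, hq, ← Finset.sum_add_distrib]
    exact Finset.sum_congr rfl fun l _ => by rw [map_add, map_add, mul_add]
  | mul_X p i hp =>
    have h1 : pderiv j (act M (X i)) = C (M i j) := by
      rw [act_X, map_sum, Finset.sum_eq_single j]
      · rw [Derivation.leibniz, pderiv_X_self, pderiv_C]
        simp
      · intro b _ hb
        rw [Derivation.leibniz, pderiv_X_of_ne hb, pderiv_C]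
        simp
      · intro h
        exact absurd (Finset.mem_univ j) h
    rw [map_mul, Derivation.leibniz, hp, h1, smul_eq_mul, smul_eq_mul, Finset.mul_sum]
    have h2 : ∀ l, C (M l j) * act M (pderiv l (p * X i)) =
        act M p * (if l = i then C (M l j) else 0) + act M (X i) * (C (M l j) * act M (pderiv l p)) := by
      intro l
      rw [Derivation.leibniz, smul_eq_mul, smul_eq_mul, map_add, map_mul, map_mul]
      by_cases hl : l = i
      · subst hl
        rw [pderiv_X_self, map_one, if_pos rfl]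
        ring
      · rw [pderiv_X_of_ne (Ne.symm hl), map_zero, if_neg hl]
        ring
    rw [Finset.sum_congr rfl fun l _ => h2 l, Finset.sum_add_distrib, ← Finset.mul_sum]
    simp

theorem act_pderiv (k : Matrix.unitaryGroup ν ℂ) (i : ν) (f : MvPolynomial ν ℂ) :
    act (k : Matrix ν ν ℂ) (pderiv i f) =
      ∑ j, C ((starRingEnd ℂ) ((k : Matrix ν ν ℂ) i j)) * pderiv j (act (k : Matrix ν ν ℂ) f) := by
  have h1 : ∀ l, ∑ j, (starRingEnd ℂ) ((k : Matrix ν ν ℂ) i j) * (k : Matrix ν ν ℂ) l j =
      if l = i then 1 else 0 := by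
    intro l
    have h2 := Matrix.mem_unitaryGroup_iff.1 k.2
    have h3 := congrFun (congrFun h2 l) i
    rw [Matrix.mul_apply, Matrix.one_apply] at h3
    rw [← h3]
    exact Finset.sum_congr rfl fun j _ => by rw [mul_comm]; rfl
  simp only [pderiv_act, Finset.mul_sum]
  rw [Finset.sum_comm]
  have h4 : ∀ l, ∑ j, C ((starRingEnd ℂ) ((k : Matrix ν ν ℂ) i j)) *
      (C ((k : Matrix ν ν ℂ) l j) * act (k : Matrix ν ν ℂ) (pderiv l f)) =
      if l = i then act (k : Matrix ν ν ℂ) (pderiv l f) else 0 := by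
    intro l
    have h5 : ∀ j, C ((starRingEnd ℂ) ((k : Matrix ν ν ℂ) i j)) *
        (C ((k : Matrix ν ν ℂ) l j) * act (k : Matrix ν ν ℂ) (pderiv l f)) =
        C ((starRingEnd ℂ) ((k : Matrix ν ν ℂ) i j) * (k : Matrix ν ν ℂ) l j) *
          act (k : Matrix ν ν ℂ) (pderiv l f) := fun j => by rw [C_mul, mul_assoc]
    rw [Finset.sum_congr rfl fun j _ => h5 j, ← Finset.sum_mul, ← map_sum, h1]
    split_ifs <;> simp
  rw [Finset.sum_congr rfl fun l _ => h4 l]
  simp

/-- equivariance -/
theorem act_Op (k : Matrix.unitaryGroup ν ℂ) (F : MvPolynomial (ν ⊕ ν) ℂ) (f : MvPolynomial ν ℂ) :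
    act (k : Matrix ν ν ℂ) (Op F f) = Op (act (dblM (k : Matrix ν ν ℂ)) F) (act (k : Matrix ν ν ℂ) f) := by
  induction F using MvPolynomial.induction_on generalizing f with
  | C c =>
    have h1 : act (dblM (k : Matrix ν ν ℂ)) (C c) = C c := (act (dblM (k : Matrix ν ν ℂ))).commutes c
    rw [h1, Op_C, LinearMap.smul_apply, LinearMap.smul_apply, map_smul]
    rfl
  | add p q hp hq =>
    simp only [map_add, LinearMap.add_apply, hp, hq]
  | mul_X p i hp =>
    rcases i with i | i
    · have h1 : act (dblM (k : Matrix ν ν ℂ)) (X (Sum.inl i)) =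
          ∑ j, C ((k : Matrix ν ν ℂ) i j) * X (Sum.inl j) := by
        rw [act_X, Fintype.sum_sum_type]
        simp [dblM]
      rw [Op_mul_inl, Module.End.mul_apply, LinearMap.mulLeft_apply, map_mul, hp, act_X, map_mul, h1,
        Finset.mul_sum, map_sum, LinearMap.sum_apply, Finset.sum_mul]
      refine Finset.sum_congr rfl fun j _ => ?_
      have h3 : ∀ G : MvPolynomial (ν ⊕ ν) ℂ, ∀ c : ℂ, Op (C c * G) = c • Op G := fun G c => by
        rw [← MvPolynomial.smul_eq_C_mul, map_smul]
      rw [mul_left_comm, h3, LinearMap.smul_apply, Op_mul_inl,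
        Module.End.mul_apply, LinearMap.mulLeft_apply, MvPolynomial.smul_eq_C_mul, mul_assoc]
    · have h1 : act (dblM (k : Matrix ν ν ℂ)) (X (Sum.inr i)) =
          ∑ j, C ((starRingEnd ℂ) ((k : Matrix ν ν ℂ) i j)) * X (Sum.inr j) := by
        rw [act_X, Fintype.sum_sum_type]
        simp [dblM]
      rw [Op_mul_inr, Module.End.mul_apply, hp, map_mul, h1, Finset.mul_sum, map_sum,
        LinearMap.sum_apply]
      have h2 : dd i f = pderiv i f := rfl
      rw [h2, act_pderiv, map_sum]
      refine Finset.sum_congr rfl fun j _ => ?_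
      rw [mul_left_comm, ← MvPolynomial.smul_eq_C_mul, map_smul, ← MvPolynomial.smul_eq_C_mul,
        map_smul, LinearMap.smul_apply, Op_mul_inr, Module.End.mul_apply]
      rfl

/-- invariant symbols give operators preserving the invariants -/
theorem Op_mem_InvAlg (K : Subgroup (Matrix.unitaryGroup ν ℂ)) (F : MvPolynomial (ν ⊕ ν) ℂ)
    (hF : F ∈ InvAlg (dbl K)) (a : MvPolynomial ν ℂ) (ha : a ∈ InvAlg K) : Op F a ∈ InvAlg K := by
  intro k hk
  have h1 : act (dblM (k : Matrix ν ν ℂ)) F = F := hF (dblHom k) (Subgroup.mem_map_of_mem _ hk)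
  rw [act_Op, h1, ha k hk]

theorem totalDegree_pderiv_le (i : ν) (f : MvPolynomial ν ℂ) :
    (pderiv i f).totalDegree ≤ f.totalDegree := by
  conv_lhs => rw [f.as_sum, map_sum]
  refine totalDegree_finsetSum_le fun s hs => ?_
  rw [pderiv_monomial]
  refine (totalDegree_monomial_le _ _).trans ?_
  refine le_trans ?_ (le_totalDegree hs)
  rw [Finsupp.sum_fintype _ _ (fun _ => rfl), Finsupp.sum_fintype _ _ (fun _ => rfl)]
  refine Finset.sum_le_sum fun j _ => ?_
  rw [Finsupp.tsub_apply]
  exact Nat.sub_le _ _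

theorem totalDegree_dpow_le (β : ν →₀ ℕ) (f : MvPolynomial ν ℂ) :
    (dpow β f).totalDegree ≤ f.totalDegree := by
  induction β using dpow_induction generalizing f with
  | h0 => rw [dpow_zero]; exact le_rfl
  | h1 β i ih =>
    rw [dpow_add_single, Module.End.mul_apply]
    exact (ih _).trans (totalDegree_pderiv_le i f)

/-- degrees -/
theorem totalDegree_Op_le (F : MvPolynomial (ν ⊕ ν) ℂ) (f : MvPolynomial ν ℂ) :
    (Op F f).totalDegree ≤ F.totalDegree + f.totalDegree := by
  conv_lhs => rw [F.as_sum, map_sum, LinearMap.sum_apply]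
  refine totalDegree_finsetSum_le fun s hs => ?_
  rw [Op_monomial, LinearMap.smul_apply]
  refine (totalDegree_smul_le _ _).trans ?_
  rw [Module.End.mul_apply, LinearMap.mulLeft_apply]
  refine (totalDegree_mul _ _).trans (Nat.add_le_add ?_ (totalDegree_dpow_le _ _))
  rw [totalDegree_monomial _ one_ne_zero]
  refine le_trans ?_ (le_totalDegree hs)
  rw [Finsupp.sum_fintype _ _ (fun _ => rfl), Finsupp.sum_fintype _ _ (fun _ => rfl),
    Fintype.sum_sum_type]
  exact Nat.le_add_right _ _

end H50.Z
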