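import Pool.Agent.H50.Z.R1b_ReyL

/-!
(R2) Lifting of points and separation of closed orbits, over algebraically closed extensions.
-/

open MvPolynomial

set_option linter.unusedSectionVars false

namespace H50.Z

variable {ν : Type} [Fintype ν] [DecidableEq ν]

namespace R2

open scoped TensorProduct

/-- evaluation of a substituted polynomial -/
lemma eval_act {L : Type*} [CommRing L] (M : Matrix ν ν L) (f : MvPolynomial ν L) (x : ν → L) :
    eval x (act M f) = eval (M.mulVec x) f := by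
  have h : (aeval x : MvPolynomial ν L →ₐ[L] L).comp (act M) = aeval (M.mulVec x) := by
    apply MvPolynomial.algHom_ext
    intro i
    rw [AlgHom.comp_apply, act_X, map_sum, aeval_X]
    simp only [map_mul, aeval_X, aeval_C, Algebra.algebraMap_self, RingHom.id_apply,
      Matrix.mulVec, dotProduct]
  have h2 := congrArg (fun φ : MvPolynomial ν L →ₐ[L] L => φ f) h
  simpa [AlgHom.comp_apply, coe_aeval_eq_eval] using h2

/-- substitution commutes with extension of scalars -/
lemma act_map (L : Type*) [CommRing L] [Algebra ℂ L] (M : Matrix ν ν ℂ) (f : MvPolynomial ν ℂ) :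
    act (kL L M) (map (algebraMap ℂ L) f) = map (algebraMap ℂ L) (act M f) := by
  induction f using MvPolynomial.induction_on with
  | C a => simp [act]
  | add p q hp hq => rw [map_add, map_add, hp, hq, map_add, map_add]
  | mul_X p i hp =>
    rw [map_mul, map_mul, hp, map_X, act_X, map_mul, map_mul, act_X, map_sum]
    congr 1
    apply Finset.sum_congr rfl
    intro j _
    rw [map_mul, map_C, map_X]
    rfl

/-- the averaging operator -/
noncomputable def RL (L : Type*) [CommRing L] [Algebra ℂ L]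
    (s : Finset (Matrix.unitaryGroup ν ℂ)) (c : Matrix.unitaryGroup ν ℂ → ℂ)
    (f : MvPolynomial ν L) : MvPolynomial ν L :=
  ∑ k ∈ s, C (algebraMap ℂ L (c k)) * act (kL L (k : Matrix ν ν ℂ)) f

lemma RL_add (L : Type*) [CommRing L] [Algebra ℂ L]
    (s : Finset (Matrix.unitaryGroup ν ℂ)) (c : Matrix.unitaryGroup ν ℂ → ℂ)
    (f g : MvPolynomial ν L) : RL L s c (f + g) = RL L s c f + RL L s c g := by
  unfold RL
  rw [← Finset.sum_add_distrib]
  apply Finset.sum_congr rfl
  intro k _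
  rw [map_add, mul_add]

lemma RL_C_mul (L : Type*) [CommRing L] [Algebra ℂ L]
    (s : Finset (Matrix.unitaryGroup ν ℂ)) (c : Matrix.unitaryGroup ν ℂ → ℂ)
    (l : L) (f : MvPolynomial ν L) : RL L s c (C l * f) = C l * RL L s c f := by
  unfold RL
  rw [Finset.mul_sum]
  apply Finset.sum_congr rfl
  intro k _
  rw [map_mul, algHom_C, algebraMap_eq]
  ring

lemma RL_zero (L : Type*) [CommRing L] [Algebra ℂ L]
    (s : Finset (Matrix.unitaryGroup ν ℂ)) (c : Matrix.unitaryGroup ν ℂ → ℂ) :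
    RL L s c 0 = 0 := by
  unfold RL
  simp

lemma RL_one (L : Type*) [CommRing L] [Algebra ℂ L]
    (s : Finset (Matrix.unitaryGroup ν ℂ)) (c : Matrix.unitaryGroup ν ℂ → ℂ)
    (hc : ∑ k ∈ s, c k = 1) : RL L s c 1 = 1 := by
  unfold RL
  simp only [map_one, mul_one]
  rw [← map_sum, ← map_sum, hc, map_one, map_one]

lemma RL_map (L : Type*) [CommRing L] [Algebra ℂ L]
    (s : Finset (Matrix.unitaryGroup ν ℂ)) (c : Matrix.unitaryGroup ν ℂ → ℂ)
    (f : MvPolynomial ν ℂ) :
    RL L s c (map (algebraMap ℂ L) f) = map (algebraMap ℂ L) (RL ℂ s c f) := by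
  unfold RL
  rw [map_sum]
  apply Finset.sum_congr rfl
  intro k _
  rw [act_map, map_mul, map_C]
  congr 2

/-- a map which multiplies by an invariant -/
lemma RL_mul_inv (K : Subgroup (Matrix.unitaryGroup ν ℂ)) (L : Type*) [CommRing L] [Algebra ℂ L]
    (s : Finset (Matrix.unitaryGroup ν ℂ)) (c : Matrix.unitaryGroup ν ℂ → ℂ)
    (hs : ∀ k ∈ s, k ∈ K) (f : MvPolynomial ν L) (a : MvPolynomial ν ℂ) (ha : a ∈ InvAlg K)
    (l : L) :
    RL L s c (f * (map (algebraMap ℂ L) a - C l)) =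
      RL L s c f * (map (algebraMap ℂ L) a - C l) := by
  unfold RL
  rw [Finset.sum_mul]
  apply Finset.sum_congr rfl
  intro k hk
  have h : act (k : Matrix ν ν ℂ) a = a := ha k (hs k hk)
  rw [map_mul, map_sub, act_map, h, algHom_C, algebraMap_eq]
  ring

/-- the map `L ⊗ A → L[x]` -/
noncomputable def PhiL (K : Subgroup (Matrix.unitaryGroup ν ℂ)) (L : Type) [Field L]
    [Algebra ℂ L] : L ⊗[ℂ] (InvAlg K) →ₐ[L] MvPolynomial ν L :=
  (algebraTensorAlgEquiv ℂ L).toAlgHom.comp
    (Algebra.TensorProduct.map (AlgHom.id L L) (InvAlg K).val)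

lemma PhiL_tmul (K : Subgroup (Matrix.unitaryGroup ν ℂ)) (L : Type) [Field L]
    [Algebra ℂ L] (l : L) (a : InvAlg K) :
    PhiL K L (l ⊗ₜ a) = C l * map (algebraMap ℂ L) (a : MvPolynomial ν ℂ) := by
  unfold PhiL
  rw [AlgHom.comp_apply, Algebra.TensorProduct.map_tmul]
  show algebraTensorAlgEquiv ℂ L (l ⊗ₜ[ℂ] (a : MvPolynomial ν ℂ)) = _
  rw [algebraTensorAlgEquiv_tmul, MvPolynomial.smul_eq_C_mul]

lemma PhiL_injective (K : Subgroup (Matrix.unitaryGroup ν ℂ)) (L : Type) [Field L]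
    [Algebra ℂ L] : Function.Injective (PhiL K L) := by
  have h1 : Function.Injective
      (LinearMap.lTensor L ((InvAlg K).val.toLinearMap)) :=
    Module.Flat.lTensor_preserves_injective_linearMap _ Subtype.val_injective
  intro u v huv
  apply h1
  apply (algebraTensorAlgEquiv ℂ L).injective
  exact huv

lemma mem_range_PhiL (K : Subgroup (Matrix.unitaryGroup ν ℂ)) (L : Type) [Field L]
    [Algebra ℂ L] (f : MvPolynomial ν L)
    (hf : f ∈ Submodule.span L ((fun a : MvPolynomial ν ℂ => map (algebraMap ℂ L) a) ''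
            (InvAlg K : Set (MvPolynomial ν ℂ)))) : ∃ t, PhiL K L t = f := by
  induction hf using Submodule.span_induction with
  | mem x hx =>
    obtain ⟨a, ha, rfl⟩ := hx
    exact ⟨1 ⊗ₜ ⟨a, ha⟩, by rw [PhiL_tmul]; simp⟩
  | zero => exact ⟨0, map_zero _⟩
  | add x y _ _ hx hy =>
    obtain ⟨t, rfl⟩ := hx
    obtain ⟨u, rfl⟩ := hy
    exact ⟨t + u, map_add _ _ _⟩
  | smul l x _ hx =>
    obtain ⟨t, rfl⟩ := hx
    exact ⟨l • t, map_smul _ _ _⟩

/-- the map `L ⊗ A → L` defined by a point of `A` -/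
noncomputable def zL (K : Subgroup (Matrix.unitaryGroup ν ℂ)) (L : Type) [Field L]
    [Algebra ℂ L] (z : InvAlg K →ₐ[ℂ] L) : L ⊗[ℂ] (InvAlg K) →ₐ[L] L :=
  Algebra.TensorProduct.lift (AlgHom.id L L) z (fun _ _ => Commute.all _ _)

lemma zL_tmul (K : Subgroup (Matrix.unitaryGroup ν ℂ)) (L : Type) [Field L]
    [Algebra ℂ L] (z : InvAlg K →ₐ[ℂ] L) (l : L) (a : InvAlg K) :
    zL K L z (l ⊗ₜ a) = l * z a := by
  unfold zL
  rw [Algebra.TensorProduct.lift_tmul]
  rfl

/-- conditions on an averaging operator -/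
def Good (K : Subgroup (Matrix.unitaryGroup ν ℂ))
    (s : Finset (Matrix.unitaryGroup ν ℂ)) (c : Matrix.unitaryGroup ν ℂ → ℂ) (m : ℕ) : Prop :=
  (∀ k ∈ s, k ∈ K) ∧
  ∀ (L : Type) [CommRing L] [Algebra ℂ L] (f : MvPolynomial ν L), f.totalDegree ≤ m →
        RL L s c f ∈
          Submodule.span L ((fun a : MvPolynomial ν ℂ => map (algebraMap ℂ L) a) ''
            (InvAlg K : Set (MvPolynomial ν ℂ)))

lemma Good.mono {K : Subgroup (Matrix.unitaryGroup ν ℂ)}
    {s : Finset (Matrix.unitaryGroup ν ℂ)} {c : Matrix.unitaryGroup ν ℂ → ℂ} {m m' : ℕ}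
    (h : Good K s c m) (hm : m' ≤ m) : Good K s c m' :=
  ⟨h.1, fun L _ _ f hf => h.2 L f (hf.trans hm)⟩

lemma Good.mem {K : Subgroup (Matrix.unitaryGroup ν ℂ)}
    {s : Finset (Matrix.unitaryGroup ν ℂ)} {c : Matrix.unitaryGroup ν ℂ → ℂ} {m : ℕ}
    (h : Good K s c m) (f : MvPolynomial ν ℂ) (hf : f.totalDegree ≤ m) :
    RL ℂ s c f ∈ InvAlg K := by
  have h1 := h.2 ℂ f hf
  have h2 : Submodule.span ℂ ((fun a : MvPolynomial ν ℂ => map (algebraMap ℂ ℂ) a) ''
      (InvAlg K : Set (MvPolynomial ν ℂ))) ≤ Subalgebra.toSubmodule (InvAlg K) := by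
    rw [Submodule.span_le]
    rintro _ ⟨a, ha, rfl⟩
    show map (algebraMap ℂ ℂ) a ∈ InvAlg K
    rw [Algebra.algebraMap_self, map_id]
    exact ha
  exact h2 h1

lemma RL_mem_ideal {K : Subgroup (Matrix.unitaryGroup ν ℂ)} (I : Ideal (MvPolynomial ν ℂ))
    (hI : ∀ k ∈ K, ∀ f ∈ I, act (k : Matrix ν ν ℂ) f ∈ I)
    {s : Finset (Matrix.unitaryGroup ν ℂ)} {c : Matrix.unitaryGroup ν ℂ → ℂ}
    (hs : ∀ k ∈ s, k ∈ K) (f : MvPolynomial ν ℂ) (hf : f ∈ I) : RL ℂ s c f ∈ I := by
  unfold RL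
  apply Ideal.sum_mem
  intro k hk
  apply Ideal.mul_mem_left
  have : kL ℂ (k : Matrix ν ν ℂ) = (k : Matrix ν ν ℂ) := by
    unfold kL
    ext i j
    simp
  rw [this]
  exact hI k (hs k hk) f hf

end R2

open R2

open scoped TensorProduct in
/-- **Lifting.** A point of `V//K` (over `L`) killing `I ∩ A`, `I` a `K`-stable ideal, is the image of
a point of `V(I)`. -/
theorem lift_point (K : Subgroup (Matrix.unitaryGroup ν ℂ)) (L : Type) [Field L] [Algebra ℂ L]
    [IsAlgClosed L] (I : Ideal (MvPolynomial ν ℂ))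
    (hI : ∀ k ∈ K, ∀ f ∈ I, act (k : Matrix ν ν ℂ) f ∈ I) (z : InvAlg K →ₐ[ℂ] L)
    (hz : ∀ a : InvAlg K, (a : MvPolynomial ν ℂ) ∈ I → z a = 0) :
    ∃ w : ν → L, (∀ F ∈ I, aeval w F = 0) ∧
      ∀ a : InvAlg K, aeval w (a : MvPolynomial ν ℂ) = z a := by
  -- the ideal
  set X1 : Set (MvPolynomial ν L) := (fun F : MvPolynomial ν ℂ => map (algebraMap ℂ L) F) '' I
    with hX1
  set X2 : Set (MvPolynomial ν L) := Set.range (fun a : InvAlg K =>
    map (algebraMap ℂ L) (a : MvPolynomial ν ℂ) - C (z a)) with hX2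
  set J : Ideal (MvPolynomial ν L) := Ideal.span (X1 ∪ X2) with hJ
  -- the property
  let P : MvPolynomial ν L → Prop := fun p => ∃ m : ℕ, ∀ s c, Good K s c m →
    ∃ t : L ⊗[ℂ] (InvAlg K), PhiL K L t = RL L s c p ∧ zL K L z t = 0
  have hadd : ∀ p q, P p → P q → P (p + q) := by
    rintro p q ⟨m, hm⟩ ⟨n, hn⟩
    refine ⟨max m n, fun s c h => ?_⟩
    obtain ⟨t, h1, h2⟩ := hm s c (h.mono (le_max_left _ _))
    obtain ⟨u, h3, h4⟩ := hn s c (h.mono (le_max_right _ _))
    exact ⟨t + u, by rw [map_add, RL_add, h1, h3], by rw [map_add, h2, h4, add_zero]⟩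
  have hzero : P 0 := ⟨0, fun s c _ => ⟨0, by rw [map_zero, RL_zero], map_zero _⟩⟩
  have hgen1 : ∀ F ∈ I, ∀ h : MvPolynomial ν L, P (h * map (algebraMap ℂ L) F) := by
    intro F hF h
    induction h using MvPolynomial.induction_on' with
    | monomial α l =>
      have e : (monomial α l : MvPolynomial ν L) =
          C l * map (algebraMap ℂ L) (monomial α 1) := by
        rw [map_monomial, map_one, C_mul_monomial, mul_one]
      rw [e, mul_assoc, ← map_mul]
      have hF' : (monomial α 1 : MvPolynomial ν ℂ) * F ∈ I := Ideal.mul_mem_left _ _ hF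
      refine ⟨((monomial α 1 : MvPolynomial ν ℂ) * F).totalDegree, fun s c h => ?_⟩
      have h1 := h.mem _ le_rfl
      have h2 := RL_mem_ideal (c := c) I hI h.1 _ hF'
      refine ⟨l ⊗ₜ ⟨_, h1⟩, ?_, ?_⟩
      · rw [PhiL_tmul, RL_C_mul, RL_map]
      · rw [zL_tmul, hz _ h2, mul_zero]
    | add p q hp hq =>
      rw [add_mul]
      exact hadd _ _ hp hq
  have hgen2 : ∀ a : InvAlg K, ∀ h : MvPolynomial ν L,
      P (h * (map (algebraMap ℂ L) (a : MvPolynomial ν ℂ) - C (z a))) := by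
    intro a h
    refine ⟨h.totalDegree, fun s c hg => ?_⟩
    rw [RL_mul_inv K L s c hg.1 h _ a.2]
    obtain ⟨t, ht⟩ := mem_range_PhiL K L _ (hg.2 L h le_rfl)
    refine ⟨t * ((1 : L) ⊗ₜ a - (z a) ⊗ₜ 1), ?_, ?_⟩
    · rw [map_mul, ht, map_sub, PhiL_tmul, PhiL_tmul]
      simp
    · rw [map_mul, map_sub, zL_tmul, zL_tmul]
      simp
  have hall : ∀ p ∈ J, P p := by
    intro p hp
    rw [hJ, Ideal.span, Submodule.mem_span_set'] at hp
    obtain ⟨n, f, g, rfl⟩ := hp
    have : ∀ u : Finset (Fin n), P (∑ i ∈ u, f i • (g i : MvPolynomial ν L)) := by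
      intro u
      induction u using Finset.induction_on with
      | empty => simpa using hzero
      | insert i u hi ih =>
        rw [Finset.sum_insert hi]
        apply hadd _ _ _ ih
        rw [smul_eq_mul]
        rcases (g i).2 with hg | hg
        · obtain ⟨F, hF, hF'⟩ := hg
          rw [← hF']
          exact hgen1 F hF _
        · obtain ⟨a, ha⟩ := hg
          rw [← ha]
          exact hgen2 a _
    exact this _
  have hJne : J ≠ ⊤ := by
    intro htop
    obtain ⟨m, hm⟩ := hall 1 (by rw [htop]; trivial)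
    obtain ⟨s, c, h1, h2, h3⟩ := exists_reyL K m
    obtain ⟨t, h4, h5⟩ := hm s c ⟨h1, fun L _ _ f hf => h3 L f hf⟩
    rw [RL_one L s c h2] at h4
    have h6 : t = 1 := by
      apply PhiL_injective K L
      rw [h4, map_one]
    rw [h6, map_one] at h5
    exact one_ne_zero h5
  obtain ⟨M, hM, hJM⟩ := Ideal.exists_le_maximal J hJne
  obtain ⟨w, hw⟩ := (isMaximal_iff_eq_vanishingIdeal_singleton).mp hM
  have hw' : ∀ p ∈ J, eval w p = 0 := by
    intro p hp
    have := hJM hp
    rw [hw, mem_vanishingIdeal_singleton_iff] at this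
    simpa [coe_aeval_eq_eval] using this
  have hmap : ∀ F : MvPolynomial ν ℂ, eval w (map (algebraMap ℂ L) F) = aeval w F := by
    intro F
    rw [eval_map, aeval_def]
  refine ⟨w, ?_, ?_⟩
  · intro F hF
    rw [← hmap]
    exact hw' _ (Ideal.subset_span (Or.inl ⟨F, hF, rfl⟩))
  · intro a
    have := hw' _ (Ideal.subset_span (Or.inr ⟨a, rfl⟩))
    rw [map_sub, hmap, eval_C, sub_eq_zero] at this
    exact this

/-- **Separation.** Two points over `L` with the same image in `V//K` have orbit closures with a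
common point. -/
theorem exists_common_point (K : Subgroup (Matrix.unitaryGroup ν ℂ)) (L : Type) [Field L]
    [Algebra ℂ L] [IsAlgClosed L] (w₁ w₂ : ν → L)
    (h : ∀ a ∈ InvAlg K, aeval w₁ a = aeval w₂ a) :
    ∃ w₀ : ν → L,
      (∀ F : MvPolynomial ν L, (∀ k ∈ K, eval ((kL L (k : Matrix ν ν ℂ)).mulVec w₁) F = 0) →
        eval w₀ F = 0) ∧
      (∀ F : MvPolynomial ν L, (∀ k ∈ K, eval ((kL L (k : Matrix ν ν ℂ)).mulVec w₂) F = 0) →
        eval w₀ F = 0) := by
  let I : (ν → L) → Ideal (MvPolynomial ν L) := fun w =>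
    { carrier := {F | ∀ k ∈ K, eval ((kL L (k : Matrix ν ν ℂ)).mulVec w) F = 0}
      add_mem' := by
        intro a b ha hb k hk
        rw [map_add, ha k hk, hb k hk, add_zero]
      zero_mem' := by
        intro k _
        exact map_zero _
      smul_mem' := by
        intro c a ha k hk
        rw [smul_eq_mul, map_mul, ha k hk, mul_zero] }
  have hmemI : ∀ w F, F ∈ I w ↔ ∀ k ∈ K, eval ((kL L (k : Matrix ν ν ℂ)).mulVec w) F = 0 :=
    fun w F => Iff.rfl
  have hne : I w₁ ⊔ I w₂ ≠ ⊤ := by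
    intro htop
    have h1 : (1 : MvPolynomial ν L) ∈ I w₁ ⊔ I w₂ := by rw [htop]; trivial
    obtain ⟨F₁, hF₁, F₂, hF₂, h12⟩ := Submodule.mem_sup.mp h1
    obtain ⟨s, c, hs, hc, hsp⟩ := exists_reyL K (max F₁.totalDegree F₂.totalDegree)
    have hR1 : RL L s c F₁ + RL L s c F₂ = 1 := by
      rw [← RL_add, h12, RL_one L s c hc]
    have hvan : ∀ w F, F ∈ I w → eval w (RL L s c F) = 0 := by
      intro w F hF
      unfold RL
      rw [map_sum]
      apply Finset.sum_eq_zero
      intro k hk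
      rw [map_mul, R2.eval_act, (hmemI w F).mp hF k (hs k hk), mul_zero]
    have hsame : eval w₁ (RL L s c F₂) = eval w₂ (RL L s c F₂) := by
      have h2 := hsp L F₂ (le_max_right _ _)
      have h3 : ∀ p ∈ Submodule.span L ((fun a : MvPolynomial ν ℂ => map (algebraMap ℂ L) a) ''
            (InvAlg K : Set (MvPolynomial ν ℂ))), eval w₁ p = eval w₂ p := by
        intro p hp
        induction hp using Submodule.span_induction with
        | mem x hx =>
          obtain ⟨a, ha, rfl⟩ := hx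
          have := h a ha
          simp only [aeval_def] at this
          rw [eval_map, eval_map, this]
        | zero => rw [map_zero, map_zero]
        | add x y _ _ hx hy => rw [map_add, map_add, hx, hy]
        | smul l x _ hx => rw [smul_eval, smul_eval, hx]
      exact h3 _ h2
    have h4 : eval w₁ (RL L s c F₁ + RL L s c F₂) = 1 := by rw [hR1, map_one]
    rw [map_add, hvan w₁ F₁ hF₁, zero_add, hsame, hvan w₂ F₂ hF₂] at h4
    exact zero_ne_one h4
  obtain ⟨M, hM, hJM⟩ := Ideal.exists_le_maximal _ hne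
  obtain ⟨w, hw⟩ := (isMaximal_iff_eq_vanishingIdeal_singleton).mp hM
  have hw' : ∀ p ∈ I w₁ ⊔ I w₂, eval w p = 0 := by
    intro p hp
    have := hJM hp
    rw [hw, mem_vanishingIdeal_singleton_iff] at this
    simpa [coe_aeval_eq_eval] using this
  exact ⟨w, fun F hF => hw' F (Submodule.mem_sup_left ((hmemI w₁ F).mpr hF)),
    fun F hF => hw' F (Submodule.mem_sup_right ((hmemI w₂ F).mpr hF))⟩

end H50.Z
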