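import Pool.Agent.H50.Z.Defs
import Pool.Agent.H50.Z.L5_Der

/-! (G1) Good elements exist. -/

open MvPolynomial

namespace H50.Z

namespace G1

/-- a derivation of the fraction field which preserves `A` up to the factor `b` -/
theorem exists_pullback (A : Type) [CommRing A] [IsDomain A] [Algebra ℂ A]
    (D : Derivation ℂ (FractionRing A) (FractionRing A)) (b : A)
    (h : ∀ f : A, ∃ g : A, algebraMap A (FractionRing A) b * D (algebraMap A (FractionRing A) f) =
      algebraMap A (FractionRing A) g) :
    ∃ D' : Derivation ℂ A A, ∀ f : A, algebraMap A (FractionRing A) (D' f) =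
      algebraMap A (FractionRing A) b * D (algebraMap A (FractionRing A) f) := by
  choose g hg using h
  have hinj : Function.Injective (algebraMap A (FractionRing A)) :=
    IsFractionRing.injective A (FractionRing A)
  refine ⟨Derivation.mk' (R := ℂ) (A := A) (M := A)
    { toFun := g
      map_add' := ?_
      map_smul' := ?_ } ?_, ?_⟩
  · intro x y
    apply hinj
    rw [map_add, ← hg, ← hg, ← hg, map_add, map_add, mul_add]
  · intro c x
    apply hinj
    have h1 : ∀ z : A, algebraMap A (FractionRing A) (c • z) =
        c • algebraMap A (FractionRing A) z := fun z => by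
      rw [Algebra.smul_def, map_mul, ← IsScalarTower.algebraMap_apply, ← Algebra.smul_def]
    rw [RingHom.id_apply, ← hg, h1, h1, D.map_smul, ← hg, mul_smul_comm]
  · intro x y
    apply hinj
    change algebraMap A (FractionRing A) (g (x * y)) =
      algebraMap A (FractionRing A) (x • g y + y • g x)
    rw [← hg, smul_eq_mul, smul_eq_mul, map_add, map_mul _ x y, map_mul _ x (g y),
      map_mul _ y (g x), ← hg, ← hg, D.leibniz, smul_eq_mul, smul_eq_mul]
    ring
  · intro f
    exact (hg f).symm

/-- a common denominator for a derivation, outside `p` -/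
theorem exists_denominator (A : Type) [CommRing A] [IsDomain A] [Algebra ℂ A]
    [Algebra.FiniteType ℂ A] {d : ℕ}
    (D : Fin d → Derivation ℂ (FractionRing A) (FractionRing A))
    (p : Ideal A) [p.IsPrime]
    (hp : ∀ (j : Fin d) (f : A), ∃ s : A, s ∉ p ∧ ∃ g : A,
      algebraMap A (FractionRing A) s * D j (algebraMap A (FractionRing A) f) =
        algebraMap A (FractionRing A) g) :
    ∃ b : A, b ∉ p ∧ ∀ (j : Fin d) (f : A), ∃ g : A,
      algebraMap A (FractionRing A) b * D j (algebraMap A (FractionRing A) f) =
        algebraMap A (FractionRing A) g := by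
  classical
  obtain ⟨S, hS⟩ := Algebra.FiniteType.out (R := ℂ) (A := A)
  choose s hs g hg using hp
  refine ⟨∏ j : Fin d, ∏ f ∈ S, s j f, ?_, ?_⟩
  · intro hmem
    rw [Ideal.IsPrime.prod_mem_iff] at hmem
    obtain ⟨j, _, hj⟩ := hmem
    rw [Ideal.IsPrime.prod_mem_iff] at hj
    obtain ⟨f, _, hf⟩ := hj
    exact hs j f hf
  · intro j f
    have hf : f ∈ Algebra.adjoin ℂ (S : Set A) := by rw [hS]; trivial
    induction hf using Algebra.adjoin_induction with
    | mem x hx =>
      have h1 : s j x ∣ ∏ j : Fin d, ∏ f ∈ S, s j f :=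
        (Finset.dvd_prod_of_mem (fun f => s j f) (Finset.mem_coe.1 hx)).trans
          (Finset.dvd_prod_of_mem (fun j => ∏ f ∈ S, s j f) (Finset.mem_univ j))
      obtain ⟨c, hc⟩ := h1
      refine ⟨c * g j x, ?_⟩
      rw [hc, map_mul, map_mul, ← hg]
      ring
    | algebraMap r =>
      refine ⟨0, ?_⟩
      rw [← IsScalarTower.algebraMap_apply ℂ A (FractionRing A), D j |>.map_algebraMap, mul_zero,
        map_zero]
    | add x y _ _ hx hy =>
      obtain ⟨u, hu⟩ := hx
      obtain ⟨v, hv⟩ := hy
      refine ⟨u + v, ?_⟩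
      rw [map_add, map_add, map_add, mul_add, hu, hv]
    | mul x y _ _ hx hy =>
      obtain ⟨u, hu⟩ := hx
      obtain ⟨v, hv⟩ := hy
      refine ⟨x * v + y * u, ?_⟩
      rw [map_mul _ x y, map_add, map_mul _ x v, map_mul _ y u, ← hu, ← hv, D j |>.leibniz,
        smul_eq_mul, smul_eq_mul]
      ring

end G1

/-- Derivations of the fraction field which preserve `A` up to denominators: if `a` is a
transcendence basis of `A` there are a nonzero `b` and derivations `D_j` of `A` with
`D_j(a_l) = b δ_jl`; moreover `b` may be chosen outside a given prime `p` as soon as the derivations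
`∂/∂a_j` of the fraction field preserve the local ring at `p`. -/
theorem isGoodWith_of_derivations (A : Type) [CommRing A] [IsDomain A] [Algebra ℂ A]
    [Algebra.FiniteType ℂ A] {d : ℕ} (a : Fin d → A) (ha : IsTranscendenceBasis ℂ a)
    (D : Fin d → Derivation ℂ (FractionRing A) (FractionRing A))
    (hD : ∀ j l, D j (algebraMap A (FractionRing A) (a l)) = if j = l then 1 else 0)
    (p : Ideal A) [p.IsPrime]
    (hp : ∀ (j : Fin d) (f : A), ∃ s : A, s ∉ p ∧ ∃ g : A,
      algebraMap A (FractionRing A) s * D j (algebraMap A (FractionRing A) f) =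
        algebraMap A (FractionRing A) g) :
    ∃ (b : A) (D' : Fin d → Derivation ℂ A A), b ∉ p ∧ IsGoodWith b a D' := by
  obtain ⟨b, hb, hbD⟩ := G1.exists_denominator A D p hp
  have h := fun j => G1.exists_pullback A (D j) b (hbD j)
  choose D' hD' using h
  refine ⟨b, D', hb, ?_, ha, ?_⟩
  · rintro rfl
    exact hb p.zero_mem
  · intro j l
    apply IsFractionRing.injective A (FractionRing A)
    rw [hD', hD]
    split_ifs with hjl
    · rw [mul_one]
    · rw [mul_zero, map_zero]

/-- (G1) good elements exist -/
theorem exists_good (A : Type) [CommRing A] [IsDomain A] [Algebra ℂ A] [Algebra.FiniteType ℂ A]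
    {d : ℕ} (hd : Algebra.trdeg ℂ A = d) : ∃ b : A, IsGood A d b := by
  obtain ⟨ι, v, hv⟩ := exists_isTranscendenceBasis' ℂ A
  have hc : Cardinal.mk ι = d := by rw [← hd, hv.cardinalMk_eq_trdeg]
  have : Finite ι := by
    rw [← Cardinal.lt_aleph0_iff_finite, hc]
    exact Cardinal.natCast_lt_aleph0
  have hn : Nat.card ι = d := by
    rw [Nat.card, hc, Cardinal.toNat_natCast]
  let e : ι ≃ Fin d := Finite.equivFinOfCardEq hn
  have ha : IsTranscendenceBasis ℂ (v ∘ e.symm) := by
    exact hv.comp_equiv e.symm
  have : Algebra.IsAlgebraic A (FractionRing A) :=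
    (IsFractionRing.comap_isAlgebraic_iff (K := FractionRing A)).2 inferInstance
  have haF : IsTranscendenceBasis ℂ (algebraMap A (FractionRing A) ∘ (v ∘ e.symm)) :=
    ha.algebraMap_comp
  have hex : ∀ j : Fin d, ∃ D : Derivation ℂ (FractionRing A) (FractionRing A),
      ∀ l, D ((algebraMap A (FractionRing A) ∘ (v ∘ e.symm)) l) = if j = l then 1 else 0 :=
    fun j => exists_derivation haF fun l => if j = l then 1 else 0
  choose D hD using hex
  obtain ⟨b, D', _, hb⟩ := isGoodWith_of_derivations A (v ∘ e.symm) ha D (fun j l => hD j l) ⊥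
    (by
      intro j f
      obtain ⟨g, s, hs, hgs⟩ := IsFractionRing.div_surjective (A := A)
        (D j (algebraMap A (FractionRing A) f))
      have hs0 : s ≠ 0 := nonZeroDivisors.ne_zero hs
      refine ⟨s, by simpa using hs0, g, ?_⟩
      rw [← hgs]
      have : algebraMap A (FractionRing A) s ≠ 0 := by
        intro h0
        exact hs0 (IsFractionRing.injective A (FractionRing A) (by rw [h0, map_zero]))
      field_simp)
  exact ⟨b, _, D', hb⟩

end H50.Z
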