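import Pool.Agent.H50.Z.R1b_ReyL

/-! (R3) Hilbert's finiteness theorem. (R4) Invariants are integrally closed. -/

open MvPolynomial

set_option linter.unusedSectionVars false

namespace H50.Z

variable {ν : Type} [Fintype ν] [DecidableEq ν]

/-- homogeneous invariants of positive degree -/
def posInv (K : Subgroup (Matrix.unitaryGroup ν ℂ)) : Set (MvPolynomial ν ℂ) :=
  {f | f ∈ InvAlg K ∧ ∃ d, 0 < d ∧ f.IsHomogeneous d}

/-- the degree `n` component of a product with a homogeneous factor of degree `d ≤ n` -/
theorem homogeneousComponent_mul_of_isHomogeneous (g f : MvPolynomial ν ℂ) {d : ℕ}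
    (hf : f.IsHomogeneous d) (n : ℕ) :
    homogeneousComponent n (g * f) =
      if d ≤ n then homogeneousComponent (n - d) g * f else 0 := by
  have h1 : ∀ m, homogeneousComponent n (homogeneousComponent m g * f) =
      if m + d = n then homogeneousComponent m g * f else 0 := fun m =>
    homogeneousComponent_of_mem ((homogeneousComponent_isHomogeneous m g).mul hf)
      |>.trans (by simp only [eq_comm])
  conv_lhs => rw [← sum_homogeneousComponent g, Finset.sum_mul, map_sum]
  simp only [h1]
  split_ifs with hd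
  · have h2 : ∀ m, (m + d = n) ↔ (m = n - d) := fun m => by omega
    simp only [h2]
    rw [Finset.sum_ite_eq']
    split_ifs with h3
    · rfl
    · rw [Finset.mem_range, not_lt] at h3
      rw [homogeneousComponent_eq_zero _ _ (by omega), zero_mul]
  · exact Finset.sum_eq_zero fun m _ => if_neg (by omega)

theorem invAlg_finiteType (K : Subgroup (Matrix.unitaryGroup ν ℂ)) :
    Algebra.FiniteType ℂ (InvAlg K) := by
  classical
  obtain ⟨ρ, h1, h2, h3, -, h5, -⟩ := exists_rey' K
  rw [← Subalgebra.fg_iff_finiteType]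
  have hfg : (Ideal.span (posInv K)).FG := IsNoetherian.noetherian _
  obtain ⟨T, hT, hspan⟩ := Submodule.fg_span_iff_fg_span_finset_subset _ |>.1 hfg
  refine ⟨T, le_antisymm ?_ ?_⟩
  · rw [Algebra.adjoin_le_iff]
    exact fun f hf => (hT hf).1
  have key : ∀ n : ℕ, ∀ a ∈ InvAlg K, a.IsHomogeneous n →
      a ∈ Algebra.adjoin ℂ (T : Set (MvPolynomial ν ℂ)) := by
    intro n
    induction n using Nat.strong_induction_on with
    | _ n ih =>
      intro a ha hn
      rcases Nat.eq_zero_or_pos n with rfl | hpos
      · have h6 : a = C (coeff 0 a) := by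
          rw [← homogeneousComponent_zero]
          exact ((homogeneousComponent_of_mem hn).trans (if_pos rfl)).symm
        rw [h6]
        exact (Algebra.adjoin ℂ (T : Set (MvPolynomial ν ℂ))).algebraMap_mem _
      · have h6 : a ∈ Submodule.span (MvPolynomial ν ℂ) (T : Set (MvPolynomial ν ℂ)) := by
          rw [← hspan]
          exact Ideal.subset_span ⟨ha, n, hpos, hn⟩
        obtain ⟨g, hg⟩ := Submodule.mem_span_finset'.1 h6
        choose dd hdpos hdh using fun t : T => (hT t.2).2
        have h7 : a = ∑ t : T, (if dd t ≤ n then homogeneousComponent (n - dd t) (g t) * (t : MvPolynomial ν ℂ)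
            else 0) := by
          conv_lhs => rw [← (homogeneousComponent_of_mem hn).trans (if_pos rfl), ← hg, map_sum]
          refine Finset.sum_congr rfl fun t _ => ?_
          rw [smul_eq_mul, homogeneousComponent_mul_of_isHomogeneous _ _ (hdh t)]
        rw [← h2 a ha, h7, map_sum]
        refine sum_mem fun t _ => ?_
        split_ifs with hd
        · rw [mul_comm, h3 _ (hT t.2).1]
          refine mul_mem (Algebra.subset_adjoin t.2) (ih (n - dd t) (by have := hdpos t; omega) _ (h1 _)
            (h5 _ _ (homogeneousComponent_isHomogeneous _ _)))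
        · rw [map_zero]
          exact zero_mem _
  intro a ha
  rw [← sum_homogeneousComponent a]
  exact sum_mem fun i _ => key i _ (isGraded_invAlg K a ha i) (homogeneousComponent_isHomogeneous _ _)

theorem invAlg_isIntegrallyClosed (K : Subgroup (Matrix.unitaryGroup ν ℂ)) :
    IsIntegrallyClosed (InvAlg K) := by
  rw [isIntegrallyClosed_iff (FractionRing (InvAlg K))]
  intro x hx
  let ι : InvAlg K →+* MvPolynomial ν ℂ := (InvAlg K).val.toRingHom
  have hι : Function.Injective ι := Subtype.val_injective
  let j : InvAlg K →+* FractionRing (MvPolynomial ν ℂ) :=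
    (algebraMap (MvPolynomial ν ℂ) (FractionRing (MvPolynomial ν ℂ))).comp ι
  have hj : Function.Injective j :=
    (IsFractionRing.injective (MvPolynomial ν ℂ) (FractionRing (MvPolynomial ν ℂ))).comp hι
  let φ : FractionRing (InvAlg K) →+* FractionRing (MvPolynomial ν ℂ) := IsFractionRing.lift hj
  have hφ : ∀ a : InvAlg K, φ (algebraMap (InvAlg K) (FractionRing (InvAlg K)) a) = j a :=
    fun a => IsFractionRing.lift_algebraMap hj a
  have hint : IsIntegral (MvPolynomial ν ℂ) (φ x) := by
    obtain ⟨p, hp, hpx⟩ := hx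
    refine ⟨p.map ι, hp.map ι, ?_⟩
    rw [Polynomial.eval₂_map]
    have h1 := congrArg φ hpx
    rw [Polynomial.hom_eval₂, map_zero] at h1
    have h2 : φ.comp (algebraMap (InvAlg K) (FractionRing (InvAlg K))) = j := RingHom.ext hφ
    rw [h2] at h1
    exact h1
  obtain ⟨s, hs⟩ := IsIntegrallyClosed.isIntegral_iff.1 hint
  obtain ⟨a, b, hb, rfl⟩ := IsFractionRing.div_surjective (A := InvAlg K) x
  have hb0 : b ≠ 0 := nonZeroDivisors.ne_zero hb
  have hιb : ι b ≠ 0 := by
    rw [Ne, map_eq_zero_iff ι hι]
    exact hb0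
  have hjb : j b ≠ 0 := by
    rw [Ne, map_eq_zero_iff j hj]
    exact hb0
  rw [map_div₀, hφ, hφ, eq_div_iff hjb] at hs
  have h3 : s * ι b = ι a := by
    apply IsFractionRing.injective (MvPolynomial ν ℂ) (FractionRing (MvPolynomial ν ℂ))
    rw [map_mul]
    exact hs
  have hsA : s ∈ InvAlg K := by
    intro k hk
    have h4 := congrArg (act (k : Matrix ν ν ℂ)) h3
    have h5 : act (k : Matrix ν ν ℂ) (ι b) = ι b := b.2 k hk
    have h6 : act (k : Matrix ν ν ℂ) (ι a) = ι a := a.2 k hk
    rw [map_mul, h5, h6, ← h3] at h4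
    exact mul_right_cancel₀ hιb h4
  have hbF : algebraMap (InvAlg K) (FractionRing (InvAlg K)) b ≠ 0 := by
    rw [Ne, map_eq_zero_iff _ (IsFractionRing.injective (InvAlg K) (FractionRing (InvAlg K)))]
    exact hb0
  refine ⟨⟨s, hsA⟩, ?_⟩
  rw [eq_div_iff hbF, ← map_mul]
  congr 1
  exact Subtype.ext h3

end H50.Z
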