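import Pool.Agent.H50.Z.Z2_Struct
import Pool.Agent.H50.Z.G1_Exists
import Pool.Agent.H50.Z.R3_Hilbert

/-! The algebra `B` has transcendence degree at least `2d`. -/

open MvPolynomial H50.DO

set_option linter.unusedSectionVars false

namespace H50.Z

variable {ν : Type} [Fintype ν] [DecidableEq ν]

/-- chain rule -/
private theorem pderiv_act (M : Matrix ν ν ℂ) (j : ν) (f : MvPolynomial ν ℂ) :
    pderiv j (act M f) = ∑ i, C (M i j) * act M (pderiv i f) := by
  induction f using MvPolynomial.induction_on with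
  | C a =>
    have h1 : act M (C a) = C a := (act M).commutes a
    rw [h1]
    simp
  | add p q hp hq =>
    rw [map_add, map_add, hp, hq, ← Finset.sum_add_distrib]
    refine Finset.sum_congr rfl fun i _ => ?_
    rw [map_add, map_add, mul_add]
  | mul_X p l hp =>
    have h1 : pderiv j (act M (X l)) = C (M l j) := by
      rw [act_X, map_sum]
      rw [Finset.sum_eq_single j]
      · rw [pderiv_C_mul, pderiv_X_self, mul_one]
      · intro i _ hij
        rw [pderiv_C_mul, pderiv_X_of_ne hij, mul_zero]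
      · intro h; exact absurd (Finset.mem_univ j) h
    have h2 : ∀ i, C (M i j) * act M (pderiv i (p * X l)) =
        (if i = l then act M p * C (M i j) else 0) +
          act M (X l) * (C (M i j) * act M (pderiv i p)) := by
      intro i
      rw [Derivation.leibniz, smul_eq_mul, smul_eq_mul, map_add, map_mul, map_mul, pderiv_X]
      split_ifs with hil
      · subst hil
        rw [Pi.single_eq_same, map_one]
        ring
      · rw [Pi.single_eq_of_ne (Ne.symm hil), map_zero]
        ring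
    rw [map_mul, Derivation.leibniz, hp, h1, Finset.sum_congr rfl fun i _ => h2 i,
      Finset.sum_add_distrib, Finset.sum_ite_eq' Finset.univ l, if_pos (Finset.mem_univ l),
      ← Finset.mul_sum, smul_eq_mul, smul_eq_mul]

/-- for unitary `k` and `f` invariant: `(∂_l f)(k x) = ∑ conj(k_lj) (∂_j f)(x)` -/
private theorem act_pderiv (k : Matrix.unitaryGroup ν ℂ) (f : MvPolynomial ν ℂ)
    (hf : act (k : Matrix ν ν ℂ) f = f) (l : ν) :
    act (k : Matrix ν ν ℂ) (pderiv l f) =
      ∑ j, C (starRingEnd ℂ ((k : Matrix ν ν ℂ) l j)) * pderiv j f := by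
  have h1 : ∀ j, pderiv j f = ∑ i, C ((k : Matrix ν ν ℂ) i j) *
      act (k : Matrix ν ν ℂ) (pderiv i f) := by
    intro j
    conv_lhs => rw [← hf]
    exact pderiv_act _ _ _
  have hk : ∀ i, ∑ j, starRingEnd ℂ ((k : Matrix ν ν ℂ) l j) * (k : Matrix ν ν ℂ) i j =
      if i = l then 1 else 0 := by
    intro i
    have := congrFun (congrFun (Matrix.mem_unitaryGroup_iff.1 k.2) i) l
    rw [Matrix.mul_apply, Matrix.one_apply] at this
    rw [← this]
    refine Finset.sum_congr rfl fun j _ => ?_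
    rw [Matrix.star_apply, mul_comm]
    rfl
  have h0 : ∀ j, C (starRingEnd ℂ ((k : Matrix ν ν ℂ) l j)) * pderiv j f =
      ∑ i, C (starRingEnd ℂ ((k : Matrix ν ν ℂ) l j)) * (C ((k : Matrix ν ν ℂ) i j) *
      act (k : Matrix ν ν ℂ) (pderiv i f)) := by
    intro j
    conv_lhs => rw [h1 j, Finset.mul_sum]
  rw [Finset.sum_congr rfl fun j _ => h0 j, Finset.sum_comm]
  have h2 : ∀ i, ∑ j, C (starRingEnd ℂ ((k : Matrix ν ν ℂ) l j)) * (C ((k : Matrix ν ν ℂ) i j) *
      act (k : Matrix ν ν ℂ) (pderiv i f)) =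
      (if i = l then 1 else 0) * act (k : Matrix ν ν ℂ) (pderiv i f) := by
    intro i
    simp_rw [← mul_assoc, ← C_mul]
    rw [← Finset.sum_mul, ← map_sum C, hk]
    split_ifs
    · rw [C_1]
    · rw [C_0]
  rw [Finset.sum_congr rfl fun i _ => h2 i]
  simp

/-- `x_i ↦ x_i, ξ_i ↦ ∑ c_j ∂_i a_j` -/
private noncomputable def evE {d : ℕ} (a : Fin d → MvPolynomial ν ℂ) :
    MvPolynomial (ν ⊕ ν) ℂ →ₐ[ℂ] MvPolynomial (Fin d) (MvPolynomial ν ℂ) :=
  aeval (Sum.elim (fun i => C (X i)) fun i => ∑ j, X j * C (pderiv i (a j)))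

private theorem evE_inS {d : ℕ} (a : Fin d → MvPolynomial ν ℂ) (f : MvPolynomial ν ℂ) :
    evE a (inS f) = C f := by
  have : (evE a).comp inS = IsScalarTower.toAlgHom ℂ (MvPolynomial ν ℂ)
      (MvPolynomial (Fin d) (MvPolynomial ν ℂ)) := by
    apply MvPolynomial.algHom_ext
    intro i
    rw [AlgHom.comp_apply, inS, rename_X, evE, aeval_X]
    rfl
  exact congrArg (fun g => g f) this

/-- the action on the coefficients -/
private noncomputable def coefAct {d : ℕ} (k : Matrix ν ν ℂ) :
    MvPolynomial (Fin d) (MvPolynomial ν ℂ) →ₐ[ℂ] MvPolynomial (Fin d) (MvPolynomial ν ℂ) :=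
  mapAlgHom (act k)

private theorem evE_act {d : ℕ} (a : Fin d → MvPolynomial ν ℂ) (k : Matrix.unitaryGroup ν ℂ)
    (ha : ∀ j, act (k : Matrix ν ν ℂ) (a j) = a j) (F : MvPolynomial (ν ⊕ ν) ℂ) :
    evE a (act (dblM (k : Matrix ν ν ℂ)) F) = coefAct (k : Matrix ν ν ℂ) (evE a F) := by
  have : (evE a).comp (act (dblM (k : Matrix ν ν ℂ))) =
      (coefAct (k : Matrix ν ν ℂ)).comp (evE a) := by
    apply MvPolynomial.algHom_ext
    intro i
    rw [AlgHom.comp_apply, AlgHom.comp_apply, act_X, Fintype.sum_sum_type]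
    rcases i with i | i
    · simp only [dblM, Matrix.fromBlocks_apply₁₁, Matrix.fromBlocks_apply₁₂, Matrix.zero_apply,
        C_0, zero_mul, Finset.sum_const_zero, add_zero, map_sum, map_mul]
      simp only [evE, aeval_X, Sum.elim_inl, coefAct, mapAlgHom_apply, map_C]
      have h1 : act (k : Matrix ν ν ℂ) (X i) = ∑ j, C ((k : Matrix ν ν ℂ) i j) * X j := act_X _ _
      change _ = C (act (k : Matrix ν ν ℂ) (X i))
      rw [h1, map_sum]
      refine Finset.sum_congr rfl fun j _ => ?_
      rw [map_mul]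
      congr 1
      exact algHom_C _ _
    · simp only [dblM, Matrix.fromBlocks_apply₂₁, Matrix.fromBlocks_apply₂₂, Matrix.zero_apply,
        C_0, zero_mul, Finset.sum_const_zero, zero_add, map_sum, map_mul]
      simp only [evE, aeval_X, Sum.elim_inr, coefAct, mapAlgHom_apply, map_C, map_sum, map_mul,
        map_X, Matrix.map_apply]
      have h1 : ∀ j, act (k : Matrix ν ν ℂ) (pderiv i (a j)) = _ := fun j =>
        act_pderiv k (a j) (ha j) i
      have h2 : ∀ j, (C ((act (k : Matrix ν ν ℂ)) (pderiv i (a j))) :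
          MvPolynomial (Fin d) (MvPolynomial ν ℂ)) =
          ∑ l, C (C (starRingEnd ℂ ((k : Matrix ν ν ℂ) i l))) * C (pderiv l (a j)) := by
        intro j
        rw [h1, map_sum]
        refine Finset.sum_congr rfl fun l _ => ?_
        rw [map_mul]
      have h3 : ∀ j, (C (((act (k : Matrix ν ν ℂ)) : MvPolynomial ν ℂ →+* MvPolynomial ν ℂ)
          (pderiv i (a j))) : MvPolynomial (Fin d) (MvPolynomial ν ℂ)) =
          ∑ l, C (C (starRingEnd ℂ ((k : Matrix ν ν ℂ) i l))) * C (pderiv l (a j)) := h2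
      simp_rw [h3, Finset.mul_sum]
      rw [Finset.sum_comm (s := (Finset.univ : Finset (Fin d)))]
      refine Finset.sum_congr rfl fun j _ => Finset.sum_congr rfl fun l _ => ?_
      have h4 : (aeval (Sum.elim (fun i => C (X i)) fun i => ∑ j, X j * C (pderiv i (a j))) :
          MvPolynomial (ν ⊕ ν) ℂ →ₐ[ℂ] MvPolynomial (Fin d) (MvPolynomial ν ℂ))
          (C (starRingEnd ℂ ((k : Matrix ν ν ℂ) i j))) =
          C (C (starRingEnd ℂ ((k : Matrix ν ν ℂ) i j))) := algHom_C _ _
      rw [h4]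
      ring
  exact congrArg (fun g => g F) this

/-- `B = O^K / (I_Z ∩ O^K)` has transcendence degree at least `2d` -/
theorem two_mul_le_trdeg_B (K : Subgroup (Matrix.unitaryGroup ν ℂ)) {d : ℕ}
    (hd : Algebra.trdeg ℂ (InvAlg K) = d) (hS : Surj (InvAlg K)) :
    ((2 * d : ℕ) : Cardinal) ≤ Algebra.trdeg ℂ (InvAlg (dbl K) ⧸ IZK K) := by
  have := invAlg_finiteType K
  obtain ⟨b, a, D, hg⟩ := exists_good (InvAlg K) hd
  obtain ⟨m, hm⟩ := t1' (InvAlg K) hS hg
  rw [Ideal.mem_span_range_iff_exists_fun] at hm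
  obtain ⟨h, hh⟩ := hm
  set a' : Fin d → MvPolynomial ν ℂ := fun j => ((a j : InvAlg K) : MvPolynomial ν ℂ) with ha'
  -- the elements `G j`
  let G : Fin d → MvPolynomial (ν ⊕ ν) ℂ := fun j => ∑ e : Fin d → ν, inS (h e) *
    (Matrix.updateRow (Matrix.of fun i l : Fin d => inS (pderiv (e l) (a' i))) j
      (fun l => X (Sum.inr (e l)))).det
  have hG : ∀ j, evE a' (G j) = X j * C ((b : MvPolynomial ν ℂ) ^ m) := by
    intro j
    rw [← hh, map_sum, map_sum C, Finset.mul_sum]
    refine Finset.sum_congr rfl fun e _ => ?_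
    rw [map_mul, evE_inS, AlgHom.map_det, map_mul]
    have h1 : (evE a').mapMatrix (Matrix.updateRow
        (Matrix.of fun i l : Fin d => inS (pderiv (e l) (a' i))) j (fun l => X (Sum.inr (e l)))) =
        Matrix.updateRow (Matrix.of fun i l : Fin d =>
          (C (pderiv (e l) (a' i)) : MvPolynomial (Fin d) (MvPolynomial ν ℂ))) j
          (∑ k : Fin d, (X k : MvPolynomial (Fin d) (MvPolynomial ν ℂ)) • (Matrix.of fun i l : Fin d =>
          (C (pderiv (e l) (a' i)) : MvPolynomial (Fin d) (MvPolynomial ν ℂ))) k) := by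
      ext1 i l
      rw [AlgHom.mapMatrix_apply, Matrix.map_apply]
      by_cases hij : i = j
      · subst hij
        rw [Matrix.updateRow_self, Matrix.updateRow_self, evE, aeval_X, Sum.elim_inr,
          Finset.sum_apply]
        rfl
      · rw [Matrix.updateRow_ne hij, Matrix.updateRow_ne hij, Matrix.of_apply, evE_inS,
          Matrix.of_apply]
    rw [h1, Matrix.det_updateRow_sum, smul_eq_mul]
    have h2 : (Matrix.of fun i l : Fin d =>
          (C (pderiv (e l) (a' i)) : MvPolynomial (Fin d) (MvPolynomial ν ℂ))).det =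
        C ((Matrix.of fun i l : Fin d => pderiv (e l) (a' i)).det) := by
      rw [RingHom.map_det]
      rfl
    rw [h2]
    ring
  -- Reynolds
  obtain ⟨ρ, hρ1, -, hρ3⟩ := exists_rey (dbl K)
  have hGρ : ∀ j, evE a' (ρ (G j)) = X j * C ((b : MvPolynomial ν ℂ) ^ m) := by
    intro j
    obtain ⟨s, c, hs, hc, hf⟩ := hρ3 (G j).totalDegree
    rw [hf (G j) le_rfl, map_sum]
    have h1 : ∀ k ∈ s, evE a' (c k • act (k : Matrix (ν ⊕ ν) (ν ⊕ ν) ℂ) (G j)) =
        c k • (X j * C ((b : MvPolynomial ν ℂ) ^ m)) := by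
      intro k hk
      obtain ⟨k', hk', rfl⟩ := hs k hk
      rw [map_smul]
      congr 1
      change evE a' (act (dblM (k' : Matrix ν ν ℂ)) (G j)) = _
      rw [evE_act a' k' (fun i => (a i).2 k' hk'), hG, map_mul]
      congr 1
      · simp [coefAct]
      · have h3 : act (k' : Matrix ν ν ℂ) (b : MvPolynomial ν ℂ) = b := b.2 k' hk'
        have h4 : (coefAct (d := d) (k' : Matrix ν ν ℂ)) (C ((b : MvPolynomial ν ℂ) ^ m)) =
            C (act (k' : Matrix ν ν ℂ) ((b : MvPolynomial ν ℂ) ^ m)) := by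
          simp [coefAct]
        rw [h4, map_pow, h3]
    rw [Finset.sum_congr rfl h1, ← Finset.sum_smul, hc, one_smul]
  -- the map from `B`
  let E : InvAlg (dbl K) →ₐ[ℂ] MvPolynomial (Fin d) (MvPolynomial ν ℂ) :=
    (evE a').comp (InvAlg (dbl K)).val
  have hE : ∀ F ∈ IZK K, E F = 0 := by
    intro F hF
    have h1 : (F : MvPolynomial (ν ⊕ ν) ℂ) ∈ IZ (InvAlg K) := hF
    have h2 := isZ_of_comb (InvAlg K) (L := MvPolynomial (Fin d) (MvPolynomial ν ℂ)) a
      (fun j => X j) (fun i => C (X i)) F h1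
    have h3 : ∀ f : MvPolynomial ν ℂ, aeval (fun i => (C (X i) :
        MvPolynomial (Fin d) (MvPolynomial ν ℂ))) f = C f := by
      intro f
      have : (aeval (fun i => (C (X i) : MvPolynomial (Fin d) (MvPolynomial ν ℂ))) :
          MvPolynomial ν ℂ →ₐ[ℂ] _) = IsScalarTower.toAlgHom ℂ (MvPolynomial ν ℂ)
          (MvPolynomial (Fin d) (MvPolynomial ν ℂ)) := by
        apply MvPolynomial.algHom_ext
        intro i
        rw [aeval_X]
        rfl
      exact congrArg (fun g => g f) this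
    simp only [h3] at h2
    exact h2
  let Eb : (InvAlg (dbl K) ⧸ IZK K) →ₐ[ℂ] MvPolynomial (Fin d) (MvPolynomial ν ℂ) :=
    Ideal.Quotient.liftₐ (IZK K) E hE
  let y : Fin d ⊕ Fin d → (InvAlg (dbl K) ⧸ IZK K) :=
    Sum.elim (fun j => Ideal.Quotient.mk _ ⟨ρ (G j), hρ1 _⟩)
      (fun j => Ideal.Quotient.mk _ (inA K (a j)))
  have hy : Eb ∘ y = Sum.elim (fun j => X j * C ((b : MvPolynomial ν ℂ) ^ m))
      (algebraMap (MvPolynomial ν ℂ) (MvPolynomial (Fin d) (MvPolynomial ν ℂ)) ∘ a') := by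
    funext i
    rcases i with j | j
    · exact hGρ j
    · exact evE_inS a' (a' j)
  have hb0 : ((b : MvPolynomial ν ℂ) ^ m) ≠ 0 := by
    apply pow_ne_zero
    intro h0
    exact hg.1 (Subtype.ext h0)
  have hind : AlgebraicIndependent ℂ (Eb ∘ y) := by
    rw [hy]
    refine AlgebraicIndependent.sumElim_comp ?_ ?_
    · have h1 : AlgebraicIndependent ℂ a := hg.2.1.1
      exact h1.map' (f := (InvAlg K).val) Subtype.val_injective
    · have h1 := MvPolynomial.algebraicIndependent_polynomial_aeval_X (ι := Fin d)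
        (R := MvPolynomial ν ℂ) (fun _ => Polynomial.C ((b : MvPolynomial ν ℂ) ^ m) * Polynomial.X)
        (fun _ => Polynomial.transcendental _ (by
          rw [Polynomial.natDegree_C_mul_X _ hb0]
          exact one_ne_zero) (by
          rw [Polynomial.leadingCoeff_mul_X, Polynomial.leadingCoeff_C]
          exact mem_nonZeroDivisors_of_ne_zero hb0))
      have h2 : (fun i : Fin d => Polynomial.aeval (X i : MvPolynomial (Fin d) (MvPolynomial ν ℂ))
          (Polynomial.C ((b : MvPolynomial ν ℂ) ^ m) * Polynomial.X)) =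
          fun j => X j * C ((b : MvPolynomial ν ℂ) ^ m) := by
        funext j
        rw [map_mul, Polynomial.aeval_C, Polynomial.aeval_X, mul_comm]
        rfl
      rw [h2] at h1
      exact h1
  have hind' : AlgebraicIndependent ℂ y := AlgebraicIndependent.of_comp Eb hind
  have hcard := hind'.cardinalMk_le_trdeg
  rw [Cardinal.mk_fintype, Fintype.card_sum, Fintype.card_fin] at hcard
  rw [two_mul]
  exact hcard

end H50.Z
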