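import Pool.Agent.H50.Z.C2b_Second
import Pool.Agent.H50.Z.O1_Op
import Pool.Agent.H50.Z.KL3_Arc
import Pool.Agent.H50.Z.Z3_TrdegB
import Pool.Agent.H50.Z.R2_Lift

/-! (C2) No divisor of `Spec B` lies over a regular pair `b = b' = 0`. -/

open MvPolynomial H50.DO

set_option linter.unusedSectionVars false

namespace H50.Z

variable {ν : Type} [Fintype ν] [DecidableEq ν]

/-- Nullstellensatz for finitely generated algebras -/
theorem c2c_nss (B : Type) [CommRing B] [Algebra ℂ B] [Algebra.FiniteType ℂ B] (g : Ideal B)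
    [hg : g.IsPrime] (F : B) (hF : F ∉ g) : ∃ z : B →ₐ[ℂ] ℂ, (∀ G ∈ g, z G = 0) ∧ z F ≠ 0 := by
  have hJ : IsJacobsonRing B := isJacobsonRing_of_finiteType (A := ℂ)
  have h1 : g.jacobson = g := isJacobsonRing_iff_prime_eq.1 hJ g hg
  rw [← h1, Ideal.jacobson, Ideal.mem_sInf] at hF
  push Not at hF
  obtain ⟨m, ⟨hgm, hm⟩, hFm⟩ := hF
  let _ : Field (B ⧸ m) := Ideal.Quotient.field m
  have hft : Algebra.FiniteType ℂ (B ⧸ m) :=
    Algebra.FiniteType.of_surjective (Ideal.Quotient.mkₐ ℂ m) (Ideal.Quotient.mkₐ_surjective ℂ m)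
  have hfin : Module.Finite ℂ (B ⧸ m) := finite_of_finite_type_of_isJacobsonRing ℂ (B ⧸ m)
  have hbij := IsAlgClosed.algebraMap_bijective_of_isIntegral (k := ℂ) (K := B ⧸ m)
  let e : ℂ ≃ₐ[ℂ] (B ⧸ m) := AlgEquiv.ofBijective (Algebra.ofId ℂ (B ⧸ m)) hbij
  refine ⟨e.symm.toAlgHom.comp (Ideal.Quotient.mkₐ ℂ m), ?_, ?_⟩
  · intro G hG
    have : Ideal.Quotient.mk m G = 0 := Ideal.Quotient.eq_zero_iff_mem.2 (hgm hG)
    show e.symm (Ideal.Quotient.mk m G) = 0
    rw [this, map_zero]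
  · intro h0
    have h2 : e.symm (Ideal.Quotient.mk m F) = 0 := h0
    rw [map_eq_zero_iff _ e.symm.injective] at h2
    exact hFm (Ideal.Quotient.eq_zero_iff_mem.1 h2)

/-- elements of `O^K` vanishing at all complex `Z`-points over `V(g)` lie in `g` -/
theorem mem_of_vanish (K : Subgroup (Matrix.unitaryGroup ν ℂ)) (g : Ideal (InvAlg (dbl K)))
    [g.IsPrime] (hg : IZK K ≤ g) (F : InvAlg (dbl K))
    (h : ∀ x ξ : ν → ℂ, IsZ (InvAlg K) x ξ →
      (∀ G ∈ g, eval (Sum.elim x ξ) (G : MvPolynomial (ν ⊕ ν) ℂ) = 0) →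
      eval (Sum.elim x ξ) (F : MvPolynomial (ν ⊕ ν) ℂ) = 0) : F ∈ g := by
  by_contra hF
  have := invAlg_finiteType (dbl K)
  obtain ⟨z, hz, hzF⟩ := c2c_nss (InvAlg (dbl K)) g F hF
  obtain ⟨w, hw1, hw2⟩ := lift_point (dbl K) ℂ (IZ (InvAlg K))
    (fun k hk f hf => act_mem_IZ K k hk f hf) z (fun a ha => hz a (hg ha))
  have hw : Sum.elim (fun i => w (Sum.inl i)) (fun i => w (Sum.inr i)) = w := by
    ext (i | i) <;> rfl
  apply hzF
  rw [← hw2 F]
  have h2 := h (fun i => w (Sum.inl i)) (fun i => w (Sum.inr i))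
    (by
      intro G hG
      rw [hw]
      exact hw1 G hG)
    (by
      intro G hG
      rw [hw]
      have := hw2 G
      rw [hz G hG] at this
      exact this)
  rw [hw] at h2
  exact h2

/-- block diagonal matrices preserve the `ξ`-degree -/
theorem c2c_act_xihom (k : Matrix ν ν ℂ) {F : MvPolynomial (ν ⊕ ν) ℂ} {m : ℕ} (hF : XiHom F m) :
    XiHom (act (dblM k) F) m := by
  have hX : ∀ i : ν ⊕ ν, IsWeightedHomogeneous wxi (act (dblM k) (X i)) (wxi i) := by
    intro i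
    rw [act_X]
    refine Submodule.sum_mem (weightedHomogeneousSubmodule ℂ wxi (wxi i)) fun j _ => ?_
    rw [mem_weightedHomogeneousSubmodule]
    by_cases hij : dblM k i j = 0
    · rw [hij, C_0, zero_mul]
      exact isWeightedHomogeneous_zero ℂ wxi _
    · have h1 : wxi j = wxi i := by
        rcases i with i | i <;> rcases j with j | j
        · rfl
        · exact absurd rfl hij
        · exact absurd rfl hij
        · rfl
      have h2 := (isWeightedHomogeneous_C wxi (dblM k i j)).mul (isWeightedHomogeneous_X ℂ wxi j)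
      rw [zero_add, h1] at h2
      exact h2
  have hmon : ∀ (s : ν ⊕ ν →₀ ℕ) (c : ℂ), IsWeightedHomogeneous wxi (act (dblM k) (monomial s c))
      (Finsupp.weight wxi s) := by
    intro s c
    rw [monomial_eq, map_mul]
    have h1 : act (dblM k) (C c) = C c := by
      rw [act, aeval_C]; rfl
    rw [h1, Finsupp.prod, map_prod]
    have h2 : IsWeightedHomogeneous wxi (∏ i ∈ s.support, act (dblM k) (X i ^ s i))
        (∑ i ∈ s.support, s i • wxi i) := by
      apply IsWeightedHomogeneous.prod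
      intro i _
      rw [map_pow]
      exact (hX i).pow (s i)
    have h3 := (isWeightedHomogeneous_C wxi c).mul h2
    rw [zero_add] at h3
    rw [Finsupp.weight_apply, Finsupp.sum]
    exact h3
  unfold XiHom
  rw [F.as_sum, map_sum]
  refine Submodule.sum_mem (weightedHomogeneousSubmodule ℂ wxi m) fun s hs => ?_
  rw [mem_weightedHomogeneousSubmodule]
  have h1 := hF (mem_support_iff.1 hs)
  rw [← h1]
  exact hmon s _

/-- `ξ`-components of invariants are invariant -/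
theorem c2c_component_mem (K : Subgroup (Matrix.unitaryGroup ν ℂ)) {F : MvPolynomial (ν ⊕ ν) ℂ}
    (hF : F ∈ InvAlg (dbl K)) (m : ℕ) : weightedHomogeneousComponent wxi m F ∈ InvAlg (dbl K) := by
  intro k hk
  have hk' := hk
  obtain ⟨k0, hk0, rfl⟩ := hk
  have h1 := hF _ hk'
  have h2 : ∀ (G : MvPolynomial (ν ⊕ ν) ℂ), weightedHomogeneousComponent wxi m
      (act (dblM (k0 : Matrix ν ν ℂ)) G) = act (dblM (k0 : Matrix ν ν ℂ))
        (weightedHomogeneousComponent wxi m G) := by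
    intro G
    have hmon : ∀ s c, weightedHomogeneousComponent wxi m
        (act (dblM (k0 : Matrix ν ν ℂ)) (monomial s c)) = act (dblM (k0 : Matrix ν ν ℂ))
        (weightedHomogeneousComponent wxi m (monomial s c)) := by
      intro s c
      have h3 : IsWeightedHomogeneous wxi (monomial s c : MvPolynomial (ν ⊕ ν) ℂ)
          (Finsupp.weight wxi s) := isWeightedHomogeneous_monomial wxi s c rfl
      have h4 := c2c_act_xihom (k0 : Matrix ν ν ℂ) h3
      by_cases hm : m = Finsupp.weight wxi s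
      · subst hm
        rw [h3.weightedHomogeneousComponent_same, h4.weightedHomogeneousComponent_same]
      · rw [h3.weightedHomogeneousComponent_ne m hm, h4.weightedHomogeneousComponent_ne m hm,
          map_zero]
    rw [G.as_sum, map_sum, map_sum, map_sum, map_sum]
    exact Finset.sum_congr rfl fun s _ => hmon s _
  conv_rhs => rw [← h1]
  exact (h2 F).symm


/-- a generating set contains algebraically independent elements -/
theorem c2c_tb (Q : Type) [CommRing Q] [IsDomain Q] [Algebra ℂ Q] (S : Set Q)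
    (htop : Algebra.adjoin ℂ S = ⊤) (e : ℕ) (he : (e : Cardinal) ≤ Algebra.trdeg ℂ Q) :
    ∃ f : Fin e → Q, (∀ j, f j ∈ S) ∧ AlgebraicIndependent ℂ f := by
  have halg : Algebra.IsAlgebraic (Algebra.adjoin ℂ S) Q := by
    refine ⟨fun y => ?_⟩
    have hy : y ∈ Algebra.adjoin ℂ S := by rw [htop]; trivial
    exact isAlgebraic_algebraMap (⟨y, hy⟩ : Algebra.adjoin ℂ S)
  obtain ⟨t, htS, ht⟩ := exists_isTranscendenceBasis_subset (R := ℂ) S
  rw [← ht.cardinalMk_eq_trdeg] at he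
  have he' : Cardinal.mk (Fin e) ≤ Cardinal.mk t := by rwa [Cardinal.mk_fin]
  obtain ⟨f⟩ := Cardinal.le_def _ _ |>.1 he'
  exact ⟨fun j => (f j : Q), fun j => htS (f j).2, ht.1.comp f f.injective⟩

/-- algebraically independent `ξ`-homogeneous elements modulo `g` -/
theorem exists_xihom_independent (K : Subgroup (Matrix.unitaryGroup ν ℂ))
    (g : Ideal (InvAlg (dbl K))) [g.IsPrime] (e : ℕ)
    (he : (e : Cardinal) ≤ Algebra.trdeg ℂ (InvAlg (dbl K) ⧸ g)) :
    ∃ (q : Fin e → InvAlg (dbl K)) (w : Fin e → ℕ),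
      (∀ j, XiHom (q j : MvPolynomial (ν ⊕ ν) ℂ) (w j)) ∧
      AlgebraicIndependent ℂ fun j => Ideal.Quotient.mk g (q j) := by
  classical
  let S : Set (InvAlg (dbl K) ⧸ g) := {y | ∃ (q : InvAlg (dbl K)) (m : ℕ),
    XiHom (q : MvPolynomial (ν ⊕ ν) ℂ) m ∧ Ideal.Quotient.mk g q = y}
  have htop : Algebra.adjoin ℂ S = ⊤ := by
    rw [eq_top_iff]
    rintro y -
    obtain ⟨F, rfl⟩ := Ideal.Quotient.mk_surjective y
    have h1 := sum_weightedHomogeneousComponent wxi (F : MvPolynomial (ν ⊕ ν) ℂ)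
    rw [finsum_eq_sum _ (weightedHomogeneousComponent_finsupp _)] at h1
    set T := (weightedHomogeneousComponent_finsupp (w := wxi)
      (F : MvPolynomial (ν ⊕ ν) ℂ)).toFinset with hT
    have h2 : F = ∑ m ∈ T, (⟨weightedHomogeneousComponent wxi m (F : MvPolynomial (ν ⊕ ν) ℂ),
        c2c_component_mem K F.2 m⟩ : InvAlg (dbl K)) := by
      apply Subtype.ext
      rw [AddSubmonoidClass.coe_finsetSum]
      exact h1.symm
    rw [h2, map_sum]
    refine Subalgebra.sum_mem _ fun m _ => Algebra.subset_adjoin ⟨_, m, ?_, rfl⟩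
    exact weightedHomogeneousComponent_isWeightedHomogeneous m _
  obtain ⟨f, hfS, hf⟩ := c2c_tb (InvAlg (dbl K) ⧸ g) S htop e he
  choose q w hqw hq using hfS
  refine ⟨q, w, hqw, ?_⟩
  have h4 : (fun j => Ideal.Quotient.mk g (q j)) = f := funext hq
  rw [h4]
  exact hf

/-- restriction of operators -/
theorem c2c_DOp_restrict {A : Subalgebra ℂ (MvPolynomial ν ℂ)} {n : ℕ} :
    ∀ {Q : Module.End ℂ (MvPolynomial ν ℂ)} {P : Module.End ℂ A},
    (∀ a : A, Q a = ((P a : A) : MvPolynomial ν ℂ)) → DOp n Q → DOp n P := by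
  induction n with
  | zero =>
    intro Q P h hQ
    rw [DOp_zero_iff] at *
    ext a
    rw [← h, hQ]
    rfl
  | succ n ih =>
    intro Q P h hQ f
    exact ih (fun a => ad_restrict h f a) (hQ f)

/-- the operator on `A` given by an invariant symbol -/
noncomputable def c2c_resOp (K : Subgroup (Matrix.unitaryGroup ν ℂ)) :
    InvAlg (dbl K) →ₗ[ℂ] Module.End ℂ (InvAlg K) where
  toFun F :=
    { toFun := fun a => ⟨Op (F : MvPolynomial (ν ⊕ ν) ℂ) a, Op_mem_InvAlg K F F.2 a a.2⟩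
      map_add' := fun a b => Subtype.ext (by simp)
      map_smul' := fun c a => Subtype.ext (by simp) }
  map_add' F G := by
    ext a
    simp
  map_smul' c F := by
    ext a
    simp

theorem c2c_resOp_apply (K : Subgroup (Matrix.unitaryGroup ν ℂ)) (F : InvAlg (dbl K)) (a : InvAlg K) :
    Op (F : MvPolynomial (ν ⊕ ν) ℂ) a = ((c2c_resOp K F a : InvAlg K) : MvPolynomial ν ℂ) := rfl

/-- the top component of the symbol -/
theorem c2c_top (K : Subgroup (Matrix.unitaryGroup ν ℂ)) (hS : Surj (InvAlg K)) (b b' : InvAlg K)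
    (g : Ideal (InvAlg (dbl K))) [g.IsPrime] (hg : IZK K ≤ g) (hbg : inA K b ∈ g)
    (hbg' : inA K b' ∈ g) {P₁ P₂ : Module.End ℂ (InvAlg K)} (hP₁ : ∃ n, DOp n P₁)
    (hP₂ : ∃ n, DOp n P₂) (F H : InvAlg (dbl K)) (m : ℕ)
    (hF : XiHom (F : MvPolynomial (ν ⊕ ν) ℂ) m) (hH : DOp m (Op (H : MvPolynomial (ν ⊕ ν) ℂ)))
    (h : ∀ a, c2c_resOp K (F + H) a = b * P₁ a + b' * P₂ a) : F ∈ g := by
  apply mem_of_vanish K g hg
  intro x ξ hz hx
  have := invAlg_finiteType K
  obtain ⟨Q₁, hQ₁, hPQ₁⟩ := hS P₁ hP₁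
  obtain ⟨Q₂, hQ₂, hPQ₂⟩ := hS P₂ hP₂
  have h1 : DOp (m + 1) (Op ((F + H : InvAlg (dbl K)) : MvPolynomial (ν ⊕ ν) ℂ)) := by
    rw [Subalgebra.coe_add, map_add]
    exact (DOp_Op hF).add hH.succ
  refine kl (InvAlg K) (P := c2c_resOp K (F + H)) ⟨_, h1⟩ hQ₁ hQ₂ (fun a => c2c_resOp_apply K _ a)
    hPQ₁ hPQ₂ b b' h (c2c_DOp_restrict (fun a => c2c_resOp_apply K _ a) h1) F ?_ x ξ hz ?_ ?_
  · intro a
    rw [← symb_restrict (fun a => c2c_resOp_apply K (F + H) a) a m, Subalgebra.coe_add, map_add,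
      ← symb_Op hF]
    unfold symb
    rw [adI_add, hH.adI_eq_zero _ le_rfl, add_zero]
  · have := hx _ hbg
    simpa [inA, inS, eval_rename] using this
  · have := hx _ hbg'
    simpa [inA, inS, eval_rename] using this

/-- powers -/
noncomputable def c2c_mono (K : Subgroup (Matrix.unitaryGroup ν ℂ)) {e : ℕ}
    (q : Fin e → InvAlg (dbl K)) {s : ℕ} (α : Fin e → Fin (s + 1)) : InvAlg (dbl K) :=
  ∏ j, q j ^ (α j : ℕ)

theorem c2c_mono_coe (K : Subgroup (Matrix.unitaryGroup ν ℂ)) {e : ℕ}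
    (q : Fin e → InvAlg (dbl K)) {s : ℕ} (α : Fin e → Fin (s + 1)) :
    (c2c_mono K q α : MvPolynomial (ν ⊕ ν) ℂ) =
      ∏ j, (q j : MvPolynomial (ν ⊕ ν) ℂ) ^ (α j : ℕ) := by
  unfold c2c_mono
  rw [SubmonoidClass.coe_finsetProd]
  rfl

theorem c2c_mono_xihom (K : Subgroup (Matrix.unitaryGroup ν ℂ)) {e : ℕ}
    (q : Fin e → InvAlg (dbl K)) (w : Fin e → ℕ)
    (hqw : ∀ j, XiHom (q j : MvPolynomial (ν ⊕ ν) ℂ) (w j)) {s : ℕ} (α : Fin e → Fin (s + 1)) :
    XiHom (c2c_mono K q α : MvPolynomial (ν ⊕ ν) ℂ) (∑ j, (α j : ℕ) • w j) := by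
  rw [c2c_mono_coe]
  unfold XiHom
  apply IsWeightedHomogeneous.prod
  intro j _
  exact (hqw j).pow _

/-- linear independence modulo `b D + b' D` -/
theorem c2c_core (K : Subgroup (Matrix.unitaryGroup ν ℂ)) (hS : Surj (InvAlg K)) (b b' : InvAlg K)
    (g : Ideal (InvAlg (dbl K))) [g.IsPrime] (hg : IZK K ≤ g) (hbg : inA K b ∈ g)
    (hbg' : inA K b' ∈ g) {e : ℕ} (q : Fin e → InvAlg (dbl K)) (w : Fin e → ℕ)
    (hqw : ∀ j, XiHom (q j : MvPolynomial (ν ⊕ ν) ℂ) (w j))
    (hq : AlgebraicIndependent ℂ fun j => Ideal.Quotient.mk g (q j)) (s : ℕ)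
    (l : (Fin e → Fin (s + 1)) → ℂ) {P₁ P₂ : Module.End ℂ (InvAlg K)} (hP₁ : ∃ n, DOp n P₁)
    (hP₂ : ∃ n, DOp n P₂)
    (h : ∀ a, c2c_resOp K (∑ α, l α • c2c_mono K q α) a = b * P₁ a + b' * P₂ a) : l = 0 := by
  classical
  by_contra hl
  set wt : (Fin e → Fin (s + 1)) → ℕ := fun α => ∑ j, (α j : ℕ) • w j with hwt
  have hne : (Finset.univ.filter fun α => l α ≠ 0).Nonempty := by
    by_contra hne
    rw [Finset.not_nonempty_iff_eq_empty, Finset.filter_eq_empty_iff] at hne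
    apply hl
    funext α
    have := hne (Finset.mem_univ α)
    simpa using this
  obtain ⟨α₀, hα₀, hmax⟩ := Finset.exists_max_image _ wt hne
  have hlα₀ : l α₀ ≠ 0 := (Finset.mem_filter.1 hα₀).2
  set m := wt α₀ with hm
  set F : InvAlg (dbl K) := ∑ α ∈ Finset.univ.filter (fun α => wt α = m), l α • c2c_mono K q α
    with hFdef
  set H : InvAlg (dbl K) := ∑ α ∈ Finset.univ.filter (fun α => ¬ wt α = m), l α • c2c_mono K q α
    with hHdef
  have hFH : F + H = ∑ α, l α • c2c_mono K q α := Finset.sum_filter_add_sum_filter_not _ _ _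
  have hF : XiHom (F : MvPolynomial (ν ⊕ ν) ℂ) m := by
    rw [hFdef, AddSubmonoidClass.coe_finsetSum]
    refine Submodule.sum_mem (weightedHomogeneousSubmodule ℂ wxi m) fun α hα => ?_
    rw [Subalgebra.coe_smul]
    apply Submodule.smul_mem
    rw [mem_weightedHomogeneousSubmodule]
    have := c2c_mono_xihom K q w hqw α
    rw [← (Finset.mem_filter.1 hα).2]
    exact this
  have hH : DOp m (Op (H : MvPolynomial (ν ⊕ ν) ℂ)) := by
    rw [hHdef, AddSubmonoidClass.coe_finsetSum, map_sum]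
    refine DOp.sum _ fun α hα => ?_
    rw [Subalgebra.coe_smul, map_smul]
    by_cases h0 : l α = 0
    · rw [h0, zero_smul]
      exact DOp.zero _
    · have h1 : wt α ≤ m := hmax α (Finset.mem_filter.2 ⟨Finset.mem_univ _, h0⟩)
      have h2 : wt α ≠ m := (Finset.mem_filter.1 hα).2
      exact ((DOp_Op (c2c_mono_xihom K q w hqw α)).mono (show wt α + 1 ≤ m by omega)).smul _
  have hmem : F ∈ g := c2c_top K hS b b' g hg hbg hbg' hP₁ hP₂ F H m hF hH
    (fun a => by rw [hFH]; exact h a)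
  let ex : (Fin e → Fin (s + 1)) → (Fin e →₀ ℕ) := fun α =>
    Finsupp.equivFunOnFinite.symm fun j => (α j : ℕ)
  have hex : Function.Injective ex := by
    intro α β hαβ
    funext j
    have := DFunLike.congr_fun hαβ j
    exact Fin.ext this
  let P : MvPolynomial (Fin e) ℂ :=
    ∑ α ∈ Finset.univ.filter (fun α => wt α = m), monomial (ex α) (l α)
  have hP : aeval (fun j => Ideal.Quotient.mk g (q j)) P = 0 := by
    have h1 : Ideal.Quotient.mk g F = 0 := Ideal.Quotient.eq_zero_iff_mem.2 hmem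
    rw [← h1, hFdef, map_sum, map_sum]
    refine Finset.sum_congr rfl fun α _ => ?_
    rw [aeval_monomial, Finsupp.prod_fintype _ _ (fun j => pow_zero _)]
    have h2 : Ideal.Quotient.mk g (l α • c2c_mono K q α) =
        algebraMap ℂ (InvAlg (dbl K) ⧸ g) (l α) * Ideal.Quotient.mk g (c2c_mono K q α) := by
      rw [Algebra.smul_def, map_mul]
      rfl
    rw [h2]
    congr 1
    unfold c2c_mono
    rw [map_prod]
    refine Finset.prod_congr rfl fun j _ => ?_
    rw [map_pow]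
    rfl
  have hP0 : P = 0 := (algebraicIndependent_iff.1 hq) P hP
  have hc : coeff (ex α₀) P = l α₀ := by
    rw [coeff_sum, Finset.sum_eq_single α₀]
    · rw [coeff_monomial, if_pos rfl]
    · intro α _ hα
      rw [coeff_monomial, if_neg (fun h => hα (hex h))]
    · intro hn
      exact (hn (Finset.mem_filter.2 ⟨Finset.mem_univ α₀, hm.symm⟩)).elim
  rw [hP0, coeff_zero] at hc
  exact hlα₀ hc.symm

/-- **(C2)** -/
theorem c2 (K : Subgroup (Matrix.unitaryGroup ν ℂ)) {d : ℕ} (hd : Algebra.trdeg ℂ (InvAlg K) = d)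
    (hS : Surj (InvAlg K)) (b b' : InvAlg K) (hb : b ≠ 0) (hreg : ∀ v, b ∣ b' * v → b ∣ v)
    (g : Ideal (InvAlg (dbl K))) [g.IsPrime] (hg : IZK K ≤ g) (hbg : inA K b ∈ g)
    (hbg' : inA K b' ∈ g) :
    ¬ ((2 * d : ℕ) : Cardinal) ≤ Algebra.trdeg ℂ (InvAlg (dbl K) ⧸ g) + 1 := by
  classical
  intro hle
  have hunit : ∀ u : InvAlg K, IsUnit u → inA K u ∉ g := fun u hu hmem =>
    Ideal.IsPrime.ne_top ‹_› (Ideal.eq_top_of_isUnit_mem _ hmem (hu.map (inA K)))
  have hb' : b' ≠ 0 := by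
    rintro rfl
    have := hreg 1 (by simp)
    exact hunit b (isUnit_of_dvd_one this) hbg
  have hd0 : d ≠ 0 := by
    rintro rfl
    have halg : Algebra.IsAlgebraic ℂ (InvAlg K) := by
      rw [← trdeg_eq_zero_iff, hd]
      simp
    have hint : Algebra.IsIntegral ℂ (InvAlg K) := halg.isIntegral
    have hbij := IsAlgClosed.algebraMap_bijective_of_isIntegral (k := ℂ) (K := InvAlg K)
    obtain ⟨c, hc⟩ := hbij.2 b
    have hc0 : c ≠ 0 := by
      rintro rfl
      exact hb (by rw [← hc, map_zero])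
    exact hunit b (hc ▸ (IsUnit.mk0 c hc0).map (algebraMap ℂ (InvAlg K))) hbg
  obtain ⟨e, he⟩ : ∃ e, 2 * d = e + 1 := ⟨2 * d - 1, by omega⟩
  have hle' : (e : Cardinal) ≤ Algebra.trdeg ℂ (InvAlg (dbl K) ⧸ g) := by
    rw [he, Nat.cast_add, Nat.cast_one,
      Cardinal.add_le_add_iff_of_lt_aleph0 Cardinal.one_lt_aleph0] at hle
    exact hle
  obtain ⟨q, w, hqw, hq⟩ := exists_xihom_independent K g e hle'
  obtain ⟨hfin, C, hC⟩ := finrank_EE_le K hd
  set D₀ : ℕ := 1 + ∑ j, ((q j : MvPolynomial (ν ⊕ ν) ℂ).totalDegree + w j) with hD₀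
  have hD₀pos : 0 < 2 * D₀ := by omega
  refine no_growth (fun n M => Module.finrank ℂ (EE (InvAlg K) n M))
    (fun n => (n / (2 * D₀) + 1) ^ e) C ((2 * D₀) ^ e)
    (b : MvPolynomial ν ℂ).totalDegree (b' : MvPolynomial ν ℂ).totalDegree e (by positivity)
    ?_ ?_ ?_ ?_
  · intro n M
    have := hfin n (M + 1)
    apply Submodule.finrank_mono
    intro P hP
    exact ⟨hP.1, fun a => (hP.2 a).trans (by omega)⟩
  · intro n M
    rw [← he]
    exact hC n M
  · intro n
    show n ^ e ≤ (2 * D₀) ^ e * (n / (2 * D₀) + 1) ^ e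
    rw [← mul_pow]
    exact Nat.pow_le_pow_left (Nat.lt_mul_div_succ n hD₀pos).le e
  · intro n M hn2M hMn hββ
    set s := n / (2 * D₀) with hs
    have hsn : s * (2 * D₀) ≤ n := Nat.div_mul_le_self n (2 * D₀)
    have hsD : s * D₀ ≤ M := by nlinarith
    have hsD' : s * D₀ ≤ n := by nlinarith
    let Φ : ((Fin e → Fin (s + 1)) → ℂ) →ₗ[ℂ] Module.End ℂ (InvAlg K) :=
      (c2c_resOp K) ∘ₗ (Fintype.linearCombination ℂ (fun α => c2c_mono K q α))
    have hΦ : ∀ l, Φ l = c2c_resOp K (∑ α, l α • c2c_mono K q α) := fun l => by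
      show c2c_resOp K (Fintype.linearCombination ℂ (fun α => c2c_mono K q α) l) = _
      rw [Fintype.linearCombination_apply]
    have hcore : ∀ l, ∀ P₁ P₂ : Module.End ℂ (InvAlg K), DOp (n + 1) P₁ → DOp (n + 1) P₂ →
        (∀ a, Φ l a = b * P₁ a + b' * P₂ a) → l = 0 := by
      intro l P₁ P₂ h₁ h₂ h
      refine c2c_core K hS b b' g hg hbg hbg' q w hqw hq s l ⟨_, h₁⟩ ⟨_, h₂⟩ fun a => ?_
      rw [← hΦ]
      exact h a
    have hinj : Function.Injective Φ := by
      rw [injective_iff_map_eq_zero]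
      intro l hl
      refine hcore l 0 0 (DOp.zero _) (DOp.zero _) fun a => ?_
      rw [hl]
      simp
    have hrank : Module.finrank ℂ (LinearMap.range Φ) = (s + 1) ^ e := by
      rw [LinearMap.finrank_range_of_inj hinj, Module.finrank_fintype_fun_eq_card]
      simp
    have hU : LinearMap.range Φ ≤ EE (InvAlg K) n M := by
      rintro _ ⟨l, rfl⟩
      rw [hΦ, map_sum]
      refine Submodule.sum_mem _ fun α _ => ?_
      rw [map_smul]
      apply Submodule.smul_mem
      have hle1 : ∀ j, ((α j : ℕ)) ≤ s := fun j => Nat.lt_succ_iff.1 (α j).2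
      constructor
      · refine c2c_DOp_restrict (fun a => c2c_resOp_apply K _ a)
          ((DOp_Op (c2c_mono_xihom K q w hqw α)).mono ?_)
        have h1 : ∑ j, (α j : ℕ) • w j ≤ s * D₀ := by
          calc ∑ j, (α j : ℕ) • w j ≤ ∑ j, s * ((q j : MvPolynomial (ν ⊕ ν) ℂ).totalDegree + w j) := by
                refine Finset.sum_le_sum fun j _ => ?_
                rw [smul_eq_mul]
                exact Nat.mul_le_mul (hle1 j) (by omega)
            _ = s * ∑ j, ((q j : MvPolynomial (ν ⊕ ν) ℂ).totalDegree + w j) := by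
                rw [Finset.mul_sum]
            _ ≤ s * D₀ := Nat.mul_le_mul_left _ (by omega)
        omega
      · intro a
        have h2 := totalDegree_Op_le (c2c_mono K q α : MvPolynomial (ν ⊕ ν) ℂ)
          (a : MvPolynomial ν ℂ)
        rw [c2c_resOp_apply] at h2
        have h3 : (c2c_mono K q α : MvPolynomial (ν ⊕ ν) ℂ).totalDegree ≤ s * D₀ := by
          rw [c2c_mono_coe]
          calc (∏ j, (q j : MvPolynomial (ν ⊕ ν) ℂ) ^ (α j : ℕ)).totalDegree
              ≤ ∑ j, ((q j : MvPolynomial (ν ⊕ ν) ℂ) ^ (α j : ℕ)).totalDegree :=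
                totalDegree_finsetProd _ _
            _ ≤ ∑ j, s * ((q j : MvPolynomial (ν ⊕ ν) ℂ).totalDegree + w j) := by
                refine Finset.sum_le_sum fun j _ => ?_
                exact (totalDegree_pow _ _).trans (Nat.mul_le_mul (hle1 j) (by omega))
            _ = s * ∑ j, ((q j : MvPolynomial (ν ⊕ ν) ℂ).totalDegree + w j) := by
                rw [Finset.mul_sum]
            _ ≤ s * D₀ := Nat.mul_le_mul_left _ (by omega)
        omega
    have h4 := finrank_le_second_difference (InvAlg K) hfin b b' hb hb' hreg n M hββ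
      (LinearMap.range Φ) hU (by
        rintro _ ⟨l, rfl⟩ ⟨P₁, P₂, h₁, h₂, h⟩
        rw [hcore l P₁ P₂ h₁ h₂ h, map_zero])
    rw [hrank] at h4
    exact h4

end H50.Z
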