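import Mathlib

/-! Tools for (DESC): coefficientwise derivations, chain rule, factorization of homomorphisms. -/

open MvPolynomial

set_option linter.unusedSectionVars false

namespace H50.Z.D1

section chain

variable {ν : Type} [Fintype ν]

/-- chain rule -/
theorem deriv_aeval {B : Type*} [CommRing B] [Algebra ℂ B] (Δ : Derivation ℂ B B) (y : ν → B)
    (a : MvPolynomial ν ℂ) : Δ (aeval y a) = ∑ i, aeval y (pderiv i a) * Δ (y i) := by
  classical
  induction a using MvPolynomial.induction_on with
  | C r => simp
  | add p q hp hq =>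
    rw [map_add, map_add, hp, hq, ← Finset.sum_add_distrib]
    refine Finset.sum_congr rfl fun i _ => ?_
    rw [map_add, map_add, add_mul]
  | mul_X p j hp =>
    rw [map_mul, aeval_X, Derivation.leibniz, hp]
    have h1 : ∀ i, aeval y (pderiv i (p * X j)) * Δ (y i) =
        (if i = j then aeval y p * Δ (y j) else 0) + y j * (aeval y (pderiv i p) * Δ (y i)) := by
      intro i
      rw [Derivation.leibniz, map_add]
      simp only [smul_eq_mul, map_mul, aeval_X, pderiv_X, Pi.single_apply]
      by_cases hij : i = j
      · subst hij; simp; ring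
      · simp [hij, Ne.symm hij]; ring
    simp only [h1]
    rw [Finset.sum_add_distrib, Finset.sum_ite_eq', ← Finset.mul_sum]
    simp [smul_eq_mul]

end chain

section coeffwise

variable {ν B : Type*} [CommRing B] [Algebra ℂ B]

/-- the ring homomorphism to the dual numbers given by a derivation -/
noncomputable def dualHom (D : Derivation ℂ B B) :
    B →+* TrivSqZeroExt (MvPolynomial ν B) (MvPolynomial ν B) where
  toFun b := TrivSqZeroExt.inl (C b) + TrivSqZeroExt.inr (C (D b))
  map_one' := by
    ext <;> simp
  map_mul' a b := by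
    ext
    · simp
    · simp [mul_comm]
  map_zero' := by
    ext <;> simp
  map_add' a b := by
    ext <;> simp

/-- the homomorphism on polynomials -/
noncomputable def dualHomP (D : Derivation ℂ B B) :
    MvPolynomial ν B →+* TrivSqZeroExt (MvPolynomial ν B) (MvPolynomial ν B) :=
  eval₂Hom (dualHom D) (fun i => TrivSqZeroExt.inl (X i))

theorem fst_dualHomP (D : Derivation ℂ B B) (f : MvPolynomial ν B) :
    (dualHomP D f).fst = f := by
  induction f using MvPolynomial.induction_on with
  | C r => simp [dualHomP, dualHom]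
  | add p q hp hq => rw [map_add, TrivSqZeroExt.fst_add, hp, hq]
  | mul_X p i hp =>
    rw [map_mul, TrivSqZeroExt.fst_mul, hp]
    simp [dualHomP]

/-- extension of a derivation to polynomials, coefficientwise -/
theorem exists_coeffwise (D : Derivation ℂ B B) :
    ∃ Δ : Derivation ℂ (MvPolynomial ν B) (MvPolynomial ν B), (∀ b, Δ (C b) = C (D b)) ∧
      ∀ i, Δ (X i) = 0 := by
  have hC : ∀ b, (dualHomP (ν := ν) D (C b)).snd = C (D b) := by
    intro b
    simp [dualHomP, dualHom]
  refine ⟨{ toFun := fun f => (dualHomP D f).snd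
            map_add' := fun f g => by rw [map_add, TrivSqZeroExt.snd_add]
            map_smul' := fun r f => ?_
            map_one_eq_zero' := ?_
            leibniz' := fun f g => ?_ }, hC, ?_⟩
  · have h1 : r • f = C (algebraMap ℂ B r) * f := by
      rw [Algebra.smul_def]; rfl
    rw [h1, map_mul, TrivSqZeroExt.snd_mul, fst_dualHomP, fst_dualHomP, hC]
    rw [Derivation.map_algebraMap, map_zero, smul_zero, add_zero, smul_eq_mul, RingHom.id_apply,
      Algebra.smul_def]
    rfl
  · show (dualHomP D (1 : MvPolynomial ν B)).snd = 0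
    rw [map_one, TrivSqZeroExt.snd_one]
  · show (dualHomP D (f * g)).snd = f • (dualHomP D g).snd + g • (dualHomP D f).snd
    rw [map_mul, TrivSqZeroExt.snd_mul, fst_dualHomP, fst_dualHomP]
    simp [mul_comm]
  · intro i
    show (dualHomP D (X i)).snd = 0
    simp [dualHomP]

end coeffwise

section laurent

variable {L : Type*} [Field L] [Algebra ℂ L]

theorem supp_D (D : Derivation ℂ L L) (f : LaurentSeries L) :
    Function.support (fun n => D (f.coeff n)) ⊆ HahnSeries.support f := by
  intro n hn
  rw [Function.mem_support] at hn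
  rw [HahnSeries.mem_support]
  intro h
  apply hn
  rw [h, map_zero]

/-- coefficientwise derivation on Laurent series -/
noncomputable def lmap (D : Derivation ℂ L L) (f : LaurentSeries L) : LaurentSeries L :=
  { coeff := fun n => D (f.coeff n)
    isPWO_support' := f.isPWO_support.mono (supp_D D f) }

theorem lmap_coeff (D : Derivation ℂ L L) (f : LaurentSeries L) (n : ℤ) :
    (lmap D f).coeff n = D (f.coeff n) := rfl

theorem lmap_supp (D : Derivation ℂ L L) (f : LaurentSeries L) :
    (lmap D f).support ⊆ f.support := supp_D D f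

theorem lmap_add (D : Derivation ℂ L L) (f g : LaurentSeries L) :
    lmap D (f + g) = lmap D f + lmap D g := by
  ext n
  simp [lmap_coeff]

theorem lmap_mul (D : Derivation ℂ L L) (f g : LaurentSeries L) :
    lmap D (f * g) = f * lmap D g + g * lmap D f := by
  ext n
  rw [mul_comm g, lmap_coeff, HahnSeries.coeff_add, HahnSeries.coeff_mul,
    HahnSeries.coeff_mul_right' g.isPWO_support (lmap_supp D g),
    HahnSeries.coeff_mul_left' f.isPWO_support (lmap_supp D f), map_sum,
    ← Finset.sum_add_distrib]
  refine Finset.sum_congr rfl fun ij _ => ?_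
  rw [Derivation.leibniz, lmap_coeff, lmap_coeff, smul_eq_mul, smul_eq_mul, mul_comm (g.coeff ij.2)]

theorem algebraMap_laurent (l : L) : algebraMap L (LaurentSeries L) l = HahnSeries.C l := by
  rw [HahnSeries.algebraMap_apply']
  simp

theorem algebraMap_laurentC (r : ℂ) :
    algebraMap ℂ (LaurentSeries L) r = HahnSeries.C (algebraMap ℂ L r) := by
  rw [HahnSeries.algebraMap_apply']
  rw [PowerSeries.algebraMap_apply, HahnSeries.ofPowerSeries_C]

theorem lmap_C (D : Derivation ℂ L L) (l : L) :
    lmap D (HahnSeries.C l) = HahnSeries.C (D l) := by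
  ext n
  rw [lmap_coeff, HahnSeries.C_apply, HahnSeries.C_apply]
  by_cases hn : n = 0
  · subst hn
    rw [HahnSeries.coeff_single_same, HahnSeries.coeff_single_same]
  · rw [HahnSeries.coeff_single_of_ne hn, HahnSeries.coeff_single_of_ne hn, map_zero]

/-- the power series with differentiated coefficients -/
theorem lmap_coe (D : Derivation ℂ L L) (f : PowerSeries L) :
    lmap D (f : LaurentSeries L) =
      ((PowerSeries.mk fun n => D (PowerSeries.coeff n f) : PowerSeries L) : LaurentSeries L) := by
  ext n
  rw [lmap_coeff, PowerSeries.coeff_coe, PowerSeries.coeff_coe]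
  split_ifs
  · rw [map_zero]
  · rw [PowerSeries.coeff_mk]

end laurent

section lift

/-- factorization through the image -/
theorem exists_lift {k A T C : Type*} [Field k] [CommRing A] [CommRing T] [CommRing C] [Algebra k A]
    [Algebra k T] [Algebra k C] (ψ : A →ₐ[k] T) (g : A →ₐ[k] C)
    (h : ∀ a, ψ a = 0 → g a = 0) :
    ∃ z : ψ.range →ₐ[k] C, ∀ a, z ⟨ψ a, ⟨a, rfl⟩⟩ = g a := by
  have hs : Function.Surjective ψ.rangeRestrict := AlgHom.rangeRestrict_surjective ψ
  let e := Ideal.quotientKerAlgEquivOfSurjective hs
  have hk : ∀ a ∈ RingHom.ker ψ.rangeRestrict, g a = 0 := by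
    intro a ha
    apply h
    rw [RingHom.mem_ker] at ha
    exact congrArg Subtype.val ha
  refine ⟨(Ideal.Quotient.liftₐ _ g hk).comp (e.symm : ψ.range →ₐ[k] _), ?_⟩
  intro a
  have h1 : e (Ideal.Quotient.mk _ a) = ⟨ψ a, ⟨a, rfl⟩⟩ := rfl
  rw [← h1, AlgHom.comp_apply]
  have h2 : ∀ q, (e.symm : ψ.range →ₐ[k] (A ⧸ RingHom.ker ψ.rangeRestrict)) (e q) = q :=
    fun q => e.symm_apply_apply q
  rw [h2]
  rfl

end lift

end H50.Z.D1
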