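import Pool.Agent.H50.Z.Z1_Good
import Pool.Agent.H50.Z.L1_Arc
import Pool.Agent.H50.Z.D1x_Tools

/-! (DESC, first part) The one-form `∑ ξ_i dx_i` is constant on orbit closures in `Z`. -/

open MvPolynomial H50.DO

set_option linter.unusedSectionVars false

namespace H50.Z

variable {ν : Type} [Fintype ν] [DecidableEq ν]

namespace D1

/-- substitution as evaluation -/
theorem act_eq_aeval {B : Type*} [CommRing B] [Algebra ℂ B] (G : Matrix ν ν B)
    (a : MvPolynomial ν ℂ) :
    act G (map (algebraMap ℂ B) a) = aeval (fun i => ∑ j, (C (G i j) * X j : MvPolynomial ν B)) a := by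
  rw [act, aeval_map_algebraMap]

theorem act_map_ringHom {B B' : Type*} [CommRing B] [CommRing B'] (f : B →+* B')
    (G : Matrix ν ν B) (P : MvPolynomial ν B) :
    map f (act G P) = act (G.map f) (map f P) := by
  induction P using MvPolynomial.induction_on with
  | C a => simp [act]
  | add p q hp hq => rw [map_add, map_add, hp, hq, map_add, map_add]
  | mul_X p i hp =>
    rw [map_mul, map_mul, hp, map_mul, map_X, map_mul, act_X, act_X, map_sum]
    congr 1
    apply Finset.sum_congr rfl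
    intro j _
    rw [map_mul, map_C, map_X, Matrix.map_apply]

theorem map_eq_aeval {B : Type*} [CommRing B] [Algebra ℂ B] (a : MvPolynomial ν ℂ) :
    map (algebraMap ℂ B) a = aeval (X : ν → MvPolynomial ν B) a := by
  induction a using MvPolynomial.induction_on with
  | C r => rw [map_C, aeval_C]; rfl
  | add p q hp hq => rw [map_add, map_add, hp, hq]
  | mul_X p i hp => rw [map_mul, map_mul, hp, map_X, aeval_X]

theorem aeval_eq_eval' {σ L : Type*} [CommRing L] (z : σ → L) (F : MvPolynomial σ L) :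
    aeval z F = eval z F := by
  rw [← coe_aeval_eq_eval]; rfl

/-- a derivation from an additive map -/
noncomputable def mkDer {B : Type*} [CommRing B] [Algebra ℂ B] (δ : B → B)
    (hadd : ∀ f g, δ (f + g) = δ f + δ g) (hmul : ∀ f g, δ (f * g) = f * δ g + g * δ f)
    (hc : ∀ r : ℂ, δ (algebraMap ℂ B r) = 0) : Derivation ℂ B B where
  toFun := δ
  map_add' := hadd
  map_smul' r f := by
    rw [Algebra.smul_def, hmul, hc, mul_zero, add_zero, Algebra.smul_def]
    rfl
  map_one_eq_zero' := by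
    have := hc 1
    rwa [map_one] at this
  leibniz' := hmul

theorem core (A : Subalgebra ℂ (MvPolynomial ν ℂ)) {B : Type} [CommRing B] [IsDomain B] [Algebra ℂ B]
    (δ : Derivation ℂ B B) (G G' : Matrix ν ν B) (h1 : G * G'.transpose = 1)
    (h2 : G'.transpose * G = 1)
    (hG : ∀ a ∈ A, act G (map (algebraMap ℂ B) a) = map (algebraMap ℂ B) a)
    (x ξ : ν → B) (hz : IsZ A x ξ) :
    ∑ i, G'.mulVec ξ i * δ (G.mulVec x i) = ∑ i, ξ i * δ (x i) := by
  obtain ⟨Δ, hΔC, hΔX⟩ := exists_coeffwise (ν := ν) δ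
  let y : ν → MvPolynomial ν B := fun i => ∑ j, C (G i j) * X j
  have hya : ∀ a ∈ A, aeval y a = map (algebraMap ℂ B) a := by
    intro a ha
    rw [← hG a ha, act_eq_aeval]
  have hmap : ∀ a : MvPolynomial ν ℂ, map (algebraMap ℂ B) a = aeval (X : ν → MvPolynomial ν B) a := by
    intro a
    exact map_eq_aeval a
  -- (1)
  have e1 : ∀ a ∈ A, ∑ i, aeval y (pderiv i a) * ∑ j, C (δ (G i j)) * X j = 0 := by
    intro a ha
    have h3 := deriv_aeval Δ y a
    rw [hya a ha, hmap, deriv_aeval Δ X a] at h3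
    simp only [hΔX, mul_zero, Finset.sum_const_zero] at h3
    rw [h3]
    refine Finset.sum_congr rfl fun i _ => ?_
    congr 1
    rw [map_sum]
    refine Finset.sum_congr rfl fun j _ => ?_
    rw [Derivation.leibniz, hΔX, hΔC, smul_zero, zero_add, smul_eq_mul, mul_comm]
  -- (2)
  have e2 : ∀ a ∈ A, ∀ l, map (algebraMap ℂ B) (pderiv l a) =
      ∑ i, aeval y (pderiv i a) * C (G i l) := by
    intro a ha l
    have h3 := deriv_aeval ((pderiv l : Derivation B (MvPolynomial ν B) (MvPolynomial ν B)).restrictScalars ℂ) y a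
    rw [hya a ha] at h3
    have h4 : ((pderiv l : Derivation B (MvPolynomial ν B) (MvPolynomial ν B)).restrictScalars ℂ)
        (map (algebraMap ℂ B) a) = map (algebraMap ℂ B) (pderiv l a) := by
      show pderiv l (map (algebraMap ℂ B) a) = _
      rw [pderiv_map]
    rw [h4] at h3
    rw [h3]
    refine Finset.sum_congr rfl fun i _ => ?_
    congr 1
    show pderiv l (∑ j, C (G i j) * X j) = C (G i l)
    rw [map_sum, Finset.sum_eq_single l]
    · rw [pderiv_C_mul, pderiv_X_self, mul_one]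
    · intro j _ hj
      rw [pderiv_C_mul, pderiv_X_of_ne hj, mul_zero]
    · intro h; exact absurd (Finset.mem_univ _) h
  have h1' : ∀ i i', ∑ l, G i l * G' i' l = if i = i' then 1 else 0 := by
    intro i i'
    have := congrFun (congrFun h1 i) i'
    rw [Matrix.mul_apply, Matrix.one_apply] at this
    simpa [Matrix.transpose_apply] using this
  have h2' : ∀ l m, ∑ i, G' i l * G i m = if l = m then 1 else 0 := by
    intro l m
    have := congrFun (congrFun h2 l) m
    rw [Matrix.mul_apply, Matrix.one_apply] at this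
    simpa [Matrix.transpose_apply] using this
  let M : Matrix ν ν B := fun l j => ∑ i', G' i' l * δ (G i' j)
  have hM : ∀ a ∈ A, ∑ l, ∑ j, C (M l j) * X j * map (algebraMap ℂ B) (pderiv l a) = 0 := by
    intro a ha
    have e3 : ∀ i, aeval y (pderiv i a) = ∑ i', ∑ l, C (G i' l * G' i l) * aeval y (pderiv i' a) := by
      intro i
      have : ∀ i', ∑ l, C (G i' l * G' i l) * aeval y (pderiv i' a) =
          if i' = i then aeval y (pderiv i' a) else 0 := by
        intro i'
        rw [← Finset.sum_mul, ← map_sum, h1' i' i]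
        split_ifs <;> simp
      simp only [this]
      rw [Finset.sum_ite_eq']
      simp
    rw [← e1 a ha]
    have e4 : ∀ l, map (algebraMap ℂ B) (pderiv l a) = ∑ i, aeval y (pderiv i a) * C (G i l) :=
      e2 a ha
    simp only [e4]
    have lhs : ∑ l, ∑ j, C (M l j) * X j * ∑ i, aeval y (pderiv i a) * C (G i l) =
        ∑ l, ∑ j, ∑ i', ∑ i, C (G' i' l) * C (δ (G i' j)) * X j * (aeval y (pderiv i a) * C (G i l)) := by
      refine Finset.sum_congr rfl fun l _ => Finset.sum_congr rfl fun j _ => ?_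
      simp only [M]
      rw [map_sum, Finset.sum_mul, Finset.sum_mul]
      refine Finset.sum_congr rfl fun i' _ => ?_
      rw [map_mul, Finset.mul_sum]
    have rhs : ∑ i', aeval y (pderiv i' a) * ∑ j, C (δ (G i' j)) * X j =
        ∑ i', ∑ i, ∑ l, ∑ j, C (G' i' l) * C (δ (G i' j)) * X j * (aeval y (pderiv i a) * C (G i l)) := by
      refine Finset.sum_congr rfl fun i' _ => ?_
      rw [e3 i', Finset.sum_mul]
      refine Finset.sum_congr rfl fun i _ => ?_
      rw [Finset.sum_mul]
      refine Finset.sum_congr rfl fun l _ => ?_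
      rw [Finset.mul_sum]
      refine Finset.sum_congr rfl fun j _ => ?_
      rw [map_mul]
      ring
    rw [lhs, rhs]
    -- reorder the sums
    rw [Finset.sum_congr rfl fun l _ => Finset.sum_comm]
    rw [Finset.sum_comm]
    refine Finset.sum_congr rfl fun i' _ => ?_
    rw [Finset.sum_congr rfl fun l _ => Finset.sum_comm]
    rw [Finset.sum_comm]
  have hpair := isZ_pairing A M hM x ξ hz
  -- expansion of the left side
  have e5 : ∑ i, G'.mulVec ξ i * δ (G.mulVec x i) =
      ∑ i, ∑ l, ∑ j, (ξ l * (G' i l * δ (G i j)) * x j + ξ l * (G' i l * G i j) * δ (x j)) := by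
    refine Finset.sum_congr rfl fun i _ => ?_
    rw [Matrix.mulVec, dotProduct, Matrix.mulVec, dotProduct, Finset.sum_mul]
    refine Finset.sum_congr rfl fun l _ => ?_
    rw [map_sum, Finset.mul_sum]
    refine Finset.sum_congr rfl fun j _ => ?_
    rw [Derivation.leibniz, smul_eq_mul, smul_eq_mul]
    ring
  rw [e5]
  simp only [Finset.sum_add_distrib]
  have e6 : ∑ i, ∑ l, ∑ j, ξ l * (G' i l * δ (G i j)) * x j = 0 := by
    rw [← hpair, Finset.sum_comm]
    refine Finset.sum_congr rfl fun l _ => ?_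
    rw [Finset.sum_comm]
    refine Finset.sum_congr rfl fun j _ => ?_
    simp only [M]
    rw [Finset.mul_sum, Finset.sum_mul]
  have e7 : ∑ i, ∑ l, ∑ j, ξ l * (G' i l * G i j) * δ (x j) = ∑ i, ξ i * δ (x i) := by
    rw [Finset.sum_comm]
    refine Finset.sum_congr rfl fun l _ => ?_
    rw [Finset.sum_comm]
    have : ∀ j, ∑ i, ξ l * (G' i l * G i j) * δ (x j) = if l = j then ξ l * δ (x j) else 0 := by
      intro j
      rw [← Finset.sum_mul, ← Finset.mul_sum, h2' l j]
      split_ifs <;> simp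
    simp only [this]
    rw [Finset.sum_ite_eq]
    simp
  rw [e6, e7, zero_add]

end D1

/-- If `(x₀, ξ₀)` lies in the Zariski closure (over `L`) of the `K`-orbit of the `Z`-point `(x, ξ)`
then `∑ ξ_i D(x_i) = ∑ ξ₀_i D(x₀_i)` for all derivations `D` of `L`. -/
theorem closure_alpha (K : Subgroup (Matrix.unitaryGroup ν ℂ)) (L : Type) [Field L] [Algebra ℂ L]
    [IsAlgClosed L] [CharZero L] (x ξ x₀ ξ₀ : ν → L) (hz : IsZ (InvAlg K) x ξ)
    (h : ∀ F : MvPolynomial (ν ⊕ ν) L,
      (∀ k ∈ dbl K, eval ((kL L (k : Matrix (ν ⊕ ν) (ν ⊕ ν) ℂ)).mulVec (Sum.elim x ξ)) F = 0) →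
      eval (Sum.elim x₀ ξ₀) F = 0)
    (D : Derivation ℂ L L) : ∑ i, ξ i * D (x i) = ∑ i, ξ₀ i * D (x₀ i) := by
  classical
  -- the entries as functions on `K`
  let km : K → Matrix ν ν ℂ := fun k => ((k : Matrix.unitaryGroup ν ℂ) : Matrix ν ν ℂ)
  let g : ν → ν → (K → L) := fun i j k => algebraMap ℂ L (km k i j)
  let gc : ν → ν → (K → L) := fun i j k => algebraMap ℂ L (starRingEnd ℂ (km k i j))
  let S : Set (K → L) := Set.range (fun q : ν × ν => g q.1 q.2) ∪ Set.range (fun q : ν × ν => gc q.1 q.2)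
  have hSfin : S.Finite := (Set.finite_range _).union (Set.finite_range _)
  let T0 : Subalgebra L (K → L) := Algebra.adjoin L S
  have hT0fin : Algebra.FiniteType L T0 := by
    rw [← Subalgebra.fg_iff_finiteType]
    exact Subalgebra.fg_adjoin_finset hSfin.toFinset |> fun hfg => by
      rwa [Set.Finite.coe_toFinset] at hfg
  let Γ : Matrix ν ν T0 := fun i j => ⟨g i j, Algebra.subset_adjoin (Or.inl ⟨(i, j), rfl⟩)⟩
  let Γc : Matrix ν ν T0 := fun i j => ⟨gc i j, Algebra.subset_adjoin (Or.inr ⟨(i, j), rfl⟩)⟩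
  -- evaluation at an element of `K`
  let ev : K → (T0 →ₐ[L] L) := fun k => (Pi.evalAlgHom L (fun _ : K => L) k).comp T0.val
  have hext : ∀ u v : T0, (∀ k, ev k u = ev k v) → u = v := by
    intro u v huv
    apply Subtype.ext
    funext k
    exact huv k
  have hextM : ∀ U V : Matrix ν ν T0, (∀ k, U.map (ev k) = V.map (ev k)) → U = V := by
    intro U V hUV
    refine Matrix.ext fun i j => ?_
    apply hext
    intro k
    exact congrFun (congrFun (hUV k) i) j
  have hevΓ : ∀ k, Γ.map (ev k) = kL L (km k) := fun k => rfl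
  have hevΓc : ∀ k, Γc.map (ev k) = kL L ((km k).map (starRingEnd ℂ)) := fun k => rfl
  have hconj : ∀ k, ((km k).map (starRingEnd ℂ)).transpose = (km k).conjTranspose := fun k => rfl
  have hkk : ∀ k, km k * (km k).conjTranspose = 1 := fun k =>
    congrArg Subtype.val (Unitary.mul_star_self (k : Matrix.unitaryGroup ν ℂ))
  have hkk' : ∀ k, (km k).conjTranspose * km k = 1 := fun k =>
    congrArg Subtype.val (Unitary.star_mul_self (k : Matrix.unitaryGroup ν ℂ))
  have hmulmap : ∀ (U V : Matrix ν ν T0) k, (U * V).map (ev k) = U.map (ev k) * V.map (ev k) :=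
    fun U V k => Matrix.map_mul
  have h1map : ∀ k, (1 : Matrix ν ν T0).map (ev k) = 1 := fun k =>
    Matrix.map_one _ (map_zero _) (map_one _)
  have hkLmul : ∀ U V : Matrix ν ν ℂ, kL L (U * V) = kL L U * kL L V := fun U V => Matrix.map_mul
  have hkL1 : kL L (1 : Matrix ν ν ℂ) = 1 := Matrix.map_one _ (map_zero _) (map_one _)
  have hΓΓ : Γ * Γc.transpose = 1 := by
    apply hextM
    intro k
    rw [hmulmap, h1map, Matrix.transpose_map, hevΓ, hevΓc]
    have : (kL L ((km k).map (starRingEnd ℂ))).transpose = kL L ((km k).conjTranspose) := rfl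
    rw [this, ← hkLmul, hkk, hkL1]
  have hΓΓ' : Γc.transpose * Γ = 1 := by
    apply hextM
    intro k
    rw [hmulmap, h1map, Matrix.transpose_map, hevΓ, hevΓc]
    have : (kL L ((km k).map (starRingEnd ℂ))).transpose = kL L ((km k).conjTranspose) := rfl
    rw [this, ← hkLmul, hkk', hkL1]
  let c0 : ℂ →+* T0 := (algebraMap L T0).comp (algebraMap ℂ L)
  have hevc0 : ∀ k, ((ev k : T0 →+* L)).comp c0 = algebraMap ℂ L := by
    intro k
    ext r
    show ev k (algebraMap L T0 (algebraMap ℂ L r)) = _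
    rw [AlgHom.commutes]; rfl
  have hact : ∀ a ∈ InvAlg K, act Γ (map c0 a) = map c0 a := by
    intro a ha
    apply MvPolynomial.ext
    intro m
    apply hext
    intro k
    have h1 : map (ev k : T0 →+* L) (act Γ (map c0 a)) = map (ev k : T0 →+* L) (map c0 a) := by
      rw [D1.act_map_ringHom, map_map, hevc0]
      have h2 : Γ.map ((ev k : T0 →+* L)) = (km k).map (algebraMap ℂ L) := rfl
      rw [h2, ← D1.act_map_ringHom, ha k k.2]
    have h3 := congrArg (coeff m) h1
    rw [coeff_map, coeff_map] at h3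
    exact h3
  -- the orbit map
  let Y : ν ⊕ ν → T0 := Sum.elim (fun i => ∑ j, Γ i j * algebraMap L T0 (x j))
    (fun i => ∑ j, Γc i j * algebraMap L T0 (ξ j))
  let φ : MvPolynomial (ν ⊕ ν) L →ₐ[L] T0 := aeval Y
  let z0 : ν ⊕ ν → L := Sum.elim x₀ ξ₀
  have hφker : ∀ F, φ F = 0 → aeval z0 F = 0 := by
    intro F hF
    rw [D1.aeval_eq_eval']
    apply h F
    rintro _ ⟨k, hk, rfl⟩
    have h1 : ev ⟨k, hk⟩ (φ F) = 0 := by rw [hF, map_zero]
    have h2 : (ev ⟨k, hk⟩).comp φ = aeval ((kL L ((dblHom k : Matrix.unitaryGroup (ν ⊕ ν) ℂ) :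
        Matrix (ν ⊕ ν) (ν ⊕ ν) ℂ)).mulVec (Sum.elim x ξ)) := by
      apply MvPolynomial.algHom_ext
      intro i
      rw [AlgHom.comp_apply, aeval_X, aeval_X]
      have h3 : kL L ((dblHom k : Matrix.unitaryGroup (ν ⊕ ν) ℂ) : Matrix (ν ⊕ ν) (ν ⊕ ν) ℂ) =
          Matrix.fromBlocks (kL L (k : Matrix ν ν ℂ)) 0 0
            (kL L ((k : Matrix ν ν ℂ).map (starRingEnd ℂ))) := by
        show (Matrix.fromBlocks _ _ _ _).map _ = _
        rw [Matrix.fromBlocks_map, Matrix.map_zero _ (map_zero _)]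
        rfl
      rw [h3, Matrix.fromBlocks_mulVec]
      rcases i with i | i
      · simp only [Sum.elim_inl, Matrix.zero_mulVec, add_zero, Sum.elim_comp_inl]
        show ev ⟨k, hk⟩ (∑ j, Γ i j * algebraMap L T0 (x j)) = _
        rw [map_sum]
        refine Finset.sum_congr rfl fun j _ => ?_
        rw [map_mul, AlgHom.commutes]
        rfl
      · simp only [Sum.elim_inr, Matrix.zero_mulVec, zero_add, Sum.elim_comp_inr]
        show ev ⟨k, hk⟩ (∑ j, Γc i j * algebraMap L T0 (ξ j)) = _
        rw [map_sum]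
        refine Finset.sum_congr rfl fun j _ => ?_
        rw [map_mul, AlgHom.commutes]
        rfl
    have h4 := congrArg (fun q : MvPolynomial (ν ⊕ ν) L →ₐ[L] L => q F) h2
    simp only [AlgHom.comp_apply] at h4
    rw [h1, D1.aeval_eq_eval'] at h4
    exact h4.symm
  -- a prime of `T0`
  let m0 : Ideal (MvPolynomial (ν ⊕ ν) L) :=
    RingHom.ker (aeval z0 : MvPolynomial (ν ⊕ ν) L →ₐ[L] L)
  have hm0 : m0.IsPrime := RingHom.ker_isPrime _
  obtain ⟨q, hq, -, hdis⟩ := Ideal.exists_le_prime_disjoint (⊥ : Ideal T0)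
    (m0.primeCompl.map (φ : MvPolynomial (ν ⊕ ν) L →* T0)) (by
      rw [Set.disjoint_left]
      intro u hu hu2
      have hu' : u = 0 := hu
      subst hu'
      obtain ⟨F, hF, hF2⟩ := hu2
      exact hF (hφker F hF2))
  have hqm : ∀ F, φ F ∈ q → aeval z0 F = 0 := by
    intro F hF
    by_contra hne
    exact Set.disjoint_left.mp hdis hF ⟨F, hne, rfl⟩
  -- the domain `T = T0 / q`
  let ψ : MvPolynomial (ν ⊕ ν) L →ₐ[L] (T0 ⧸ q) := (Ideal.Quotient.mkₐ L q).comp φ
  have hTfin : Algebra.FiniteType L (T0 ⧸ q) :=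
    Algebra.FiniteType.of_surjective (Ideal.Quotient.mkₐ L q) (Ideal.Quotient.mkₐ_surjective L q)
  have hRfin : Algebra.FiniteType L ψ.range :=
    Algebra.FiniteType.of_surjective ψ.rangeRestrict (AlgHom.rangeRestrict_surjective ψ)
  have hψker : ∀ F, ψ F = 0 → aeval z0 F = 0 := fun F hF =>
    hqm F (Ideal.Quotient.eq_zero_iff_mem.mp hF)
  obtain ⟨z, hz2⟩ := D1.exists_lift (k := L) (A := MvPolynomial (ν ⊕ ν) L) (T := T0 ⧸ q) (C := L)
    ψ (aeval z0) hψker
  obtain ⟨γ, hγ⟩ := arc_lemma L (T0 ⧸ q) ψ.range z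
  let Φ : T0 →ₐ[L] LaurentSeries L := γ.comp (Ideal.Quotient.mkₐ L q)
  have hΦY : ∀ s, ∃ P : PowerSeries L, Φ (Y s) = (P : LaurentSeries L) ∧
      PowerSeries.constantCoeff P = z0 s := by
    intro s
    obtain ⟨P, hP1, hP2⟩ := hγ ⟨ψ (X s), ⟨X s, rfl⟩⟩
    refine ⟨P, ?_, ?_⟩
    · rw [← hP1]
      show γ (Ideal.Quotient.mkₐ L q (Y s)) = γ (Ideal.Quotient.mkₐ L q (φ (X s)))
      rw [aeval_X]
    · rw [hP2, hz2, aeval_X]
  choose P hP1 hP2 using hΦY
  -- apply the core lemma
  have hΦc : (Φ : T0 →+* LaurentSeries L).comp c0 = algebraMap ℂ (LaurentSeries L) := by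
    ext1 r
    show Φ (algebraMap L T0 (algebraMap ℂ L r)) = _
    rw [AlgHom.commutes, D1.algebraMap_laurent, D1.algebraMap_laurentC]
  let δ := D1.mkDer (B := LaurentSeries L) (D1.lmap D) (D1.lmap_add D) (D1.lmap_mul D) (by
    intro r
    rw [D1.algebraMap_laurentC, D1.lmap_C, Derivation.map_algebraMap, map_zero])
  let G : Matrix ν ν (LaurentSeries L) := Γ.map (Φ : T0 →+* LaurentSeries L)
  let G' : Matrix ν ν (LaurentSeries L) := Γc.map (Φ : T0 →+* LaurentSeries L)
  have hcore := D1.core (InvAlg K) (B := LaurentSeries L) δ G G' (by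
      show Γ.map (Φ : T0 →+* LaurentSeries L) * (Γc.map (Φ : T0 →+* LaurentSeries L)).transpose = 1
      rw [← Matrix.transpose_map, ← Matrix.map_mul, hΓΓ, Matrix.map_one _ (map_zero _) (map_one _)])
    (by
      show (Γc.map (Φ : T0 →+* LaurentSeries L)).transpose * Γ.map (Φ : T0 →+* LaurentSeries L) = 1
      rw [← Matrix.transpose_map, ← Matrix.map_mul, hΓΓ', Matrix.map_one _ (map_zero _) (map_one _)])
    (by
      intro a ha
      have h1 := congrArg (map (Φ : T0 →+* LaurentSeries L)) (hact a ha)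
      rw [D1.act_map_ringHom, map_map, hΦc] at h1
      exact h1)
    (fun i => HahnSeries.C (x i)) (fun i => HahnSeries.C (ξ i)) (by
      intro F hF
      have h1 := congrArg (HahnSeries.C (Γ := ℤ)) (hz F hF)
      rw [map_zero] at h1
      rw [← h1, aeval_def, aeval_def, MvPolynomial.eval₂_comp_left]
      congr 1
      · ext1 r
        rw [D1.algebraMap_laurentC]; rfl
      · funext i
        rcases i with i | i <;> rfl)
  -- identify the two sides
  have hGx : ∀ i, G.mulVec (fun i => HahnSeries.C (x i)) i = (P (Sum.inl i) : LaurentSeries L) := by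
    intro i
    rw [← hP1]
    show _ = Φ (∑ j, Γ i j * algebraMap L T0 (x j))
    rw [map_sum, Matrix.mulVec, dotProduct]
    refine Finset.sum_congr rfl fun j _ => ?_
    rw [map_mul, AlgHom.commutes, D1.algebraMap_laurent]
    rfl
  have hGξ : ∀ i, G'.mulVec (fun i => HahnSeries.C (ξ i)) i = (P (Sum.inr i) : LaurentSeries L) := by
    intro i
    rw [← hP1]
    show _ = Φ (∑ j, Γc i j * algebraMap L T0 (ξ j))
    rw [map_sum, Matrix.mulVec, dotProduct]
    refine Finset.sum_congr rfl fun j _ => ?_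
    rw [map_mul, AlgHom.commutes, D1.algebraMap_laurent]
    rfl
  let P' : ν → PowerSeries L := fun i =>
    PowerSeries.mk fun n => D (PowerSeries.coeff n (P (Sum.inl i)))
  have hlhs : ∀ i, G'.mulVec (fun i => HahnSeries.C (ξ i)) i *
      δ (G.mulVec (fun i => HahnSeries.C (x i)) i) =
      ((P (Sum.inr i) * P' i : PowerSeries L) : LaurentSeries L) := by
    intro i
    rw [hGx, hGξ]
    show (P (Sum.inr i) : LaurentSeries L) * D1.lmap D (P (Sum.inl i) : LaurentSeries L) = _
    rw [D1.lmap_coe, PowerSeries.coe_mul]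
  have hrhs : ∀ i, (HahnSeries.C (Γ := ℤ) (ξ i)) * δ (HahnSeries.C (x i)) =
      ((PowerSeries.C (ξ i * D (x i)) : PowerSeries L) : LaurentSeries L) := by
    intro i
    show (HahnSeries.C (ξ i)) * D1.lmap D (HahnSeries.C (x i)) = _
    rw [D1.lmap_C, ← map_mul, HahnSeries.ofPowerSeries_C]
  simp only [hlhs, hrhs] at hcore
  rw [← map_sum, ← map_sum] at hcore
  have hps := HahnSeries.ofPowerSeries_injective hcore
  have hcc := congrArg PowerSeries.constantCoeff hps
  rw [map_sum, map_sum] at hcc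
  have h3 : ∀ i, PowerSeries.constantCoeff (P (Sum.inr i) * P' i) = ξ₀ i * D (x₀ i) := by
    intro i
    rw [map_mul, hP2]
    have : PowerSeries.constantCoeff (P' i) = D (x₀ i) := by
      rw [← PowerSeries.coeff_zero_eq_constantCoeff_apply, PowerSeries.coeff_mk,
        PowerSeries.coeff_zero_eq_constantCoeff_apply, hP2]
      rfl
    rw [this]
    rfl
  simp only [h3, PowerSeries.constantCoeff_C] at hcc
  exact hcc.symm

end H50.Z
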