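import Pool.Agent.H50.Z.D1_Closure
import Pool.Agent.H50.Z.R2_Lift

/-! (DESC) The one-form `∑ ξ_i dx_i` and the two-form `∑ dx_i dξ_i` descend from `Z` to `Z//K`. -/

open MvPolynomial H50.DO

set_option linter.unusedSectionVars false

namespace H50.Z

variable {ν : Type} [Fintype ν] [DecidableEq ν]

/-- (DESC) -/
theorem descent (K : Subgroup (Matrix.unitaryGroup ν ℂ)) (L : Type) [Field L] [Algebra ℂ L]
    [IsAlgClosed L] [CharZero L] (x₁ ξ₁ x₂ ξ₂ : ν → L) (h₁ : IsZ (InvAlg K) x₁ ξ₁)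
    (h₂ : IsZ (InvAlg K) x₂ ξ₂)
    (hB : ∀ F ∈ InvAlg (dbl K), aeval (Sum.elim x₁ ξ₁) F = aeval (Sum.elim x₂ ξ₂) F)
    (D : Derivation ℂ L L) : ∑ i, ξ₁ i * D (x₁ i) = ∑ i, ξ₂ i * D (x₂ i) := by
  obtain ⟨w, hw₁, hw₂⟩ := exists_common_point (dbl K) L (Sum.elim x₁ ξ₁) (Sum.elim x₂ ξ₂) hB
  have hw : w = Sum.elim (fun i => w (Sum.inl i)) (fun i => w (Sum.inr i)) := by
    funext i
    rcases i with i | i <;> rfl
  rw [closure_alpha K L x₁ ξ₁ (fun i => w (Sum.inl i)) (fun i => w (Sum.inr i)) h₁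
      (by rw [← hw]; exact hw₁) D,
    closure_alpha K L x₂ ξ₂ (fun i => w (Sum.inl i)) (fun i => w (Sum.inr i)) h₂
      (by rw [← hw]; exact hw₂) D]

/-- `ω(D, D') = D'(α(D)) - D(α(D')) - α([D', D])` -/
lemma omega_eq {L : Type} [Field L] [Algebra ℂ L] (x ξ : ν → L) (D D' : Derivation ℂ L L) :
    ∑ i, (D (x i) * D' (ξ i) - D' (x i) * D (ξ i)) =
      D' (∑ i, ξ i * D (x i)) - D (∑ i, ξ i * D' (x i)) - ∑ i, ξ i * ⁅D', D⁆ (x i) := by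
  rw [map_sum, map_sum, ← Finset.sum_sub_distrib, ← Finset.sum_sub_distrib]
  apply Finset.sum_congr rfl
  intro i _
  rw [Derivation.leibniz, Derivation.leibniz, Derivation.commutator_apply]
  simp only [smul_eq_mul]
  ring

/-- (DESC2) -/
theorem descent2 (K : Subgroup (Matrix.unitaryGroup ν ℂ)) (L : Type) [Field L] [Algebra ℂ L]
    [IsAlgClosed L] [CharZero L] (x₁ ξ₁ x₂ ξ₂ : ν → L) (h₁ : IsZ (InvAlg K) x₁ ξ₁)
    (h₂ : IsZ (InvAlg K) x₂ ξ₂)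
    (hB : ∀ F ∈ InvAlg (dbl K), aeval (Sum.elim x₁ ξ₁) F = aeval (Sum.elim x₂ ξ₂) F)
    (D D' : Derivation ℂ L L) :
    ∑ i, (D (x₁ i) * D' (ξ₁ i) - D' (x₁ i) * D (ξ₁ i)) =
      ∑ i, (D (x₂ i) * D' (ξ₂ i) - D' (x₂ i) * D (ξ₂ i)) := by
  rw [omega_eq, omega_eq, descent K L x₁ ξ₁ x₂ ξ₂ h₁ h₂ hB D,
    descent K L x₁ ξ₁ x₂ ξ₂ h₁ h₂ hB D', descent K L x₁ ξ₁ x₂ ξ₂ h₁ h₂ hB ⁅D', D⁆]

end H50.Z
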