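import Pool.Agent.H50.Z.L1_Arc

/-! (D2a, tool) Arcs through `L`-points of complex affine varieties. -/

open MvPolynomial

namespace H50.Z

/-- `P` a prime of `ℂ[σ]`, `w` an `L`-point of `V(P)`, `h ∉ P`: there is an arc in `V(P)` over
`L[[s]]` with constant term `w`, not contained in `{h = 0}`. -/
theorem exists_arcC {σ : Type} [Finite σ] (P : Ideal (MvPolynomial σ ℂ)) [P.IsPrime] (L : Type)
    [Field L] [Algebra ℂ L] [IsAlgClosed L] [CharZero L] (w : σ → L) (hw : ∀ F ∈ P, aeval w F = 0)
    (h : MvPolynomial σ ℂ) (hh : h ∉ P) :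
    ∃ ws : σ → PowerSeries L, (∀ F ∈ P, aeval ws F = 0) ∧ aeval ws h ≠ 0 ∧
      ∀ i, PowerSeries.constantCoeff (ws i) = w i := by
  classical
  -- the base change
  let φ : MvPolynomial σ ℂ →ₐ[ℂ] MvPolynomial σ L := MvPolynomial.mapAlgHom (Algebra.ofId ℂ L)
  let alg : Algebra (MvPolynomial σ ℂ) (MvPolynomial σ L) := MvPolynomial.algebraMvPolynomial
  have hflat : Module.Flat (MvPolynomial σ ℂ) (MvPolynomial σ L) :=
    Module.Flat.isBaseChange ℂ (MvPolynomial σ ℂ) L (MvPolynomial σ L)
      (Algebra.IsPushout.out (R := ℂ) (S := MvPolynomial σ ℂ) (R' := L) (S' := MvPolynomial σ L))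
  -- the maximal ideal at `w`
  let ev : MvPolynomial σ L →ₐ[L] L := aeval w
  have hev : ∀ F : MvPolynomial σ ℂ, ev (φ F) = aeval w F := by
    intro F
    show aeval w (MvPolynomial.map (algebraMap ℂ L) F) = _
    rw [aeval_map_algebraMap]
  let m : Ideal (MvPolynomial σ L) := RingHom.ker ev
  have hm : m.IsPrime := RingHom.ker_isPrime ev
  have hle : P ≤ m.under (MvPolynomial σ ℂ) := by
    intro F hF
    show ev (φ F) = 0
    rw [hev, hw F hF]
  obtain ⟨Q, hQm, hQ, hQP⟩ := Ideal.exists_ideal_le_liesOver_of_le (p := P)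
    (q := m.under (MvPolynomial σ ℂ)) m hle
  have hPQ : ∀ F : MvPolynomial σ ℂ, F ∈ P ↔ φ F ∈ Q := by
    intro F
    rw [Q.over_def P]
    rfl
  -- the domain and its localization
  let R0 := MvPolynomial σ L ⧸ Q
  let h0 : R0 := Ideal.Quotient.mk Q (φ h)
  have hh0 : h0 ≠ 0 := by
    intro e
    exact hh ((hPQ h).2 (Ideal.Quotient.eq_zero_iff_mem.1 e))
  let T := Localization.Away h0
  have : IsDomain T := Localization.Away.isDomain hh0
  have : Algebra.FiniteType L T :=
    .trans (inferInstance : Algebra.FiniteType L R0)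
      (IsLocalization.finiteType_of_monoid_fg (Submonoid.powers h0) T)
  let g : R0 →ₐ[L] T := IsScalarTower.toAlgHom L R0 T
  have hg : Function.Injective g :=
    IsLocalization.injective T (powers_le_nonZeroDivisors_of_noZeroDivisors hh0)
  let R : Subalgebra L T := g.range
  have : Algebra.FiniteType L R :=
    Algebra.FiniteType.of_surjective g.rangeRestrict g.rangeRestrict_surjective
  let e : R0 ≃ₐ[L] R := AlgEquiv.ofInjective g hg
  let z0 : R0 →ₐ[L] L := Ideal.Quotient.liftₐ Q ev (fun a ha => hQm ha)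
  obtain ⟨γ, hγ⟩ := arc_lemma L T R (z0.comp e.symm.toAlgHom)
  let q : MvPolynomial σ L →ₐ[L] T := g.comp (Ideal.Quotient.mkₐ L Q)
  have hx : ∀ i : σ, ∃ p : PowerSeries L, γ (q (X i)) = (p : LaurentSeries L) ∧
      PowerSeries.constantCoeff p = w i := by
    intro i
    obtain ⟨p, hp1, hp2⟩ := hγ (e (Ideal.Quotient.mk Q (X i)))
    refine ⟨p, hp1, ?_⟩
    rw [hp2]
    show z0 (e.symm (e (Ideal.Quotient.mk Q (X i)))) = _
    rw [AlgEquiv.symm_apply_apply]
    show ev (X i) = w i
    exact aeval_X _ _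
  choose ws hws1 hws2 using hx
  have key : ∀ F : MvPolynomial σ ℂ,
      γ (q (φ F)) = ((aeval ws F : PowerSeries L) : LaurentSeries L) := by
    intro F
    have e1 : ((γ.comp q : MvPolynomial σ L →ₐ[L] LaurentSeries L) : MvPolynomial σ L →+*
        LaurentSeries L).comp (φ : MvPolynomial σ ℂ →+* MvPolynomial σ L) =
        (HahnSeries.ofPowerSeries ℤ L).comp
          ((aeval ws : MvPolynomial σ ℂ →ₐ[ℂ] PowerSeries L) :
            MvPolynomial σ ℂ →+* PowerSeries L) := by
      apply MvPolynomial.ringHom_ext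
      · intro c
        have h1 : φ (C c) = C (algebraMap ℂ L c) := map_C _ _
        have h2 : (aeval ws : MvPolynomial σ ℂ →ₐ[ℂ] PowerSeries L) (C c) =
            PowerSeries.C (algebraMap ℂ L c) := by
          rw [MvPolynomial.aeval_C]
          exact PowerSeries.algebraMap_apply
        show γ (q (φ (C c))) = HahnSeries.ofPowerSeries ℤ L (aeval ws (C c))
        rw [h1, h2, HahnSeries.ofPowerSeries_C]
        have h3 : q (C (algebraMap ℂ L c)) = algebraMap L T (algebraMap ℂ L c) :=
          q.commutes (algebraMap ℂ L c)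
        rw [h3, γ.commutes]
        exact LaurentSeries.algebraMap_apply L _
      · intro i
        show γ (q (φ (X i))) = HahnSeries.ofPowerSeries ℤ L (aeval ws (X i))
        have h1 : φ (X i) = X i := map_X _ _
        rw [h1, hws1, aeval_X]
    exact RingHom.congr_fun e1 F
  refine ⟨ws, ?_, ?_, hws2⟩
  · intro F hF
    have h1 := key F
    have h2 : q (φ F) = 0 := by
      show g (Ideal.Quotient.mk Q (φ F)) = 0
      rw [Ideal.Quotient.eq_zero_iff_mem.2 ((hPQ F).1 hF), map_zero]
    rw [h2, map_zero] at h1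
    exact HahnSeries.ofPowerSeries_injective (h1.symm.trans (map_zero _).symm)
  · intro h3
    have h1 := key h
    rw [h3] at h1
    have h2 : IsUnit (q (φ h)) := IsLocalization.Away.algebraMap_isUnit h0
    have h4 : IsUnit (γ (q (φ h))) := h2.map γ
    rw [h1] at h4
    simp at h4

end H50.Z
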