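import Pool.Agent.H50.Z.G1_Exists
import Pool.Agent.H50.Z.L4_Dim

/-! (G3) Good elements near a prime with discrete valuation ring localization. -/

open MvPolynomial

namespace H50.Z

namespace G3

/-- a uniformizer in `p` and lifts of a transcendence basis of `A/p` form a transcendence basis -/
theorem exists_basis (A : Type) [CommRing A] [IsDomain A] [Algebra ℂ A]
    [Algebra.FiniteType ℂ A] {d : ℕ} (hd : Algebra.trdeg ℂ A = d) (p : Ideal A) [p.IsPrime]
    [IsDiscreteValuationRing (Localization.AtPrime p)] (τ : A) (hτ0 : τ ≠ 0) (hτ : τ ∈ p) :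
    ∃ (ι : Type) (u : ι → A), IsTranscendenceBasis ℂ (fun i => Ideal.Quotient.mk p (u i)) ∧
      Finite ι ∧ Nat.card (Option ι) = d ∧
      IsTranscendenceBasis ℂ (fun o : Option ι => o.elim τ u) := by
  have hfs : FaithfulSMul ℂ (A ⧸ p) :=
    (faithfulSMul_iff_algebraMap_injective ℂ (A ⧸ p)).2 (algebraMap ℂ (A ⧸ p)).injective
  obtain ⟨ι, ub, hub⟩ := exists_isTranscendenceBasis' ℂ (A ⧸ p)
  choose u hu using fun i => Ideal.Quotient.mk_surjective (ub i)
  have hub' : (fun i => Ideal.Quotient.mk p (u i)) = ub := funext hu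
  have hind : AlgebraicIndependent ℂ u := by
    apply AlgebraicIndependent.of_comp (Ideal.Quotient.mkₐ ℂ p)
    have : (Ideal.Quotient.mkₐ ℂ p) ∘ u = ub := funext hu
    rw [this]
    exact hub.1
  have htr : Transcendental (Algebra.adjoin ℂ (Set.range u)) τ := by
    intro halg
    obtain ⟨q, hq0, hq⟩ := halg.exists_nonzero_coeff_and_aeval_eq_zero
      (mem_nonZeroDivisors_of_ne_zero hτ0)
    have h1 : ((q.coeff 0 : Algebra.adjoin ℂ (Set.range u)) : A) ∈ p := by
      have h2 : Polynomial.aeval τ q =
          Polynomial.aeval τ q.divX * τ + ((q.coeff 0 : Algebra.adjoin ℂ (Set.range u)) : A) := by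
        conv_lhs => rw [← Polynomial.divX_mul_X_add q]
        rw [map_add, map_mul, Polynomial.aeval_X, Polynomial.aeval_C]
        rfl
      rw [hq] at h2
      have h3 : ((q.coeff 0 : Algebra.adjoin ℂ (Set.range u)) : A) =
          -(Polynomial.aeval τ q.divX * τ) := by
        rw [eq_neg_iff_add_eq_zero, add_comm]
        exact h2.symm
      rw [h3]
      exact p.neg_mem (p.mul_mem_left _ hτ)
    have h4 : ((q.coeff 0 : Algebra.adjoin ℂ (Set.range u)) : A) ∈ (aeval u).range (R := ℂ) := by
      rw [← Algebra.adjoin_range_eq_range_aeval]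
      exact (q.coeff 0).2
    obtain ⟨P, hP⟩ := h4
    have hP' : aeval u P = ((q.coeff 0 : Algebra.adjoin ℂ (Set.range u)) : A) := hP
    have h5 : aeval ub P = 0 := by
      have h6 : Ideal.Quotient.mkₐ ℂ p (aeval u P) = aeval ub P := by
        rw [← hub']
        exact MvPolynomial.comp_aeval_apply _ (Ideal.Quotient.mkₐ ℂ p) P
      rw [← h6, hP']
      exact Ideal.Quotient.eq_zero_iff_mem.2 h1
    have h7 : P = 0 := by
      have := hub.1
      rw [algebraicIndependent_iff] at this
      exact this P h5
    apply hq0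
    apply Subtype.ext
    rw [← hP', h7, map_zero]
    rfl
  have hopt := (hind.option_iff_transcendental τ).2 htr
  have hht : p.height = 1 := by
    have h1 := IsLocalization.AtPrime.ringKrullDim_eq_height p (Localization.AtPrime p)
    rw [IsDiscreteValuationRing.ringKrullDim_eq_one] at h1
    exact_mod_cast h1.symm
  have hdim := height_add_trdeg (k := ℂ) p
  rw [hht, hd, ← hub.cardinalMk_eq_trdeg] at hdim
  have hfin : Finite ι := by
    rw [← Cardinal.lt_aleph0_iff_finite, ← Cardinal.toENat_lt_top]
    by_contra h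
    rw [not_lt, top_le_iff] at h
    rw [h] at hdim
    simp at hdim
  have := Fintype.ofFinite ι
  have hcard : Nat.card (Option ι) = d := by
    rw [Cardinal.mk_fintype] at hdim
    have h1 : (1 : ℕ∞) + (Fintype.card ι : ℕ∞) = (d : ℕ∞) := by
      simpa using hdim
    have h2 : 1 + Fintype.card ι = d := by exact_mod_cast h1
    rw [Nat.card_eq_fintype_card, Fintype.card_option]
    omega
  refine ⟨ι, u, ?_, hfin, hcard, ?_⟩
  · rw [hub']
    exact hub
  · apply hopt.isTranscendenceBasis_of_trdeg_le_of_finite
    rw [hd, Cardinal.mk_fintype, ← Nat.card_eq_fintype_card, hcard]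

/-- the embedding of the local ring into the fraction field -/
noncomputable def phi (A : Type) [CommRing A] [IsDomain A] (p : Ideal A) [p.IsPrime] :
    Localization.AtPrime p →+* FractionRing A :=
  IsLocalization.lift (M := p.primeCompl) (g := algebraMap A (FractionRing A)) (by
    intro y
    apply IsUnit.mk0
    rw [Ne, FaithfulSMul.algebraMap_eq_zero_iff]
    intro h
    apply y.2
    rw [h]
    exact p.zero_mem)

theorem phi_map (A : Type) [CommRing A] [IsDomain A] (p : Ideal A) [p.IsPrime] (a : A) :
    phi A p (algebraMap A _ a) = algebraMap A (FractionRing A) a :=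
  IsLocalization.lift_eq _ a

theorem alg_inj (A : Type) [CommRing A] [IsDomain A] (p : Ideal A) [p.IsPrime] :
    Function.Injective (algebraMap A (Localization.AtPrime p)) :=
  IsLocalization.injective _ p.primeCompl_le_nonZeroDivisors

theorem phi_inj (A : Type) [CommRing A] [IsDomain A] (p : Ideal A) [p.IsPrime] :
    Function.Injective (phi A p) := by
  rw [injective_iff_map_eq_zero]
  intro x hx
  obtain ⟨⟨a, s⟩, h⟩ := IsLocalization.surj p.primeCompl x
  simp only at h
  have h1 := congrArg (phi A p) h
  rw [map_mul, hx, zero_mul, phi_map] at h1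
  have h2 : a = 0 := by
    have := (FaithfulSMul.algebraMap_eq_zero_iff A (FractionRing A)).1 h1.symm
    exact this
  rw [h2, map_zero] at h
  have h3 : IsUnit (algebraMap A (Localization.AtPrime p) s) := IsLocalization.map_units _ s
  exact (h3.mul_left_eq_zero).1 h

/-- the predicate: `τ^m D` maps `A` into the local ring -/
def Pm (A : Type) [CommRing A] [IsDomain A] [Algebra ℂ A] (p : Ideal A) [p.IsPrime] (τ : A)
    (D : Derivation ℂ (FractionRing A) (FractionRing A)) (m : ℕ) : Prop :=
  ∀ f : A, ∃ x : Localization.AtPrime p,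
    phi A p x = (algebraMap A (FractionRing A) τ)^m * D (algebraMap A (FractionRing A) f)

section

variable (A : Type) [CommRing A] [IsDomain A] [Algebra ℂ A]
    (p : Ideal A) [p.IsPrime] [IsDiscreteValuationRing (Localization.AtPrime p)] (τ : A)
    (hτ : Irreducible (algebraMap A (Localization.AtPrime p) τ))

include hτ

omit [Algebra ℂ A] in
theorem exists_pow (x : FractionRing A) : ∃ k : ℕ, ∃ y : Localization.AtPrime p,
    phi A p y = (algebraMap A (FractionRing A) τ)^k * x := by
  obtain ⟨⟨a, b⟩, h⟩ := IsLocalization.surj (nonZeroDivisors A) x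
  simp only at h
  have hb0 : (b : A) ≠ 0 := nonZeroDivisors.coe_ne_zero b
  have hb : algebraMap A (Localization.AtPrime p) b ≠ 0 := by
    rw [Ne, map_eq_zero_iff _ (alg_inj A p)]
    exact hb0
  obtain ⟨k, u, hu⟩ := IsDiscreteValuationRing.eq_unit_mul_pow_irreducible hb hτ
  refine ⟨k, algebraMap A _ a * ((u⁻¹ : (Localization.AtPrime p)ˣ) : Localization.AtPrime p), ?_⟩
  have h1 := congrArg (phi A p) hu
  rw [phi_map, map_mul, map_pow, phi_map] at h1
  have h2 : phi A p ((u⁻¹ : (Localization.AtPrime p)ˣ) : Localization.AtPrime p) * phi A p u = 1 := by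
    rw [← map_mul, Units.inv_mul, map_one]
  rw [map_mul, phi_map, ← h, h1]
  calc x * (phi A p ↑u * algebraMap A (FractionRing A) τ ^ k) * phi A p ↑u⁻¹
      = x * algebraMap A (FractionRing A) τ ^ k * (phi A p ↑u⁻¹ * phi A p ↑u) := by ring
    _ = algebraMap A (FractionRing A) τ ^ k * x := by rw [h2]; ring

theorem exists_Pm [Algebra.FiniteType ℂ A] (D : Derivation ℂ (FractionRing A) (FractionRing A)) :
    ∃ m, Pm A p τ D m := by
  obtain ⟨S, hS⟩ := Algebra.FiniteType.out (R := ℂ) (A := A)
  choose k y hy using fun f : A => exists_pow A p τ hτ (D (algebraMap A (FractionRing A) f))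
  refine ⟨S.sup k, ?_⟩
  intro f
  have hf : f ∈ Algebra.adjoin ℂ (S : Set A) := by
    rw [hS]
    exact Algebra.mem_top
  induction hf using Algebra.adjoin_induction with
  | mem x hx =>
    have hle : k x ≤ S.sup k := Finset.le_sup (f := k) hx
    refine ⟨(algebraMap A _ τ)^(S.sup k - k x) * y x, ?_⟩
    rw [map_mul, map_pow, phi_map, hy, ← mul_assoc, ← pow_add, Nat.sub_add_cancel hle]
  | algebraMap r =>
    refine ⟨0, ?_⟩
    rw [← IsScalarTower.algebraMap_apply ℂ A (FractionRing A) r, D.map_algebraMap, mul_zero,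
      map_zero]
  | add a b _ _ ha hb =>
    obtain ⟨x, hx⟩ := ha
    obtain ⟨z, hz⟩ := hb
    refine ⟨x + z, ?_⟩
    rw [map_add, map_add, map_add, hx, hz]
    ring
  | mul a b _ _ ha hb =>
    obtain ⟨x, hx⟩ := ha
    obtain ⟨z, hz⟩ := hb
    refine ⟨algebraMap A _ a * z + algebraMap A _ b * x, ?_⟩
    rw [map_mul, D.leibniz, map_add, map_mul, map_mul, hx, hz, phi_map, phi_map, smul_eq_mul,
      smul_eq_mul]
    ring

theorem Pm_step {ι : Type} (u : ι → A)
    (hu : IsTranscendenceBasis ℂ (fun i => Ideal.Quotient.mk p (u i)))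
    (D : Derivation ℂ (FractionRing A) (FractionRing A))
    (hDτ : ∃ c : A, D (algebraMap A _ τ) = algebraMap A _ c)
    (hDu : ∀ i, ∃ c : A, D (algebraMap A _ (u i)) = algebraMap A _ c) (m : ℕ)
    (h : Pm A p τ D (m+1)) : Pm A p τ D m := by
  choose E hE using h
  have hinj := phi_inj A p
  have hadd : ∀ f g, E (f + g) = E f + E g := by
    intro f g
    apply hinj
    rw [hE, map_add, map_add, map_add, hE, hE]
    ring
  have hmul : ∀ f g, E (f * g) = algebraMap A _ f * E g + algebraMap A _ g * E f := by
    intro f g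
    apply hinj
    rw [hE, map_mul, D.leibniz, map_add, map_mul, map_mul, hE, hE, phi_map, phi_map, smul_eq_mul,
      smul_eq_mul]
    ring
  have hC : ∀ r : ℂ, E (algebraMap ℂ A r) = 0 := by
    intro r
    apply hinj
    rw [hE, ← IsScalarTower.algebraMap_apply ℂ A (FractionRing A) r, D.map_algebraMap, mul_zero,
      map_zero]
  have hmax : algebraMap A (Localization.AtPrime p) τ ∈
      IsLocalRing.maximalIdeal (Localization.AtPrime p) := by
    rw [IsLocalRing.mem_maximalIdeal]
    exact hτ.not_isUnit
  have hspan : IsLocalRing.maximalIdeal (Localization.AtPrime p) =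
      Ideal.span {algebraMap A (Localization.AtPrime p) τ} := hτ.maximalIdeal_eq
  have hval : ∀ a : A, (∃ c : A, D (algebraMap A _ a) = algebraMap A _ c) →
      E a ∈ IsLocalRing.maximalIdeal (Localization.AtPrime p) := by
    rintro a ⟨c, hc⟩
    have h1 : E a = (algebraMap A _ τ) * ((algebraMap A _ τ)^m * algebraMap A _ c) := by
      apply hinj
      rw [hE, hc, map_mul, map_mul, map_pow, phi_map, phi_map]
      ring
    rw [h1]
    exact Ideal.mul_mem_right _ _ hmax
  let κ := p.ResidueField
  let res : Localization.AtPrime p →+* κ := IsLocalRing.residue (Localization.AtPrime p)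
  have hres : ∀ x, res x = 0 ↔ x ∈ IsLocalRing.maximalIdeal (Localization.AtPrime p) :=
    fun x => IsLocalRing.residue_eq_zero_iff x
  have hkill : ∀ f ∈ p, res (E f) = 0 := by
    intro f hf
    have h1 : algebraMap A (Localization.AtPrime p) f ∈
        IsLocalRing.maximalIdeal (Localization.AtPrime p) := by
      rw [IsLocalization.AtPrime.to_map_mem_maximal_iff (Localization.AtPrime p) p]
      exact hf
    rw [hspan, Ideal.mem_span_singleton] at h1
    obtain ⟨y, hy⟩ := h1
    obtain ⟨⟨g, s⟩, hgs⟩ := IsLocalization.surj p.primeCompl y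
    simp only at hgs
    have h2 : (s : A) * f = τ * g := by
      apply alg_inj A p
      rw [map_mul, map_mul, hy, ← hgs]
      ring
    have h3 := congrArg E h2
    rw [hmul, hmul] at h3
    have h4 := congrArg res h3
    rw [map_add, map_add, map_mul, map_mul, map_mul, map_mul, (hres _).2 hmax,
      (hres (E τ)).2 (hval τ hDτ)] at h4
    have h5 : res (algebraMap A _ f) = 0 := by
      rw [hres, IsLocalization.AtPrime.to_map_mem_maximal_iff (Localization.AtPrime p) p]
      exact hf
    rw [h5, zero_mul, zero_mul, mul_zero, add_zero, add_zero] at h4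
    rcases mul_eq_zero.1 h4 with h6 | h6
    · exfalso
      rw [hres, IsLocalization.AtPrime.to_map_mem_maximal_iff (Localization.AtPrime p) p] at h6
      exact s.2 h6
    · exact h6
  -- the induced derivation
  let g0 : A ⧸ p → κ := fun x => res (E (Function.surjInv Ideal.Quotient.mk_surjective x))
  have hg0 : ∀ f : A, g0 (Ideal.Quotient.mk p f) = res (E f) := by
    intro f
    have h1 : Ideal.Quotient.mk p (Function.surjInv Ideal.Quotient.mk_surjective
        (Ideal.Quotient.mk p f)) = Ideal.Quotient.mk p f :=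
      Function.surjInv_eq Ideal.Quotient.mk_surjective _
    have h2 := Ideal.Quotient.eq.1 h1
    have h3 := hkill _ h2
    have h4 : E (Function.surjInv Ideal.Quotient.mk_surjective (Ideal.Quotient.mk p f)) =
        E (Function.surjInv Ideal.Quotient.mk_surjective (Ideal.Quotient.mk p f) - f) + E f := by
      rw [← hadd, sub_add_cancel]
    change res (E _) = _
    rw [h4, map_add, h3, zero_add]
  have halg : ∀ (a : A) (x : κ), (Ideal.Quotient.mk p a) • x =
      res (algebraMap A (Localization.AtPrime p) a) * x := by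
    intro a x
    rw [Algebra.smul_def]
    rfl
  let D0 : Derivation ℂ (A ⧸ p) κ :=
    { toFun := g0
      map_add' := by
        intro x y
        obtain ⟨f, rfl⟩ := Ideal.Quotient.mk_surjective x
        obtain ⟨g, rfl⟩ := Ideal.Quotient.mk_surjective y
        rw [← map_add, hg0, hg0, hg0, hadd, map_add]
      map_smul' := by
        intro r x
        obtain ⟨f, rfl⟩ := Ideal.Quotient.mk_surjective x
        have h1 : r • (Ideal.Quotient.mk p f) = Ideal.Quotient.mk p (algebraMap ℂ A r * f) := by
          rw [Algebra.smul_def, map_mul]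
          rfl
        rw [h1, hg0, hg0, hmul, hC, mul_zero, add_zero, map_mul, RingHom.id_apply,
          Algebra.smul_def]
        rfl
      map_one_eq_zero' := by
        have h1 : (1 : A ⧸ p) = Ideal.Quotient.mk p (algebraMap ℂ A 1) := by
          rw [map_one, map_one]
        change g0 1 = 0
        rw [h1, hg0, hC, map_zero]
      leibniz' := by
        intro x y
        obtain ⟨f, rfl⟩ := Ideal.Quotient.mk_surjective x
        obtain ⟨g, rfl⟩ := Ideal.Quotient.mk_surjective y
        change g0 _ = _ • g0 _ + _ • g0 _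
        rw [← map_mul, hg0, hg0, hg0, hmul, map_add, map_mul, map_mul, halg, halg] }
  have hnz : NoZeroSMulDivisors (A ⧸ p) κ := by
    refine ⟨?_⟩
    intro c x h
    obtain ⟨a, rfl⟩ := Ideal.Quotient.mk_surjective c
    rw [halg] at h
    rcases mul_eq_zero.1 h with h1 | h1
    · left
      rw [hres, IsLocalization.AtPrime.to_map_mem_maximal_iff (Localization.AtPrime p) p] at h1
      exact Ideal.Quotient.eq_zero_iff_mem.2 h1
    · right
      exact h1
  have hD0 : D0 = 0 := by
    apply derivation_eq_zero (F := ℂ) (A := A ⧸ p) (M := κ) hu.isAlgebraic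
    intro i
    change g0 (Ideal.Quotient.mk p (u i)) = 0
    rw [hg0, hres]
    exact hval _ (hDu i)
  intro f
  have h1 : res (E f) = 0 := by
    rw [← hg0 f]
    exact congrArg (fun D' : Derivation ℂ (A ⧸ p) κ => D' (Ideal.Quotient.mk p f)) hD0
  rw [hres, hspan, Ideal.mem_span_singleton] at h1
  obtain ⟨y, hy⟩ := h1
  refine ⟨y, ?_⟩
  have h2 := congrArg (phi A p) hy
  rw [hE, map_mul, phi_map] at h2
  have h3 : algebraMap A (FractionRing A) τ ≠ 0 := by
    rw [← phi_map A p τ, Ne, map_eq_zero_iff _ hinj]
    exact hτ.ne_zero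
  apply mul_left_cancel₀ h3
  rw [← h2]
  ring

end

end G3

/-- (G3) near a prime with localization a discrete valuation ring there is a good element -/
theorem exists_good_notMem (A : Type) [CommRing A] [IsDomain A] [Algebra ℂ A]
    [Algebra.FiniteType ℂ A] {d : ℕ} (hd : Algebra.trdeg ℂ A = d) (p : Ideal A) [p.IsPrime]
    [IsDiscreteValuationRing (Localization.AtPrime p)] : ∃ b : A, IsGood A d b ∧ b ∉ p := by
  classical
  -- a uniformizer in `A`
  obtain ⟨w, hw⟩ := IsDiscreteValuationRing.exists_irreducible (Localization.AtPrime p)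
  obtain ⟨⟨τ, s⟩, hs⟩ := IsLocalization.surj p.primeCompl w
  simp only at hs
  have hsu : IsUnit (algebraMap A (Localization.AtPrime p) s) := IsLocalization.map_units _ s
  have hτ : Irreducible (algebraMap A (Localization.AtPrime p) τ) := by
    rw [← hs]
    exact (irreducible_mul_isUnit hsu).2 hw
  have hτp : τ ∈ p := by
    rw [← IsLocalization.AtPrime.to_map_mem_maximal_iff (Localization.AtPrime p) p,
      IsLocalRing.mem_maximalIdeal]
    exact hτ.not_isUnit
  have hτ0 : τ ≠ 0 := by
    rintro rfl
    apply hτ.ne_zero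
    exact map_zero _
  obtain ⟨ι, u, hu, hfin, hcard, hbas⟩ := G3.exists_basis A hd p τ hτ0 hτp
  have := Fintype.ofFinite ι
  have hcard' : Fintype.card (Option ι) = Fintype.card (Fin d) := by
    rw [Fintype.card_fin, ← Nat.card_eq_fintype_card, hcard]
  let e : Fin d ≃ Option ι := (Fintype.equivOfCardEq hcard').symm
  let a : Fin d → A := fun j => (e j).elim τ u
  have ha : IsTranscendenceBasis ℂ a := hbas.comp_equiv e
  have haK : IsTranscendenceBasis ℂ (fun j => algebraMap A (FractionRing A) (a j)) := by
    have : Algebra.IsAlgebraic A (FractionRing A) :=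
      IsLocalization.isAlgebraic _ (nonZeroDivisors A)
    exact ha.algebraMap_comp
  choose D hD using fun j : Fin d => exists_derivation haK
    (fun l => if j = l then (1 : FractionRing A) else 0)
  obtain ⟨b, D', hb, hgood⟩ := isGoodWith_of_derivations A a ha D hD p (by
    intro j f
    have hval : ∀ o : Option ι, ∃ c : A, D j (algebraMap A _ (o.elim τ u)) =
        algebraMap A (FractionRing A) c := by
      intro o
      have h1 := hD j (e.symm o)
      have h2 : a (e.symm o) = o.elim τ u := by
        change (e (e.symm o)).elim τ u = _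
        rw [Equiv.apply_symm_apply]
      rw [h2] at h1
      by_cases h3 : j = e.symm o
      · exact ⟨1, by rw [h1, if_pos h3, map_one]⟩
      · exact ⟨0, by rw [h1, if_neg h3, map_zero]⟩
    obtain ⟨m, hm⟩ := G3.exists_Pm A p τ hτ (D j)
    have h0 : G3.Pm A p τ (D j) 0 := by
      induction m with
      | zero => exact hm
      | succ m ih =>
        exact ih (G3.Pm_step A p τ hτ u hu (D j) (hval none) (fun i => hval (some i)) m hm)
    obtain ⟨x, hx⟩ := h0 f
    rw [pow_zero, one_mul] at hx
    obtain ⟨⟨g, s⟩, hgs⟩ := IsLocalization.surj p.primeCompl x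
    simp only at hgs
    refine ⟨s, s.2, g, ?_⟩
    have h1 := congrArg (G3.phi A p) hgs
    rw [map_mul, G3.phi_map, G3.phi_map, hx] at h1
    rw [← h1, mul_comm])
  exact ⟨b, ⟨a, D', hgood⟩, hb⟩

end H50.Z
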