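import Pool.Agent.H50.Z.G2_DVR
import Pool.Agent.H50.Z.G3_Near

/-! (G4) Regular pairs of (combinations of) good elements, (G5) gluing. -/

open MvPolynomial

set_option linter.unusedSectionVars false

namespace H50.Z

/-- (G4) for every `b ≠ 0` there is an element of the ideal generated by the good elements which is
a nonzerodivisor modulo `b` -/
theorem exists_regular_good (A : Type) [CommRing A] [IsDomain A] [Algebra ℂ A]
    [Algebra.FiniteType ℂ A] [IsIntegrallyClosed A] {d : ℕ} (hd : Algebra.trdeg ℂ A = d) (b : A)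
    (hb : b ≠ 0) :
    ∃ b' ∈ Ideal.span {g : A | IsGood A d g}, ∀ v : A, b ∣ b' * v → b ∣ v := by
  classical
  have hN : IsNoetherianRing A := Algebra.FiniteType.isNoetherianRing ℂ A
  have hfin : (associatedPrimes A (A ⧸ Ideal.span {b})).Finite := associatedPrimes.finite _ _
  have hnot : ¬ ((Ideal.span {g : A | IsGood A d g} : Set A) ⊆
      ⋃ p ∈ (↑hfin.toFinset : Set (Ideal A)), (p : Set A)) := by
    intro h
    have h' := (Ideal.subset_union_prime (f := fun p : Ideal A => p) (s := hfin.toFinset) ⊥ ⊥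
      (fun p hp _ _ => by
        rw [Set.Finite.mem_toFinset] at hp
        exact hp.isPrime)).1 h
    obtain ⟨p, hp, hle⟩ := h'
    rw [Set.Finite.mem_toFinset] at hp
    have hpr : p.IsPrime := IsAssociatedPrime.isPrime hp
    have := isDVR_of_associated A b hb p hp
    obtain ⟨g, hg, hgp⟩ := exists_good_notMem A hd p
    exact hgp (hle (Ideal.subset_span hg))
  rw [Set.not_subset] at hnot
  obtain ⟨b', hb', hb'n⟩ := hnot
  refine ⟨b', hb', ?_⟩
  intro v hv
  by_contra hbv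
  apply hb'n
  have h0 : b' ∈ {r : A | ∃ x : A ⧸ Ideal.span {b}, x ≠ 0 ∧ r • x = 0} := by
    refine ⟨Ideal.Quotient.mk _ v, ?_, ?_⟩
    · rw [Ne, Ideal.Quotient.eq_zero_iff_mem, Ideal.mem_span_singleton]
      exact hbv
    · rw [Algebra.smul_def, Ideal.Quotient.algebraMap_eq, ← map_mul,
        Ideal.Quotient.eq_zero_iff_mem, Ideal.mem_span_singleton]
      exact hv
  rw [← biUnion_associatedPrimes_eq_zero_divisors] at h0
  simpa using h0

variable {ν : Type}

/-- (G5) Gluing. `Y` dominates `Spec A`; `u` is a function which for every good `b` is of the form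
`F_b / b^r` with `F_b ∈ A` on `Y ∩ {b ≠ 0}`. Then `u` is given by an element of `A`. -/
theorem glue (A : Subalgebra ℂ (MvPolynomial ν ℂ)) [Algebra.FiniteType ℂ A] [IsIntegrallyClosed A]
    {d : ℕ} (hd : Algebra.trdeg ℂ A = d) (Y : Set (ν → ℂ))
    (hY : ∀ a ∈ A, (∀ x ∈ Y, eval x a = 0) → a = 0) (u : (ν → ℂ) → ℂ)
    (hu : ∀ b : A, IsGood A d b → ∃ (r : ℕ) (F : A), ∀ x ∈ Y, eval x (b : MvPolynomial ν ℂ) ≠ 0 →
      eval x (b : MvPolynomial ν ℂ) ^ r * u x = eval x (F : MvPolynomial ν ℂ)) :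
    ∃ F : A, ∀ b : A, IsGood A d b → ∀ x ∈ Y, eval x (b : MvPolynomial ν ℂ) ≠ 0 →
      u x = eval x (F : MvPolynomial ν ℂ) := by
  classical
  obtain ⟨b₀, hb₀⟩ := exists_good A hd
  have hb₀0 : b₀ ≠ 0 := by
    obtain ⟨a, D, h⟩ := hb₀
    exact h.1
  obtain ⟨r₀, F₀, hF₀⟩ := hu b₀ hb₀
  -- the comparison of the local formulas
  have hcmp : ∀ b : A, IsGood A d b → ∀ (r : ℕ) (F : A),
      (∀ x ∈ Y, eval x (b : MvPolynomial ν ℂ) ≠ 0 →
        eval x (b : MvPolynomial ν ℂ) ^ r * u x = eval x (F : MvPolynomial ν ℂ)) →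
      b ^ r * F₀ = b₀ ^ r₀ * F := by
    intro b hb r F hF
    have hb0 : b ≠ 0 := by
      obtain ⟨a, D, h⟩ := hb
      exact h.1
    have h0 : ((b₀ * b * (b ^ r * F₀ - b₀ ^ r₀ * F) : A) : MvPolynomial ν ℂ) = 0 := by
      apply hY _ (b₀ * b * (b ^ r * F₀ - b₀ ^ r₀ * F)).2
      intro x hx
      push_cast
      simp only [map_mul, map_sub, map_pow]
      by_cases h1 : eval x (b₀ : MvPolynomial ν ℂ) = 0
      · rw [h1]; ring
      by_cases h2 : eval x (b : MvPolynomial ν ℂ) = 0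
      · rw [h2]; ring
      rw [← hF x hx h2, ← hF₀ x hx h1]
      ring
    have h1 : b₀ * b * (b ^ r * F₀ - b₀ ^ r₀ * F) = 0 := by
      exact_mod_cast h0
    rcases mul_eq_zero.1 h1 with h2 | h2
    · rcases mul_eq_zero.1 h2 with h3 | h3
      · exact absurd h3 hb₀0
      · exact absurd h3 hb0
    · exact sub_eq_zero.1 h2
  -- the regular element
  have hc0 : b₀ ^ r₀ ≠ 0 := pow_ne_zero _ hb₀0
  obtain ⟨b', hb', hreg⟩ := exists_regular_good A hd (b₀ ^ r₀) hc0
  set J : Ideal A := Submodule.comap (LinearMap.mulRight A F₀) (Ideal.span {b₀ ^ r₀}) with hJ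
  have hJm : ∀ a : A, a ∈ J ↔ b₀ ^ r₀ ∣ a * F₀ := by
    intro a
    rw [hJ, Submodule.mem_comap, LinearMap.mulRight_apply, Ideal.mem_span_singleton]
  have hle : Ideal.span {g : A | IsGood A d g} ≤ J.radical := by
    rw [Ideal.span_le]
    intro g hg
    obtain ⟨r, F, hF⟩ := hu g hg
    refine Ideal.mem_radical_iff.2 ⟨r, ?_⟩
    rw [hJm, hcmp g hg r F hF]
    exact dvd_mul_right _ _
  obtain ⟨m, hm⟩ := Ideal.mem_radical_iff.1 (hle hb')
  rw [hJm] at hm
  have hdiv : ∀ n : ℕ, b₀ ^ r₀ ∣ b' ^ n * F₀ → b₀ ^ r₀ ∣ F₀ := by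
    intro n
    induction n with
    | zero => intro h; simpa using h
    | succ n ih =>
      intro h
      apply ih
      apply hreg
      rw [← mul_assoc, ← pow_succ']
      exact h
  obtain ⟨F, hF⟩ := hdiv m hm
  refine ⟨F, ?_⟩
  intro b hb x hx hbx
  obtain ⟨r, G, hG⟩ := hu b hb
  have h1 := hcmp b hb r G hG
  have h2 : b ^ r * F = G := by
    apply mul_left_cancel₀ hc0
    rw [← h1, hF]
    ring
  have h3 := hG x hx hbx
  rw [← h2] at h3
  push_cast at h3
  rw [map_mul, map_pow] at h3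
  exact mul_left_cancel₀ (pow_ne_zero _ hbx) h3

end H50.Z
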