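import Pool.Agent.H50.Z.D3_ArcC
import Pool.Agent.H50.Z.C2c_Final
import Pool.Agent.H50.Z.G4_Reg
import Pool.Agent.H50.Z.L4_Dim

/-! (D2a) A good arc. -/

open MvPolynomial H50.DO

set_option linter.unusedSectionVars false

namespace H50.Z

variable {ν : Type} [Fintype ν] [DecidableEq ν]

namespace D4

/-- a minimal prime of `b` modulo `Z` inside `q` -/
lemma exists_min_prime {R : Type} [CommRing R] [Algebra ℂ R] [Algebra.FiniteType ℂ R]
    (Z q : Ideal R) [Z.IsPrime] [q.IsPrime] (hq : Z ≤ q) (b : R) (hbq : b ∈ q) (n : ℕ)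
    (hn : (n : Cardinal) ≤ Algebra.trdeg ℂ (R ⧸ Z)) :
    ∃ g : Ideal R, g.IsPrime ∧ Z ≤ g ∧ g ≤ q ∧ b ∈ g ∧
      (n : Cardinal) ≤ Algebra.trdeg ℂ (R ⧸ g) + 1 := by
  have hnoeth : IsNoetherianRing R := Algebra.FiniteType.isNoetherianRing ℂ _
  let π : R →ₐ[ℂ] R ⧸ Z := Ideal.Quotient.mkₐ ℂ Z
  have hker : RingHom.ker π.toRingHom = Z := Ideal.mk_ker
  have hπ : Function.Surjective π := Ideal.Quotient.mkₐ_surjective ℂ Z
  have hcm : (Ideal.map π.toRingHom q).comap π.toRingHom = q := by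
    rw [Ideal.comap_map_of_surjective' π.toRingHom hπ, hker, sup_eq_left.2 hq]
  have hqb : (Ideal.map π.toRingHom q).IsPrime :=
    Ideal.map_isPrime_of_surjective (f := π.toRingHom) hπ (hker.trans_le hq)
  obtain ⟨G, hG, hGq⟩ := Ideal.exists_minimalPrimes_le (I := Ideal.span {π.toRingHom b})
    (J := Ideal.map π.toRingHom q) (by
      rw [Ideal.span_singleton_le_iff_mem]
      exact Ideal.mem_map_of_mem π.toRingHom hbq)
  have hGp : G.IsPrime := hG.1.1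
  have hht : G.height ≤ 1 := Ideal.height_le_one_of_isPrincipal_of_mem_minimalPrimes _ G hG
  have hL4 := height_add_trdeg (k := ℂ) G
  let f : R →ₐ[ℂ] (R ⧸ Z) ⧸ G := (Ideal.Quotient.mkₐ ℂ G).comp π
  have hf : Function.Surjective f := (Ideal.Quotient.mkₐ_surjective ℂ G).comp hπ
  have hmem : ∀ r, r ∈ RingHom.ker f ↔ π r ∈ G := by
    intro r
    rw [RingHom.mem_ker]
    exact Ideal.Quotient.eq_zero_iff_mem
  refine ⟨RingHom.ker f, RingHom.ker_isPrime f, ?_, ?_, ?_, ?_⟩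
  · intro r hr
    rw [hmem]
    have : π r = 0 := Ideal.Quotient.eq_zero_iff_mem.2 hr
    rw [this]
    exact G.zero_mem
  · intro r hr
    rw [hmem] at hr
    rw [← hcm]
    exact hGq hr
  · rw [hmem]
    exact hG.1.2 (Ideal.mem_span_singleton_self _)
  · rw [(Ideal.quotientKerAlgEquivOfSurjective hf).trdeg_eq]
    rw [← Cardinal.natCast_le_toENat] at hn ⊢
    rw [map_add, map_one]
    calc (n : ℕ∞) ≤ Cardinal.toENat (Algebra.trdeg ℂ (R ⧸ Z)) := hn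
      _ = G.height + Cardinal.toENat (Algebra.trdeg ℂ ((R ⧸ Z) ⧸ G)) := hL4.symm
      _ ≤ 1 + Cardinal.toENat (Algebra.trdeg ℂ ((R ⧸ Z) ⧸ G)) := by gcongr
      _ = _ := add_comm _ _

lemma exists_not_mem {A R : Type} [CommRing A] [CommRing R] [Algebra ℂ A] [Algebra ℂ R]
    (φ : A →ₐ[ℂ] R) (g : Ideal R) (S : Set A) (b' : A) (hb' : b' ∈ Ideal.span S)
    (h : φ b' ∉ g) : ∃ b₁ ∈ S, φ b₁ ∉ g := by
  by_contra hcon
  push Not at hcon
  apply h
  have h1 : Ideal.span S ≤ g.comap φ := by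
    rw [Ideal.span_le]
    intro b₁ hb₁
    exact hcon b₁ hb₁
  exact h1 hb'

end D4

/-- a minimal prime of `b B` inside the kernel of an `L`-point which does not contain some good element -/
theorem exists_prime_B (K : Subgroup (Matrix.unitaryGroup ν ℂ)) {d : ℕ}
    (hd : Algebra.trdeg ℂ (InvAlg K) = d) (hS : Surj (InvAlg K)) (q : Ideal (InvAlg (dbl K)))
    [q.IsPrime] (hq : IZK K ≤ q) (b : InvAlg K) (hb : b ≠ 0) (hbq : inA K b ∈ q) :
    ∃ (g : Ideal (InvAlg (dbl K))) (b₁ : InvAlg K), g.IsPrime ∧ IZK K ≤ g ∧ g ≤ q ∧ inA K b ∈ g ∧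
      IsGood (InvAlg K) d b₁ ∧ inA K b₁ ∉ g := by
  have hft := invAlg_finiteType K
  have hic := invAlg_isIntegrallyClosed K
  have hft2 := invAlg_finiteType (dbl K)
  have hpr : (IZK K).IsPrime := by
    have := isPrime_IZ (InvAlg K)
    exact Ideal.IsPrime.comap _
  have htr := two_mul_le_trdeg_B K hd hS
  obtain ⟨g, hgp, hZg, hgq, hbg, hbig⟩ := D4.exists_min_prime (IZK K) q hq (inA K b) hbq (2 * d) htr
  obtain ⟨b', hb', hreg⟩ := exists_regular_good (InvAlg K) hd b hb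
  have hb'g : inA K b' ∉ g := fun h => c2 K hd hS b b' hb hreg g hZg hbg h hbig
  obtain ⟨b₁, hb₁, hb₁g⟩ := D4.exists_not_mem (inA K) g _ b' hb' hb'g
  exact ⟨g, b₁, hgp, hZg, hgq, hbg, hb₁, hb₁g⟩

/-- saturation -/
noncomputable def satI {R : Type} [CommRing R] (I : Ideal R) (b₁ : R) : Ideal R where
  carrier := {r | ∃ m : ℕ, b₁ ^ m * r ∈ I}
  add_mem' := by
    rintro r s ⟨m, hm⟩ ⟨n, hn⟩
    refine ⟨m + n, ?_⟩
    have h1 : b₁ ^ (m + n) * (r + s) = b₁ ^ n * (b₁ ^ m * r) + b₁ ^ m * (b₁ ^ n * s) := by ring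
    rw [h1]
    exact I.add_mem (I.mul_mem_left _ hm) (I.mul_mem_left _ hn)
  zero_mem' := ⟨0, by simp⟩
  smul_mem' := by
    rintro c r ⟨m, hm⟩
    refine ⟨m, ?_⟩
    have h1 : b₁ ^ m * (c • r) = c * (b₁ ^ m * r) := by rw [smul_eq_mul]; ring
    rw [h1]
    exact I.mul_mem_left _ hm

/-- (D2a) -/
theorem exists_good_arc (K : Subgroup (Matrix.unitaryGroup ν ℂ)) {d : ℕ}
    (hd : Algebra.trdeg ℂ (InvAlg K) = d) (hS : Surj (InvAlg K)) (L : Type) [Field L] [Algebra ℂ L]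
    [IsAlgClosed L] [CharZero L] (x ξ : ν → L) (hz : IsZ (InvAlg K) x ξ)
    (hgood : ∀ b : InvAlg K, IsGood (InvAlg K) d b → aeval x (b : MvPolynomial ν ℂ) = 0) :
    ∃ (b b₁ : InvAlg K) (xs ξs : ν → PowerSeries L), b ≠ 0 ∧ IsGood (InvAlg K) d b₁ ∧
      IsZ (InvAlg K) xs ξs ∧ aeval xs (b : MvPolynomial ν ℂ) = 0 ∧
      aeval xs (b₁ : MvPolynomial ν ℂ) ≠ 0 ∧
      ∀ F ∈ InvAlg (dbl K), aeval (Sum.elim (fun i => PowerSeries.constantCoeff (xs i))
        (fun i => PowerSeries.constantCoeff (ξs i))) F = aeval (Sum.elim x ξ) F := by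
  have hft := invAlg_finiteType K
  obtain ⟨b, hbgood⟩ := exists_good (InvAlg K) hd
  have hb : b ≠ 0 := by
    obtain ⟨a, D, h⟩ := hbgood
    exact h.1
  -- the point of `Spec O^K`
  let z : InvAlg (dbl K) →ₐ[ℂ] L := (aeval (Sum.elim x ξ)).comp (InvAlg (dbl K)).val
  have hzdef : ∀ F : InvAlg (dbl K), z F = aeval (Sum.elim x ξ) (F : MvPolynomial (ν ⊕ ν) ℂ) :=
    fun F => rfl
  have hq : IZK K ≤ RingHom.ker z := by
    intro F hF
    rw [RingHom.mem_ker, hzdef]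
    exact hz _ hF
  have haev : ∀ {R : Type} [CommRing R] [Algebra ℂ R] (u : ν ⊕ ν → R) (f : MvPolynomial ν ℂ),
      aeval u (inS f) = aeval (fun i => u (Sum.inl i)) f := by
    intro R _ _ u f
    rw [inS, aeval_rename]
    rfl
  have hbq : inA K b ∈ RingHom.ker z := by
    rw [RingHom.mem_ker, hzdef]
    change aeval (Sum.elim x ξ) (inS (b : MvPolynomial ν ℂ)) = 0
    rw [haev]
    exact hgood b hbgood
  have hkp : (RingHom.ker z).IsPrime := RingHom.ker_isPrime z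
  obtain ⟨g, b₁, hgp, hZg, hgq, hbg, hb₁, hb₁g⟩ := exists_prime_B K hd hS (RingHom.ker z) hq b hb hbq
  -- the saturated ideal
  let I : Ideal (MvPolynomial (ν ⊕ ν) ℂ) :=
    Ideal.span {inS (b : MvPolynomial ν ℂ)} ⊔ IZ (InvAlg K)
  let J : Ideal (MvPolynomial (ν ⊕ ν) ℂ) := satI I (inS (b₁ : MvPolynomial ν ℂ))
  have hbdbl : ∀ a : InvAlg K, inS (a : MvPolynomial ν ℂ) ∈ InvAlg (dbl K) := fun a =>
    inS_mem_InvAlg_dbl K a a.2
  have hIstab : ∀ k ∈ dbl K, ∀ f ∈ I, act (k : Matrix (ν ⊕ ν) (ν ⊕ ν) ℂ) f ∈ I := by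
    intro k hk f hf
    obtain ⟨u, hu, v, hv, rfl⟩ := Submodule.mem_sup.1 hf
    obtain ⟨c, rfl⟩ := Ideal.mem_span_singleton'.1 hu
    rw [map_add, map_mul, hbdbl b k hk]
    refine I.add_mem ?_ ?_
    · exact I.mul_mem_left _ (Ideal.mem_sup_left (Ideal.mem_span_singleton_self _))
    · exact Ideal.mem_sup_right (act_mem_IZ K k hk v hv)
  have hJstab : ∀ k ∈ dbl K, ∀ f ∈ J, act (k : Matrix (ν ⊕ ν) (ν ⊕ ν) ℂ) f ∈ J := by
    rintro k hk f ⟨m, hm⟩
    refine ⟨m, ?_⟩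
    have h1 := hIstab k hk _ hm
    rwa [map_mul, map_pow, hbdbl b₁ k hk] at h1
  have hIJ : I ≤ J := fun f hf => ⟨0, by rw [pow_zero, one_mul]; exact hf⟩
  have hJg : ∀ F : InvAlg (dbl K), (F : MvPolynomial (ν ⊕ ν) ℂ) ∈ J → F ∈ g := by
    rintro F ⟨m, hm⟩
    obtain ⟨ρ, h1, h2, h3, h4, -, -⟩ := exists_rey' (dbl K)
    obtain ⟨u, hu, v, hv, huv⟩ := Submodule.mem_sup.1 hm
    obtain ⟨c, rfl⟩ := Ideal.mem_span_singleton'.1 hu
    have h5 : ρ v ∈ IZ (InvAlg K) :=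
      h4 ((IZ (InvAlg K)).restrictScalars ℂ) (fun k hk f hf => act_mem_IZ K k hk f hf) v hv
    have h6 : inS (b₁ : MvPolynomial ν ℂ) ^ m * (F : MvPolynomial (ν ⊕ ν) ℂ) =
        inS (b : MvPolynomial ν ℂ) * ρ c + ρ v := by
      calc inS (b₁ : MvPolynomial ν ℂ) ^ m * (F : MvPolynomial (ν ⊕ ν) ℂ) =
          ρ (inS (b₁ : MvPolynomial ν ℂ) ^ m * (F : MvPolynomial (ν ⊕ ν) ℂ)) :=
            (h2 _ (Subalgebra.mul_mem _ (Subalgebra.pow_mem _ (hbdbl b₁) m) F.2)).symm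
        _ = ρ (c * inS (b : MvPolynomial ν ℂ) + v) := by rw [huv]
        _ = _ := by rw [map_add, mul_comm c, h3 _ (hbdbl b)]
    have h7 : inA K b₁ ^ m * F = inA K b * ⟨ρ c, h1 c⟩ + ⟨ρ v, h1 v⟩ := by
      apply Subtype.ext
      exact h6
    have h8 : inA K b₁ ^ m * F ∈ g := by
      rw [h7]
      refine g.add_mem (g.mul_mem_right _ hbg) (hZg ?_)
      exact h5
    rcases hgp.mem_or_mem h8 with h9 | h9
    · exact absurd (hgp.mem_of_pow_mem m h9) hb₁g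
    · exact h9
  obtain ⟨w, hw, hwz⟩ := lift_point (dbl K) L J hJstab z (fun F hF => hgq (hJg F hF))
  -- the prime
  let φ : MvPolynomial (ν ⊕ ν) ℂ →ₐ[ℂ] L := aeval w
  have hφp : (RingHom.ker φ).IsPrime := RingHom.ker_isPrime φ
  obtain ⟨P, hP, hPφ⟩ := Ideal.exists_minimalPrimes_le (I := J) (J := RingHom.ker φ)
    (fun F hF => hw F hF)
  have hPp : P.IsPrime := hP.1.1
  have hJP : J ≤ P := hP.1.2
  have hb₁P : inS (b₁ : MvPolynomial ν ℂ) ∉ P := by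
    intro h
    obtain ⟨y, hy, hxy⟩ := Ideal.exists_mul_mem_of_mem_minimalPrimes hP h
    apply hy
    obtain ⟨m, hm⟩ := hxy
    refine ⟨m + 1, ?_⟩
    rwa [pow_succ, mul_assoc]
  obtain ⟨ws, hws, hwsb, hwsc⟩ := exists_arcC P L w (fun F hF => hPφ hF)
    (inS (b₁ : MvPolynomial ν ℂ)) hb₁P
  have hel : Sum.elim (fun i => ws (Sum.inl i)) (fun i => ws (Sum.inr i)) = ws := by
    funext i
    rcases i with i | i <;> rfl
  refine ⟨b, b₁, fun i => ws (Sum.inl i), fun i => ws (Sum.inr i), hb, hb₁, ?_, ?_, ?_, ?_⟩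
  · intro F hF
    rw [hel]
    exact hws F (hJP (hIJ (Ideal.mem_sup_right hF)))
  · rw [← haev]
    exact hws _ (hJP (hIJ (Ideal.mem_sup_left (Ideal.mem_span_singleton_self _))))
  · rw [← haev]
    exact hwsb
  · intro F hF
    have h1 : (Sum.elim (fun i => PowerSeries.constantCoeff (ws (Sum.inl i)))
        (fun i => PowerSeries.constantCoeff (ws (Sum.inr i)))) = w := by
      funext i
      rcases i with i | i
      · exact hwsc _
      · exact hwsc _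
    rw [h1]
    exact hwz ⟨F, hF⟩

end H50.Z
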