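import Pool.Agent.H50.Z.L5_Der

/-! (D2b, tools) Kernels over power series reduce well; derivations of `L[[s]]`. -/

namespace H50.Z

theorem d5_exists_dvd_all {L : Type} [Field L] {r : ℕ} (c : Fin (r + 1) → PowerSeries L) :
    ∃ z, ∀ i, c z ∣ c i := by
  have hD : Directed (fun a b : PowerSeries L => b ∣ a) c := by
    intro x y
    rcases ValuationRing.dvd_total (c x) (c y) with h | h
    · exact ⟨x, dvd_rfl, h⟩
    · exact ⟨y, h, dvd_rfl⟩
  have : IsTrans (PowerSeries L) (fun a b : PowerSeries L => b ∣ a) :=
    ⟨fun a b c h1 h2 => h2.trans h1⟩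
  exact hD.finite_le (ι := Fin (r + 1)) id

theorem d5_exists_family (L : Type) [Field L] (M : ℕ) : ∀ (e : ℕ)
    (Φ : Fin e → Fin M → PowerSeries L), ∃ (r : ℕ) (δ : Fin r → Fin M → PowerSeries L),
      M ≤ r + e ∧ (∀ k j, ∑ i, Φ j i * δ k i = 0) ∧
      LinearIndependent L (fun (k : Fin r) (i : Fin M) => PowerSeries.constantCoeff (δ k i)) := by
  intro e
  induction e with
  | zero =>
    intro Φ
    refine ⟨M, fun k i => if k = i then 1 else 0, le_rfl, fun k j => j.elim0, ?_⟩
    have : (fun (k : Fin M) (i : Fin M) => PowerSeries.constantCoeff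
        (if k = i then (1 : PowerSeries L) else 0)) = fun k => Pi.single k (1 : L) := by
      funext k i
      rcases eq_or_ne k i with h | h
      · subst h
        simp
      · rw [if_neg h, map_zero, Pi.single_eq_of_ne h.symm]
    rw [this]
    have h0 := (Pi.basisFun L (Fin M)).linearIndependent
    have h1 : (⇑(Pi.basisFun L (Fin M)) : Fin M → Fin M → L) = fun k => Pi.single k (1 : L) := by
      funext k
      rw [Pi.basisFun_apply]
    rwa [h1] at h0
  | succ e ih =>
    intro Φ
    obtain ⟨r, δ, h1, h2, h3⟩ := ih (fun j => Φ j.castSucc)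
    rcases r with _ | r
    · exact ⟨0, δ, by omega, fun k => k.elim0, h3⟩
    · obtain ⟨z, hz⟩ := d5_exists_dvd_all (fun k => ∑ i, Φ (Fin.last e) i * δ k i)
      choose q hq using hz
      refine ⟨r, fun k i => δ (z.succAbove k) i - q (z.succAbove k) * δ z i, by omega, ?_, ?_⟩
      · intro k j
        have h4 : ∑ i, Φ j i * (δ (z.succAbove k) i - q (z.succAbove k) * δ z i) =
            ∑ i, Φ j i * δ (z.succAbove k) i - (∑ i, Φ j i * δ z i) * q (z.succAbove k) := by
          rw [Finset.sum_mul, ← Finset.sum_sub_distrib]
          exact Finset.sum_congr rfl fun i _ => by ring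
        rw [h4]
        rcases Fin.eq_castSucc_or_eq_last j with ⟨j', rfl⟩ | rfl
        · rw [h2 _ j', h2 _ j', zero_mul, sub_zero]
        · rw [hq (z.succAbove k), sub_self]
      · rw [Fintype.linearIndependent_iff] at h3 ⊢
        intro g hg k
        have h5 := h3 (z.insertNth (-∑ k, g k * PowerSeries.constantCoeff (q (z.succAbove k))) g)
        rw [Fin.sum_univ_succAbove _ z] at h5
        simp only [Fin.insertNth_apply_same, Fin.insertNth_apply_succAbove] at h5
        have h6 := h5 (by
          rw [← hg]
          funext i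
          simp only [Pi.add_apply, Pi.smul_apply, Finset.sum_apply, smul_eq_mul, map_sub, map_mul,
            mul_sub, Finset.sum_sub_distrib]
          rw [neg_mul, Finset.sum_mul, neg_add_eq_sub]
          congr 1
          exact Finset.sum_congr rfl fun k _ => by ring)
        have h7 := h6 (z.succAbove k)
        rwa [Fin.insertNth_apply_succAbove] at h7

/-- solutions of `e` linear equations in `L[[s]]^M` reduce modulo `s` to a space of dimension at least
`M - e` -/
theorem exists_reduction_of_kernel (L : Type) [Field L] (M e : ℕ)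
    (Φ : Fin e → Fin M → PowerSeries L) :
    ∃ W : Submodule L (Fin M → L), M ≤ Module.finrank L W + e ∧
      ∀ v ∈ W, ∃ δ : Fin M → PowerSeries L, (∀ j, ∑ i, Φ j i * δ i = 0) ∧
        ∀ i, PowerSeries.constantCoeff (δ i) = v i := by
  obtain ⟨r, δ, h1, h2, h3⟩ := d5_exists_family L M e Φ
  refine ⟨Submodule.span L (Set.range fun (k : Fin r) (i : Fin M) =>
    PowerSeries.constantCoeff (δ k i)), ?_, ?_⟩
  · rw [finrank_span_eq_card h3, Fintype.card_fin]
    exact h1
  · intro v hv
    rw [Submodule.mem_span_range_iff_exists_fun] at hv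
    obtain ⟨c, rfl⟩ := hv
    refine ⟨fun i => ∑ k, PowerSeries.C (c k) * δ k i, ?_, ?_⟩
    · intro j
      have : ∑ i, Φ j i * ∑ k, PowerSeries.C (c k) * δ k i =
          ∑ k, PowerSeries.C (c k) * ∑ i, Φ j i * δ k i := by
        simp only [Finset.mul_sum]
        rw [Finset.sum_comm]
        exact Finset.sum_congr rfl fun k _ => Finset.sum_congr rfl fun i _ => by ring
      rw [this]
      simp [h2]
    · intro i
      simp

/-- coefficientwise extension of a derivation to power series -/
theorem exists_coeff_derivation (L : Type) [Field L] [Algebra ℂ L] (D : Derivation ℂ L L) :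
    ∃ D' : Derivation ℂ (PowerSeries L) (PowerSeries L), ∀ (f : PowerSeries L) (n : ℕ),
      PowerSeries.coeff n (D' f) = D (PowerSeries.coeff n f) := by
  let T : PowerSeries L →ₗ[ℂ] PowerSeries L :=
    { toFun := fun f => PowerSeries.mk fun n => D (PowerSeries.coeff n f)
      map_add' := by
        intro f g
        ext n
        simp
      map_smul' := by
        intro c f
        ext n
        have h1 : ∀ g : PowerSeries L, PowerSeries.coeff n (c • g) = c • PowerSeries.coeff n g := by
          intro g
          rw [Algebra.smul_def, Algebra.smul_def, PowerSeries.algebraMap_apply,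
            PowerSeries.coeff_C_mul]
        rw [RingHom.id_apply, h1, PowerSeries.coeff_mk, PowerSeries.coeff_mk, h1, D.map_smul] }
  have hT : ∀ f n, PowerSeries.coeff n (T f) = D (PowerSeries.coeff n f) := by
    intro f n
    change PowerSeries.coeff n (PowerSeries.mk fun n => D (PowerSeries.coeff n f)) = _
    rw [PowerSeries.coeff_mk]
  refine ⟨Derivation.mk' T ?_, hT⟩
  intro f g
  ext n
  rw [hT, PowerSeries.coeff_mul, map_sum, map_add, smul_eq_mul, smul_eq_mul, PowerSeries.coeff_mul,
    mul_comm g, PowerSeries.coeff_mul, ← Finset.sum_add_distrib]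
  refine Finset.sum_congr rfl fun x _ => ?_
  rw [D.leibniz, hT, hT, smul_eq_mul, smul_eq_mul]
  ring

/-- the derivation `s d/ds` -/
theorem exists_euler_derivation (L : Type) [Field L] [Algebra ℂ L] :
    ∃ E : Derivation ℂ (PowerSeries L) (PowerSeries L), ∀ (f : PowerSeries L) (n : ℕ),
      PowerSeries.coeff n (E f) = (n : L) * PowerSeries.coeff n f := by
  let T : PowerSeries L →ₗ[ℂ] PowerSeries L :=
    { toFun := fun f => PowerSeries.mk fun n => (n : L) * (PowerSeries.coeff n f)
      map_add' := by
        intro f g
        ext n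
        simp [mul_add]
      map_smul' := by
        intro c f
        ext n
        have h1 : ∀ g : PowerSeries L, PowerSeries.coeff n (c • g) = c • PowerSeries.coeff n g := by
          intro g
          rw [Algebra.smul_def, Algebra.smul_def, PowerSeries.algebraMap_apply,
            PowerSeries.coeff_C_mul]
        rw [RingHom.id_apply, h1, PowerSeries.coeff_mk, PowerSeries.coeff_mk, h1,
          mul_smul_comm] }
  have hT : ∀ f n, PowerSeries.coeff n (T f) = (n : L) * (PowerSeries.coeff n f) := by
    intro f n
    change PowerSeries.coeff n (PowerSeries.mk fun n => (n : L) * (PowerSeries.coeff n f)) = _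
    rw [PowerSeries.coeff_mk]
  refine ⟨Derivation.mk' T ?_, hT⟩
  intro f g
  ext n
  rw [hT, PowerSeries.coeff_mul, map_add, smul_eq_mul, smul_eq_mul, PowerSeries.coeff_mul,
    mul_comm g, PowerSeries.coeff_mul, ← Finset.sum_add_distrib, Finset.mul_sum]
  refine Finset.sum_congr rfl fun x hx => ?_
  have hx' := Finset.HasAntidiagonal.mem_antidiagonal.1 hx
  rw [hT, hT, ← hx']
  push_cast
  ring

/-- isotropic subspaces of a symplectic space of dimension `2N` have dimension at most `N` -/
theorem finrank_isotropic_le (L ν : Type) [Field L] [Fintype ν]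
    (W : Submodule L ((ν → L) × (ν → L)))
    (h : ∀ u ∈ W, ∀ v ∈ W, ∑ i, (u.1 i * v.2 i - v.1 i * u.2 i) = 0) :
    Module.finrank L W ≤ Fintype.card ν := by
  classical
  let B : LinearMap.BilinForm L ((ν → L) × (ν → L)) :=
    LinearMap.mk₂ L (fun u v => ∑ i, (u.1 i * v.2 i - v.1 i * u.2 i))
      (by
        intro u v w
        simp only [Prod.fst_add, Prod.snd_add, Pi.add_apply, ← Finset.sum_add_distrib]
        exact Finset.sum_congr rfl fun i _ => by ring)
      (by
        intro c u v
        simp only [Prod.smul_fst, Prod.smul_snd, Pi.smul_apply, smul_eq_mul, Finset.mul_sum]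
        exact Finset.sum_congr rfl fun i _ => by ring)
      (by
        intro u v w
        simp only [Prod.fst_add, Prod.snd_add, Pi.add_apply, ← Finset.sum_add_distrib]
        exact Finset.sum_congr rfl fun i _ => by ring)
      (by
        intro c u v
        simp only [Prod.smul_fst, Prod.smul_snd, Pi.smul_apply, smul_eq_mul, Finset.mul_sum]
        exact Finset.sum_congr rfl fun i _ => by ring)
  have hB : ∀ u v, B u v = ∑ i, (u.1 i * v.2 i - v.1 i * u.2 i) := fun u v => rfl
  have hanti : ∀ u v, B u v = - B v u := by
    intro u v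
    rw [hB, hB, ← Finset.sum_neg_distrib]
    exact Finset.sum_congr rfl fun i _ => by ring
  have hrefl : B.IsRefl := by
    intro u v huv
    rw [hanti, huv, neg_zero]
  have hsep : ∀ u, (∀ v, B u v = 0) → u = 0 := by
    intro u hu
    have h1 : ∀ i, u.1 i = 0 := by
      intro i
      have := hu (0, Pi.single i 1)
      rw [hB] at this
      simpa [Pi.single_apply] using this
    have h2 : ∀ i, u.2 i = 0 := by
      intro i
      have := hu (Pi.single i 1, 0)
      rw [hB] at this
      simpa [Pi.single_apply] using this
    exact Prod.ext (funext h1) (funext h2)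
  have hnd : B.Nondegenerate :=
    (LinearMap.IsRefl.nondegenerate_iff_separatingLeft hrefl).2 hsep
  have h1 := LinearMap.BilinForm.finrank_orthogonal hnd W
  have h2 : W ≤ B.orthogonal W := by
    intro u hu v hv
    exact h v hv u hu
  have h3 := Submodule.finrank_mono h2
  have h4 : Module.finrank L ((ν → L) × (ν → L)) = Fintype.card ν + Fintype.card ν := by
    rw [Module.finrank_prod, Module.finrank_fintype_fun_eq_card]
  have h5 := Submodule.finrank_le W
  omega

end H50.Z
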