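import Pool.Agent.H50.Z.Defs
import Pool.Agent.H50.Z.L5_Der

/-! (1.1), (T1), (T2), (T3): good elements of a subalgebra of a polynomial ring and `Z`-points. -/

open MvPolynomial H50.DO

set_option linter.unusedSectionVars false

namespace H50.Z

variable {ν : Type}

/-- (1.1) -/
theorem good_pderiv (A : Subalgebra ℂ (MvPolynomial ν ℂ)) {d : ℕ} {b : A} {a : Fin d → A}
    {D : Fin d → Derivation ℂ A A} (h : IsGoodWith b a D) (f : A) (i : ν) :
    (b : MvPolynomial ν ℂ) * pderiv i (f : MvPolynomial ν ℂ) =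
      ∑ j, ((D j f : A) : MvPolynomial ν ℂ) * pderiv i ((a j : A) : MvPolynomial ν ℂ) := by
  obtain ⟨hb, hta, hD⟩ := h
  let E1 : Derivation ℂ A (MvPolynomial ν ℂ) := b • (pderiv i).compAlgebraMap A
  let E2 : Fin d → Derivation ℂ A (MvPolynomial ν ℂ) := fun j =>
    (LinearMap.toSpanSingleton A (MvPolynomial ν ℂ) (pderiv i ((a j : A) : MvPolynomial ν ℂ))).compDer
      (D j)
  have hE1 : ∀ f : A, E1 f = (b : MvPolynomial ν ℂ) * pderiv i (f : MvPolynomial ν ℂ) := fun f => rfl
  have hE2 : ∀ j, ∀ f : A, E2 j f =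
      ((D j f : A) : MvPolynomial ν ℂ) * pderiv i ((a j : A) : MvPolynomial ν ℂ) := fun j f => rfl
  have hsum : ∀ f : A, (∑ j, E2 j) f = ∑ j, E2 j f := by
    intro f
    have h := congrFun (map_sum (Derivation.coeFnAddMonoidHom (R := ℂ) (A := A)
      (M := MvPolynomial ν ℂ)) E2 Finset.univ) f
    rw [Finset.sum_apply] at h
    exact h
  have hnz : NoZeroSMulDivisors A (MvPolynomial ν ℂ) :=
    ⟨fun {c x} hcx => by
      have h1 : (c : MvPolynomial ν ℂ) * x = 0 := hcx
      rcases mul_eq_zero.1 h1 with h2 | h2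
      · exact Or.inl (Subtype.ext h2)
      · exact Or.inr h2⟩
  have key : E1 - ∑ j, E2 j = 0 := by
    refine derivation_eq_zero (t := a) hta.isAlgebraic _ ?_
    intro l
    rw [Derivation.sub_apply, hsum, hE1]
    simp only [hE2, hD]
    rw [Finset.sum_eq_single l]
    · simp
    · intro j _ hj
      rw [if_neg hj]
      simp
    · intro hl
      exact absurd (Finset.mem_univ l) hl
  have h1 := congrArg (fun E : Derivation ℂ A (MvPolynomial ν ℂ) => E f) key
  simp only [Derivation.sub_apply, hsum, hE1, hE2] at h1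
  exact sub_eq_zero.1 h1

/-- (T1) the differentials `da_j` are independent where the good element `b` does not vanish -/
theorem t1 [Fintype ν] (A : Subalgebra ℂ (MvPolynomial ν ℂ)) (hS : Surj A) {d : ℕ} {b : A}
    {a : Fin d → A} {D : Fin d → Derivation ℂ A A} (h : IsGoodWith b a D) (x : ν → ℂ)
    (hx : eval x (b : MvPolynomial ν ℂ) ≠ 0) :
    LinearIndependent ℂ fun (j : Fin d) (i : ν) => eval x (pderiv i ((a j : A) : MvPolynomial ν ℂ)) := by
  obtain ⟨hb, hta, hD⟩ := h
  rw [Fintype.linearIndependent_iff]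
  intro l hl j
  set f : A := ∑ j, l j • a j with hf
  have hfd : ∀ i, eval x (pderiv i (f : MvPolynomial ν ℂ)) = 0 := by
    intro i
    have h1 := congrFun hl i
    rw [Finset.sum_apply] at h1
    have h2 : (f : MvPolynomial ν ℂ) = ∑ j, l j • ((a j : A) : MvPolynomial ν ℂ) := by
      rw [hf]
      simp
    rw [h2, map_sum, map_sum]
    rw [Pi.zero_apply] at h1
    rw [← h1]
    refine Finset.sum_congr rfl fun j _ => ?_
    rw [Derivation.map_smul, smul_eval, Pi.smul_apply, smul_eq_mul]
  have hDf : D j f = l j • b := by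
    rw [hf, map_sum]
    rw [Finset.sum_eq_single j]
    · rw [Derivation.map_smul, hD, if_pos rfl]
    · intro k _ hk
      rw [Derivation.map_smul, hD, if_neg (Ne.symm hk), smul_zero]
    · intro hl
      exact absurd (Finset.mem_univ j) hl
  obtain ⟨Q, hQ, hPQ⟩ := hS (D j).toLinearMap ⟨2, DOp_derivation _⟩
  have hcst : ∀ g : MvPolynomial ν ℂ, aeval (fun i => Polynomial.C (x i)) g =
      Polynomial.C (eval x g) := by
    intro g
    have h1 : (aeval (fun i => Polynomial.C (x i)) : MvPolynomial ν ℂ →ₐ[ℂ] Polynomial ℂ) =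
        Polynomial.CAlgHom.comp (aeval x) := by
      apply MvPolynomial.algHom_ext
      intro i
      simp [Polynomial.CAlgHom]
    rw [h1, AlgHom.comp_apply]
    rw [aeval_eq_eval]
    rfl
  have hsb := symbol_bound hQ hPQ (n := 1) (DOp_derivation _) f (fun i => Polynomial.C (x i)) 1
    (by
      intro i
      rw [hcst, hfd, Polynomial.C_0]
      exact dvd_zero _)
  have hs : symb f 1 (D j).toLinearMap = l j • b := by
    unfold symb
    rw [Nat.factorial_one, Nat.cast_one, inv_one, one_smul]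
    change ad f (D j).toLinearMap 1 = _
    rw [ad_derivation, LinearMap.mulLeft_apply, mul_one, hDf]
  rw [hs, hcst, mul_one, pow_one, Polynomial.X_dvd_iff, Polynomial.coeff_C_zero] at hsb
  have h3 : ((l j • b : A) : MvPolynomial ν ℂ) = l j • (b : MvPolynomial ν ℂ) := rfl
  rw [h3, smul_eval] at hsb
  rcases mul_eq_zero.1 hsb with h4 | h4
  · exact h4
  · exact absurd h4 hx

/-- a matrix with independent rows has a nonzero maximal minor -/
lemma exists_minor_ne_zero [Fintype ν] {d : ℕ} (v : Fin d → ν → ℂ) (hv : LinearIndependent ℂ v) :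
    ∃ e : Fin d → ν, (Matrix.of fun j l : Fin d => v j (e l)).det ≠ 0 := by
  let M : Matrix (Fin d) ν ℂ := Matrix.of v
  have hr : M.rank = d := by
    have := LinearIndependent.rank_matrix (M := M) hv
    rwa [Fintype.card_fin] at this
  rw [Matrix.rank_eq_finrank_span_cols] at hr
  obtain ⟨f, hf, -, hli⟩ := Submodule.exists_fun_fin_finrank_span_eq ℂ (Set.range M.col)
  choose e he using hf
  refine ⟨fun l => e (Fin.cast hr.symm l), ?_⟩
  have h1 : LinearIndependent ℂ (fun l : Fin d => f (Fin.cast hr.symm l)) :=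
    hli.comp _ (Fin.cast_injective _)
  have h2 : (Matrix.of fun j l : Fin d => v j (e (Fin.cast hr.symm l))).col =
      fun l : Fin d => f (Fin.cast hr.symm l) := by
    funext l j
    rw [← he]
    rfl
  rw [← h2, Matrix.linearIndependent_cols_iff_isUnit, Matrix.isUnit_iff_isUnit_det] at h1
  exact h1.ne_zero

/-- (T1') some power of `b` is a combination of the `d × d` minors of `(∂_i a_j)` -/
theorem t1' [Fintype ν] (A : Subalgebra ℂ (MvPolynomial ν ℂ)) (hS : Surj A) {d : ℕ} {b : A}
    {a : Fin d → A} {D : Fin d → Derivation ℂ A A} (h : IsGoodWith b a D) :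
    ∃ m : ℕ, (b : MvPolynomial ν ℂ) ^ m ∈ Ideal.span (Set.range fun e : Fin d → ν =>
      (Matrix.of fun j l : Fin d => pderiv (e l) ((a j : A) : MvPolynomial ν ℂ)).det) := by
  set I : Ideal (MvPolynomial ν ℂ) := Ideal.span (Set.range fun e : Fin d → ν =>
      (Matrix.of fun j l : Fin d => pderiv (e l) ((a j : A) : MvPolynomial ν ℂ)).det) with hI
  have h1 : (b : MvPolynomial ν ℂ) ∈ vanishingIdeal ℂ (zeroLocus ℂ I) := by
    rw [mem_vanishingIdeal_iff]
    intro x hx
    rw [mem_zeroLocus_iff] at hx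
    rw [aeval_eq_eval]
    by_contra hbx
    obtain ⟨e, he⟩ := exists_minor_ne_zero _ (t1 A hS h x hbx)
    apply he
    have h2 := hx _ (Ideal.subset_span ⟨e, rfl⟩)
    rw [aeval_eq_eval] at h2
    have h3 : (eval x) (Matrix.of fun j l : Fin d =>
        pderiv (e l) ((a j : A) : MvPolynomial ν ℂ)).det = 0 := h2
    rw [RingHom.map_det] at h3
    rw [← h3]
    rfl
  rw [vanishingIdeal_zeroLocus_eq_radical] at h1
  exact h1

/-- (T2) at a `Z`-point with `b ≠ 0` the vector `ξ` is a combination of the `da_j` -/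
theorem t2 [Fintype ν] (A : Subalgebra ℂ (MvPolynomial ν ℂ)) (hS : Surj A) {d : ℕ} {b : A}
    {a : Fin d → A} {D : Fin d → Derivation ℂ A A} (h : IsGoodWith b a D) {L : Type} [Field L]
    [Algebra ℂ L] (x ξ : ν → L) (hz : IsZ A x ξ)
    (hx : aeval x (b : MvPolynomial ν ℂ) ≠ 0) :
    ∃ c : Fin d → L, ∀ i, ξ i = ∑ j, c j * aeval x (pderiv i ((a j : A) : MvPolynomial ν ℂ)) := by
  classical
  -- a nonzero minor
  obtain ⟨e, he⟩ : ∃ e : Fin d → ν, aeval x
      (Matrix.of fun j l : Fin d => pderiv (e l) ((a j : A) : MvPolynomial ν ℂ)).det ≠ 0 := by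
    by_contra hcon
    push Not at hcon
    obtain ⟨m, hm⟩ := t1' A hS h
    have h1 : Ideal.span (Set.range fun e : Fin d → ν =>
      (Matrix.of fun j l : Fin d => pderiv (e l) ((a j : A) : MvPolynomial ν ℂ)).det) ≤
        RingHom.ker (aeval x : MvPolynomial ν ℂ →ₐ[ℂ] L) := by
      rw [Ideal.span_le]
      rintro _ ⟨e, rfl⟩
      exact hcon e
    have h2 : aeval x ((b : MvPolynomial ν ℂ) ^ m) = 0 := h1 hm
    rw [map_pow] at h2
    exact pow_ne_zero m hx h2
  -- the matrix M_{jl} = ∂_{e l} a_j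
  let M : Matrix (Fin d) (Fin d) (MvPolynomial ν ℂ) :=
    Matrix.of fun j l : Fin d => pderiv (e l) ((a j : A) : MvPolynomial ν ℂ)
  have hdet : aeval x M.det ≠ 0 := he
  -- the elements of I_Z
  let G : ν → MvPolynomial (ν ⊕ ν) ℂ := fun i =>
    inS M.det * X (Sum.inr i) - ∑ j, inS (pderiv i ((a j : A) : MvPolynomial ν ℂ)) *
      ∑ l, inS (M.adjugate l j) * X (Sum.inr (e l))
  have hbne : (b : MvPolynomial ν ℂ) ≠ 0 := fun h0 => h.1 (Subtype.ext h0)
  have hdsub : ∀ (f q : MvPolynomial ν ℂ), dsub f (inS q) = q := by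
    intro f q
    unfold dsub inS
    rw [aeval_rename]
    have : (Sum.elim X fun i => pderiv i f) ∘ Sum.inl = (X : ν → MvPolynomial ν ℂ) := by
      funext i; rfl
    rw [this, aeval_X_left, AlgHom.id_apply]
  have hG : ∀ i, G i ∈ IZ A := by
    intro i
    rw [mem_IZ]
    intro f hf
    have h1 : ∀ i, (b : MvPolynomial ν ℂ) * pderiv i f = ∑ j, ((D j ⟨f, hf⟩ : A) : MvPolynomial ν ℂ) *
        pderiv i ((a j : A) : MvPolynomial ν ℂ) := fun i => good_pderiv A h ⟨f, hf⟩ i
    have hX : ∀ i, dsub f (X (Sum.inr i)) = pderiv i f := by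
      intro i
      unfold dsub
      rw [aeval_X, Sum.elim_inr]
    apply mul_left_cancel₀ hbne
    rw [mul_zero]
    simp only [G, map_sub, map_mul, map_sum, hdsub, hX]
    have h2 : ∀ j, (b : MvPolynomial ν ℂ) * ∑ l, M.adjugate l j * pderiv (e l) f =
        M.det * ((D j ⟨f, hf⟩ : A) : MvPolynomial ν ℂ) := by
      intro j
      rw [Finset.mul_sum]
      have h3 : ∀ l, (b : MvPolynomial ν ℂ) * (M.adjugate l j * pderiv (e l) f) =
          ∑ k, M.adjugate l j * (((D k ⟨f, hf⟩ : A) : MvPolynomial ν ℂ) * M k l) := by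
        intro l
        rw [mul_left_comm, h1, Finset.mul_sum]
        rfl
      simp only [h3]
      rw [Finset.sum_comm]
      have h4 : ∀ k, ∑ l, M.adjugate l j * (((D k ⟨f, hf⟩ : A) : MvPolynomial ν ℂ) * M k l) =
          ((D k ⟨f, hf⟩ : A) : MvPolynomial ν ℂ) * (M * M.adjugate) k j := by
        intro k
        rw [Matrix.mul_apply, Finset.mul_sum]
        refine Finset.sum_congr rfl fun l _ => ?_
        ring
      simp only [h4, Matrix.mul_adjugate, Matrix.smul_apply, Matrix.one_apply]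
      rw [Finset.sum_eq_single j]
      · simp [mul_comm]
      · intro k _ hk
        rw [if_neg hk]; simp
      · intro hj; exact absurd (Finset.mem_univ j) hj
    rw [mul_sub, Finset.mul_sum, mul_left_comm, h1, Finset.mul_sum, sub_eq_zero]
    refine Finset.sum_congr rfl fun j _ => ?_
    linear_combination (-(pderiv i ((a j : A) : MvPolynomial ν ℂ))) * h2 j
  have hin : ∀ q : MvPolynomial ν ℂ, aeval (Sum.elim x ξ) (inS q) = aeval x q := by
    intro q
    unfold inS
    rw [aeval_rename]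
    rfl
  refine ⟨fun j => (aeval x M.det)⁻¹ * ∑ l, aeval x (M.adjugate l j) * ξ (e l), fun i => ?_⟩
  have h1 := hz _ (hG i)
  simp only [G, map_sub, map_mul, map_sum, hin, aeval_X, Sum.elim_inr] at h1
  rw [sub_eq_zero] at h1
  rw [← mul_right_inj' hdet, h1, Finset.mul_sum]
  refine Finset.sum_congr rfl fun j _ => ?_
  field_simp

/-- (T3) combinations of differentials of elements of `A` are `Z`-points -/
theorem isZ_of_comb (A : Subalgebra ℂ (MvPolynomial ν ℂ)) {L : Type} [CommRing L] [IsDomain L] [Algebra ℂ L]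
    {m : ℕ} (a : Fin m → A) (c : Fin m → L) (x : ν → L) :
    IsZ A x fun i => ∑ j, c j * aeval x (pderiv i ((a j : A) : MvPolynomial ν ℂ)) := by
  intro F hF
  rw [mem_IZ] at hF
  let Ψ : MvPolynomial (ν ⊕ ν) ℂ →ₐ[ℂ] MvPolynomial (Fin m) (MvPolynomial ν ℂ) :=
    aeval (Sum.elim (fun i => C (X i)) fun i => ∑ j, X j * C (pderiv i ((a j : A) : MvPolynomial ν ℂ)))
  have hΨ : Ψ F = 0 := by
    refine MvPolynomial.funext_set (fun _ => Set.range (C : ℂ → MvPolynomial ν ℂ))
      (fun _ => Set.infinite_range_of_injective (C_injective ν ℂ)) ?_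
    intro t ht
    have ht' : ∀ j, ∃ s : ℂ, C s = t j := fun j => ht j (Set.mem_univ j)
    choose s hs using ht'
    rw [map_zero]
    have h1 := hF (∑ j, s j • a j : A) (∑ j, s j • a j : A).2
    rw [← h1]
    have h2 : ((eval t : MvPolynomial (Fin m) (MvPolynomial ν ℂ) →+* MvPolynomial ν ℂ).comp
        (Ψ : MvPolynomial (ν ⊕ ν) ℂ →+* MvPolynomial (Fin m) (MvPolynomial ν ℂ))) =
        (dsub ((∑ j, s j • a j : A) : MvPolynomial ν ℂ) :
          MvPolynomial (ν ⊕ ν) ℂ →+* MvPolynomial ν ℂ) := by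
      apply MvPolynomial.ringHom_ext
      · intro r
        simp [Ψ, dsub, MvPolynomial.algebraMap_apply]
      · intro k
        rcases k with i | i
        · simp [Ψ, dsub]
        · simp only [Ψ, dsub, RingHom.comp_apply, RingHom.coe_coe, aeval_X, Sum.elim_inr, map_sum,
            map_mul, eval_X, eval_C]
          rw [AddSubmonoidClass.coe_finsetSum, map_sum]
          refine Finset.sum_congr rfl fun j _ => ?_
          rw [← hs]
          have : ((s j • a j : A) : MvPolynomial ν ℂ) = s j • ((a j : A) : MvPolynomial ν ℂ) := rfl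
          rw [this, Derivation.map_smul, MvPolynomial.smul_eq_C_mul]
    exact congrArg (fun g => g F) h2
  let φ : MvPolynomial (Fin m) (MvPolynomial ν ℂ) →+* L :=
    eval₂Hom (aeval x : MvPolynomial ν ℂ →ₐ[ℂ] L).toRingHom c
  have h3 : (aeval (Sum.elim x fun i => ∑ j, c j * aeval x (pderiv i ((a j : A) : MvPolynomial ν ℂ))) :
      MvPolynomial (ν ⊕ ν) ℂ →ₐ[ℂ] L).toRingHom = φ.comp Ψ.toRingHom := by
    apply MvPolynomial.ringHom_ext
    · intro r
      simp [Ψ, φ, MvPolynomial.algebraMap_apply]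
    · intro k
      rcases k with i | i
      · simp [Ψ, φ]
      · simp [Ψ, φ]
  have h4 := congrArg (fun g => g F) h3
  have h5 : aeval (Sum.elim x fun i => ∑ j, c j * aeval x (pderiv i ((a j : A) : MvPolynomial ν ℂ))) F =
      φ (Ψ F) := h4
  rw [h5, hΨ, map_zero]

/-- a linear vector field over `L` killing `A` is annihilated by the `ξ` of `Z`-points -/
theorem isZ_pairing [Fintype ν] (A : Subalgebra ℂ (MvPolynomial ν ℂ)) {L : Type} [CommRing L] [IsDomain L]
    [Algebra ℂ L] (M : Matrix ν ν L)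
    (hM : ∀ a ∈ A, ∑ i, ∑ j, C (M i j) * X j * map (algebraMap ℂ L) (pderiv i a) = 0)
    (x ξ : ν → L) (hz : IsZ A x ξ) : ∑ i, ∑ j, ξ i * M i j * x j = 0 := by
  classical
  let β := Module.Basis.ofVectorSpace ℂ L
  let F : _ → MvPolynomial (ν ⊕ ν) ℂ := fun k =>
    ∑ i, ∑ j, C (β.coord k (M i j)) * X (Sum.inl j) * X (Sum.inr i)
  have hF : ∀ k, F k ∈ IZ A := by
    intro k
    rw [mem_IZ]
    intro a ha
    simp only [F, dsub, map_sum, map_mul, aeval_X, Sum.elim_inl, Sum.elim_inr, algHom_C,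
      algebraMap_eq]
    ext s
    rw [coeff_zero]
    have h1 := congrArg (coeff s) (hM a ha)
    simp only [coeff_sum, coeff_zero, mul_assoc, coeff_C_mul] at h1 ⊢
    have h2 : ∀ i j, coeff s ((X j : MvPolynomial ν L) * map (algebraMap ℂ L) (pderiv i a)) =
        algebraMap ℂ L (coeff s (X j * pderiv i a)) := by
      intro i j
      rw [← coeff_map, map_mul, map_X]
    simp only [h2] at h1
    have h3 := congrArg (β.coord k) h1
    simp only [map_sum, map_zero] at h3
    rw [← h3]
    refine Finset.sum_congr rfl fun i _ => Finset.sum_congr rfl fun j _ => ?_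
    rw [mul_comm (M i j), ← Algebra.smul_def, map_smul, smul_eq_mul, mul_comm]
  let S : Finset _ := Finset.univ.biUnion fun i : ν => Finset.univ.biUnion fun j : ν =>
    (β.repr (M i j)).support
  have hrep : ∀ i j, M i j = ∑ k ∈ S, algebraMap ℂ L (β.coord k (M i j)) * β k := by
    intro i j
    have h1 := β.linearCombination_repr (M i j)
    rw [Finsupp.linearCombination_apply, Finsupp.sum_of_support_subset (s := S)] at h1
    · conv_lhs => rw [← h1]
      refine Finset.sum_congr rfl fun k _ => ?_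
      rw [Algebra.smul_def]
      rfl
    · intro k hk
      exact Finset.mem_biUnion.2 ⟨i, Finset.mem_univ i, Finset.mem_biUnion.2 ⟨j, Finset.mem_univ j, hk⟩⟩
    · intro k _
      exact zero_smul _ _
  have hzero : ∀ k, ∑ i, ∑ j, algebraMap ℂ L (β.coord k (M i j)) * x j * ξ i = 0 := by
    intro k
    have := hz _ (hF k)
    simpa [F, map_sum] using this
  have h5 : ∑ i, ∑ j, ξ i * M i j * x j =
      ∑ k ∈ S, β k * ∑ i, ∑ j, algebraMap ℂ L (β.coord k (M i j)) * x j * ξ i := by
    have h6 : ∀ i j, ξ i * M i j * x j =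
        ∑ k ∈ S, β k * (algebraMap ℂ L (β.coord k (M i j)) * x j * ξ i) := by
      intro i j
      conv_lhs => rw [hrep i j]
      rw [Finset.mul_sum, Finset.sum_mul]
      refine Finset.sum_congr rfl fun k _ => ?_
      ring
    simp only [h6, Finset.mul_sum]
    have h7 : ∀ i, ∑ j, ∑ k ∈ S, β k * (algebraMap ℂ L (β.coord k (M i j)) * x j * ξ i) =
        ∑ k ∈ S, ∑ j, β k * (algebraMap ℂ L (β.coord k (M i j)) * x j * ξ i) :=
      fun i => Finset.sum_comm
    simp only [h7]
    exact Finset.sum_comm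
  rw [h5]
  refine Finset.sum_eq_zero fun k _ => ?_
  rw [hzero, mul_zero]

end H50.Z
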