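import Pool.Agent.H50.Z.D5_Lattice
import Pool.Agent.H50.Z.Z1_Good
import Pool.Agent.H50.Z.L4_Dim

/-! (D2b) The isotropic space of derivations attached to a good arc. -/

open MvPolynomial H50.DO

set_option linter.unusedSectionVars false

namespace H50.Z

namespace D6

/-- chain rule -/
lemma chain {ν : Type} [Fintype ν] {R : Type} [CommRing R] [Algebra ℂ R] (x : ν → R)
    (Δ : Derivation ℂ R R) (f : MvPolynomial ν ℂ) :
    Δ (aeval x f) = ∑ i, aeval x (pderiv i f) * Δ (x i) := by
  classical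
  induction f using MvPolynomial.induction_on with
  | C r =>
    simp
  | add p q hp hq =>
    rw [map_add, map_add, hp, hq, ← Finset.sum_add_distrib]
    refine Finset.sum_congr rfl fun i _ => ?_
    rw [map_add, map_add, add_mul]
  | mul_X p j hp =>
    rw [map_mul, aeval_X, Δ.leibniz, hp]
    have h1 : ∀ i, aeval x (pderiv i (p * X j)) * Δ (x i) =
        x j * (aeval x (pderiv i p) * Δ (x i)) + (if i = j then aeval x p * Δ (x i) else 0) := by
      intro i
      rw [pderiv_mul, map_add, map_mul, map_mul, aeval_X, pderiv_X]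
      by_cases hij : i = j
      · subst hij
        simp
        ring
      · rw [if_neg hij, Pi.single_eq_of_ne (Ne.symm hij)]
        simp
        ring
    rw [Finset.sum_congr rfl fun i _ => h1 i, Finset.sum_add_distrib, ← Finset.mul_sum,
      Finset.sum_ite_eq' Finset.univ j]
    simp only [Finset.mem_univ, if_true, smul_eq_mul]
    ring

/-- the two-form vanishes on derivations killing the `a_j` -/
lemma iso_zero {ν : Type} [Fintype ν] {R : Type} [CommRing R] [IsDomain R] [Algebra ℂ R] {d : ℕ}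
    (x ξ : ν → R) (a : Fin d → MvPolynomial ν ℂ) (q : R) (hq : q ≠ 0) (c : Fin d → R)
    (h : ∀ i, q * ξ i = ∑ j, c j * aeval x (pderiv i (a j))) (Δ Δ' : Derivation ℂ R R)
    (h1 : ∀ j, Δ (aeval x (a j)) = 0) (h2 : ∀ j, Δ' (aeval x (a j)) = 0) :
    ∑ i, (Δ (x i) * Δ' (ξ i) - Δ' (x i) * Δ (ξ i)) = 0 := by
  -- the one-form vanishes
  have key : ∀ D D' : Derivation ℂ R R, (∀ j, D (aeval x (a j)) = 0) →
      q * ∑ i, D (x i) * D' (ξ i) =
        ∑ j, ∑ i, ∑ k, c j * (aeval x (pderiv k (pderiv i (a j))) * (D (x i) * D' (x k))) := by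
    intro D D' hD
    have e1 : ∀ j, ∑ i, aeval x (pderiv i (a j)) * D (x i) = 0 := by
      intro j
      rw [← chain, hD]
    have e2 : ∑ i, ξ i * D (x i) = 0 := by
      have : q * ∑ i, ξ i * D (x i) = 0 := by
        rw [Finset.mul_sum]
        calc ∑ i, q * (ξ i * D (x i)) = ∑ i, ∑ j, c j * (aeval x (pderiv i (a j)) * D (x i)) := by
              refine Finset.sum_congr rfl fun i _ => ?_
              rw [← mul_assoc, h i, Finset.sum_mul]
              exact Finset.sum_congr rfl fun j _ => mul_assoc _ _ _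
          _ = ∑ j, ∑ i, c j * (aeval x (pderiv i (a j)) * D (x i)) := Finset.sum_comm
          _ = 0 := by
              refine Finset.sum_eq_zero fun j _ => ?_
              rw [← Finset.mul_sum, e1, mul_zero]
      exact (mul_eq_zero.1 this).resolve_left hq
    have e3 : ∀ i, q * D' (ξ i) = ∑ j, (c j * ∑ k, aeval x (pderiv k (pderiv i (a j))) * D' (x k) +
        aeval x (pderiv i (a j)) * D' (c j)) - ξ i * D' q := by
      intro i
      have h3 := congrArg D' (h i)
      rw [D'.leibniz, map_sum] at h3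
      rw [eq_sub_iff_add_eq]
      simp only [smul_eq_mul] at h3
      rw [h3]
      refine Finset.sum_congr rfl fun j _ => ?_
      rw [D'.leibniz, smul_eq_mul, smul_eq_mul, chain]
    calc q * ∑ i, D (x i) * D' (ξ i) = ∑ i, D (x i) * (q * D' (ξ i)) := by
          rw [Finset.mul_sum]
          exact Finset.sum_congr rfl fun i _ => by ring
      _ = ∑ i, (∑ j, ∑ k, c j * (aeval x (pderiv k (pderiv i (a j))) * (D (x i) * D' (x k))) +
            ∑ j, D' (c j) * (aeval x (pderiv i (a j)) * D (x i)) - D' q * (ξ i * D (x i))) := by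
          refine Finset.sum_congr rfl fun i _ => ?_
          rw [e3 i, mul_sub, Finset.sum_add_distrib, mul_add, Finset.mul_sum, Finset.mul_sum]
          congr 1
          · congr 1
            · refine Finset.sum_congr rfl fun j _ => ?_
              rw [Finset.mul_sum, Finset.mul_sum]
              exact Finset.sum_congr rfl fun k _ => by ring
            · exact Finset.sum_congr rfl fun j _ => by ring
          · ring
      _ = _ := by
          rw [Finset.sum_sub_distrib, Finset.sum_add_distrib, ← Finset.mul_sum, e2, mul_zero,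
            sub_zero]
          have e4 : ∑ i, ∑ j, D' (c j) * (aeval x (pderiv i (a j)) * D (x i)) = 0 := by
            rw [Finset.sum_comm]
            refine Finset.sum_eq_zero fun j _ => ?_
            rw [← Finset.mul_sum, e1, mul_zero]
          rw [e4, add_zero, Finset.sum_comm]
  have h3 := key Δ Δ' h1
  have h4 := key Δ' Δ h2
  have h5 : ∑ j, ∑ i, ∑ k, c j * (aeval x (pderiv k (pderiv i (a j))) * (Δ (x i) * Δ' (x k))) =
      ∑ j, ∑ i, ∑ k, c j * (aeval x (pderiv k (pderiv i (a j))) * (Δ' (x i) * Δ (x k))) := by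
    refine Finset.sum_congr rfl fun j _ => ?_
    rw [Finset.sum_comm]
    refine Finset.sum_congr rfl fun i _ => Finset.sum_congr rfl fun k _ => ?_
    rw [pderiv_comm i k]
    ring
  have h6 : q * ∑ i, (Δ (x i) * Δ' (ξ i) - Δ' (x i) * Δ (ξ i)) = 0 := by
    rw [Finset.sum_sub_distrib, mul_sub, h3, h4, h5, sub_self]
  exact (mul_eq_zero.1 h6).resolve_left hq

/-- clearing denominators in (T2) -/
lemma t2_clear {ν : Type} [Fintype ν] (A : Subalgebra ℂ (MvPolynomial ν ℂ)) (hS : Surj A) {d : ℕ}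
    {b : A} {a : Fin d → A} {D : Fin d → Derivation ℂ A A} (h : IsGoodWith b a D) {R : Type}
    [CommRing R] [IsDomain R] [Algebra ℂ R] (x ξ : ν → R) (hz : IsZ A x ξ)
    (hx : aeval x (b : MvPolynomial ν ℂ) ≠ 0) :
    ∃ (q : R) (c : Fin d → R), q ≠ 0 ∧
      ∀ i, q * ξ i = ∑ j, c j * aeval x (pderiv i ((a j : A) : MvPolynomial ν ℂ)) := by
  have hmap : ∀ {σ : Type} (w : σ → R) (F : MvPolynomial σ ℂ),
      aeval (fun i => algebraMap R (FractionRing R) (w i)) F =
        algebraMap R (FractionRing R) (aeval w F) := by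
    intro σ w F
    exact MvPolynomial.aeval_algebraMap_apply (FractionRing R) w F
  have hz' : IsZ A (fun i => algebraMap R (FractionRing R) (x i))
      (fun i => algebraMap R (FractionRing R) (ξ i)) := by
    intro F hF
    have h1 := hz F hF
    have h2 : (Sum.elim (fun i => algebraMap R (FractionRing R) (x i))
        (fun i => algebraMap R (FractionRing R) (ξ i))) =
        fun i => algebraMap R (FractionRing R) (Sum.elim x ξ i) := by
      funext i
      rcases i with i | i <;> rfl
    rw [h2, hmap, h1, map_zero]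
  obtain ⟨c, hc⟩ := t2 A hS h (L := FractionRing R) _ _ hz' (by
    rw [hmap]
    intro h0
    exact hx ((IsFractionRing.injective R (FractionRing R)) (by rw [h0, map_zero])))
  obtain ⟨q, hq⟩ := IsLocalization.exist_integer_multiples_of_finite (nonZeroDivisors R) c
  choose c' hc' using hq
  refine ⟨q, c', nonZeroDivisors.ne_zero q.2, fun i => ?_⟩
  apply IsFractionRing.injective R (FractionRing R)
  rw [map_mul, hc i, map_sum, Finset.mul_sum]
  refine Finset.sum_congr rfl fun j _ => ?_
  rw [map_mul, hc' j, hmap, Algebra.smul_def, mul_assoc]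

/-- a power series killed by a combination of Euler and coefficientwise derivations -/
lemma euler_zero {L : Type} [Field L] [Algebra ℂ L] [CharZero L] {M : ℕ}
    (E : Derivation ℂ (PowerSeries L) (PowerSeries L))
    (hE : ∀ (f : PowerSeries L) (n : ℕ),
      PowerSeries.coeff n (E f) = (n : L) * PowerSeries.coeff n f)
    (D : Fin M → Derivation ℂ L L) (D' : Fin M → Derivation ℂ (PowerSeries L) (PowerSeries L))
    (hD : ∀ (j : Fin M) (f : PowerSeries L) (n : ℕ),
      PowerSeries.coeff n (D' j f) = D j (PowerSeries.coeff n f))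
    (β : PowerSeries L) (hβ : β ≠ 0) (hβ0 : PowerSeries.constantCoeff β = 0)
    (δ₀ : PowerSeries L) (δ : Fin M → PowerSeries L)
    (h0 : ∀ j, PowerSeries.constantCoeff (δ j) = 0)
    (h : δ₀ * E β + ∑ j, δ j * D' j β = 0) : PowerSeries.constantCoeff δ₀ = 0 := by
  obtain ⟨n, β', hβ', rfl⟩ := WfDvdMonoid.max_power_factor hβ
    (PowerSeries.X_prime (R := L)).irreducible
  rw [PowerSeries.X_dvd_iff] at hβ'
  have hn : n ≠ 0 := by
    rintro rfl
    rw [pow_zero, one_mul] at hβ0
    exact hβ' hβ0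
  have hX : (PowerSeries.X : PowerSeries L) ≠ 0 := PowerSeries.X_ne_zero
  have hEX : E (PowerSeries.X : PowerSeries L) = PowerSeries.X := by
    ext m
    rw [hE, PowerSeries.coeff_X]
    split_ifs with hm
    · rw [hm]; simp
    · simp
  have hEXn : E ((PowerSeries.X : PowerSeries L) ^ n) = (n : PowerSeries L) * PowerSeries.X ^ n := by
    rw [E.leibniz_pow, hEX, smul_eq_mul, nsmul_eq_mul, ← pow_succ]
    congr 2
    omega
  have hDX : ∀ j, D' j (PowerSeries.X : PowerSeries L) = 0 := by
    intro j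
    ext m
    rw [hD, PowerSeries.coeff_X, map_zero]
    split_ifs <;> simp
  have hDXn : ∀ j, D' j ((PowerSeries.X : PowerSeries L) ^ n) = 0 := by
    intro j
    rw [(D' j).leibniz_pow, hDX, smul_zero, smul_zero]
  have h1 : (PowerSeries.X : PowerSeries L) ^ n *
      (δ₀ * ((n : PowerSeries L) * β' + E β') + ∑ j, δ j * D' j β') = 0 := by
    rw [← h, E.leibniz, hEXn, smul_eq_mul, smul_eq_mul, mul_add, Finset.mul_sum]
    congr 1
    · ring
    · refine Finset.sum_congr rfl fun j _ => ?_
      rw [(D' j).leibniz, hDXn, smul_zero, add_zero, smul_eq_mul]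
      ring
  have h2 := (mul_eq_zero.1 h1).resolve_left (pow_ne_zero n hX)
  have h3 := congrArg (PowerSeries.constantCoeff (R := L)) h2
  have hE0 : PowerSeries.constantCoeff (E β') = 0 := by
    rw [← PowerSeries.coeff_zero_eq_constantCoeff_apply, hE]
    simp
  rw [map_add, map_mul, map_add, map_mul, hE0, add_zero, map_natCast, map_sum, map_zero,
    Finset.sum_eq_zero (fun j _ => by rw [map_mul, h0 j, zero_mul]), add_zero] at h3
  exact (mul_eq_zero.1 h3).resolve_right (mul_ne_zero (Nat.cast_ne_zero.2 hn) hβ')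

/-- a transcendence basis of the image of `A` -/
lemma exists_basis_image {ν : Type} (A : Subalgebra ℂ (MvPolynomial ν ℂ)) {d : ℕ}
    (hd : Algebra.trdeg ℂ A = d) {R : Type} [CommRing R] [IsDomain R] [Algebra ℂ R] (x : ν → R)
    (b : A) (hb : b ≠ 0) (hb0 : aeval x (b : MvPolynomial ν ℂ) = 0) :
    ∃ (e : ℕ) (f : Fin e → A), e + 1 ≤ d ∧ ∀ Δ : Derivation ℂ R R,
      (∀ j, Δ (aeval x ((f j : A) : MvPolynomial ν ℂ)) = 0) →
      ∀ a : A, Δ (aeval x (a : MvPolynomial ν ℂ)) = 0 := by
  let φ : A →ₐ[ℂ] R := (aeval x).comp A.val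
  have hφ : ∀ a : A, φ a = aeval x (a : MvPolynomial ν ℂ) := fun a => rfl
  have h1 : Algebra.trdeg ℂ φ.range + 1 ≤ Algebra.trdeg ℂ A :=
    l4_succ_le φ.rangeRestrict φ.rangeRestrict_surjective
      (by rw [hd]; exact Cardinal.natCast_lt_aleph0) hb (Subtype.ext hb0)
  obtain ⟨ι, t, ht⟩ := exists_isTranscendenceBasis' ℂ φ.range
  have hcard : Cardinal.mk ι = Algebra.trdeg ℂ φ.range := ht.cardinalMk_eq_trdeg
  rw [← hcard, hd] at h1
  have hfin : Finite ι := by
    apply Cardinal.lt_aleph0_iff_finite.1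
    exact (self_le_add_right _ _).trans_lt (h1.trans_lt Cardinal.natCast_lt_aleph0)
  have := Fintype.ofFinite ι
  rw [Cardinal.mk_fintype] at h1
  have h1' : Fintype.card ι + 1 ≤ d := by exact_mod_cast h1
  have ht' : IsTranscendenceBasis ℂ (t ∘ (Fintype.equivFin ι).symm) :=
    (isTranscendenceBasis_equiv (Fintype.equivFin ι).symm).2 ht
  have hsurj := φ.rangeRestrict_surjective
  choose f hf using fun j => hsurj ((t ∘ (Fintype.equivFin ι).symm) j)
  refine ⟨Fintype.card ι, f, h1', fun Δ hΔ a => ?_⟩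
  have : NoZeroSMulDivisors φ.range R := by
    refine ⟨fun {c y} h => ?_⟩
    have h' : (c : R) * y = 0 := h
    rcases mul_eq_zero.1 h' with h | h
    · exact Or.inl (Subtype.ext h)
    · exact Or.inr h
  have h2 := derivation_eq_zero ht'.isAlgebraic (Δ.compAlgebraMap φ.range) (by
    intro j
    have h3 : ((t ∘ (Fintype.equivFin ι).symm) j : φ.range) = φ.rangeRestrict (f j) := (hf j).symm
    rw [h3]
    exact hΔ j)
  have h4 := congrArg (fun D : Derivation ℂ φ.range R => D (φ.rangeRestrict a)) h2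
  exact h4

end D6

open D6

variable {ν : Type} [Fintype ν] [DecidableEq ν]

/-- (D2b) -/
theorem exists_isotropic (A : Subalgebra ℂ (MvPolynomial ν ℂ)) {d : ℕ}
    (hd : Algebra.trdeg ℂ A = d) (hS : Surj A) (L : Type) [Field L] [Algebra ℂ L] [CharZero L]
    {M : ℕ} (hM : Algebra.trdeg ℂ L = M) (xs ξs : ν → PowerSeries L) (hz : IsZ A xs ξs)
    (b : A) (hb : b ≠ 0) (hb0 : aeval xs (b : MvPolynomial ν ℂ) = 0) (b₁ : A)
    (hb₁ : IsGood A d b₁) (h1 : aeval xs (b₁ : MvPolynomial ν ℂ) ≠ 0)
    (h10 : PowerSeries.constantCoeff (aeval xs (b₁ : MvPolynomial ν ℂ)) = 0) :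
    ∃ W : Submodule L (Derivation ℂ L L), M + 2 ≤ Module.finrank L W + d ∧
      ∀ D ∈ W, ∀ D' ∈ W,
        ∑ i, (D (PowerSeries.constantCoeff (xs i)) * D' (PowerSeries.constantCoeff (ξs i)) -
          D' (PowerSeries.constantCoeff (xs i)) * D (PowerSeries.constantCoeff (ξs i))) = 0 := by
  classical
  -- transcendence basis of `L`
  obtain ⟨ι, t₀, ht₀⟩ := exists_isTranscendenceBasis' ℂ L
  have hcard : Cardinal.mk ι = Algebra.trdeg ℂ L := ht₀.cardinalMk_eq_trdeg
  have hfin : Finite ι := by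
    apply Cardinal.lt_aleph0_iff_finite.1
    rw [hcard, hM]
    exact Cardinal.natCast_lt_aleph0
  have := Fintype.ofFinite ι
  rw [hM, Cardinal.mk_fintype, Nat.cast_inj] at hcard
  obtain ⟨eι⟩ : Nonempty (Fin M ≃ ι) := ⟨(finCongr hcard.symm).trans (Fintype.equivFin ι).symm⟩
  have ht : IsTranscendenceBasis ℂ (t₀ ∘ eι) := (isTranscendenceBasis_equiv eι).2 ht₀
  have hDex : ∀ j : Fin M, ∃ D : Derivation ℂ L L, ∀ k, D ((t₀ ∘ eι) k) = if k = j then 1 else 0 :=
    fun j => exists_derivation ht fun k => if k = j then 1 else 0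
  choose D hD using hDex
  choose D' hD' using fun j => exists_coeff_derivation L (D j)
  obtain ⟨E, hE⟩ := exists_euler_derivation L
  obtain ⟨e, f, he, hf⟩ := exists_basis_image A hd xs b hb hb0
  -- the derivations of `L[[s]]`
  let G : Fin (M + 1) → Derivation ℂ (PowerSeries L) (PowerSeries L) := Fin.cons E D'
  have hG0 : G 0 = E := rfl
  have hGs : ∀ j, G (Fin.succ j) = D' j := fun j => rfl
  obtain ⟨W₀, hW₀, hW₀'⟩ := exists_reduction_of_kernel L (M + 1) e
    (fun j i => G i (aeval xs ((f j : A) : MvPolynomial ν ℂ)))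
  have hlift : ∀ v ∈ W₀, ∃ δ : Fin (M + 1) → PowerSeries L,
      (∀ i, PowerSeries.constantCoeff (δ i) = v i) ∧
      ∀ a : A, (∑ i, δ i • G i) (aeval xs (a : MvPolynomial ν ℂ)) = 0 := by
    intro v hv
    obtain ⟨δ, hδ, hδ'⟩ := hW₀' v hv
    refine ⟨δ, hδ', hf _ fun j => ?_⟩
    rw [L5.sum_apply, ← hδ j]
    exact Finset.sum_congr rfl fun i _ => mul_comm _ _
  -- the map to derivations
  let Ψ : (Fin (M + 1) → L) →ₗ[L] Derivation ℂ L L :=
    { toFun := fun v => ∑ j : Fin M, v j.succ • D j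
      map_add' := fun v w => by
        rw [← Finset.sum_add_distrib]
        exact Finset.sum_congr rfl fun j _ => by rw [Pi.add_apply, add_smul]
      map_smul' := fun c v => by
        rw [RingHom.id_apply, Finset.smul_sum]
        exact Finset.sum_congr rfl fun j _ => by rw [Pi.smul_apply, smul_eq_mul, mul_smul] }
  have hΨ : ∀ (v : Fin (M + 1) → L) (y : L), Ψ v y = ∑ j : Fin M, v j.succ * D j y :=
    fun v y => L5.sum_apply (fun j => v j.succ) D y
  have hconst : ∀ (δ : Fin (M + 1) → PowerSeries L) (v : Fin (M + 1) → L),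
      (∀ i, PowerSeries.constantCoeff (δ i) = v i) → ∀ y : PowerSeries L,
      PowerSeries.constantCoeff ((∑ i, δ i • G i) y) = Ψ v (PowerSeries.constantCoeff y) := by
    intro δ v hδ y
    rw [L5.sum_apply, hΨ, map_sum, Fin.sum_univ_succ, hG0, map_mul]
    have hE0 : PowerSeries.constantCoeff (E y) = 0 := by
      rw [← PowerSeries.coeff_zero_eq_constantCoeff_apply, hE]
      simp
    rw [hE0, mul_zero, zero_add]
    refine Finset.sum_congr rfl fun j _ => ?_
    rw [map_mul, hδ, hGs, ← PowerSeries.coeff_zero_eq_constantCoeff_apply, hD',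
      PowerSeries.coeff_zero_eq_constantCoeff_apply]
  have hinj : Function.Injective (Ψ.domRestrict W₀) := by
    rw [← LinearMap.ker_eq_bot, LinearMap.ker_eq_bot']
    rintro ⟨v, hv⟩ hv0
    have hv0' : Ψ v = 0 := hv0
    have hvs : ∀ j : Fin M, v j.succ = 0 := by
      intro j
      have h2 := hΨ v ((t₀ ∘ eι) j)
      rw [hv0', Finset.sum_congr rfl (fun k _ => by rw [hD k j])] at h2
      simpa using h2.symm
    obtain ⟨δ, hδ, hδ'⟩ := hlift v hv
    have h3 := hδ' b₁
    rw [L5.sum_apply, Fin.sum_univ_succ, hG0] at h3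
    have h4 := euler_zero E hE D D' hD' _ h1 h10 (δ 0) (fun j => δ j.succ)
      (fun j => by rw [hδ, hvs]) h3
    have h5 : v = 0 := by
      funext i
      refine Fin.cases ?_ (fun j => hvs j) i
      rw [← hδ 0, h4]
      rfl
    exact Subtype.ext h5
  refine ⟨W₀.map Ψ, ?_, ?_⟩
  · have h2 := LinearMap.finrank_range_of_inj hinj
    rw [LinearMap.range_domRestrict] at h2
    rw [h2]
    omega
  · rintro _ ⟨v, hv, rfl⟩ _ ⟨w, hw, rfl⟩
    obtain ⟨a, Da, hgood⟩ := hb₁
    obtain ⟨q, c, hq, hc⟩ := t2_clear A hS hgood xs ξs hz h1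
    obtain ⟨δ, hδ, hδ'⟩ := hlift v hv
    obtain ⟨η, hη, hη'⟩ := hlift w hw
    have h2 := iso_zero xs ξs (fun j => ((a j : A) : MvPolynomial ν ℂ)) q hq c hc
      (∑ i, δ i • G i) (∑ i, η i • G i) (fun j => hδ' (a j)) (fun j => hη' (a j))
    have h3 := congrArg (PowerSeries.constantCoeff (R := L)) h2
    rw [map_sum, map_zero] at h3
    rw [← h3]
    refine Finset.sum_congr rfl fun i _ => ?_
    rw [map_sub, map_mul, map_mul, hconst δ v hδ, hconst η w hη, hconst δ v hδ, hconst η w hη]

end H50.Z
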