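import Pool.Agent.H50.Z.D2_Descent
import Pool.Agent.H50.Z.D4_GoodArc
import Pool.Agent.H50.Z.D6_Isotropic

/-! (D2) No divisor of `Z` lies over the bad locus. -/

open MvPolynomial H50.DO

set_option linter.unusedSectionVars false

namespace H50.Z

variable {ν : Type} [Fintype ν] [DecidableEq ν]

lemma constantCoeff_aeval {σ L : Type} [Field L] [Algebra ℂ L] (ws : σ → PowerSeries L)
    (F : MvPolynomial σ ℂ) : PowerSeries.constantCoeff (aeval ws F) =
      aeval (fun i => PowerSeries.constantCoeff (ws i)) F := by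
  have h4 : ((PowerSeries.constantCoeff (R := L)).comp
      (aeval ws : MvPolynomial σ ℂ →ₐ[ℂ] PowerSeries L).toRingHom) =
      (aeval (fun i => PowerSeries.constantCoeff (ws i)) : MvPolynomial σ ℂ →ₐ[ℂ] L).toRingHom := by
    apply MvPolynomial.ringHom_ext
    · intro r
      simp only [AlgHom.toRingHom_eq_coe, RingHom.coe_comp, RingHom.coe_coe, Function.comp_apply,
        algHom_C]
      rfl
    · intro i
      simp
  exact congrArg (fun φ => φ F) h4

/-- (D2), in terms of a point with values in an algebraically closed field -/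
theorem d2_point (K : Subgroup (Matrix.unitaryGroup ν ℂ)) {d : ℕ}
    (hd : Algebra.trdeg ℂ (InvAlg K) = d) (hS : Surj (InvAlg K)) (L : Type) [Field L] [Algebra ℂ L]
    [IsAlgClosed L] [CharZero L] {M : ℕ} (hM : Algebra.trdeg ℂ L = M) (x ξ : ν → L)
    (hz : IsZ (InvAlg K) x ξ)
    (hgood : ∀ b : InvAlg K, IsGood (InvAlg K) d b → aeval x (b : MvPolynomial ν ℂ) = 0)
    (hinj : ∀ D : Derivation ℂ L L, (∀ i, D (x i) = 0) → (∀ i, D (ξ i) = 0) → D = 0) :
    M + 1 < Fintype.card ν + d := by
  classical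
  obtain ⟨b, b₁, xs, ξs, hb, hb₁, hzs, hb0, hb1, hF⟩ := exists_good_arc K hd hS L x ξ hz hgood
  have h10 : PowerSeries.constantCoeff (aeval xs (b₁ : MvPolynomial ν ℂ)) = 0 := by
    have h2 := hF (inS (b₁ : MvPolynomial ν ℂ)) (inS_mem_InvAlg_dbl K _ b₁.2)
    have h3 : aeval (Sum.elim x ξ) (inS (b₁ : MvPolynomial ν ℂ)) = 0 := by
      rw [inS, aeval_rename, Sum.elim_comp_inl]
      exact hgood b₁ hb₁
    rw [h3, inS, aeval_rename, Sum.elim_comp_inl] at h2
    rw [← h2]
    exact constantCoeff_aeval xs _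
  obtain ⟨W, hW, hW'⟩ := exists_isotropic (InvAlg K) hd hS L hM xs ξs hzs b hb hb0 b₁ hb₁ hb1 h10
  have hz0 : IsZ (InvAlg K) (fun i => PowerSeries.constantCoeff (xs i))
      (fun i => PowerSeries.constantCoeff (ξs i)) := by
    intro F hF'
    have h8 := constantCoeff_aeval (Sum.elim xs ξs) F
    rw [hzs F hF', map_zero] at h8
    rw [h8]
    congr 2
    funext i
    rcases i with i | i <;> rfl
  let Φ : Derivation ℂ L L →ₗ[L] (ν → L) × (ν → L) :=
    { toFun := fun D => (fun i => D (x i), fun i => D (ξ i))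
      map_add' := fun D D' => rfl
      map_smul' := fun c D => rfl }
  have hΦ : Function.Injective Φ := by
    rw [← LinearMap.ker_eq_bot, LinearMap.ker_eq_bot']
    intro D hD
    exact hinj D (fun i => congrFun (congrArg Prod.fst hD) i)
      (fun i => congrFun (congrArg Prod.snd hD) i)
  have h5 : Module.finrank L (W.map Φ) ≤ Fintype.card ν := by
    apply finrank_isotropic_le
    rintro _ ⟨D, hD, rfl⟩ _ ⟨D', hD', rfl⟩
    have h6 := descent2 K L x ξ (fun i => PowerSeries.constantCoeff (xs i))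
      (fun i => PowerSeries.constantCoeff (ξs i)) hz hz0 (fun F hF' => (hF F hF').symm) D D'
    exact h6.trans (hW' D hD D' hD')
  have h7 : Module.finrank L (W.map Φ) = Module.finrank L W :=
    (LinearEquiv.finrank_eq (Submodule.equivMapOfInjective Φ hΦ W)).symm
  omega

/-- **(D2)** -/
theorem d2 (K : Subgroup (Matrix.unitaryGroup ν ℂ)) {d : ℕ}
    (hd : Algebra.trdeg ℂ (InvAlg K) = d) (hS : Surj (InvAlg K))
    (Q : Ideal (MvPolynomial (ν ⊕ ν) ℂ)) [Q.IsPrime] (hQ : IZ (InvAlg K) ≤ Q)
    (hgood : ∀ b : InvAlg K, IsGood (InvAlg K) d b → inS (b : MvPolynomial ν ℂ) ∈ Q) :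
    ¬ ((Fintype.card ν + d : ℕ) : Cardinal) ≤
      Algebra.trdeg ℂ (MvPolynomial (ν ⊕ ν) ℂ ⧸ Q) + 1 := by
  intro hle
  let R := MvPolynomial (ν ⊕ ν) ℂ ⧸ Q
  let F0 := FractionRing R
  let L := AlgebraicClosure F0
  have hRF : Function.Injective (algebraMap R F0) := IsFractionRing.injective R F0
  have hFL : Function.Injective (algebraMap F0 L) := (algebraMap F0 L).injective
  have hRL : Function.Injective (algebraMap R L) := by
    rw [IsScalarTower.algebraMap_eq R F0 L]
    exact hFL.comp hRF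
  have hfaith : FaithfulSMul R L := (faithfulSMul_iff_algebraMap_injective R L).2 hRL
  have hfaith' : FaithfulSMul ℂ R :=
    (faithfulSMul_iff_algebraMap_injective ℂ R).2 (algebraMap ℂ R).injective
  have halg1 : Algebra.IsAlgebraic R F0 := IsLocalization.isAlgebraic F0 (nonZeroDivisors R)
  have halg : Algebra.IsAlgebraic R L := Algebra.IsAlgebraic.trans R F0 L
  have : CharZero L := charZero_of_injective_algebraMap (algebraMap ℂ L).injective
  have htr : Algebra.trdeg ℂ L = Algebra.trdeg ℂ R := by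
    have h1 := trdeg_add_eq ℂ R (A := L)
    rw [trdeg_eq_zero (R := R) (A := L), add_zero] at h1
    exact h1.symm
  have hfin : Algebra.trdeg ℂ R < Cardinal.aleph0 := trdeg_lt_aleph0_of_finiteType
  obtain ⟨M, hM⟩ := Cardinal.lt_aleph0.1 hfin
  let π : MvPolynomial (ν ⊕ ν) ℂ →ₐ[ℂ] L := (IsScalarTower.toAlgHom ℂ R L).comp (Ideal.Quotient.mkₐ ℂ Q)
  have hπ : ∀ F, π F = algebraMap R L (Ideal.Quotient.mk Q F) := fun F => rfl
  have hπQ : ∀ F ∈ Q, π F = 0 := by
    intro F hF
    rw [hπ, Ideal.Quotient.eq_zero_iff_mem.2 hF, map_zero]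
  let x : ν → L := fun i => π (X (Sum.inl i))
  let ξ : ν → L := fun i => π (X (Sum.inr i))
  have hxξ : ∀ F, aeval (Sum.elim x ξ) F = π F := by
    intro F
    have h1 : (aeval (Sum.elim x ξ) : MvPolynomial (ν ⊕ ν) ℂ →ₐ[ℂ] L) = π := by
      apply MvPolynomial.algHom_ext
      intro k
      rcases k with i | i
      · rw [aeval_X]; rfl
      · rw [aeval_X]; rfl
    rw [h1]
  have hpt := d2_point K hd hS L (M := M) (htr.trans hM) x ξ
    (fun F hF => by rw [hxξ]; exact hπQ F (hQ hF))
    (fun b hb => by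
      have h1 := hπQ _ (hgood b hb)
      rw [← hxξ, inS, aeval_rename, Sum.elim_comp_inl] at h1
      exact h1)
    (by
      intro D h1 h2
      refine derivation_eq_zero (t := Sum.elim x ξ) ?_ D ?_
      · let B := Algebra.adjoin ℂ (Set.range (Sum.elim x ξ))
        have hB : ∀ r : R, algebraMap R L r ∈ B := by
          intro r
          obtain ⟨F, rfl⟩ := Ideal.Quotient.mk_surjective r
          rw [← hπ, ← hxξ]
          have hmem : aeval (Sum.elim x ξ) F ∈ (aeval (Sum.elim x ξ) :
              MvPolynomial (ν ⊕ ν) ℂ →ₐ[ℂ] L).range := ⟨F, rfl⟩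
          rw [← Algebra.adjoin_range_eq_range_aeval] at hmem
          exact hmem
        let f : R →+* B := (algebraMap R L).codRestrict B.toSubring hB
        refine Algebra.IsAlgebraic.ringHom_of_comp_eq (R := R) (A := L) f (RingHom.id L) ?_
          Function.surjective_id ?_
        · intro r s hrs
          exact hRL (congrArg Subtype.val hrs)
        · exact RingHom.ext fun r => rfl
      · rintro (i | i)
        · exact h1 i
        · exact h2 i)
  have h9 : ((Fintype.card ν + d : ℕ) : Cardinal) ≤ ((M + 1 : ℕ) : Cardinal) := by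
    push_cast at hle ⊢
    rw [← hM]
    exact hle
  have h10 : Fintype.card ν + d ≤ M + 1 := by exact_mod_cast h9
  omega

end H50.Z
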