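import Pool.Agent.H50.DO.Degree

/-!
# Basic definitions

`S = ℂ[x]`, a group `K` of unitary matrices, the invariants `A = S^K`, the ring `O = ℂ[x, ξ]`
(variables `Sum.inl i` for `x_i`, `Sum.inr i` for `ξ_i`), the ideal `I_Z`, good elements,
surjectivity and graded surjectivity.
-/

open MvPolynomial H50.DO

set_option linter.unusedSectionVars false

namespace H50.Z

variable {ν : Type}

/-! ### groups of unitary matrices -/

section Group

variable [Fintype ν] [DecidableEq ν]

/-- substitution of a matrix: `act M f = f ∘ M` -/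
noncomputable def act {R : Type*} [CommRing R] (M : Matrix ν ν R) :
    MvPolynomial ν R →ₐ[R] MvPolynomial ν R :=
  aeval fun i => ∑ j, C (M i j) * X j

lemma act_X {R : Type*} [CommRing R] (M : Matrix ν ν R) (i : ν) :
    act M (X i) = ∑ j, C (M i j) * X j := by
  rw [act, aeval_X]

lemma act_mul {R : Type*} [CommRing R] (M N : Matrix ν ν R) (f : MvPolynomial ν R) :
    act (M * N) f = act N (act M f) := by
  have h : (act (M * N) : MvPolynomial ν R →ₐ[R] MvPolynomial ν R) = (act N).comp (act M) := by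
    apply MvPolynomial.algHom_ext
    intro i
    rw [AlgHom.comp_apply, act_X, act_X, map_sum]
    simp only [map_mul, act_X, Matrix.mul_apply, map_sum, algHom_C, algebraMap_eq, Finset.sum_mul,
      Finset.mul_sum]
    rw [Finset.sum_comm]
    apply Finset.sum_congr rfl
    intro j _
    apply Finset.sum_congr rfl
    intro l _
    ring
  rw [h]
  rfl

lemma act_one {R : Type*} [CommRing R] (f : MvPolynomial ν R) : act (1 : Matrix ν ν R) f = f := by
  have h : (act (1 : Matrix ν ν R) : MvPolynomial ν R →ₐ[R] MvPolynomial ν R) =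
      AlgHom.id R _ := by
    apply MvPolynomial.algHom_ext
    intro i
    rw [act_X]
    simp [Matrix.one_apply, Finset.sum_ite_eq]
  rw [h]
  rfl

/-- the algebra of invariants `S^K` -/
noncomputable def InvAlg (K : Subgroup (Matrix.unitaryGroup ν ℂ)) : Subalgebra ℂ (MvPolynomial ν ℂ) where
  carrier := {f | ∀ k ∈ K, act (k : Matrix ν ν ℂ) f = f}
  mul_mem' := by
    intro a b ha hb k hk
    rw [map_mul, ha k hk, hb k hk]
  add_mem' := by
    intro a b ha hb k hk
    rw [map_add, ha k hk, hb k hk]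
  algebraMap_mem' := by
    intro r k _
    exact (act (k : Matrix ν ν ℂ)).commutes r

lemma mem_InvAlg {K : Subgroup (Matrix.unitaryGroup ν ℂ)} {f : MvPolynomial ν ℂ} :
    f ∈ InvAlg K ↔ ∀ k ∈ K, act (k : Matrix ν ν ℂ) f = f := Iff.rfl

/-- `k` acting on `V × V*`: the matrix `diag(k, conj k)` -/
noncomputable def dblM (k : Matrix ν ν ℂ) : Matrix (ν ⊕ ν) (ν ⊕ ν) ℂ :=
  Matrix.fromBlocks k 0 0 (k.map (starRingEnd ℂ))

lemma dblM_mul (k l : Matrix ν ν ℂ) : dblM (k * l) = dblM k * dblM l := by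
  unfold dblM
  rw [Matrix.fromBlocks_multiply]
  simp only [Matrix.mul_zero, Matrix.zero_mul, add_zero, zero_add]
  congr 1
  exact Matrix.map_mul

lemma dblM_one : dblM (1 : Matrix ν ν ℂ) = 1 := by
  unfold dblM
  rw [Matrix.map_one _ (map_zero _) (map_one _), Matrix.fromBlocks_one]

lemma dblM_star (k : Matrix ν ν ℂ) : star (dblM k) = dblM (star k) := by
  unfold dblM
  rw [Matrix.star_eq_conjTranspose, Matrix.fromBlocks_conjTranspose, Matrix.conjTranspose_zero]
  congr 1

/-- `k ↦ diag(k, conj k)` -/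
noncomputable def dblHom : Matrix.unitaryGroup ν ℂ →* Matrix.unitaryGroup (ν ⊕ ν) ℂ where
  toFun k := ⟨dblM k, by
    rw [Matrix.mem_unitaryGroup_iff, dblM_star, ← dblM_mul, Matrix.mem_unitaryGroup_iff.1 k.2,
      dblM_one]⟩
  map_one' := Subtype.ext dblM_one
  map_mul' k l := Subtype.ext (dblM_mul _ _)

/-- the group `K` acting on `V × V*` -/
noncomputable def dbl (K : Subgroup (Matrix.unitaryGroup ν ℂ)) :
    Subgroup (Matrix.unitaryGroup (ν ⊕ ν) ℂ) :=
  K.map dblHom

/-- the matrix `k` over an extension `L` of `ℂ` -/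
def kL (L : Type*) [CommRing L] [Algebra ℂ L] (k : Matrix ν ν ℂ) : Matrix ν ν L :=
  k.map (algebraMap ℂ L)

end Group

/-! ### the ideal `I_Z` and `Z`-points -/

/-- `F ↦ F(x, da(x))` -/
noncomputable def dsub (a : MvPolynomial ν ℂ) : MvPolynomial (ν ⊕ ν) ℂ →ₐ[ℂ] MvPolynomial ν ℂ :=
  aeval (Sum.elim X fun i => pderiv i a)

/-- `I_Z = {F : F(x, da(x)) = 0 for all a ∈ A}` -/
noncomputable def IZ (A : Subalgebra ℂ (MvPolynomial ν ℂ)) : Ideal (MvPolynomial (ν ⊕ ν) ℂ) :=
  ⨅ a : A, RingHom.ker (dsub (a : MvPolynomial ν ℂ))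

lemma mem_IZ {A : Subalgebra ℂ (MvPolynomial ν ℂ)} {F : MvPolynomial (ν ⊕ ν) ℂ} :
    F ∈ IZ A ↔ ∀ a ∈ A, dsub a F = 0 := by
  unfold IZ
  rw [Ideal.mem_iInf]
  constructor
  · intro h a ha
    exact h ⟨a, ha⟩
  · intro h a
    exact h a a.2

/-- points of `Z` with values in a `ℂ`-algebra `L` -/
def IsZ (A : Subalgebra ℂ (MvPolynomial ν ℂ)) {L : Type*} [CommRing L] [Algebra ℂ L]
    (x ξ : ν → L) : Prop :=
  ∀ F ∈ IZ A, aeval (Sum.elim x ξ) F = 0

/-- `S ⊆ O` -/
noncomputable def inS : MvPolynomial ν ℂ →ₐ[ℂ] MvPolynomial (ν ⊕ ν) ℂ := rename Sum.inl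

/-- weight in `ξ` -/
def wxi : ν ⊕ ν → ℕ := Sum.elim (fun _ => 0) (fun _ => 1)

/-- `F` is homogeneous of degree `m` in `ξ` -/
def XiHom (F : MvPolynomial (ν ⊕ ν) ℂ) (m : ℕ) : Prop := IsWeightedHomogeneous wxi F m

/-! ### good elements -/

/-- `b` is good with respect to `a_1, …, a_d` and the derivations `D_1, …, D_d` of `A` -/
def IsGoodWith {A : Type*} [CommRing A] [Algebra ℂ A] {d : ℕ} (b : A) (a : Fin d → A)
    (D : Fin d → Derivation ℂ A A) : Prop :=
  b ≠ 0 ∧ IsTranscendenceBasis ℂ a ∧ ∀ j l, D j (a l) = if j = l then b else 0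

/-- `b` is good -/
def IsGood (A : Type*) [CommRing A] [Algebra ℂ A] (d : ℕ) (b : A) : Prop :=
  ∃ (a : Fin d → A) (D : Fin d → Derivation ℂ A A), IsGoodWith b a D

/-! ### surjectivity and graded surjectivity -/

/-- every differential operator on `A` is the restriction of one on the polynomial ring -/
def Surj (A : Subalgebra ℂ (MvPolynomial ν ℂ)) : Prop :=
  ∀ P : Module.End ℂ A, (∃ n, DOp n P) →
    ∃ Q : Module.End ℂ (MvPolynomial ν ℂ), (∃ m, DOp m Q) ∧
      ∀ a : A, Q a = ((P a : A) : MvPolynomial ν ℂ)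

/-- every differential operator on `A` is the restriction of one of the same order on the
polynomial ring -/
def GrSurj (A : Subalgebra ℂ (MvPolynomial ν ℂ)) : Prop :=
  ∀ (n : ℕ) (P : Module.End ℂ A), DOp n P →
    ∃ Q : Module.End ℂ (MvPolynomial ν ℂ), DOp n Q ∧
      ∀ a : A, Q a = ((P a : A) : MvPolynomial ν ℂ)

/-! ### linear vector fields -/

section Lie

variable [Fintype ν]

/-- the linear vector field `f ↦ ∑ X_ij x_j ∂_i f` -/
noncomputable def lv (M : Matrix ν ν ℂ) : Derivation ℂ (MvPolynomial ν ℂ) (MvPolynomial ν ℂ) :=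
  mkDerivation ℂ fun i => ∑ j, C (M i j) * X j

/-- the symbol `∑ X_ij x_j ξ_i` -/
noncomputable def muX (M : Matrix ν ν ℂ) : MvPolynomial (ν ⊕ ν) ℂ :=
  ∑ i, ∑ j, C (M i j) * X (Sum.inl j) * X (Sum.inr i)

/-- the Lie algebra of all `X` such that `X` and `X*` kill `A` -/
noncomputable def gg (A : Subalgebra ℂ (MvPolynomial ν ℂ)) : Submodule ℂ (Matrix ν ν ℂ) where
  carrier := {M | (∀ a ∈ A, lv M a = 0) ∧ ∀ a ∈ A, lv M.conjTranspose a = 0}
  add_mem' := by
    have hadd : ∀ M N : Matrix ν ν ℂ, lv (M + N) = lv M + lv N := by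
      intro M N
      apply MvPolynomial.derivation_ext
      intro i
      rw [Derivation.add_apply, lv, lv, lv, mkDerivation_X, mkDerivation_X, mkDerivation_X,
        ← Finset.sum_add_distrib]
      apply Finset.sum_congr rfl
      intro j _
      rw [Matrix.add_apply, C_add, add_mul]
    intro M N hM hN
    constructor
    · intro a ha
      rw [hadd, Derivation.add_apply, hM.1 a ha, hN.1 a ha, add_zero]
    · intro a ha
      rw [Matrix.conjTranspose_add, hadd, Derivation.add_apply, hM.2 a ha, hN.2 a ha, add_zero]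
  zero_mem' := by
    have hz : lv (0 : Matrix ν ν ℂ) = 0 := by
      apply MvPolynomial.derivation_ext
      intro i
      rw [lv, mkDerivation_X]
      simp
    constructor
    · intro a _
      rw [hz]; rfl
    · intro a _
      rw [Matrix.conjTranspose_zero, hz]; rfl
  smul_mem' := by
    have hs : ∀ (c : ℂ) (M : Matrix ν ν ℂ), lv (c • M) = c • lv M := by
      intro c M
      apply MvPolynomial.derivation_ext
      intro i
      rw [Derivation.smul_apply, lv, lv, mkDerivation_X, mkDerivation_X, Finset.smul_sum]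
      apply Finset.sum_congr rfl
      intro j _
      rw [Matrix.smul_apply, smul_eq_mul, C_mul, MvPolynomial.smul_eq_C_mul, mul_assoc]
    intro c M hM
    constructor
    · intro a ha
      rw [hs, Derivation.smul_apply, hM.1 a ha, smul_zero]
    · intro a ha
      rw [Matrix.conjTranspose_smul, hs, Derivation.smul_apply, hM.2 a ha, smul_zero]

/-- the stabilizer of a point in `gg` -/
noncomputable def stab (A : Subalgebra ℂ (MvPolynomial ν ℂ)) (x : ν → ℂ) : Submodule ℂ (Matrix ν ν ℂ) where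
  carrier := {M | M ∈ gg A ∧ M.mulVec x = 0}
  add_mem' := by
    intro M N hM hN
    exact ⟨(gg A).add_mem hM.1 hN.1, by rw [Matrix.add_mulVec, hM.2, hN.2, add_zero]⟩
  zero_mem' := ⟨(gg A).zero_mem, Matrix.zero_mulVec x⟩
  smul_mem' := by
    intro c M hM
    exact ⟨(gg A).smul_mem c hM.1, by rw [Matrix.smul_mulVec, hM.2, smul_zero]⟩

/-- `K` contains all unitary matrices fixing its invariants -/
def MaxK [DecidableEq ν] (K : Subgroup (Matrix.unitaryGroup ν ℂ)) : Prop :=
  ∀ k : Matrix.unitaryGroup ν ℂ, (∀ a ∈ InvAlg K, act (k : Matrix ν ν ℂ) a = a) → k ∈ K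

/-- no constant vector field kills `A` -/
def NoConst (A : Subalgebra ℂ (MvPolynomial ν ℂ)) : Prop :=
  ∀ v : ν → ℂ, (∀ a ∈ A, ∑ i, C (v i) * pderiv i a = 0) → v = 0

end Lie

end H50.Z
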