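import Pool.Agent.H50.Z.R1b_ReyL
import Pool.Agent.H50.Z.O1_Op

/-! (F1) The Lie algebra `gg`, stability, points of minimal norm. -/

open MvPolynomial H50.DO

set_option linter.unusedSectionVars false

namespace H50.Z

variable {ν : Type} [Fintype ν] [DecidableEq ν]

/-- `gg` is closed under `*` -/
theorem conjTranspose_mem_gg {A : Subalgebra ℂ (MvPolynomial ν ℂ)} {M : Matrix ν ν ℂ}
    (hM : M ∈ gg A) : M.conjTranspose ∈ gg A := by
  refine ⟨hM.2, ?_⟩
  rw [Matrix.conjTranspose_conjTranspose]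
  exact hM.1

lemma lv_X (M : Matrix ν ν ℂ) (i : ν) :
    lv M (X i : MvPolynomial ν ℂ) = ∑ j, C (M i j) * X j := by
  rw [lv, mkDerivation_X]

/-- the formula for the linear vector field -/
lemma lv_apply (M : Matrix ν ν ℂ) (f : MvPolynomial ν ℂ) :
    lv M f = ∑ i, (∑ j, C (M i j) * X j) * pderiv i f := by
  have h : lv M = ∑ i, (∑ j, C (M i j) * X j : MvPolynomial ν ℂ) • pderiv i := by
    apply MvPolynomial.derivation_ext
    intro i
    rw [lv_X]
    have h1 : (∑ l, (∑ j, C (M l j) * X j : MvPolynomial ν ℂ) • pderiv l) (X i) =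
        ∑ l, (∑ j, C (M l j) * X j : MvPolynomial ν ℂ) * pderiv l (X i) := by
      rw [← Derivation.coeFnAddMonoidHom_apply, map_sum, Finset.sum_apply]
      rfl
    rw [h1]
    have h2 : ∀ l, (∑ j, C (M l j) * X j : MvPolynomial ν ℂ) * pderiv l (X i) =
        if l = i then ∑ j, C (M i j) * X j else 0 := by
      intro l
      by_cases hl : l = i
      · subst hl
        rw [pderiv_X_self, mul_one, if_pos rfl]
      · rw [pderiv_X_of_ne (Ne.symm hl), mul_zero, if_neg hl]
    rw [Finset.sum_congr rfl fun l _ => h2 l, Finset.sum_ite_eq' Finset.univ i, if_pos (Finset.mem_univ i)]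
  rw [h, ← Derivation.coeFnAddMonoidHom_apply, map_sum, Finset.sum_apply]
  rfl

/-- evaluation of the linear vector field -/
lemma eval_lv (M : Matrix ν ν ℂ) (f : MvPolynomial ν ℂ) (x : ν → ℂ) :
    eval x (lv M f) = ∑ i, M.mulVec x i * eval x (pderiv i f) := by
  rw [lv_apply, map_sum]
  apply Finset.sum_congr rfl
  intro i _
  rw [map_mul, map_sum]
  congr 1
  simp only [map_mul, eval_C, eval_X]
  rfl

lemma lv_add (M N : Matrix ν ν ℂ) (f : MvPolynomial ν ℂ) : lv (M + N) f = lv M f + lv N f := by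
  simp only [lv_apply]
  rw [← Finset.sum_add_distrib]
  apply Finset.sum_congr rfl
  intro i _
  rw [← add_mul, ← Finset.sum_add_distrib]
  congr 1
  apply Finset.sum_congr rfl
  intro j _
  rw [Matrix.add_apply, C_add, add_mul]

lemma lv_smul (c : ℂ) (M : Matrix ν ν ℂ) (f : MvPolynomial ν ℂ) : lv (c • M) f = C c * lv M f := by
  simp only [lv_apply]
  rw [Finset.mul_sum]
  apply Finset.sum_congr rfl
  intro i _
  rw [← mul_assoc, Finset.mul_sum]
  congr 1
  apply Finset.sum_congr rfl
  intro j _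
  rw [Matrix.smul_apply, smul_eq_mul, C_mul, mul_assoc]

/-- the bracket of linear vector fields -/
lemma lv_bracket (M N : Matrix ν ν ℂ) (f : MvPolynomial ν ℂ) :
    lv (M * N - N * M) f = lv N (lv M f) - lv M (lv N f) := by
  have h : lv (M * N - N * M) = ⁅lv N, lv M⁆ := by
    apply MvPolynomial.derivation_ext
    intro i
    rw [Derivation.commutator_apply]
    have h1 : ∀ P Q : Matrix ν ν ℂ, lv Q (lv P (X i)) = ∑ j, C ((P * Q) i j) * X j := by
      intro P Q
      rw [lv_X, map_sum]
      have h2 : ∀ j, lv Q (C (P i j) * X j) = ∑ l, C (P i j) * (C (Q j l) * X l) := by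
        intro j
        rw [Derivation.leibniz, lv_X, smul_eq_mul, smul_eq_mul, Finset.mul_sum]
        have h3 : lv Q (C (P i j)) = 0 := by
          rw [← algebraMap_eq]
          exact Derivation.map_algebraMap _ _
        rw [h3, mul_zero, add_zero]
      rw [Finset.sum_congr rfl fun j _ => h2 j, Finset.sum_comm]
      apply Finset.sum_congr rfl
      intro l _
      rw [Matrix.mul_apply, map_sum, Finset.sum_mul]
      apply Finset.sum_congr rfl
      intro j _
      rw [C_mul, mul_assoc]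
    rw [h1, h1, lv_X, ← Finset.sum_sub_distrib]
    apply Finset.sum_congr rfl
    intro j _
    rw [Matrix.sub_apply, C_sub, sub_mul]
  rw [h, Derivation.commutator_apply]

/-- `gg` is closed under brackets -/
theorem bracket_mem_gg {A : Subalgebra ℂ (MvPolynomial ν ℂ)} {M N : Matrix ν ν ℂ}
    (hM : M ∈ gg A) (hN : N ∈ gg A) : M * N - N * M ∈ gg A := by
  constructor
  · intro a ha
    rw [lv_bracket, hM.1 a ha, hN.1 a ha, map_zero, map_zero, sub_zero]
  · intro a ha
    rw [Matrix.conjTranspose_sub, Matrix.conjTranspose_mul, Matrix.conjTranspose_mul, lv_bracket,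
      hM.2 a ha, hN.2 a ha, map_zero, map_zero, sub_zero]

/-- conjugation of linear vector fields -/
lemma eval_lv_conj (k l M : Matrix ν ν ℂ) (hlk : l * k = 1) (f : MvPolynomial ν ℂ) (x : ν → ℂ) :
    eval (k.mulVec x) (lv (k * M * l) f) = eval x (lv M (act k f)) := by
  rw [eval_lv, eval_lv]
  have h1 : (k * M * l).mulVec (k.mulVec x) = k.mulVec (M.mulVec x) := by
    rw [Matrix.mulVec_mulVec, mul_assoc, hlk, mul_one, Matrix.mulVec_mulVec]
  rw [h1]
  have h2 : ∀ i, eval x (pderiv i (act k f)) = ∑ l, k l i * eval (k.mulVec x) (pderiv l f) := by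
    intro i
    rw [pderiv_act, map_sum]
    apply Finset.sum_congr rfl
    intro l _
    rw [map_mul, eval_C, eval_act]
  simp only [h2, Finset.mul_sum]
  rw [Finset.sum_comm]
  apply Finset.sum_congr rfl
  intro l _
  have h3 : k.mulVec (M.mulVec x) l = ∑ i, k l i * M.mulVec x i := rfl
  rw [h3, Finset.sum_mul]
  apply Finset.sum_congr rfl
  intro i _
  ring

lemma lv_conj_eq_zero (k l M : Matrix ν ν ℂ) (hlk : l * k = 1) (a : MvPolynomial ν ℂ)
    (hk : act k a = a) (hM : lv M a = 0) : lv (k * M * l) a = 0 := by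
  have hkl : k * l = 1 := mul_eq_one_comm.1 hlk
  apply MvPolynomial.funext
  intro y
  have h1 : k.mulVec (l.mulVec y) = y := by
    rw [Matrix.mulVec_mulVec, hkl, Matrix.one_mulVec]
  have h2 := eval_lv_conj k l M hlk a (l.mulVec y)
  rw [h1, hk, hM, map_zero] at h2
  rw [h2, map_zero]

/-- `gg` is stable under conjugation by elements of `K` -/
theorem conj_mem_gg (K : Subgroup (Matrix.unitaryGroup ν ℂ)) (k : Matrix.unitaryGroup ν ℂ)
    (hk : k ∈ K) {M : Matrix ν ν ℂ} (hM : M ∈ gg (InvAlg K)) :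
    (k : Matrix ν ν ℂ) * M * star (k : Matrix ν ν ℂ) ∈ gg (InvAlg K) := by
  have h1 : star (k : Matrix ν ν ℂ) * (k : Matrix ν ν ℂ) = 1 := Matrix.mem_unitaryGroup_iff'.1 k.2
  constructor
  · intro a ha
    exact lv_conj_eq_zero _ _ _ h1 a (ha k hk) (hM.1 a ha)
  · intro a ha
    rw [Matrix.conjTranspose_mul, Matrix.conjTranspose_mul, ← Matrix.star_eq_conjTranspose (star _),
      star_star, ← Matrix.star_eq_conjTranspose (k : Matrix ν ν ℂ), ← mul_assoc]
    exact lv_conj_eq_zero _ _ _ h1 a (ha k hk) (hM.2 a ha)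

/-- conjugation maps stabilizers to stabilizers -/
theorem conj_mem_stab (K : Subgroup (Matrix.unitaryGroup ν ℂ)) (k : Matrix.unitaryGroup ν ℂ)
    (hk : k ∈ K) (x : ν → ℂ) {M : Matrix ν ν ℂ} (hM : M ∈ stab (InvAlg K) x) :
    (k : Matrix ν ν ℂ) * M * star (k : Matrix ν ν ℂ) ∈
      stab (InvAlg K) ((k : Matrix ν ν ℂ).mulVec x) := by
  have h1 : star (k : Matrix ν ν ℂ) * (k : Matrix ν ν ℂ) = 1 := Matrix.mem_unitaryGroup_iff'.1 k.2
  refine ⟨conj_mem_gg K k hk hM.1, ?_⟩
  rw [Matrix.mulVec_mulVec, mul_assoc, h1, mul_one, ← Matrix.mulVec_mulVec, hM.2, Matrix.mulVec_zero]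

/-! ### exponentials -/

section
open scoped Matrix.Norms.Operator

lemma hasDerivAt_exp_entry (M : Matrix ν ν ℂ) (t : ℂ) (i j : ν) :
    HasDerivAt (fun s : ℂ => (NormedSpace.exp (s • M) : Matrix ν ν ℂ) i j)
      ((M * (NormedSpace.exp (t • M) : Matrix ν ν ℂ)) i j) t := by
  have h := hasDerivAt_exp_smul_const' (𝕂 := ℂ) M t
  exact hasDerivAt_pi.1 (hasDerivAt_pi.1 h i) j

end

/-- the flow of `M` -/
noncomputable def flow (M : Matrix ν ν ℂ) (t : ℂ) : Matrix ν ν ℂ := NormedSpace.exp (t • M)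

lemma flow_zero (M : Matrix ν ν ℂ) : flow M 0 = 1 := by
  rw [flow, zero_smul, NormedSpace.exp_zero]

lemma hasDerivAt_flow_mulVec (M : Matrix ν ν ℂ) (x : ν → ℂ) (t : ℂ) (i : ν) :
    HasDerivAt (fun s : ℂ => (flow M s).mulVec x i) (M.mulVec ((flow M t).mulVec x) i) t := by
  have h1 : M.mulVec ((flow M t).mulVec x) i = ∑ j, (M * flow M t) i j * x j := by
    rw [Matrix.mulVec_mulVec]
    rfl
  rw [h1]
  have h2 : (fun s : ℂ => (flow M s).mulVec x i) = fun s => ∑ j, flow M s i j * x j := rfl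
  rw [h2]
  apply HasDerivAt.fun_sum
  intro j _
  exact (hasDerivAt_exp_entry M t i j).mul_const (x j)

/-- the chain rule for polynomials -/
lemma hasDerivAt_eval (y : ℂ → ν → ℂ) (y' : ν → ℂ) (t : ℂ)
    (hy : ∀ i, HasDerivAt (fun s => y s i) (y' i) t) (F : MvPolynomial ν ℂ) :
    HasDerivAt (fun s => eval (y s) F) (∑ i, y' i * eval (y t) (pderiv i F)) t := by
  induction F using MvPolynomial.induction_on with
  | C a =>
    simp only [eval_C, pderiv_C, map_zero, mul_zero, Finset.sum_const_zero]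
    exact hasDerivAt_const t a
  | add p q hp hq =>
    simp only [map_add, mul_add, Finset.sum_add_distrib]
    exact hp.add hq
  | mul_X p i hp =>
    have h1 : ∑ l, y' l * eval (y t) (pderiv l (p * X i)) =
        (∑ l, y' l * eval (y t) (pderiv l p)) * y t i + eval (y t) p * y' i := by
      have h2 : ∀ l, y' l * eval (y t) (pderiv l (p * X i)) =
          y' l * eval (y t) (pderiv l p) * y t i + (if l = i then eval (y t) p * y' i else 0) := by
        intro l
        rw [Derivation.leibniz, smul_eq_mul, smul_eq_mul, map_add, map_mul, map_mul, eval_X]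
        by_cases hl : l = i
        · subst hl
          rw [pderiv_X_self, map_one, if_pos rfl]
          ring
        · rw [pderiv_X_of_ne (Ne.symm hl), map_zero, if_neg hl]
          ring
      rw [Finset.sum_congr rfl fun l _ => h2 l, Finset.sum_add_distrib, Finset.sum_mul,
        Finset.sum_ite_eq' Finset.univ i, if_pos (Finset.mem_univ i)]
    rw [h1]
    simp only [map_mul, eval_X]
    exact hp.mul (hy i)

lemma hasDerivAt_eval_flow (M : Matrix ν ν ℂ) (x : ν → ℂ) (F : MvPolynomial ν ℂ) (t : ℂ) :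
    HasDerivAt (fun s => eval ((flow M s).mulVec x) F) (eval ((flow M t).mulVec x) (lv M F)) t := by
  rw [eval_lv]
  exact hasDerivAt_eval _ _ t (fun i => hasDerivAt_flow_mulVec M x t i) F

/-- the flow preserves the polynomials killed by `lv M` -/
lemma act_flow_eq (M : Matrix ν ν ℂ) (a : MvPolynomial ν ℂ) (ha : lv M a = 0) (t : ℂ) :
    act (flow M t) a = a := by
  apply MvPolynomial.funext
  intro x
  rw [eval_act]
  have h1 : ∀ s, HasDerivAt (fun s => eval ((flow M s).mulVec x) a) 0 s := by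
    intro s
    have := hasDerivAt_eval_flow M x a s
    rwa [ha, map_zero] at this
  have h2 := is_const_of_deriv_eq_zero (fun s => (h1 s).differentiableAt) (fun s => (h1 s).deriv) t 0
  rw [h2, flow_zero, Matrix.one_mulVec]

lemma flow_unitary (M : Matrix ν ν ℂ) (hM : M.conjTranspose = -M) (t : ℝ) :
    flow M t ∈ Matrix.unitaryGroup ν ℂ := by
  rw [Matrix.mem_unitaryGroup_iff, Matrix.star_eq_conjTranspose, flow, ← Matrix.exp_conjTranspose,
    Matrix.conjTranspose_smul, hM, smul_neg, Complex.star_def, Complex.conj_ofReal,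
    ← Matrix.exp_add_of_commute _ _
      (show Commute ((t : ℂ) • M) (-((t : ℂ) • M)) from (Commute.refl _).neg_right), add_neg_cancel,
    NormedSpace.exp_zero]

/-- flows of skew-hermitian elements of `gg` are in `K` -/
lemma flow_mem (K : Subgroup (Matrix.unitaryGroup ν ℂ)) (hmax : MaxK K) {M : Matrix ν ν ℂ}
    (hM : M ∈ gg (InvAlg K)) (hs : M.conjTranspose = -M) (t : ℝ) :
    (⟨flow M t, flow_unitary M hs t⟩ : Matrix.unitaryGroup ν ℂ) ∈ K := by
  apply hmax
  intro a ha
  exact act_flow_eq M a (hM.1 a ha) t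

/-- skew-hermitian parts -/
lemma exists_skew {A : Subalgebra ℂ (MvPolynomial ν ℂ)} {M : Matrix ν ν ℂ} (hM : M ∈ gg A) :
    ∃ P Q : Matrix ν ν ℂ, P ∈ gg A ∧ Q ∈ gg A ∧ P.conjTranspose = -P ∧ Q.conjTranspose = -Q ∧
      M = P + Complex.I • Q := by
  have hM' := conjTranspose_mem_gg hM
  refine ⟨(1 / 2 : ℂ) • (M - M.conjTranspose), (-Complex.I / 2 : ℂ) • (M + M.conjTranspose),
    (gg A).smul_mem _ ((gg A).sub_mem hM hM'), (gg A).smul_mem _ ((gg A).add_mem hM hM'), ?_, ?_, ?_⟩
  · rw [Matrix.conjTranspose_smul, Matrix.conjTranspose_sub, Matrix.conjTranspose_conjTranspose,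
      ← smul_neg, neg_sub]
    congr 1
    simp
  · rw [Matrix.conjTranspose_smul, Matrix.conjTranspose_add, Matrix.conjTranspose_conjTranspose,
      ← neg_smul, add_comm]
    congr 1
    simp [neg_div]
  · rw [smul_smul]
    have h1 : Complex.I * (-Complex.I / 2) = 1 / 2 := by
      rw [mul_div_assoc', mul_neg, Complex.I_mul_I, neg_neg]
    rw [h1, ← smul_add]
    have h2 : M - M.conjTranspose + (M + M.conjTranspose) = (2 : ℂ) • M := by
      rw [two_smul]
      abel
    rw [h2, smul_smul]
    norm_num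

/-! ### stable ideals -/

/-- expansion of `act (flow M t) f` -/
lemma exists_expansion (M : Matrix ν ν ℂ) (f : MvPolynomial ν ℂ) :
    ∃ (ι : Type) (_ : Fintype ι) (c : ι → ℂ → ℂ) (c' : ι → ℂ) (g : ι → MvPolynomial ν ℂ),
      (∀ l, HasDerivAt (c l) (c' l) 0) ∧ (∀ t, act (flow M t) f = ∑ l, c l t • g l) ∧
      lv M f = ∑ l, c' l • g l := by
  induction f using MvPolynomial.induction_on with
  | C a =>
    refine ⟨Unit, inferInstance, fun _ _ => a, fun _ => 0, fun _ => 1, ?_, ?_, ?_⟩
    · intro l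
      exact hasDerivAt_const 0 a
    · intro t
      rw [algHom_C, algebraMap_eq, Finset.univ_unique, Finset.sum_singleton, smul_eq_C_mul, mul_one]
    · rw [← algebraMap_eq, Derivation.map_algebraMap]
      simp
  | add p q hp hq =>
    obtain ⟨ι₁, i₁, c₁, c₁', g₁, h1, h2, h3⟩ := hp
    obtain ⟨ι₂, i₂, c₂, c₂', g₂, k1, k2, k3⟩ := hq
    refine ⟨ι₁ ⊕ ι₂, inferInstance, Sum.elim c₁ c₂, Sum.elim c₁' c₂', Sum.elim g₁ g₂, ?_, ?_, ?_⟩
    · rintro (l | l)
      · exact h1 l
      · exact k1 l
    · intro t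
      rw [map_add, h2, k2, Fintype.sum_sum_type]
      rfl
    · rw [map_add, h3, k3, Fintype.sum_sum_type]
      rfl
  | mul_X p i hp =>
    obtain ⟨ι₁, i₁, c₁, c₁', g₁, h1, h2, h3⟩ := hp
    refine ⟨ι₁ × ν, inferInstance, fun l t => c₁ l.1 t * flow M t i l.2,
      fun l => c₁' l.1 * (1 : Matrix ν ν ℂ) i l.2 + c₁ l.1 0 * M i l.2, fun l => g₁ l.1 * X l.2,
      ?_, ?_, ?_⟩
    · intro l
      have h4 := (h1 l.1).mul (hasDerivAt_exp_entry M 0 i l.2)
      have h5 : (NormedSpace.exp ((0 : ℂ) • M) : Matrix ν ν ℂ) = 1 := flow_zero M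
      rw [h5, mul_one] at h4
      exact h4
    · intro t
      rw [map_mul, h2, act_X, Fintype.sum_prod_type, Finset.sum_mul]
      apply Finset.sum_congr rfl
      intro l _
      rw [Finset.mul_sum]
      apply Finset.sum_congr rfl
      intro j _
      simp only [smul_eq_C_mul, C_mul]
      ring
    · have h6 := h2 0
      rw [flow_zero, act_one] at h6
      rw [Derivation.leibniz, h3, lv_X, smul_eq_mul, smul_eq_mul, Fintype.sum_prod_type]
      have h7 : ∀ l, ∑ j, (c₁' l * (1 : Matrix ν ν ℂ) i j + c₁ l 0 * M i j) • (g₁ l * X j) =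
          (c₁' l • g₁ l) * X i + (c₁ l 0 • g₁ l) * ∑ j, C (M i j) * X j := by
        intro l
        have h8 : ∀ j, (c₁' l * (1 : Matrix ν ν ℂ) i j + c₁ l 0 * M i j) • (g₁ l * X j) =
            (if j = i then (c₁' l • g₁ l) * X i else 0) + (c₁ l 0 • g₁ l) * (C (M i j) * X j) := by
          intro j
          by_cases hj : j = i
          · subst hj
            rw [Matrix.one_apply_eq, if_pos rfl]
            simp only [smul_eq_C_mul, C_mul, C_add, C_1]
            ring
          · rw [Matrix.one_apply_ne (Ne.symm hj), if_neg hj]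
            simp only [smul_eq_C_mul, C_mul, C_add, C_0]
            ring
        rw [Finset.sum_congr rfl fun j _ => h8 j, Finset.sum_add_distrib,
          Finset.sum_ite_eq' Finset.univ i, if_pos (Finset.mem_univ i), Finset.mul_sum]
      rw [Finset.sum_congr rfl fun l _ => h7 l, Finset.sum_add_distrib, ← Finset.sum_mul,
        ← Finset.sum_mul, ← h6]
      ring

lemma lv_mem_of_skew (K : Subgroup (Matrix.unitaryGroup ν ℂ)) (hmax : MaxK K)
    (I : Ideal (MvPolynomial ν ℂ)) (hI : ∀ k ∈ K, ∀ f ∈ I, act (k : Matrix ν ν ℂ) f ∈ I)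
    {M : Matrix ν ν ℂ} (hM : M ∈ gg (InvAlg K)) (hs : M.conjTranspose = -M)
    (f : MvPolynomial ν ℂ) (hf : f ∈ I) : lv M f ∈ I := by
  by_contra hcon
  have hcon' : lv M f ∉ I.restrictScalars ℂ := hcon
  obtain ⟨φ, hφ, hφI⟩ := Submodule.exists_dual_map_eq_bot_of_notMem hcon' inferInstance
  have hφ0 : ∀ g ∈ I, φ g = 0 := by
    intro g hg
    have : φ g ∈ Submodule.map φ (I.restrictScalars ℂ) := Submodule.mem_map_of_mem hg
    rw [hφI] at this
    exact this
  obtain ⟨ι, _, c, c', g, h1, h2, h3⟩ := exists_expansion M f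
  apply hφ
  rw [h3, map_sum]
  have h4 : HasDerivAt (fun t : ℂ => ∑ l, c l t * φ (g l)) (∑ l, c' l * φ (g l)) 0 := by
    apply HasDerivAt.fun_sum
    intro l _
    exact (h1 l).mul_const _
  have h5 : HasDerivAt (fun t : ℝ => ∑ l, c l t * φ (g l)) (∑ l, c' l * φ (g l)) 0 := by
    have h4' : HasDerivAt (fun t : ℂ => ∑ l, c l t * φ (g l)) (∑ l, c' l * φ (g l)) ((0 : ℝ) : ℂ) := by
      rw [Complex.ofReal_zero]
      exact h4
    exact h4'.comp_ofReal
  have h6 : (fun t : ℝ => ∑ l, c l t * φ (g l)) = fun _ => 0 := by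
    funext t
    have h7 : act (flow M t) f ∈ I := hI _ (flow_mem K hmax hM hs t) f hf
    have h8 := hφ0 _ h7
    rw [h2, map_sum] at h8
    rw [← h8]
    apply Finset.sum_congr rfl
    intro l _
    rw [map_smul, smul_eq_mul]
  rw [h6] at h5
  have h9 := h5.unique (hasDerivAt_const 0 0)
  rw [← h9]
  apply Finset.sum_congr rfl
  intro l _
  rw [map_smul, smul_eq_mul]

/-- `K`-stable ideals are `gg`-stable (`K` maximal) -/
theorem lv_mem_of_stable (K : Subgroup (Matrix.unitaryGroup ν ℂ)) (hmax : MaxK K)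
    (I : Ideal (MvPolynomial ν ℂ)) (hI : ∀ k ∈ K, ∀ f ∈ I, act (k : Matrix ν ν ℂ) f ∈ I)
    {M : Matrix ν ν ℂ} (hM : M ∈ gg (InvAlg K)) (f : MvPolynomial ν ℂ) (hf : f ∈ I) :
    lv M f ∈ I := by
  obtain ⟨P, Q, hP, hQ, hPs, hQs, rfl⟩ := exists_skew hM
  rw [lv_add, lv_smul]
  exact I.add_mem (lv_mem_of_skew K hmax I hI hP hPs f hf)
    (I.mul_mem_left _ (lv_mem_of_skew K hmax I hI hQ hQs f hf))

/-- the complexified flow preserves the zero sets of stable ideals -/
lemma eval_flow_eq_zero (K : Subgroup (Matrix.unitaryGroup ν ℂ)) (hmax : MaxK K)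
    (I : Ideal (MvPolynomial ν ℂ)) (hI : ∀ k ∈ K, ∀ f ∈ I, act (k : Matrix ν ν ℂ) f ∈ I)
    {M : Matrix ν ν ℂ} (hM : M ∈ gg (InvAlg K)) (hs : M.conjTranspose = -M) (x : ν → ℂ)
    (hx : ∀ F ∈ I, eval x F = 0) (F : MvPolynomial ν ℂ) (hF : F ∈ I) (t : ℂ) :
    eval ((flow M t).mulVec x) F = 0 := by
  have h1 : Differentiable ℂ (fun s : ℂ => eval ((flow M s).mulVec x) F) :=
    fun s => (hasDerivAt_eval_flow M x F s).differentiableAt
  have h2 : ∀ s : ℝ, eval ((flow M s).mulVec x) F = 0 := by
    intro s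
    rw [← eval_act]
    exact hx _ (hI _ (flow_mem K hmax hM hs s) F hF)
  have h3 : (fun s : ℂ => eval ((flow M s).mulVec x) F) = fun _ => 0 := by
    apply AnalyticOnNhd.eq_of_frequently_eq (z₀ := 0) (𝕜 := ℂ)
    · intro z _
      exact h1.analyticAt z
    · intro z _
      exact analyticAt_const
    · have h5 : Filter.Tendsto (fun n : ℕ => (((1 : ℝ) / ((n : ℝ) + 1) : ℝ) : ℂ)) Filter.atTop
          (nhdsWithin 0 {0}ᶜ) := by
        rw [tendsto_nhdsWithin_iff]
        constructor
        · have := (Complex.continuous_ofReal.tendsto 0).comp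
            (tendsto_one_div_add_atTop_nhds_zero_nat (𝕜 := ℝ))
          rw [Complex.ofReal_zero] at this
          exact this
        · apply Filter.Eventually.of_forall
          intro n
          rw [Set.mem_compl_iff, Set.mem_singleton_iff, Complex.ofReal_eq_zero]
          positivity
      apply h5.frequently
      apply Filter.Frequently.of_forall
      intro n
      exact h2 _
  exact congrFun h3 t

/-- existence of points of minimal norm -/
lemma exists_min (V : Set (ν → ℂ)) (hV : IsClosed V) (hne : V.Nonempty) :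
    ∃ x ∈ V, ∀ y ∈ V, ∑ i, Complex.normSq (x i) ≤ ∑ i, Complex.normSq (y i) := by
  obtain ⟨x₀, hx₀⟩ := hne
  have hcont : Continuous (fun x : ν → ℂ => ∑ i, Complex.normSq (x i)) :=
    continuous_finsetSum _ fun i _ => Complex.continuous_normSq.comp (continuous_apply i)
  let B : Set (ν → ℂ) := {x | ∑ i, Complex.normSq (x i) ≤ ∑ i, Complex.normSq (x₀ i)}
  have hBc : IsClosed B := isClosed_le hcont continuous_const
  have hBb : Bornology.IsBounded B := by
    rw [Metric.isBounded_iff_subset_closedBall 0]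
    refine ⟨Real.sqrt (∑ i, Complex.normSq (x₀ i)), ?_⟩
    intro x hx
    rw [mem_closedBall_zero_iff, pi_norm_le_iff_of_nonneg (Real.sqrt_nonneg _)]
    intro i
    apply Real.le_sqrt_of_sq_le
    rw [← Complex.normSq_eq_norm_sq]
    refine le_trans ?_ hx
    exact Finset.single_le_sum (f := fun i => Complex.normSq (x i))
      (fun i _ => Complex.normSq_nonneg _) (Finset.mem_univ i)
  have hcomp : IsCompact (V ∩ B) := by
    apply Metric.isCompact_of_isClosed_isBounded (hV.inter hBc)
    exact hBb.subset Set.inter_subset_right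
  obtain ⟨x, hx, hmin⟩ := hcomp.exists_isMinOn
    ⟨x₀, hx₀, (le_rfl : ∑ i, Complex.normSq (x₀ i) ≤ ∑ i, Complex.normSq (x₀ i))⟩ hcont.continuousOn
  refine ⟨x, hx.1, ?_⟩
  intro y hy
  by_cases hyB : y ∈ B
  · exact hmin ⟨hy, hyB⟩
  · have h1 : ∑ i, Complex.normSq (x₀ i) ≤ ∑ i, Complex.normSq (y i) := le_of_lt (not_le.1 hyB)
    exact le_trans hx.2 h1

/-- Zero sets of `K`-stable ideals contain a point of minimal norm, which satisfies `⟨Mx, x⟩ = 0` for all
`M ∈ gg`. -/
theorem exists_normMin (K : Subgroup (Matrix.unitaryGroup ν ℂ)) (hmax : MaxK K)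
    (I : Ideal (MvPolynomial ν ℂ)) (hI : ∀ k ∈ K, ∀ f ∈ I, act (k : Matrix ν ν ℂ) f ∈ I)
    (hne : ∃ x : ν → ℂ, ∀ F ∈ I, eval x F = 0) :
    ∃ x : ν → ℂ, (∀ F ∈ I, eval x F = 0) ∧
      ∀ M ∈ gg (InvAlg K), ∑ i, (M.mulVec x) i * starRingEnd ℂ (x i) = 0 := by
  have hclosed : IsClosed {x : ν → ℂ | ∀ F ∈ I, eval x F = 0} := by
    have : {x : ν → ℂ | ∀ F ∈ I, eval x F = 0} = ⋂ F ∈ I, {x | eval x F = 0} := by
      ext x
      simp
    rw [this]
    apply isClosed_biInter
    intro F _
    exact isClosed_eq (MvPolynomial.continuous_eval F) continuous_const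
  obtain ⟨x, hx, hmin⟩ := exists_min _ hclosed hne
  refine ⟨x, hx, ?_⟩
  have hskew : ∀ M ∈ gg (InvAlg K), M.conjTranspose = -M →
      ∑ i, (M.mulVec x) i * starRingEnd ℂ (x i) = 0 := by
    intro M hM hs
    -- the curve `exp (s I M) x`
    have hy : ∀ s : ℝ, (flow M (Complex.I * s)).mulVec x ∈ {x : ν → ℂ | ∀ F ∈ I, eval x F = 0} :=
      fun s F hF => eval_flow_eq_zero K hmax I hI hM hs x hx F hF _
    have h1 : ∀ i, HasDerivAt (fun s : ℝ => (flow M (Complex.I * s)).mulVec x i)
        (M.mulVec x i * Complex.I) 0 := by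
      intro i
      have h2 : HasDerivAt (fun s : ℂ => (flow M s).mulVec x i) (M.mulVec x i)
          (Complex.I * ((0 : ℝ) : ℂ)) := by
        have := hasDerivAt_flow_mulVec M x 0 i
        rw [flow_zero, Matrix.one_mulVec] at this
        rwa [Complex.ofReal_zero, mul_zero]
      have h3 : HasDerivAt (fun s : ℂ => Complex.I * s) Complex.I ((0 : ℝ) : ℂ) := by
        simpa using (hasDerivAt_id ((0 : ℝ) : ℂ)).const_mul Complex.I
      exact (HasDerivAt.comp ((0 : ℝ) : ℂ) h2 h3).comp_ofReal
    have h4 : ∀ i, HasDerivAt (fun s : ℝ => (flow M (Complex.I * s)).mulVec x i *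
        starRingEnd ℂ ((flow M (Complex.I * s)).mulVec x i))
        (M.mulVec x i * Complex.I * starRingEnd ℂ (x i) +
          x i * starRingEnd ℂ (M.mulVec x i * Complex.I)) 0 := by
      intro i
      have h5 : HasDerivAt (fun s : ℝ => starRingEnd ℂ ((flow M (Complex.I * s)).mulVec x i))
          (starRingEnd ℂ (M.mulVec x i * Complex.I)) 0 := (h1 i).star
      have h6 := (h1 i).mul h5
      rw [Complex.ofReal_zero, mul_zero, flow_zero, Matrix.one_mulVec] at h6
      exact h6
    have h7 : HasDerivAt (fun s : ℝ => ∑ i, Complex.normSq ((flow M (Complex.I * s)).mulVec x i))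
        (∑ i, (M.mulVec x i * Complex.I * starRingEnd ℂ (x i) +
          x i * starRingEnd ℂ (M.mulVec x i * Complex.I))).re 0 := by
      have h8 := HasDerivAt.fun_sum (u := Finset.univ) fun i _ => h4 i
      have h9 := (Complex.reCLM.hasFDerivAt.comp_hasDerivAt (0 : ℝ) h8)
      have h10 : (fun s : ℝ => ∑ i, Complex.normSq ((flow M (Complex.I * s)).mulVec x i)) =
          fun s : ℝ => Complex.reCLM (∑ i, (flow M (Complex.I * s)).mulVec x i *
            starRingEnd ℂ ((flow M (Complex.I * s)).mulVec x i)) := by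
        funext s
        rw [map_sum]
        apply Finset.sum_congr rfl
        intro i _
        rw [Complex.mul_conj]
        exact (Complex.ofReal_re _).symm
      rw [h10]
      exact h9
    have h11 : IsLocalMin (fun s : ℝ => ∑ i, Complex.normSq ((flow M (Complex.I * s)).mulVec x i)) 0 := by
      apply Filter.Eventually.of_forall
      intro s
      have := hmin _ (hy s)
      simp only
      rw [Complex.ofReal_zero, mul_zero, flow_zero, Matrix.one_mulVec]
      exact this
    have h12 := h11.hasDerivAt_eq_zero h7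
    -- `⟨Mx, x⟩` is purely imaginary
    have h13 : ∑ i, x i * starRingEnd ℂ (M.mulVec x i) = -∑ i, M.mulVec x i * starRingEnd ℂ (x i) := by
      have h14 : ∑ i, x i * starRingEnd ℂ (M.mulVec x i) =
          ∑ i, M.conjTranspose.mulVec x i * starRingEnd ℂ (x i) := by
        simp only [Matrix.mulVec, dotProduct, map_sum, map_mul, Finset.mul_sum, Finset.sum_mul,
          Matrix.conjTranspose_apply]
        rw [Finset.sum_comm]
        apply Finset.sum_congr rfl
        intro i _
        apply Finset.sum_congr rfl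
        intro j _
        rw [Complex.star_def]
        ring
      rw [h14, hs, ← Finset.sum_neg_distrib]
      apply Finset.sum_congr rfl
      intro i _
      rw [Matrix.neg_mulVec, Pi.neg_apply, neg_mul]
    have h15 : ∑ i, (M.mulVec x i * Complex.I * starRingEnd ℂ (x i) +
          x i * starRingEnd ℂ (M.mulVec x i * Complex.I)) =
        2 * Complex.I * ∑ i, M.mulVec x i * starRingEnd ℂ (x i) := by
      rw [Finset.sum_add_distrib]
      have h16 : ∑ i, M.mulVec x i * Complex.I * starRingEnd ℂ (x i) =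
          Complex.I * ∑ i, M.mulVec x i * starRingEnd ℂ (x i) := by
        rw [Finset.mul_sum]
        apply Finset.sum_congr rfl
        intro i _
        ring
      have h17 : ∑ i, x i * starRingEnd ℂ (M.mulVec x i * Complex.I) =
          -Complex.I * ∑ i, x i * starRingEnd ℂ (M.mulVec x i) := by
        rw [Finset.mul_sum]
        apply Finset.sum_congr rfl
        intro i _
        rw [map_mul, Complex.conj_I]
        ring
      rw [h16, h17, h13]
      ring
    rw [h15] at h12
    set S := ∑ i, M.mulVec x i * starRingEnd ℂ (x i) with hS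
    have h18 : S.im = 0 := by
      have : (2 * Complex.I * S).re = -2 * S.im := by
        simp [Complex.mul_re, Complex.mul_im]
      rw [this] at h12
      linarith
    have h19 : S.re = 0 := by
      have h20 : starRingEnd ℂ S = -S := by
        rw [← h13, hS, map_sum]
        apply Finset.sum_congr rfl
        intro i _
        rw [map_mul, Complex.conj_conj, mul_comm]
      have h21 := congrArg Complex.re h20
      rw [Complex.conj_re, Complex.neg_re] at h21
      linarith
    exact Complex.ext h19 h18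
  intro M hM
  obtain ⟨P, Q, hP, hQ, hPs, hQs, rfl⟩ := exists_skew hM
  have h1 : ∑ i, ((P + Complex.I • Q).mulVec x) i * starRingEnd ℂ (x i) =
      ∑ i, (P.mulVec x) i * starRingEnd ℂ (x i) +
        Complex.I * ∑ i, (Q.mulVec x) i * starRingEnd ℂ (x i) := by
    rw [Finset.mul_sum, ← Finset.sum_add_distrib]
    apply Finset.sum_congr rfl
    intro i _
    rw [Matrix.add_mulVec, Matrix.smul_mulVec, Pi.add_apply, Pi.smul_apply, smul_eq_mul]
    ring
  rw [h1, hskew P hP hPs, hskew Q hQ hQs, mul_zero, add_zero]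

/-- at such a point the stabilizer is closed under `*` -/
theorem conjTranspose_mem_stab {A : Subalgebra ℂ (MvPolynomial ν ℂ)} (x : ν → ℂ)
    (hx : ∀ M ∈ gg A, ∑ i, (M.mulVec x) i * starRingEnd ℂ (x i) = 0) {M : Matrix ν ν ℂ}
    (hM : M ∈ stab A x) : M.conjTranspose ∈ stab A x := by
  refine ⟨conjTranspose_mem_gg hM.1, ?_⟩
  have h1 := hx _ (bracket_mem_gg hM.1 (conjTranspose_mem_gg hM.1))
  have h2 : ((M * M.conjTranspose - M.conjTranspose * M).mulVec x) =
      M.mulVec (M.conjTranspose.mulVec x) := by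
    rw [Matrix.sub_mulVec, ← Matrix.mulVec_mulVec, ← Matrix.mulVec_mulVec, hM.2,
      Matrix.mulVec_zero, sub_zero]
  rw [h2] at h1
  have h3 : ∑ i, M.mulVec (M.conjTranspose.mulVec x) i * starRingEnd ℂ (x i) =
      ∑ i, (M.conjTranspose.mulVec x) i * starRingEnd ℂ (M.conjTranspose.mulVec x i) := by
    have h4 : ∀ y : ν → ℂ, ∑ i, M.mulVec y i * starRingEnd ℂ (x i) =
        ∑ i, y i * starRingEnd ℂ (M.conjTranspose.mulVec x i) := by
      intro y
      simp only [Matrix.mulVec, dotProduct, map_sum, map_mul, Finset.mul_sum, Finset.sum_mul,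
        Matrix.conjTranspose_apply]
      rw [Finset.sum_comm]
      apply Finset.sum_congr rfl
      intro i _
      apply Finset.sum_congr rfl
      intro j _
      rw [Complex.star_def, Complex.conj_conj]
      ring
    exact h4 _
  rw [h3] at h1
  funext i
  have h5 : ∑ i, Complex.normSq (M.conjTranspose.mulVec x i) = 0 := by
    have h6 : ((∑ i, Complex.normSq (M.conjTranspose.mulVec x i) : ℝ) : ℂ) = 0 := by
      rw [← h1, Complex.ofReal_sum]
      apply Finset.sum_congr rfl
      intro i _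
      rw [Complex.mul_conj]
    exact_mod_cast h6
  have h7 := (Finset.sum_eq_zero_iff_of_nonneg (fun i _ => Complex.normSq_nonneg _)).1 h5 i
    (Finset.mem_univ i)
  exact Complex.normSq_eq_zero.1 h7

/-- `da(x)` vanishes on `gg_x V` -/
theorem stab_pairing {A : Subalgebra ℂ (MvPolynomial ν ℂ)} (x v : ν → ℂ) {M : Matrix ν ν ℂ}
    (hM : M ∈ stab A x) (a : MvPolynomial ν ℂ) (ha : a ∈ A) :
    ∑ i, (M.mulVec v) i * eval x (pderiv i a) = 0 := by
  have h1 : ∀ l, ∑ i, M i l * eval x (pderiv i a) = 0 := by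
    intro l
    have h2 := hM.1.1 a ha
    rw [lv_apply] at h2
    have h3 := congrArg (fun f => eval x (pderiv l f)) h2
    simp only [map_zero, map_sum] at h3
    rw [← h3]
    apply Finset.sum_congr rfl
    intro i _
    have h4 : ∑ j, M i j * x j = 0 := congrFun hM.2 i
    have h5 : pderiv l (∑ j, C (M i j) * X j : MvPolynomial ν ℂ) = C (M i l) := by
      rw [map_sum, Finset.sum_eq_single l]
      · rw [pderiv_C_mul, pderiv_X_self, mul_one]
      · intro b _ hb
        rw [pderiv_C_mul, pderiv_X_of_ne hb, mul_zero]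
      · intro h
        exact absurd (Finset.mem_univ l) h
    have h6 : pderiv l ((∑ j, C (M i j) * X j) * pderiv i a) =
        (∑ j, C (M i j) * X j) * pderiv l (pderiv i a) + pderiv i a * C (M i l) := by
      rw [Derivation.leibniz, h5, smul_eq_mul, smul_eq_mul]
    rw [h6, map_add, map_mul, map_mul, eval_C, map_sum]
    simp only [map_mul, eval_C, eval_X]
    rw [h4, zero_mul, zero_add, mul_comm]
  have h2 : ∀ i, M.mulVec v i * eval x (pderiv i a) = ∑ l, v l * (M i l * eval x (pderiv i a)) := by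
    intro i
    have : M.mulVec v i = ∑ l, M i l * v l := rfl
    rw [this, Finset.sum_mul]
    apply Finset.sum_congr rfl
    intro l _
    ring
  rw [Finset.sum_congr rfl fun i _ => h2 i, Finset.sum_comm]
  apply Finset.sum_eq_zero
  intro l _
  rw [← Finset.mul_sum, h1, mul_zero]

end H50.Z
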