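import Pool.Agent.H50.Z.F1_Lie
import Pool.Agent.H50.Z.Z1_Good
import Pool.Agent.H50.Z.R3_Hilbert
import Pool.Agent.H50.Z.G1_Exists

/-! (F2) The stratum of maximal stabilizer dimension over the good locus. -/

open MvPolynomial H50.DO

set_option linter.unusedSectionVars false

namespace H50.Z

namespace F2

/-- chain rule -/
lemma pderiv_aeval {σ τ : Type} [Fintype τ] (u : τ → MvPolynomial σ ℂ) (g : MvPolynomial τ ℂ) (i : σ) :
    pderiv i (aeval u g) = ∑ j, aeval u (pderiv j g) * pderiv i (u j) := by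
  classical
  induction g using MvPolynomial.induction_on with
  | C a => simp
  | add p q hp hq => simp only [map_add, hp, hq, add_mul, Finset.sum_add_distrib]
  | mul_X p s hp =>
    rw [map_mul, aeval_X, Derivation.leibniz, hp]
    have h1 : ∀ j, aeval u (pderiv j (p * X s)) * pderiv i (u j) =
        (if j = s then aeval u p * pderiv i (u j) else 0) +
          u s * (aeval u (pderiv j p) * pderiv i (u j)) := by
      intro j
      rw [Derivation.leibniz, smul_eq_mul, smul_eq_mul, map_add, map_mul, map_mul, aeval_X,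
        pderiv_X]
      by_cases hj : j = s
      · subst hj
        simp
        ring
      · rw [if_neg hj, Pi.single_apply, if_neg (Ne.symm hj)]
        simp
        ring
    simp only [h1, Finset.sum_add_distrib, Finset.sum_ite_eq', Finset.mem_univ, if_true,
      smul_eq_mul, Finset.mul_sum]

/-- the Jacobian criterion for algebraic independence -/
lemma algebraicIndependent_of_jacobian {σ : Type} [Fintype σ] {d : ℕ} (u : Fin d → MvPolynomial σ ℂ)
    (x : σ → ℂ) (h : LinearIndependent ℂ fun (j : Fin d) (i : σ) => eval x (pderiv i (u j))) :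
    AlgebraicIndependent ℂ u := by
  classical
  obtain ⟨e, he⟩ := exists_minor_ne_zero _ h
  let J : Matrix (Fin d) (Fin d) (MvPolynomial σ ℂ) := Matrix.of fun j l => pderiv (e l) (u j)
  have hJ : J.det ≠ 0 := by
    intro h0
    apply he
    have h1 := congrArg (eval x) h0
    rw [RingHom.map_det, map_zero] at h1
    exact h1
  have key : ∀ n, ∀ g : MvPolynomial (Fin d) ℂ, g.totalDegree ≤ n → aeval u g = 0 → g = 0 := by
    intro n
    induction n with
    | zero =>
      intro g hg h0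
      rw [Nat.le_zero, totalDegree_eq_zero_iff_eq_C] at hg
      rw [hg, aeval_C, algebraMap_eq, C_eq_zero] at h0
      rw [hg, h0, C_0]
    | succ n ih =>
      intro g hg h0
      have h1 : ∀ j, pderiv j g = 0 := by
        have h2 : (fun j => aeval u (pderiv j g)) = 0 := by
          apply Matrix.eq_zero_of_vecMul_eq_zero hJ
          funext l
          have h3 := pderiv_aeval u g (e l)
          rw [h0, map_zero] at h3
          rw [Matrix.vecMul, dotProduct]
          exact h3.symm
        intro j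
        apply ih _ _ (congrFun h2 j)
        rw [totalDegree]
        refine Finset.sup_le fun m hm => ?_
        rw [mem_support_iff, coeff_pderiv] at hm
        have h4 := left_ne_zero_of_mul hm
        have h5 := le_totalDegree (mem_support_iff.2 h4)
        rw [Finsupp.sum_add_index' (fun _ => rfl) (fun _ _ _ => rfl),
          Finsupp.sum_single_index rfl] at h5
        have h6 := h5.trans hg
        omega
      have h2 : g = C (coeff 0 g) := by
        ext s
        rw [coeff_C]
        by_cases hs : 0 = s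
        · rw [if_pos hs, hs]
        · rw [if_neg hs]
          obtain ⟨j, hj⟩ : ∃ j, s j ≠ 0 := by
            by_contra hcon
            push Not at hcon
            exact hs (Finsupp.ext fun j => (hcon j).symm)
          have h3 := congrArg (coeff (s - Finsupp.single j 1)) (h1 j)
          rw [coeff_pderiv, coeff_zero] at h3
          have h4 : s - Finsupp.single j 1 + Finsupp.single j 1 = s := by
            apply tsub_add_cancel_of_le
            rw [Finsupp.single_le_iff]
            omega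
          rw [h4] at h3
          rcases mul_eq_zero.1 h3 with h5 | h5
          · exact h5
          · exfalso
            exact (Nat.cast_add_one_ne_zero (R := ℂ) _) h5
      rw [h2, aeval_C, algebraMap_eq, C_eq_zero] at h0
      rw [h2, h0, C_0]
  rw [algebraicIndependent_iff]
  intro g hg
  exact key _ g le_rfl hg

end F2

variable {ν : Type} [Fintype ν] [DecidableEq ν]

/-- the good locus -/
def Gd (A : Subalgebra ℂ (MvPolynomial ν ℂ)) (d : ℕ) (x : ν → ℂ) : Prop :=
  ∃ b : A, IsGood A d b ∧ eval x (b : MvPolynomial ν ℂ) ≠ 0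

/-- points with stabilizer of dimension at least `s` -/
def Yset (A : Subalgebra ℂ (MvPolynomial ν ℂ)) (s : ℕ) : Set (ν → ℂ) :=
  {x | s ≤ Module.finrank ℂ (stab A x)}

namespace F2

/-- local structure of the stabilizers -/
lemma local_structure (A : Subalgebra ℂ (MvPolynomial ν ℂ)) (s : ℕ) (x₀ : ν → ℂ)
    (hx₀ : Module.finrank ℂ (stab A x₀) = s) :
    ∃ (δ : MvPolynomial ν ℂ) (κ : Fin s → Matrix ν ν (MvPolynomial ν ℂ)), eval x₀ δ ≠ 0 ∧
      (∀ x : ν → ℂ, eval x δ ≠ 0 → Module.finrank ℂ (stab A x) ≤ s) ∧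
      ∀ x : ν → ℂ, Module.finrank ℂ (stab A x) = s → eval x δ ≠ 0 →
        LinearIndependent ℂ (fun j => (κ j).map (eval x)) ∧
        Submodule.span ℂ (Set.range fun j => (κ j).map (eval x)) = stab A x := by
  classical
  have hle : ∀ x, stab A x ≤ gg A := fun x M hM => hM.1
  obtain ⟨Cp, hCp⟩ := Submodule.exists_isCompl (stab A x₀)
  let U : Submodule ℂ (Matrix ν ν ℂ) := Cp ⊓ gg A
  have hU1 : stab A x₀ ⊓ U = ⊥ := by
    rw [eq_bot_iff]
    intro M hM
    have : M ∈ stab A x₀ ⊓ Cp := ⟨hM.1, hM.2.1⟩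
    rwa [hCp.inf_eq_bot] at this
  have hU2 : stab A x₀ ⊔ U = gg A := by
    change stab A x₀ ⊔ Cp ⊓ gg A = gg A
    rw [← sup_inf_assoc_of_le _ (hle x₀), hCp.sup_eq_top, top_inf_eq]
  have hUg : U ≤ gg A := inf_le_right
  have hfin : Module.finrank ℂ (gg A) = s + Module.finrank ℂ U := by
    have h1 := Submodule.finrank_sup_add_finrank_inf_eq (stab A x₀) U
    rw [hU1, hU2, finrank_bot, add_zero, hx₀] at h1
    exact h1
  set r := Module.finrank ℂ U with hr
  let u : Module.Basis (Fin r) ℂ U := Module.finBasis ℂ U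
  let e : Module.Basis (Fin s) ℂ (stab A x₀) := Module.finBasisOfFinrankEq ℂ _ hx₀
  have hli : LinearIndependent ℂ fun l : Fin r => ((u l : U) : Matrix ν ν ℂ).mulVec x₀ := by
    rw [Fintype.linearIndependent_iff]
    intro c hc
    have h1 : (∑ l, c l • u l : U) = 0 := by
      apply Subtype.ext
      have h2 : ((∑ l, c l • u l : U) : Matrix ν ν ℂ) ∈ stab A x₀ ⊓ U := by
        refine ⟨⟨hUg (∑ l, c l • u l : U).2, ?_⟩, (∑ l, c l • u l : U).2⟩
        rw [Submodule.coe_sum, Matrix.sum_mulVec, ← hc]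
        apply Finset.sum_congr rfl
        intro l _
        rw [Submodule.coe_smul, Matrix.smul_mulVec]
      rw [hU1] at h2
      exact h2
    have h3 := (Fintype.linearIndependent_iff.1 u.linearIndependent) c h1
    exact h3
  obtain ⟨ι, hι⟩ := exists_minor_ne_zero _ hli
  -- polynomial matrices
  let B : Matrix (Fin r) (Fin r) (MvPolynomial ν ℂ) :=
    Matrix.of fun l k => ∑ j, C (((u l : U) : Matrix ν ν ℂ) (ι k) j) * X j
  let E : Fin s → Fin r → MvPolynomial ν ℂ :=
    fun j k => ∑ i, C (((e j : stab A x₀) : Matrix ν ν ℂ) (ι k) i) * X i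
  have hB : ∀ x l k, eval x (B l k) = (((u l : U) : Matrix ν ν ℂ).mulVec x) (ι k) := by
    intro x l k
    simp [B, Matrix.mulVec, dotProduct]
  have hE : ∀ x j k, eval x (E j k) = (((e j : stab A x₀) : Matrix ν ν ℂ).mulVec x) (ι k) := by
    intro x l k
    simp [E, Matrix.mulVec, dotProduct]
  have hdet : ∀ x, eval x B.det =
      (Matrix.of fun l k : Fin r => (((u l : U) : Matrix ν ν ℂ).mulVec x) (ι k)).det := by
    intro x
    rw [RingHom.map_det]
    congr 1
    ext l k
    exact hB x l k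
  let cc : Fin s → Fin r → MvPolynomial ν ℂ := fun j => Matrix.vecMul (E j) B.adjugate
  have hcc : ∀ j, Matrix.vecMul (cc j) B = B.det • E j := by
    intro j
    simp only [cc]
    rw [Matrix.vecMul_vecMul, Matrix.adjugate_mul, Matrix.vecMul_smul, Matrix.vecMul_one]
  let κ : Fin s → Matrix ν ν (MvPolynomial ν ℂ) := fun j =>
    B.det • ((e j : stab A x₀) : Matrix ν ν ℂ).map C -
      ∑ l, cc j l • ((u l : U) : Matrix ν ν ℂ).map C
  have hκ : ∀ x j, (κ j).map (eval x) = eval x B.det • ((e j : stab A x₀) : Matrix ν ν ℂ) -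
      ∑ l, eval x (cc j l) • ((u l : U) : Matrix ν ν ℂ) := by
    intro x j
    ext a b
    simp only [κ, Matrix.map_apply, Matrix.sub_apply, Matrix.smul_apply, Matrix.sum_apply,
      smul_eq_mul, map_sub, map_mul, map_sum, eval_C]
  -- the auxiliary spaces
  let T : (ν → ℂ) → Submodule ℂ (Matrix ν ν ℂ) := fun x =>
    { carrier := {M | M ∈ gg A ∧ ∀ k, (M.mulVec x) (ι k) = 0}
      add_mem' := by
        intro M N hM hN
        refine ⟨(gg A).add_mem hM.1 hN.1, fun k => ?_⟩
        rw [Matrix.add_mulVec, Pi.add_apply, hM.2, hN.2, add_zero]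
      zero_mem' := ⟨(gg A).zero_mem, fun k => by rw [Matrix.zero_mulVec]; rfl⟩
      smul_mem' := by
        intro c M hM
        refine ⟨(gg A).smul_mem c hM.1, fun k => ?_⟩
        rw [Matrix.smul_mulVec, Pi.smul_apply, hM.2, smul_zero] }
  have hTU : ∀ x, eval x B.det ≠ 0 → T x ⊓ U = ⊥ := by
    intro x hx
    rw [eq_bot_iff]
    rintro M ⟨hMT, hMU⟩
    have h1 : (⟨M, hMU⟩ : U) = ∑ l, u.repr ⟨M, hMU⟩ l • u l := (u.sum_repr _).symm
    have h2 : M = ∑ l, u.repr ⟨M, hMU⟩ l • ((u l : U) : Matrix ν ν ℂ) := by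
      have := congrArg (Subtype.val) h1
      rw [Submodule.coe_sum] at this
      exact this
    have h3 : (fun l => u.repr ⟨M, hMU⟩ l) = 0 := by
      rw [hdet] at hx
      apply Matrix.eq_zero_of_vecMul_eq_zero hx
      funext k
      have h4 := hMT.2 k
      rw [h2, Matrix.sum_mulVec, Finset.sum_apply] at h4
      rw [Matrix.vecMul, dotProduct, Pi.zero_apply, ← h4]
      apply Finset.sum_congr rfl
      intro l _
      rw [Matrix.smul_mulVec]
      rfl
    rw [Submodule.mem_bot, h2]
    apply Finset.sum_eq_zero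
    intro l _
    rw [show u.repr ⟨M, hMU⟩ l = 0 from congrFun h3 l, zero_smul]
  have hTle : ∀ x, eval x B.det ≠ 0 → Module.finrank ℂ (T x) ≤ s := by
    intro x hx
    have h1 := Submodule.finrank_sup_add_finrank_inf_eq (T x) U
    rw [hTU x hx, finrank_bot, add_zero] at h1
    have h2 : T x ⊔ U ≤ gg A := sup_le (fun M hM => hM.1) hUg
    have h3 := Submodule.finrank_mono h2
    omega
  have hsT : ∀ x, stab A x ≤ T x := fun x M hM => ⟨hM.1, fun k => by rw [hM.2]; rfl⟩
  refine ⟨B.det, κ, ?_, fun x hx => (Submodule.finrank_mono (hsT x)).trans (hTle x hx), ?_⟩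
  · rw [hdet]
    exact hι
  · intro x hxs hx
    have hTeq : stab A x = T x :=
      Submodule.eq_of_le_of_finrank_le (hsT x) (by rw [hxs]; exact hTle x hx)
    have hmem : ∀ j, (κ j).map (eval x) ∈ stab A x := by
      intro j
      rw [hTeq]
      constructor
      · rw [hκ]
        apply Submodule.sub_mem
        · exact Submodule.smul_mem _ _ (hle x₀ (e j).2)
        · exact Submodule.sum_mem _ fun l _ => Submodule.smul_mem _ _ (hUg (u l).2)
      · intro k
        have h1 := congrArg (eval x) (congrFun (hcc j) k)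
        rw [Matrix.vecMul, dotProduct, map_sum, Pi.smul_apply, smul_eq_mul, map_mul, hE] at h1
        rw [hκ, Matrix.sub_mulVec, Matrix.sum_mulVec, Pi.sub_apply, Finset.sum_apply,
          Matrix.smul_mulVec, Pi.smul_apply, smul_eq_mul, ← h1, sub_eq_zero]
        apply Finset.sum_congr rfl
        intro l _
        rw [map_mul, hB, Matrix.smul_mulVec]
        rfl
    have hind : LinearIndependent ℂ (fun j => (κ j).map (eval x)) := by
      rw [Fintype.linearIndependent_iff]
      intro α hα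
      have h1 : eval x B.det • ∑ j, α j • ((e j : stab A x₀) : Matrix ν ν ℂ) =
          ∑ j, α j • ∑ l, eval x (cc j l) • ((u l : U) : Matrix ν ν ℂ) := by
        rw [← sub_eq_zero, ← hα, Finset.smul_sum, ← Finset.sum_sub_distrib]
        apply Finset.sum_congr rfl
        intro j _
        rw [hκ, smul_sub, smul_comm]
      have h2 : eval x B.det • ∑ j, α j • ((e j : stab A x₀) : Matrix ν ν ℂ) ∈ stab A x₀ ⊓ U := by
        refine ⟨Submodule.smul_mem _ _ (Submodule.sum_mem _ fun j _ =>
          Submodule.smul_mem _ _ (e j).2), ?_⟩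
        rw [h1]
        exact Submodule.sum_mem _ fun j _ => Submodule.smul_mem _ _
          (Submodule.sum_mem _ fun l _ => Submodule.smul_mem _ _ (u l).2)
      rw [hU1, Submodule.mem_bot, smul_eq_zero] at h2
      have h3 := h2.resolve_left hx
      have h4 : (∑ j, α j • e j : stab A x₀) = 0 := by
        apply Subtype.ext
        rw [Submodule.coe_sum]
        exact h3
      exact (Fintype.linearIndependent_iff.1 e.linearIndependent) α h4
    refine ⟨hind, ?_⟩
    apply Submodule.eq_of_le_of_finrank_eq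
    · rw [Submodule.span_le]
      rintro _ ⟨j, rfl⟩
      exact hmem j
    · rw [finrank_span_eq_card hind, Fintype.card_fin, hxs]

/-- vanishing ideal -/
def vanI (Z : Set (ν → ℂ)) : Ideal (MvPolynomial ν ℂ) where
  carrier := {F | ∀ x ∈ Z, eval x F = 0}
  add_mem' := by
    intro F G hF hG x hx
    rw [map_add, hF x hx, hG x hx, add_zero]
  zero_mem' := by
    intro x _
    rw [map_zero]
  smul_mem' := by
    intro c F hF x hx
    rw [smul_eq_mul, map_mul, hF x hx, mul_zero]

lemma mem_vanI {Z : Set (ν → ℂ)} {F : MvPolynomial ν ℂ} : F ∈ vanI Z ↔ ∀ x ∈ Z, eval x F = 0 :=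
  Iff.rfl

lemma eval_act (M : Matrix ν ν ℂ) (x : ν → ℂ) (F : MvPolynomial ν ℂ) :
    eval x (act M F) = eval (M.mulVec x) F := by
  induction F using MvPolynomial.induction_on with
  | C a => simp [act]
  | add p q hp hq => rw [map_add, map_add, hp, hq, map_add]
  | mul_X p i hp =>
    rw [map_mul, map_mul, hp, map_mul, act_X, eval_X]
    simp [Matrix.mulVec, dotProduct]

lemma act_mem_vanI {Z : Set (ν → ℂ)} (M : Matrix ν ν ℂ) (hM : ∀ x ∈ Z, M.mulVec x ∈ Z)
    {F : MvPolynomial ν ℂ} (hF : F ∈ vanI Z) : act M F ∈ vanI Z := by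
  intro x hx
  rw [eval_act]
  exact hF _ (hM x hx)

end F2

/-- `Yset` is Zariski closed -/
theorem exists_ideal_Yset (A : Subalgebra ℂ (MvPolynomial ν ℂ)) (s : ℕ) :
    ∃ I : Ideal (MvPolynomial ν ℂ), ∀ x, x ∈ Yset A s ↔ ∀ F ∈ I, eval x F = 0 := by
  refine ⟨F2.vanI (Yset A s), fun x => ⟨fun hx F hF => hF x hx, fun h => ?_⟩⟩
  by_contra hx
  obtain ⟨δ, κ, h1, h2, -⟩ := F2.local_structure A _ x rfl
  apply h1
  apply h δ
  intro y hy
  by_contra hne
  have h3 := h2 y hne
  have h4 : s ≤ Module.finrank ℂ (stab A y) := hy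
  exact hx (h4.trans h3)

/-- `Yset` is `K`-stable -/
theorem mulVec_mem_Yset (K : Subgroup (Matrix.unitaryGroup ν ℂ)) (s : ℕ)
    (k : Matrix.unitaryGroup ν ℂ) (hk : k ∈ K) (x : ν → ℂ) (hx : x ∈ Yset (InvAlg K) s) :
    (k : Matrix ν ν ℂ).mulVec x ∈ Yset (InvAlg K) s := by
  have hx' : s ≤ Module.finrank ℂ (stab (InvAlg K) x) := hx
  refine hx'.trans ?_
  let φ : Matrix ν ν ℂ →ₗ[ℂ] Matrix ν ν ℂ :=
    (LinearMap.mulLeft ℂ (k : Matrix ν ν ℂ)).comp (LinearMap.mulRight ℂ (star (k : Matrix ν ν ℂ)))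
  have hφ : ∀ M, φ M = (k : Matrix ν ν ℂ) * M * star (k : Matrix ν ν ℂ) := fun M =>
    (mul_assoc _ _ _).symm
  let ψ : stab (InvAlg K) x →ₗ[ℂ] stab (InvAlg K) ((k : Matrix ν ν ℂ).mulVec x) :=
    φ.restrict fun M hM => by
      rw [hφ]
      exact conj_mem_stab K k hk x hM
  apply LinearMap.finrank_le_finrank_of_injective (f := ψ)
  have hks : star (k : Matrix ν ν ℂ) * (k : Matrix ν ν ℂ) = 1 := Matrix.mem_unitaryGroup_iff'.1 k.2
  intro M N hMN
  apply Subtype.ext
  have h1 : φ M = φ N := congrArg Subtype.val hMN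
  rw [hφ, hφ] at h1
  have h2 := congrArg (fun Z => star (k : Matrix ν ν ℂ) * Z * (k : Matrix ν ν ℂ)) h1
  simp only [mul_assoc, hks, mul_one] at h2
  rw [← mul_assoc, hks, one_mul, ← mul_assoc, hks, one_mul] at h2
  exact h2

/-- trace form nondegenerate on the stabilizer -/
def NDeg (A : Subalgebra ℂ (MvPolynomial ν ℂ)) (x : ν → ℂ) : Prop :=
  ∀ M ∈ stab A x, (∀ N ∈ stab A x, (M * N).trace = 0) → M = 0

open scoped ComplexOrder in
/-- the trace form is nondegenerate on `*`-closed stabilizers -/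
theorem nDeg_of_star (A : Subalgebra ℂ (MvPolynomial ν ℂ)) (x : ν → ℂ)
    (h : ∀ M ∈ stab A x, M.conjTranspose ∈ stab A x) : NDeg A x := by
  intro M hM hN
  have h1 := hN _ (h M hM)
  exact Matrix.trace_mul_conjTranspose_self_eq_zero_iff.1 h1

/-- Local equations: near a point `x₀` of `Y = Yset s` where the stabilizer has dimension exactly `s` there are a
polynomial `δ` with `δ(x₀) ≠ 0` and polynomial matrices `κ_1, …, κ_s` which for all `x ∈ Y` with
stabilizer of dimension `s` and `δ(x) ≠ 0` form a basis of the stabilizer. -/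
theorem exists_local_basis (A : Subalgebra ℂ (MvPolynomial ν ℂ)) (s : ℕ) (x₀ : ν → ℂ)
    (hx₀ : Module.finrank ℂ (stab A x₀) = s) :
    ∃ (δ : MvPolynomial ν ℂ) (κ : Fin s → Matrix ν ν (MvPolynomial ν ℂ)), eval x₀ δ ≠ 0 ∧
      ∀ x : ν → ℂ, Module.finrank ℂ (stab A x) = s → eval x δ ≠ 0 →
        LinearIndependent ℂ (fun j => (κ j).map (eval x)) ∧
        Submodule.span ℂ (Set.range fun j => (κ j).map (eval x)) = stab A x := by
  obtain ⟨δ, κ, h1, -, h2⟩ := F2.local_structure A s x₀ hx₀
  exact ⟨δ, κ, h1, h2⟩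

/-- If `x` is a point of minimal norm type in the good locus then the functions of `A` are determined by their
restriction to the fixed space of its stabilizer. -/
theorem eq_zero_of_fixed (A : Subalgebra ℂ (MvPolynomial ν ℂ)) {d : ℕ} (hS : Surj A) (x : ν → ℂ)
    (hx : ∀ M ∈ gg A, ∑ i, (M.mulVec x) i * starRingEnd ℂ (x i) = 0) (hGd : Gd A d x)
    (a : MvPolynomial ν ℂ) (ha : a ∈ A)
    (h : ∀ v : ν → ℂ, (∀ M ∈ stab A x, M.mulVec v = 0) → eval v a = 0) : a = 0 := by
  classical
  obtain ⟨b, ⟨t, D, hb⟩, hbx⟩ := hGd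
  have ht1 := t1 A hS hb x hbx
  let Fx : Submodule ℂ (ν → ℂ) :=
    { carrier := {v | ∀ M ∈ stab A x, M.mulVec v = 0}
      add_mem' := by
        intro v w hv hw M hM
        rw [Matrix.mulVec_add, hv M hM, hw M hM, add_zero]
      zero_mem' := fun M _ => Matrix.mulVec_zero M
      smul_mem' := by
        intro c v hv M hM
        rw [Matrix.mulVec_smul, hv M hM, smul_zero] }
  let f : Module.Basis (Fin (Module.finrank ℂ Fx)) ℂ Fx := Module.finBasis ℂ Fx
  set p := Module.finrank ℂ Fx with hp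
  let lin : ν → MvPolynomial (Fin p) ℂ := fun i => ∑ l, C (((f l : Fx) : ν → ℂ) i) * X l
  let ρ : MvPolynomial ν ℂ →ₐ[ℂ] MvPolynomial (Fin p) ℂ := aeval lin
  have hρ : ∀ y g, eval y (ρ g) = eval (fun i => ∑ l, ((f l : Fx) : ν → ℂ) i * y l) g := by
    intro y g
    induction g using MvPolynomial.induction_on with
    | C a => simp [ρ]
    | add p q hp hq => rw [map_add, map_add, hp, hq, map_add]
    | mul_X p i hp =>
      rw [map_mul, map_mul, hp, map_mul]
      congr 1
      simp [ρ, lin]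
  have hxF : x ∈ Fx := fun M hM => hM.2
  let y₀ : Fin p → ℂ := fun l => f.repr ⟨x, hxF⟩ l
  have hy₀ : (fun i => ∑ l, ((f l : Fx) : ν → ℂ) i * y₀ l) = x := by
    have h1 := congrArg Subtype.val (f.sum_repr ⟨x, hxF⟩)
    rw [Submodule.coe_sum] at h1
    funext i
    have h2 := congrFun h1 i
    rw [Finset.sum_apply] at h2
    refine Eq.trans ?_ h2
    apply Finset.sum_congr rfl
    intro l _
    rw [mul_comm]
    rfl
  have hderiv : ∀ (l : Fin p) (g : MvPolynomial ν ℂ), eval y₀ (pderiv l (ρ g)) =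
      ∑ i, eval x (pderiv i g) * ((f l : Fx) : ν → ℂ) i := by
    intro l g
    change eval y₀ (pderiv l (aeval lin g)) = _
    rw [F2.pderiv_aeval, map_sum]
    apply Finset.sum_congr rfl
    intro i _
    rw [map_mul]
    congr 1
    · change eval y₀ (ρ _) = _
      rw [hρ, hy₀]
    · simp only [lin, map_sum, Derivation.leibniz, pderiv_C, pderiv_X, smul_eq_mul]
      rw [Finset.sum_eq_single l]
      · simp
      · intro k _ hk
        rw [Pi.single_apply, if_neg hk]
        simp
      · intro hl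
        exact absurd (Finset.mem_univ l) hl
  have hind : AlgebraicIndependent ℂ (fun j => ρ (t j : A)) := by
    apply F2.algebraicIndependent_of_jacobian _ y₀
    rw [Fintype.linearIndependent_iff]
    intro c hc
    let η : ν → ℂ := fun i => ∑ j, c j * eval x (pderiv i ((t j : A) : MvPolynomial ν ℂ))
    have h1 : ∀ v ∈ Fx, ∑ i, η i * v i = 0 := by
      intro v hv
      have h2 : ∀ l, ∑ i, η i * ((f l : Fx) : ν → ℂ) i = 0 := by
        intro l
        have h3 := congrFun hc l
        rw [Finset.sum_apply, Pi.zero_apply] at h3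
        rw [← h3]
        simp only [Pi.smul_apply, smul_eq_mul, hderiv, η, Finset.sum_mul, Finset.mul_sum]
        rw [Finset.sum_comm]
        apply Finset.sum_congr rfl
        intro j _
        apply Finset.sum_congr rfl
        intro i _
        ring
      have h4 := congrArg Subtype.val (f.sum_repr ⟨v, hv⟩)
      rw [Submodule.coe_sum] at h4
      have h5 : ∀ i, v i = ∑ l, f.repr ⟨v, hv⟩ l * ((f l : Fx) : ν → ℂ) i := by
        intro i
        have h6 := congrFun h4 i
        rw [Finset.sum_apply] at h6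
        exact h6.symm
      simp only [h5, Finset.mul_sum]
      rw [Finset.sum_comm]
      apply Finset.sum_eq_zero
      intro l _
      have h6 : ∀ i, η i * (f.repr ⟨v, hv⟩ l * ((f l : Fx) : ν → ℂ) i) =
          f.repr ⟨v, hv⟩ l * (η i * ((f l : Fx) : ν → ℂ) i) := fun i => by ring
      simp only [h6]
      rw [← Finset.mul_sum, h2, mul_zero]
    have h2 : ∀ M ∈ stab A x, ∀ v : ν → ℂ, ∑ i, (M.mulVec v) i * η i = 0 := by
      intro M hM v
      have h3 : ∀ j, ∑ i, (M.mulVec v) i * eval x (pderiv i ((t j : A) : MvPolynomial ν ℂ)) = 0 :=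
        fun j => stab_pairing x v hM _ (t j).2
      simp only [η, Finset.mul_sum]
      rw [Finset.sum_comm]
      apply Finset.sum_eq_zero
      intro j _
      have h6 : ∀ i, (M.mulVec v) i * (c j * eval x (pderiv i ((t j : A) : MvPolynomial ν ℂ))) =
          c j * ((M.mulVec v) i * eval x (pderiv i ((t j : A) : MvPolynomial ν ℂ))) := fun i => by ring
      simp only [h6]
      rw [← Finset.mul_sum, h3, mul_zero]
    -- the conjugate vector is fixed
    have h3 : (fun i => starRingEnd ℂ (η i)) ∈ Fx := by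
      intro M hM
      have hM' := conjTranspose_mem_stab x hx hM
      funext k
      have h4 := h2 _ hM' (Pi.single k 1)
      have h5 := congrArg (starRingEnd ℂ) h4
      rw [map_sum, map_zero] at h5
      rw [Pi.zero_apply, ← h5, Matrix.mulVec, dotProduct]
      apply Finset.sum_congr rfl
      intro i _
      rw [map_mul]
      congr 1
      rw [Matrix.mulVec_single_one, Matrix.col_apply, Matrix.conjTranspose_apply]
      simp
    have h4 := h1 _ h3
    have h5 : ∀ i, η i = 0 := by
      have h6 : ∀ i, η i * starRingEnd ℂ (η i) = ((Complex.normSq (η i) : ℝ) : ℂ) := fun i =>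
        Complex.mul_conj _
      simp only [h6] at h4
      have h7 : ∑ i, Complex.normSq (η i) = 0 := by exact_mod_cast h4
      intro i
      have h8 := (Finset.sum_eq_zero_iff_of_nonneg (fun i _ => Complex.normSq_nonneg (η i))).1 h7 i
        (Finset.mem_univ i)
      exact Complex.normSq_eq_zero.1 h8
    apply (Fintype.linearIndependent_iff.1 ht1) c
    funext i
    rw [Finset.sum_apply]
    exact h5 i
  have hρa : ρ a = 0 := by
    apply MvPolynomial.funext
    intro y
    rw [hρ, map_zero]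
    apply h
    intro M hM
    have h1 : (fun i => ∑ l, ((f l : Fx) : ν → ℂ) i * y l) = ((∑ l, y l • f l : Fx) : ν → ℂ) := by
      funext i
      rw [Submodule.coe_sum, Finset.sum_apply]
      apply Finset.sum_congr rfl
      intro l _
      rw [mul_comm]
      rfl
    rw [h1]
    exact (∑ l, y l • f l : Fx).2 M hM
  by_contra ha0
  have halg := (hb.2.1.isAlgebraic).isAlgebraic (⟨a, ha⟩ : A)
  obtain ⟨g, hg0, hdvd⟩ := halg.exists_nonzero_dvd
    (mem_nonZeroDivisors_of_ne_zero fun h0 => ha0 (congrArg Subtype.val h0))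
  obtain ⟨q, hq⟩ := (Algebra.adjoin_range_eq_range_aeval ℂ t ▸ g.2 :
    (g : A) ∈ (aeval (R := ℂ) t).range)
  have h1 : aeval (fun j => ρ (t j : A)) q = 0 := by
    obtain ⟨w, hw⟩ := hdvd
    have h2 : ρ ((g : A) : MvPolynomial ν ℂ) = 0 := by
      have h3 : ((g : A) : MvPolynomial ν ℂ) = a * (w : MvPolynomial ν ℂ) := congrArg Subtype.val hw
      rw [h3, map_mul, hρa, zero_mul]
    rw [← h2, ← hq]
    have h3 : (ρ.comp A.val).comp (aeval t) = aeval (fun j => ρ (t j : A)) := by
      apply MvPolynomial.algHom_ext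
      intro j
      simp
    rw [← h3]
    rfl
  have h2 := (algebraicIndependent_iff.1 hind) q h1
  apply hg0
  apply Subtype.ext
  rw [← hq, h2]
  simp

namespace F2

/-- a basis of the stabilizer computes nondegeneracy -/
lemma nDeg_iff_det (A : Subalgebra ℂ (MvPolynomial ν ℂ)) (x : ν → ℂ) {s : ℕ}
    (κ : Fin s → Matrix ν ν ℂ) (h1 : LinearIndependent ℂ κ)
    (h2 : Submodule.span ℂ (Set.range κ) = stab A x) :
    NDeg A x ↔ (Matrix.of fun i j => (κ i * κ j).trace).det ≠ 0 := by
  classical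
  have hmem : ∀ i, κ i ∈ stab A x := fun i => h2 ▸ Submodule.subset_span ⟨i, rfl⟩
  have htr : ∀ (c : Fin s → ℂ) j, ((∑ i, c i • κ i) * κ j).trace =
      Matrix.vecMul c (Matrix.of fun i j => (κ i * κ j).trace) j := by
    intro c j
    rw [Finset.sum_mul, Matrix.trace_sum, Matrix.vecMul, dotProduct]
    apply Finset.sum_congr rfl
    intro i _
    rw [Matrix.smul_mul, Matrix.trace_smul]
    rfl
  have hspan : ∀ M, (∀ j, (M * κ j).trace = 0) → ∀ N ∈ stab A x, (M * N).trace = 0 := by
    intro M hM N hN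
    rw [← h2] at hN
    induction hN using Submodule.span_induction with
    | mem y hy =>
      obtain ⟨j, rfl⟩ := hy
      exact hM j
    | zero => rw [mul_zero, Matrix.trace_zero]
    | add y z _ _ hy hz => rw [mul_add, Matrix.trace_add, hy, hz, add_zero]
    | smul c y _ hy => rw [Matrix.mul_smul, Matrix.trace_smul, hy, smul_zero]
  constructor
  · intro h hdet
    obtain ⟨c, hc0, hc⟩ := Matrix.exists_vecMul_eq_zero_iff.2 hdet
    have h3 := h (∑ i, c i • κ i) (Submodule.sum_mem _ fun i _ => Submodule.smul_mem _ _ (hmem i))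
      (hspan _ fun j => by rw [htr, hc]; rfl)
    exact hc0 (funext ((Fintype.linearIndependent_iff.1 h1) c h3))
  · intro hdet M hM hN
    rw [← h2] at hM
    obtain ⟨c, rfl⟩ := (Submodule.mem_span_range_iff_exists_fun ℂ).1 hM
    have h3 : c = 0 := by
      apply Matrix.eq_zero_of_vecMul_eq_zero hdet
      funext j
      rw [← htr]
      exact hN _ (hmem j)
    rw [h3]
    simp

/-- norm minimal points on `K`-stable Zariski closed sets -/
lemma exists_normMin_of_closed (K : Subgroup (Matrix.unitaryGroup ν ℂ)) (hmax : MaxK K)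
    (Z : Set (ν → ℂ)) (hK : ∀ k ∈ K, ∀ x ∈ Z, (k : Matrix ν ν ℂ).mulVec x ∈ Z)
    (hZ : ∀ x, x ∉ Z → ∃ F : MvPolynomial ν ℂ, (∀ y ∈ Z, eval y F = 0) ∧ eval x F ≠ 0)
    (hne : Z.Nonempty) :
    ∃ x ∈ Z, ∀ M ∈ gg (InvAlg K), ∑ i, (M.mulVec x) i * starRingEnd ℂ (x i) = 0 := by
  obtain ⟨x', hx'⟩ := hne
  obtain ⟨x, h1, h2⟩ := exists_normMin K hmax (vanI Z)
    (fun k hk f hf => act_mem_vanI _ (hK k hk) hf) ⟨x', fun F hF => hF x' hx'⟩
  refine ⟨x, ?_, h2⟩
  by_contra hx
  obtain ⟨F, hF, hFx⟩ := hZ x hx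
  exact hFx (h1 F hF)

lemma nDeg_of_conj (K : Subgroup (Matrix.unitaryGroup ν ℂ)) (k : Matrix.unitaryGroup ν ℂ)
    (hk : k ∈ K) (x : ν → ℂ) (h : NDeg (InvAlg K) ((k : Matrix ν ν ℂ).mulVec x)) :
    NDeg (InvAlg K) x := by
  have hks : star (k : Matrix ν ν ℂ) * (k : Matrix ν ν ℂ) = 1 := Matrix.mem_unitaryGroup_iff'.1 k.2
  have hinv : ((k⁻¹ : Matrix.unitaryGroup ν ℂ) : Matrix ν ν ℂ) = star (k : Matrix ν ν ℂ) := rfl
  intro M hM hN
  have h1 := h _ (conj_mem_stab K k hk x hM) (by
    intro N' hN'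
    have h2 := conj_mem_stab K k⁻¹ (K.inv_mem hk) _ hN'
    rw [hinv, star_star, Matrix.mulVec_mulVec, hks, Matrix.one_mulVec] at h2
    have h3 := hN _ h2
    rw [← h3]
    rw [mul_assoc, mul_assoc, Matrix.trace_mul_comm, mul_assoc, mul_assoc])
  have h2 := congrArg (fun Z => star (k : Matrix ν ν ℂ) * Z * (k : Matrix ν ν ℂ)) h1
  simp only [mul_assoc, hks, mul_one] at h2
  rw [← mul_assoc, hks, one_mul, zero_mul, mul_zero] at h2
  exact h2

end F2

/-- (F2) -/
theorem exists_stratum (K : Subgroup (Matrix.unitaryGroup ν ℂ)) (hmax : MaxK K) {d : ℕ}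
    (hd : Algebra.trdeg ℂ (InvAlg K) = d) (hS : Surj (InvAlg K)) :
    ∃ s : ℕ, (∀ x, Gd (InvAlg K) d x → Module.finrank ℂ (stab (InvAlg K) x) ≤ s) ∧
      (∀ a ∈ InvAlg K, (∀ x ∈ Yset (InvAlg K) s, eval x a = 0) → a = 0) ∧
      (∀ x ∈ Yset (InvAlg K) s, Gd (InvAlg K) d x → NDeg (InvAlg K) x) ∧
      ∃ x ∈ Yset (InvAlg K) s, Gd (InvAlg K) d x ∧
        ∀ M ∈ gg (InvAlg K), ∑ i, (M.mulVec x) i * starRingEnd ℂ (x i) = 0 := by
  classical
  have hft : Algebra.FiniteType ℂ (InvAlg K) := invAlg_finiteType K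
  obtain ⟨b₀, hb₀⟩ := exists_good (InvAlg K) hd
  have hne : ∃ x, Gd (InvAlg K) d x := by
    by_contra hcon
    push Not at hcon
    obtain ⟨t, D, hb⟩ := hb₀
    apply hb.1
    apply Subtype.ext
    apply MvPolynomial.funext
    intro x
    by_contra hx
    rw [ZeroMemClass.coe_zero, map_zero] at hx
    exact hcon x ⟨b₀, ⟨t, D, hb⟩, hx⟩
  let S : Set ℕ := {t | ∃ x, Gd (InvAlg K) d x ∧ Module.finrank ℂ (stab (InvAlg K) x) = t}
  have hSne : S.Nonempty := by
    obtain ⟨x, hx⟩ := hne
    exact ⟨_, x, hx, rfl⟩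
  have hSb : BddAbove S := by
    refine ⟨Module.finrank ℂ (gg (InvAlg K)), ?_⟩
    rintro _ ⟨x, -, rfl⟩
    exact Submodule.finrank_mono fun M hM => hM.1
  obtain ⟨x', ⟨b, hb, hbx⟩, hx'⟩ := Nat.sSup_mem hSne hSb
  set s := sSup S with hs
  have hle : ∀ x, Gd (InvAlg K) d x → Module.finrank ℂ (stab (InvAlg K) x) ≤ s :=
    fun x hx => le_csSup hSb ⟨x, hx, rfl⟩
  obtain ⟨I, hI⟩ := exists_ideal_Yset (InvAlg K) s
  -- general facts about level sets of good elements
  have hcl : ∀ (b : InvAlg K) (c : ℂ) (x : ν → ℂ),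
      ¬ (x ∈ Yset (InvAlg K) s ∧ eval x (b : MvPolynomial ν ℂ) = c) →
      ∃ F : MvPolynomial ν ℂ, (∀ y, y ∈ Yset (InvAlg K) s → eval y (b : MvPolynomial ν ℂ) = c →
        eval y F = 0) ∧ eval x F ≠ 0 := by
    intro b c x hx
    by_cases h1 : x ∈ Yset (InvAlg K) s
    · refine ⟨(b : MvPolynomial ν ℂ) - C c, fun y _ hy => ?_, ?_⟩
      · rw [map_sub, eval_C, hy, sub_self]
      · rw [map_sub, eval_C, sub_ne_zero]
        exact fun h2 => hx ⟨h1, h2⟩
    · rw [hI] at h1
      push Not at h1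
      obtain ⟨F, hF, hFx⟩ := h1
      exact ⟨F, fun y hy _ => (hI y).1 hy F hF, hFx⟩
  have hst : ∀ (b : InvAlg K) (k : Matrix.unitaryGroup ν ℂ) (x : ν → ℂ), k ∈ K →
      eval ((k : Matrix ν ν ℂ).mulVec x) (b : MvPolynomial ν ℂ) = eval x (b : MvPolynomial ν ℂ) := by
    intro b k x hk
    rw [← F2.eval_act, b.2 k hk]
  obtain ⟨x₁, ⟨hx₁Y, hx₁b⟩, hx₁n⟩ := F2.exists_normMin_of_closed K hmax
    {x | x ∈ Yset (InvAlg K) s ∧ eval x (b : MvPolynomial ν ℂ) = eval x' (b : MvPolynomial ν ℂ)}
    (fun k hk x hx => ⟨mulVec_mem_Yset K s k hk x hx.1, by rw [hst b k x hk]; exact hx.2⟩)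
    (fun x hx => by
      obtain ⟨F, h1, h2⟩ := hcl b _ x hx
      exact ⟨F, fun y hy => h1 y hy.1 hy.2, h2⟩)
    ⟨x', hx'.ge, rfl⟩
  have hx₁G : Gd (InvAlg K) d x₁ := ⟨b, hb, by rw [hx₁b]; exact hbx⟩
  refine ⟨s, hle, ?_, ?_, x₁, hx₁Y, hx₁G, hx₁n⟩
  · intro a ha h
    apply eq_zero_of_fixed (InvAlg K) hS x₁ hx₁n hx₁G a ha
    intro v hv
    apply h
    have h1 : stab (InvAlg K) x₁ ≤ stab (InvAlg K) v := fun M hM => ⟨hM.1, hv M hM⟩
    have h2 : s ≤ Module.finrank ℂ (stab (InvAlg K) x₁) := hx₁Y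
    exact h2.trans (Submodule.finrank_mono h1)
  · rintro x hxY ⟨b, hb, hbx⟩
    by_contra hxN
    have hfr : ∀ y ∈ Yset (InvAlg K) s, eval y (b : MvPolynomial ν ℂ) = eval x (b : MvPolynomial ν ℂ) →
        Module.finrank ℂ (stab (InvAlg K) y) = s := by
      intro y hy hyb
      exact le_antisymm (hle y ⟨b, hb, by rw [hyb]; exact hbx⟩) hy
    obtain ⟨y, ⟨⟨hyY, hyb⟩, hyN⟩, hyn⟩ := F2.exists_normMin_of_closed K hmax
      {y | (y ∈ Yset (InvAlg K) s ∧
        eval y (b : MvPolynomial ν ℂ) = eval x (b : MvPolynomial ν ℂ)) ∧ ¬ NDeg (InvAlg K) y}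
      (fun k hk y hy => ⟨⟨mulVec_mem_Yset K s k hk y hy.1.1, by rw [hst b k y hk]; exact hy.1.2⟩,
        fun h => hy.2 (F2.nDeg_of_conj K k hk y h)⟩)
      (fun z hz => by
        by_cases hz1 : z ∈ Yset (InvAlg K) s ∧
            eval z (b : MvPolynomial ν ℂ) = eval x (b : MvPolynomial ν ℂ)
        · have hzN : NDeg (InvAlg K) z := by
            by_contra h
            exact hz ⟨hz1, h⟩
          obtain ⟨δ, κ, h1, h2⟩ := exists_local_basis (InvAlg K) s z (hfr z hz1.1 hz1.2)
          refine ⟨δ * (Matrix.of fun i j => (κ i * κ j).trace).det, ?_, ?_⟩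
          · rintro y ⟨⟨hyY, hyb⟩, hyN⟩
            by_cases hδ : eval y δ = 0
            · rw [map_mul, hδ, zero_mul]
            · obtain ⟨h3, h4⟩ := h2 y (hfr y hyY hyb) hδ
              rw [F2.nDeg_iff_det _ _ _ h3 h4, not_not] at hyN
              rw [map_mul, RingHom.map_det]
              have h5 : (eval y).mapMatrix (Matrix.of fun i j => (κ i * κ j).trace) =
                  Matrix.of fun i j => ((κ i).map (eval y) * (κ j).map (eval y)).trace := by
                ext i j
                simp only [RingHom.mapMatrix_apply, Matrix.map_apply, Matrix.of_apply]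
                rw [← Matrix.map_mul, Matrix.trace, Matrix.trace, map_sum]
                rfl
              rw [h5, hyN, mul_zero]
          · obtain ⟨h3, h4⟩ := h2 z (hfr z hz1.1 hz1.2) h1
            rw [F2.nDeg_iff_det _ _ _ h3 h4] at hzN
            rw [map_mul, RingHom.map_det]
            have h5 : (eval z).mapMatrix (Matrix.of fun i j => (κ i * κ j).trace) =
                Matrix.of fun i j => ((κ i).map (eval z) * (κ j).map (eval z)).trace := by
              ext i j
              simp only [RingHom.mapMatrix_apply, Matrix.map_apply, Matrix.of_apply]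
              rw [← Matrix.map_mul, Matrix.trace, Matrix.trace, map_sum]
              rfl
            rw [h5]
            exact mul_ne_zero h1 hzN
        · obtain ⟨F, h1, h2⟩ := hcl b _ z hz1
          exact ⟨F, fun y hy => h1 y hy.1.1 hy.1.2, h2⟩)
      ⟨x, ⟨hxY, rfl⟩, hxN⟩
    exact hyN (nDeg_of_star _ _ fun M hM => conjTranspose_mem_stab y hyn hM)

end H50.Z
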