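import Pool.Agent.H50.Z.F2_Strat

/-! (F2, second part) The Casimir element of the stabilizers is a regular function. -/

open MvPolynomial H50.DO

set_option linter.unusedSectionVars false

namespace H50.Z

variable {ν : Type} [Fintype ν] [DecidableEq ν]

/-- `C` is the Casimir element of the subspace `U` for the trace form -/
def IsCas (U : Submodule ℂ (Matrix ν ν ℂ)) (C : Matrix ν ν ℂ) : Prop :=
  ∃ (m : ℕ) (X X' : Fin m → Matrix ν ν ℂ), (∀ l, X l ∈ U) ∧ (∀ l, X' l ∈ U) ∧
    (∀ l k, (X l * X' k).trace = if l = k then 1 else 0) ∧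
    U ≤ Submodule.span ℂ (Set.range X) ∧ C = ∑ l, X l * X' l

/-- expansion in terms of a pair of dual families -/
lemma cas_expand {U : Submodule ℂ (Matrix ν ν ℂ)} {m : ℕ} {X X' : Fin m → Matrix ν ν ℂ}
    (hXX : ∀ l k, (X l * X' k).trace = if l = k then 1 else 0)
    (hsp : U ≤ Submodule.span ℂ (Set.range X)) {M : Matrix ν ν ℂ} (hM : M ∈ U) :
    M = ∑ l, (M * X' l).trace • X l := by
  obtain ⟨c, hc⟩ := (Submodule.mem_span_range_iff_exists_fun ℂ).1 (hsp hM)
  have h1 : ∀ k, (M * X' k).trace = c k := by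
    intro k
    rw [← hc, Finset.sum_mul, Matrix.trace_sum]
    simp only [Matrix.smul_mul, Matrix.trace_smul, hXX, smul_eq_mul]
    rw [Finset.sum_eq_single k]
    · simp
    · intro l _ hl; rw [if_neg hl, mul_zero]
    · intro hk; exact absurd (Finset.mem_univ k) hk
  simp only [h1]
  exact hc.symm

lemma cas_nondeg {U : Submodule ℂ (Matrix ν ν ℂ)} {m : ℕ} {X X' : Fin m → Matrix ν ν ℂ}
    (hX' : ∀ l, X' l ∈ U)
    (hXX : ∀ l k, (X l * X' k).trace = if l = k then 1 else 0)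
    (hsp : U ≤ Submodule.span ℂ (Set.range X)) {M : Matrix ν ν ℂ} (hM : M ∈ U)
    (h : ∀ N ∈ U, (M * N).trace = 0) : M = 0 := by
  rw [cas_expand hXX hsp hM]
  refine Finset.sum_eq_zero fun l _ => ?_
  rw [h _ (hX' l), zero_smul]

lemma cas_expand' {U : Submodule ℂ (Matrix ν ν ℂ)} {m : ℕ} {X X' : Fin m → Matrix ν ν ℂ}
    (hX' : ∀ l, X' l ∈ U)
    (hXX : ∀ l k, (X l * X' k).trace = if l = k then 1 else 0)
    (hsp : U ≤ Submodule.span ℂ (Set.range X)) {M : Matrix ν ν ℂ} (hM : M ∈ U) :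
    M = ∑ l, (X l * M).trace • X' l := by
  rw [← sub_eq_zero]
  have hmem : M - ∑ l, (X l * M).trace • X' l ∈ U :=
    U.sub_mem hM (Submodule.sum_mem _ fun l _ => U.smul_mem _ (hX' l))
  refine cas_nondeg hX' hXX hsp hmem ?_
  have hX0 : ∀ k, (X k * (M - ∑ l, (X l * M).trace • X' l)).trace = 0 := by
    intro k
    rw [Matrix.mul_sub, Matrix.trace_sub, Finset.mul_sum, Matrix.trace_sum]
    simp only [Matrix.mul_smul, Matrix.trace_smul, hXX, smul_eq_mul]
    rw [Finset.sum_eq_single k]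
    · simp
    · intro l _ hl; rw [if_neg (Ne.symm hl), mul_zero]
    · intro hk; exact absurd (Finset.mem_univ k) hk
  intro N hN
  rw [Matrix.trace_mul_comm]
  obtain ⟨c, hc⟩ := (Submodule.mem_span_range_iff_exists_fun ℂ).1 (hsp hN)
  rw [← hc, Finset.sum_mul, Matrix.trace_sum]
  refine Finset.sum_eq_zero fun l _ => ?_
  rw [Matrix.smul_mul, Matrix.trace_smul, hX0, smul_zero]

/-- uniqueness -/
theorem IsCas.unique {U : Submodule ℂ (Matrix ν ν ℂ)} {C C' : Matrix ν ν ℂ} (h : IsCas U C)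
    (h' : IsCas U C') : C = C' := by
  obtain ⟨m, X, X', hX, hX', hXX, hsp, rfl⟩ := h
  obtain ⟨n, Y, Y', hY, hY', hYY, hsq, rfl⟩ := h'
  have h1 : ∀ p, Y p = ∑ l, (Y p * X' l).trace • X l := fun p => cas_expand hXX hsp (hY p)
  have h2 : ∀ l, X' l = ∑ p, (Y p * X' l).trace • Y' p := fun l => cas_expand' hY' hYY hsq (hX' l)
  have h3 : ∑ l, X l * X' l = ∑ l, ∑ p, (Y p * X' l).trace • (X l * Y' p) := by
    refine Finset.sum_congr rfl fun l _ => ?_
    conv_lhs => rw [h2 l]
    rw [Finset.mul_sum]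
    refine Finset.sum_congr rfl fun p _ => ?_
    rw [Matrix.mul_smul]
  have h4 : ∑ p, Y p * Y' p = ∑ p, ∑ l, (Y p * X' l).trace • (X l * Y' p) := by
    refine Finset.sum_congr rfl fun p _ => ?_
    conv_lhs => rw [h1 p]
    rw [Finset.sum_mul]
    refine Finset.sum_congr rfl fun l _ => ?_
    rw [Matrix.smul_mul]
  rw [h3, h4, Finset.sum_comm]

/-- the trace form on a subspace -/
noncomputable def trF (U : Submodule ℂ (Matrix ν ν ℂ)) : LinearMap.BilinForm ℂ U :=
  LinearMap.mk₂ ℂ (fun M N : U => ((M : Matrix ν ν ℂ) * (N : Matrix ν ν ℂ)).trace)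
    (fun M M' N => by
      rw [Submodule.coe_add, Matrix.add_mul, Matrix.trace_add])
    (fun c M N => by
      rw [Submodule.coe_smul, Matrix.smul_mul, Matrix.trace_smul])
    (fun M N N' => by
      rw [Submodule.coe_add, Matrix.mul_add, Matrix.trace_add])
    (fun c M N => by
      rw [Submodule.coe_smul, Matrix.mul_smul, Matrix.trace_smul])

lemma trF_apply (U : Submodule ℂ (Matrix ν ν ℂ)) (M N : U) :
    trF U M N = ((M : Matrix ν ν ℂ) * (N : Matrix ν ν ℂ)).trace := rfl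

/-- existence -/
theorem exists_isCas {U : Submodule ℂ (Matrix ν ν ℂ)}
    (h : ∀ M ∈ U, (∀ N ∈ U, (M * N).trace = 0) → M = 0) : ∃ C, IsCas U C := by
  have hnd : (trF U).Nondegenerate := by
    constructor
    · intro M hM
      exact Subtype.ext (h M M.2 fun N hN => hM ⟨N, hN⟩)
    · intro M hM
      refine Subtype.ext (h M M.2 fun N hN => ?_)
      rw [Matrix.trace_mul_comm]
      exact hM ⟨N, hN⟩
  have hsymm : (trF U).IsSymm := by
    constructor
    intro M N
    exact Matrix.trace_mul_comm _ _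
  let b := Module.finBasis ℂ U
  let b' := (trF U).dualBasis hnd b
  refine ⟨_, Module.finrank ℂ U, fun l => (b l : Matrix ν ν ℂ), fun l => (b' l : Matrix ν ν ℂ),
    fun l => (b l).2, fun l => (b' l).2, ?_, ?_, rfl⟩
  · intro l k
    exact LinearMap.BilinForm.apply_dualBasis_right hnd hsymm b l k
  · intro M hM
    rw [Submodule.mem_span_range_iff_exists_fun]
    refine ⟨fun l => b.repr ⟨M, hM⟩ l, ?_⟩
    have h1 := congrArg Subtype.val (b.sum_repr ⟨M, hM⟩)
    rw [Submodule.coe_sum] at h1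
    exact h1

/-- an orthonormal basis for the Hermitian form `tr (M N*)` -/
lemma exists_onb (U : Submodule ℂ (Matrix ν ν ℂ)) :
    ∃ (m : ℕ) (X : Fin m → Matrix ν ν ℂ), (∀ l, X l ∈ U) ∧
      U ≤ Submodule.span ℂ (Set.range X) ∧
      ∀ l k, (X l * (X k).conjTranspose).trace = if l = k then 1 else 0 := by
  let e : Matrix ν ν ℂ ≃ₗ[ℂ] EuclideanSpace ℂ (ν × ν) :=
    (LinearEquiv.curry ℂ ℂ ν ν).symm.trans (WithLp.linearEquiv 2 ℂ (ν × ν → ℂ)).symm
  have he : ∀ M : Matrix ν ν ℂ, ∀ p, (e M) p = M p.1 p.2 := fun M p => rfl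
  have hin : ∀ M N : Matrix ν ν ℂ, inner ℂ (e N) (e M) = (M * N.conjTranspose).trace := by
    intro M N
    rw [PiLp.inner_apply, Fintype.sum_prod_type, Matrix.trace]
    refine Finset.sum_congr rfl fun i _ => ?_
    rw [Matrix.diag_apply, Matrix.mul_apply]
    refine Finset.sum_congr rfl fun j _ => ?_
    rw [he, he, Matrix.conjTranspose_apply]
    rfl
  let W : Submodule ℂ (EuclideanSpace ℂ (ν × ν)) := U.map e.toLinearMap
  let w := stdOrthonormalBasis ℂ W
  refine ⟨_, fun l => e.symm (w l : EuclideanSpace ℂ (ν × ν)), ?_, ?_, ?_⟩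
  · intro l
    obtain ⟨M, hM, hM2⟩ := (w l).2
    have : e.symm (w l : EuclideanSpace ℂ (ν × ν)) = M := by
      rw [← hM2]
      exact e.symm_apply_apply M
    change e.symm (w l : EuclideanSpace ℂ (ν × ν)) ∈ U
    rw [this]
    exact hM
  · intro M hM
    rw [Submodule.mem_span_range_iff_exists_fun]
    let M' : W := ⟨e M, ⟨M, hM, rfl⟩⟩
    refine ⟨fun l => w.toBasis.repr M' l, ?_⟩
    have h1 := congrArg Subtype.val (w.toBasis.sum_repr M')
    rw [Submodule.coe_sum] at h1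
    have h2 := congrArg e.symm h1
    rw [map_sum] at h2
    have h3 : e.symm ((M' : W) : EuclideanSpace ℂ (ν × ν)) = M := e.symm_apply_apply M
    rw [h3] at h2
    rw [← h2]
    refine Finset.sum_congr rfl fun l _ => ?_
    rw [Submodule.coe_smul, map_smul, OrthonormalBasis.coe_toBasis]
  · intro l k
    rw [← hin, LinearEquiv.apply_symm_apply, LinearEquiv.apply_symm_apply]
    have h1 := (orthonormal_iff_ite.1 w.orthonormal) k l
    rw [Submodule.coe_inner] at h1
    rw [h1]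
    simp only [eq_comm]

/-- for a `*`-closed subspace the Casimir element is `∑ X_l X_l*` for a spanning family `X_l` of `U` -/
theorem IsCas.adjoint {U : Submodule ℂ (Matrix ν ν ℂ)} {C : Matrix ν ν ℂ} (h : IsCas U C)
    (hU : ∀ M ∈ U, M.conjTranspose ∈ U) :
    ∃ (m : ℕ) (X : Fin m → Matrix ν ν ℂ), (∀ l, X l ∈ U) ∧
      U ≤ Submodule.span ℂ (Set.range X) ∧ C = ∑ l, X l * (X l).conjTranspose := by
  obtain ⟨m, X, hX, hsp, hXX⟩ := exists_onb U
  exact ⟨m, X, hX, hsp, h.unique ⟨m, X, fun l => (X l).conjTranspose, hX, fun l => hU _ (hX l),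
    hXX, hsp, rfl⟩⟩

/-- conjugation -/
theorem IsCas.conjugate {U U' : Submodule ℂ (Matrix ν ν ℂ)} {C : Matrix ν ν ℂ} (h : IsCas U C)
    (k : Matrix.unitaryGroup ν ℂ)
    (hU : ∀ M, M ∈ U' ↔ star (k : Matrix ν ν ℂ) * M * (k : Matrix ν ν ℂ) ∈ U) :
    IsCas U' ((k : Matrix ν ν ℂ) * C * star (k : Matrix ν ν ℂ)) := by
  obtain ⟨m, X, X', hX, hX', hXX, hsp, rfl⟩ := h
  set g : Matrix ν ν ℂ := (k : Matrix ν ν ℂ) with hg
  have h1 : star g * g = 1 := Matrix.mem_unitaryGroup_iff'.1 k.2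
  have h2 : g * star g = 1 := Matrix.mem_unitaryGroup_iff.1 k.2
  have h3 : ∀ M : Matrix ν ν ℂ, star g * (g * M * star g) * g = M := by
    intro M
    calc star g * (g * M * star g) * g = (star g * g) * M * (star g * g) := by
          simp only [Matrix.mul_assoc]
      _ = M := by rw [h1, Matrix.one_mul, Matrix.mul_one]
  have h4 : ∀ M N : Matrix ν ν ℂ, (g * M * star g) * (g * N * star g) = g * (M * N) * star g := by
    intro M N
    calc (g * M * star g) * (g * N * star g) = g * M * (star g * g) * N * star g := by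
          simp only [Matrix.mul_assoc]
      _ = g * (M * N) * star g := by rw [h1, Matrix.mul_one]; simp only [Matrix.mul_assoc]
  refine ⟨m, fun l => g * X l * star g, fun l => g * X' l * star g, ?_, ?_, ?_, ?_, ?_⟩
  · intro l
    rw [hU, h3]
    exact hX l
  · intro l
    rw [hU, h3]
    exact hX' l
  · intro l k
    rw [h4, Matrix.trace_mul_comm, ← Matrix.mul_assoc, h1, Matrix.one_mul]
    exact hXX l k
  · intro M hM
    rw [hU] at hM
    obtain ⟨c, hc⟩ := (Submodule.mem_span_range_iff_exists_fun ℂ).1 (hsp hM)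
    rw [Submodule.mem_span_range_iff_exists_fun]
    refine ⟨c, ?_⟩
    have h5 : g * (star g * M * g) * star g = M := by
      calc g * (star g * M * g) * star g = (g * star g) * M * (g * star g) := by
            simp only [Matrix.mul_assoc]
        _ = M := by rw [h2, Matrix.one_mul, Matrix.mul_one]
    rw [← h5, ← hc, Finset.mul_sum, Finset.sum_mul]
    refine Finset.sum_congr rfl fun l _ => ?_
    rw [Matrix.mul_smul, Matrix.smul_mul]
  · simp only [h4]
    rw [Finset.mul_sum, Finset.sum_mul]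

/-- regularity near a point -/
lemma exists_cas_local (A : Subalgebra ℂ (MvPolynomial ν ℂ)) {s : ℕ} (x₀ : ν → ℂ)
    (hx₀ : Module.finrank ℂ (stab A x₀) = s) (hn₀ : NDeg A x₀) :
    ∃ (D : MvPolynomial ν ℂ) (F : ν → ν → MvPolynomial ν ℂ), eval x₀ D ≠ 0 ∧
      ∀ x : ν → ℂ, Module.finrank ℂ (stab A x) = s → NDeg A x → ∀ C, IsCas (stab A x) C →
        ∀ i j, eval x D * C i j = eval x (F i j) := by
  obtain ⟨δ, κ, hδ, hκ⟩ := exists_local_basis A s x₀ hx₀
  let G : Matrix (Fin s) (Fin s) (MvPolynomial ν ℂ) := Matrix.of fun j k => (κ j * κ k).trace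
  have hG : ∀ x : ν → ℂ, G.map (eval x) =
      Matrix.of fun j k => ((κ j).map (eval x) * (κ k).map (eval x)).trace := by
    intro x
    ext j k
    change eval x ((κ j * κ k).trace) = ((κ j).map (eval x) * (κ k).map (eval x)).trace
    rw [← Matrix.map_mul]
    simp only [Matrix.trace, Matrix.diag_apply, map_sum, Matrix.map_apply]
  have hdet : ∀ x : ν → ℂ, Module.finrank ℂ (stab A x) = s → NDeg A x → eval x δ ≠ 0 →
      (G.map (eval x)).det ≠ 0 := by
    intro x hx hn hδx h0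
    obtain ⟨hli, hsp⟩ := hκ x hx hδx
    obtain ⟨v, hv0, hv⟩ := Matrix.exists_mulVec_eq_zero_iff.2 h0
    apply hv0
    have hmem : ∑ k, v k • (κ k).map (eval x) ∈ stab A x := by
      rw [← hsp]
      exact Submodule.sum_mem _ fun k _ => Submodule.smul_mem _ _ (Submodule.subset_span ⟨k, rfl⟩)
    have htr : ∀ j, ((κ j).map (eval x) * ∑ k, v k • (κ k).map (eval x)).trace = 0 := by
      intro j
      have h1 := congrFun hv j
      rw [hG, Matrix.mulVec, dotProduct, Pi.zero_apply] at h1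
      refine Eq.trans ?_ h1
      rw [Finset.mul_sum, Matrix.trace_sum]
      refine Finset.sum_congr rfl fun k _ => ?_
      rw [Matrix.mul_smul, Matrix.trace_smul, smul_eq_mul, Matrix.of_apply, mul_comm]
    have hzero := hn _ hmem (by
      intro N hN
      rw [← hsp] at hN
      obtain ⟨c, hc⟩ := (Submodule.mem_span_range_iff_exists_fun ℂ).1 hN
      rw [Matrix.trace_mul_comm, ← hc, Finset.sum_mul, Matrix.trace_sum]
      refine Finset.sum_eq_zero fun l _ => ?_
      rw [Matrix.smul_mul, Matrix.trace_smul, htr, smul_zero])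
    funext k
    exact (Fintype.linearIndependent_iff.1 hli) v hzero k
  refine ⟨δ * G.det, fun i j => δ * ∑ k, ∑ m, G.adjugate m k * (κ k * κ m) i j, ?_, ?_⟩
  · rw [map_mul]
    refine mul_ne_zero hδ ?_
    have h1 := hdet x₀ hx₀ hn₀ hδ
    rw [← RingHom.mapMatrix_apply, ← RingHom.map_det] at h1
    exact h1
  intro x hx hn C hC i j
  rw [map_mul, map_mul]
  by_cases hδx : eval x δ = 0
  · rw [hδx, zero_mul, zero_mul, zero_mul]
  obtain ⟨hli, hsp⟩ := hκ x hx hδx
  have hd := hdet x hx hn hδx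
  set Gx : Matrix (Fin s) (Fin s) ℂ := G.map (eval x) with hGx
  have hdet2 : eval x G.det = Gx.det := by
    rw [hGx, ← RingHom.mapMatrix_apply, ← RingHom.map_det]
  have hGinv : Gx * Gx⁻¹ = 1 := Matrix.mul_nonsing_inv Gx (isUnit_iff_ne_zero.2 hd)
  have hcas : IsCas (stab A x) (∑ k, (κ k).map (eval x) * ∑ m, Gx⁻¹ m k • (κ m).map (eval x)) := by
    refine ⟨s, fun k => (κ k).map (eval x), fun k => ∑ m, Gx⁻¹ m k • (κ m).map (eval x), ?_, ?_,
      ?_, ?_, rfl⟩
    · intro l
      rw [← hsp]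
      exact Submodule.subset_span ⟨l, rfl⟩
    · intro l
      rw [← hsp]
      exact Submodule.sum_mem _ fun k _ => Submodule.smul_mem _ _ (Submodule.subset_span ⟨k, rfl⟩)
    · intro l k
      rw [Finset.mul_sum, Matrix.trace_sum]
      have h1 := congrFun (congrFun hGinv l) k
      rw [Matrix.mul_apply, Matrix.one_apply] at h1
      rw [← h1]
      refine Finset.sum_congr rfl fun m _ => ?_
      rw [Matrix.mul_smul, Matrix.trace_smul, smul_eq_mul, hGx, hG, Matrix.of_apply, mul_comm]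
    · rw [← hsp]
  rw [hC.unique hcas, hdet2, mul_assoc]
  congr 1
  rw [Matrix.sum_apply, Finset.mul_sum, map_sum]
  refine Finset.sum_congr rfl fun k _ => ?_
  rw [Finset.mul_sum, Matrix.sum_apply, Finset.mul_sum, map_sum]
  refine Finset.sum_congr rfl fun m _ => ?_
  rw [Matrix.mul_smul, Matrix.smul_apply, smul_eq_mul, ← mul_assoc, map_mul]
  have h5 : Gx.det * Gx⁻¹ m k = eval x (G.adjugate m k) := by
    rw [Matrix.inv_def, Matrix.smul_apply, smul_eq_mul, ← mul_assoc, Ring.mul_inverse_cancel _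
      (isUnit_iff_ne_zero.2 hd), one_mul, hGx, ← RingHom.mapMatrix_apply,
      ← RingHom.map_adjugate, RingHom.mapMatrix_apply, Matrix.map_apply]
  rw [h5, ← Matrix.map_mul, Matrix.map_apply]

/-- regularity of the Casimir element on `Y ∩ Gd` -/
theorem exists_cas_regular (A : Subalgebra ℂ (MvPolynomial ν ℂ)) {d s : ℕ}
    (h1 : ∀ x, Gd A d x → Module.finrank ℂ (stab A x) ≤ s)
    (h2 : ∀ x ∈ Yset A s, Gd A d x → NDeg A x) :
    ∃ Cas : (ν → ℂ) → Matrix ν ν ℂ, (∀ x ∈ Yset A s, Gd A d x → IsCas (stab A x) (Cas x)) ∧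
      ∀ b : A, IsGood A d b → ∃ r : ℕ, ∀ i j, ∃ F : MvPolynomial ν ℂ, ∀ x ∈ Yset A s,
        eval x (b : MvPolynomial ν ℂ) ≠ 0 →
          eval x (b : MvPolynomial ν ℂ) ^ r * Cas x i j = eval x F := by
  classical
  have hex : ∀ x : ν → ℂ, ∃ C : Matrix ν ν ℂ, x ∈ Yset A s → Gd A d x → IsCas (stab A x) C := by
    intro x
    by_cases hx : x ∈ Yset A s ∧ Gd A d x
    · obtain ⟨C, hC⟩ := exists_isCas (h2 x hx.1 hx.2)
      exact ⟨C, fun _ _ => hC⟩
    · exact ⟨0, fun h h' => absurd ⟨h, h'⟩ hx⟩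
  choose Cas hCas using hex
  refine ⟨Cas, hCas, ?_⟩
  intro b hb
  have hGd : ∀ x, eval x (b : MvPolynomial ν ℂ) ≠ 0 → Gd A d x := fun x hx => ⟨b, hb, hx⟩
  let J : Ideal (MvPolynomial ν ℂ) :=
    { carrier := {D | ∃ F : ν → ν → MvPolynomial ν ℂ, ∀ x ∈ Yset A s,
        eval x (b : MvPolynomial ν ℂ) ≠ 0 → ∀ i j, eval x D * Cas x i j = eval x (F i j)}
      add_mem' := by
        rintro D D' ⟨F, hF⟩ ⟨F', hF'⟩
        refine ⟨fun i j => F i j + F' i j, fun x hx hbx i j => ?_⟩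
        rw [map_add, map_add, add_mul, hF x hx hbx, hF' x hx hbx]
      zero_mem' := ⟨fun _ _ => 0, fun x _ _ i j => by rw [map_zero, zero_mul]⟩
      smul_mem' := by
        rintro c D ⟨F, hF⟩
        refine ⟨fun i j => c * F i j, fun x hx hbx i j => ?_⟩
        rw [smul_eq_mul, map_mul, map_mul, mul_assoc, hF x hx hbx] }
  have hrad : (b : MvPolynomial ν ℂ) ∈ vanishingIdeal ℂ (zeroLocus ℂ J) := by
    rw [mem_vanishingIdeal_iff]
    intro x hx
    rw [mem_zeroLocus_iff] at hx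
    rw [aeval_eq_eval]
    by_contra hbx
    obtain ⟨I, hI⟩ := exists_ideal_Yset A s
    have hxY : x ∈ Yset A s := by
      rw [hI]
      intro F hF
      have := hx F ⟨fun _ _ => 0, fun y hy _ i j => by
        rw [(hI y).1 hy F hF, zero_mul, map_zero]⟩
      rwa [aeval_eq_eval] at this
    have hfr : Module.finrank ℂ (stab A x) = s := le_antisymm (h1 x (hGd x hbx)) hxY
    obtain ⟨D, F, hD, hDF⟩ := exists_cas_local A x hfr (h2 x hxY (hGd x hbx))
    apply hD
    have := hx D ⟨F, fun y hy hby i j => hDF y (le_antisymm (h1 y (hGd y hby)) hy)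
      (h2 y hy (hGd y hby)) _ (hCas y hy (hGd y hby)) i j⟩
    rwa [aeval_eq_eval] at this
  rw [vanishingIdeal_zeroLocus_eq_radical] at hrad
  obtain ⟨r, F, hF⟩ := hrad
  refine ⟨r, fun i j => ⟨F i j, fun x hx hbx => ?_⟩⟩
  have := hF x hx hbx i j
  rwa [map_pow] at this

end H50.Z
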