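import Pool.Agent.H50.Z.F3_Cas
import Pool.Agent.H50.Z.O1_Op
import Pool.Agent.H50.Z.R1b_ReyL
import Pool.Agent.H50.Z.G4_Reg

/-! (F3) The Casimir operator vanishes; stabilizers over the good locus are trivial. -/

open MvPolynomial H50.DO

set_option linter.unusedSectionVars false

namespace H50.Z

variable {ν : Type} [Fintype ν] [DecidableEq ν]

/-- `∂_i` -/
noncomputable abbrev pd (i : ν) : Module.End ℂ (MvPolynomial ν ℂ) := (pderiv i).toLinearMap

/-- the polynomial `q(ξ)` -/
noncomputable def inXi : MvPolynomial ν ℂ →ₐ[ℂ] MvPolynomial (ν ⊕ ν) ℂ := rename Sum.inr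

/-- the complex conjugate polynomial -/
noncomputable def cnj : MvPolynomial ν ℂ →+* MvPolynomial ν ℂ := map (starRingEnd ℂ)

lemma inXi_X (i : ν) : inXi (X i : MvPolynomial ν ℂ) = X (Sum.inr i) := by
  rw [inXi, rename_X]

lemma inXi_C (c : ℂ) : inXi (C c : MvPolynomial ν ℂ) = C c := by
  rw [inXi, rename_C]

lemma inXi_injective : Function.Injective (inXi : MvPolynomial ν ℂ → MvPolynomial (ν ⊕ ν) ℂ) :=
  rename_injective _ Sum.inr_injective

/-- `dblM k` acts on polynomials in `ξ` by the conjugate matrix -/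
lemma act_inXi (k : Matrix ν ν ℂ) (q : MvPolynomial ν ℂ) :
    act (dblM k) (inXi q) = inXi (act (k.map (starRingEnd ℂ)) q) := by
  induction q using MvPolynomial.induction_on with
  | C c => rw [inXi_C, algHom_C, algHom_C, algebraMap_eq, algebraMap_eq, inXi_C]
  | add p q hp hq => rw [map_add, map_add, map_add, map_add, hp, hq]
  | mul_X p i hp =>
    rw [map_mul, map_mul, map_mul, map_mul, hp, inXi_X, act_X, act_X, map_sum,
      Fintype.sum_sum_type]
    congr 1
    have h1 : ∑ j, C (dblM k (Sum.inr i) (Sum.inl j)) * X (Sum.inl j) =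
        (0 : MvPolynomial (ν ⊕ ν) ℂ) := by
      apply Finset.sum_eq_zero
      intro j _
      rw [dblM, Matrix.fromBlocks_apply₂₁, Matrix.zero_apply, C_0, zero_mul]
    rw [h1, zero_add]
    apply Finset.sum_congr rfl
    intro j _
    rw [map_mul, inXi_C, inXi_X, dblM, Matrix.fromBlocks_apply₂₂]

lemma cnj_act (k : Matrix ν ν ℂ) (a : MvPolynomial ν ℂ) :
    act (k.map (starRingEnd ℂ)) (cnj a) = cnj (act k a) := by
  induction a using MvPolynomial.induction_on with
  | C c =>
    rw [cnj, map_C, algHom_C, algHom_C, algebraMap_eq, map_C]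
  | add p q hp hq => rw [map_add, map_add, map_add, map_add, hp, hq]
  | mul_X p i hp =>
    rw [map_mul, map_mul, map_mul, map_mul, hp, act_X, map_sum]
    congr 1
    have h1 : cnj (X i : MvPolynomial ν ℂ) = X i := by rw [cnj, map_X]
    rw [h1, act_X]
    apply Finset.sum_congr rfl
    intro j _
    rw [map_mul, cnj, map_C, map_X]
    rfl

/-- conjugates of invariants are invariants in `ξ` -/
theorem inXi_cnj_mem (K : Subgroup (Matrix.unitaryGroup ν ℂ)) (a : MvPolynomial ν ℂ)
    (ha : a ∈ InvAlg K) : inXi (cnj a) ∈ InvAlg (dbl K) := by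
  rintro _ ⟨k, hk, rfl⟩
  have h1 : ((dblHom k : Matrix.unitaryGroup (ν ⊕ ν) ℂ) : Matrix (ν ⊕ ν) (ν ⊕ ν) ℂ) =
      dblM (k : Matrix ν ν ℂ) := rfl
  rw [h1, act_inXi, cnj_act, ha k hk]

/-! ### constant coefficient operators -/

lemma expL_mapDomain (β : ν →₀ ℕ) : expL (β.mapDomain Sum.inr) = (0 : ν →₀ ℕ) := by
  ext j
  simp only [expL, Finsupp.equivFunOnFinite_symm_apply_apply, Finsupp.coe_zero, Pi.zero_apply]
  exact Finsupp.mapDomain_of_notMem_range _ _ (by simp)

lemma expR_mapDomain (β : ν →₀ ℕ) : expR (β.mapDomain Sum.inr) = β := by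
  ext j
  simp only [expR, Finsupp.equivFunOnFinite_symm_apply_apply]
  exact Finsupp.mapDomain_apply Sum.inr_injective _ _

lemma Op_inXi_monomial (β : ν →₀ ℕ) (c : ℂ) : Op (inXi (monomial β c)) = c • dpow β := by
  rw [inXi, rename_monomial, Op_monomial, expL_mapDomain, expR_mapDomain]
  have h1 : (monomial (0 : ν →₀ ℕ) (1 : ℂ)) = 1 := rfl
  rw [h1, LinearMap.mulLeft_one]
  rfl

/-- the operator with constant coefficients as a sum -/
lemma Op_inXi (q : MvPolynomial ν ℂ) (f : MvPolynomial ν ℂ) :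
    Op (inXi q) f = ∑ β ∈ q.support, coeff β q • dpow β f := by
  conv_lhs => rw [q.as_sum, map_sum, map_sum, LinearMap.sum_apply]
  apply Finset.sum_congr rfl
  intro β _
  rw [Op_inXi_monomial]
  rfl

/-- `q(ξ)` is homogeneous in `ξ` -/
lemma xiHom_inXi {q : MvPolynomial ν ℂ} {m : ℕ} (hq : q.IsHomogeneous m) : XiHom (inXi q) m := by
  intro s hs
  rw [weight_wxi]
  obtain ⟨u, hu, hc⟩ := coeff_rename_ne_zero _ _ _ hs
  rw [← hu, expR_mapDomain]
  have := hq hc
  rw [Finsupp.degree_eq_weight_one]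
  exact this

lemma dsub_inXi (f q : MvPolynomial ν ℂ) :
    dsub f (inXi q) = aeval (fun i => pderiv i f) q := by
  rw [dsub, inXi, aeval_rename]
  rfl

/-! ### scaling -/

lemma eval_smul_of_isHomogeneous {f : MvPolynomial ν ℂ} {m : ℕ} (hf : f.IsHomogeneous m) (s : ℂ)
    (x : ν → ℂ) : eval (s • x) f = s ^ m * eval x f := by
  rw [eval_eq', eval_eq', Finset.mul_sum]
  apply Finset.sum_congr rfl
  intro d hd
  have h1 : ∑ i, d i = m := by
    rw [← Finsupp.degree_eq_sum, Finsupp.degree_eq_weight_one]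
    exact hf (mem_support_iff.1 hd)
  simp only [Pi.smul_apply, smul_eq_mul, mul_pow]
  rw [Finset.prod_mul_distrib, Finset.prod_pow_eq_pow_sum, h1]
  ring

lemma pderiv_scale (s : ℂ) (i : ν) (f : MvPolynomial ν ℂ) :
    pderiv i (act (s • (1 : Matrix ν ν ℂ)) f) = C s * act (s • (1 : Matrix ν ν ℂ)) (pderiv i f) := by
  rw [pderiv_act, Finset.sum_eq_single i]
  · rw [Matrix.smul_apply, Matrix.one_apply_eq, smul_eq_mul, mul_one]
  · intro b _ hb
    rw [Matrix.smul_apply, Matrix.one_apply_ne hb, smul_zero, C_0, zero_mul]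
  · intro h
    exact absurd (Finset.mem_univ i) h

lemma dpow_scale (s : ℂ) (β : ν →₀ ℕ) (f : MvPolynomial ν ℂ) :
    dpow β (act (s • (1 : Matrix ν ν ℂ)) f) =
      C (s ^ β.degree) * act (s • (1 : Matrix ν ν ℂ)) (dpow β f) := by
  induction β using dpow_induction generalizing f with
  | h0 =>
    rw [dpow_zero, map_zero, pow_zero, C_1, one_mul]
    rfl
  | h1 β i ih =>
    rw [dpow_add_single, Module.End.mul_apply, Module.End.mul_apply, map_add, Finsupp.degree_single,
      pow_add, pow_one, C_mul]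
    have h1 : dd i (act (s • (1 : Matrix ν ν ℂ)) f) =
        s • act (s • (1 : Matrix ν ν ℂ)) (dd i f) := by
      rw [smul_eq_C_mul]
      exact pderiv_scale s i f
    rw [h1, map_smul, ih, smul_eq_C_mul]
    ring

lemma act_scale_of_isHomogeneous {f : MvPolynomial ν ℂ} {m : ℕ} (hf : f.IsHomogeneous m) (s : ℂ) :
    act (s • (1 : Matrix ν ν ℂ)) f = C (s ^ m) * f := by
  apply MvPolynomial.funext
  intro x
  rw [eval_act, map_mul, eval_C, Matrix.smul_mulVec, Matrix.one_mulVec,
    eval_smul_of_isHomogeneous hf]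

/-- the scaling of `q(∂) f` -/
lemma Op_scale {q : MvPolynomial ν ℂ} {m : ℕ} (hq : q.IsHomogeneous m) (s : ℂ)
    (f : MvPolynomial ν ℂ) :
    Op (inXi q) (act (s • (1 : Matrix ν ν ℂ)) f) =
      C (s ^ m) * act (s • (1 : Matrix ν ν ℂ)) (Op (inXi q) f) := by
  rw [Op_inXi, Op_inXi, map_sum, Finset.mul_sum]
  apply Finset.sum_congr rfl
  intro β hβ
  rw [dpow_scale, map_smul]
  have h1 : β.degree = m := by
    have := hq (mem_support_iff.1 hβ)
    rw [Finsupp.degree_eq_weight_one]
    exact this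
  rw [h1, mul_smul_comm]

/-- (q_j(∂) ∂_i a)(s x) -/
lemma Op_pderiv_scale {q a : MvPolynomial ν ℂ} {m D : ℕ} (hq : q.IsHomogeneous m)
    (ha : a.IsHomogeneous D) (s : ℂ) (i : ν) (x : ν → ℂ) :
    s ^ (m + 1) * eval (s • x) (Op (inXi q) (pderiv i a)) =
      s ^ D * eval x (Op (inXi q) (pderiv i a)) := by
  have h1 := Op_scale hq s (pderiv i a)
  have h2 := pderiv_scale s i a
  rw [act_scale_of_isHomogeneous ha, pderiv_C_mul] at h2
  have h3 : Op (inXi q) (C s * act (s • (1 : Matrix ν ν ℂ)) (pderiv i a)) =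
      C s * (C (s ^ m) * act (s • (1 : Matrix ν ν ℂ)) (Op (inXi q) (pderiv i a))) := by
    rw [← h1, ← smul_eq_C_mul, map_smul, smul_eq_C_mul]
  rw [← h2, ← smul_eq_C_mul, map_smul, smul_eq_C_mul] at h3
  have h4 := congrArg (eval x) h3
  rw [map_mul, map_mul, map_mul, eval_C, eval_C, eval_C, eval_act, Matrix.smul_mulVec,
    Matrix.one_mulVec] at h4
  rw [h4]
  ring

/-! ### the Casimir operator -/

/-- `Σ C_ij(x) T_ij(x)` -/
noncomputable def uf (Cas : (ν → ℂ) → Matrix ν ν ℂ) (q : MvPolynomial ν ℂ) (a : MvPolynomial ν ℂ)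
    (x : ν → ℂ) : ℂ :=
  ∑ i, ∑ j, Cas x i j * eval x (Op (inXi (pderiv j q)) (pderiv i a))

lemma good_mulVec (K : Subgroup (Matrix.unitaryGroup ν ℂ)) (k : Matrix.unitaryGroup ν ℂ)
    (hk : k ∈ K) (a : MvPolynomial ν ℂ) (ha : a ∈ InvAlg K) (x : ν → ℂ) :
    eval ((k : Matrix ν ν ℂ).mulVec x) a = eval x a := by
  rw [← eval_act, ha k hk]

lemma Gd_mulVec (K : Subgroup (Matrix.unitaryGroup ν ℂ)) (k : Matrix.unitaryGroup ν ℂ)
    (hk : k ∈ K) {d : ℕ} (x : ν → ℂ) (hx : Gd (InvAlg K) d x) :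
    Gd (InvAlg K) d ((k : Matrix ν ν ℂ).mulVec x) := by
  obtain ⟨b, hb, hbx⟩ := hx
  exact ⟨b, hb, by rwa [good_mulVec K k hk _ b.2]⟩

/-- conjugate matrices fix `q` when `q(ξ)` is invariant -/
lemma act_conj_of_inXi_mem (K : Subgroup (Matrix.unitaryGroup ν ℂ)) (k : Matrix.unitaryGroup ν ℂ)
    (hk : k ∈ K) (q : MvPolynomial ν ℂ) (hqK : inXi q ∈ InvAlg (dbl K)) :
    act ((k : Matrix ν ν ℂ).map (starRingEnd ℂ)) q = q := by
  apply inXi_injective
  rw [← act_inXi]
  exact hqK (dblHom k) (Subgroup.mem_map_of_mem _ hk)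

/-- equivariance of the matrix `T_ij` -/
lemma sum_act_T (K : Subgroup (Matrix.unitaryGroup ν ℂ)) (k : Matrix.unitaryGroup ν ℂ)
    (hk : k ∈ K) (q : MvPolynomial ν ℂ) (hqK : inXi q ∈ InvAlg (dbl K))
    (a : MvPolynomial ν ℂ) (ha : a ∈ InvAlg K) (p s : ν) :
    ∑ i, ∑ j, C ((k : Matrix ν ν ℂ) i p * starRingEnd ℂ ((k : Matrix ν ν ℂ) j s)) *
      act (k : Matrix ν ν ℂ) (Op (inXi (pderiv j q)) (pderiv i a)) =
    Op (inXi (pderiv s q)) (pderiv p a) := by
  have h1 : pderiv p a = ∑ i, C ((k : Matrix ν ν ℂ) i p) * act (k : Matrix ν ν ℂ) (pderiv i a) := by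
    rw [← pderiv_act, ha k hk]
  have h2 : pderiv s q = ∑ j, C (starRingEnd ℂ ((k : Matrix ν ν ℂ) j s)) *
      act ((k : Matrix ν ν ℂ).map (starRingEnd ℂ)) (pderiv j q) := by
    have := pderiv_act ((k : Matrix ν ν ℂ).map (starRingEnd ℂ)) s q
    rw [act_conj_of_inXi_mem K k hk q hqK] at this
    exact this
  have h3 : ∀ i j, act (k : Matrix ν ν ℂ) (Op (inXi (pderiv j q)) (pderiv i a)) =
      Op (inXi (act ((k : Matrix ν ν ℂ).map (starRingEnd ℂ)) (pderiv j q)))
        (act (k : Matrix ν ν ℂ) (pderiv i a)) := by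
    intro i j
    rw [act_Op, act_inXi]
  conv_rhs => rw [h1, h2]
  simp only [h3, map_sum, LinearMap.sum_apply]
  apply Finset.sum_congr rfl
  intro i _
  apply Finset.sum_congr rfl
  intro j _
  have h4 : ∀ (c : ℂ) (F : MvPolynomial (ν ⊕ ν) ℂ) (g : MvPolynomial ν ℂ),
      Op (C c * F) g = C c * Op F g := by
    intro c F g
    rw [← smul_eq_C_mul, map_smul, LinearMap.smul_apply, smul_eq_C_mul]
  have h5 : ∀ (c : ℂ) (F : MvPolynomial (ν ⊕ ν) ℂ) (g : MvPolynomial ν ℂ),
      Op F (C c * g) = C c * Op F g := by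
    intro c F g
    rw [← smul_eq_C_mul, map_smul, smul_eq_C_mul]
  have h6 : ∀ (c : ℂ) (g : MvPolynomial ν ℂ), inXi (C c * g) = C c * inXi g := by
    intro c g
    rw [map_mul, inXi_C]
  rw [h5, h6, h4, C_mul, mul_assoc]

/-- `K`-invariance of the function `uf` -/
lemma uf_mulVec (K : Subgroup (Matrix.unitaryGroup ν ℂ)) {d : ℕ} (Y : Set (ν → ℂ))
    (Cas : (ν → ℂ) → Matrix ν ν ℂ)
    (hCK : ∀ k ∈ K, ∀ x ∈ Y, Gd (InvAlg K) d x → Cas ((k : Matrix ν ν ℂ).mulVec x) =
      (k : Matrix ν ν ℂ) * Cas x * star (k : Matrix ν ν ℂ))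
    (q : MvPolynomial ν ℂ) (hqK : inXi q ∈ InvAlg (dbl K))
    (a : MvPolynomial ν ℂ) (ha : a ∈ InvAlg K) (k : Matrix.unitaryGroup ν ℂ)
    (hk : k ∈ K) (x : ν → ℂ) (hx : x ∈ Y) (hxG : Gd (InvAlg K) d x) :
    uf Cas q a ((k : Matrix ν ν ℂ).mulVec x) = uf Cas q a x := by
  have h1 : ∀ p s, eval x (Op (inXi (pderiv s q)) (pderiv p a)) =
      ∑ i, ∑ j, (k : Matrix ν ν ℂ) i p * starRingEnd ℂ ((k : Matrix ν ν ℂ) j s) *
        eval ((k : Matrix ν ν ℂ).mulVec x) (Op (inXi (pderiv j q)) (pderiv i a)) := by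
    intro p s
    rw [← sum_act_T K k hk q hqK a ha p s, map_sum]
    apply Finset.sum_congr rfl
    intro i _
    rw [map_sum]
    apply Finset.sum_congr rfl
    intro j _
    rw [map_mul, eval_C, eval_act]
  unfold uf
  rw [hCK k hk x hx hxG]
  have h2 : ∀ i j, ((k : Matrix ν ν ℂ) * Cas x * star (k : Matrix ν ν ℂ)) i j =
      ∑ p, ∑ s, (k : Matrix ν ν ℂ) i p * Cas x p s * starRingEnd ℂ ((k : Matrix ν ν ℂ) j s) := by
    intro i j
    rw [Matrix.mul_apply]
    simp only [Matrix.mul_apply, Finset.sum_mul]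
    rw [Finset.sum_comm]
    rfl
  simp only [h1, h2, Finset.sum_mul, Finset.mul_sum]
  -- exchange of the four sums
  have h3 : ∀ G : ν → ν → ν → ν → ℂ, ∑ i, ∑ j, ∑ p, ∑ s, G i j p s = ∑ p, ∑ s, ∑ i, ∑ j, G i j p s := by
    intro G
    have e1 : ∀ i, ∑ j, ∑ p, ∑ s, G i j p s = ∑ p, ∑ s, ∑ j, G i j p s := by
      intro i
      rw [Finset.sum_comm]
      apply Finset.sum_congr rfl
      intro p _
      rw [Finset.sum_comm]
    rw [Finset.sum_congr rfl fun i _ => e1 i, Finset.sum_comm]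
    apply Finset.sum_congr rfl
    intro p _
    rw [Finset.sum_comm]
  rw [h3]
  apply Finset.sum_congr rfl
  intro p _
  apply Finset.sum_congr rfl
  intro s _
  apply Finset.sum_congr rfl
  intro i _
  apply Finset.sum_congr rfl
  intro j _
  ring

/-- two invariants which agree on `Y ∩ Gd` are equal -/
lemma ext_of_Gd (K : Subgroup (Matrix.unitaryGroup ν ℂ)) {d : ℕ}
    (hd : Algebra.trdeg ℂ (InvAlg K) = d) (Y : Set (ν → ℂ))
    (hY : ∀ a ∈ InvAlg K, (∀ x ∈ Y, eval x a = 0) → a = 0) (F : MvPolynomial ν ℂ)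
    (hF : F ∈ InvAlg K) (h : ∀ x ∈ Y, Gd (InvAlg K) d x → eval x F = 0) : F = 0 := by
  have := invAlg_finiteType K
  obtain ⟨b, hb⟩ := exists_good (InvAlg K) hd
  have hb0 : (b : MvPolynomial ν ℂ) ≠ 0 := by
    obtain ⟨_, _, h1⟩ := hb
    intro h0
    exact h1.1 (Subtype.ext h0)
  have h1 : (b : MvPolynomial ν ℂ) * F = 0 := by
    apply hY _ (mul_mem b.2 hF)
    intro x hx
    rw [map_mul]
    by_cases hbx : eval x (b : MvPolynomial ν ℂ) = 0
    · rw [hbx, zero_mul]
    · rw [h x hx ⟨b, hb, hbx⟩, mul_zero]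
  exact (mul_eq_zero.1 h1).resolve_left hb0

/-- the function `uf` is given by an invariant -/
lemma exists_uf (K : Subgroup (Matrix.unitaryGroup ν ℂ)) {d : ℕ}
    (hd : Algebra.trdeg ℂ (InvAlg K) = d) (Y : Set (ν → ℂ))
    (hYK : ∀ k ∈ K, ∀ x ∈ Y, (k : Matrix ν ν ℂ).mulVec x ∈ Y)
    (hY : ∀ a ∈ InvAlg K, (∀ x ∈ Y, eval x a = 0) → a = 0) (Cas : (ν → ℂ) → Matrix ν ν ℂ)
    (hCK : ∀ k ∈ K, ∀ x ∈ Y, Gd (InvAlg K) d x → Cas ((k : Matrix ν ν ℂ).mulVec x) =
      (k : Matrix ν ν ℂ) * Cas x * star (k : Matrix ν ν ℂ))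
    (hCr : ∀ b : InvAlg K, IsGood (InvAlg K) d b → ∃ r : ℕ, ∀ i j, ∃ F : MvPolynomial ν ℂ,
      ∀ x ∈ Y, eval x (b : MvPolynomial ν ℂ) ≠ 0 →
        eval x (b : MvPolynomial ν ℂ) ^ r * Cas x i j = eval x F)
    (q : MvPolynomial ν ℂ) (hqK : inXi q ∈ InvAlg (dbl K))
    (a : MvPolynomial ν ℂ) (ha : a ∈ InvAlg K) :
    ∃ F : InvAlg K, ∀ x ∈ Y, Gd (InvAlg K) d x → uf Cas q a x = eval x (F : MvPolynomial ν ℂ) := by
  have := invAlg_finiteType K
  have := invAlg_isIntegrallyClosed K
  obtain ⟨F, hF⟩ := glue (InvAlg K) hd Y hY (uf Cas q a) (by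
    intro b hb
    obtain ⟨r, hr⟩ := hCr b hb
    choose G hG using hr
    have h1 : ∀ x ∈ Y, eval x (b : MvPolynomial ν ℂ) ≠ 0 →
        eval x (b : MvPolynomial ν ℂ) ^ r * uf Cas q a x =
          eval x (∑ i, ∑ j, G i j * Op (inXi (pderiv j q)) (pderiv i a)) := by
      intro x hx hbx
      rw [uf, Finset.mul_sum, map_sum]
      apply Finset.sum_congr rfl
      intro i _
      rw [Finset.mul_sum, map_sum]
      apply Finset.sum_congr rfl
      intro j _
      rw [map_mul, ← hG i j x hx hbx, mul_assoc]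
    obtain ⟨F, hF, hFx⟩ := exists_inv_eq_on K (Y ∩ {x | eval x (b : MvPolynomial ν ℂ) ≠ 0})
      (by
        intro k hk x hx
        refine ⟨hYK k hk x hx.1, ?_⟩
        have h2 : eval ((k : Matrix ν ν ℂ).mulVec x) (b : MvPolynomial ν ℂ) ≠ 0 := by
          rw [good_mulVec K k hk _ b.2]
          exact hx.2
        exact h2)
      (∑ i, ∑ j, G i j * Op (inXi (pderiv j q)) (pderiv i a))
      (by
        intro k hk x hx
        have h2 : eval ((k : Matrix ν ν ℂ).mulVec x) (b : MvPolynomial ν ℂ) ≠ 0 := by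
          rw [good_mulVec K k hk _ b.2]
          exact hx.2
        rw [← h1 x hx.1 hx.2, ← h1 _ (hYK k hk x hx.1) h2, good_mulVec K k hk _ b.2,
          uf_mulVec K Y Cas hCK q hqK a ha k hk x hx.1 ⟨b, hb, hx.2⟩])
    refine ⟨r, ⟨F, hF⟩, ?_⟩
    intro x hx hbx
    rw [h1 x hx hbx, ← hFx x ⟨hx, hbx⟩])
  refine ⟨F, ?_⟩
  rintro x hx ⟨b, hb, hbx⟩
  exact hF b hb x hx hbx

/-- the Casimir operator kills `A` -/
lemma uf_eq_zero (K : Subgroup (Matrix.unitaryGroup ν ℂ)) {d : ℕ}
    (hd : Algebra.trdeg ℂ (InvAlg K) = d) (hS : Surj (InvAlg K)) (Y : Set (ν → ℂ))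
    (hYs : ∀ x ∈ Y, ∀ s : ℂ, s ≠ 0 → s • x ∈ Y)
    (hY : ∀ a ∈ InvAlg K, (∀ x ∈ Y, eval x a = 0) → a = 0) (Cas : (ν → ℂ) → Matrix ν ν ℂ)
    (hCs : ∀ x ∈ Y, Gd (InvAlg K) d x → ∀ s : ℂ, s ≠ 0 → Gd (InvAlg K) d (s • x) →
      Cas (s • x) = Cas x)
    (hCd : ∀ x ∈ Y, Gd (InvAlg K) d x → ∀ a ∈ InvAlg K, ∀ j,
      ∑ i, eval x (pderiv i a) * Cas x i j = 0)
    (m : ℕ) (q : MvPolynomial ν ℂ) (hq : q.IsHomogeneous (m + 1))
    (huf : ∀ a : InvAlg K, ∃ F : InvAlg K, ∀ x ∈ Y, Gd (InvAlg K) d x →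
      uf Cas q a x = eval x (F : MvPolynomial ν ℂ))
    (a : MvPolynomial ν ℂ) (ha : a ∈ InvAlg K) (x : ν → ℂ) (hx : x ∈ Y)
    (hxG : Gd (InvAlg K) d x) : uf Cas q a x = 0 := by
  choose P₀ hP₀ using huf
  -- homogeneity of the derivatives of `q`
  have hqj : ∀ j, (pderiv j q).IsHomogeneous m := by
    intro j
    have := hq.pderiv (i := j)
    rwa [Nat.add_sub_cancel] at this
  have hext : ∀ F G : InvAlg K, (∀ x ∈ Y, Gd (InvAlg K) d x →
      eval x (F : MvPolynomial ν ℂ) = eval x (G : MvPolynomial ν ℂ)) → F = G := by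
    intro F G h
    have h1 : (F : MvPolynomial ν ℂ) - G = 0 := by
      apply ext_of_Gd K hd Y hY _ (sub_mem F.2 G.2)
      intro x hx hxG
      rw [map_sub, h x hx hxG, sub_self]
    exact Subtype.ext (sub_eq_zero.1 h1)
  have huadd : ∀ (a b : MvPolynomial ν ℂ) (x : ν → ℂ), uf Cas q (a + b) x = uf Cas q a x + uf Cas q b x := by
    intro a b x
    unfold uf
    rw [← Finset.sum_add_distrib]
    apply Finset.sum_congr rfl
    intro i _
    rw [← Finset.sum_add_distrib]
    apply Finset.sum_congr rfl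
    intro j _
    rw [map_add, map_add, map_add, mul_add]
  have husmul : ∀ (c : ℂ) (a : MvPolynomial ν ℂ) (x : ν → ℂ), uf Cas q (c • a) x = c * uf Cas q a x := by
    intro c a x
    unfold uf
    rw [Finset.mul_sum]
    apply Finset.sum_congr rfl
    intro i _
    rw [Finset.mul_sum]
    apply Finset.sum_congr rfl
    intro j _
    rw [Derivation.map_smul, map_smul, smul_eval]
    ring
  let P : Module.End ℂ (InvAlg K) :=
    { toFun := P₀
      map_add' := by
        intro a b
        apply hext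
        intro x hx hxG
        rw [← hP₀ _ x hx hxG, Subalgebra.coe_add, Subalgebra.coe_add, map_add, huadd,
          hP₀ a x hx hxG, hP₀ b x hx hxG]
      map_smul' := by
        intro c a
        apply hext
        intro x hx hxG
        rw [← hP₀ _ x hx hxG, Subalgebra.coe_smul, RingHom.id_apply, Subalgebra.coe_smul, smul_eval,
          husmul, hP₀ a x hx hxG] }
  have hP : ∀ (a : InvAlg K) (x : ν → ℂ), x ∈ Y → Gd (InvAlg K) d x →
      eval x ((P a : InvAlg K) : MvPolynomial ν ℂ) = uf Cas q a x :=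
    fun a x hx hxG => (hP₀ a x hx hxG).symm
  -- the operators `W_ij`
  let W : ν → ν → Module.End ℂ (MvPolynomial ν ℂ) := fun i j => Op (inXi (pderiv j q)) * dd i
  have hW : ∀ i j, DOp (m + 1 + 1) (W i j) := fun i j =>
    DOp.comp (DOp_Op (xiHom_inXi (hqj j))) (DOp_derivation (pderiv i))
  -- iterated commutators
  have hadI : ∀ (f : InvAlg K) (r : ℕ) (a : InvAlg K) (x : ν → ℂ), x ∈ Y → Gd (InvAlg K) d x →
      eval x ((adI f r P a : InvAlg K) : MvPolynomial ν ℂ) =
        ∑ i, ∑ j, Cas x i j * eval x (adI (f : MvPolynomial ν ℂ) r (W i j) a) := by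
    intro f r
    induction r with
    | zero =>
      intro a x hx hxG
      exact hP a x hx hxG
    | succ r ih =>
      intro a x hx hxG
      rw [adI_succ', ad_apply, Subalgebra.coe_sub, Subalgebra.coe_mul, (eval x).map_sub,
        (eval x).map_mul, ih _ x hx hxG, ih _ x hx hxG, Finset.mul_sum, ← Finset.sum_sub_distrib]
      apply Finset.sum_congr rfl
      intro i _
      rw [Finset.mul_sum, ← Finset.sum_sub_distrib]
      apply Finset.sum_congr rfl
      intro j _
      rw [adI_succ', ad_apply, Subalgebra.coe_mul, (eval x).map_sub, (eval x).map_mul]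
      ring
  have hDOp : DOp (m + 1) P := by
    rw [DOp_iff_adL]
    intro l hl
    refine polar ⊤ (m + 1) (fun f _ => ?_) l hl (fun _ _ => Submodule.mem_top)
    apply LinearMap.ext
    intro a
    apply hext
    intro x hx hxG
    rw [hadI f (m + 1) a x hx hxG, LinearMap.zero_apply, Subalgebra.coe_zero, map_zero]
    have h1 : ∀ i j, adI (f : MvPolynomial ν ℂ) (m + 1) (W i j) a =
        C ((m + 1).factorial : ℂ) * (dsub f (inXi (pderiv j q)) * pderiv i (f : MvPolynomial ν ℂ)) *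
          (a : MvPolynomial ν ℂ) := by
      intro i j
      have h2 := symb_mul (f : MvPolynomial ν ℂ) (DOp_Op (xiHom_inXi (hqj j)))
        (DOp_derivation (pderiv i))
      rw [symb_Op (xiHom_inXi (hqj j))] at h2
      have h3 : symb (f : MvPolynomial ν ℂ) 1 (pderiv i).toLinearMap =
          pderiv i (f : MvPolynomial ν ℂ) := by
        rw [symb]
        have : adI (f : MvPolynomial ν ℂ) 1 (pderiv i).toLinearMap =
            LinearMap.mulLeft ℂ (pderiv i (f : MvPolynomial ν ℂ)) := ad_derivation _ _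
        rw [this]
        simp
      rw [h3, symb] at h2
      rw [(hW i j).adI_eq_mul, LinearMap.mulLeft_apply, ← h2]
      have h4 : (((m + 1).factorial : ℕ) : ℂ) ≠ 0 := by exact_mod_cast Nat.factorial_ne_zero _
      rw [← smul_eq_C_mul, smul_smul, mul_inv_cancel₀ h4, one_smul]
    simp only [h1, map_mul, eval_C]
    rw [Finset.sum_comm]
    apply Finset.sum_eq_zero
    intro j _
    have h5 := hCd x hx hxG f f.2 j
    have h6 : ∀ i, Cas x i j * (((m + 1).factorial : ℂ) * (eval x (dsub f (inXi (pderiv j q))) *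
        eval x (pderiv i (f : MvPolynomial ν ℂ))) * eval x (a : MvPolynomial ν ℂ)) =
        (((m + 1).factorial : ℂ) * eval x (dsub f (inXi (pderiv j q))) *
          eval x (a : MvPolynomial ν ℂ)) * (eval x (pderiv i (f : MvPolynomial ν ℂ)) * Cas x i j) := by
      intro i
      ring
    rw [Finset.sum_congr rfl fun i _ => h6 i, ← Finset.mul_sum, h5, mul_zero]
  have hdeg : HomDeg (-((m + 1 : ℕ) : ℤ)) P := by
    intro D a haD
    -- homogeneous components of `P a` other than the one of degree `D - (m + 1)` vanish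
    have hcomp : ∀ e : ℕ, m + 1 + e ≠ D →
        homogeneousComponent e ((P a : InvAlg K) : MvPolynomial ν ℂ) = 0 := by
      intro e he
      apply ext_of_Gd K hd Y hY _ (isGraded_invAlg K _ (P a).2 e)
      intro x hx hxG
      set F : MvPolynomial ν ℂ := ((P a : InvAlg K) : MvPolynomial ν ℂ) with hFdef
      obtain ⟨b, hb, hbx⟩ := hxG
      -- polynomials in one variable
      let B : Polynomial ℂ := ∑ r ∈ Finset.range ((b : MvPolynomial ν ℂ).totalDegree + 1),
        Polynomial.C (eval x (homogeneousComponent r (b : MvPolynomial ν ℂ))) * Polynomial.X ^ r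
      have hB : ∀ s : ℂ, B.eval s = eval (s • x) (b : MvPolynomial ν ℂ) := by
        intro s
        conv_rhs => rw [← sum_homogeneousComponent (b : MvPolynomial ν ℂ), map_sum]
        rw [Polynomial.eval_finsetSum]
        apply Finset.sum_congr rfl
        intro r _
        rw [eval_smul_of_isHomogeneous (homogeneousComponent_isHomogeneous r _)]
        simp only [Polynomial.eval_mul, Polynomial.eval_C, Polynomial.eval_pow, Polynomial.eval_X]
        ring
      let G : Polynomial ℂ := ∑ r ∈ Finset.range (F.totalDegree + 1),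
        Polynomial.C (eval x (homogeneousComponent r F)) * Polynomial.X ^ r
      have hG : ∀ s : ℂ, G.eval s = eval (s • x) F := by
        intro s
        conv_rhs => rw [← sum_homogeneousComponent F, map_sum]
        rw [Polynomial.eval_finsetSum]
        apply Finset.sum_congr rfl
        intro r _
        rw [eval_smul_of_isHomogeneous (homogeneousComponent_isHomogeneous r _)]
        simp only [Polynomial.eval_mul, Polynomial.eval_C, Polynomial.eval_pow, Polynomial.eval_X]
        ring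
      have hkey : Polynomial.X * B * (Polynomial.X ^ (m + 1) * G -
          Polynomial.C (eval x F) * Polynomial.X ^ D) = 0 := by
        apply Polynomial.funext
        intro s
        simp only [Polynomial.eval_mul, Polynomial.eval_X, Polynomial.eval_sub, Polynomial.eval_pow,
          Polynomial.eval_C, Polynomial.eval_zero, hB, hG]
        by_cases hs : s = 0
        · rw [hs, zero_mul, zero_mul]
        by_cases hbs : eval (s • x) (b : MvPolynomial ν ℂ) = 0
        · rw [hbs, mul_zero, zero_mul]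
        · have hxG : Gd (InvAlg K) d x := ⟨b, hb, hbx⟩
          have hsG : Gd (InvAlg K) d (s • x) := ⟨b, hb, hbs⟩
          have h1 := hP a (s • x) (hYs x hx s hs) hsG
          have h2 := hP a x hx hxG
          rw [← hFdef] at h1 h2
          have h3 : s ^ (m + 1) * uf Cas q a (s • x) = s ^ D * uf Cas q a x := by
            unfold uf
            rw [hCs x hx hxG s hs hsG, Finset.mul_sum, Finset.mul_sum]
            apply Finset.sum_congr rfl
            intro i _
            rw [Finset.mul_sum, Finset.mul_sum]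
            apply Finset.sum_congr rfl
            intro j _
            have := Op_pderiv_scale (hqj j) haD s i x
            rw [mul_left_comm, this]
            ring
          rw [h1, h2, h3]
          ring
      have hB0 : B ≠ 0 := by
        intro h0
        have := hB 1
        rw [h0, Polynomial.eval_zero, one_smul] at this
        exact hbx this.symm
      have h4 := (mul_eq_zero.1 hkey).resolve_left (mul_ne_zero Polynomial.X_ne_zero hB0)
      have h5 := congrArg (fun p => Polynomial.coeff p (e + (m + 1))) h4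
      simp only [Polynomial.coeff_sub, Polynomial.coeff_X_pow_mul, Polynomial.coeff_zero,
        Polynomial.coeff_C_mul, Polynomial.coeff_X_pow] at h5
      rw [if_neg (by omega), mul_zero, sub_zero, Polynomial.finsetSum_coeff] at h5
      simp only [Polynomial.coeff_C_mul, Polynomial.coeff_X_pow, mul_ite, mul_one, mul_zero] at h5
      rw [Finset.sum_ite_eq] at h5
      split_ifs at h5 with h6
      · exact h5
      · rw [Finset.mem_range, not_lt] at h6
        rw [homogeneousComponent_eq_zero _ _ (by omega), map_zero]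
    by_cases hD : m + 1 ≤ D
    · left
      refine ⟨D - (m + 1), by omega, ?_⟩
      have h1 : ((P a : InvAlg K) : MvPolynomial ν ℂ) =
          homogeneousComponent (D - (m + 1)) ((P a : InvAlg K) : MvPolynomial ν ℂ) := by
        conv_lhs => rw [← sum_homogeneousComponent ((P a : InvAlg K) : MvPolynomial ν ℂ)]
        by_cases hr : D - (m + 1) ∈ Finset.range (((P a : InvAlg K) : MvPolynomial ν ℂ).totalDegree + 1)
        · rw [Finset.sum_eq_single_of_mem _ hr]
          intro r _ hr'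
          exact hcomp r (by omega)
        · rw [Finset.sum_eq_zero]
          · rw [Finset.mem_range, not_lt] at hr
            rw [homogeneousComponent_eq_zero _ _ (by omega)]
          · intro r hr'
            apply hcomp r
            intro h
            apply hr
            rwa [show D - (m + 1) = r by omega]
      rw [h1]
      exact homogeneousComponent_isHomogeneous _ _
    · right
      apply Subtype.ext
      rw [Subalgebra.coe_zero, ← sum_homogeneousComponent ((P a : InvAlg K) : MvPolynomial ν ℂ)]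
      apply Finset.sum_eq_zero
      intro r _
      exact hcomp r (by omega)
  obtain ⟨Q, hQ, hPQ⟩ := hS P ⟨_, hDOp⟩
  have hP0 := degree_bound (isGraded_invAlg K) hQ hPQ hDOp (Nat.lt_succ_self m) hdeg
  rw [← hP ⟨a, ha⟩ x hx hxG, hP0, LinearMap.zero_apply, Subalgebra.coe_zero, map_zero]

/-- (F3a) For `q` invariant of degree `n` and a Casimir-like matrix function `C` on the dominant
`K`-stable set `Y` (equivariant, scaling invariant, regular, annihilated by the `da(x)`) the function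
`∑ C_ij(x) (q_j(∂) ∂_i a)(x)` vanishes on `Y ∩ Gd` for all `a ∈ A`. -/
theorem casimir_operator_zero (K : Subgroup (Matrix.unitaryGroup ν ℂ)) {d : ℕ}
    (hd : Algebra.trdeg ℂ (InvAlg K) = d) (hS : Surj (InvAlg K)) (Y : Set (ν → ℂ))
    (hYK : ∀ k ∈ K, ∀ x ∈ Y, (k : Matrix ν ν ℂ).mulVec x ∈ Y)
    (hYs : ∀ x ∈ Y, ∀ s : ℂ, s ≠ 0 → s • x ∈ Y)
    (hY : ∀ a ∈ InvAlg K, (∀ x ∈ Y, eval x a = 0) → a = 0) (Cas : (ν → ℂ) → Matrix ν ν ℂ)
    (hCK : ∀ k ∈ K, ∀ x ∈ Y, Gd (InvAlg K) d x → Cas ((k : Matrix ν ν ℂ).mulVec x) =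
      (k : Matrix ν ν ℂ) * Cas x * star (k : Matrix ν ν ℂ))
    (hCs : ∀ x ∈ Y, Gd (InvAlg K) d x → ∀ s : ℂ, s ≠ 0 → Gd (InvAlg K) d (s • x) →
      Cas (s • x) = Cas x)
    (hCd : ∀ x ∈ Y, Gd (InvAlg K) d x → ∀ a ∈ InvAlg K, ∀ j,
      ∑ i, eval x (pderiv i a) * Cas x i j = 0)
    (hCr : ∀ b : InvAlg K, IsGood (InvAlg K) d b → ∃ r : ℕ, ∀ i j, ∃ F : MvPolynomial ν ℂ,
      ∀ x ∈ Y, eval x (b : MvPolynomial ν ℂ) ≠ 0 →
        eval x (b : MvPolynomial ν ℂ) ^ r * Cas x i j = eval x F)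
    (n : ℕ) (q : MvPolynomial ν ℂ) (hq : q.IsHomogeneous n) (hqK : inXi q ∈ InvAlg (dbl K))
    (a : MvPolynomial ν ℂ) (ha : a ∈ InvAlg K) (x : ν → ℂ) (hx : x ∈ Y)
    (hxG : Gd (InvAlg K) d x) :
    ∑ i, ∑ j, Cas x i j * eval x (Op (inXi (pderiv j q)) (pderiv i a)) = 0 := by
  rcases n with _ | m
  · have h1 : q = C (coeff 0 q) := by
      rw [← homogeneousComponent_zero]
      exact ((homogeneousComponent_of_mem hq).trans (if_pos rfl)).symm
    apply Finset.sum_eq_zero
    intro i _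
    apply Finset.sum_eq_zero
    intro j _
    rw [h1, pderiv_C, map_zero, map_zero, LinearMap.zero_apply, map_zero, mul_zero]
  · exact uf_eq_zero K hd hS Y hYs hY Cas hCs hCd m q hq
      (fun a => exists_uf K hd Y hYK hY Cas hCK hCr q hqK a a.2) a ha x hx hxG

/-! ### positivity -/

/-- `β!` -/
noncomputable def wt (β : ν →₀ ℕ) : ℕ := ∏ i, (β i).factorial

lemma wt_pos (β : ν →₀ ℕ) : 0 < wt β := Finset.prod_pos fun _ _ => Nat.factorial_pos _

lemma wt_add_single (β : ν →₀ ℕ) (i : ν) : wt (β + Finsupp.single i 1) = wt β * (β i + 1) := by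
  unfold wt
  have h1 : ∀ j, ((β + Finsupp.single i 1 : ν →₀ ℕ) j).factorial =
      (β j).factorial * (if j = i then β i + 1 else 1) := by
    intro j
    rw [Finsupp.add_apply, Finsupp.single_apply]
    by_cases hj : j = i
    · subst hj
      rw [if_pos rfl, if_pos rfl, Nat.factorial_succ, mul_comm]
    · rw [if_neg (Ne.symm hj), if_neg hj, add_zero, mul_one]
  rw [Finset.prod_congr rfl fun j _ => h1 j, Finset.prod_mul_distrib, Finset.prod_ite_eq' Finset.univ i,
    if_pos (Finset.mem_univ i)]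

lemma coeff_zero_dpow (β : ν →₀ ℕ) (f : MvPolynomial ν ℂ) :
    coeff 0 (dpow β f) = (wt β : ℂ) * coeff β f := by
  induction β using dpow_induction generalizing f with
  | h0 =>
    rw [dpow_zero, wt]
    simp
  | h1 β i ih =>
    rw [dpow_add_single, Module.End.mul_apply, ih, wt_add_single]
    have h1 : coeff β (dd i f) = coeff (β + Finsupp.single i 1) f * (β i + 1) := coeff_pderiv _ _
    rw [h1]
    push_cast
    ring

lemma dpow_isHomogeneous (β : ν →₀ ℕ) (f : MvPolynomial ν ℂ) (r : ℕ)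
    (hf : f.IsHomogeneous (β.degree + r)) : (dpow β f).IsHomogeneous r := by
  induction β using dpow_induction generalizing f with
  | h0 =>
    rw [map_zero, zero_add] at hf
    rw [dpow_zero]
    exact hf
  | h1 β i ih =>
    rw [dpow_add_single, Module.End.mul_apply]
    apply ih
    rw [map_add, Finsupp.degree_single] at hf
    have := hf.pderiv (i := i)
    rwa [show β.degree + 1 + r - 1 = β.degree + r by omega] at this

lemma eval_Op_inXi {p f : MvPolynomial ν ℂ} {m : ℕ} (hp : p.IsHomogeneous m)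
    (hf : f.IsHomogeneous m) (x : ν → ℂ) (S : Finset (ν →₀ ℕ)) (hS : p.support ⊆ S) :
    eval x (Op (inXi p) f) = ∑ β ∈ S, (wt β : ℂ) * (coeff β p * coeff β f) := by
  rw [Op_inXi, map_sum]
  have h1 : ∀ β ∈ p.support, eval x (coeff β p • dpow β f) =
      (wt β : ℂ) * (coeff β p * coeff β f) := by
    intro β hβ
    have h2 : β.degree = m := by
      rw [Finsupp.degree_eq_weight_one]
      exact hp (mem_support_iff.1 hβ)
    have h3 : (dpow β f).IsHomogeneous 0 := by
      apply dpow_isHomogeneous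
      rwa [h2, add_zero]
    have h4 : dpow β f = C (coeff 0 (dpow β f)) := by
      rw [← homogeneousComponent_zero]
      exact ((homogeneousComponent_of_mem h3).trans (if_pos rfl)).symm
    rw [smul_eval, h4, eval_C, coeff_zero_dpow]
    ring
  rw [Finset.sum_congr rfl h1]
  apply Finset.sum_subset hS
  intro β _ hβ
  rw [notMem_support_iff.1 hβ]
  ring

/-- (F3b) Positivity: if `∑_ij C_ij ⟨∂_i a, ∂_j a⟩ = 0` with `C = ∑ X_l X_l*` then all
`∑_i (X_l)_ik ∂_i a` vanish. -/
theorem fischer_positivity {m : ℕ} (X : Fin m → Matrix ν ν ℂ) (a : MvPolynomial ν ℂ) {n : ℕ}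
    (ha : a.IsHomogeneous n) (x : ν → ℂ)
    (h : ∑ i, ∑ j, (∑ l, X l * (X l).conjTranspose) i j *
      eval x (Op (inXi (pderiv j (cnj a))) (pderiv i a)) = 0) (l : Fin m) (k : ν) :
    ∑ i, C (X l i k) * pderiv i a = 0 := by
  rcases n with _ | n
  · have h1 : a = C (coeff 0 a) := by
      rw [← homogeneousComponent_zero]
      exact ((homogeneousComponent_of_mem ha).trans (if_pos rfl)).symm
    apply Finset.sum_eq_zero
    intro i _
    rw [h1, pderiv_C, mul_zero]
  have hai : ∀ i, (pderiv i a).IsHomogeneous n := by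
    intro i
    have := ha.pderiv (i := i)
    rwa [Nat.add_sub_cancel] at this
  have hcj : ∀ j, pderiv j (cnj a) = map (starRingEnd ℂ) (pderiv j a) := by
    intro j
    rw [cnj, pderiv_map]
  have haj : ∀ j, (pderiv j (cnj a)).IsHomogeneous n := by
    intro j
    rw [hcj]
    exact (hai j).map _
  let S : Finset (ν →₀ ℕ) := Finset.univ.biUnion fun i => (pderiv i a).support
  have hS : ∀ i, (pderiv i a).support ⊆ S := fun i =>
    Finset.subset_biUnion_of_mem (fun i => (pderiv i a).support) (Finset.mem_univ i)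
  have hS' : ∀ j, (pderiv j (cnj a)).support ⊆ S := by
    intro j
    rw [hcj]
    exact (support_map_subset _ _).trans (hS j)
  have h1 : ∀ i j, eval x (Op (inXi (pderiv j (cnj a))) (pderiv i a)) =
      ∑ β ∈ S, (wt β : ℂ) * (starRingEnd ℂ (coeff β (pderiv j a)) * coeff β (pderiv i a)) := by
    intro i j
    rw [eval_Op_inXi (haj j) (hai i) x S (hS' j)]
    apply Finset.sum_congr rfl
    intro β _
    rw [hcj, coeff_map]
  -- the coefficients of `g_lk`
  let g : Fin m → ν → (ν →₀ ℕ) → ℂ := fun l k β => ∑ i, X l i k * coeff β (pderiv i a)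
  have h2 : ∑ l, ∑ k, ∑ β ∈ S, (wt β : ℂ) * (g l k β * starRingEnd ℂ (g l k β)) = 0 := by
    rw [← h]
    have e1 : ∀ i j, (∑ l, X l * (X l).conjTranspose) i j =
        ∑ l, ∑ k, X l i k * starRingEnd ℂ (X l j k) := by
      intro i j
      rw [Matrix.sum_apply]
      rfl
    simp only [h1, e1, g, map_sum, map_mul, Finset.sum_mul, Finset.mul_sum]
    have e2 : ∀ G : Fin m → ν → (ν →₀ ℕ) → ν → ν → ℂ,
        ∑ l, ∑ k, ∑ β ∈ S, ∑ j, ∑ i, G l k β j i = ∑ i, ∑ j, ∑ β ∈ S, ∑ l, ∑ k, G l k β j i := by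
      intro G
      have e3 : ∀ (T : Finset (ν →₀ ℕ)) (l : Fin m), ∑ k, ∑ β ∈ T, ∑ j, ∑ i, G l k β j i =
          ∑ i, ∑ j, ∑ β ∈ T, ∑ k, G l k β j i := by
        intro T l
        have e4 : ∀ k, ∑ β ∈ T, ∑ j, ∑ i, G l k β j i = ∑ i, ∑ j, ∑ β ∈ T, G l k β j i := by
          intro k
          rw [Finset.sum_congr rfl fun β _ => Finset.sum_comm, Finset.sum_comm]
          apply Finset.sum_congr rfl
          intro i _
          rw [Finset.sum_comm]
        rw [Finset.sum_congr rfl fun k _ => e4 k, Finset.sum_comm]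
        apply Finset.sum_congr rfl
        intro i _
        rw [Finset.sum_comm]
        apply Finset.sum_congr rfl
        intro j _
        rw [Finset.sum_comm]
      rw [Finset.sum_congr rfl fun l _ => e3 S l, Finset.sum_comm]
      apply Finset.sum_congr rfl
      intro i _
      rw [Finset.sum_comm]
      apply Finset.sum_congr rfl
      intro j _
      rw [Finset.sum_comm]
    rw [e2]
    apply Finset.sum_congr rfl
    intro i _
    apply Finset.sum_congr rfl
    intro j _
    apply Finset.sum_congr rfl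
    intro β _
    apply Finset.sum_congr rfl
    intro l _
    apply Finset.sum_congr rfl
    intro k _
    ring
  have h3 : ∑ l, ∑ k, ∑ β ∈ S, (wt β : ℝ) * Complex.normSq (g l k β) = 0 := by
    have h4 : ((∑ l, ∑ k, ∑ β ∈ S, (wt β : ℝ) * Complex.normSq (g l k β) : ℝ) : ℂ) = 0 := by
      rw [← h2]
      push_cast
      apply Finset.sum_congr rfl
      intro l _
      apply Finset.sum_congr rfl
      intro k _
      apply Finset.sum_congr rfl
      intro β _
      rw [Complex.mul_conj]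
    exact_mod_cast h4
  have h5 := (Finset.sum_eq_zero_iff_of_nonneg (fun l _ => Finset.sum_nonneg fun k _ =>
    Finset.sum_nonneg fun β _ => mul_nonneg (Nat.cast_nonneg _) (Complex.normSq_nonneg _))).1 h3 l
    (Finset.mem_univ l)
  have h6 := (Finset.sum_eq_zero_iff_of_nonneg (fun k _ =>
    Finset.sum_nonneg fun β _ => mul_nonneg (Nat.cast_nonneg _) (Complex.normSq_nonneg _))).1 h5 k
    (Finset.mem_univ k)
  have h7 := (Finset.sum_eq_zero_iff_of_nonneg (fun β _ =>
    mul_nonneg (Nat.cast_nonneg _) (Complex.normSq_nonneg _))).1 h6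
  apply MvPolynomial.ext
  intro β
  have h8 : coeff β (∑ i, C (X l i k) * pderiv i a) = g l k β := by
    rw [coeff_sum]
    apply Finset.sum_congr rfl
    intro i _
    rw [coeff_C_mul]
  rw [h8, coeff_zero]
  by_cases hβ : β ∈ S
  · have h9 := h7 β hβ
    rcases mul_eq_zero.1 h9 with h10 | h10
    · exact absurd h10 (by exact_mod_cast (wt_pos β).ne')
    · exact Complex.normSq_eq_zero.1 h10
  · apply Finset.sum_eq_zero
    intro i _
    have h11 : coeff β (pderiv i a) = 0 := by
      by_contra hc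
      exact hβ (hS i (mem_support_iff.2 hc))
    rw [h11, mul_zero]

/-- (F3) all stabilizers over the good locus are trivial -/
theorem stab_eq_bot (K : Subgroup (Matrix.unitaryGroup ν ℂ)) (hmax : MaxK K)
    (hnc : NoConst (InvAlg K)) {d : ℕ} (hd : Algebra.trdeg ℂ (InvAlg K) = d)
    (hS : Surj (InvAlg K)) (x : ν → ℂ) (hx : Gd (InvAlg K) d x) : stab (InvAlg K) x = ⊥ := by
  obtain ⟨s, hs1, hs2, hs3, x₁, hx₁Y, hx₁G, hx₁⟩ := exists_stratum K hmax hd hS
  obtain ⟨Cas, hCas, hCr⟩ := exists_cas_regular (InvAlg K) hs1 hs3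
  have hstab : ∀ (x : ν → ℂ) (c : ℂ), c ≠ 0 → stab (InvAlg K) (c • x) = stab (InvAlg K) x := by
    intro x c hc
    apply le_antisymm
    · intro M hM
      refine ⟨hM.1, ?_⟩
      have h1 := hM.2
      rw [Matrix.mulVec_smul] at h1
      exact (smul_eq_zero.1 h1).resolve_left hc
    · intro M hM
      exact ⟨hM.1, by rw [Matrix.mulVec_smul, hM.2, smul_zero]⟩
  have hYK : ∀ k ∈ K, ∀ x ∈ Yset (InvAlg K) s, (k : Matrix ν ν ℂ).mulVec x ∈ Yset (InvAlg K) s :=
    fun k hk x hx => mulVec_mem_Yset K s k hk x hx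
  have hYs : ∀ x ∈ Yset (InvAlg K) s, ∀ c : ℂ, c ≠ 0 → c • x ∈ Yset (InvAlg K) s := by
    intro x hx c hc
    have h1 : s ≤ Module.finrank ℂ (stab (InvAlg K) (c • x)) := by
      rw [hstab x c hc]
      exact hx
    exact h1
  have hCK : ∀ k ∈ K, ∀ x ∈ Yset (InvAlg K) s, Gd (InvAlg K) d x →
      Cas ((k : Matrix ν ν ℂ).mulVec x) = (k : Matrix ν ν ℂ) * Cas x * star (k : Matrix ν ν ℂ) := by
    intro k hk x hx hxG
    apply IsCas.unique (hCas _ (hYK k hk x hx) (Gd_mulVec K k hk x hxG))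
    apply (hCas x hx hxG).conjugate
    intro M
    have e1 : star (k : Matrix ν ν ℂ) * (k : Matrix ν ν ℂ) = 1 := Matrix.mem_unitaryGroup_iff'.1 k.2
    have e2 : (k : Matrix ν ν ℂ) * star (k : Matrix ν ν ℂ) = 1 := Matrix.mem_unitaryGroup_iff.1 k.2
    constructor
    · intro hM
      have h1 := conj_mem_stab K k⁻¹ (K.inv_mem hk) _ hM
      have h2 : ((k⁻¹ : Matrix.unitaryGroup ν ℂ) : Matrix ν ν ℂ) = star (k : Matrix ν ν ℂ) := rfl
      rw [h2, star_star, Matrix.mulVec_mulVec, e1, Matrix.one_mulVec] at h1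
      exact h1
    · intro hM
      have h1 := conj_mem_stab K k hk _ hM
      have h2 : (k : Matrix ν ν ℂ) * (star (k : Matrix ν ν ℂ) * M * (k : Matrix ν ν ℂ)) *
          star (k : Matrix ν ν ℂ) = M := by
        calc (k : Matrix ν ν ℂ) * (star (k : Matrix ν ν ℂ) * M * (k : Matrix ν ν ℂ)) *
            star (k : Matrix ν ν ℂ) = ((k : Matrix ν ν ℂ) * star (k : Matrix ν ν ℂ)) * M *
              ((k : Matrix ν ν ℂ) * star (k : Matrix ν ν ℂ)) := by simp only [mul_assoc]
          _ = M := by rw [e2, one_mul, mul_one]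
      rwa [h2] at h1
  have hCs : ∀ x ∈ Yset (InvAlg K) s, Gd (InvAlg K) d x → ∀ c : ℂ, c ≠ 0 →
      Gd (InvAlg K) d (c • x) → Cas (c • x) = Cas x := by
    intro x hx hxG c hc hcG
    apply IsCas.unique (hCas _ (hYs x hx c hc) hcG)
    rw [hstab x c hc]
    exact hCas x hx hxG
  have hCd : ∀ x ∈ Yset (InvAlg K) s, Gd (InvAlg K) d x → ∀ a ∈ InvAlg K, ∀ j,
      ∑ i, eval x (pderiv i a) * Cas x i j = 0 := by
    intro x hx hxG a ha j
    obtain ⟨m, X, X', hX, -, -, -, hC⟩ := hCas x hx hxG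
    rw [hC]
    have e1 : ∀ i, (∑ l, X l * X' l) i j = ∑ l, (X l).mulVec (fun p => X' l p j) i := by
      intro i
      rw [Matrix.sum_apply]
      rfl
    simp only [e1, Finset.mul_sum]
    rw [Finset.sum_comm]
    apply Finset.sum_eq_zero
    intro l _
    rw [← stab_pairing x (fun p => X' l p j) (hX l) a ha]
    apply Finset.sum_congr rfl
    intro i _
    ring
  -- the stabilizer of `x₁` is trivial
  have hbot : stab (InvAlg K) x₁ = ⊥ := by
    obtain ⟨m, X, -, hspan, hC⟩ := (hCas x₁ hx₁Y hx₁G).adjoint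
      (fun M hM => conjTranspose_mem_stab x₁ hx₁ hM)
    have h1 : ∀ a ∈ InvAlg K, ∀ n : ℕ, a.IsHomogeneous n → ∀ l k,
        ∑ i, C (X l i k) * pderiv i a = 0 := by
      intro a ha n hn l k
      apply fischer_positivity X a hn x₁
      rw [← hC]
      exact casimir_operator_zero K hd hS _ hYK hYs hs2 Cas hCK hCs hCd hCr n (cnj a)
        (hn.map _) (inXi_cnj_mem K a ha) a ha x₁ hx₁Y hx₁G
    have h2 : ∀ a ∈ InvAlg K, ∀ l k, ∑ i, C (X l i k) * pderiv i a = 0 := by
      intro a ha l k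
      have e1 : ∀ i, pderiv i a = ∑ r ∈ Finset.range (a.totalDegree + 1),
          pderiv i (homogeneousComponent r a) := by
        intro i
        conv_lhs => rw [← sum_homogeneousComponent a, map_sum]
      simp only [e1, Finset.mul_sum]
      rw [Finset.sum_comm]
      apply Finset.sum_eq_zero
      intro r _
      exact h1 _ (isGraded_invAlg K a ha r) r (homogeneousComponent_isHomogeneous r a) l k
    have h3 : ∀ l, X l = 0 := by
      intro l
      ext i k
      have := hnc (fun i => X l i k) (fun a ha => h2 a ha l k)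
      exact congrFun this i
    rw [eq_bot_iff]
    refine hspan.trans ?_
    rw [Submodule.span_le]
    rintro _ ⟨l, rfl⟩
    rw [h3 l]
    exact Submodule.zero_mem _
  have hs0 : s = 0 := by
    have h1 : s ≤ Module.finrank ℂ (stab (InvAlg K) x₁) := hx₁Y
    rw [hbot, finrank_bot] at h1
    omega
  have h1 := hs1 x hx
  rw [hs0, Nat.le_zero, Submodule.finrank_eq_zero] at h1
  exact h1

end H50.Z
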