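import Pool.Agent.H50.Z.F1_Lie
import Pool.Agent.H50.Z.L5_Der
import Pool.Agent.H50.Z.Z1_Good

/-! (F4 A, B) Dimension of orbit closures over algebraically closed fields. -/

open MvPolynomial H50.DO

set_option linter.unusedSectionVars false

namespace H50.Z

variable {ν : Type} [Fintype ν] [DecidableEq ν]

/-- the ideal (over `L`) of the `K`-orbit of `w` -/
noncomputable def orbIdeal (K : Subgroup (Matrix.unitaryGroup ν ℂ)) (L : Type) [Field L] [Algebra ℂ L]
    (w : ν → L) : Ideal (MvPolynomial ν L) where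
  carrier := {F | ∀ k ∈ K, eval ((kL L (k : Matrix ν ν ℂ)).mulVec w) F = 0}
  add_mem' := by
    intro F G hF hG k hk
    rw [map_add, hF k hk, hG k hk, add_zero]
  zero_mem' := by
    intro k _
    rw [map_zero]
  smul_mem' := by
    intro c F hF k hk
    rw [smul_eq_mul, map_mul, hF k hk, mul_zero]

lemma mem_orbIdeal {K : Subgroup (Matrix.unitaryGroup ν ℂ)} {L : Type} [Field L] [Algebra ℂ L]
    {w : ν → L} {F : MvPolynomial ν L} :
    F ∈ orbIdeal K L w ↔ ∀ k ∈ K, eval ((kL L (k : Matrix ν ν ℂ)).mulVec w) F = 0 := Iff.rfl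

/-- evaluation of `act M F` over a commutative ring -/
lemma f5_eval_act {L : Type*} [CommRing L] (M : Matrix ν ν L) (x : ν → L) (f : MvPolynomial ν L) :
    eval x (act M f) = eval (M.mulVec x) f := by
  induction f using MvPolynomial.induction_on with
  | C a => rw [algHom_C, algebraMap_eq, eval_C, eval_C]
  | add p q hp hq => rw [map_add, map_add, map_add, hp, hq]
  | mul_X p i hp =>
    rw [map_mul, map_mul, map_mul, hp, act_X, map_sum, eval_X]
    congr 1
    simp only [map_mul, eval_C, eval_X]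
    rfl

lemma f5_kL_mul (L : Type*) [CommRing L] [Algebra ℂ L] (k l : Matrix ν ν ℂ) :
    kL L (k * l) = kL L k * kL L l := by
  unfold kL
  exact Matrix.map_mul

lemma f5_kL_one (L : Type*) [CommRing L] [Algebra ℂ L] : kL L (1 : Matrix ν ν ℂ) = 1 := by
  unfold kL
  exact Matrix.map_one _ (map_zero _) (map_one _)

/-- the substitution of a group element as a ring homomorphism -/
noncomputable def f5s (L : Type) [Field L] [Algebra ℂ L] (k : Matrix.unitaryGroup ν ℂ) :
    MvPolynomial ν L →+* MvPolynomial ν L :=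
  (act (kL L (k : Matrix ν ν ℂ))).toRingHom

lemma f5s_apply (L : Type) [Field L] [Algebra ℂ L] (k : Matrix.unitaryGroup ν ℂ)
    (F : MvPolynomial ν L) : f5s L k F = act (kL L (k : Matrix ν ν ℂ)) F := rfl

lemma f5s_f5s (L : Type) [Field L] [Algebra ℂ L] (k l : Matrix.unitaryGroup ν ℂ)
    (F : MvPolynomial ν L) : f5s L l (f5s L k F) = f5s L (k * l) F := by
  rw [f5s_apply, f5s_apply, f5s_apply, ← act_mul, ← f5_kL_mul]
  rfl

lemma f5s_one (L : Type) [Field L] [Algebra ℂ L] (F : MvPolynomial ν L) :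
    f5s L (1 : Matrix.unitaryGroup ν ℂ) F = F := by
  rw [f5s_apply]
  have h : ((1 : Matrix.unitaryGroup ν ℂ) : Matrix ν ν ℂ) = 1 := rfl
  rw [h, f5_kL_one, act_one]

/-- `K`-stable -/
theorem act_mem_orbIdeal (K : Subgroup (Matrix.unitaryGroup ν ℂ)) (L : Type) [Field L] [Algebra ℂ L]
    (w : ν → L) (k : Matrix.unitaryGroup ν ℂ) (hk : k ∈ K) (F : MvPolynomial ν L)
    (hF : F ∈ orbIdeal K L w) : act (kL L (k : Matrix ν ν ℂ)) F ∈ orbIdeal K L w := by
  rw [mem_orbIdeal] at hF ⊢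
  intro l hl
  rw [f5_eval_act, Matrix.mulVec_mulVec, ← f5_kL_mul]
  exact hF (k * l) (K.mul_mem hk hl)

lemma eq_zero_of_pow_eq_zero_f5 {L : Type*} [Field L] {a : L} {n : ℕ} (h : a ^ n = 0) : a = 0 := by
  by_contra ha
  exact pow_ne_zero n ha h

/-- radical -/
theorem isRadical_orbIdeal (K : Subgroup (Matrix.unitaryGroup ν ℂ)) (L : Type) [Field L]
    [Algebra ℂ L] (w : ν → L) : (orbIdeal K L w).IsRadical := by
  intro F hF
  obtain ⟨n, hn⟩ := hF
  rw [mem_orbIdeal] at hn ⊢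
  intro k hk
  have := hn k hk
  rw [map_pow] at this
  exact eq_zero_of_pow_eq_zero_f5 this

lemma f5_comap_comap (L : Type) [Field L] [Algebra ℂ L] (k l : Matrix.unitaryGroup ν ℂ)
    (P : Ideal (MvPolynomial ν L)) :
    (P.comap (f5s L k)).comap (f5s L l) = P.comap (f5s L (l * k)) := by
  ext F
  rw [Ideal.mem_comap, Ideal.mem_comap, Ideal.mem_comap, f5s_f5s]

lemma f5_comap_one (L : Type) [Field L] [Algebra ℂ L] (P : Ideal (MvPolynomial ν L)) :
    P.comap (f5s L 1) = P := by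
  ext F
  rw [Ideal.mem_comap, f5s_one]

lemma f5_comap_mem (K : Subgroup (Matrix.unitaryGroup ν ℂ)) (L : Type) [Field L]
    [Algebra ℂ L] (w : ν → L) (k : Matrix.unitaryGroup ν ℂ) (hk : k ∈ K)
    (Q : Ideal (MvPolynomial ν L)) (hQ : Q ∈ (orbIdeal K L w).minimalPrimes) :
    Q.comap (f5s L k) ∈ (orbIdeal K L w).minimalPrimes := by
  have hQp : Q.IsPrime := hQ.1.1
  refine ⟨⟨Ideal.IsPrime.comap _, ?_⟩, ?_⟩
  · intro F hF
    rw [Ideal.mem_comap]
    exact hQ.1.2 (act_mem_orbIdeal K L w k hk F hF)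
  · intro R hR hRQ
    have hRp : R.IsPrime := hR.1
    have h1 : Q ≤ R.comap (f5s L k⁻¹) := by
      apply hQ.2 ⟨Ideal.IsPrime.comap _, ?_⟩
      · intro F hF
        rw [Ideal.mem_comap] at hF
        have h2 := hRQ hF
        rw [Ideal.mem_comap, f5s_f5s, inv_mul_cancel, f5s_one] at h2
        exact h2
      · intro F hF
        rw [Ideal.mem_comap]
        exact hR.2 (act_mem_orbIdeal K L w k⁻¹ (K.inv_mem hk) F hF)
    intro F hF
    rw [Ideal.mem_comap] at hF
    have h2 := h1 hF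
    rw [Ideal.mem_comap, f5s_f5s, mul_inv_cancel, f5s_one] at h2
    exact h2

lemma f5_le_of_le_ker (K : Subgroup (Matrix.unitaryGroup ν ℂ)) (L : Type) [Field L]
    [Algebra ℂ L] (w : ν → L) (J : Ideal (MvPolynomial ν L))
    (hJ : ∀ k ∈ K, ∀ F ∈ J, f5s L k F ∈ J) (h : J ≤ RingHom.ker (eval w)) :
    J ≤ orbIdeal K L w := by
  intro F hF
  rw [mem_orbIdeal]
  intro k hk
  have := h (hJ k hk F hF)
  rw [RingHom.mem_ker, f5s_apply, f5_eval_act] at this
  exact this

lemma f5_exists_le {R : Type*} [CommRing R] (s : Set (Ideal R)) (hs : s.Finite) (P : Ideal R)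
    [hP : P.IsPrime] (h : sInf s ≤ P) : ∃ Q ∈ s, Q ≤ P := by
  classical
  have h1 : hs.toFinset.inf id ≤ P := by
    rw [Finset.inf_id_eq_sInf]
    rwa [Set.Finite.coe_toFinset]
  obtain ⟨Q, hQ, hle⟩ := (Ideal.IsPrime.inf_le' hP).1 h1
  exact ⟨Q, (Set.Finite.mem_toFinset hs).1 hQ, hle⟩

/-- (B) `K` permutes the minimal primes transitively -/
theorem minimalPrimes_transitive (K : Subgroup (Matrix.unitaryGroup ν ℂ)) (L : Type) [Field L]
    [Algebra ℂ L] (w : ν → L) (P P' : Ideal (MvPolynomial ν L))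
    (hP : P ∈ (orbIdeal K L w).minimalPrimes) (hP' : P' ∈ (orbIdeal K L w).minimalPrimes) :
    ∃ k ∈ K, P' = P.comap (act (kL L (k : Matrix ν ν ℂ))).toRingHom := by
  have hPp : P.IsPrime := hP.1.1
  have hP'p : P'.IsPrime := hP'.1.1
  have hfin : (orbIdeal K L w).minimalPrimes.Finite :=
    Ideal.finite_minimalPrimes_of_isNoetherianRing _ _
  set Orb : Set (Ideal (MvPolynomial ν L)) := {Q | ∃ k ∈ K, Q = P.comap (f5s L k)} with hOrb
  have hOrbmin : Orb ⊆ (orbIdeal K L w).minimalPrimes := by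
    rintro Q ⟨k, hk, rfl⟩
    exact f5_comap_mem K L w k hk P hP
  have hinf : sInf Orb ⊓ sInf ((orbIdeal K L w).minimalPrimes \ Orb) = orbIdeal K L w := by
    rw [← sInf_union, Set.union_sdiff_cancel hOrbmin, Ideal.sInf_minimalPrimes,
      (isRadical_orbIdeal K L w).radical]
  have hIm : orbIdeal K L w ≤ RingHom.ker (eval w) := by
    intro F hF
    have := hF 1 K.one_mem
    have h1 : ((1 : Matrix.unitaryGroup ν ℂ) : Matrix ν ν ℂ) = 1 := rfl
    rw [h1, f5_kL_one, Matrix.one_mulVec] at this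
    exact this
  have hmp : (RingHom.ker (eval w)).IsPrime := RingHom.ker_isPrime _
  rcases (Ideal.IsPrime.inf_le hmp).1 (hinf.le.trans hIm) with h | h
  · have hJ : sInf Orb ≤ orbIdeal K L w := by
      apply f5_le_of_le_ker K L w _ _ h
      intro k hk F hF
      rw [Submodule.mem_sInf] at hF ⊢
      rintro Q ⟨l, hl, rfl⟩
      have := hF (P.comap (f5s L (k * l))) ⟨k * l, K.mul_mem hk hl, rfl⟩
      rw [Ideal.mem_comap] at this ⊢
      rwa [f5s_f5s]
    obtain ⟨Q, hQ, hle⟩ := f5_exists_le Orb (hfin.subset hOrbmin) P' (hJ.trans hP'.1.2)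
    have hQP : Q = P' := le_antisymm hle (hP'.2 (hOrbmin hQ).1 hle)
    obtain ⟨k, hk, rfl⟩ := hQ
    exact ⟨k, hk, hQP.symm⟩
  · exfalso
    have hJ : sInf ((orbIdeal K L w).minimalPrimes \ Orb) ≤ orbIdeal K L w := by
      apply f5_le_of_le_ker K L w _ _ h
      intro k hk F hF
      rw [Submodule.mem_sInf] at hF ⊢
      rintro Q ⟨hQ1, hQ2⟩
      have hne : Ideal.comap (f5s L k) Q ∉ Orb := by
        rintro ⟨l, hl, he⟩
        apply hQ2
        refine ⟨k⁻¹ * l, K.mul_mem (K.inv_mem hk) hl, ?_⟩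
        rw [← f5_comap_comap, ← he, f5_comap_comap, inv_mul_cancel, f5_comap_one]
      exact hF (Ideal.comap (f5s L k) Q) ⟨f5_comap_mem K L w k hk Q hQ1, hne⟩
    obtain ⟨Q, hQ, hle⟩ := f5_exists_le _ (hfin.subset Set.sdiff_subset) P (hJ.trans hP.1.2)
    have hQP : Q = P := le_antisymm hle (hP.2 hQ.1.1 hle)
    apply hQ.2
    refine ⟨1, K.one_mem, ?_⟩
    rw [hQP, f5_comap_one]

end H50.Z
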