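import Mathlib

/-! (L1a) Extension of homomorphisms into algebraically closed fields (Atiyah-Macdonald 5.23). -/

namespace H50.Z

open Polynomial

theorem ext_mem {S T : Type} [CommRing S] [CommRing T] [Algebra S T] (x y : T)
    (hy : y ∈ Algebra.adjoin S {x}) : ∃ r : S[X], aeval x r = y := by
  rw [Algebra.adjoin_singleton_eq_range_aeval] at hy
  exact hy

/-- A homomorphism `S[X] → Ω` which kills the relations of `x` over `S` factors through
`S[x]`. -/
theorem ext_aux_lift {S T Ω : Type} [CommRing S] [CommRing T] [Field Ω] [Algebra S T] (x : T)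
    (φ : S →+* Ω) (ξ : Ω) (h : ∀ r : S[X], aeval x r = 0 → r.eval₂ φ ξ = 0) :
    ∃ ψ : Algebra.adjoin S {x} →+* Ω,
      (∀ s, ψ (algebraMap S _ s) = φ s) ∧
      ∀ (r : S[X]) (hr : aeval x r ∈ Algebra.adjoin S {x}), ψ ⟨aeval x r, hr⟩ = r.eval₂ φ ξ := by
  have hmem : ∀ r : S[X], aeval x r ∈ Algebra.adjoin S {x} := by
    intro r
    rw [Algebra.adjoin_singleton_eq_range_aeval]
    exact ⟨r, rfl⟩
  let f : S[X] →+* Algebra.adjoin S {x} :=
    ((aeval (R := S) (⟨x, Algebra.self_mem_adjoin_singleton S x⟩ : Algebra.adjoin S {x}) :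
      S[X] →ₐ[S] Algebra.adjoin S {x}) : S[X] →+* Algebra.adjoin S {x})
  have hfv : ∀ r : S[X], ((f r : Algebra.adjoin S {x}) : T) = aeval x r := by
    intro r
    have := Polynomial.aeval_algHom_apply (Algebra.adjoin S {x}).val
      (⟨x, Algebra.self_mem_adjoin_singleton S x⟩ : Algebra.adjoin S {x}) r
    exact this.symm
  have hfs : Function.Surjective f := by
    intro y
    obtain ⟨r, hr⟩ := ext_mem x y.1 y.2
    exact ⟨r, Subtype.ext ((hfv r).trans hr)⟩
  let g : S[X] →+* Ω := eval₂RingHom φ ξ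
  have hk : RingHom.ker f ≤ RingHom.ker g := by
    intro r hr
    rw [RingHom.mem_ker] at hr ⊢
    apply h
    rw [← hfv, hr]
    rfl
  refine ⟨RingHom.liftOfSurjective f hfs ⟨g, hk⟩, ?_, ?_⟩
  · intro s
    have h1 := RingHom.liftOfRightInverse_comp_apply f (Function.surjInv hfs)
      (Function.rightInverse_surjInv hfs) ⟨g, hk⟩ (C s)
    have h2 : f (C s) = algebraMap S _ s := by
      simp [f]
    rw [← h2]
    refine h1.trans ?_
    simp [g]
  · intro r hr
    have h1 := RingHom.liftOfRightInverse_comp_apply f (Function.surjInv hfs)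
      (Function.rightInverse_surjInv hfs) ⟨g, hk⟩ r
    have h2 : f r = ⟨aeval x r, hr⟩ := Subtype.ext (hfv r)
    rw [← h2]
    exact h1

/-- One generator. -/
theorem ext_one {S T : Type} [CommRing S] [IsDomain S] [CommRing T] [IsDomain T] [Algebra S T]
    (hinj : Function.Injective (algebraMap S T)) (x : T) (v : Algebra.adjoin S {x}) (hv : v ≠ 0) :
    ∃ u : S, u ≠ 0 ∧ ∀ (Ω : Type) [Field Ω] [IsAlgClosed Ω] (φ : S →+* Ω), φ u ≠ 0 →
      ∃ ψ : Algebra.adjoin S {x} →+* Ω, (∀ s, ψ (algebraMap S _ s) = φ s) ∧ ψ v ≠ 0 := by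
  obtain ⟨p, hp⟩ := ext_mem x v.1 v.2
  have hpv : ∀ h : aeval x p ∈ Algebra.adjoin S {x}, (⟨aeval x p, h⟩ : Algebra.adjoin S {x}) = v :=
    fun h => Subtype.ext hp
  have hpm : aeval x p ∈ Algebra.adjoin S {x} := by
    have := v.2
    rwa [← hp] at this
  by_cases hx : IsAlgebraic S x
  · -- algebraic case
    obtain ⟨q0, hq0, hq0x⟩ := hx
    classical
    have hex : ∃ n, ∃ q : S[X], q ≠ 0 ∧ aeval x q = 0 ∧ q.natDegree = n := ⟨_, q0, hq0, hq0x, rfl⟩
    obtain ⟨q, hq, hqx, hqn⟩ := Nat.find_spec hex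
    have hmin : ∀ r : S[X], aeval x r = 0 → r ≠ 0 → q.natDegree ≤ r.natDegree := by
      intro r hr hr0
      rw [hqn]
      exact Nat.find_min' hex ⟨r, hr0, hr, rfl⟩
    have hqdeg : q.natDegree ≠ 0 := by
      intro h0
      rw [Polynomial.eq_C_of_natDegree_eq_zero h0] at hqx hq
      rw [aeval_C] at hqx
      apply hq
      rw [(map_eq_zero_iff _ hinj).mp hqx, C_0]
    have hvalg : IsAlgebraic S v := by
      have h1 : IsAlgebraic S (v : T) := by
        have hxa : IsAlgebraic S x := ⟨q, hq, hqx⟩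
        have hle : Algebra.adjoin S {x} ≤ Subalgebra.algebraicClosure S T :=
          Algebra.adjoin_le (by
            intro y hy
            rw [Set.mem_singleton_iff] at hy
            rw [hy]
            exact hxa)
        exact hle v.2
      obtain ⟨r, hr0, hr⟩ := h1
      refine ⟨r, hr0, ?_⟩
      apply Subtype.ext
      have := Polynomial.aeval_algHom_apply (Algebra.adjoin S {x}).val v r
      exact this.symm.trans hr
    obtain ⟨u', hu', w, hw⟩ := hvalg.exists_nonzero_dvd (mem_nonZeroDivisors_of_ne_zero hv)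
    refine ⟨q.leadingCoeff * u', mul_ne_zero (leadingCoeff_ne_zero.mpr hq) hu', ?_⟩
    intro Ω _ _ φ hφ
    rw [map_mul] at hφ
    have ha : φ q.leadingCoeff ≠ 0 := left_ne_zero_of_mul hφ
    have hu : φ u' ≠ 0 := right_ne_zero_of_mul hφ
    have hdeg : (q.map φ).natDegree = q.natDegree := natDegree_map_of_leadingCoeff_ne_zero φ ha
    obtain ⟨ξ, hξ⟩ := IsAlgClosed.exists_root (q.map φ) (by
      intro h0
      have h1 : (q.map φ).natDegree = 0 := natDegree_eq_of_degree_eq_some h0
      rw [hdeg] at h1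
      exact hqdeg h1)
    have hξ' : q.eval₂ φ ξ = 0 := by
      rw [← eval_map]
      exact hξ
    have key : ∀ (n : ℕ) (r : S[X]), r.natDegree ≤ n → aeval x r = 0 → r.eval₂ φ ξ = 0 := by
      intro n
      induction n using Nat.strong_induction_on with
      | _ n ih =>
        intro r hrn hrx
        by_cases hr0 : r = 0
        · simp [hr0]
        have hle := hmin r hrx hr0
        have hq1 : 0 < q.natDegree := Nat.pos_of_ne_zero hqdeg
        set k := r.natDegree - q.natDegree with hk
        set r' : S[X] := C q.leadingCoeff * r - C r.leadingCoeff * X ^ k * q with hr'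
        have hr'x : aeval x r' = 0 := by
          simp [hr', hrx, hqx]
        have hlt : r'.natDegree < r.natDegree := by
          have hd : r.natDegree = k + q.natDegree := by omega
          have hle1 : (C q.leadingCoeff * r).natDegree ≤ r.natDegree := natDegree_C_mul_le _ _
          have hle2 : (C r.leadingCoeff * X ^ k * q).natDegree ≤ r.natDegree := by
            refine natDegree_mul_le.trans ?_
            have : (C r.leadingCoeff * X ^ k : S[X]).natDegree ≤ k := natDegree_C_mul_X_pow_le _ _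
            omega
          have hle3 : r'.natDegree ≤ r.natDegree := by
            refine (natDegree_sub_le _ _).trans ?_
            exact max_le hle1 hle2
          refine lt_of_le_of_ne hle3 ?_
          intro heq
          have hc : r'.coeff r.natDegree = 0 := by
            rw [hr', coeff_sub, coeff_C_mul]
            have : (C r.leadingCoeff * X ^ k * q).coeff r.natDegree
                = r.leadingCoeff * q.leadingCoeff := by
              rw [mul_assoc, coeff_C_mul, hd, Nat.add_comm k, coeff_X_pow_mul]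
              rfl
            rw [this, coeff_natDegree, mul_comm, sub_self]
          have hr'0 : r' = 0 := by
            rw [← heq] at hc
            exact leadingCoeff_eq_zero.mp hc
          rw [hr'0, natDegree_zero] at heq
          omega
        have hr'e : r'.eval₂ φ ξ = 0 := ih _ (lt_of_lt_of_le hlt hrn) r' le_rfl hr'x
        have hexp : r'.eval₂ φ ξ = φ q.leadingCoeff * r.eval₂ φ ξ := by
          rw [hr', eval₂_sub, eval₂_mul, eval₂_mul, hξ', mul_zero, sub_zero, eval₂_C]
        rw [hexp] at hr'e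
        exact (mul_eq_zero.mp hr'e).resolve_left ha
    obtain ⟨ψ, hψ1, hψ2⟩ := ext_aux_lift x φ ξ (fun r hr => key _ r le_rfl hr)
    refine ⟨ψ, hψ1, ?_⟩
    intro h0
    apply hu
    rw [← hψ1, hw, map_mul, h0, zero_mul]
  · -- transcendental case
    have hinj2 : ∀ r : S[X], aeval x r = 0 → r = 0 := by
      intro r hr
      by_contra h0
      exact hx ⟨r, h0, hr⟩
    have hp0 : p ≠ 0 := by
      rintro rfl
      apply hv
      apply Subtype.ext
      rw [← hp]
      simp
    refine ⟨p.leadingCoeff, leadingCoeff_ne_zero.mpr hp0, ?_⟩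
    intro Ω _ _ φ hφ
    have hmap : p.map φ ≠ 0 := by
      intro h0
      apply hφ
      have := congrArg (fun r => coeff r p.natDegree) h0
      simpa [coeff_map] using this
    have : Infinite Ω := IsAlgClosed.instInfinite
    obtain ⟨ξ, hξ⟩ : ∃ ξ : Ω, (p.map φ).eval ξ ≠ 0 := by
      by_contra hcon
      push Not at hcon
      exact hmap (Polynomial.funext (fun r => by rw [hcon r]; simp))
    obtain ⟨ψ, hψ1, hψ2⟩ := ext_aux_lift x φ ξ (fun r hr => by rw [hinj2 r hr]; simp)
    refine ⟨ψ, hψ1, ?_⟩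
    rw [← hpv hpm, hψ2, ← eval_map]
    exact hξ

/-- The extension property of a subalgebra. -/
def ExtProp {R T : Type} [CommRing R] [CommRing T] [Algebra R T] (A : Subalgebra R T) : Prop :=
  ∀ v : A, v ≠ 0 → ∃ u : R, u ≠ 0 ∧ ∀ (Ω : Type) [Field Ω] [IsAlgClosed Ω] (φ : R →+* Ω), φ u ≠ 0 →
      ∃ ψ : A →+* Ω, (∀ s, ψ (algebraMap R _ s) = φ s) ∧ ψ v ≠ 0

theorem extProp_bot {R T : Type} [CommRing R] [CommRing T] [Algebra R T]
    (hinj : Function.Injective (algebraMap R T)) : ExtProp (⊥ : Subalgebra R T) := by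
  intro v hv
  obtain ⟨u, hu⟩ := Algebra.mem_bot.mp v.2
  have hbi : Function.Injective (algebraMap R (⊥ : Subalgebra R T)) := by
    intro a b hab
    exact hinj (congrArg Subtype.val hab)
  have huv : algebraMap R (⊥ : Subalgebra R T) u = v := Subtype.ext hu
  refine ⟨u, ?_, ?_⟩
  · rintro rfl
    apply hv
    rw [← huv, map_zero]
  · intro Ω _ _ φ hφ
    let e := Algebra.botEquivOfInjective hinj
    refine ⟨φ.comp (e : (⊥ : Subalgebra R T) →+* R), ?_, ?_⟩
    · intro s
      simp
    · rw [← huv]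
      simpa using hφ

theorem extProp_insert_aux {R T : Type} [CommRing R] [IsDomain R] [CommRing T] [IsDomain T]
    [Algebra R T] (A : Subalgebra R T) (x : T) (hA : ExtProp A) :
    ExtProp ((Algebra.adjoin A ({x} : Set T)).restrictScalars R) := by
  intro v hv
  obtain ⟨w, hw, hw2⟩ := ext_one (S := A) (T := T) Subtype.val_injective x v hv
  obtain ⟨u, hu, hu2⟩ := hA w hw
  refine ⟨u, hu, ?_⟩
  intro Ω _ _ φ hφ
  obtain ⟨ψ, hψ1, hψ2⟩ := hu2 Ω φ hφ
  obtain ⟨χ, hχ1, hχ2⟩ := hw2 Ω ψ hψ2
  exact ⟨χ, fun s => (hχ1 (algebraMap R A s)).trans (hψ1 s), hχ2⟩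

theorem extProp_insert {R T : Type} [CommRing R] [IsDomain R] [CommRing T] [IsDomain T]
    [Algebra R T] (A : Subalgebra R T) (x : T) (hA : ExtProp A) :
    ExtProp (Algebra.adjoin R (insert x (A : Set T))) := by
  have h1 := Algebra.restrictScalars_adjoin R A ({x} : Set T)
  rw [Set.union_singleton] at h1
  rw [← h1]
  exact extProp_insert_aux A x hA

/-- A finite set of generators. -/
theorem ext_adjoin {R T : Type} [CommRing R] [IsDomain R] [CommRing T] [IsDomain T]
    [Algebra R T] (hinj : Function.Injective (algebraMap R T)) (F : Finset T) :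
    ExtProp (Algebra.adjoin R (F : Set T)) := by
  classical
  induction F using Finset.induction_on with
  | empty =>
    rw [Finset.coe_empty, Algebra.adjoin_empty]
    exact extProp_bot hinj
  | insert x F hx ih =>
    rw [Finset.coe_insert, ← Algebra.adjoin_insert_adjoin]
    exact extProp_insert _ x ih

/-- `R ⊆ T` domains, `T` of finite type over `R`: there is `h ≠ 0` in `R` such that every
homomorphism from `R` to an algebraically closed field which does not kill `h` extends to `T`. -/
theorem exists_extend_hom (R T : Type) [CommRing R] [IsDomain R] [CommRing T] [IsDomain T]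
    [Algebra R T] [Algebra.FiniteType R T] (hinj : Function.Injective (algebraMap R T)) :
    ∃ h : R, h ≠ 0 ∧ ∀ (Ω : Type) [Field Ω] [IsAlgClosed Ω] (φ : R →+* Ω), φ h ≠ 0 →
      ∃ ψ : T →+* Ω, ψ.comp (algebraMap R T) = φ := by
  obtain ⟨F, hF⟩ := (Algebra.FiniteType.out : (⊤ : Subalgebra R T).FG)
  obtain ⟨u, hu, hu2⟩ := ext_adjoin hinj F 1 one_ne_zero
  refine ⟨u, hu, ?_⟩
  intro Ω _ _ φ hφ
  obtain ⟨ψ, hψ, -⟩ := hu2 Ω φ hφ
  have hm : ∀ t : T, t ∈ Algebra.adjoin R (F : Set T) := by
    intro t
    rw [hF]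
    trivial
  refine ⟨ψ.comp (RingHom.codRestrict (RingHom.id T) (Algebra.adjoin R (F : Set T)).toSubring hm), ?_⟩
  ext s
  exact hψ s

end H50.Z
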