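import Pool.Agent.H50.Z.F5_Orbit
import Pool.Agent.H50.Z.F2_Strat
import Pool.Agent.H50.Z.L1a_Ext

/-! (F4 A) Dimension of orbit closures: both bounds. -/

open MvPolynomial H50.DO

set_option linter.unusedSectionVars false

namespace H50.Z

variable {ν : Type} [Fintype ν] [DecidableEq ν]

/-! ### auxiliary facts on `act` -/

lemma f6_act_map {R S : Type*} [CommRing R] [CommRing S] (φ : R →+* S) (M : Matrix ν ν R)
    (f : MvPolynomial ν R) : act (M.map φ) (map φ f) = map φ (act M f) := by
  induction f using MvPolynomial.induction_on with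
  | C a => simp [act]
  | add p q hp hq => rw [map_add, map_add, hp, hq, map_add, map_add]
  | mul_X p i hp =>
    rw [map_mul, map_mul, hp, map_X, act_X, map_mul, map_mul, act_X, map_sum]
    simp

lemma f6_eval_act {R : Type*} [CommRing R] (M : Matrix ν ν R) (f : MvPolynomial ν R) (x : ν → R) :
    eval x (act M f) = eval (M.mulVec x) f := by
  have h : (aeval x : MvPolynomial ν R →ₐ[R] R).comp (act M) = aeval (M.mulVec x) := by
    apply MvPolynomial.algHom_ext
    intro i
    rw [AlgHom.comp_apply, act_X, map_sum, aeval_X]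
    simp only [map_mul, aeval_X, aeval_C, Algebra.algebraMap_self, RingHom.id_apply,
      Matrix.mulVec, dotProduct]
  have h1 := DFunLike.congr_fun h f
  rw [AlgHom.comp_apply] at h1
  rw [← coe_aeval_eq_eval, ← coe_aeval_eq_eval]
  exact h1

/-- chain rule -/
lemma f6_chain {E : Type*} [CommRing E] [Algebra ℂ E] (D : Derivation ℂ E E) (y : ν → E)
    (a : MvPolynomial ν ℂ) : D (aeval y a) = ∑ i, aeval y (pderiv i a) * D (y i) := by
  induction a using MvPolynomial.induction_on with
  | C c => simp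
  | add p q hp hq =>
    rw [map_add, map_add, hp, hq, ← Finset.sum_add_distrib]
    refine Finset.sum_congr rfl fun i _ => ?_
    rw [map_add, map_add, add_mul]
  | mul_X p j hp =>
    rw [map_mul, aeval_X, Derivation.leibniz, hp, smul_eq_mul, smul_eq_mul]
    have h1 : ∀ i ∈ (Finset.univ : Finset ν), aeval y (pderiv i (p * X j)) * D (y i) =
        (if i = j then aeval y p * D (y i) else 0) + y j * (aeval y (pderiv i p) * D (y i)) := by
      intro i _
      rw [Derivation.leibniz, map_add, smul_eq_mul, smul_eq_mul, map_mul, map_mul, aeval_X,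
        pderiv_X]
      rcases eq_or_ne i j with h | h
      · subst h; simp; ring
      · rw [if_neg h, Pi.single_eq_of_ne h.symm]; simp; ring
    rw [Finset.sum_congr rfl h1, Finset.sum_add_distrib, ← Finset.mul_sum]
    simp

/-- the polynomial `∑ M_ij x_j ∂_i a` over `E` -/
noncomputable def f6lv {E : Type*} [CommRing E] [Algebra ℂ E] (M : Matrix ν ν E)
    (a : MvPolynomial ν ℂ) : MvPolynomial ν E :=
  ∑ i, (∑ j, C (M i j) * X j) * map (algebraMap ℂ E) (pderiv i a)

lemma f6_lv_eq (M : Matrix ν ν ℂ) (a : MvPolynomial ν ℂ) :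
    lv M a = ∑ i, (∑ j, C (M i j) * X j) * pderiv i a := by
  induction a using MvPolynomial.induction_on with
  | C c => simp [lv]
  | add p q hp hq =>
    rw [map_add, hp, hq, ← Finset.sum_add_distrib]
    refine Finset.sum_congr rfl fun i _ => ?_
    rw [map_add, mul_add]
  | mul_X p k hp =>
    rw [Derivation.leibniz, hp, lv, mkDerivation_X, smul_eq_mul, smul_eq_mul]
    have h1 : ∀ i ∈ (Finset.univ : Finset ν), (∑ j, C (M i j) * X j) * pderiv i (p * X k) =
        (if i = k then (∑ j, C (M i j) * X j) * p else 0) +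
          X k * ((∑ j, C (M i j) * X j) * pderiv i p) := by
      intro i _
      rw [Derivation.leibniz, smul_eq_mul, smul_eq_mul, pderiv_X]
      rcases eq_or_ne i k with h | h
      · subst h; simp; ring
      · rw [if_neg h, Pi.single_eq_of_ne h.symm]; ring
    rw [Finset.sum_congr rfl h1, Finset.sum_add_distrib, ← Finset.mul_sum]
    simp [mul_comm]

lemma f6_kill {E : Type*} [Field E] [Algebra ℂ E] (g g' : Matrix ν ν E) (hg : g * g' = 1)
    (a : MvPolynomial ν ℂ) (ha : act g (map (algebraMap ℂ E) a) = map (algebraMap ℂ E) a)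
    (D : Derivation ℂ E E) : f6lv (g.map D * g') a = 0 := by
  have hR : ∑ i, (∑ j, C (D (g i j)) * X j) * act g (map (algebraMap ℂ E) (pderiv i a)) = 0 := by
    refine MvPolynomial.funext_set (fun _ => Set.range (algebraMap ℂ E))
      (fun _ => Set.infinite_range_of_injective (algebraMap ℂ E).injective) fun x hx => ?_
    have hx' : ∀ i, ∃ c : ℂ, algebraMap ℂ E c = x i := fun i => hx i (Set.mem_univ i)
    choose v hv using hx'
    rw [map_zero, map_sum]
    have h1 : D (aeval (g.mulVec x) a) = 0 := by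
      have h2 : aeval (g.mulVec x) a = algebraMap ℂ E (eval v a) := by
        have h3 := congrArg (eval x) ha
        rw [f6_eval_act, eval_map, eval_map] at h3
        rw [aeval_def, h3, ← aeval_def]
        have h4 : x = algebraMap ℂ E ∘ v := funext fun i => (hv i).symm
        rw [h4, aeval_algebraMap_apply]
        rfl
      rw [h2, Derivation.map_algebraMap]
    rw [f6_chain] at h1
    rw [← h1]
    refine Finset.sum_congr rfl fun i _ => ?_
    rw [map_mul, f6_eval_act, eval_map, ← aeval_def, map_sum, mul_comm]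
    congr 1
    rw [Matrix.mulVec, dotProduct, map_sum]
    refine Finset.sum_congr rfl fun j _ => ?_
    rw [Derivation.leibniz, ← hv j, Derivation.map_algebraMap]
    simp [hv j, mul_comm]
  have h2 := congrArg (act g') hR
  rw [map_zero, map_sum] at h2
  rw [← h2]
  unfold f6lv
  refine Finset.sum_congr rfl fun i _ => ?_
  rw [map_mul, ← act_mul, hg, act_one, map_sum]
  congr 1
  have h3 : ∀ j ∈ (Finset.univ : Finset ν), act g' (C (D (g i j)) * X j) =
      ∑ l, C (D (g i j) * g' j l) * X l := by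
    intro j _
    rw [map_mul, act_X, Finset.mul_sum]
    have h4 : act g' (C (D (g i j))) = C (D (g i j)) := (act g').commutes _
    rw [h4]
    refine Finset.sum_congr rfl fun l _ => ?_
    rw [C_mul, mul_assoc]
  rw [Finset.sum_congr rfl h3, Finset.sum_comm]
  refine Finset.sum_congr rfl fun l _ => ?_
  rw [Matrix.mul_apply, map_sum, Finset.sum_mul]
  rfl

lemma f6_mul_expand {E : Type*} [CommRing E] [Algebra ℂ E] (M : Matrix ν ν E) (i : ν)
    (q : MvPolynomial ν ℂ) : (∑ j, C (M i j) * X j) * map (algebraMap ℂ E) q =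
      ∑ j, C (M i j) * map (algebraMap ℂ E) (X j * q) := by
  rw [Finset.sum_mul]
  refine Finset.sum_congr rfl fun j _ => ?_
  rw [map_mul, map_X, mul_assoc]

lemma f6_functional {E : Type*} [CommRing E] [Algebra ℂ E] (M : Matrix ν ν E)
    (a : MvPolynomial ν ℂ) (h : f6lv M a = 0) (φ : E →ₗ[ℂ] ℂ) : lv (M.map φ) a = 0 := by
  rw [f6_lv_eq]
  ext m
  have h1 := congrArg (coeff m) h
  unfold f6lv at h1
  rw [coeff_zero, coeff_sum] at h1 ⊢
  have h2 := congrArg φ h1
  rw [map_zero, map_sum] at h2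
  rw [← h2]
  refine Finset.sum_congr rfl fun i _ => ?_
  rw [f6_mul_expand, coeff_sum, map_sum, Finset.sum_mul, coeff_sum]
  refine Finset.sum_congr rfl fun j _ => ?_
  rw [coeff_C_mul, coeff_map, mul_assoc, coeff_C_mul, mul_comm (M i j), ← Algebra.smul_def, map_smul,
    smul_eq_mul, mul_comm]
  rfl

lemma f6_lv_conj (M : Matrix ν ν ℂ) (a : MvPolynomial ν ℂ) :
    lv (M.map (starRingEnd ℂ)) a =
      map (starRingEnd ℂ) (lv M (map (starRingEnd ℂ) a)) := by
  have hcc : ∀ q : MvPolynomial ν ℂ, map (starRingEnd ℂ) (map (starRingEnd ℂ) q) = q := by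
    intro q
    rw [map_map]
    have : (starRingEnd ℂ).comp (starRingEnd ℂ) = RingHom.id ℂ := by
      ext x; simp
    rw [this, map_id]
  rw [f6_lv_eq, f6_lv_eq, map_sum]
  refine Finset.sum_congr rfl fun i _ => ?_
  rw [map_mul, pderiv_map, hcc, map_sum]
  simp

lemma f6lv_neg {E : Type*} [CommRing E] [Algebra ℂ E] (M : Matrix ν ν E)
    (a : MvPolynomial ν ℂ) : f6lv (-M) a = -f6lv M a := by
  unfold f6lv
  rw [← Finset.sum_neg_distrib]
  refine Finset.sum_congr rfl fun i _ => ?_
  rw [← neg_mul, ← Finset.sum_neg_distrib]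
  congr 1
  refine Finset.sum_congr rfl fun j _ => ?_
  rw [Matrix.neg_apply, C_neg, neg_mul]

lemma f6_mem_gg (K : Subgroup (Matrix.unitaryGroup ν ℂ)) {E : Type*} [Field E] [Algebra ℂ E]
    (g h : Matrix ν ν E) (hgh : g * h.transpose = 1)
    (hA : ∀ a ∈ InvAlg K, act g (map (algebraMap ℂ E) a) = map (algebraMap ℂ E) a)
    (hB : ∀ a ∈ InvAlg K, act h (map (algebraMap ℂ E) (map (starRingEnd ℂ) a)) =
      map (algebraMap ℂ E) (map (starRingEnd ℂ) a))
    (D : Derivation ℂ E E) (φ : E →ₗ[ℂ] ℂ) :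
    (g.map D * h.transpose).map φ ∈ gg (InvAlg K) := by
  refine ⟨fun a ha => f6_functional _ a (f6_kill g h.transpose hgh a (hA a ha) D) φ,
    fun a ha => ?_⟩
  have hhg : h * g.transpose = 1 := by
    have := congrArg Matrix.transpose hgh
    rw [Matrix.transpose_mul, Matrix.transpose_transpose, Matrix.transpose_one] at this
    exact this
  have h1 := f6_kill h g.transpose hhg (map (starRingEnd ℂ) a) (hB a ha) D
  have h2 : (g.map D * h.transpose).transpose = -(h.map D * g.transpose) := by
    ext l i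
    have h3 := congrArg (fun M : Matrix ν ν E => D (M i l)) hgh
    simp only [Matrix.mul_apply, Matrix.transpose_apply, map_sum, Derivation.leibniz,
      smul_eq_mul, Finset.sum_add_distrib] at h3
    have h4 : D ((1 : Matrix ν ν E) i l) = 0 := by
      rw [Matrix.one_apply]
      split_ifs
      · exact D.map_one_eq_zero
      · exact map_zero D
    rw [h4] at h3
    rw [Matrix.transpose_apply, Matrix.mul_apply, Matrix.neg_apply, Matrix.mul_apply]
    simp only [Matrix.transpose_apply, Matrix.map_apply]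
    rw [eq_neg_iff_add_eq_zero, ← h3, add_comm]
    congr 1
    · exact Finset.sum_congr rfl fun j _ => mul_comm _ _
    · exact Finset.sum_congr rfl fun j _ => mul_comm _ _
  have h5 : f6lv (g.map D * h.transpose).transpose (map (starRingEnd ℂ) a) = 0 := by
    rw [h2]
    rw [f6lv_neg, h1, neg_zero]
  have h7 := f6_functional _ _ h5 φ
  have h8 : ((g.map D * h.transpose).map φ).conjTranspose =
      (((g.map D * h.transpose).transpose).map φ).map (starRingEnd ℂ) := by
    ext i j
    rfl
  rw [h8, f6_lv_conj, h7, map_zero]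

/-- `E`-matrices all of whose `ℂ`-functionals lie in `gg` are in the span of `gg` -/
lemma f6_mem_span {E : Type*} [Field E] [Algebra ℂ E] (G : Submodule ℂ (Matrix ν ν ℂ))
    (M : Matrix ν ν E) (hM : ∀ φ : E →ₗ[ℂ] ℂ, M.map φ ∈ G) (y : ν → E) :
    M.mulVec y ∈ Submodule.span E (Set.range fun N : G =>
      ((N : Matrix ν ν ℂ).map (algebraMap ℂ E)).mulVec y) := by
  classical
  let b := Module.Basis.ofVectorSpace ℂ E
  set s : Finset _ := Finset.univ.biUnion fun p : ν × ν => (b.repr (M p.1 p.2)).support with hs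
  have hdec : M = ∑ β ∈ s, b β • ((M.map (b.coord β)).map (algebraMap ℂ E)) := by
    ext i j
    rw [Matrix.sum_apply]
    have h1 := b.linearCombination_repr (M i j)
    rw [Finsupp.linearCombination_apply, Finsupp.sum_of_support_subset (s := s)] at h1
    · rw [← h1]
      refine Finset.sum_congr rfl fun β _ => ?_
      rw [Matrix.smul_apply, Matrix.map_apply, Matrix.map_apply, Algebra.smul_def, smul_eq_mul,
        mul_comm]
      rfl
    · intro β hβ
      rw [hs, Finset.mem_biUnion]
      exact ⟨(i, j), Finset.mem_univ _, hβ⟩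
    · intro β _
      exact zero_smul _ _
  have h2 : M.mulVec y = ∑ β ∈ s, b β • (((M.map (b.coord β)).map (algebraMap ℂ E)).mulVec y) := by
    conv_lhs => rw [hdec]
    rw [Matrix.sum_mulVec]
    refine Finset.sum_congr rfl fun β _ => ?_
    rw [Matrix.smul_mulVec]
  rw [h2]
  refine Submodule.sum_mem _ fun β _ => Submodule.smul_mem _ _ (Submodule.subset_span ?_)
  exact ⟨⟨M.map (b.coord β), hM (b.coord β)⟩, rfl⟩

lemma f6_finrank_span {E : Type*} [Field E] [Algebra ℂ E] (G : Submodule ℂ (Matrix ν ν ℂ))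
    (y : ν → E) : Module.finrank E (Submodule.span E (Set.range fun N : G =>
      ((N : Matrix ν ν ℂ).map (algebraMap ℂ E)).mulVec y)) ≤ Module.finrank ℂ G := by
  let b := Module.finBasis ℂ G
  have hle : Submodule.span E (Set.range fun N : G =>
      ((N : Matrix ν ν ℂ).map (algebraMap ℂ E)).mulVec y) ≤
      Submodule.span E (Set.range fun j => (((b j : G) : Matrix ν ν ℂ).map
        (algebraMap ℂ E)).mulVec y) := by
    rw [Submodule.span_le]
    rintro _ ⟨N, rfl⟩
    have h1 := b.sum_repr N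
    have h2 : ((N : Matrix ν ν ℂ).map (algebraMap ℂ E)).mulVec y = ∑ j,
        algebraMap ℂ E (b.repr N j) •
          (((b j : G) : Matrix ν ν ℂ).map (algebraMap ℂ E)).mulVec y := by
      have h3 : (N : Matrix ν ν ℂ) = ∑ j, (b.repr N j) • ((b j : G) : Matrix ν ν ℂ) := by
        have h5 := congrArg (fun N : G => (N : Matrix ν ν ℂ)) h1
        simp only [Submodule.coe_sum, Submodule.coe_smul] at h5
        exact h5.symm
      have h4 : (N : Matrix ν ν ℂ).map (algebraMap ℂ E) = ∑ j,
          algebraMap ℂ E (b.repr N j) • ((b j : G) : Matrix ν ν ℂ).map (algebraMap ℂ E) := by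
        ext i l
        rw [Matrix.map_apply, Matrix.sum_apply]
        conv_lhs => rw [h3]
        rw [Matrix.sum_apply, map_sum]
        refine Finset.sum_congr rfl fun j _ => ?_
        simp
      rw [h4, Matrix.sum_mulVec]
      refine Finset.sum_congr rfl fun j _ => ?_
      rw [Matrix.smul_mulVec]
    simp only [SetLike.mem_coe]
    rw [h2]
    exact Submodule.sum_mem _ fun j _ => Submodule.smul_mem _ _
      (Submodule.subset_span ⟨j, rfl⟩)
  refine (Submodule.finrank_mono hle).trans ?_
  refine (finrank_range_le_card _).trans ?_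
  simp

/-! ### the upper bound -/

/-- a matrix valued function on `K` that satisfies an invariance pointwise -/
lemma f6_act_pi {ι : Type} (L : Type) [Field L] [Algebra ℂ L] (M : ι → Matrix ν ν ℂ)
    (a : MvPolynomial ν ℂ) (ha : ∀ k, act (M k) a = a) :
    act (Matrix.of fun i j (k : ι) => algebraMap ℂ L (M k i j)) (map (algebraMap ℂ (ι → L)) a) =
      map (algebraMap ℂ (ι → L)) a := by
  set G : Matrix ν ν (ι → L) := Matrix.of fun i j (k : ι) => algebraMap ℂ L (M k i j) with hG
  ext m k
  have h1 : ∀ p : MvPolynomial ν (ι → L), coeff m p k = coeff m (map (Pi.evalRingHom (fun _ => L) k) p) := by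
    intro p
    rw [coeff_map]
    rfl
  rw [h1, h1, ← f6_act_map, map_map]
  have h2 : G.map (Pi.evalRingHom (fun _ => L) k) = (M k).map (algebraMap ℂ L) := by
    ext i j
    rfl
  have h3 : (Pi.evalRingHom (fun _ => L) k).comp (algebraMap ℂ (ι → L)) = algebraMap ℂ L := by
    ext c
    rfl
  rw [h2, h3, f6_act_map, ha]

/-- Upper bound. `L[x]/I_w` embeds into the algebra of functions on `K` generated by the matrix
entries; for a derivation `D` of the fraction field of a component the matrix `D(g) g⁻¹` lies in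
`gg`. -/
theorem trdeg_orbit_le (K : Subgroup (Matrix.unitaryGroup ν ℂ)) (L : Type) [Field L] [Algebra ℂ L]
    [IsAlgClosed L] [CharZero L] (w : ν → L) (P : Ideal (MvPolynomial ν L))
    (hP : P ∈ (orbIdeal K L w).minimalPrimes) :
    Algebra.trdeg L (MvPolynomial ν L ⧸ P) ≤ Module.finrank ℂ (gg (InvAlg K)) := by
  classical
  -- functions on `K`
  set G : Matrix ν ν (K → L) := Matrix.of fun i j (k : K) =>
    algebraMap ℂ L (((k : Matrix.unitaryGroup ν ℂ) : Matrix ν ν ℂ) i j) with hG
  set H : Matrix ν ν (K → L) := Matrix.of fun i j (k : K) =>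
    algebraMap ℂ L ((((k : Matrix.unitaryGroup ν ℂ) : Matrix ν ν ℂ).map (starRingEnd ℂ)) i j) with hH
  set Y : ν → (K → L) := fun i => ∑ j, G i j * (fun _ => w j) with hY
  set Θ : MvPolynomial ν L →ₐ[L] (K → L) := aeval Y with hΘ
  have hΘk : ∀ F (k : K), Θ F k = eval ((kL L ((k : Matrix.unitaryGroup ν ℂ) : Matrix ν ν ℂ)).mulVec w) F := by
    intro F k
    have h1 : ((Pi.evalAlgHom L (fun _ : K => L) k).comp Θ) =
        aeval ((kL L ((k : Matrix.unitaryGroup ν ℂ) : Matrix ν ν ℂ)).mulVec w) := by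
      apply MvPolynomial.algHom_ext
      intro i
      rw [AlgHom.comp_apply, hΘ, aeval_X, aeval_X]
      simp [hY, hG, kL, Matrix.mulVec, dotProduct]
    have h2 := DFunLike.congr_fun h1 F
    rw [← coe_aeval_eq_eval]
    exact h2
  have hcomap : (⊥ : Ideal (K → L)).comap (Θ : MvPolynomial ν L →+* (K → L)) =
      orbIdeal K L w := by
    ext F
    rw [Ideal.mem_comap, Ideal.mem_bot, mem_orbIdeal]
    constructor
    · intro h k hk
      have := congrFun h ⟨k, hk⟩
      rw [← hΘk F ⟨k, hk⟩]
      exact this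
    · intro h
      ext k
      have := h k k.2
      exact (hΘk F k).trans this
  obtain ⟨Q, hQ, -, hQP⟩ := Ideal.exists_comap_eq_of_mem_minimalPrimes
    (Θ : MvPolynomial ν L →+* (K → L)) (I := ⊥) P (by rw [hcomap]; exact hP)
  let E := FractionRing ((K → L) ⧸ Q)
  let π : (K → L) →ₐ[L] E :=
    (IsScalarTower.toAlgHom L ((K → L) ⧸ Q) E).comp (Ideal.Quotient.mkₐ L Q)
  have hπ : ∀ f, π f = 0 ↔ f ∈ Q := by
    intro f
    show algebraMap ((K → L) ⧸ Q) E (Ideal.Quotient.mk Q f) = 0 ↔ _
    rw [map_eq_zero_iff _ (IsFractionRing.injective ((K → L) ⧸ Q) E), Ideal.Quotient.eq_zero_iff_mem]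
  have htow : IsScalarTower ℂ L E := inferInstance
  have hπc : (π : (K → L) →+* E).comp (algebraMap ℂ (K → L)) = algebraMap ℂ E := by
    ext c
    rw [RingHom.comp_apply]
    have h1 : algebraMap ℂ (K → L) c = algebraMap L (K → L) (algebraMap ℂ L c) := rfl
    rw [h1]
    have h2 := π.commutes (algebraMap ℂ L c)
    rw [IsScalarTower.algebraMap_apply ℂ L E]
    exact h2
  set g : Matrix ν ν E := G.map π with hg
  set h : Matrix ν ν E := H.map π with hh
  set wE : ν → E := fun j => algebraMap L E (w j) with hwE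
  set y : ν → E := fun i => π (Y i) with hy
  have hGH : G * H.transpose = 1 := by
    ext i l k
    have h1 := congrFun (congrFun (Matrix.mem_unitaryGroup_iff.1 (k : Matrix.unitaryGroup ν ℂ).2) i) l
    have h2 := congrArg (algebraMap ℂ L) h1
    rw [Matrix.mul_apply, Finset.sum_apply]
    rw [Matrix.mul_apply, map_sum] at h2
    refine Eq.trans (Finset.sum_congr rfl fun j _ => ?_) (h2.trans ?_)
    · rw [map_mul]; rfl
    · rw [Matrix.one_apply, Matrix.one_apply]
      split_ifs <;> simp
  have hHG : H.transpose * G = 1 := by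
    ext i l k
    have h1 := congrFun (congrFun (Matrix.mem_unitaryGroup_iff'.1 (k : Matrix.unitaryGroup ν ℂ).2) i) l
    have h2 := congrArg (algebraMap ℂ L) h1
    rw [Matrix.mul_apply, Finset.sum_apply]
    rw [Matrix.mul_apply, map_sum] at h2
    refine Eq.trans (Finset.sum_congr rfl fun j _ => ?_) (h2.trans ?_)
    · rw [map_mul]; rfl
    · rw [Matrix.one_apply, Matrix.one_apply]
      split_ifs <;> simp
  have hgh : g * h.transpose = 1 := by
    have h1 := congrArg (fun M : Matrix ν ν (K → L) => M.map π) hGH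
    rw [Matrix.map_mul, Matrix.map_one _ (map_zero π) (map_one π)] at h1
    exact h1
  have hhg : h.transpose * g = 1 := by
    have h1 := congrArg (fun M : Matrix ν ν (K → L) => M.map π) hHG
    rw [Matrix.map_mul, Matrix.map_one _ (map_zero π) (map_one π)] at h1
    exact h1
  have hyg : y = g.mulVec wE := by
    ext i
    rw [hy]
    simp only [hY, map_sum, map_mul, Matrix.mulVec, dotProduct]
    refine Finset.sum_congr rfl fun j _ => ?_
    congr 1
  have hA : ∀ a ∈ InvAlg K, act g (map (algebraMap ℂ E) a) = map (algebraMap ℂ E) a := by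
    intro a ha
    have h1 := f6_act_pi L (fun k : K => ((k : Matrix.unitaryGroup ν ℂ) : Matrix ν ν ℂ)) a
      (fun k => ha k k.2)
    have h2 := congrArg (map (π : (K → L) →+* E)) h1
    rw [← f6_act_map, map_map, hπc] at h2
    exact h2
  have hB : ∀ a ∈ InvAlg K, act h (map (algebraMap ℂ E) (map (starRingEnd ℂ) a)) =
      map (algebraMap ℂ E) (map (starRingEnd ℂ) a) := by
    intro a ha
    have h1 := f6_act_pi L (fun k : K => (((k : Matrix.unitaryGroup ν ℂ) : Matrix ν ν ℂ).map
      (starRingEnd ℂ))) (map (starRingEnd ℂ) a) (fun k => by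
        rw [f6_act_map, ha k k.2])
    have h2 := congrArg (map (π : (K → L) →+* E)) h1
    rw [← f6_act_map, map_map, hπc] at h2
    exact h2
  -- transfer to `Fin n`
  let e := Fintype.equivFin ν
  set W : Submodule E (ν → E) := Submodule.span E (Set.range fun N : gg (InvAlg K) =>
      ((N : Matrix ν ν ℂ).map (algebraMap ℂ E)).mulVec y) with hW
  let f : (ν → E) ≃ₗ[E] (Fin (Fintype.card ν) → E) := LinearEquiv.funCongrLeft E E e.symm
  have hkey := trdeg_adjoin_le (F := L) (fun i => y (e.symm i)) (W.map f.toLinearMap)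
    (by
      intro D
      refine ⟨fun i => D (y i), ?_, rfl⟩
      have h1 : (fun i => D (y i)) = (g.map (D.restrictScalars ℂ) * h.transpose).mulVec y := by
        rw [hyg, Matrix.mulVec_mulVec, Matrix.mul_assoc, hhg, Matrix.mul_one]
        ext i
        simp only [Matrix.mulVec, dotProduct, map_sum, Derivation.leibniz, hwE,
          Derivation.map_algebraMap, smul_eq_mul, Matrix.map_apply, mul_zero, zero_add]
        exact Finset.sum_congr rfl fun j _ => mul_comm _ _
      rw [SetLike.mem_coe, h1, hW]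
      exact f6_mem_span _ _ (fun φ => f6_mem_gg K g h hgh hA hB (D.restrictScalars ℂ) φ) y)
  have hfin : Module.finrank E (W.map f.toLinearMap) ≤ Module.finrank ℂ (gg (InvAlg K)) := by
    have h1 := (f.submoduleMap W).finrank_eq
    refine (le_of_eq h1.symm).trans ?_
    rw [hW]
    exact f6_finrank_span (gg (InvAlg K)) y
  -- the algebra
  have hrange : Set.range (fun i => y (e.symm i)) = Set.range y := by
    ext z
    constructor
    · rintro ⟨i, rfl⟩; exact ⟨_, rfl⟩
    · rintro ⟨i, rfl⟩; exact ⟨e i, by simp⟩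
  rw [hrange] at hkey
  have hψ : (aeval y : MvPolynomial ν L →ₐ[L] E) = π.comp Θ := by
    apply MvPolynomial.algHom_ext
    intro i
    rw [aeval_X, AlgHom.comp_apply, hΘ, aeval_X]
  have hker : RingHom.ker (aeval y : MvPolynomial ν L →ₐ[L] E) = P := by
    ext F
    rw [RingHom.mem_ker, hψ, AlgHom.comp_apply, hπ, ← hQP, Ideal.mem_comap]
    rfl
  have hequiv : (MvPolynomial ν L ⧸ P) ≃ₐ[L] (Algebra.adjoin L (Set.range y)) := by
    rw [Algebra.adjoin_range_eq_range_aeval, ← hker]
    exact Ideal.quotientKerEquivRange (aeval y : MvPolynomial ν L →ₐ[L] E)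
  rw [hequiv.trdeg_eq]
  refine hkey.trans ?_
  exact_mod_cast hfin

/-! ### the lower bound -/

/-- the linear vector field over `L` -/
noncomputable def f6D (L : Type) [Field L] [Algebra ℂ L] (M : Matrix ν ν ℂ) :
    Derivation L (MvPolynomial ν L) (MvPolynomial ν L) :=
  mkDerivation L fun i => ∑ j, C (algebraMap ℂ L (M i j)) * X j

lemma f6D_X (L : Type) [Field L] [Algebra ℂ L] (M : Matrix ν ν ℂ) (i : ν) :
    f6D L M (X i) = ∑ j, C (algebraMap ℂ L (M i j)) * X j := by
  rw [f6D, mkDerivation_X]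

lemma f6D_map (L : Type) [Field L] [Algebra ℂ L] (M : Matrix ν ν ℂ) (g : MvPolynomial ν ℂ) :
    f6D L M (map (algebraMap ℂ L) g) = map (algebraMap ℂ L) (lv M g) := by
  induction g using MvPolynomial.induction_on with
  | C a => simp [lv]
  | add p q hp hq => rw [map_add, map_add, hp, hq, map_add, map_add]
  | mul_X p i hp =>
    rw [map_mul, map_X, Derivation.leibniz, Derivation.leibniz, hp, f6D_X, lv_X, map_add,
      smul_eq_mul, smul_eq_mul, smul_eq_mul, smul_eq_mul, map_mul, map_mul, map_X, map_sum]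
    simp

lemma f6D_add (L : Type) [Field L] [Algebra ℂ L] (M N : Matrix ν ν ℂ) :
    f6D L (M + N) = f6D L M + f6D L N := by
  apply MvPolynomial.derivation_ext
  intro i
  rw [Derivation.add_apply, f6D_X, f6D_X, f6D_X, ← Finset.sum_add_distrib]
  refine Finset.sum_congr rfl fun j _ => ?_
  rw [Matrix.add_apply, map_add, C_add, add_mul]

lemma f6D_smul (L : Type) [Field L] [Algebra ℂ L] (c : ℂ) (M : Matrix ν ν ℂ) :
    f6D L (c • M) = algebraMap ℂ L c • f6D L M := by
  apply MvPolynomial.derivation_ext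
  intro i
  rw [Derivation.smul_apply, f6D_X, f6D_X, Finset.smul_sum]
  refine Finset.sum_congr rfl fun j _ => ?_
  rw [Matrix.smul_apply, smul_eq_mul, map_mul, C_mul, smul_eq_C_mul, mul_assoc]

lemma f6_expansion (L : Type) [Field L] [Algebra ℂ L] (M : Matrix ν ν ℂ) (f : MvPolynomial ν L) :
    ∃ (ι : Type) (_ : Fintype ι) (c : ι → ℂ → ℂ) (c' : ι → ℂ) (g : ι → MvPolynomial ν L),
      (∀ l, HasDerivAt (c l) (c' l) 0) ∧
      (∀ t, act (kL L (flow M t)) f = ∑ l, C (algebraMap ℂ L (c l t)) * g l) ∧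
      f6D L M f = ∑ l, C (algebraMap ℂ L (c' l)) * g l := by
  induction f using MvPolynomial.induction_on' with
  | monomial u a =>
    obtain ⟨ι, i, c, c', g, h1, h2, h3⟩ := exists_expansion M (monomial u 1)
    have hm : (monomial u a : MvPolynomial ν L) = C a * map (algebraMap ℂ L) (monomial u 1) := by
      rw [map_monomial, map_one, C_mul_monomial, mul_one]
    refine ⟨ι, i, c, c', fun l => C a * map (algebraMap ℂ L) (g l), h1, fun t => ?_, ?_⟩
    · rw [hm, map_mul, kL, f6_act_map, h2, map_sum, Finset.mul_sum]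
      have h4 : act ((flow M t).map (algebraMap ℂ L)) (C a : MvPolynomial ν L) = C a :=
        (act ((flow M t).map (algebraMap ℂ L))).commutes a
      rw [h4]
      refine Finset.sum_congr rfl fun l _ => ?_
      rw [smul_eq_C_mul, map_mul, map_C]
      ring
    · rw [hm, Derivation.leibniz, f6D_map, h3]
      have h4 : f6D L M (C a) = 0 := (f6D L M).map_algebraMap a
      rw [h4, smul_zero, add_zero, smul_eq_mul, map_sum, Finset.mul_sum]
      refine Finset.sum_congr rfl fun l _ => ?_
      rw [smul_eq_C_mul, map_mul, map_C]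
      ring
  | add p q hp hq =>
    obtain ⟨ι₁, i₁, c₁, c₁', g₁, h1, h2, h3⟩ := hp
    obtain ⟨ι₂, i₂, c₂, c₂', g₂, k1, k2, k3⟩ := hq
    refine ⟨ι₁ ⊕ ι₂, inferInstance, Sum.elim c₁ c₂, Sum.elim c₁' c₂', Sum.elim g₁ g₂, ?_, ?_, ?_⟩
    · rintro (l | l)
      · exact h1 l
      · exact k1 l
    · intro t
      rw [map_add, h2, k2, Fintype.sum_sum_type]
      rfl
    · rw [map_add, h3, k3, Fintype.sum_sum_type]
      rfl

lemma f6_skew (K : Subgroup (Matrix.unitaryGroup ν ℂ)) (hmax : MaxK K) (L : Type) [Field L]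
    [Algebra ℂ L] (I : Ideal (MvPolynomial ν L))
    (hI : ∀ k ∈ K, ∀ f ∈ I, act (kL L (k : Matrix ν ν ℂ)) f ∈ I)
    {M : Matrix ν ν ℂ} (hM : M ∈ gg (InvAlg K)) (hs : M.conjTranspose = -M)
    (f : MvPolynomial ν L) (hf : f ∈ I) : f6D L M f ∈ I := by
  by_contra hcon
  have hcon' : f6D L M f ∉ I.restrictScalars ℂ := hcon
  obtain ⟨φ, hφ, hφI⟩ := Submodule.exists_le_ker_of_notMem hcon'
  have hφ0 : ∀ g ∈ I, φ g = 0 := fun g hg => LinearMap.mem_ker.1 (hφI hg)
  obtain ⟨ι, _, c, c', g, h1, h2, h3⟩ := f6_expansion L M f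
  have hlin : ∀ (z : ℂ) (l : ι), φ (C (algebraMap ℂ L z) * g l) = z * φ (g l) := by
    intro z l
    have : C (algebraMap ℂ L z) * g l = z • g l := by
      rw [Algebra.smul_def]
      rfl
    rw [this, map_smul, smul_eq_mul]
  apply hφ
  rw [h3, map_sum]
  simp only [hlin]
  have h4 : HasDerivAt (fun t : ℂ => ∑ l, c l t * φ (g l)) (∑ l, c' l * φ (g l)) 0 := by
    apply HasDerivAt.fun_sum
    intro l _
    exact (h1 l).mul_const _
  have h5 : HasDerivAt (fun t : ℝ => ∑ l, c l t * φ (g l)) (∑ l, c' l * φ (g l)) 0 := by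
    have h4' : HasDerivAt (fun t : ℂ => ∑ l, c l t * φ (g l)) (∑ l, c' l * φ (g l)) ((0 : ℝ) : ℂ) := by
      rw [Complex.ofReal_zero]
      exact h4
    exact h4'.comp_ofReal
  have h6 : (fun t : ℝ => ∑ l, c l t * φ (g l)) = fun _ => 0 := by
    funext t
    have h7 : act (kL L (flow M t)) f ∈ I := hI _ (flow_mem K hmax hM hs t) f hf
    have h8 := hφ0 _ h7
    rw [h2, map_sum] at h8
    simp only [hlin] at h8
    exact h8
  rw [h6] at h5
  exact h5.unique (hasDerivAt_const 0 0)

lemma f6_stable (K : Subgroup (Matrix.unitaryGroup ν ℂ)) (hmax : MaxK K) (L : Type) [Field L]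
    [Algebra ℂ L] (I : Ideal (MvPolynomial ν L))
    (hI : ∀ k ∈ K, ∀ f ∈ I, act (kL L (k : Matrix ν ν ℂ)) f ∈ I)
    {M : Matrix ν ν ℂ} (hM : M ∈ gg (InvAlg K))
    (f : MvPolynomial ν L) (hf : f ∈ I) : f6D L M f ∈ I := by
  obtain ⟨P, Q, hP, hQ, hPs, hQs, rfl⟩ := exists_skew hM
  rw [f6D_add, f6D_smul, Derivation.add_apply, Derivation.smul_apply, smul_eq_C_mul]
  exact I.add_mem (f6_skew K hmax L I hI hP hPs f hf)
    (I.mul_mem_left _ (f6_skew K hmax L I hI hQ hQs f hf))

/-- minimal primes of a stable radical ideal are stable -/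
lemma f6_minimal {R : Type*} [CommRing R] {F : Type*} [CommRing F] [Algebra F R]
    (D : Derivation F R R) (I P : Ideal R) (hrad : I.IsRadical) (hI : ∀ f ∈ I, D f ∈ I)
    (hP : P ∈ I.minimalPrimes) (f : R) (hf : f ∈ P) : D f ∈ P := by
  have hPp : P.IsPrime := hP.1.1
  -- there is `s ∉ P` with `s f ∈ I`
  have hex : ∃ s ∉ P, s * f ∈ I := by
    by_contra hcon
    push Not at hcon
    -- the multiplicative set generated by `f` and the complement of `P` avoids `I`
    let T : Submonoid R := P.primeCompl ⊔ Submonoid.powers f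
    have hdis : Disjoint (I : Set R) (T : Set R) := by
      rw [Set.disjoint_left]
      intro z hzI hzT
      obtain ⟨s, hs, y, hy, rfl⟩ := Submonoid.mem_sup.1 hzT
      obtain ⟨n, rfl⟩ := hy
      have h1 : (s * f) ^ (n + 1) ∈ I := by
        have : (s * f) ^ (n + 1) = (s ^ n * f) * (s * f ^ n) := by ring
        rw [this]
        exact I.mul_mem_left _ hzI
      exact hcon s hs (hrad ⟨_, h1⟩)
    obtain ⟨q, hq, hIq, hqT⟩ := Ideal.exists_le_prime_disjoint I T hdis
    have hqP : q ≤ P := by
      intro z hz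
      by_contra hzP
      exact Set.disjoint_left.1 hqT hz (Submonoid.mem_sup_left hzP)
    have hPq := hP.2 ⟨hq, hIq⟩ hqP
    exact Set.disjoint_left.1 hqT (hPq hf) (Submonoid.mem_sup_right (Submonoid.mem_powers f))
  obtain ⟨s, hs, hsf⟩ := hex
  have h1 := hI _ hsf
  rw [Derivation.leibniz, smul_eq_mul, smul_eq_mul] at h1
  have h2 : s * D f ∈ P := by
    have h3 := P.sub_mem (hP.1.2 h1) (P.mul_mem_right (D s) hf)
    rwa [add_sub_cancel_right] at h3
  exact (hPp.mem_or_mem h2).resolve_left hs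

/-- the derivation induced on a quotient -/
noncomputable def f6Q {R : Type*} [CommRing R] {F : Type*} [CommRing F] [Algebra F R]
    (D : Derivation F R R) (P : Ideal R) (hD : ∀ f ∈ P, D f ∈ P) :
    Derivation F (R ⧸ P) (R ⧸ P) :=
  Derivation.mk' ((P.restrictScalars F).mapQ (P.restrictScalars F) D.toLinearMap hD)
    (by
      intro a b
      obtain ⟨a, rfl⟩ := Ideal.Quotient.mk_surjective a
      obtain ⟨b, rfl⟩ := Ideal.Quotient.mk_surjective b
      show (Ideal.Quotient.mk P (D (a * b)) : R ⧸ P) =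
        Ideal.Quotient.mk P a • Ideal.Quotient.mk P (D b) +
          Ideal.Quotient.mk P b • Ideal.Quotient.mk P (D a)
      rw [Derivation.leibniz, map_add, smul_eq_mul, smul_eq_mul, map_mul,
        map_mul, smul_eq_mul, smul_eq_mul])

lemma f6Q_mk {R : Type*} [CommRing R] {F : Type*} [CommRing F] [Algebra F R]
    (D : Derivation F R R) (P : Ideal R) (hD : ∀ f ∈ P, D f ∈ P) (c : R) :
    f6Q D P hD (Ideal.Quotient.mk P c) = Ideal.Quotient.mk P (D c) := rfl

/-- Lower bound over the good locus if all stabilizers there are trivial. -/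
theorem le_trdeg_orbit (K : Subgroup (Matrix.unitaryGroup ν ℂ)) (hmax : MaxK K) {d : ℕ}
    (hstab : ∀ x, Gd (InvAlg K) d x → stab (InvAlg K) x = ⊥) (L : Type) [Field L] [Algebra ℂ L]
    [IsAlgClosed L] [CharZero L] (w : ν → L) (b : InvAlg K) (hb : IsGood (InvAlg K) d b)
    (hbw : aeval w (b : MvPolynomial ν ℂ) ≠ 0) (P : Ideal (MvPolynomial ν L))
    (hP : P ∈ (orbIdeal K L w).minimalPrimes) :
    (Module.finrank ℂ (gg (InvAlg K)) : Cardinal) ≤ Algebra.trdeg L (MvPolynomial ν L ⧸ P) := by
  classical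
  have hPp : P.IsPrime := hP.1.1
  have hstabP : ∀ M ∈ gg (InvAlg K), ∀ f ∈ P, f6D L M f ∈ P := by
    intro M hM f hf
    exact f6_minimal (f6D L M) (orbIdeal K L w) P (isRadical_orbIdeal K L w)
      (fun f hf => f6_stable K hmax L _ (fun k hk f hf => act_mem_orbIdeal K L w k hk f hf) hM f hf)
      hP f hf
  let B := Module.finBasis ℂ (gg (InvAlg K))
  set c := Module.finrank ℂ (gg (InvAlg K)) with hc
  let A' := MvPolynomial ν L ⧸ P
  let y : ν → A' := fun i => Ideal.Quotient.mk P (X i)
  let D : Fin c → Derivation L A' A' := fun j =>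
    f6Q (f6D L ((B j : gg (InvAlg K)) : Matrix ν ν ℂ)) P (hstabP _ (B j).2)
  have hDy : ∀ j i, D j (y i) = ∑ l, algebraMap ℂ A' (((B j : gg (InvAlg K)) : Matrix ν ν ℂ) i l) *
      y l := by
    intro j i
    show Ideal.Quotient.mk P (f6D L ((B j : gg (InvAlg K)) : Matrix ν ν ℂ) (X i)) = _
    rw [f6D_X, map_sum]
    refine Finset.sum_congr rfl fun l _ => ?_
    rw [map_mul]
    rfl
  let e := Fintype.equivFin ν
  refine le_trdeg_of_derivations (F := L) (A := A') D (fun i => y (e.symm i)) ?_
  by_contra hdep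
  rw [Fintype.not_linearIndependent_iff] at hdep
  obtain ⟨ε, hε, j0, hj0⟩ := hdep
  -- the fraction field
  let E := FractionRing A'
  let ι : A' →+* E := algebraMap A' E
  have hιinj : Function.Injective ι := IsFractionRing.injective A' E
  have hbP : ι (Ideal.Quotient.mk P (map (algebraMap ℂ L) (b : MvPolynomial ν ℂ))) ≠ 0 := by
    have h1 : map (algebraMap ℂ L) (b : MvPolynomial ν ℂ) -
        C (aeval w (b : MvPolynomial ν ℂ)) ∈ orbIdeal K L w := by
      rw [mem_orbIdeal]
      intro k hk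
      rw [map_sub, eval_C, ← f6_eval_act, kL, f6_act_map, b.2 k hk, eval_map, ← aeval_def, sub_self]
    have h2 : Ideal.Quotient.mk P (map (algebraMap ℂ L) (b : MvPolynomial ν ℂ)) =
        Ideal.Quotient.mk P (C (aeval w (b : MvPolynomial ν ℂ))) :=
      Ideal.Quotient.eq.2 (hP.1.2 h1)
    rw [h2]
    intro h3
    have h4 : Ideal.Quotient.mk P (C (aeval w (b : MvPolynomial ν ℂ))) = 0 :=
      hιinj (by rw [h3, map_zero])
    have h5 : algebraMap L A' (aeval w (b : MvPolynomial ν ℂ)) = 0 := h4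
    exact hbw ((map_eq_zero _).1 h5)
  have hε0 : ι (ε j0) ≠ 0 := fun h => hj0 (hιinj (by rw [h, map_zero]))
  -- a finitely generated algebra over `ℂ`
  let s : Set E := (Set.range fun i => ι (y i)) ∪ (Set.range fun j => ι (ε j)) ∪
    {(ι (ε j0))⁻¹, (ι (Ideal.Quotient.mk P (map (algebraMap ℂ L) (b : MvPolynomial ν ℂ))))⁻¹}
  have hsfin : s.Finite := ((Set.finite_range _).union (Set.finite_range _)).union
    (Set.toFinite _)
  let T := Algebra.adjoin ℂ s
  have hTft : Algebra.FiniteType ℂ T := by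
    rw [← Subalgebra.fg_iff_finiteType]
    have h1 : T = Algebra.adjoin ℂ ((hsfin.toFinset : Finset E) : Set E) := by
      rw [Set.Finite.coe_toFinset]
    rw [h1]
    exact Subalgebra.fg_adjoin_finset _
  have hinjT : Function.Injective (algebraMap ℂ T) := (algebraMap ℂ T).injective
  obtain ⟨h, hh0, hext⟩ := exists_extend_hom ℂ T hinjT
  obtain ⟨ψ, hψ⟩ := hext ℂ (RingHom.id ℂ) hh0
  have hψc : ∀ z : ℂ, ψ (algebraMap ℂ T z) = z := fun z => RingHom.congr_fun hψ z
  have hsT : ∀ z ∈ s, z ∈ T := fun z hz => Algebra.subset_adjoin hz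
  have hyT : ∀ i, ι (y i) ∈ T := fun i => hsT _ (Or.inl (Or.inl ⟨i, rfl⟩))
  have hεT : ∀ j, ι (ε j) ∈ T := fun j => hsT _ (Or.inl (Or.inr ⟨j, rfl⟩))
  have hiT : (ι (ε j0))⁻¹ ∈ T := hsT _ (Or.inr (Or.inl rfl))
  have hbT : (ι (Ideal.Quotient.mk P (map (algebraMap ℂ L) (b : MvPolynomial ν ℂ))))⁻¹ ∈ T :=
    hsT _ (Or.inr (Or.inr rfl))
  let yT : ν → T := fun i => ⟨ι (y i), hyT i⟩
  let εT : Fin c → T := fun j => ⟨ι (ε j), hεT j⟩
  let x : ν → ℂ := fun i => ψ (yT i)
  let ε' : Fin c → ℂ := fun j => ψ (εT j)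
  have hε'0 : ε' j0 ≠ 0 := by
    intro h0
    have h1 : (εT j0) * ⟨(ι (ε j0))⁻¹, hiT⟩ = 1 := Subtype.ext (mul_inv_cancel₀ hε0)
    have h2 := congrArg ψ h1
    rw [map_mul, map_one] at h2
    have h3 : ψ (εT j0) = 0 := h0
    rw [h3, zero_mul] at h2
    exact zero_ne_one h2
  have hcE : ∀ z : ℂ, ι (algebraMap ℂ A' z) = algebraMap ℂ E z := by
    intro z
    exact (IsScalarTower.algebraMap_apply ℂ A' E z).symm
  have hcA : ∀ z : ℂ, Ideal.Quotient.mk P (C (algebraMap ℂ L z)) = algebraMap ℂ A' z := by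
    intro z
    rfl
  have hpT : ∀ p : MvPolynomial ν ℂ, ι (Ideal.Quotient.mk P (map (algebraMap ℂ L) p)) =
      ((aeval yT p : T) : E) := by
    intro p
    induction p using MvPolynomial.induction_on with
    | C a =>
      rw [map_C, hcA, hcE, aeval_C]
      rfl
    | add p q hp hq =>
      rw [map_add, map_add, map_add, map_add, hp, hq]
      rfl
    | mul_X p i hp =>
      rw [map_mul, map_mul, map_mul, map_mul, hp, map_X, aeval_X]
      rfl
  have hψe : ∀ p : MvPolynomial ν ℂ, ψ (aeval yT p) = eval x p := by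
    intro p
    induction p using MvPolynomial.induction_on with
    | C a => rw [aeval_C, hψc, eval_C]
    | add p q hp hq => rw [map_add, map_add, map_add, hp, hq]
    | mul_X p i hp => rw [map_mul, map_mul, map_mul, hp, aeval_X, eval_X]
  have hbx : eval x (b : MvPolynomial ν ℂ) ≠ 0 := by
    intro h0
    rw [← hψe] at h0
    have h1 : (aeval yT (b : MvPolynomial ν ℂ)) * ⟨_, hbT⟩ = (1 : T) := by
      apply Subtype.ext
      show ((aeval yT (b : MvPolynomial ν ℂ) : T) : E) * _ = 1
      rw [← hpT]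
      exact mul_inv_cancel₀ hbP
    have h2 := congrArg ψ h1
    rw [map_mul, map_one, h0, zero_mul] at h2
    exact zero_ne_one h2
  have hst := hstab x ⟨b, hb, hbx⟩
  set M : gg (InvAlg K) := ∑ j, ε' j • B j with hM
  have hMval : (M : Matrix ν ν ℂ) = ∑ j, ε' j • ((B j : gg (InvAlg K)) : Matrix ν ν ℂ) := by
    rw [hM]
    simp only [Submodule.coe_sum, Submodule.coe_smul]
  have hMx : (M : Matrix ν ν ℂ).mulVec x = 0 := by
    ext i
    have h1 : ∑ j, ε j * D j (y i) = 0 := by
      have h2 := congrFun hε (e i)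
      rw [Finset.sum_apply] at h2
      simp only [Pi.smul_apply, smul_eq_mul, Equiv.symm_apply_apply, Pi.zero_apply] at h2
      exact h2
    have h3 : ∑ j, εT j * ∑ l, algebraMap ℂ T (((B j : gg (InvAlg K)) : Matrix ν ν ℂ) i l) *
        yT l = 0 := by
      apply Subtype.ext
      have h4 := congrArg ι h1
      rw [map_zero, map_sum] at h4
      have h5 : ((∑ j, εT j * ∑ l, algebraMap ℂ T (((B j : gg (InvAlg K)) : Matrix ν ν ℂ) i l) *
        yT l : T) : E) = ∑ j, ι (ε j * D j (y i)) := by
        rw [AddSubmonoidClass.coe_finsetSum]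
        refine Finset.sum_congr rfl fun j _ => ?_
        rw [map_mul, hDy, map_sum]
        show ι (ε j) * ((∑ l, algebraMap ℂ T (((B j : gg (InvAlg K)) : Matrix ν ν ℂ) i l) *
          yT l : T) : E) = _
        congr 1
        rw [AddSubmonoidClass.coe_finsetSum]
        refine Finset.sum_congr rfl fun l _ => ?_
        rw [map_mul, hcE]
        rfl
      rw [h5, h4]
      rfl
    have h6 := congrArg ψ h3
    rw [map_zero, map_sum] at h6
    rw [hMval, Matrix.sum_mulVec, Finset.sum_apply, Pi.zero_apply, ← h6]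
    refine Finset.sum_congr rfl fun j _ => ?_
    rw [Matrix.smul_mulVec, Pi.smul_apply, smul_eq_mul, map_mul, map_sum, Matrix.mulVec,
      dotProduct]
    congr 1
    refine Finset.sum_congr rfl fun l _ => ?_
    rw [map_mul, hψc]
  have hM0 : (M : Matrix ν ν ℂ) = 0 := by
    have h1 : (M : Matrix ν ν ℂ) ∈ stab (InvAlg K) x := ⟨M.2, hMx⟩
    rw [hst] at h1
    exact h1
  have hM1 : M = 0 := Subtype.ext hM0
  have hli := B.linearIndependent
  rw [Fintype.linearIndependent_iff] at hli
  exact hε'0 (hli ε' hM1 j0)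

end H50.Z
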