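import Pool.Agent.H50.Z.F6_OrbDim
import Pool.Agent.H50.Z.R2_Lift
import Pool.Agent.H50.Z.L4_Dim
import Pool.Agent.H50.Z.D6_Isotropic

/-! (F4 C, D) `dim gg = N - d`. -/

open MvPolynomial H50.DO

set_option linter.unusedSectionVars false

namespace H50.Z

variable {ν : Type} [Fintype ν] [DecidableEq ν]

namespace F7

/-- values of invariants along orbits -/
lemma eval_orbit (K : Subgroup (Matrix.unitaryGroup ν ℂ)) (L : Type) [Field L] [Algebra ℂ L]
    (u : ν → L) (a : MvPolynomial ν ℂ) (ha : a ∈ InvAlg K) (k : Matrix.unitaryGroup ν ℂ)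
    (hk : k ∈ K) :
    eval ((kL L (k : Matrix ν ν ℂ)).mulVec u) (map (algebraMap ℂ L) a) = aeval u a := by
  rw [← f5_eval_act, R2.act_map, ha k hk, eval_map, aeval_def]

/-- invariants take the same values at points of the orbit closure -/
lemma aeval_eq_of_closure (K : Subgroup (Matrix.unitaryGroup ν ℂ)) (L : Type) [Field L] [Algebra ℂ L]
    (u w₀ : ν → L) (h : ∀ F ∈ orbIdeal K L u, eval w₀ F = 0) (a : MvPolynomial ν ℂ)
    (ha : a ∈ InvAlg K) : aeval w₀ a = aeval u a := by
  have h1 : map (algebraMap ℂ L) a - C (aeval u a) ∈ orbIdeal K L u := by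
    intro k hk
    rw [map_sub, eval_C, eval_orbit K L u a ha k hk, sub_self]
  have h2 := h _ h1
  rw [map_sub, eval_C, eval_map, sub_eq_zero] at h2
  rw [← h2, aeval_def]

/-- primes with equal transcendence degree of the quotient -/
lemma eq_of_trdeg {L R : Type} [Field L] [CommRing R] [Algebra L R] [Algebra.FiniteType L R]
    (P P₀ : Ideal R) [P.IsPrime] [P₀.IsPrime] (hle : P ≤ P₀) (c : Cardinal)
    (h1 : Algebra.trdeg L (R ⧸ P) ≤ c) (h2 : c ≤ Algebra.trdeg L (R ⧸ P₀)) : P = P₀ := by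
  by_contra hne
  obtain ⟨a, ha, haP⟩ : ∃ a ∈ P₀, a ∉ P := by
    by_contra hcon
    push Not at hcon
    exact hne (le_antisymm hle hcon)
  have hfin : Algebra.trdeg L (R ⧸ P) < Cardinal.aleph0 := trdeg_lt_aleph0_of_finiteType
  have h3 := l4_succ_le (Ideal.Quotient.factorₐ L hle) (Ideal.Quotient.factor_surjective hle) hfin
    (a := Ideal.Quotient.mk P a) (by
      rw [Ne, Ideal.Quotient.eq_zero_iff_mem]
      exact haP) (by
      rw [Ideal.Quotient.factorₐ_apply_mk]
      exact Ideal.Quotient.eq_zero_iff_mem.2 ha)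
  have h4 : Algebra.trdeg L (R ⧸ P₀) + 1 ≤ Algebra.trdeg L (R ⧸ P₀) := h3.trans (h1.trans h2)
  have hfin' : Algebra.trdeg L (R ⧸ P₀) < Cardinal.aleph0 := trdeg_lt_aleph0_of_finiteType
  obtain ⟨n, hn⟩ := Cardinal.lt_aleph0.1 hfin'
  rw [hn] at h4
  have h5 : n + 1 ≤ n := by exact_mod_cast h4
  omega

/-- a point of the closure of a good orbit has the same orbit ideal -/
lemma orbIdeal_eq_aux (K : Subgroup (Matrix.unitaryGroup ν ℂ)) (hmax : MaxK K) {d : ℕ}
    (hstab : ∀ x, Gd (InvAlg K) d x → stab (InvAlg K) x = ⊥) (L : Type) [Field L] [Algebra ℂ L]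
    [IsAlgClosed L] [CharZero L] (u w₀ : ν → L) (h : ∀ F ∈ orbIdeal K L u, eval w₀ F = 0)
    (b : InvAlg K) (hb : IsGood (InvAlg K) d b)
    (hbu : aeval u (b : MvPolynomial ν ℂ) ≠ 0) : orbIdeal K L u = orbIdeal K L w₀ := by
  have hbw : aeval w₀ (b : MvPolynomial ν ℂ) ≠ 0 := by
    rw [aeval_eq_of_closure K L u w₀ h b b.2]
    exact hbu
  have hle : orbIdeal K L u ≤ orbIdeal K L w₀ :=
    f5_le_of_le_ker K L w₀ _ (fun k hk F hF => act_mem_orbIdeal K L u k hk F hF) h
  refine le_antisymm hle ?_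
  have hker : orbIdeal K L w₀ ≤ RingHom.ker (eval w₀) := by
    intro F hF
    have := hF 1 K.one_mem
    have h1 : ((1 : Matrix.unitaryGroup ν ℂ) : Matrix ν ν ℂ) = 1 := rfl
    rw [h1, f5_kL_one, Matrix.one_mulVec] at this
    exact this
  have hmp : (RingHom.ker (eval w₀)).IsPrime := RingHom.ker_isPrime _
  obtain ⟨P₀, hP₀, -⟩ := Ideal.exists_minimalPrimes_le hker
  have hP₀p : P₀.IsPrime := hP₀.1.1
  obtain ⟨P, hP, hPP₀⟩ := Ideal.exists_minimalPrimes_le (hle.trans hP₀.1.2)
  have hPp : P.IsPrime := hP.1.1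
  have heq : P = P₀ := eq_of_trdeg P P₀ hPP₀ _ (trdeg_orbit_le K L u P hP)
    (le_trdeg_orbit K hmax hstab L w₀ b hb hbw P₀ hP₀)
  intro F hF
  have hrad := isRadical_orbIdeal K L u
  rw [← hrad.radical, ← Ideal.sInf_minimalPrimes, Submodule.mem_sInf]
  intro Q hQ
  obtain ⟨k, hk, rfl⟩ := minimalPrimes_transitive K L u P Q hP hQ
  rw [heq]
  exact hP₀.1.2 (act_mem_orbIdeal K L w₀ k hk F hF)

end F7

open F7

/-- (C) points over the good locus with the same image in `V//K` have the same orbit closure -/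
theorem orbIdeal_eq (K : Subgroup (Matrix.unitaryGroup ν ℂ)) (hmax : MaxK K) {d : ℕ}
    (hstab : ∀ x, Gd (InvAlg K) d x → stab (InvAlg K) x = ⊥) (L : Type) [Field L] [Algebra ℂ L]
    [IsAlgClosed L] [CharZero L] (w w' : ν → L)
    (h : ∀ a ∈ InvAlg K, aeval w a = aeval w' a) (b : InvAlg K) (hb : IsGood (InvAlg K) d b)
    (hbw : aeval w (b : MvPolynomial ν ℂ) ≠ 0) : orbIdeal K L w = orbIdeal K L w' := by
  obtain ⟨w₀, h1, h2⟩ := exists_common_point K L w w' h
  rw [orbIdeal_eq_aux K hmax hstab L w w₀ h1 b hb hbw,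
    orbIdeal_eq_aux K hmax hstab L w' w₀ h2 b hb (by rw [← h b b.2]; exact hbw)]

/-- (D, first part) a prime of height at most `d` containing all `a - a(x₀)` -/
theorem exists_fibre_prime (A : Subalgebra ℂ (MvPolynomial ν ℂ)) {d : ℕ} (x₀ : ν → ℂ)
    (hx₀ : Gd A d x₀) :
    ∃ P : Ideal (MvPolynomial ν ℂ), P.IsPrime ∧ P.height ≤ d ∧
      ∀ a ∈ A, a - C (eval x₀ a) ∈ P := by
  obtain ⟨b, ⟨a, D, hgood⟩, hbx⟩ := hx₀
  let f : Fin d → MvPolynomial ν ℂ := fun j =>
    ((a j : A) : MvPolynomial ν ℂ) - C (eval x₀ ((a j : A) : MvPolynomial ν ℂ))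
  have hmp : (RingHom.ker (eval x₀)).IsPrime := RingHom.ker_isPrime _
  have hI : Ideal.span (Set.range f) ≤ RingHom.ker (eval x₀) := by
    rw [Ideal.span_le]
    rintro _ ⟨j, rfl⟩
    change eval x₀ (f j) = 0
    simp only [f]
    rw [map_sub, eval_C, sub_self]
  obtain ⟨P, hP, hPm⟩ := Ideal.exists_minimalPrimes_le hI
  have hPp : P.IsPrime := hP.1.1
  refine ⟨P, hPp, ?_, ?_⟩
  · refine (Ideal.height_le_card_of_mem_minimalPrimes_span (Set.finite_range f) hP).trans ?_
    have h1 : (Set.range f).ncard ≤ d := by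
      rw [← Set.image_univ]
      refine (Set.ncard_image_le Set.finite_univ).trans ?_
      rw [Set.ncard_univ, Nat.card_eq_fintype_card, Fintype.card_fin]
    exact_mod_cast h1
  · intro g hg
    let E := FractionRing (MvPolynomial ν ℂ ⧸ P)
    let φ : MvPolynomial ν ℂ →ₐ[ℂ] E :=
      (IsScalarTower.toAlgHom ℂ (MvPolynomial ν ℂ ⧸ P) E).comp (Ideal.Quotient.mkₐ ℂ P)
    have hφ0 : ∀ F, φ F = 0 ↔ F ∈ P := by
      intro F
      rw [← Ideal.Quotient.eq_zero_iff_mem]
      constructor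
      · intro h
        apply IsFractionRing.injective (MvPolynomial ν ℂ ⧸ P) E
        rw [map_zero]
        exact h
      · intro h
        change algebraMap (MvPolynomial ν ℂ ⧸ P) E (Ideal.Quotient.mk P F) = 0
        rw [h, map_zero]
    have hφa : ∀ F, φ F = aeval (fun i => φ (X i)) F := by
      intro F
      have : φ = aeval (fun i => φ (X i)) := by
        apply MvPolynomial.algHom_ext
        intro i
        rw [aeval_X]
      exact congrArg (fun ψ : MvPolynomial ν ℂ →ₐ[ℂ] E => ψ F) this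
    have hkill : ∀ Δ : Derivation ℂ E E, Δ (φ g) = 0 := by
      intro Δ
      have h1 : φ (b : MvPolynomial ν ℂ) * Δ (φ g) = 0 := by
        rw [hφa g, D6.chain, Finset.mul_sum]
        have h2 : ∀ i, φ (b : MvPolynomial ν ℂ) * (aeval (fun i => φ (X i)) (pderiv i g) * Δ (φ (X i))) =
            ∑ j, φ ((D j ⟨g, hg⟩ : A) : MvPolynomial ν ℂ) *
              (aeval (fun i => φ (X i)) (pderiv i ((a j : A) : MvPolynomial ν ℂ)) * Δ (φ (X i))) := by
          intro i
          have h3 := congrArg φ (good_pderiv A hgood ⟨g, hg⟩ i)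
          rw [map_mul, map_sum] at h3
          rw [← mul_assoc, ← hφa, h3, Finset.sum_mul]
          refine Finset.sum_congr rfl fun j _ => ?_
          rw [map_mul, ← hφa, mul_assoc]
        rw [Finset.sum_congr rfl fun i _ => h2 i, Finset.sum_comm]
        refine Finset.sum_eq_zero fun j _ => ?_
        rw [← Finset.mul_sum, ← D6.chain, ← hφa]
        have h4 : φ (f j) = 0 := (hφ0 _).2 (hP.1.2 (Ideal.subset_span ⟨j, rfl⟩))
        simp only [f] at h4
        rw [map_sub, sub_eq_zero] at h4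
        have h5 : φ (C (eval x₀ ((a j : A) : MvPolynomial ν ℂ))) =
            algebraMap ℂ E (eval x₀ ((a j : A) : MvPolynomial ν ℂ)) := by
          rw [← MvPolynomial.algebraMap_eq, AlgHom.commutes]
        rw [h4, h5, Δ.map_algebraMap, mul_zero]
      have hb0 : φ (b : MvPolynomial ν ℂ) ≠ 0 := by
        intro h
        exact hbx (hPm ((hφ0 _).1 h))
      exact (mul_eq_zero.1 h1).resolve_left hb0
    have halg : IsAlgebraic ℂ (φ g) := isAlgebraic_of_derivation _ hkill
    obtain ⟨c, hc⟩ := RingHom.mem_range.1 (minpoly.mem_range_of_degree_eq_one ℂ (φ g)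
      (IsAlgClosed.degree_eq_one_of_irreducible ℂ (minpoly.irreducible halg.isIntegral)))
    have hc' : φ g = algebraMap ℂ E c := hc.symm
    have h6 : g - C c ∈ P := by
      rw [← hφ0, map_sub, hc', sub_eq_zero, ← MvPolynomial.algebraMap_eq, AlgHom.commutes]
    have h7 : eval x₀ g = c := by
      have := hPm h6
      rw [RingHom.mem_ker, map_sub, eval_C, sub_eq_zero] at this
      exact this
    rw [h7]
    exact h6

/-- (F4) -/
theorem finrank_gg (K : Subgroup (Matrix.unitaryGroup ν ℂ)) (hmax : MaxK K) {d : ℕ}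
    (hd : Algebra.trdeg ℂ (InvAlg K) = d) (hS : Surj (InvAlg K))
    (hstab : ∀ x, Gd (InvAlg K) d x → stab (InvAlg K) x = ⊥) :
    Module.finrank ℂ (gg (InvAlg K)) + d = Fintype.card ν := by
  have hft := invAlg_finiteType K
  obtain ⟨b, hb⟩ := exists_good (InvAlg K) hd
  have hb0 : (b : MvPolynomial ν ℂ) ≠ 0 := by
    obtain ⟨a, D, h⟩ := hb
    exact fun h0 => h.1 (Subtype.ext h0)
  obtain ⟨x₀, hx₀⟩ : ∃ x₀ : ν → ℂ, eval x₀ (b : MvPolynomial ν ℂ) ≠ 0 := by
    by_contra hcon
    push Not at hcon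
    exact hb0 (MvPolynomial.funext fun x => by rw [hcon x, map_zero])
  have hGd : Gd (InvAlg K) d x₀ := ⟨b, hb, hx₀⟩
  apply le_antisymm
  · -- upper bound
    obtain ⟨a, D, hgood⟩ := hb
    have hli := t1 (InvAlg K) hS hgood x₀ hx₀
    let B : Matrix (Fin d) ν ℂ := Matrix.of fun j i =>
      eval x₀ (pderiv i ((a j : InvAlg K) : MvPolynomial ν ℂ))
    have hrank : B.rank = d := by
      have h1 : LinearIndependent ℂ B.row := hli
      rw [h1.rank_matrix, Fintype.card_fin]
    have h2 := LinearMap.finrank_range_add_finrank_ker B.mulVecLin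
    rw [Module.finrank_fintype_fun_eq_card] at h2
    have h3 : Module.finrank ℂ (LinearMap.range B.mulVecLin) = d := hrank
    let T : gg (InvAlg K) →ₗ[ℂ] LinearMap.ker B.mulVecLin :=
      { toFun := fun M => ⟨(M : Matrix ν ν ℂ).mulVec x₀, by
          rw [LinearMap.mem_ker, Matrix.mulVecLin_apply]
          funext j
          have h4 := congrArg (eval x₀) (M.2.1 ((a j : InvAlg K) : MvPolynomial ν ℂ) (a j).2)
          rw [eval_lv, map_zero] at h4
          rw [Pi.zero_apply, ← h4]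
          exact Finset.sum_congr rfl fun i _ => mul_comm _ _⟩
        map_add' := fun M N => Subtype.ext (Matrix.add_mulVec _ _ _)
        map_smul' := fun c M => Subtype.ext (Matrix.smul_mulVec _ _ _) }
    have hT : Function.Injective T := by
      rw [← LinearMap.ker_eq_bot, LinearMap.ker_eq_bot']
      intro M hM
      have h5 : (M : Matrix ν ν ℂ) ∈ stab (InvAlg K) x₀ := ⟨M.2, congrArg Subtype.val hM⟩
      rw [hstab x₀ hGd, Submodule.mem_bot] at h5
      exact Subtype.ext h5
    have h6 := LinearMap.finrank_le_finrank_of_injective hT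
    omega
  · -- lower bound
    obtain ⟨P₁, hP₁, hht, hP₁a⟩ := exists_fibre_prime (InvAlg K) x₀ hGd
    let E := FractionRing (MvPolynomial ν ℂ ⧸ P₁)
    let L := AlgebraicClosure E
    have hL4 := height_add_trdeg (k := ℂ) P₁
    let φ : MvPolynomial ν ℂ →ₐ[ℂ] L :=
      ((IsScalarTower.toAlgHom ℂ E L).comp
        (IsScalarTower.toAlgHom ℂ (MvPolynomial ν ℂ ⧸ P₁) E)).comp (Ideal.Quotient.mkₐ ℂ P₁)
    have hφ0 : ∀ F, φ F = 0 ↔ F ∈ P₁ := by
      intro F
      rw [← Ideal.Quotient.eq_zero_iff_mem]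
      constructor
      · intro h
        apply IsFractionRing.injective (MvPolynomial ν ℂ ⧸ P₁) E
        apply (algebraMap E L).injective
        rw [map_zero, map_zero]
        exact h
      · intro h
        change algebraMap E L (algebraMap (MvPolynomial ν ℂ ⧸ P₁) E (Ideal.Quotient.mk P₁ F)) = 0
        rw [h, map_zero, map_zero]
    have hφa : ∀ F, φ F = aeval (fun i => φ (X i)) F := by
      intro F
      have : φ = aeval (fun i => φ (X i)) := by
        apply MvPolynomial.algHom_ext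
        intro i
        rw [aeval_X]
      exact congrArg (fun ψ : MvPolynomial ν ℂ →ₐ[ℂ] L => ψ F) this
    have hchar : CharZero L := charZero_of_injective_algebraMap (algebraMap ℂ L).injective
    have hval' : ∀ (y : ν → ℂ) (F : MvPolynomial ν ℂ),
        aeval (fun i => algebraMap ℂ L (y i)) F = algebraMap ℂ L (eval y F) := by
      intro y F
      have h := MvPolynomial.aeval_algebraMap_apply L y F
      have h2 : aeval y F = eval y F :=
        congrArg (fun ψ : MvPolynomial ν ℂ →+* ℂ => ψ F) (coe_aeval_eq_eval y)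
      rw [h2] at h
      exact h
    have hval : ∀ F, aeval (fun i => algebraMap ℂ L (x₀ i)) F = algebraMap ℂ L (eval x₀ F) :=
      hval' x₀
    have hinv : ∀ a ∈ InvAlg K, aeval (fun i => algebraMap ℂ L (x₀ i)) a =
        aeval (fun i => φ (X i)) a := by
      intro a ha
      rw [hval, ← hφa]
      have h1 := (hφ0 _).2 (hP₁a a ha)
      rw [map_sub, sub_eq_zero, ← MvPolynomial.algebraMap_eq, AlgHom.commutes] at h1
      exact h1.symm
    have hb' : aeval (fun i => algebraMap ℂ L (x₀ i)) (b : MvPolynomial ν ℂ) ≠ 0 := by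
      rw [hval]
      intro h
      exact hx₀ ((algebraMap ℂ L).injective (by rw [h, map_zero]))
    have hC := orbIdeal_eq K hmax hstab L _ _ hinv b hb hb'
    have hsub : orbIdeal K ℂ x₀ ≤ P₁ := by
      intro F hF
      have h1 : map (algebraMap ℂ L) F ∈ orbIdeal K L (fun i => algebraMap ℂ L (x₀ i)) := by
        intro k hk
        have h2 := hF k hk
        have h3 : (kL L (k : Matrix ν ν ℂ)).mulVec (fun i => algebraMap ℂ L (x₀ i)) =
            fun i => algebraMap ℂ L ((kL ℂ (k : Matrix ν ν ℂ)).mulVec x₀ i) := by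
          funext i
          simp only [Matrix.mulVec, dotProduct, kL, Matrix.map_apply, map_sum, map_mul]
          rfl
        rw [h3, eval_map, ← aeval_def, hval', h2, map_zero]
      rw [hC] at h1
      have h4 := h1 1 K.one_mem
      have h5 : ((1 : Matrix.unitaryGroup ν ℂ) : Matrix ν ν ℂ) = 1 := rfl
      rw [h5, f5_kL_one, Matrix.one_mulVec, eval_map, ← aeval_def, ← hφa, hφ0] at h4
      exact h4
    obtain ⟨P, hP, hPP₁⟩ := Ideal.exists_minimalPrimes_le hsub
    have hPp : P.IsPrime := hP.1.1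
    have h7 := trdeg_orbit_le K ℂ x₀ P hP
    have h8 : Algebra.trdeg ℂ (MvPolynomial ν ℂ ⧸ P₁) ≤ Algebra.trdeg ℂ (MvPolynomial ν ℂ ⧸ P) :=
      trdeg_le_of_surjective (Ideal.Quotient.factorₐ ℂ hPP₁) (Ideal.Quotient.factor_surjective hPP₁)
    have h9 := h8.trans h7
    rw [MvPolynomial.trdeg_of_isDomain, Cardinal.lift_id, Cardinal.mk_fintype,
      Cardinal.toENat_nat] at hL4
    have h10 : Cardinal.toENat (Algebra.trdeg ℂ (MvPolynomial ν ℂ ⧸ P₁)) ≤
        ((Module.finrank ℂ (gg (InvAlg K)) : ℕ) : ℕ∞) := by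
      rw [Cardinal.toENat_le_natCast]
      exact h9
    have h11 : ((Fintype.card ν : ℕ) : ℕ∞) ≤ (d : ℕ∞) + (Module.finrank ℂ (gg (InvAlg K)) : ℕ) := by
      rw [← hL4]
      exact add_le_add hht h10
    have h12 : Fintype.card ν ≤ d + Module.finrank ℂ (gg (InvAlg K)) := by exact_mod_cast h11
    omega

end H50.Z
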