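import Pool.Agent.H50.Z.F2_Strat

/-! (8) The matrix `M(x)` of linear vector fields, its rank at primes. -/

open MvPolynomial H50.DO

set_option linter.unusedSectionVars false

namespace H50.Z

variable {ν : Type} [Fintype ν] [DecidableEq ν]

/-- `c = N - d` linear vector fields killing `A`, independent over the good locus -/
structure Setup (A : Subalgebra ℂ (MvPolynomial ν ℂ)) (d c : ℕ) (M : Fin c → Matrix ν ν ℂ) :
    Prop where
  kill : ∀ j, ∀ a ∈ A, lv (M j) a = 0
  card : c + d = Fintype.card ν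
  indep : ∀ x, Gd A d x → LinearIndependent ℂ fun j => (M j).mulVec x

/-- `S → κ(P)` -/
noncomputable def kapHom (P : Ideal (MvPolynomial ν ℂ)) :
    MvPolynomial ν ℂ →+* FractionRing (MvPolynomial ν ℂ ⧸ P) :=
  (algebraMap _ _).comp (Ideal.Quotient.mk P)

/-- the matrix `M(x)` with columns `M_j x` -/
noncomputable def Mx {c : ℕ} (M : Fin c → Matrix ν ν ℂ) : Matrix ν (Fin c) (MvPolynomial ν ℂ) :=
  Matrix.of fun i j => ∑ l, C (M j i l) * X l

/-- the rank of `M(x)` modulo `P` -/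
noncomputable def rk {c : ℕ} (M : Fin c → Matrix ν ν ℂ) (P : Ideal (MvPolynomial ν ℂ)) [P.IsPrime] : ℕ :=
  ((Mx M).map (kapHom P)).rank

theorem rk_le {c : ℕ} (M : Fin c → Matrix ν ν ℂ) (P : Ideal (MvPolynomial ν ℂ)) [P.IsPrime] :
    rk M P ≤ c := by
  have h := Matrix.rank_le_card_width ((Mx M).map (kapHom P))
  rwa [Fintype.card_fin] at h

/-- some power of a good `b` is a combination of the `c × c` minors of `M(x)` -/
theorem pow_mem_minors {A : Subalgebra ℂ (MvPolynomial ν ℂ)} {d c : ℕ} {M : Fin c → Matrix ν ν ℂ}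
    (hM : Setup A d c M) (b : A) (hb : IsGood A d b) :
    ∃ m : ℕ, (b : MvPolynomial ν ℂ) ^ m ∈ Ideal.span (Set.range fun e : Fin c → ν =>
      ((Mx M).submatrix e id).det) := by
  classical
  set J : Ideal (MvPolynomial ν ℂ) := Ideal.span (Set.range fun e : Fin c → ν =>
      ((Mx M).submatrix e id).det) with hJ
  have h1 : (b : MvPolynomial ν ℂ) ∈ J.radical := by
    rw [← vanishingIdeal_zeroLocus_eq_radical (K := ℂ)]
    intro x hx
    by_contra hb0
    have hb1 : eval x (b : MvPolynomial ν ℂ) ≠ 0 := hb0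
    obtain ⟨e, he⟩ := exists_minor_ne_zero _ (hM.indep x ⟨b, hb, hb1⟩)
    apply he
    have h2 : ((Mx M).submatrix e id).det ∈ J := Ideal.subset_span ⟨e, rfl⟩
    have h3 : eval x ((Mx M).submatrix e id).det = 0 := hx _ h2
    rw [RingHom.map_det] at h3
    rw [← h3, ← Matrix.det_transpose]
    congr 1
    ext l j
    simp [Mx, Matrix.mulVec, dotProduct]
  exact h1

/-- full rank at primes not containing some good element -/
theorem rk_eq_of_good {A : Subalgebra ℂ (MvPolynomial ν ℂ)} {d c : ℕ} {M : Fin c → Matrix ν ν ℂ}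
    (hM : Setup A d c M) (b : A) (hb : IsGood A d b) (P : Ideal (MvPolynomial ν ℂ)) [P.IsPrime]
    (hP : (b : MvPolynomial ν ℂ) ∉ P) : rk M P = c := by
  classical
  apply le_antisymm (rk_le M P)
  obtain ⟨m, hm⟩ := pow_mem_minors hM b hb
  have hbm : (b : MvPolynomial ν ℂ) ^ m ∉ P := fun h => hP (Ideal.IsPrime.mem_of_pow_mem ‹_› m h)
  obtain ⟨e, he⟩ : ∃ e : Fin c → ν, ((Mx M).submatrix e id).det ∉ P := by
    by_contra hc
    push Not at hc
    apply hbm
    refine (Ideal.span_le.2 ?_) hm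
    rintro _ ⟨e, rfl⟩
    exact hc e
  have h1 : (((Mx M).map (kapHom P)).submatrix e id).det ≠ 0 := by
    have h2 : (((Mx M).map (kapHom P)).submatrix e id).det =
        kapHom P ((Mx M).submatrix e id).det := by
      rw [RingHom.map_det]
      rfl
    rw [h2]
    intro h3
    apply he
    unfold kapHom at h3
    rw [RingHom.comp_apply, FaithfulSMul.algebraMap_eq_zero_iff] at h3
    exact Ideal.Quotient.eq_zero_iff_mem.1 h3
  have h4 := Matrix.rank_submatrix_le ((Mx M).map (kapHom P)) e id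
  rw [Matrix.rank_of_det_ne_zero h1, Fintype.card_fin] at h4
  exact h4

/-- `P` is bad -/
def Bad {c : ℕ} (M : Fin c → Matrix ν ν ℂ) (P : Ideal (MvPolynomial ν ℂ)) [P.IsPrime] : Prop :=
  rk M P < c ∧ P.height + (rk M P : ℕ∞) ≤ (c : ℕ∞)

/-- `O → κ(P)[ξ]` -/
noncomputable def toFib (P : Ideal (MvPolynomial ν ℂ)) :
    MvPolynomial (ν ⊕ ν) ℂ →+* MvPolynomial ν (FractionRing (MvPolynomial ν ℂ ⧸ P)) :=
  eval₂Hom (C.comp ((kapHom P).comp C)) (Sum.elim (fun i => C (kapHom P (X i))) X)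

end H50.Z
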