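import Pool.Agent.H50.Z.H0_Setup
import Pool.Agent.H50.Z.Z2_Struct

/-! (E1) After inverting a good element `I_Z` is generated by the `mu_j`. -/

open MvPolynomial H50.DO

set_option linter.unusedSectionVars false

namespace H50.Z

variable {ν : Type} [Fintype ν] [DecidableEq ν]

namespace H0b

/-- left inverses from maximal minors -/
lemma exists_left_inv {R : Type*} [CommRing R] {c : ℕ} (T : Matrix ν (Fin c) R) (s : R)
    (hs : s ∈ Ideal.span (Set.range fun e : Fin c → ν => (T.submatrix e id).det)) :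
    ∃ L : Matrix (Fin c) ν R, L * T = s • (1 : Matrix (Fin c) (Fin c) R) := by
  induction hs using Submodule.span_induction with
  | mem x hx =>
    obtain ⟨e, rfl⟩ := hx
    refine ⟨(T.submatrix e id).adjugate *
      Matrix.of (fun (l : Fin c) (i : ν) => if i = e l then (1 : R) else 0), ?_⟩
    have h1 : (Matrix.of fun (l : Fin c) (i : ν) => if i = e l then (1 : R) else 0) * T =
        T.submatrix e id := by
      ext l j
      rw [Matrix.mul_apply]
      simp
    rw [Matrix.mul_assoc, h1, Matrix.adjugate_mul]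
  | zero => exact ⟨0, by rw [Matrix.zero_mul, zero_smul]⟩
  | add x y _ _ hx hy =>
    obtain ⟨L, hL⟩ := hx
    obtain ⟨L', hL'⟩ := hy
    exact ⟨L + L', by rw [Matrix.add_mul, hL, hL', add_smul]⟩
  | smul r x _ hx =>
    obtain ⟨L, hL⟩ := hx
    exact ⟨r • L, by rw [Matrix.smul_mul, hL, smul_smul, smul_eq_mul]⟩

/-- exactness over a field -/
lemma exact_field {K : Type*} [Field K] {c d : ℕ} (P : Matrix ν (Fin c) K)
    (Q : Matrix ν (Fin d) K) (L₁ : Matrix (Fin c) ν K) (L₂ : Matrix (Fin d) ν K) (s t : K)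
    (hs : s ≠ 0) (ht : t ≠ 0) (h1 : L₁ * P = s • (1 : Matrix (Fin c) (Fin c) K))
    (h2 : L₂ * Q = t • (1 : Matrix (Fin d) (Fin d) K)) (h3 : P.transpose * Q = 0)
    (hc : c + d = Fintype.card ν) (v : ν → K) (hv : P.transpose.mulVec v = 0) :
    t • v = Q.mulVec (L₂.mulVec v) := by
  have h1' : P.transpose * L₁.transpose = s • (1 : Matrix (Fin c) (Fin c) K) := by
    rw [← Matrix.transpose_mul, h1, Matrix.transpose_smul, Matrix.transpose_one]
  let T : ((Fin c → K) × (Fin d → K)) →ₗ[K] (ν → K) :=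
    L₁.transpose.mulVecLin.coprod Q.mulVecLin
  have hT : ∀ w, T w = L₁.transpose.mulVec w.1 + Q.mulVec w.2 := fun w => rfl
  have hPT : ∀ w, P.transpose.mulVec (T w) = s • w.1 := by
    intro w
    rw [hT, Matrix.mulVec_add, Matrix.mulVec_mulVec, Matrix.mulVec_mulVec, h1', h3,
      Matrix.zero_mulVec, add_zero, Matrix.smul_mulVec, Matrix.one_mulVec]
  have hker : ∀ w, P.transpose.mulVec (T w) = 0 → w.1 = 0 := by
    intro w hw
    rw [hPT] at hw
    exact (smul_eq_zero.1 hw).resolve_left hs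
  have hLQ : ∀ u, L₂.mulVec (Q.mulVec u) = t • u := by
    intro u
    rw [Matrix.mulVec_mulVec, h2, Matrix.smul_mulVec, Matrix.one_mulVec]
  have hinj : Function.Injective T := by
    rw [← LinearMap.ker_eq_bot, eq_bot_iff]
    intro w hw
    rw [LinearMap.mem_ker] at hw
    have h4 : w.1 = 0 := hker w (by rw [hw, Matrix.mulVec_zero])
    have h5 : w.2 = 0 := by
      have h6 := hT w
      rw [hw, h4, Matrix.mulVec_zero, zero_add] at h6
      have h7 := hLQ w.2
      rw [← h6, Matrix.mulVec_zero] at h7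
      exact (smul_eq_zero.1 h7.symm).resolve_left ht
    exact Prod.ext h4 h5
  have hsurj : Function.Surjective T := by
    rw [← LinearMap.injective_iff_surjective_of_finrank_eq_finrank]
    · exact hinj
    · rw [Module.finrank_prod, Module.finrank_fin_fun, Module.finrank_fin_fun,
        Module.finrank_fintype_fun_eq_card, hc]
  obtain ⟨w, rfl⟩ := hsurj v
  have h4 := hker w hv
  rw [hT, h4, Matrix.mulVec_zero, zero_add, hLQ, Matrix.mulVec_smul]

/-- exactness over a domain -/
lemma exact_domain {R : Type*} [CommRing R] [IsDomain R] {c d : ℕ} (P : Matrix ν (Fin c) R)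
    (Q : Matrix ν (Fin d) R) (L₁ : Matrix (Fin c) ν R) (L₂ : Matrix (Fin d) ν R) (s t : R)
    (hs : s ≠ 0) (ht : t ≠ 0) (h1 : L₁ * P = s • (1 : Matrix (Fin c) (Fin c) R))
    (h2 : L₂ * Q = t • (1 : Matrix (Fin d) (Fin d) R)) (h3 : P.transpose * Q = 0)
    (hc : c + d = Fintype.card ν) (v : ν → R) (hv : P.transpose.mulVec v = 0) :
    t • v = Q.mulVec (L₂.mulVec v) := by
  let K := FractionRing R
  let φ : R →+* K := algebraMap R K
  have hφ : Function.Injective φ := IsFractionRing.injective R K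
  have hsm : ∀ (n : ℕ) (r : R), (r • (1 : Matrix (Fin n) (Fin n) R)).map φ =
      φ r • (1 : Matrix (Fin n) (Fin n) K) := by
    intro n r
    ext i j
    simp [Matrix.map_apply, Matrix.smul_apply, Matrix.one_apply, apply_ite φ]
  have key := exact_field (P.map φ) (Q.map φ) (L₁.map φ) (L₂.map φ) (φ s) (φ t)
    ((map_ne_zero_iff φ hφ).2 hs) ((map_ne_zero_iff φ hφ).2 ht)
    (by rw [← Matrix.map_mul, h1, hsm]) (by rw [← Matrix.map_mul, h2, hsm])
    (by rw [← Matrix.transpose_map, ← Matrix.map_mul, h3, Matrix.map_zero _ (map_zero φ)])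
    hc (fun i => φ (v i)) (by
      funext j
      have := congrArg φ (congrFun hv j)
      rw [Pi.zero_apply, map_zero] at this
      rw [Pi.zero_apply, ← this]
      simp [Matrix.mulVec, dotProduct, map_sum, map_mul])
  funext i
  apply hφ
  have h5 := congrFun key i
  simp only [Matrix.mulVec, dotProduct, Pi.smul_apply, smul_eq_mul, Matrix.map_apply,
    map_sum, map_mul] at h5 ⊢
  exact h5

end H0b

/-- (E1) after inverting a good element `I_Z` is generated by the `mu_j` -/
theorem pow_mul_mem_span {A : Subalgebra ℂ (MvPolynomial ν ℂ)} {d c : ℕ}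
    {M : Fin c → Matrix ν ν ℂ} (hM : Setup A d c M) (hS : Surj A) (b : A) (hb : IsGood A d b)
    (F : MvPolynomial (ν ⊕ ν) ℂ) (hF : F ∈ IZ A) :
    ∃ m : ℕ, inS (b : MvPolynomial ν ℂ) ^ m * F ∈ Ideal.span (Set.range fun j => muX (M j)) := by
  classical
  obtain ⟨m, hm⟩ := pow_mem_minors hM b hb
  obtain ⟨a, D, hg⟩ := hb
  obtain ⟨m', hm'⟩ := t1' A hS hg
  have hb0 : (b : MvPolynomial ν ℂ) ≠ 0 := fun h0 => hg.1 (Subtype.ext h0)
  let J : Matrix ν (Fin d) (MvPolynomial ν ℂ) :=
    Matrix.of fun i l => pderiv i ((a l : A) : MvPolynomial ν ℂ)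
  obtain ⟨L₁, hL₁⟩ := H0b.exists_left_inv (Mx M) _ hm
  obtain ⟨L₂, hL₂⟩ := H0b.exists_left_inv J ((b : MvPolynomial ν ℂ) ^ m') (by
    refine Ideal.span_le.2 ?_ hm'
    rintro _ ⟨e, rfl⟩
    refine Ideal.subset_span ⟨e, ?_⟩
    change (J.submatrix e id).det = _
    rw [← Matrix.det_transpose]
    rfl)
  -- everything over `O`
  let φ : MvPolynomial ν ℂ →+* MvPolynomial (ν ⊕ ν) ℂ :=
    (inS : MvPolynomial ν ℂ →ₐ[ℂ] MvPolynomial (ν ⊕ ν) ℂ).toRingHom
  have hφ : ∀ g, φ g = inS g := fun g => rfl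
  have hinj : Function.Injective φ := rename_injective _ Sum.inl_injective
  set B : MvPolynomial (ν ⊕ ν) ℂ := inS (b : MvPolynomial ν ℂ) with hB
  have hB0 : B ≠ 0 := (map_ne_zero_iff φ hinj).2 hb0
  let ξ : ν → MvPolynomial (ν ⊕ ν) ℂ := fun i => X (Sum.inr i)
  let x : ν → MvPolynomial (ν ⊕ ν) ℂ := fun i => X (Sum.inl i)
  have hsm : ∀ (n : ℕ) (r : MvPolynomial ν ℂ),
      (r • (1 : Matrix (Fin n) (Fin n) (MvPolynomial ν ℂ))).map φ =
      φ r • (1 : Matrix (Fin n) (Fin n) (MvPolynomial (ν ⊕ ν) ℂ)) := by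
    intro n r
    ext i j
    simp [Matrix.map_apply, Matrix.smul_apply, Matrix.one_apply, apply_ite φ]
  have e1 : L₁.map φ * (Mx M).map φ = B ^ m • (1 : Matrix (Fin c) (Fin c) _) := by
    rw [← Matrix.map_mul, hL₁, hsm, map_pow, hφ]
  have e2 : L₂.map φ * J.map φ = B ^ m' • (1 : Matrix (Fin d) (Fin d) _) := by
    rw [← Matrix.map_mul, hL₂, hsm, map_pow, hφ]
  have e3 : ((Mx M).map φ).transpose * J.map φ = 0 := by
    have h0 : (Mx M).transpose * J = 0 := by
      ext1 j l
      rw [Matrix.mul_apply, Matrix.zero_apply, ← hM.kill j _ (a l).2, lv_apply]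
      rfl
    rw [← Matrix.transpose_map, ← Matrix.map_mul, h0, Matrix.map_zero _ (map_zero φ)]
  set I : Ideal (MvPolynomial (ν ⊕ ν) ℂ) := Ideal.span (Set.range fun j => muX (M j)) with hI
  have hmu : ∀ j, ((Mx M).map φ).transpose.mulVec ξ j = muX (M j) := by
    intro j
    unfold muX
    simp only [Matrix.mulVec, dotProduct, Matrix.transpose_apply, Matrix.map_apply, Mx,
      Matrix.of_apply, hφ, map_sum, map_mul, Finset.sum_mul]
    refine Finset.sum_congr rfl fun i _ => Finset.sum_congr rfl fun k _ => ?_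
    simp [inS, ξ]
  -- the vector in the kernel
  let ξ' : ν → MvPolynomial (ν ⊕ ν) ℂ :=
    B ^ m • ξ - (L₁.map φ).transpose.mulVec (((Mx M).map φ).transpose.mulVec ξ)
  have hξ' : ((Mx M).map φ).transpose.mulVec ξ' = 0 := by
    have h1' : ((Mx M).map φ).transpose * (L₁.map φ).transpose =
        B ^ m • (1 : Matrix (Fin c) (Fin c) (MvPolynomial (ν ⊕ ν) ℂ)) := by
      rw [← Matrix.transpose_mul, e1, Matrix.transpose_smul, Matrix.transpose_one]
    change ((Mx M).map φ).transpose.mulVec (B ^ m • ξ -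
      (L₁.map φ).transpose.mulVec (((Mx M).map φ).transpose.mulVec ξ)) = 0
    rw [Matrix.mulVec_sub, Matrix.mulVec_smul, Matrix.mulVec_mulVec, h1', Matrix.smul_mulVec,
      Matrix.one_mulVec, sub_self]
  have hex := H0b.exact_domain ((Mx M).map φ) (J.map φ) (L₁.map φ) (L₂.map φ) (B ^ m) (B ^ m')
    (pow_ne_zero _ hB0) (pow_ne_zero _ hB0) e1 e2 e3 hM.card ξ' hξ'
  set t : Fin d → MvPolynomial (ν ⊕ ν) ℂ := (L₂.map φ).mulVec ξ' with ht
  have hx : ∀ g : MvPolynomial ν ℂ, aeval x g = inS g := by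
    intro g
    have h0 : (aeval x : MvPolynomial ν ℂ →ₐ[ℂ] MvPolynomial (ν ⊕ ν) ℂ) = inS := by
      apply MvPolynomial.algHom_ext
      intro i
      rw [aeval_X, inS, rename_X]
    rw [h0]
  have hzero : ∀ G ∈ IZ A, aeval (Sum.elim x ((J.map φ).mulVec t)) G = 0 := by
    intro G hG
    have h1 := isZ_of_comb A (L := MvPolynomial (ν ⊕ ν) ℂ) a t x G hG
    have h2 : (J.map φ).mulVec t =
        fun i => ∑ j, t j * aeval x (pderiv i ((a j : A) : MvPolynomial ν ℂ)) := by
      funext i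
      simp only [Matrix.mulVec, dotProduct, Matrix.map_apply]
      refine Finset.sum_congr rfl fun j _ => ?_
      rw [mul_comm, hx]
      rfl
    rw [h2]
    exact h1
  -- congruence of substitutions
  have hcong : ∀ G : MvPolynomial (ν ⊕ ν) ℂ, G ∈ IZ A →
      aeval (Sum.elim x fun i => B ^ (m + m') * ξ i) G ∈ I := by
    intro G hG
    rw [← Ideal.Quotient.eq_zero_iff_mem]
    have h1 : ∀ y : ν → MvPolynomial (ν ⊕ ν) ℂ, Ideal.Quotient.mk I (aeval (Sum.elim x y) G) =
        aeval (Sum.elim (fun i => Ideal.Quotient.mk I (x i)) fun i => Ideal.Quotient.mk I (y i))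
          G := by
      intro y
      have h2 := (comp_aeval_apply (Sum.elim x y) (Ideal.Quotient.mkₐ ℂ I) G)
      rw [Ideal.Quotient.mkₐ_eq_mk] at h2
      rw [h2]
      congr 2
      funext i
      rcases i with i | i <;> rfl
    have h3 : ∀ i, Ideal.Quotient.mk I (B ^ (m + m') * ξ i) =
        Ideal.Quotient.mk I ((J.map φ).mulVec t i) := by
      intro i
      rw [Ideal.Quotient.eq, ← congrFun hex i]
      have h4 : B ^ (m + m') * ξ i - (B ^ m' • ξ') i =
          B ^ m' * (L₁.map φ).transpose.mulVec (((Mx M).map φ).transpose.mulVec ξ) i := by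
        change B ^ (m + m') * ξ i - B ^ m' * (B ^ m * ξ i -
          (L₁.map φ).transpose.mulVec (((Mx M).map φ).transpose.mulVec ξ) i) = _
        rw [pow_add]
        ring
      rw [h4]
      refine I.mul_mem_left _ ?_
      rw [Matrix.mulVec, dotProduct]
      refine I.sum_mem fun j _ => I.mul_mem_left _ ?_
      rw [hmu j]
      exact Ideal.subset_span ⟨j, rfl⟩
    rw [h1, funext h3, ← h1, hzero G hG, map_zero]
  obtain ⟨S, hSF⟩ := Z2.exists_sum_components F
  refine ⟨(m + m') * S.sup id, ?_⟩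
  have hsum : B ^ ((m + m') * S.sup id) * F =
      ∑ k ∈ S, B ^ ((m + m') * S.sup id) * weightedHomogeneousComponent wxi k F := by
    rw [← Finset.mul_sum, ← hSF]
  rw [hsum]
  refine I.sum_mem fun k hk => ?_
  have hid : aeval (Sum.elim x ξ) (weightedHomogeneousComponent wxi k F) =
      weightedHomogeneousComponent wxi k F := by
    have : Sum.elim x ξ = (X : ν ⊕ ν → MvPolynomial (ν ⊕ ν) ℂ) := by
      funext i
      rcases i with i | i <;> rfl
    rw [this, aeval_X_left_apply]
  have h5 := hcong _ (IZ_component A F hF k)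
  rw [Z2.aeval_scale x ξ _ _ k (weightedHomogeneousComponent_isWeightedHomogeneous k F), hid,
    ← pow_mul] at h5
  have h6 : k ≤ S.sup id := Finset.le_sup (f := id) hk
  obtain ⟨r, hr⟩ := Nat.exists_eq_add_of_le h6
  rw [hr, mul_add, add_comm, pow_add, mul_assoc]
  exact I.mul_mem_left _ h5

end H50.Z
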