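import Pool.Agent.H50.Z.H0b_Span
import Pool.Agent.H50.Z.L4_Dim

/-! (H1) Heights of primes containing the `mu_j`. -/

open MvPolynomial H50.DO

set_option linter.unusedSectionVars false

namespace H50.Z

variable {ν : Type} [Fintype ν] [DecidableEq ν]

namespace H1

/-- domains with the same fraction field have the same transcendence degree -/
lemma trdeg_eq_of_frac {k A B : Type} [Field k] [CommRing A] [IsDomain A] [CommRing B] [IsDomain B]
    [Algebra k A] [Algebra k B] (φ : A →ₐ[k] B) (hφ : Function.Injective φ)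
    (h : ∀ y : B, ∃ s : A, s ≠ 0 ∧ ∃ r : A, φ s * y = φ r) :
    Algebra.trdeg k A = Algebra.trdeg k B := by
  let _ : Algebra A B := φ.toRingHom.toAlgebra
  have hst : IsScalarTower k A B := IsScalarTower.of_algebraMap_eq fun x => (φ.commutes x).symm
  have hfs : FaithfulSMul A B := (faithfulSMul_iff_algebraMap_injective _ _).2 hφ
  have hfk : FaithfulSMul k A := inferInstance
  have halg : Algebra.IsAlgebraic A B := by
    constructor
    intro y
    obtain ⟨s, hs, r, hr⟩ := h y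
    refine ⟨Polynomial.C s * Polynomial.X - Polynomial.C r, ?_, ?_⟩
    · intro h0
      apply hs
      have := congrArg (fun p => Polynomial.coeff p 1) h0
      simpa [Polynomial.coeff_C] using this
    · have e : (algebraMap A B) = φ.toRingHom := rfl
      simp only [map_sub, map_mul, Polynomial.aeval_C, Polynomial.aeval_X, e]
      exact sub_eq_zero.2 hr
  rw [← trdeg_add_eq k A (A := B)]
  rw [trdeg_eq_zero (R := A) (A := B), add_zero]

variable (P : Ideal (MvPolynomial ν ℂ)) [P.IsPrime]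

lemma kapHom_eq_zero (s : MvPolynomial ν ℂ) : kapHom P s = 0 ↔ s ∈ P := by
  rw [kapHom, RingHom.comp_apply, ← Ideal.Quotient.eq_zero_iff_mem]
  exact IsFractionRing.to_map_eq_zero_iff

lemma toFib_inS (s : MvPolynomial ν ℂ) : toFib P (inS s) = C (kapHom P s) := by
  have h : (toFib P).comp ((inS : MvPolynomial ν ℂ →ₐ[ℂ] _) : MvPolynomial ν ℂ →+* _) =
      (C : _ →+* MvPolynomial ν (FractionRing (MvPolynomial ν ℂ ⧸ P))).comp (kapHom P) := by
    apply MvPolynomial.ringHom_ext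
    · intro r
      simp [toFib, inS]
    · intro i
      simp [toFib, inS]
  exact congrArg (fun g : MvPolynomial ν ℂ →+* _ => g s) h

lemma toFib_inr (i : ν) : toFib P (X (Sum.inr i)) = X i := by
  simp [toFib]

lemma toFib_inl (i : ν) : toFib P (X (Sum.inl i)) = C (kapHom P (X i)) := by
  simp [toFib]

lemma toFib_C (r : ℂ) : toFib P (C r) = C (kapHom P (C r)) := by
  simp [toFib]

/-- clearing denominators -/
lemma exists_den (G : MvPolynomial ν (FractionRing (MvPolynomial ν ℂ ⧸ P))) :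
    ∃ s : MvPolynomial ν ℂ, s ∉ P ∧ ∃ F, toFib P (inS s) * G = toFib P F := by
  induction G using MvPolynomial.induction_on with
  | C a =>
    obtain ⟨x, y, hy, rfl⟩ := IsFractionRing.div_surjective (A := MvPolynomial ν ℂ ⧸ P) a
    obtain ⟨x, rfl⟩ := Ideal.Quotient.mk_surjective x
    obtain ⟨y, rfl⟩ := Ideal.Quotient.mk_surjective y
    have hy0 : kapHom P y ≠ 0 := by
      rw [kapHom, RingHom.comp_apply]
      exact IsFractionRing.to_map_ne_zero_of_mem_nonZeroDivisors hy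
    refine ⟨y, ?_, inS x, ?_⟩
    · rw [← kapHom_eq_zero]
      exact hy0
    · rw [toFib_inS, toFib_inS, ← C_mul]
      congr 1
      have e1 : algebraMap (MvPolynomial ν ℂ ⧸ P) (FractionRing (MvPolynomial ν ℂ ⧸ P))
        (Ideal.Quotient.mk P x) = kapHom P x := rfl
      have e2 : algebraMap (MvPolynomial ν ℂ ⧸ P) (FractionRing (MvPolynomial ν ℂ ⧸ P))
        (Ideal.Quotient.mk P y) = kapHom P y := rfl
      rw [e1, e2, mul_div_cancel₀ _ hy0]
  | add p q hp hq =>
    obtain ⟨s, hs, F, hF⟩ := hp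
    obtain ⟨t, ht, G, hG⟩ := hq
    refine ⟨s * t, ?_, inS t * F + inS s * G, ?_⟩
    · intro h
      rcases Ideal.IsPrime.mem_or_mem inferInstance h with h | h
      · exact hs h
      · exact ht h
    · rw [map_add, map_mul, map_mul, map_mul, map_mul, ← hF, ← hG]
      ring
  | mul_X p i hp =>
    obtain ⟨s, hs, F, hF⟩ := hp
    refine ⟨s, hs, F * X (Sum.inr i), ?_⟩
    rw [map_mul (toFib P) F, toFib_inr, ← mul_assoc, hF]

/-- `toFib P` as an algebra map -/
noncomputable def toFibₐ : MvPolynomial (ν ⊕ ν) ℂ →ₐ[ℂ]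
    MvPolynomial ν (FractionRing (MvPolynomial ν ℂ ⧸ P)) :=
  { toFib P with
    commutes' := by
      intro r
      have h := toFib_C P r
      rw [MvPolynomial.algebraMap_eq]
      refine h.trans ?_
      rw [IsScalarTower.algebraMap_apply ℂ (FractionRing (MvPolynomial ν ℂ ⧸ P))
        (MvPolynomial ν (FractionRing (MvPolynomial ν ℂ ⧸ P))), MvPolynomial.algebraMap_eq,
        IsScalarTower.algebraMap_apply ℂ (MvPolynomial ν ℂ ⧸ P)
        (FractionRing (MvPolynomial ν ℂ ⧸ P))]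
      rfl }

/-- a prime containing linear forms of rank `r` -/
lemma trdeg_linear {F : Type} [Field F] {c : ℕ} (A : Matrix ν (Fin c) F)
    (Q : Ideal (MvPolynomial ν F)) [Q.IsPrime] (hQ : ∀ j, (∑ i, C (A i j) * X i) ∈ Q) :
    Algebra.trdeg F (MvPolynomial ν F ⧸ Q) + (A.rank : Cardinal) ≤ (Fintype.card ν : Cardinal) := by
  let T : (ν → F) →ₗ[F] (MvPolynomial ν F ⧸ Q) :=
    ∑ i, (LinearMap.proj i).smulRight (Ideal.Quotient.mk Q (X i))
  have hT : ∀ w : ν → F, T w = Ideal.Quotient.mk Q (∑ i, C (w i) * X i) := by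
    intro w
    simp only [T, LinearMap.sum_apply, LinearMap.smulRight_apply, LinearMap.proj_apply, map_sum,
      map_mul]
    apply Finset.sum_congr rfl
    intro i _
    exact Algebra.smul_def (w i) (Ideal.Quotient.mk Q (X i))
  have hker : LinearMap.range A.mulVecLin ≤ LinearMap.ker T := by
    rintro _ ⟨w, rfl⟩
    rw [LinearMap.mem_ker, hT, Ideal.Quotient.eq_zero_iff_mem]
    have e : (∑ i, C (A.mulVecLin w i) * X i : MvPolynomial ν F) =
        ∑ j, C (w j) * ∑ i, C (A i j) * X i := by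
      simp only [Matrix.mulVecLin_apply, Matrix.mulVec, dotProduct, map_sum, map_mul,
        Finset.sum_mul, Finset.mul_sum]
      rw [Finset.sum_comm]
      apply Finset.sum_congr rfl
      intro j _
      apply Finset.sum_congr rfl
      intro i _
      ring
    rw [e]
    exact Ideal.sum_mem _ fun j _ => Ideal.mul_mem_left _ _ (hQ j)
  have hr : A.rank + Module.finrank F (LinearMap.range T) ≤ Fintype.card ν := by
    have h1 := T.finrank_range_add_finrank_ker
    rw [Module.finrank_fintype_fun_eq_card] at h1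
    have h2 : A.rank ≤ Module.finrank F (LinearMap.ker T) := Submodule.finrank_mono hker
    omega
  let m := Module.finrank F (LinearMap.range T)
  let v : Module.Basis (Fin m) F (LinearMap.range T) := Module.finBasis F (LinearMap.range T)
  let φ : MvPolynomial (Fin m) F →ₐ[F] (MvPolynomial ν F ⧸ Q) :=
    aeval fun l => ((v l : LinearMap.range T) : MvPolynomial ν F ⧸ Q)
  have hran : ∀ y ∈ LinearMap.range T, y ∈ φ.range := by
    intro y hy
    have h3 : y = ∑ l, (v.repr ⟨y, hy⟩ l) • ((v l : LinearMap.range T) : MvPolynomial ν F ⧸ Q) := by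
      have := congrArg (Subtype.val) (v.sum_repr ⟨y, hy⟩)
      refine this.symm.trans ?_
      rw [Submodule.coe_sum]
      rfl
    rw [h3]
    refine Subalgebra.sum_mem _ fun l _ => Subalgebra.smul_mem _ ?_ _
    rw [AlgHom.mem_range]
    exact ⟨X l, aeval_X _ _⟩
  have hsurj : Function.Surjective φ := by
    intro y
    obtain ⟨G, rfl⟩ := Ideal.Quotient.mk_surjective y
    change Ideal.Quotient.mk Q G ∈ φ.range
    induction G using MvPolynomial.induction_on with
    | C a =>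
      rw [AlgHom.mem_range]
      exact ⟨C a, φ.commutes a⟩
    | add p q hp hq =>
      rw [map_add]
      exact Subalgebra.add_mem _ hp hq
    | mul_X p i hp =>
      rw [map_mul]
      refine Subalgebra.mul_mem _ hp (hran _ ⟨Pi.single i 1, ?_⟩)
      rw [hT]
      congr 1
      rw [Finset.sum_eq_single i]
      · simp
      · intro j _ hj
        simp [hj]
      · intro h
        exact absurd (Finset.mem_univ i) h
  have h4 := trdeg_le_of_surjective φ hsurj
  rw [MvPolynomial.trdeg_of_isDomain] at h4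
  have h5 : Algebra.trdeg F (MvPolynomial ν F ⧸ Q) ≤ (m : Cardinal) := by
    simpa using h4
  calc Algebra.trdeg F (MvPolynomial ν F ⧸ Q) + (A.rank : Cardinal)
      ≤ (m : Cardinal) + (A.rank : Cardinal) := by gcongr
    _ ≤ (Fintype.card ν : Cardinal) := by
        norm_cast
        omega

end H1

/-- transcendence degrees in the fibre over `P` -/
theorem trdeg_comap_toFib (P : Ideal (MvPolynomial ν ℂ)) [P.IsPrime]
    (Q : Ideal (MvPolynomial ν (FractionRing (MvPolynomial ν ℂ ⧸ P)))) [Q.IsPrime] :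
    Algebra.trdeg ℂ (MvPolynomial (ν ⊕ ν) ℂ ⧸ Q.comap (toFib P)) =
      Algebra.trdeg ℂ (MvPolynomial ν ℂ ⧸ P) +
        Algebra.trdeg (FractionRing (MvPolynomial ν ℂ ⧸ P))
          (MvPolynomial ν (FractionRing (MvPolynomial ν ℂ ⧸ P)) ⧸ Q) := by
  have h1 : Algebra.trdeg ℂ (MvPolynomial (ν ⊕ ν) ℂ ⧸ Q.comap (toFib P)) =
      Algebra.trdeg ℂ (MvPolynomial ν (FractionRing (MvPolynomial ν ℂ ⧸ P)) ⧸ Q) := by
    have hp : (Q.comap (toFib P)).IsPrime := inferInstance
    refine H1.trdeg_eq_of_frac (Ideal.quotientMapₐ Q (H1.toFibₐ P) (le_refl (Q.comap (toFib P))))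
      ?_ ?_
    · exact Ideal.quotientMap_injective' (H := le_refl (Q.comap (toFib P)))
        (le_refl (Q.comap (toFib P)))
    · intro y
      obtain ⟨G, rfl⟩ := Ideal.Quotient.mk_surjective y
      obtain ⟨s, hs, F, hF⟩ := H1.exists_den P G
      refine ⟨Ideal.Quotient.mk _ (inS s), ?_, Ideal.Quotient.mk _ F, ?_⟩
      · rw [Ne, Ideal.Quotient.eq_zero_iff_mem, Ideal.mem_comap, H1.toFib_inS]
        intro h
        refine Ideal.IsPrime.ne_top' (I := Q) (Ideal.eq_top_of_isUnit_mem _ h ?_)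
        refine IsUnit.map C (IsUnit.mk0 _ ?_)
        rw [Ne, H1.kapHom_eq_zero]
        exact hs
      · have e : ∀ G', Ideal.quotientMapₐ Q (H1.toFibₐ P) (le_refl (Q.comap (toFib P)))
            (Ideal.Quotient.mk _ G') = Ideal.Quotient.mk Q (toFib P G') := fun _ => rfl
        rw [e, e, ← map_mul, hF]
  have h2 := trdeg_add_eq ℂ (FractionRing (MvPolynomial ν ℂ ⧸ P))
    (A := MvPolynomial ν (FractionRing (MvPolynomial ν ℂ ⧸ P)) ⧸ Q)
  have h3 := trdeg_add_eq ℂ (MvPolynomial ν ℂ ⧸ P)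
    (A := FractionRing (MvPolynomial ν ℂ ⧸ P))
  have halg : Algebra.IsAlgebraic (MvPolynomial ν ℂ ⧸ P)
      (FractionRing (MvPolynomial ν ℂ ⧸ P)) :=
    IsLocalization.isAlgebraic (FractionRing (MvPolynomial ν ℂ ⧸ P))
      (nonZeroDivisors (MvPolynomial ν ℂ ⧸ P))
  rw [h1, ← h2, ← h3, trdeg_eq_zero (R := MvPolynomial ν ℂ ⧸ P)
    (A := FractionRing (MvPolynomial ν ℂ ⧸ P)), add_zero]


namespace H1

lemma toFib_muX (P : Ideal (MvPolynomial ν ℂ)) [P.IsPrime] {c : ℕ} (M : Fin c → Matrix ν ν ℂ)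
    (j : Fin c) : toFib P (muX (M j)) = ∑ i, C (((Mx M).map (kapHom P)) i j) * X i := by
  rw [muX, map_sum]
  apply Finset.sum_congr rfl
  intro i _
  rw [map_sum, Matrix.map_apply, Mx, Matrix.of_apply, map_sum, map_sum, Finset.sum_mul]
  apply Finset.sum_congr rfl
  intro l _
  rw [map_mul, map_mul, toFib_C, toFib_inl, toFib_inr, ← C_mul, ← map_mul]

/-- the fibre ideal of a prime of `O` over `P` -/
lemma exists_fib (N : Ideal (MvPolynomial (ν ⊕ ν) ℂ)) [N.IsPrime]
    (P : Ideal (MvPolynomial ν ℂ)) [P.IsPrime] (hP : N.comap (inS : MvPolynomial ν ℂ →ₐ[ℂ] _) = P) :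
    ∃ Q : Ideal (MvPolynomial ν (FractionRing (MvPolynomial ν ℂ ⧸ P))), Q.IsPrime ∧
      Q.comap (toFib P) = N := by
  let L := FractionRing (MvPolynomial (ν ⊕ ν) ℂ ⧸ N)
  let q : MvPolynomial (ν ⊕ ν) ℂ →+* L :=
    (algebraMap (MvPolynomial (ν ⊕ ν) ℂ ⧸ N) L).comp (Ideal.Quotient.mk N)
  have hq : ∀ F, q F = 0 ↔ F ∈ N := by
    intro F
    rw [← Ideal.Quotient.eq_zero_iff_mem]
    exact IsFractionRing.to_map_eq_zero_iff (R := MvPolynomial (ν ⊕ ν) ℂ ⧸ N) (K := L)
  let g0 : (MvPolynomial ν ℂ ⧸ P) →+* L :=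
    Ideal.Quotient.lift P (q.comp ((inS : MvPolynomial ν ℂ →ₐ[ℂ] _) : MvPolynomial ν ℂ →+* _))
      (fun a ha => by
        rw [← hP] at ha
        exact (hq _).2 ha)
  have hg0 : Function.Injective g0 := by
    rw [injective_iff_map_eq_zero]
    intro a ha
    obtain ⟨a, rfl⟩ := Ideal.Quotient.mk_surjective a
    rw [Ideal.Quotient.eq_zero_iff_mem, ← hP]
    exact (hq _).1 ha
  let g : FractionRing (MvPolynomial ν ℂ ⧸ P) →+* L := IsFractionRing.lift hg0
  let ψ : MvPolynomial ν (FractionRing (MvPolynomial ν ℂ ⧸ P)) →+* L :=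
    eval₂Hom g fun i => q (X (Sum.inr i))
  have hgk : ∀ s, g (kapHom P s) = q (inS s) := by
    intro s
    have : g (algebraMap _ _ (Ideal.Quotient.mk P s)) = g0 (Ideal.Quotient.mk P s) :=
      IsFractionRing.lift_algebraMap hg0 _
    exact this
  have hψ : ψ.comp (toFib P) = q := by
    apply MvPolynomial.ringHom_ext
    · intro r
      rw [RingHom.comp_apply, toFib_C]
      simp only [ψ, coe_eval₂Hom, eval₂_C]
      rw [hgk]
      simp [inS]
    · intro i
      rcases i with i | i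
      · rw [RingHom.comp_apply, toFib_inl]
        simp only [ψ, coe_eval₂Hom, eval₂_C]
        rw [hgk]
        simp [inS]
      · rw [RingHom.comp_apply, toFib_inr]
        simp only [ψ, coe_eval₂Hom, eval₂_X]
  refine ⟨RingHom.ker ψ, RingHom.ker_isPrime ψ, ?_⟩
  ext F
  rw [Ideal.mem_comap, RingHom.mem_ker, ← RingHom.comp_apply, hψ, hq]

lemma height_add_rk_le_aux {c : ℕ} (M : Fin c → Matrix ν ν ℂ)
    (N : Ideal (MvPolynomial (ν ⊕ ν) ℂ)) [N.IsPrime] (hN : ∀ j, muX (M j) ∈ N)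
    (P : Ideal (MvPolynomial ν ℂ)) [P.IsPrime] (hP : N.comap (inS : MvPolynomial ν ℂ →ₐ[ℂ] _) = P) :
    P.height + (rk M P : ℕ∞) ≤ N.height := by
  obtain ⟨Q, hQ, hQN⟩ := H1.exists_fib N P hP
  have h1 := trdeg_comap_toFib P Q
  have h2 := H1.trdeg_linear ((Mx M).map (kapHom P)) Q (fun j => by
    rw [← H1.toFib_muX P M j, ← Ideal.mem_comap, hQN]
    exact hN j)
  rw [hQN] at h1
  have h3 := height_add_trdeg (k := ℂ) N
  have h4 := height_add_trdeg (k := ℂ) P
  rw [MvPolynomial.trdeg_of_isDomain] at h3 h4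
  rw [h1, map_add] at h3
  have h5 : Cardinal.toENat (Algebra.trdeg ℂ (MvPolynomial ν ℂ ⧸ P)) ≠ ⊤ := by
    rw [Ne, Cardinal.toENat_eq_top, not_le]
    exact trdeg_lt_aleph0_of_finiteType
  have h6 : Cardinal.toENat (Algebra.trdeg (FractionRing (MvPolynomial ν ℂ ⧸ P))
      (MvPolynomial ν (FractionRing (MvPolynomial ν ℂ ⧸ P)) ⧸ Q)) ≠ ⊤ := by
    rw [Ne, Cardinal.toENat_eq_top, not_le]
    exact trdeg_lt_aleph0_of_finiteType
  have h7 : Cardinal.toENat (Algebra.trdeg (FractionRing (MvPolynomial ν ℂ ⧸ P))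
      (MvPolynomial ν (FractionRing (MvPolynomial ν ℂ ⧸ P)) ⧸ Q)) + (rk M P : ℕ∞) ≤
      (Fintype.card ν : ℕ∞) := by
    have := Cardinal.toENat.monotone' h2
    simpa [rk] using this
  simp only [Cardinal.mk_fintype, Fintype.card_sum, Cardinal.lift_natCast, map_natCast] at h3 h4
  generalize Cardinal.toENat (Algebra.trdeg ℂ (MvPolynomial ν ℂ ⧸ P)) = a at *
  generalize Cardinal.toENat (Algebra.trdeg (FractionRing (MvPolynomial ν ℂ ⧸ P))
      (MvPolynomial ν (FractionRing (MvPolynomial ν ℂ ⧸ P)) ⧸ Q)) = b at *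
  have h8 : a + b ≠ ⊤ := by
    simp [h5, h6]
  refine (ENat.add_le_add_iff_right h8).1 ?_
  rw [h3]
  push_cast
  calc P.height + (rk M P : ℕ∞) + (a + b) = (P.height + a) + (b + (rk M P : ℕ∞)) := by ring
    _ ≤ (Fintype.card ν : ℕ∞) + (Fintype.card ν : ℕ∞) := by
        rw [h4]
        gcongr

end H1

/-- `ht N ≥ ht P + rank (M mod P)` for primes `N` of `O` containing all `mu_j`, `P = N ∩ S` -/
theorem height_add_rk_le {c : ℕ} (M : Fin c → Matrix ν ν ℂ)
    (N : Ideal (MvPolynomial (ν ⊕ ν) ℂ)) [N.IsPrime] (hN : ∀ j, muX (M j) ∈ N) :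
    (N.comap (inS : MvPolynomial ν ℂ →ₐ[ℂ] _)).height +
      (rk M (N.comap (inS : MvPolynomial ν ℂ →ₐ[ℂ] _)) : ℕ∞) ≤ N.height :=
  H1.height_add_rk_le_aux M N hN _ rfl

/-- a prime of `O` over the generic point of `V` containing all `mu_j` contains `I_Z` -/
theorem IZ_le_of_generic {A : Subalgebra ℂ (MvPolynomial ν ℂ)} {d c : ℕ}
    {M : Fin c → Matrix ν ν ℂ} (hM : Setup A d c M) (hS : Surj A)
    (hG : ∃ b : A, IsGood A d b) (N : Ideal (MvPolynomial (ν ⊕ ν) ℂ)) [N.IsPrime] (hN : ∀ j, muX (M j) ∈ N)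
    (h0 : N.comap (inS : MvPolynomial ν ℂ →ₐ[ℂ] _) = ⊥) : IZ A ≤ N := by
  intro F hF
  obtain ⟨b, hb⟩ := hG
  obtain ⟨m, hm⟩ := pow_mul_mem_span hM hS b hb F hF
  have h1 : inS (b : MvPolynomial ν ℂ) ^ m * F ∈ N := by
    refine (Ideal.span_le.2 ?_) hm
    rintro _ ⟨j, rfl⟩
    exact hN j
  rcases Ideal.IsPrime.mem_or_mem inferInstance h1 with h | h
  · exfalso
    have h2 : inS (b : MvPolynomial ν ℂ) ∈ N := Ideal.IsPrime.mem_of_pow_mem inferInstance _ h
    have h3 : (b : MvPolynomial ν ℂ) ∈ N.comap (inS : MvPolynomial ν ℂ →ₐ[ℂ] _) := h2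
    rw [h0, Ideal.mem_bot] at h3
    obtain ⟨a, D, hb0, _⟩ := hb
    exact hb0 (Subtype.ext h3)
  · exact h

/-- (H1) -/
theorem IZ_le_of_below {A : Subalgebra ℂ (MvPolynomial ν ℂ)} {d c : ℕ}
    {M : Fin c → Matrix ν ν ℂ} (hM : Setup A d c M) (hS : Surj A)
    (hG : ∃ b : A, IsGood A d b) (N : Ideal (MvPolynomial (ν ⊕ ν) ℂ)) [N.IsPrime] (hN : ∀ j, muX (M j) ∈ N)
    (hbad : ∀ (P' : Ideal (MvPolynomial ν ℂ)) [P'.IsPrime],
      P' ≤ N.comap (inS : MvPolynomial ν ℂ →ₐ[ℂ] _) → ¬ Bad M P') : IZ A ≤ N := by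
  have hspan : Ideal.span (Set.range fun j => muX (M j)) ≤ N := by
    rw [Ideal.span_le]
    rintro _ ⟨j, rfl⟩
    exact hN j
  obtain ⟨N0, hN0, hle⟩ := Ideal.exists_minimalPrimes_le hspan
  have hp : N0.IsPrime := hN0.1.1
  have hN0' : ∀ j, muX (M j) ∈ N0 := fun j => hN0.1.2 (Ideal.subset_span ⟨j, rfl⟩)
  have hht : N0.height ≤ (c : ℕ∞) := by
    refine (Ideal.height_le_card_of_mem_minimalPrimes_span (Set.finite_range _) hN0).trans ?_
    have : (Set.range fun j => muX (M j)).ncard ≤ c := by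
      rw [← Set.image_univ]
      refine (Set.ncard_image_le).trans ?_
      simp
    exact_mod_cast this
  have h1 := height_add_rk_le M N0 hN0'
  have hnb := hbad (N0.comap (inS : MvPolynomial ν ℂ →ₐ[ℂ] _)) (Ideal.comap_mono hle)
  have hrk : rk M (N0.comap (inS : MvPolynomial ν ℂ →ₐ[ℂ] _)) = c := by
    by_contra hne
    exact hnb ⟨lt_of_le_of_ne (rk_le M _) hne, h1.trans hht⟩
  rw [hrk] at h1
  have h2 : (N0.comap (inS : MvPolynomial ν ℂ →ₐ[ℂ] _)).height = 0 := by
    have h3 : (N0.comap (inS : MvPolynomial ν ℂ →ₐ[ℂ] _)).height + (c : ℕ∞) ≤ 0 + (c : ℕ∞) := by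
      rw [zero_add]
      exact h1.trans hht
    have h4 := (ENat.add_le_add_iff_right (ENat.natCast_ne_top c)).1 h3
    exact le_antisymm h4 bot_le
  have h5 : N0.comap (inS : MvPolynomial ν ℂ →ₐ[ℂ] _) = ⊥ :=
    Ideal.height_eq_zero_iff_eq_bot.1 h2
  exact (IZ_le_of_generic hM hS hG N0 hN0' h5).trans hle

end H50.Z
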