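import Pool.Agent.H50.Z.L4_Dim

/-! (H2) Cutting a cone by generic hyperplanes. -/

open MvPolynomial

namespace H50.Z

/-- the linear form with complex coefficients `u` -/
noncomputable def h2Lin {ν κ : Type} [Fintype ν] [Field κ] [Algebra ℂ κ] :
    (ν → ℂ) →ₗ[ℂ] MvPolynomial ν κ where
  toFun u := ∑ i, C (algebraMap ℂ κ (u i)) * X i
  map_add' u v := by
    simp only [Pi.add_apply, map_add, add_mul, Finset.sum_add_distrib]
  map_smul' c u := by
    rw [Finset.smul_sum]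
    refine Finset.sum_congr rfl fun i _ => ?_
    simp only [Pi.smul_apply, smul_eq_mul, map_mul, RingHom.id_apply]
    rw [Algebra.smul_def, IsScalarTower.algebraMap_apply ℂ κ (MvPolynomial ν κ),
      MvPolynomial.algebraMap_eq]
    ring

theorem h2_lin_single {ν κ : Type} [Fintype ν] [DecidableEq ν] [Field κ] [Algebra ℂ κ] (i : ν) :
    (h2Lin (Pi.single i 1) : MvPolynomial ν κ) = X i := by
  change ∑ j, C (algebraMap ℂ κ ((Pi.single i 1 : ν → ℂ) j)) * X j = _
  rw [Finset.sum_eq_single i]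
  · simp
  · intro j _ hj
    rw [Pi.single_eq_of_ne hj]
    simp
  · intro h
    exact absurd (Finset.mem_univ i) h

theorem h2_trdeg_zero {ν κ : Type} [Fintype ν] [Field κ]
    (Q : Ideal (MvPolynomial ν κ)) [Q.IsPrime] (h : ∀ i, (X i : MvPolynomial ν κ) ∈ Q) :
    Algebra.trdeg κ (MvPolynomial ν κ ⧸ Q) = 0 := by
  rw [trdeg_eq_zero_iff]
  have hs : Function.Surjective (algebraMap κ (MvPolynomial ν κ ⧸ Q)) := by
    intro y
    obtain ⟨F, rfl⟩ := Ideal.Quotient.mk_surjective y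
    induction F using MvPolynomial.induction_on with
    | C a => exact ⟨a, rfl⟩
    | add p q hp hq =>
      obtain ⟨a, ha⟩ := hp
      obtain ⟨b, hb⟩ := hq
      exact ⟨a + b, by rw [map_add, map_add, ha, hb]⟩
    | mul_X p i _ =>
      refine ⟨0, ?_⟩
      rw [map_zero, map_mul, Ideal.Quotient.eq_zero_iff_mem.2 (h i), mul_zero]
  refine ⟨fun y => ?_⟩
  obtain ⟨a, rfl⟩ := hs y
  exact isAlgebraic_algebraMap a

/-- one generic hyperplane lowers the dimension -/
theorem h2_step {ν κ : Type} [Fintype ν] [Field κ] [Algebra ℂ κ]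
    (J : Ideal (MvPolynomial ν κ)) (l : ℕ)
    (hdim : ∀ Q : Ideal (MvPolynomial ν κ), Q.IsPrime → J ≤ Q →
      Algebra.trdeg κ (MvPolynomial ν κ ⧸ Q) ≤ ((l + 1 : ℕ) : Cardinal)) :
    ∃ u : ν → ℂ, ∀ Q : Ideal (MvPolynomial ν κ), Q.IsPrime → J ≤ Q → h2Lin u ∈ Q →
      Algebra.trdeg κ (MvPolynomial ν κ ⧸ Q) ≤ (l : Cardinal) := by
  classical
  -- the proper subspaces
  let T : Set (Ideal (MvPolynomial ν κ)) := {q ∈ J.minimalPrimes | ¬ ∀ i, (X i : MvPolynomial ν κ) ∈ q}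
  have hT : T.Finite := (Ideal.finite_minimalPrimes_of_isNoetherianRing _ J).subset
    (fun q hq => hq.1)
  have : Finite T := hT
  let W : T → Submodule ℂ (ν → ℂ) := fun q =>
    (Submodule.restrictScalars ℂ (q.1 : Ideal (MvPolynomial ν κ))).comap h2Lin
  have hW : (⋃ q, (W q : Set (ν → ℂ))) ≠ Set.univ := by
    intro hcov
    obtain ⟨q, hq⟩ := Subspace.exists_eq_top_of_iUnion_eq_univ hcov
    apply q.2.2
    intro i
    have h1 : (Pi.single i 1 : ν → ℂ) ∈ W q := by
      rw [hq]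
      trivial
    have h2 : (h2Lin (Pi.single i 1) : MvPolynomial ν κ) ∈ q.1 := h1
    rwa [h2_lin_single] at h2
  obtain ⟨u, hu⟩ := (Set.ne_univ_iff_exists_notMem _).1 hW
  refine ⟨u, fun Q hQ hJQ hlin => ?_⟩
  obtain ⟨q, hq, hqQ⟩ := Ideal.exists_minimalPrimes_le hJQ
  by_cases hX : ∀ i, (X i : MvPolynomial ν κ) ∈ q
  · rw [h2_trdeg_zero Q fun i => hqQ (hX i)]
    exact bot_le
  · have hqT : q ∈ T := ⟨hq, hX⟩
    have hnot : h2Lin u ∉ q := by
      intro hmem
      exact hu (Set.mem_iUnion.2 ⟨⟨q, hqT⟩, hmem⟩)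
    have hqp : q.IsPrime := hq.1.1
    have h1 := hdim q hqp hq.1.2
    have h2 : Algebra.trdeg κ (MvPolynomial ν κ ⧸ Q) + 1 ≤ Algebra.trdeg κ (MvPolynomial ν κ ⧸ q) := by
      refine l4_succ_le (Ideal.Quotient.factorₐ κ hqQ) (Ideal.Quotient.factor_surjective hqQ)
        (h1.trans_lt (Cardinal.natCast_lt_aleph0)) (a := Ideal.Quotient.mk q (h2Lin u)) ?_ ?_
      · intro h0
        exact hnot (Ideal.Quotient.eq_zero_iff_mem.1 h0)
      · exact Ideal.Quotient.eq_zero_iff_mem.2 hlin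
    have h3 := h2.trans h1
    have h4 : Algebra.trdeg κ (MvPolynomial ν κ ⧸ Q) < Cardinal.aleph0 := by
      refine lt_of_le_of_lt (le_trans (self_le_add_right _ _) h3) (Cardinal.natCast_lt_aleph0)
    obtain ⟨m, hm⟩ := Cardinal.lt_aleph0.1 h4
    rw [hm] at h3 ⊢
    norm_cast at h3 ⊢
    omega

theorem h2_many {ν κ : Type} [Fintype ν] [Field κ] [Algebra ℂ κ] (l : ℕ) :
    ∀ (J : Ideal (MvPolynomial ν κ)),
    (∀ Q : Ideal (MvPolynomial ν κ), Q.IsPrime → J ≤ Q →
      Algebra.trdeg κ (MvPolynomial ν κ ⧸ Q) ≤ (l : Cardinal)) →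
    ∃ u : Fin l → ν → ℂ, ∀ Q : Ideal (MvPolynomial ν κ), Q.IsPrime → J ≤ Q →
      (∀ k, h2Lin (u k) ∈ Q) → Algebra.trdeg κ (MvPolynomial ν κ ⧸ Q) = 0 := by
  induction l with
  | zero =>
    intro J hdim
    refine ⟨fun k => k.elim0, fun Q hQ hJQ _ => ?_⟩
    have := hdim Q hQ hJQ
    rw [Nat.cast_zero] at this
    exact le_antisymm this bot_le
  | succ l ih =>
    intro J hdim
    obtain ⟨u0, hu0⟩ := h2_step J l hdim
    obtain ⟨u, hu⟩ := ih (J ⊔ Ideal.span {h2Lin u0}) (by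
      intro Q hQ hJQ
      refine hu0 Q hQ (le_sup_left.trans hJQ) (hJQ (Ideal.mem_sup_right ?_))
      exact Ideal.subset_span rfl)
    refine ⟨Fin.cons u0 u, fun Q hQ hJQ hk => ?_⟩
    refine hu Q hQ (sup_le hJQ ?_) fun k => ?_
    · rw [Ideal.span_le, Set.singleton_subset_iff]
      exact hk 0
    · exact hk k.succ

theorem h2_eval_scale {ν κ κ' : Type} [Fintype ν] [Field κ] [Field κ'] (φ : κ →+* κ') (ξ : ν → κ')
    {F : MvPolynomial ν κ} {m : ℕ} (hF : F.IsHomogeneous m) :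
    eval₂ (Polynomial.C.comp φ) (fun i => Polynomial.C (ξ i) * Polynomial.X) F =
      Polynomial.C (eval₂ φ ξ F) * Polynomial.X ^ m := by
  rw [eval₂_eq', eval₂_eq', map_sum, Finset.sum_mul]
  refine Finset.sum_congr rfl fun d hd => ?_
  have hdm : ∑ i, d i = m := by
    have h1 : d.degree = m := by
      by_contra hne
      exact (MvPolynomial.mem_support_iff.1 hd) (hF.coeff_eq_zero hne)
    rw [← h1, Finsupp.degree_eq_sum]
  rw [map_mul, map_prod, RingHom.comp_apply, mul_assoc]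
  congr 1
  rw [← hdm, ← Finset.prod_pow_eq_pow_sum, ← Finset.prod_mul_distrib]
  refine Finset.prod_congr rfl fun i _ => ?_
  rw [mul_pow, map_pow]

/-- A homogeneous ideal all of whose primes have transcendence degree at most `l`: after adding `l`
suitable linear forms with complex coefficients the zero set is the origin. -/
theorem exists_hyperplanes {ν κ : Type} [Fintype ν] [Field κ] [Algebra ℂ κ]
    (J : Ideal (MvPolynomial ν κ)) (hJ : ∀ F ∈ J, ∀ m, homogeneousComponent m F ∈ J) (l : ℕ)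
    (hdim : ∀ Q : Ideal (MvPolynomial ν κ), Q.IsPrime → J ≤ Q →
      Algebra.trdeg κ (MvPolynomial ν κ ⧸ Q) ≤ l) :
    ∃ u : Fin l → ν → ℂ, ∀ (κ' : Type) [Field κ'] (φ : κ →+* κ') (ξ : ν → κ'),
      (∀ F ∈ J, eval₂ φ ξ F = 0) → (∀ k, ∑ i, φ (algebraMap ℂ κ (u k i)) * ξ i = 0) → ξ = 0 := by
  classical
  obtain ⟨u, hu⟩ := h2_many l J hdim
  refine ⟨u, fun κ' _ φ ξ hξ hlin => ?_⟩
  by_contra hne
  obtain ⟨i, hi⟩ := Function.ne_iff.1 hne
  rw [Pi.zero_apply] at hi
  let ψ : MvPolynomial ν κ →+* Polynomial κ' :=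
    eval₂Hom (Polynomial.C.comp φ) (fun i => Polynomial.C (ξ i) * Polynomial.X)
  have hψ : ∀ F, ψ F = eval₂ (Polynomial.C.comp φ) (fun i => Polynomial.C (ξ i) * Polynomial.X) F :=
    fun F => rfl
  have hprime : (RingHom.ker ψ).IsPrime := RingHom.ker_isPrime ψ
  have hJle : J ≤ RingHom.ker ψ := by
    intro F hF
    rw [RingHom.mem_ker, ← sum_homogeneousComponent F, map_sum]
    refine Finset.sum_eq_zero fun m _ => ?_
    rw [hψ, h2_eval_scale φ ξ (homogeneousComponent_isHomogeneous m F), hξ _ (hJ F hF m), map_zero,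
      zero_mul]
  have hlk : ∀ k, h2Lin (u k) ∈ RingHom.ker ψ := by
    intro k
    rw [RingHom.mem_ker]
    change ψ (∑ i, C (algebraMap ℂ κ (u k i)) * X i) = 0
    have : ∀ i, ψ (C (algebraMap ℂ κ (u k i)) * X i) =
        Polynomial.C (φ (algebraMap ℂ κ (u k i)) * ξ i) * Polynomial.X := by
      intro i
      rw [map_mul]
      simp only [ψ, eval₂Hom_C, eval₂Hom_X', RingHom.comp_apply]
      rw [map_mul, mul_assoc]
    rw [map_sum, Finset.sum_congr rfl fun i _ => this i, ← Finset.sum_mul, ← map_sum, hlin k,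
      map_zero, zero_mul]
  have h0 := hu _ hprime hJle hlk
  rw [trdeg_eq_zero_iff] at h0
  obtain ⟨p, hp, hpX⟩ := h0.isAlgebraic (Ideal.Quotient.mk (RingHom.ker ψ) (X i))
  apply hp
  have h1 : Polynomial.aeval (X i : MvPolynomial ν κ) p ∈ RingHom.ker ψ := by
    rw [← Ideal.Quotient.eq_zero_iff_mem]
    have h2 := Polynomial.aeval_algHom_apply (Ideal.Quotient.mkₐ κ (RingHom.ker ψ))
      (X i : MvPolynomial ν κ) p
    rw [Ideal.Quotient.mkₐ_eq_mk] at h2
    rw [← h2]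
    exact hpX
  rw [RingHom.mem_ker] at h1
  have h3 : ψ (Polynomial.aeval (X i : MvPolynomial ν κ) p) =
      Polynomial.eval₂ (Polynomial.C.comp φ) (Polynomial.C (ξ i) * Polynomial.X) p := by
    rw [Polynomial.aeval_def, Polynomial.hom_eval₂]
    congr 1
    · ext a
      simp [ψ, MvPolynomial.algebraMap_eq]
    · simp [ψ]
  rw [h3] at h1
  ext n
  have h4 := congrArg (fun q => Polynomial.coeff q n) h1
  simp only [Polynomial.coeff_zero] at h4
  rw [Polynomial.eval₂_eq_sum_range, Polynomial.finsetSum_coeff] at h4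
  by_cases hn : n ∈ Finset.range (p.natDegree + 1)
  · rw [Finset.sum_eq_single_of_mem n hn] at h4
    · rw [mul_pow, ← Polynomial.C_pow, RingHom.comp_apply, ← mul_assoc, ← Polynomial.C_mul,
        Polynomial.coeff_C_mul_X_pow, if_pos rfl] at h4
      rcases mul_eq_zero.1 h4 with h5 | h5
      · rw [Polynomial.coeff_zero]
        exact (map_eq_zero φ).1 h5
      · exact absurd (eq_zero_of_pow_eq_zero h5) hi
    · intro j _ hj
      rw [mul_pow, ← Polynomial.C_pow, RingHom.comp_apply, ← mul_assoc, ← Polynomial.C_mul,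
        Polynomial.coeff_C_mul_X_pow, if_neg (Ne.symm hj)]
  · rw [Polynomial.coeff_zero]
    rw [Finset.mem_range, not_lt] at hn
    exact Polynomial.coeff_eq_zero_of_natDegree_lt hn

end H50.Z
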