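import Pool.Agent.H50.Z.Defs

/-! (H3) Specialization of points of a cone along a valuation ring. -/

open MvPolynomial

namespace H50.Z

namespace H3

/-- evaluation of a homogeneous element at a rescaled point -/
theorem eval_scale_hom {ν : Type} {R : Type} [CommRing R] (f : ℂ →+* R) (x ξ : ν → R) (s : R)
    {G : MvPolynomial (ν ⊕ ν) ℂ} {m : ℕ} (hG : IsWeightedHomogeneous wxi G m) :
    eval₂ f (Sum.elim x (fun i => s * ξ i)) G = s ^ m * eval₂ f (Sum.elim x ξ) G := by
  classical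
  rw [eval₂_eq, eval₂_eq, Finset.mul_sum]
  apply Finset.sum_congr rfl
  intro d hd
  have hw : Finsupp.weight wxi d = m := hG (mem_support_iff.1 hd)
  have h1 : ∀ i : ν ⊕ ν, (Sum.elim x (fun i => s * ξ i) i : R) ^ d i =
      s ^ (d i * wxi i) * (Sum.elim x ξ i) ^ d i := by
    intro i
    cases i with
    | inl j => simp [wxi]
    | inr j => simp [wxi, mul_pow]
  have h2 : ∏ i ∈ d.support, s ^ (d i * wxi i) = s ^ m := by
    rw [Finset.prod_pow_eq_pow_sum, ← hw, Finsupp.weight_apply, Finsupp.sum]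
    simp only [smul_eq_mul]
  rw [Finset.prod_congr rfl (fun i _ => h1 i), Finset.prod_mul_distrib, h2]
  ring

/-- an ideal homogeneous in `ξ` which vanishes at a point vanishes at the rescaled points -/
theorem eval_scale {ν : Type} (I : Ideal (MvPolynomial (ν ⊕ ν) ℂ))
    (hI : ∀ F ∈ I, ∀ m, weightedHomogeneousComponent wxi m F ∈ I) {R : Type} [CommRing R]
    (f : ℂ →+* R) (x ξ : ν → R) (s : R) (hF : ∀ F ∈ I, eval₂ f (Sum.elim x ξ) F = 0)
    (F : MvPolynomial (ν ⊕ ν) ℂ) (h : F ∈ I) :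
    eval₂ f (Sum.elim x (fun i => s * ξ i)) F = 0 := by
  have h1 := sum_weightedHomogeneousComponent (R := ℂ) wxi F
  rw [finsum_eq_sum _ (weightedHomogeneousComponent_finsupp (w := wxi) F)] at h1
  rw [← h1, eval₂_sum]
  apply Finset.sum_eq_zero
  intro m _
  rw [eval_scale_hom f x ξ s (weightedHomogeneousComponent_isWeightedHomogeneous m F),
    hF _ (hI F h m), mul_zero]

end H3

/-- `I` homogeneous in `ξ`, `P' ≤ P` primes of `S`: a nonzero solution `ξ` over a field with kernel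
`P'` specializes to a nonzero solution over a field with kernel `P`. -/
theorem exists_specialization {ν : Type} [Fintype ν] (I : Ideal (MvPolynomial (ν ⊕ ν) ℂ))
    (hI : ∀ F ∈ I, ∀ m, weightedHomogeneousComponent wxi m F ∈ I)
    (P' P : Ideal (MvPolynomial ν ℂ)) [P'.IsPrime] [P.IsPrime] (h : P' ≤ P) (κ : Type) [Field κ]
    (φ : MvPolynomial ν ℂ →+* κ) (hφ : RingHom.ker φ = P') (ξ : ν → κ) (hξ : ξ ≠ 0)
    (hF : ∀ F ∈ I, eval₂ (φ.comp C) (Sum.elim (fun i => φ (X i)) ξ) F = 0) {l : ℕ}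
    (u : Fin l → ν → ℂ) (hu : ∀ k, ∑ i, φ (C (u k i)) * ξ i = 0) :
    ∃ (κ' : Type) (_ : Field κ') (φ' : MvPolynomial ν ℂ →+* κ') (ξ' : ν → κ'),
      RingHom.ker φ' = P ∧ ξ' ≠ 0 ∧
      (∀ F ∈ I, eval₂ (φ'.comp C) (Sum.elim (fun i => φ' (X i)) ξ') F = 0) ∧
      ∀ k, ∑ i, φ' (C (u k i)) * ξ' i = 0 := by
  classical
  -- the localization at `P` maps to `κ`
  have hunit : ∀ y : P.primeCompl, IsUnit (φ y) := by
    intro y
    rw [isUnit_iff_ne_zero]
    intro h0
    have : (y : MvPolynomial ν ℂ) ∈ P' := by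
      rw [← hφ]; exact h0
    exact y.2 (h this)
  let f : Localization.AtPrime P →+* κ := IsLocalization.lift hunit
  have hfa : ∀ y, f (algebraMap _ _ y) = φ y := fun y => IsLocalization.lift_eq hunit y
  obtain ⟨V, hV, hloc⟩ := IsLocalRing.exists_factor_valuationRing f
  let g : Localization.AtPrime P →+* V := f.codRestrict V.toSubring hV
  have hg : IsLocalHom g := hloc
  let ψ : MvPolynomial ν ℂ →+* V := g.comp (algebraMap _ _)
  have hψ : ∀ y, ((ψ y : V) : κ) = φ y := fun y => hfa y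
  -- an index with maximal valuation
  obtain ⟨j, hj⟩ : ∃ j, ξ j ≠ 0 := by
    by_contra hc
    push Not at hc
    exact hξ (funext hc)
  obtain ⟨i₀, _, hmax⟩ := Finset.exists_max_image (Finset.univ : Finset ν)
    (fun i => V.valuation (ξ i)) ⟨j, Finset.mem_univ j⟩
  have hi₀ : ξ i₀ ≠ 0 := by
    intro h0
    have := hmax j (Finset.mem_univ j)
    rw [h0, map_zero] at this
    have h1 : V.valuation (ξ j) = 0 := le_antisymm this zero_le
    exact hj ((map_eq_zero _).1 h1)
  have hmem : ∀ i, (ξ i₀)⁻¹ * ξ i ∈ V := by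
    intro i
    rw [← V.valuation_le_one_iff, map_mul, map_inv₀]
    have h1 := hmax i (Finset.mem_univ i)
    have h2 : V.valuation (ξ i₀) ≠ 0 := (map_ne_zero _).2 hi₀
    calc (V.valuation (ξ i₀))⁻¹ * V.valuation (ξ i)
        ≤ (V.valuation (ξ i₀))⁻¹ * V.valuation (ξ i₀) := mul_le_mul_right h1 _
      _ = 1 := inv_mul_cancel₀ h2
  let η : ν → V := fun i => ⟨(ξ i₀)⁻¹ * ξ i, hmem i⟩
  let ρ : V →+* IsLocalRing.ResidueField V := IsLocalRing.residue V
  refine ⟨IsLocalRing.ResidueField V, inferInstance, ρ.comp ψ, fun i => ρ (η i), ?_, ?_, ?_, ?_⟩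
  · ext y
    rw [RingHom.mem_ker, RingHom.comp_apply]
    have h1 : ρ (ψ y) = 0 ↔ ¬ IsUnit (ψ y) := by
      have := IsLocalRing.residue_eq_zero_iff (R := V) (ψ y)
      rw [IsLocalRing.mem_maximalIdeal, mem_nonunits_iff] at this
      exact this
    rw [h1]
    have h2 : IsUnit (ψ y) ↔ IsUnit (algebraMap (MvPolynomial ν ℂ) (Localization.AtPrime P) y) :=
      ⟨fun hh => isUnit_of_map_unit g _ hh, fun hh => hh.map g⟩
    rw [h2, IsLocalization.AtPrime.isUnit_to_map_iff (Localization.AtPrime P) P]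
    change ¬ (y ∉ P) ↔ _
    rw [not_not]
  · intro h0
    have h1 : ρ (η i₀) = 0 := congrFun h0 i₀
    have h2 : η i₀ = 1 := Subtype.ext (inv_mul_cancel₀ hi₀)
    rw [h2, map_one] at h1
    exact one_ne_zero h1
  · intro F hFI
    have h1 : eval₂ (φ.comp C) (Sum.elim (fun i => φ (X i)) (fun i => (ξ i₀)⁻¹ * ξ i)) F = 0 :=
      H3.eval_scale I hI (φ.comp C) (fun i => φ (X i)) ξ _ hF F hFI
    have h2 : ((eval₂ (ψ.comp C) (Sum.elim (fun i => ψ (X i)) η) F : V) : κ) = 0 := by
      have h3 := eval₂_comp_left (V.subtype) (ψ.comp C) (Sum.elim (fun i => ψ (X i)) η) F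
      have h4 : V.subtype.comp (ψ.comp C) = φ.comp C := by
        ext y
        exact hψ _
      have h5 : (V.subtype ∘ (Sum.elim (fun i => ψ (X i)) η) : ν ⊕ ν → κ) =
          Sum.elim (fun i => φ (X i)) (fun i => (ξ i₀)⁻¹ * ξ i) := by
        funext i
        cases i with
        | inl j => exact hψ _
        | inr j => rfl
      rw [h4, h5, h1] at h3
      exact h3
    have h6 : eval₂ (ψ.comp C) (Sum.elim (fun i => ψ (X i)) η) F = 0 := Subtype.ext h2
    have h7 := eval₂_comp_left ρ (ψ.comp C) (Sum.elim (fun i => ψ (X i)) η) F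
    rw [h6, map_zero] at h7
    rw [h7]
    congr 1
    funext i
    cases i with
    | inl j => rfl
    | inr j => rfl
  · intro k
    have h1 : ((∑ i, ψ (C (u k i)) * η i : V) : κ) = 0 := by
      have h2 : ((∑ i, ψ (C (u k i)) * η i : V) : κ) = ∑ i, φ (C (u k i)) * ((ξ i₀)⁻¹ * ξ i) := by
        have h3 : V.subtype (∑ i, ψ (C (u k i)) * η i) = ∑ i, V.subtype (ψ (C (u k i)) * η i) :=
          map_sum _ _ _
        refine h3.trans (Finset.sum_congr rfl fun i _ => ?_)
        rw [map_mul]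
        exact congrArg₂ _ (hψ _) rfl
      rw [h2]
      have h4 : ∀ i, φ (C (u k i)) * ((ξ i₀)⁻¹ * ξ i) = (ξ i₀)⁻¹ * (φ (C (u k i)) * ξ i) := by
        intro i; ring
      rw [Finset.sum_congr rfl (fun i _ => h4 i), ← Finset.mul_sum, hu k, mul_zero]
    have h5 : (∑ i, ψ (C (u k i)) * η i : V) = 0 := Subtype.ext h1
    have h6 := congrArg ρ h5
    rw [map_zero, map_sum] at h6
    rw [← h6]
    exact Finset.sum_congr rfl fun i _ => (map_mul ρ _ _).symm

end H50.Z
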