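import Pool.Agent.H54.AG.Minors

/-! (L2) Height bound for the ideal of maximal minors (Eagon-Northcott bound, Matsumura 13.10). -/

namespace H50.Z

/-- the ideal generated by the maximal minors of a matrix with rows `ι` and columns `κ` -/
def maxMinors {R ι κ : Type*} [CommRing R] [Fintype ι] [DecidableEq ι] (M : Matrix ι κ R) : Ideal R :=
  Ideal.span (Set.range fun e : ι → κ => (M.submatrix id e).det)

/-- A minimal prime of the ideal of maximal minors of an `n × m` matrix has height at most
`m - n + 1`. -/
theorem height_le_of_mem_minimalPrimes_maxMinors {R ι κ : Type} [CommRing R] [IsNoetherianRing R]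
    [Fintype ι] [DecidableEq ι] [Nonempty ι] [Fintype κ] (M : Matrix ι κ R) (P : Ideal R)
    (hP : P ∈ (maxMinors M).minimalPrimes) :
    P.height ≤ ((Fintype.card κ + 1 - Fintype.card ι : ℕ) : ℕ∞) := by
  classical
  by_cases hnm : Fintype.card ι ≤ Fintype.card κ + 1
  · let ei : Fin (Fintype.card ι) ≃ ι := (Fintype.equivFin ι).symm
    let ek : Fin (Fintype.card κ) ≃ κ := (Fintype.equivFin κ).symm
    let M' : Matrix (Fin (Fintype.card ι)) (Fin (Fintype.card κ)) R := M.submatrix ei ek
    have hset : (Set.range fun e : ι → κ => (M.submatrix id e).det) =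
        {d | ∃ e : Fin (Fintype.card ι) → Fin (Fintype.card κ), d = (M'.submatrix id e).det} := by
      ext d
      constructor
      · rintro ⟨e, rfl⟩
        refine ⟨fun i => ek.symm (e (ei i)), ?_⟩
        change (M.submatrix id e).det = _
        rw [← Matrix.det_submatrix_equiv_self ei]
        congr 1
        ext i j
        simp [M']
      · rintro ⟨e, rfl⟩
        refine ⟨fun i => ek (e (ei.symm i)), ?_⟩
        change (M.submatrix id fun i => ek (e (ei.symm i))).det = _
        rw [← Matrix.det_submatrix_equiv_self ei]
        congr 1
        ext i j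
        simp [M']
    have hP' : P ∈ (Ideal.span {d | ∃ e : Fin (Fintype.card ι) → Fin (Fintype.card κ),
        d = (M'.submatrix id e).det}).minimalPrimes := by
      rw [← hset]; exact hP
    have h1 := H54.AG.height_le_of_minors hnm M' P hP'
    have hcast : ((Fintype.card κ + 1 - Fintype.card ι : ℕ) : ℕ∞) + (Fintype.card ι : ℕ∞) =
        (Fintype.card κ : ℕ∞) + 1 := by
      have h2 : (Fintype.card κ + 1 - Fintype.card ι) + Fintype.card ι = Fintype.card κ + 1 := by omega
      exact_mod_cast h2
    rw [← hcast] at h1
    exact (ENat.add_le_add_iff_right (ENat.natCast_ne_top _)).mp h1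
  · -- more than `m + 1` rows: all maximal minors vanish
    have hz : maxMinors M = ⊥ := by
      rw [maxMinors, Ideal.span_eq_bot]
      rintro _ ⟨e, rfl⟩
      have hninj : ¬ Function.Injective e := by
        intro he
        have := Fintype.card_le_of_injective e he
        omega
      simp only [Function.Injective, not_forall] at hninj
      obtain ⟨a, b, hab, hne⟩ := hninj
      apply Matrix.det_zero_of_column_eq hne
      intro k
      simp [hab]
    rw [hz] at hP
    have : P.IsPrime := hP.1.1
    have h0 : P.height = 0 := by
      rw [Ideal.height_eq_zero_iff]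
      exact hP
    rw [h0]
    exact zero_le

end H50.Z
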