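import Pool.Agent.H50.Z.H1_Height
import Pool.Agent.H50.Z.H2_Cone
import Pool.Agent.H50.Z.H3_Val
import Pool.Agent.H50.Z.L2_Minors
import Pool.Agent.H50.Z.D7_Final

/-! (D1) The determinantal step. -/

open MvPolynomial H50.DO

set_option linter.unusedSectionVars false

namespace H50.Z

variable {ν : Type} [Fintype ν] [DecidableEq ν]

namespace H4

lemma kapHom_eq_zero (P : Ideal (MvPolynomial ν ℂ)) [P.IsPrime] (f : MvPolynomial ν ℂ) :
    kapHom P f = 0 ↔ f ∈ P := by
  unfold kapHom
  rw [RingHom.comp_apply, map_eq_zero_iff _ (IsFractionRing.injective (MvPolynomial ν ℂ ⧸ P)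
    (FractionRing (MvPolynomial ν ℂ ⧸ P))), Ideal.Quotient.eq_zero_iff_mem]

lemma toFib_C (P : Ideal (MvPolynomial ν ℂ)) [P.IsPrime] (r : ℂ) :
    toFib P (C r) = C (kapHom P (C r)) := by
  unfold toFib
  rw [coe_eval₂Hom, eval₂_C]
  rfl

lemma toFib_inl (P : Ideal (MvPolynomial ν ℂ)) [P.IsPrime] (i : ν) :
    toFib P (X (Sum.inl i)) = C (kapHom P (X i)) := by
  unfold toFib
  rw [coe_eval₂Hom, eval₂_X]
  rfl

lemma toFib_inr (P : Ideal (MvPolynomial ν ℂ)) [P.IsPrime] (i : ν) :
    toFib P (X (Sum.inr i)) = X i := by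
  unfold toFib
  rw [coe_eval₂Hom, eval₂_X]
  rfl

lemma toFib_inS (P : Ideal (MvPolynomial ν ℂ)) [P.IsPrime] (f : MvPolynomial ν ℂ) :
    toFib P (inS f) = C (kapHom P f) := by
  have h : (toFib P).comp (inS : MvPolynomial ν ℂ →ₐ[ℂ] _).toRingHom =
      (C : _ →+* MvPolynomial ν (FractionRing (MvPolynomial ν ℂ ⧸ P))).comp (kapHom P) := by
    apply MvPolynomial.ringHom_ext
    · intro r
      simp only [AlgHom.toRingHom_eq_coe, RingHom.comp_apply, RingHom.coe_coe]
      rw [inS, rename_C, toFib_C]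
    · intro i
      simp only [AlgHom.toRingHom_eq_coe, RingHom.comp_apply, RingHom.coe_coe]
      rw [inS, rename_X, toFib_inl]
  exact congrArg (fun φ : MvPolynomial ν ℂ →+* _ => φ f) h

/-- `toFib` respects the `ξ`-degree -/
lemma toFib_hom (P : Ideal (MvPolynomial ν ℂ)) [P.IsPrime] (F : MvPolynomial (ν ⊕ ν) ℂ) (m : ℕ)
    (hF : XiHom F m) : (toFib P F).IsHomogeneous m := by
  classical
  rw [F.as_sum, map_sum]
  apply IsHomogeneous.sum
  intro s hs
  have hw : Finsupp.weight wxi s = m := hF (mem_support_iff.1 hs)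
  have hw' : ∑ i : ν, s (Sum.inr i) = m := by
    rw [← hw, Finsupp.weight_apply, Finsupp.sum_fintype s (fun i c => c • wxi i) (fun i => zero_smul _ _),
      Fintype.sum_sum_type]
    simp [wxi]
  have h1 : toFib P (monomial s (coeff s F)) =
      (C (kapHom P (C (coeff s F))) * ∏ i : ν, C (kapHom P (X i)) ^ s (Sum.inl i)) *
        ∏ i : ν, X i ^ s (Sum.inr i) := by
    rw [monomial_eq, map_mul, toFib_C, Finsupp.prod_fintype _ _ (fun i => pow_zero _),
      Fintype.prod_sum_type, map_mul, map_prod, map_prod, mul_assoc]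
    congr 2
    · refine Finset.prod_congr rfl fun i _ => ?_
      rw [map_pow, toFib_inl]
    · refine Finset.prod_congr rfl fun i _ => ?_
      rw [map_pow, toFib_inr]
  rw [h1]
  have h2 : (C (kapHom P (C (coeff s F))) * ∏ i : ν, C (kapHom P (X i)) ^ s (Sum.inl i) :
      MvPolynomial ν (FractionRing (MvPolynomial ν ℂ ⧸ P))).IsHomogeneous 0 := by
    have h3 : (C (kapHom P (C (coeff s F))) * ∏ i : ν, C (kapHom P (X i)) ^ s (Sum.inl i) :
      MvPolynomial ν (FractionRing (MvPolynomial ν ℂ ⧸ P))) =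
        C (kapHom P (C (coeff s F)) * ∏ i : ν, kapHom P (X i) ^ s (Sum.inl i)) := by
      rw [map_mul, map_prod]
      simp only [map_pow]
    rw [h3]
    exact isHomogeneous_C _ _
  have h4 : (∏ i : ν, X i ^ s (Sum.inr i) :
      MvPolynomial ν (FractionRing (MvPolynomial ν ℂ ⧸ P))).IsHomogeneous
        (∑ i : ν, s (Sum.inr i)) := by
    apply IsHomogeneous.prod
    intro i _
    have := (isHomogeneous_X (FractionRing (MvPolynomial ν ℂ ⧸ P)) i).pow (s (Sum.inr i))
    rwa [one_mul] at this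
  have h5 := h2.mul h4
  rw [zero_add, hw'] at h5
  exact h5

attribute [local instance] MvPolynomial.gradedAlgebra

/-- the fibre ideal is homogeneous -/
lemma fib_component {A : Subalgebra ℂ (MvPolynomial ν ℂ)} (P : Ideal (MvPolynomial ν ℂ))
    [P.IsPrime] (F : MvPolynomial ν (FractionRing (MvPolynomial ν ℂ ⧸ P)))
    (hF : F ∈ (IZ A).map (toFib P)) (m : ℕ) :
    homogeneousComponent m F ∈ (IZ A).map (toFib P) := by
  classical
  let S : Set (MvPolynomial ν (FractionRing (MvPolynomial ν ℂ ⧸ P))) :=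
    {G | ∃ F ∈ IZ A, ∃ m, XiHom F m ∧ toFib P F = G}
  have hspan : (IZ A).map (toFib P) = Ideal.span S := by
    apply le_antisymm
    · rw [Ideal.map_le_iff_le_comap]
      intro F hF
      rw [Ideal.mem_comap]
      obtain ⟨s, -, hs⟩ := Z2.exists_sum_components' F 0
      rw [hs, map_sum]
      refine Ideal.sum_mem _ fun j _ => Ideal.subset_span
        ⟨_, IZ_component A F hF j, j, weightedHomogeneousComponent_isWeightedHomogeneous j F, rfl⟩
    · rw [Ideal.span_le]
      rintro _ ⟨F, hF, m, -, rfl⟩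
      exact Ideal.mem_map_of_mem _ hF
  have hhom : ((IZ A).map (toFib P)).IsHomogeneous
      (homogeneousSubmodule ν (FractionRing (MvPolynomial ν ℂ ⧸ P))) := by
    rw [hspan]
    apply Ideal.homogeneous_span
    rintro _ ⟨F, hF, m, hm, rfl⟩
    exact ⟨m, toFib_hom P F m hm⟩
  exact homogeneousComponent_mem_of_mem hhom hF m

/-- the fibre ideal vanishes at the origin -/
lemma fib_le {A : Subalgebra ℂ (MvPolynomial ν ℂ)} (P : Ideal (MvPolynomial ν ℂ))
    [P.IsPrime] : (IZ A).map (toFib P) ≤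
      RingHom.ker (eval (0 : ν → FractionRing (MvPolynomial ν ℂ ⧸ P))) := by
  rw [Ideal.map_le_iff_le_comap]
  intro F hF
  rw [Ideal.mem_comap, RingHom.mem_ker]
  have h0 := mem_IZ.1 hF 0 A.zero_mem
  have h : (eval (0 : ν → FractionRing (MvPolynomial ν ℂ ⧸ P))).comp (toFib P) =
      (kapHom P).comp (dsub (0 : MvPolynomial ν ℂ)).toRingHom := by
    apply MvPolynomial.ringHom_ext
    · intro r
      simp only [AlgHom.toRingHom_eq_coe, RingHom.comp_apply, RingHom.coe_coe]
      rw [toFib_C, eval_C, dsub, aeval_C]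
      rfl
    · rintro (i | i)
      · simp only [AlgHom.toRingHom_eq_coe, RingHom.comp_apply, RingHom.coe_coe]
        rw [toFib_inl, eval_C, dsub, aeval_X]
        rfl
      · simp only [AlgHom.toRingHom_eq_coe, RingHom.comp_apply, RingHom.coe_coe]
        rw [toFib_inr, eval_X, dsub, aeval_X]
        simp
  have h1 := congrArg (fun φ : MvPolynomial (ν ⊕ ν) ℂ →+* _ => φ F) h
  simp only [AlgHom.toRingHom_eq_coe, RingHom.comp_apply, RingHom.coe_coe] at h1
  rw [h1, h0, map_zero]

/-- points of the fibre -/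
lemma eval_toFib (P : Ideal (MvPolynomial ν ℂ)) [P.IsPrime] {κ : Type} [Field κ]
    (φ : FractionRing (MvPolynomial ν ℂ ⧸ P) →+* κ) (φ' : MvPolynomial ν ℂ →+* κ)
    (h : φ.comp (kapHom P) = φ') (ξ : ν → κ) (F : MvPolynomial (ν ⊕ ν) ℂ) :
    eval₂ φ ξ (toFib P F) = eval₂ (φ'.comp C) (Sum.elim (fun i => φ' (X i)) ξ) F := by
  subst h
  have h : (eval₂Hom φ ξ).comp (toFib P) =
      eval₂Hom ((φ.comp (kapHom P)).comp C) (Sum.elim (fun i => φ.comp (kapHom P) (X i)) ξ) := by
    apply MvPolynomial.ringHom_ext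
    · intro r
      rw [RingHom.comp_apply, toFib_C, coe_eval₂Hom, eval₂_C, coe_eval₂Hom, eval₂_C]
      rfl
    · rintro (i | i)
      · rw [RingHom.comp_apply, toFib_inl, coe_eval₂Hom, eval₂_C, coe_eval₂Hom, eval₂_X]
        rfl
      · rw [RingHom.comp_apply, toFib_inr, coe_eval₂Hom, eval₂_X, coe_eval₂Hom, eval₂_X]
        rfl
  exact congrArg (fun φ : MvPolynomial (ν ⊕ ν) ℂ →+* _ => φ F) h

/-- homomorphisms with kernel `P` factor through the residue field -/
lemma exists_factor (P : Ideal (MvPolynomial ν ℂ)) [P.IsPrime] {κ : Type} [Field κ]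
    (φ' : MvPolynomial ν ℂ →+* κ) (hφ : RingHom.ker φ' = P) :
    ∃ φ : FractionRing (MvPolynomial ν ℂ ⧸ P) →+* κ, φ.comp (kapHom P) = φ' := by
  let g : MvPolynomial ν ℂ ⧸ P →+* κ := Ideal.Quotient.lift P φ' (fun a ha => by
    rw [← hφ] at ha
    exact ha)
  have hg : Function.Injective g := by
    rw [injective_iff_map_eq_zero]
    intro x hx
    obtain ⟨r, rfl⟩ := Ideal.Quotient.mk_surjective x
    have h1 : φ' r = 0 := hx
    rw [Ideal.Quotient.eq_zero_iff_mem, ← hφ]
    exact h1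
  refine ⟨IsFractionRing.lift hg, ?_⟩
  apply RingHom.ext
  intro r
  unfold kapHom
  rw [RingHom.comp_apply, RingHom.comp_apply, IsFractionRing.lift_algebraMap]
  rfl

/-- the big matrix -/
noncomputable def big {c l N : ℕ} (M : Fin c → Matrix ν ν ℂ) (u : Fin l → ν → ℂ) (e : Fin N ≃ ν) :
    Matrix (Fin N) (Fin (c + l)) (MvPolynomial ν ℂ) :=
  (Matrix.fromCols (Mx M) (Matrix.of fun i k => C (u k i))).submatrix e finSumFinEquiv.symm

lemma rank_fromCols_le {κ m a b : Type} [Field κ] [Fintype m] [Fintype a] [Fintype b]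
    (A : Matrix m a κ) (B : Matrix m b κ) :
    (Matrix.fromCols A B).rank ≤ A.rank + B.rank := by
  unfold Matrix.rank
  refine le_trans (Submodule.finrank_mono ?_) (Submodule.finrank_add_le_finrank_add_finrank _ _)
  rintro _ ⟨v, rfl⟩
  rw [Matrix.mulVecLin_apply, Matrix.fromCols_mulVec]
  exact Submodule.add_mem_sup ⟨_, rfl⟩ ⟨_, rfl⟩

lemma rank_big_le {c l N : ℕ} (M : Fin c → Matrix ν ν ℂ) (u : Fin l → ν → ℂ) (e : Fin N ≃ ν)
    (P : Ideal (MvPolynomial ν ℂ)) [P.IsPrime] :
    ((big M u e).map (kapHom P)).rank ≤ rk M P + l := by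
  have h1 : (big M u e).map (kapHom P) = (Matrix.fromCols ((Mx M).map (kapHom P))
      ((Matrix.of fun (i : ν) (k : Fin l) => (C (u k i) : MvPolynomial ν ℂ)).map (kapHom P))).submatrix
        e finSumFinEquiv.symm := by
    ext i j
    unfold big
    simp only [Matrix.map_apply, Matrix.submatrix_apply]
    rcases finSumFinEquiv.symm j with k | k <;> rfl
  rw [h1, Matrix.rank_submatrix]
  refine (rank_fromCols_le _ _).trans (add_le_add le_rfl ?_)
  refine (Matrix.rank_le_card_width _).trans ?_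
  rw [Fintype.card_fin]

lemma rowDep_of_rank {c l N : ℕ} (M : Fin c → Matrix ν ν ℂ) (u : Fin l → ν → ℂ) (e : Fin N ≃ ν)
    (P : Ideal (MvPolynomial ν ℂ)) [P.IsPrime] (h : rk M P + l < N) :
    H54.AG.RowDep (big M u e) P := by
  have hr := (rank_big_le M u e P).trans_lt h
  have hdep : ∃ v : Fin N → FractionRing (MvPolynomial ν ℂ ⧸ P), v ≠ 0 ∧
      Matrix.vecMul v ((big M u e).map (kapHom P)) = 0 := by
    by_contra hcon
    push Not at hcon
    have hinj : Function.Injective (Matrix.vecMulLinear ((big M u e).map (kapHom P))) := by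
      rw [← LinearMap.ker_eq_bot, LinearMap.ker_eq_bot']
      intro v hv
      by_contra hv0
      exact hcon v hv0 hv
    have hrow : LinearIndependent (FractionRing (MvPolynomial ν ℂ ⧸ P))
        ((big M u e).map (kapHom P)).row := Matrix.vecMul_injective_iff.mp hinj
    rw [hrow.rank_matrix, Fintype.card_fin] at hr
    exact lt_irrefl _ hr
  have hdet := (H54.AG.field_dep _).2 hdep
  rw [H54.AG.rowDep_iff_minorsIn]
  intro f
  have h2 := hdet f
  rw [← kapHom_eq_zero P, RingHom.map_det]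
  exact h2

end H4

open H4

/-- (D1a) over a minimal bad prime the fibre of `Z` has a prime of transcendence degree at least
`d + ht P - 1` -/
theorem exists_big_fibre {A : Subalgebra ℂ (MvPolynomial ν ℂ)} {d c : ℕ}
    {M : Fin c → Matrix ν ν ℂ} (hM : Setup A d c M) (hS : Surj A)
    (hG : ∃ b : A, IsGood A d b) (P : Ideal (MvPolynomial ν ℂ)) [P.IsPrime] (hP : Bad M P)
    (hmin : ∀ (P' : Ideal (MvPolynomial ν ℂ)) [P'.IsPrime], P' < P → ¬ Bad M P') {h : ℕ}
    (hh : P.height = h) :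
    ∃ Q : Ideal (MvPolynomial ν (FractionRing (MvPolynomial ν ℂ ⧸ P))), Q.IsPrime ∧
      (IZ A).map (toFib P) ≤ Q ∧
      ((d + h : ℕ) : Cardinal) ≤ Algebra.trdeg (FractionRing (MvPolynomial ν ℂ ⧸ P))
          (MvPolynomial ν (FractionRing (MvPolynomial ν ℂ ⧸ P)) ⧸ Q) + 1 := by
  classical
  by_contra hno
  push Not at hno
  -- the height is positive
  have hh1 : 1 ≤ h := by
    by_contra hlt
    have h0 : h = 0 := by omega
    rw [h0, Nat.cast_zero, Ideal.height_eq_zero_iff, IsDomain.minimalPrimes_eq_singleton_bot,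
      Set.mem_singleton_iff] at hh
    obtain ⟨b, hb⟩ := hG
    have hb' : (b : MvPolynomial ν ℂ) ∉ P := by
      rw [hh, Ideal.mem_bot]
      obtain ⟨a, D, hg⟩ := hb
      exact fun h0 => hg.1 (Subtype.ext h0)
    have := rk_eq_of_good hM b hb P hb'
    have := hP.1
    omega
  -- `d + h ≥ 2`
  have hdh : 2 ≤ d + h := by
    by_contra hlt
    have hk : (RingHom.ker (eval (0 : ν → FractionRing (MvPolynomial ν ℂ ⧸ P)))).IsPrime :=
      RingHom.ker_isPrime _
    have h1 := hno _ hk (fib_le P)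
    have h2 : ((d + h : ℕ) : Cardinal) ≤ 1 := by
      have : d + h ≤ 1 := by omega
      exact_mod_cast this
    exact absurd (h2.trans (self_le_add_left _ _)) (not_le.2 h1)
  obtain ⟨l, hl⟩ : ∃ l, d + h = l + 2 := ⟨d + h - 2, by omega⟩
  obtain ⟨u, hu⟩ := exists_hyperplanes ((IZ A).map (toFib P)) (fun F hF m => fib_component P F hF m) l
    (by
      intro Q hQ hJQ
      have h1 := hno Q hQ hJQ
      have h2 : Algebra.trdeg (FractionRing (MvPolynomial ν ℂ ⧸ P))
          (MvPolynomial ν (FractionRing (MvPolynomial ν ℂ ⧸ P)) ⧸ Q) < Cardinal.aleph0 :=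
        trdeg_lt_aleph0_of_finiteType
      obtain ⟨t, ht⟩ := Cardinal.lt_aleph0.1 h2
      rw [ht] at h1 ⊢
      have h3 : t + 1 < d + h := by exact_mod_cast h1
      have h4 : t ≤ l := by omega
      exact_mod_cast h4)
  set N := Fintype.card ν with hN
  let e : Fin N ≃ ν := (Fintype.equivFin ν).symm
  have hcard : c + d = N := hM.card
  have hrk : h + rk M P ≤ c := by
    have := hP.2
    rw [hh] at this
    exact_mod_cast this
  have hdepP : H54.AG.RowDep (big M u e) P := rowDep_of_rank M u e P (by omega)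
  have hNm : N ≤ (c + l) + 1 := by omega
  have hfin := H54.AG.height_add_le N (MvPolynomial ν ℂ) (c + l) (big M u e) P hNm hdepP (by
    intro Q hQ hlt hdep
    obtain ⟨v, ⟨i₀, hi₀⟩, hv⟩ := hdep
    -- the point
    let ξ : ν → FractionRing (MvPolynomial ν ℂ ⧸ Q) := fun i => kapHom Q (v (e.symm i))
    have hξ : ξ ≠ 0 := by
      intro h0
      apply hi₀
      have h1 := congrFun h0 (e i₀)
      simp only [ξ, Equiv.symm_apply_apply, Pi.zero_apply] at h1
      rwa [kapHom_eq_zero] at h1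
    have hcol : ∀ j, ∑ i : ν, ξ i * kapHom Q (big M u e (e.symm i) j) = 0 := by
      intro j
      have h1 := (kapHom_eq_zero Q _).2 (hv j)
      rw [map_sum, ← Equiv.sum_comp e.symm] at h1
      rw [← h1]
      exact Finset.sum_congr rfl fun i _ => (map_mul _ _ _).symm
    have hcolM : ∀ j : Fin c, ∑ i : ν, ξ i * kapHom Q (Mx M i j) = 0 := by
      intro j
      rw [← hcol (finSumFinEquiv (Sum.inl j))]
      refine Finset.sum_congr rfl fun i _ => ?_
      unfold big
      rw [Matrix.submatrix_apply, Equiv.symm_apply_apply, Equiv.apply_symm_apply]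
      rfl
    have hcolu : ∀ k : Fin l, ∑ i : ν, kapHom Q (C (u k i)) * ξ i = 0 := by
      intro k
      rw [← hcol (finSumFinEquiv (Sum.inr k))]
      refine Finset.sum_congr rfl fun i _ => ?_
      unfold big
      rw [Matrix.submatrix_apply, Equiv.symm_apply_apply, Equiv.apply_symm_apply, mul_comm]
      rfl
    let ψ : MvPolynomial (ν ⊕ ν) ℂ →+* FractionRing (MvPolynomial ν ℂ ⧸ Q) :=
      eval₂Hom ((kapHom Q).comp C) (Sum.elim (fun i => kapHom Q (X i)) ξ)
    have hψp : (RingHom.ker ψ).IsPrime := RingHom.ker_isPrime ψ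
    have hψS : ∀ f, ψ (inS f) = kapHom Q f := by
      intro f
      have h2 : ψ.comp (inS : MvPolynomial ν ℂ →ₐ[ℂ] _).toRingHom = kapHom Q := by
        apply MvPolynomial.ringHom_ext
        · intro r
          simp only [AlgHom.toRingHom_eq_coe, RingHom.comp_apply, RingHom.coe_coe]
          rw [inS, rename_C]
          simp only [ψ]
          rw [coe_eval₂Hom, eval₂_C]
          rfl
        · intro i
          simp only [AlgHom.toRingHom_eq_coe, RingHom.comp_apply, RingHom.coe_coe]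
          rw [inS, rename_X]
          simp only [ψ]
          rw [coe_eval₂Hom, eval₂_X]
          rfl
      exact congrArg (fun φ : MvPolynomial ν ℂ →+* _ => φ f) h2
    have hcomap : (RingHom.ker ψ).comap (inS : MvPolynomial ν ℂ →ₐ[ℂ] _) = Q := by
      ext f
      rw [Ideal.mem_comap, RingHom.mem_ker, hψS, kapHom_eq_zero]
    have hmu : ∀ j, muX (M j) ∈ RingHom.ker ψ := by
      intro j
      rw [RingHom.mem_ker, ← hcolM j]
      unfold muX
      rw [map_sum]
      refine Finset.sum_congr rfl fun i _ => ?_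
      unfold Mx
      rw [Matrix.of_apply, map_sum, map_sum, Finset.mul_sum]
      refine Finset.sum_congr rfl fun k _ => ?_
      rw [map_mul, map_mul, map_mul]
      simp only [ψ]
      rw [coe_eval₂Hom, eval₂_C, eval₂_X, eval₂_X]
      simp only [Sum.elim_inl, Sum.elim_inr, RingHom.comp_apply]
      ring
    have hIZ := IZ_le_of_below hM hS hG (RingHom.ker ψ) hmu (by
      intro P' hP' hle
      rw [hcomap] at hle
      exact hmin P' (lt_of_le_of_lt hle hlt))
    obtain ⟨κ', _, φ', ξ', hker, hξ', hF', hu'⟩ := exists_specialization (IZ A)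
      (fun F hF m => IZ_component A F hF m) Q P hlt.le (FractionRing (MvPolynomial ν ℂ ⧸ Q))
      (kapHom Q) (by
        ext f
        rw [RingHom.mem_ker, kapHom_eq_zero]) ξ hξ (fun F hF => hIZ hF) u hcolu
    obtain ⟨φ, hφ⟩ := exists_factor P φ' hker
    apply hξ'
    apply hu κ' φ ξ'
    · intro F hF
      have h3 : (IZ A).map (toFib P) ≤ RingHom.ker (eval₂Hom φ ξ') := by
        rw [Ideal.map_le_iff_le_comap]
        intro G hG'
        rw [Ideal.mem_comap, RingHom.mem_ker, coe_eval₂Hom, eval_toFib P φ φ' hφ]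
        exact hF' G hG'
      exact h3 hF
    · intro k
      rw [← hu' k]
      refine Finset.sum_congr rfl fun i _ => ?_
      congr 1
      rw [← hφ, RingHom.comp_apply]
      congr 1)
  rw [hh] at hfin
  have h5 : h + N ≤ (c + l) + 1 := by exact_mod_cast hfin
  omega

/-- **(D1)** no prime is bad -/
theorem d1 (K : Subgroup (Matrix.unitaryGroup ν ℂ)) {d : ℕ}
    (hd : Algebra.trdeg ℂ (InvAlg K) = d) (hS : Surj (InvAlg K)) {c : ℕ}
    {M : Fin c → Matrix ν ν ℂ} (hM : Setup (InvAlg K) d c M)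
    (P : Ideal (MvPolynomial ν ℂ)) [P.IsPrime] : ¬ Bad M P := by
  classical
  have hft := invAlg_finiteType K
  have hG := exists_good (InvAlg K) hd
  intro hbad
  -- a bad prime of minimal height
  have hht : ∀ I : Ideal (MvPolynomial ν ℂ), I.IsPrime → ∃ n : ℕ, I.height = n := by
    intro I hI
    have h1 : I.height ≠ ⊤ := Ideal.height_ne_top hI.ne_top
    exact ⟨I.height.toNat, (ENat.coe_toNat h1).symm⟩
  have hex : ∃ n : ℕ, ∃ (P' : Ideal (MvPolynomial ν ℂ)) (_ : P'.IsPrime), Bad M P' ∧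
      P'.height = n := by
    obtain ⟨n, hn⟩ := hht P inferInstance
    exact ⟨n, P, inferInstance, hbad, hn⟩
  obtain ⟨P₁, hP₁, hbad₁, hh⟩ := Nat.find_spec hex
  set h := Nat.find hex with hdef
  have hmin : ∀ (P' : Ideal (MvPolynomial ν ℂ)) [P'.IsPrime], P' < P₁ → ¬ Bad M P' := by
    intro P' hP' hlt hb'
    obtain ⟨n, hn⟩ := hht P' hP'
    have h1 : h ≤ n := Nat.find_min' hex ⟨P', hP', hb', hn⟩
    have h2 := Ideal.height_strict_mono_of_isPrime_of_isPrime hlt
    rw [hn, hh] at h2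
    have h3 : n < h := by exact_mod_cast h2
    omega
  obtain ⟨Q, hQ, hJQ, htr⟩ := exists_big_fibre hM hS hG P₁ hbad₁ hmin hh
  have hQc : (Q.comap (toFib P₁)).IsPrime := Ideal.IsPrime.comap _
  apply d2 K hd hS (Q.comap (toFib P₁)) (Ideal.map_le_iff_le_comap.1 hJQ)
  · intro b hb
    rw [Ideal.mem_comap, toFib_inS]
    have hbP : (b : MvPolynomial ν ℂ) ∈ P₁ := by
      by_contra hcon
      have h1 := rk_eq_of_good hM b hb P₁ hcon
      have h2 := hbad₁.1
      omega
    rw [(kapHom_eq_zero P₁ _).2 hbP, map_zero]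
    exact Q.zero_mem
  · rw [trdeg_comap_toFib P₁ Q]
    have hL4 := height_add_trdeg (k := ℂ) P₁
    rw [MvPolynomial.trdeg_of_isDomain, Cardinal.lift_id, Cardinal.mk_fintype,
      Cardinal.toENat_nat, hh] at hL4
    have h2 : Algebra.trdeg (FractionRing (MvPolynomial ν ℂ ⧸ P₁))
        (MvPolynomial ν (FractionRing (MvPolynomial ν ℂ ⧸ P₁)) ⧸ Q) < Cardinal.aleph0 :=
      trdeg_lt_aleph0_of_finiteType
    have h3 : Algebra.trdeg ℂ (MvPolynomial ν ℂ ⧸ P₁) < Cardinal.aleph0 :=
      trdeg_lt_aleph0_of_finiteType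
    obtain ⟨t, ht⟩ := Cardinal.lt_aleph0.1 h2
    obtain ⟨r, hr⟩ := Cardinal.lt_aleph0.1 h3
    rw [ht] at htr ⊢
    rw [hr] at hL4 ⊢
    rw [Cardinal.toENat_nat] at hL4
    have h4 : h + r = Fintype.card ν := by exact_mod_cast hL4
    have h5 : d + h ≤ t + 1 := by exact_mod_cast htr
    have h6 : Fintype.card ν + d ≤ r + t + 1 := by omega
    exact_mod_cast h6

end H50.Z
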