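import Mathlib
import Pool.Agent.H85.CA.L3

/-! (L3) Unmixedness in polynomial rings (Macaulay). -/

open MvPolynomial

namespace H50.Z

/-- If every prime containing `μ_1, …, μ_c` and `b` has height at least `c + 1` then `b` is a
nonzerodivisor modulo `(μ_1, …, μ_c)`. -/
theorem unmixed {k σ : Type} [Field k] [Finite σ] {c : ℕ} (μ : Fin c → MvPolynomial σ k)
    (b : MvPolynomial σ k)
    (h : ∀ P : Ideal (MvPolynomial σ k), P.IsPrime → (∀ i, μ i ∈ P) → b ∈ P →
      ((c + 1 : ℕ) : ℕ∞) ≤ P.height)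
    (f : MvPolynomial σ k) (hf : b * f ∈ Ideal.span (Set.range μ)) :
    f ∈ Ideal.span (Set.range μ) :=
  H85.CA.unmixed μ b h hf

end H50.Z
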