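import Pool.Agent.H50.Z.H1_Height
import Pool.Agent.H50.Z.L3_Unmixed
import Pool.Agent.H50.Z.O1_Op

/-! (9) `I_Z = (mu_1, …, mu_c)` and graded surjectivity. -/

open MvPolynomial H50.DO

set_option linter.unusedSectionVars false

namespace H50.Z

variable {ν : Type} [Fintype ν] [DecidableEq ν]

/-- the symbol of a linear vector field -/
theorem dsub_muX (M : Matrix ν ν ℂ) (f : MvPolynomial ν ℂ) : dsub f (muX M) = lv M f := by
  have h1 : lv M f = ∑ i, pderiv i f * lv M (X i) := by
    induction f using MvPolynomial.induction_on with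
    | C c => simp
    | add p q hp hq =>
      rw [map_add, hp, hq, ← Finset.sum_add_distrib]
      exact Finset.sum_congr rfl fun i _ => by rw [map_add, add_mul]
    | mul_X p j hp =>
      rw [Derivation.leibniz, hp, smul_eq_mul, smul_eq_mul, Finset.mul_sum]
      have h3 : ∀ i, pderiv i (p * X j) * lv M (X i) =
          p * (if i = j then lv M (X i) else 0) + X j * (pderiv i p * lv M (X i)) := by
        intro i
        rw [Derivation.leibniz, smul_eq_mul, smul_eq_mul]
        by_cases hi : i = j
        · subst hi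
          rw [pderiv_X_self, if_pos rfl]
          ring
        · rw [pderiv_X_of_ne (Ne.symm hi), if_neg hi]
          ring
      rw [Finset.sum_congr rfl fun i _ => h3 i, Finset.sum_add_distrib, ← Finset.mul_sum]
      congr 1
      simp
  rw [h1, muX, map_sum]
  refine Finset.sum_congr rfl fun i _ => ?_
  rw [map_sum, lv, mkDerivation_X, Finset.mul_sum]
  refine Finset.sum_congr rfl fun j _ => ?_
  rw [map_mul, map_mul, dsub, aeval_C, aeval_X, aeval_X, Sum.elim_inl, Sum.elim_inr, algebraMap_eq]
  ring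

theorem muX_mem_IZ {A : Subalgebra ℂ (MvPolynomial ν ℂ)} {M : Matrix ν ν ℂ}
    (h : ∀ a ∈ A, lv M a = 0) : muX M ∈ IZ A := by
  rw [mem_IZ]
  intro a ha
  rw [dsub_muX, h a ha]

theorem xiHom_muX (M : Matrix ν ν ℂ) : XiHom (muX M) 1 := by
  unfold muX XiHom
  refine IsWeightedHomogeneous.sum _ _ _ fun i _ => IsWeightedHomogeneous.sum _ _ _ fun j _ => ?_
  have h1 : IsWeightedHomogeneous wxi (C (M i j) * X (Sum.inl j) : MvPolynomial (ν ⊕ ν) ℂ) (0 + 0) :=
    (isWeightedHomogeneous_C _ _).mul (isWeightedHomogeneous_X ℂ wxi (Sum.inl j))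
  have h2 := h1.mul (isWeightedHomogeneous_X ℂ (wxi (ν := ν)) (Sum.inr i))
  exact h2

theorem comp_mul {μ : MvPolynomial (ν ⊕ ν) ℂ} (hμ : XiHom μ 1) (g : MvPolynomial (ν ⊕ ν) ℂ) :
    (∀ k, weightedHomogeneousComponent wxi (k + 1) (g * μ) =
      weightedHomogeneousComponent wxi k g * μ) ∧
    weightedHomogeneousComponent wxi 0 (g * μ) = 0 := by
  induction g using MvPolynomial.induction_on' with
  | monomial m c =>
    have h1 : IsWeightedHomogeneous wxi (monomial m c : MvPolynomial (ν ⊕ ν) ℂ)
        (Finsupp.weight wxi m) := isWeightedHomogeneous_monomial _ _ _ rfl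
    have h2 := h1.mul hμ
    constructor
    · intro k
      by_cases hk : k = Finsupp.weight wxi m
      · subst hk
        rw [h1.weightedHomogeneousComponent_same, h2.weightedHomogeneousComponent_same]
      · rw [h1.weightedHomogeneousComponent_ne k hk,
          h2.weightedHomogeneousComponent_ne (k + 1) (by omega), zero_mul]
    · rw [h2.weightedHomogeneousComponent_ne 0 (by omega)]
  | add p q hp hq =>
    constructor
    · intro k
      rw [add_mul, map_add, map_add, hp.1, hq.1, add_mul]
    · rw [add_mul, map_add, hp.2, hq.2, add_zero]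

theorem DOp_der (D : Derivation ℂ (MvPolynomial ν ℂ) (MvPolynomial ν ℂ)) :
    DOp 2 (D.toLinearMap : Module.End ℂ (MvPolynomial ν ℂ)) := by
  intro f
  have h1 : ad f (D.toLinearMap : Module.End ℂ (MvPolynomial ν ℂ)) = LinearMap.mulLeft ℂ (D f) := by
    refine LinearMap.ext fun a => ?_
    rw [ad_apply, LinearMap.mulLeft_apply]
    change D (f * a) - f * D a = D f * a
    rw [Derivation.leibniz, smul_eq_mul, smul_eq_mul]
    ring
  rw [h1]
  exact DOp_mulLeft _

theorem symb_der (D : Derivation ℂ (MvPolynomial ν ℂ) (MvPolynomial ν ℂ)) (f : MvPolynomial ν ℂ) :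
    symb f 1 (D.toLinearMap : Module.End ℂ (MvPolynomial ν ℂ)) = D f := by
  unfold symb
  rw [Nat.factorial_one, Nat.cast_one, inv_one, one_smul]
  change ad f (D.toLinearMap : Module.End ℂ (MvPolynomial ν ℂ)) 1 = D f
  rw [ad_apply]
  change D (f * 1) - f * D 1 = D f
  rw [mul_one, D.map_one_eq_zero, mul_zero, sub_zero]

/-- (E2) if no prime is bad then `I_Z` is generated by the `mu_j` -/
theorem IZ_eq_span {A : Subalgebra ℂ (MvPolynomial ν ℂ)} {d c : ℕ}
    {M : Fin c → Matrix ν ν ℂ} (hM : Setup A d c M) (hS : Surj A) (hG : ∃ b : A, IsGood A d b)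
    (hbad : ∀ (P : Ideal (MvPolynomial ν ℂ)) [P.IsPrime], ¬ Bad M P) :
    IZ A = Ideal.span (Set.range fun j => muX (M j)) := by
  apply le_antisymm
  · intro F hF
    obtain ⟨b, hb⟩ := hG
    obtain ⟨m, hm⟩ := pow_mul_mem_span hM hS b hb F hF
    refine unmixed (fun j => muX (M j)) (inS (b : MvPolynomial ν ℂ) ^ m) ?_ F hm
    intro N hN hmu hbN
    have hb1 : inS (b : MvPolynomial ν ℂ) ∈ N := hN.mem_of_pow_mem _ hbN
    have h1 := height_add_rk_le M N hmu
    have h2 : (b : MvPolynomial ν ℂ) ∈ N.comap (inS : MvPolynomial ν ℂ →ₐ[ℂ] _) := hb1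
    have h3 := hbad (N.comap (inS : MvPolynomial ν ℂ →ₐ[ℂ] _))
    rw [Bad, not_and, not_le] at h3
    rcases Nat.lt_or_ge (rk M (N.comap (inS : MvPolynomial ν ℂ →ₐ[ℂ] _))) c with h4 | h4
    · have h5 := h3 h4
      have h6 : ((c + 1 : ℕ) : ℕ∞) ≤ (N.comap (inS : MvPolynomial ν ℂ →ₐ[ℂ] _)).height +
          (rk M (N.comap (inS : MvPolynomial ν ℂ →ₐ[ℂ] _)) : ℕ∞) := by
        push_cast
        exact Order.add_one_le_of_lt h5
      exact h6.trans h1
    · have h5 : rk M (N.comap (inS : MvPolynomial ν ℂ →ₐ[ℂ] _)) = c := le_antisymm (rk_le _ _) h4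
      rw [h5] at h1
      refine le_trans ?_ h1
      have h6 : (1 : ℕ∞) ≤ (N.comap (inS : MvPolynomial ν ℂ →ₐ[ℂ] _)).height := by
        rw [Order.one_le_iff_ne_zero]
        intro h7
        have h8 : N.comap (inS : MvPolynomial ν ℂ →ₐ[ℂ] _) ∈ minimalPrimes (MvPolynomial ν ℂ) :=
          Ideal.height_eq_zero_iff.1 h7
        rw [IsDomain.minimalPrimes_eq_singleton_bot, Set.mem_singleton_iff] at h8
        rw [h8, Ideal.mem_bot] at h2
        obtain ⟨_, _, hb0, -, -⟩ := hb
        exact hb0 (Subtype.ext h2)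
      push_cast
      rw [add_comm]
      gcongr
  · rw [Ideal.span_le]
    rintro _ ⟨j, rfl⟩
    exact muX_mem_IZ (hM.kill j)

/-- (E3) -/
theorem grSurj_of_span {A : Subalgebra ℂ (MvPolynomial ν ℂ)} {c : ℕ}
    {M : Fin c → Matrix ν ν ℂ} (hkill : ∀ j, ∀ a ∈ A, lv (M j) a = 0) (hS : Surj A)
    (hI : IZ A = Ideal.span (Set.range fun j => muX (M j))) : GrSurj A := by
  intro n P hP
  have key : ∀ (m : ℕ) (Q : Module.End ℂ (MvPolynomial ν ℂ)), DOp m Q →
      (∀ a : A, Q a = ((P a : A) : MvPolynomial ν ℂ)) →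
      ∃ Q' : Module.End ℂ (MvPolynomial ν ℂ), DOp n Q' ∧
        ∀ a : A, Q' a = ((P a : A) : MvPolynomial ν ℂ) := by
    intro m
    induction m with
    | zero =>
      intro Q hQ hQP
      exact ⟨Q, hQ.mono (Nat.zero_le n), hQP⟩
    | succ m ih =>
      intro Q hQ hQP
      rcases Nat.lt_or_ge m n with hmn | hmn
      · exact ⟨Q, hQ.mono hmn, hQP⟩
      obtain ⟨F, hF, hsymb⟩ := exists_symbol hQ
      have hFI : F ∈ IZ A := by
        rw [mem_IZ]
        intro a ha
        rw [← hsymb]
        have h1 := symb_restrict hQP ⟨a, ha⟩ m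
        rw [h1]
        have h2 : symb (⟨a, ha⟩ : A) m P = 0 := by
          rw [symb, hP.adI_eq_zero _ hmn]
          simp
        rw [h2]
        rfl
      rw [hI, Ideal.mem_span_range_iff_exists_fun] at hFI
      obtain ⟨g, hg⟩ := hFI
      rcases m with _ | k
      · -- order zero
        have h1 : F = 0 := by
          have h2 : weightedHomogeneousComponent wxi 0 F = F := hF.weightedHomogeneousComponent_same
          rw [← h2, ← hg, map_sum]
          exact Finset.sum_eq_zero fun j _ => (comp_mul (xiHom_muX (M j)) (g j)).2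
        refine ih Q (DOp_of_symb_eq_zero hQ fun f => ?_) hQP
        rw [hsymb, h1, map_zero]
      · have h1 : F = ∑ j, weightedHomogeneousComponent wxi k (g j) * muX (M j) := by
          have h2 : weightedHomogeneousComponent wxi (k + 1) F = F :=
            hF.weightedHomogeneousComponent_same
          rw [← h2, ← hg, map_sum]
          exact Finset.sum_congr rfl fun j _ => (comp_mul (xiHom_muX (M j)) (g j)).1 k
        have hGj : ∀ j, XiHom (weightedHomogeneousComponent wxi k (g j)) k := fun j =>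
          weightedHomogeneousComponent_isWeightedHomogeneous k (g j)
        let R : Module.End ℂ (MvPolynomial ν ℂ) := ∑ j,
          Op (weightedHomogeneousComponent wxi k (g j)) * (lv (M j)).toLinearMap
        have hR : DOp (k + 2) R := by
          refine DOp.sum _ fun j _ => ?_
          exact DOp.comp (m := k) (n := 1) (DOp_Op (hGj j)) (DOp_der _)
        have hR2 : ∀ f, symb f (k + 1) R = dsub f F := by
          intro f
          rw [h1, map_sum]
          change symb f (k + 1) (∑ j, _) = _
          rw [symb_sum]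
          refine Finset.sum_congr rfl fun j _ => ?_
          rw [symb_mul f (DOp_Op (hGj j)) (DOp_der _), symb_Op (hGj j), symb_der, map_mul, dsub_muX]
        refine ih (Q - R) (DOp_of_symb_eq_zero (hQ.sub hR) fun f => ?_) fun a => ?_
        · have h3 := symb_add f (k + 1) (Q - R) R
          rw [sub_add_cancel, hsymb, hR2] at h3
          exact (left_eq_add.1 (by rw [add_comm] at h3; exact h3))
        · rw [LinearMap.sub_apply, hQP]
          have h4 : R (a : MvPolynomial ν ℂ) = 0 := by
            change (∑ j, Op (weightedHomogeneousComponent wxi k (g j)) * (lv (M j)).toLinearMap)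
              (a : MvPolynomial ν ℂ) = 0
            rw [LinearMap.sum_apply]
            refine Finset.sum_eq_zero fun j _ => ?_
            rw [Module.End.mul_apply]
            change Op _ (lv (M j) (a : MvPolynomial ν ℂ)) = 0
            rw [hkill j a a.2, map_zero]
          rw [h4, sub_zero]
  obtain ⟨Q, ⟨m, hm⟩, hQP⟩ := hS P ⟨n, hP⟩
  exact key m Q hm hQP

end H50.Z
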