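import Pool.Agent.H50.Z.H4_D1
import Pool.Agent.H50.Z.H5_End
import Pool.Agent.H50.Z.F4_Op
import Pool.Agent.H50.Z.F7_Dim

/-! The core theorem: `K` maximal, no constant vector field killing the invariants. -/

open MvPolynomial H50.DO

set_option linter.unusedSectionVars false

namespace H50.Z

variable {ν : Type} [Fintype ν] [DecidableEq ν]

theorem exists_trdeg (K : Subgroup (Matrix.unitaryGroup ν ℂ)) :
    ∃ d : ℕ, Algebra.trdeg ℂ (InvAlg K) = d := by
  have := invAlg_finiteType K
  exact Cardinal.lt_aleph0.1 trdeg_lt_aleph0_of_finiteType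

theorem core (K : Subgroup (Matrix.unitaryGroup ν ℂ)) (hmax : MaxK K)
    (hnc : NoConst (InvAlg K)) (hS : Surj (InvAlg K)) : GrSurj (InvAlg K) := by
  obtain ⟨d, hd⟩ := exists_trdeg K
  have := invAlg_finiteType K
  have hG := exists_good (InvAlg K) hd
  have hstab := fun x hx => stab_eq_bot K hmax hnc hd hS x hx
  have hdim := finrank_gg K hmax hd hS hstab
  let B := Module.finBasis ℂ (gg (InvAlg K))
  have hM : Setup (InvAlg K) d (Module.finrank ℂ (gg (InvAlg K)))
      (fun j => ((B j : gg (InvAlg K)) : Matrix ν ν ℂ)) := by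
    refine ⟨fun j a ha => (B j).2.1 a ha, hdim, ?_⟩
    intro x hx
    rw [Fintype.linearIndependent_iff]
    intro g hg
    have h1 : (∑ j, g j • ((B j : gg (InvAlg K)) : Matrix ν ν ℂ)) ∈ stab (InvAlg K) x := by
      refine ⟨Submodule.sum_mem _ fun j _ => Submodule.smul_mem _ _ (B j).2, ?_⟩
      rw [Matrix.sum_mulVec]
      simp only [Matrix.smul_mulVec]
      exact hg
    rw [hstab x hx, Submodule.mem_bot] at h1
    have h2 : ∑ j, g j • B j = 0 := by
      apply Subtype.ext
      rw [Submodule.coe_zero, ← h1, Submodule.coe_sum]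
      rfl
    exact Fintype.linearIndependent_iff.1 B.linearIndependent g h2
  exact grSurj_of_span hM.kill hS (IZ_eq_span hM hS hG (fun P _ => d1 K hd hS hM P))

end H50.Z
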