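import Pool.Agent.H50.Z.O1_Op
import Pool.Agent.H50.Z.R1b_ReyL

/-! (J1) Averaging of lifts. -/

open MvPolynomial H50.DO

set_option linter.unusedSectionVars false

namespace H50.Z

variable {ν : Type} [Fintype ν] [DecidableEq ν]

/-- `act k` is surjective -/
theorem act_act_inv (k : Matrix.unitaryGroup ν ℂ) (f : MvPolynomial ν ℂ) :
    act (k : Matrix ν ν ℂ) (act ((k⁻¹ : Matrix.unitaryGroup ν ℂ) : Matrix ν ν ℂ) f) = f := by
  rw [← act_mul]
  have h : ((k⁻¹ : Matrix.unitaryGroup ν ℂ) : Matrix ν ν ℂ) * (k : Matrix ν ν ℂ) = 1 := by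
    have h1 : k⁻¹ * k = 1 := inv_mul_cancel k
    have h2 := congrArg (fun x : Matrix.unitaryGroup ν ℂ => (x : Matrix ν ν ℂ)) h1
    exact h2
  rw [h, act_one]

/-- conjugation by `act k` preserves the order -/
theorem DOp_conjAct (k : Matrix.unitaryGroup ν ℂ) {n : ℕ} {P P' : Module.End ℂ (MvPolynomial ν ℂ)}
    (hP : DOp n P)
    (h : ∀ g, act (k : Matrix ν ν ℂ) (P g) = P' (act (k : Matrix ν ν ℂ) g)) : DOp n P' := by
  induction n generalizing P P' with
  | zero =>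
    rw [DOp_zero_iff] at hP ⊢
    apply LinearMap.ext
    intro g
    have h1 := h (act ((k⁻¹ : Matrix.unitaryGroup ν ℂ) : Matrix ν ν ℂ) g)
    rw [act_act_inv, hP, LinearMap.zero_apply, map_zero] at h1
    rw [← h1, LinearMap.zero_apply]
  | succ n ih =>
    intro f
    have h2 := hP (act ((k⁻¹ : Matrix.unitaryGroup ν ℂ) : Matrix ν ν ℂ) f)
    refine ih h2 ?_
    intro g
    rw [ad_apply, ad_apply, map_sub, h, map_mul (act (k : Matrix ν ν ℂ)),
      map_mul (act (k : Matrix ν ν ℂ)), act_act_inv, h]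

/-- a lift of an operator on the invariants can be made `K`-invariant without raising the order:
`Q = Op F`, replace `F` by `ρ F`, `ρ` the Reynolds operator of `dbl K` -/
theorem exists_invariant_lift (K : Subgroup (Matrix.unitaryGroup ν ℂ)) {n : ℕ}
    {P : Module.End ℂ (InvAlg K)} {Q : Module.End ℂ (MvPolynomial ν ℂ)} (hQ : DOp n Q)
    (hPQ : ∀ a : InvAlg K, Q a = ((P a : InvAlg K) : MvPolynomial ν ℂ)) :
    ∃ Q' : Module.End ℂ (MvPolynomial ν ℂ), DOp n Q' ∧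
      (∀ k ∈ K, ∀ f, act (k : Matrix ν ν ℂ) (Q' f) = Q' (act (k : Matrix ν ν ℂ) f)) ∧
      ∀ a : InvAlg K, Q' a = ((P a : InvAlg K) : MvPolynomial ν ℂ) := by
  obtain ⟨F, hF, -⟩ := exists_Op_eq hQ
  obtain ⟨ρ, hρ, -, hcomb⟩ := exists_rey (dbl K)
  obtain ⟨s, c, hs, hc, hsum⟩ := hcomb F.totalDegree
  have hFs := hsum F le_rfl
  have hk : ∀ k ∈ s, ∃ l ∈ K, dblHom l = k := fun k hk => Subgroup.mem_map.1 (hs k hk)
  have hOp : Op (ρ F) = ∑ k ∈ s, c k • Op (act (k : Matrix (ν ⊕ ν) (ν ⊕ ν) ℂ) F) := by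
    rw [hFs, map_sum]
    exact Finset.sum_congr rfl fun k _ => by rw [map_smul]
  refine ⟨Op (ρ F), ?_, ?_, ?_⟩
  · rw [hOp]
    refine DOp.sum s fun k hks => ?_
    obtain ⟨l, -, rfl⟩ := hk k hks
    refine DOp.smul _ (DOp_conjAct l hQ ?_)
    intro g
    rw [hF]
    exact act_Op l F g
  · intro k hkK f
    have h1 : act (dblM (k : Matrix ν ν ℂ)) (ρ F) = ρ F :=
      hρ F (dblHom k) (Subgroup.mem_map_of_mem _ hkK)
    rw [act_Op, h1]
  · intro a
    rw [hOp, LinearMap.sum_apply]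
    have h2 : ∀ k ∈ s, (c k • Op (act (k : Matrix (ν ⊕ ν) (ν ⊕ ν) ℂ) F)) (a : MvPolynomial ν ℂ) =
        c k • ((P a : InvAlg K) : MvPolynomial ν ℂ) := by
      intro k hks
      obtain ⟨l, hl, rfl⟩ := hk k hks
      rw [LinearMap.smul_apply]
      congr 1
      have h3 := act_Op l F (a : MvPolynomial ν ℂ)
      rw [a.2 l hl, ← hF, hPQ, (P a).2 l hl] at h3
      exact h3.symm
    rw [Finset.sum_congr rfl h2, ← Finset.sum_smul, hc, one_smul]

end H50.Z
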