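import Pool.Agent.H50.Z.Defs

/-! (J2) Transfer of (graded) surjectivity: isomorphisms, superfluous variables. -/

open MvPolynomial H50.DO

set_option linter.unusedSectionVars false

namespace H50.Z

/-- differential operators are transported to retracts -/
theorem DOp_retract {B C : Type*} [CommRing B] [Algebra ℂ B] [CommRing C] [Algebra ℂ C]
    (i : B →ₐ[ℂ] C) (r : C →ₐ[ℂ] B) (hri : ∀ b, r (i b) = b) {n : ℕ} {Q : Module.End ℂ C}
    (hQ : DOp n Q) : DOp n (r.toLinearMap ∘ₗ Q ∘ₗ i.toLinearMap) := by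
  induction n generalizing Q with
  | zero =>
    rw [DOp_zero_iff] at hQ ⊢
    rw [hQ]
    ext b
    simp
  | succ n ih =>
    intro f
    have h1 : ad f (r.toLinearMap ∘ₗ Q ∘ₗ i.toLinearMap)
        = r.toLinearMap ∘ₗ (ad (i f) Q) ∘ₗ i.toLinearMap := by
      ext b
      simp only [ad_apply, LinearMap.comp_apply, AlgHom.toLinearMap_apply, map_mul, map_sub, hri]
    rw [h1]
    exact ih (hQ (i f))

/-- differential operators are transported by isomorphisms -/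
theorem DOp_conj {A B : Type*} [CommRing A] [Algebra ℂ A] [CommRing B] [Algebra ℂ B]
    (φ : A ≃ₐ[ℂ] B) {n : ℕ} {P : Module.End ℂ A} (hP : DOp n P) :
    DOp n (φ.toLinearEquiv.toLinearMap ∘ₗ P ∘ₗ φ.symm.toLinearEquiv.toLinearMap) :=
  DOp_retract (φ.symm : B →ₐ[ℂ] A) (φ : A →ₐ[ℂ] B) (fun b => φ.apply_symm_apply b) hP

/-- operators on the image of a subalgebra -/
theorem exists_pull {B C : Type*} [CommRing B] [Algebra ℂ B] [CommRing C] [Algebra ℂ C]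
    (A : Subalgebra ℂ B) (i : B →ₐ[ℂ] C) (hi : Function.Injective i) {n : ℕ}
    {P : Module.End ℂ (A.map i)} (hP : DOp n P) :
    ∃ P₀ : Module.End ℂ A, DOp n P₀ ∧ ∀ (a : A) (a' : A.map i), (a' : C) = i a →
      ((P a' : A.map i) : C) = i ((P₀ a : A) : B) := by
  refine ⟨_, DOp_conj (A.equivMapOfInjective i hi).symm hP, fun a a' ha => ?_⟩
  have h1 : a' = A.equivMapOfInjective i hi a := Subtype.ext ha
  rw [h1]
  have h2 : ∀ c : A.map i, i (((A.equivMapOfInjective i hi).symm c : A) : B) = c := by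
    intro c
    obtain ⟨b, rfl⟩ := (A.equivMapOfInjective i hi).surjective c
    rw [AlgEquiv.symm_apply_apply]
    rfl
  simp only [LinearMap.comp_apply, AlgEquiv.symm_symm]
  exact (h2 _).symm

theorem exists_push {B C : Type*} [CommRing B] [Algebra ℂ B] [CommRing C] [Algebra ℂ C]
    (A : Subalgebra ℂ B) (i : B →ₐ[ℂ] C) (hi : Function.Injective i) {n : ℕ}
    {P : Module.End ℂ A} (hP : DOp n P) :
    ∃ P₁ : Module.End ℂ (A.map i), DOp n P₁ ∧ ∀ (a : A) (a' : A.map i), (a' : C) = i a →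
      ((P₁ a' : A.map i) : C) = i ((P a : A) : B) := by
  refine ⟨_, DOp_conj (A.equivMapOfInjective i hi) hP, fun a a' ha => ?_⟩
  have h1 : a' = A.equivMapOfInjective i hi a := Subtype.ext ha
  rw [h1]
  simp only [LinearMap.comp_apply, AlgEquiv.toLinearEquiv_toLinearMap, AlgEquiv.toLinearMap_apply,
    AlgEquiv.symm_apply_apply]
  rfl

theorem exists_conj_map {ν ν' : Type} (φ : MvPolynomial ν ℂ ≃ₐ[ℂ] MvPolynomial ν' ℂ)
    (A : Subalgebra ℂ (MvPolynomial ν ℂ)) {m : ℕ}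
    {P : Module.End ℂ (A.map (φ : MvPolynomial ν ℂ →ₐ[ℂ] MvPolynomial ν' ℂ))}
    {P₀ : Module.End ℂ A}
    (h : ∀ (a : A) (a' : A.map (φ : MvPolynomial ν ℂ →ₐ[ℂ] MvPolynomial ν' ℂ)),
      (a' : MvPolynomial ν' ℂ) = φ a → ((P a' : A.map _) : MvPolynomial ν' ℂ) = φ ((P₀ a : A) : _))
    {Q : Module.End ℂ (MvPolynomial ν ℂ)} (hQ : DOp m Q)
    (hQP : ∀ a : A, Q a = ((P₀ a : A) : MvPolynomial ν ℂ)) :
    ∃ Q' : Module.End ℂ (MvPolynomial ν' ℂ), DOp m Q' ∧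
      ∀ a : A.map (φ : MvPolynomial ν ℂ →ₐ[ℂ] MvPolynomial ν' ℂ),
        Q' a = ((P a : A.map _) : MvPolynomial ν' ℂ) := by
  refine ⟨_, DOp_conj φ hQ, fun a' => ?_⟩
  obtain ⟨a, ha, hax⟩ := a'.2
  have h1 : (a' : MvPolynomial ν' ℂ) = φ ((⟨a, ha⟩ : A) : MvPolynomial ν ℂ) := hax.symm
  rw [h ⟨a, ha⟩ a' h1, ← hQP, h1]
  simp only [LinearMap.comp_apply, AlgEquiv.toLinearEquiv_toLinearMap, AlgEquiv.toLinearMap_apply,
    AlgEquiv.symm_apply_apply]

theorem surj_map {ν ν' : Type} (φ : MvPolynomial ν ℂ ≃ₐ[ℂ] MvPolynomial ν' ℂ)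
    (A : Subalgebra ℂ (MvPolynomial ν ℂ)) (h : Surj A) :
    Surj (A.map (φ : MvPolynomial ν ℂ →ₐ[ℂ] MvPolynomial ν' ℂ)) := by
  rintro P ⟨n, hP⟩
  obtain ⟨P₀, hP₀, h₀⟩ := exists_pull A (φ : MvPolynomial ν ℂ →ₐ[ℂ] MvPolynomial ν' ℂ)
    φ.injective hP
  obtain ⟨Q, ⟨m, hQ⟩, hQP⟩ := h P₀ ⟨n, hP₀⟩
  obtain ⟨Q', hQ', h'⟩ := exists_conj_map φ A h₀ hQ hQP
  exact ⟨Q', ⟨m, hQ'⟩, h'⟩

theorem grSurj_map {ν ν' : Type} (φ : MvPolynomial ν ℂ ≃ₐ[ℂ] MvPolynomial ν' ℂ)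
    (A : Subalgebra ℂ (MvPolynomial ν ℂ)) (h : GrSurj A) :
    GrSurj (A.map (φ : MvPolynomial ν ℂ →ₐ[ℂ] MvPolynomial ν' ℂ)) := by
  intro n P hP
  obtain ⟨P₀, hP₀, h₀⟩ := exists_pull A (φ : MvPolynomial ν ℂ →ₐ[ℂ] MvPolynomial ν' ℂ)
    φ.injective hP
  obtain ⟨Q, hQ, hQP⟩ := h n P₀ hP₀
  exact exists_conj_map φ A h₀ hQ hQP

/-- superfluous variables: restrict an operator to `x₂ = 0` -/
theorem surj_of_rename {ν₁ ν₂ : Type} (A : Subalgebra ℂ (MvPolynomial ν₁ ℂ))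
    (h : Surj (A.map (rename Sum.inl : MvPolynomial ν₁ ℂ →ₐ[ℂ] MvPolynomial (ν₁ ⊕ ν₂) ℂ))) :
    Surj A := by
  rintro P ⟨n, hP⟩
  have hinj : Function.Injective
      (rename Sum.inl : MvPolynomial ν₁ ℂ →ₐ[ℂ] MvPolynomial (ν₁ ⊕ ν₂) ℂ) :=
    rename_injective _ Sum.inl_injective
  obtain ⟨P₁, hP₁, h₁⟩ := exists_push A _ hinj hP
  obtain ⟨Q, ⟨m, hQ⟩, hQP⟩ := h P₁ ⟨n, hP₁⟩
  let r : MvPolynomial (ν₁ ⊕ ν₂) ℂ →ₐ[ℂ] MvPolynomial ν₁ ℂ := aeval (Sum.elim X fun _ => 0)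
  have hr : ∀ b, r (rename Sum.inl b) = b := by
    intro b
    have h2 : r.comp (rename Sum.inl) = AlgHom.id ℂ (MvPolynomial ν₁ ℂ) := by
      apply MvPolynomial.algHom_ext
      intro i
      simp [r]
    exact DFunLike.congr_fun h2 b
  refine ⟨_, ⟨m, DOp_retract (rename Sum.inl) r hr hQ⟩, fun a => ?_⟩
  have h3 := hQP ⟨rename Sum.inl (a : MvPolynomial ν₁ ℂ), a, a.2, rfl⟩
  rw [h₁ a _ rfl] at h3
  have h4 : Q (rename Sum.inl (a : MvPolynomial ν₁ ℂ)) = rename Sum.inl ((P a : A) : _) := h3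
  change r (Q (rename Sum.inl (a : MvPolynomial ν₁ ℂ))) = _
  rw [h4, hr]

section Coeffwise

variable {B : Type*} [CommRing B] [Algebra ℂ B] {ν : Type*}

/-- the coefficientwise extension of an operator to polynomials -/
noncomputable def cw (Q : Module.End ℂ B) : Module.End ℂ (MvPolynomial ν B) where
  toFun F := ∑ β ∈ F.support, monomial β (Q (coeff β F))
  map_add' F G := by
    classical
    have hc : ∀ (F : MvPolynomial ν B) γ,
        coeff γ (∑ β ∈ F.support, monomial β (Q (coeff β F))) = Q (coeff γ F) := by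
      intro F γ
      rw [coeff_sum]
      simp only [coeff_monomial]
      rw [Finset.sum_ite_eq']
      split_ifs with h
      · rfl
      · rw [notMem_support_iff.1 h, map_zero]
    ext γ
    rw [coeff_add, hc, hc, hc, coeff_add, map_add]
  map_smul' c F := by
    classical
    have hc : ∀ (F : MvPolynomial ν B) γ,
        coeff γ (∑ β ∈ F.support, monomial β (Q (coeff β F))) = Q (coeff γ F) := by
      intro F γ
      rw [coeff_sum]
      simp only [coeff_monomial]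
      rw [Finset.sum_ite_eq']
      split_ifs with h
      · rfl
      · rw [notMem_support_iff.1 h, map_zero]
    ext γ
    rw [RingHom.id_apply, coeff_smul, hc, hc, coeff_smul, map_smul]

theorem coeff_cw (Q : Module.End ℂ B) (F : MvPolynomial ν B) (γ : ν →₀ ℕ) :
    coeff γ (cw Q F) = Q (coeff γ F) := by
  classical
  change coeff γ (∑ β ∈ F.support, monomial β (Q (coeff β F))) = _
  rw [coeff_sum]
  simp only [coeff_monomial]
  rw [Finset.sum_ite_eq']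
  split_ifs with h
  · rfl
  · rw [notMem_support_iff.1 h, map_zero]

theorem cw_C (Q : Module.End ℂ B) (b : B) : cw Q (C b : MvPolynomial ν B) = C (Q b) := by
  classical
  ext γ
  rw [coeff_cw, coeff_C, coeff_C]
  split_ifs with h
  · rfl
  · rw [map_zero]

theorem cw_zero : cw (0 : Module.End ℂ B) = (0 : Module.End ℂ (MvPolynomial ν B)) := by
  refine LinearMap.ext fun F => MvPolynomial.ext _ _ fun γ => ?_
  rw [coeff_cw]
  simp

theorem ad_monomial_cw (Q : Module.End ℂ B) (γ : ν →₀ ℕ) (g : B) :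
    ad (monomial γ g) (cw Q : Module.End ℂ (MvPolynomial ν B))
      = LinearMap.mulLeft ℂ (monomial γ 1) * cw (ad g Q) := by
  classical
  refine LinearMap.ext fun F => MvPolynomial.ext _ _ fun δ => ?_
  rw [ad_apply, Module.End.mul_apply, LinearMap.mulLeft_apply, coeff_sub, coeff_cw,
    coeff_monomial_mul', coeff_monomial_mul', coeff_monomial_mul', coeff_cw, coeff_cw, ad_apply]
  split_ifs with h
  · ring
  · rw [map_zero, sub_zero]

theorem DOp_cw {n : ℕ} {Q : Module.End ℂ B} (hQ : DOp n Q) :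
    DOp n (cw Q : Module.End ℂ (MvPolynomial ν B)) := by
  induction n generalizing Q with
  | zero =>
    rw [DOp_zero_iff] at hQ ⊢
    rw [hQ, cw_zero]
  | succ n ih =>
    intro f
    induction f using MvPolynomial.induction_on' with
    | monomial γ g =>
      rw [ad_monomial_cw]
      exact DOp.comp_zero_left (DOp_mulLeft _) (ih (hQ g))
    | add p q hp hq =>
      rw [ad_add_left]
      exact hp.add hq

end Coeffwise

/-- superfluous variables: extend an operator linearly over `ℂ[x₂]` -/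
theorem grSurj_rename {ν₁ ν₂ : Type} (A : Subalgebra ℂ (MvPolynomial ν₁ ℂ)) (h : GrSurj A) :
    GrSurj (A.map (rename Sum.inl : MvPolynomial ν₁ ℂ →ₐ[ℂ] MvPolynomial (ν₁ ⊕ ν₂) ℂ)) := by
  intro n P hP
  have hinj : Function.Injective
      (rename Sum.inl : MvPolynomial ν₁ ℂ →ₐ[ℂ] MvPolynomial (ν₁ ⊕ ν₂) ℂ) :=
    rename_injective _ Sum.inl_injective
  obtain ⟨P₀, hP₀, h₀⟩ := exists_pull A _ hinj hP
  obtain ⟨Q, hQ, hQP⟩ := h n P₀ hP₀
  let e : MvPolynomial (ν₁ ⊕ ν₂) ℂ ≃ₐ[ℂ] MvPolynomial ν₂ (MvPolynomial ν₁ ℂ) :=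
    (renameEquiv ℂ (Equiv.sumComm ν₁ ν₂)).trans (sumAlgEquiv ℂ ν₂ ν₁)
  have he : ∀ b : MvPolynomial ν₁ ℂ, e (rename Sum.inl b) = C b := by
    intro b
    have h2 : (e : MvPolynomial (ν₁ ⊕ ν₂) ℂ →ₐ[ℂ] MvPolynomial ν₂ (MvPolynomial ν₁ ℂ)).comp
        (rename Sum.inl) = IsScalarTower.toAlgHom ℂ (MvPolynomial ν₁ ℂ)
          (MvPolynomial ν₂ (MvPolynomial ν₁ ℂ)) := by
      apply MvPolynomial.algHom_ext
      intro i
      simp [e]
    exact DFunLike.congr_fun h2 b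
  refine ⟨_, DOp_conj e.symm (DOp_cw (ν := ν₂) hQ), fun a' => ?_⟩
  obtain ⟨a, ha, hax⟩ := a'.2
  have h1 : (a' : MvPolynomial (ν₁ ⊕ ν₂) ℂ) = rename Sum.inl ((⟨a, ha⟩ : A) : MvPolynomial ν₁ ℂ) :=
    hax.symm
  rw [h₀ ⟨a, ha⟩ a' h1, h1]
  change e.symm (cw Q (e.symm.symm (rename Sum.inl ((⟨a, ha⟩ : A) : MvPolynomial ν₁ ℂ)))) = _
  rw [AlgEquiv.symm_symm, he, cw_C, hQP, AlgEquiv.symm_apply_eq, he]

end H50.Z
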