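import Pool.Agent.H50.Z.Defs
import Mathlib.Analysis.InnerProductSpace.ProdL2

/-! (J3) Removing the directions in which all invariants are constant. -/

open MvPolynomial H50.DO

set_option linter.unusedSectionVars false

namespace H50.Z

section J3

variable {α β γ : Type} [Fintype α] [Fintype β] [Fintype γ]

/-- substitution of a rectangular matrix -/
noncomputable def j3sub (M : Matrix α β ℂ) : MvPolynomial α ℂ →ₐ[ℂ] MvPolynomial β ℂ :=
  aeval fun i => ∑ j, C (M i j) * X j

lemma j3sub_X (M : Matrix α β ℂ) (i : α) : j3sub M (X i) = ∑ j, C (M i j) * X j := by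
  rw [j3sub, aeval_X]

lemma j3sub_mul (M : Matrix α β ℂ) (N : Matrix β γ ℂ) (f : MvPolynomial α ℂ) :
    j3sub (M * N) f = j3sub N (j3sub M f) := by
  have h : (j3sub (M * N) : MvPolynomial α ℂ →ₐ[ℂ] MvPolynomial γ ℂ) =
      (j3sub N).comp (j3sub M) := by
    apply MvPolynomial.algHom_ext
    intro i
    rw [AlgHom.comp_apply, j3sub_X, j3sub_X, map_sum]
    simp only [map_mul, j3sub_X, Matrix.mul_apply, map_sum, algHom_C, algebraMap_eq,
      Finset.sum_mul, Finset.mul_sum]
    rw [Finset.sum_comm]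
    apply Finset.sum_congr rfl
    intro j _
    apply Finset.sum_congr rfl
    intro l _
    ring
  rw [h]
  rfl

lemma j3sub_eq_act [DecidableEq α] (M : Matrix α α ℂ) (f : MvPolynomial α ℂ) :
    j3sub M f = act M f := rfl

lemma j3sub_one [DecidableEq α] (f : MvPolynomial α ℂ) : j3sub (1 : Matrix α α ℂ) f = f := by
  rw [j3sub_eq_act, act_one]

/-- directional derivative -/
noncomputable def j3D (v : α → ℂ) : Derivation ℂ (MvPolynomial α ℂ) (MvPolynomial α ℂ) :=
  mkDerivation ℂ fun i => C (v i)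

lemma j3D_X (v : α → ℂ) (i : α) : j3D v (X i) = C (v i) := by
  rw [j3D, mkDerivation_X]

lemma j3D_C (v : α → ℂ) (a : ℂ) : j3D v (C a) = 0 := by
  rw [← algebraMap_eq]
  exact (j3D v).map_algebraMap a

lemma j3D_apply (v : α → ℂ) (f : MvPolynomial α ℂ) :
    j3D v f = ∑ i, C (v i) * pderiv i f := by
  classical
  induction f using MvPolynomial.induction_on with
  | C a => simp
  | add p q hp hq =>
    rw [map_add, hp, hq, ← Finset.sum_add_distrib]
    apply Finset.sum_congr rfl
    intro i _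
    rw [map_add, mul_add]
  | mul_X p n hp =>
    rw [Derivation.leibniz, hp, j3D_X]
    simp only [Derivation.leibniz, pderiv_X, smul_eq_mul, mul_add, Finset.sum_add_distrib,
      Finset.mul_sum]
    congr 1
    · rw [Finset.sum_eq_single n]
      · simp
        ring
      · intro b _ hb
        rw [Pi.single_eq_of_ne (Ne.symm hb)]
        ring
      · intro h
        exact absurd (Finset.mem_univ _) h
    · apply Finset.sum_congr rfl
      intro i _
      ring

lemma j3D_sub (M : Matrix α β ℂ) (v : β → ℂ) (f : MvPolynomial α ℂ) :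
    j3D v (j3sub M f) = j3sub M (j3D (M.mulVec v) f) := by
  induction f using MvPolynomial.induction_on with
  | C a => rw [j3D_C, map_zero, algHom_C, algebraMap_eq, j3D_C]
  | add p q hp hq => rw [map_add, map_add, map_add, map_add, hp, hq]
  | mul_X p n hp =>
    have hX : j3D v (j3sub M (X n)) = C (M.mulVec v n) := by
      rw [j3sub_X, map_sum, Matrix.mulVec, dotProduct, map_sum]
      apply Finset.sum_congr rfl
      intro x _
      rw [Derivation.leibniz, j3D_X, j3D_C, smul_zero, add_zero, smul_eq_mul, C_mul]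
    rw [map_mul, Derivation.leibniz, Derivation.leibniz, hp, hX, j3D_X, map_add, smul_eq_mul,
      smul_eq_mul, smul_eq_mul, smul_eq_mul, map_mul, map_mul, algHom_C, algebraMap_eq]

lemma j3D_rename_inl {r s : ℕ} (v : Fin r → ℂ) (b : MvPolynomial (Fin r) ℂ) :
    j3D (Sum.elim v (0 : Fin s → ℂ)) (rename Sum.inl b) =
      (rename Sum.inl (j3D v b) : MvPolynomial (Fin r ⊕ Fin s) ℂ) := by
  induction b using MvPolynomial.induction_on with
  | C a => rw [rename_C, j3D_C, j3D_C, map_zero]
  | add p q hp hq => rw [map_add, map_add, map_add, map_add, hp, hq]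
  | mul_X p n hp =>
    rw [map_mul, Derivation.leibniz, Derivation.leibniz, hp, rename_X, j3D_X, j3D_X, map_add,
      smul_eq_mul, smul_eq_mul, smul_eq_mul, smul_eq_mul, map_mul, map_mul, rename_C, rename_X,
      Sum.elim_inl]

/-- a polynomial killed by the partial derivatives of the second block of variables is a polynomial
in the first block -/
lemma j3_exists_rename {r s : ℕ} (g : MvPolynomial (Fin r ⊕ Fin s) ℂ)
    (h : ∀ j : Fin s, pderiv (Sum.inr j) g = 0) :
    ∃ b : MvPolynomial (Fin r) ℂ, rename Sum.inl b = g := by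
  apply exists_rename_eq_of_vars_subset_range g Sum.inl Sum.inl_injective
  intro i hi
  rcases i with i | j
  · exact ⟨i, rfl⟩
  · exfalso
    rw [Finset.mem_coe, mem_vars_iff_mem_support] at hi
    obtain ⟨d, hd, hj⟩ := hi
    rw [Finsupp.mem_support_iff] at hj
    have h1 := congrArg (coeff (d - Finsupp.single (Sum.inr j) 1)) (h j)
    rw [coeff_pderiv, coeff_zero] at h1
    have h2 : d - Finsupp.single (Sum.inr j) 1 + Finsupp.single (Sum.inr j) 1 = d := by
      apply tsub_add_cancel_of_le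
      rw [Finsupp.single_le_iff]
      omega
    rw [h2] at h1
    rcases mul_eq_zero.1 h1 with h3 | h3
    · exact (mem_support_iff.1 hd) h3
    · exact Nat.cast_add_one_ne_zero _ h3

lemma j3sub_blocks {r s : ℕ} (k₁ : Matrix (Fin r) (Fin r) ℂ)
    (M : Matrix (Fin r ⊕ Fin s) (Fin r ⊕ Fin s) ℂ)
    (h1 : ∀ i j, M (Sum.inl i) (Sum.inl j) = k₁ i j) (h2 : ∀ i j, M (Sum.inl i) (Sum.inr j) = 0)
    (b : MvPolynomial (Fin r) ℂ) :
    j3sub M (rename Sum.inl b) = rename Sum.inl (act k₁ b) := by
  have h : (j3sub M).comp (rename Sum.inl) =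
      (rename Sum.inl : MvPolynomial (Fin r) ℂ →ₐ[ℂ] MvPolynomial (Fin r ⊕ Fin s) ℂ).comp
        (act k₁) := by
    apply MvPolynomial.algHom_ext
    intro i
    rw [AlgHom.comp_apply, AlgHom.comp_apply, rename_X, j3sub_X, act_X, map_sum,
      Fintype.sum_sum_type]
    simp only [h1, h2, map_mul, rename_C, rename_X, C_0, zero_mul, Finset.sum_const_zero, add_zero]
  exact DFunLike.congr_fun h b

/-- a unitary matrix adapted to a subspace and its orthogonal complement -/
lemma j3_basis {ν : Type} [Fintype ν] [DecidableEq ν] (V : Submodule ℂ (ν → ℂ)) :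
    ∃ (r s : ℕ) (U : Matrix ν (Fin r ⊕ Fin s) ℂ), U.conjTranspose * U = 1 ∧
      U * U.conjTranspose = 1 ∧ (∀ w ∈ V, ∀ i, (U.conjTranspose.mulVec w) (Sum.inl i) = 0) ∧
      ∀ j, (fun i => U i (Sum.inr j)) ∈ V := by
  classical
  set V' : Submodule ℂ (EuclideanSpace ℂ ν) :=
    V.comap (WithLp.linearEquiv 2 ℂ (ν → ℂ)).toLinearMap with hV'
  set b := stdOrthonormalBasis ℂ V'ᗮ
  set c := stdOrthonormalBasis ℂ V'
  set g : Fin (Module.finrank ℂ V'ᗮ) ⊕ Fin (Module.finrank ℂ V') → EuclideanSpace ℂ ν :=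
    Sum.elim (fun i => (b i : EuclideanSpace ℂ ν)) (fun j => (c j : EuclideanSpace ℂ ν)) with hg
  have hbc : ∀ i j, inner ℂ ((b i : EuclideanSpace ℂ ν)) (c j : EuclideanSpace ℂ ν) = 0 :=
    fun i j => Submodule.inner_left_of_mem_orthogonal (c j).2 (b i).2
  have hcb : ∀ i j, inner ℂ ((c i : EuclideanSpace ℂ ν)) (b j : EuclideanSpace ℂ ν) = 0 :=
    fun i j => Submodule.inner_right_of_mem_orthogonal (c i).2 (b j).2
  have hbb : ∀ i j, inner ℂ ((b i : EuclideanSpace ℂ ν)) (b j : EuclideanSpace ℂ ν) =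
      if i = j then 1 else 0 := by
    intro i j
    have := orthonormal_iff_ite.1 b.orthonormal i j
    rw [Submodule.coe_inner] at this
    exact this
  have hcc : ∀ i j, inner ℂ ((c i : EuclideanSpace ℂ ν)) (c j : EuclideanSpace ℂ ν) =
      if i = j then 1 else 0 := by
    intro i j
    have := orthonormal_iff_ite.1 c.orthonormal i j
    rw [Submodule.coe_inner] at this
    exact this
  set U : Matrix ν (Fin (Module.finrank ℂ V'ᗮ) ⊕ Fin (Module.finrank ℂ V')) ℂ :=
    fun i j => (g j).ofLp i with hU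
  have hin : ∀ (x y : EuclideanSpace ℂ ν),
      inner ℂ x y = ∑ i, (starRingEnd ℂ) (x.ofLp i) * y.ofLp i := by
    intro x y
    rw [PiLp.inner_apply]
    apply Finset.sum_congr rfl
    intro i _
    rw [RCLike.inner_apply, mul_comm]
  have hUU : U.conjTranspose * U = 1 := by
    ext j l
    have h1 : (U.conjTranspose * U) j l = inner ℂ (g j) (g l) := by
      rw [Matrix.mul_apply, hin]
      rfl
    rw [h1]
    rcases j with j | j <;> rcases l with l | l
    · rw [hg, Sum.elim_inl, Sum.elim_inl, hbb, Matrix.one_apply]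
      simp
    · rw [hg, Sum.elim_inl, Sum.elim_inr, hbc, Matrix.one_apply]
      simp
    · rw [hg, Sum.elim_inr, Sum.elim_inl, hcb, Matrix.one_apply]
      simp
    · rw [hg, Sum.elim_inr, Sum.elim_inr, hcc, Matrix.one_apply]
      simp
  have hcard : Fintype.card ν =
      Fintype.card (Fin (Module.finrank ℂ V'ᗮ) ⊕ Fin (Module.finrank ℂ V')) := by
    rw [Fintype.card_sum, Fintype.card_fin, Fintype.card_fin, add_comm,
      Submodule.finrank_add_finrank_orthogonal, finrank_euclideanSpace]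
  refine ⟨_, _, U, hUU, (Matrix.mul_eq_one_comm_of_card_eq _ _ _ hcard).2 hUU, ?_, ?_⟩
  · intro w hw i
    have h1 : (U.conjTranspose.mulVec w) (Sum.inl i) =
        inner ℂ (b i : EuclideanSpace ℂ ν) (WithLp.toLp 2 w) := by
      rw [hin]
      rfl
    rw [h1]
    apply Submodule.inner_left_of_mem_orthogonal (K := V') _ (b i).2
    rw [hV', Submodule.mem_comap]
    exact hw
  · intro j
    have h1 : (c j : EuclideanSpace ℂ ν) ∈
        V.comap (WithLp.linearEquiv 2 ℂ (ν → ℂ)).toLinearMap := (c j).2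
    exact Submodule.mem_comap.1 h1

end J3

/-- For maximal `K` there are a linear isomorphism `ℂ[ν] ≃ ℂ[ν₁ ⊕ ν₂]`, and a maximal group `K₁` in
`U(ν₁)` without constant vector fields killing its invariants, such that the invariants of `K`
correspond to the invariants of `K₁`. Proof: `ν₂` = orthonormal basis of
`V₂ = {v : ∂_v A = 0}`, `ν₁` = orthonormal basis of the complement, `K₁` = all unitary matrices
fixing the invariants. -/
theorem exists_reduced {ν : Type} [Fintype ν] [DecidableEq ν]
    (K : Subgroup (Matrix.unitaryGroup ν ℂ)) (hmax : MaxK K) :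
    ∃ (r s : ℕ) (φ : MvPolynomial ν ℂ ≃ₐ[ℂ] MvPolynomial (Fin r ⊕ Fin s) ℂ)
      (K₁ : Subgroup (Matrix.unitaryGroup (Fin r) ℂ)), MaxK K₁ ∧ NoConst (InvAlg K₁) ∧
      (InvAlg K).map (φ : MvPolynomial ν ℂ →ₐ[ℂ] MvPolynomial (Fin r ⊕ Fin s) ℂ) =
        (InvAlg K₁).map (rename Sum.inl : MvPolynomial (Fin r) ℂ →ₐ[ℂ] _) := by
  classical
  -- the constant directions
  let V : Submodule ℂ (ν → ℂ) :=
    { carrier := {v | ∀ a ∈ InvAlg K, j3D v a = 0}
      add_mem' := by
        intro v w hv hw a ha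
        have h1 : j3D (v + w) a = j3D v a + j3D w a := by
          rw [j3D_apply, j3D_apply, j3D_apply, ← Finset.sum_add_distrib]
          apply Finset.sum_congr rfl
          intro i _
          rw [Pi.add_apply, C_add, add_mul]
        rw [h1, hv a ha, hw a ha, add_zero]
      zero_mem' := by
        intro a _
        rw [j3D_apply]
        simp
      smul_mem' := by
        intro c v hv a ha
        have h1 : j3D (c • v) a = C c * j3D v a := by
          rw [j3D_apply, j3D_apply, Finset.mul_sum]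
          apply Finset.sum_congr rfl
          intro i _
          rw [Pi.smul_apply, smul_eq_mul, C_mul, mul_assoc]
        rw [h1, hv a ha, mul_zero] }
  have hVmem : ∀ v : ν → ℂ, v ∈ V ↔ ∀ a ∈ InvAlg K, j3D v a = 0 := fun v => Iff.rfl
  have hKV : ∀ k ∈ K, ∀ v ∈ V, (k : Matrix ν ν ℂ).mulVec v ∈ V := by
    intro k hk v hv a ha
    have h1 : j3sub (k : Matrix ν ν ℂ) (j3D ((k : Matrix ν ν ℂ).mulVec v) a) = 0 := by
      rw [← j3D_sub, j3sub_eq_act, ha k hk]
      exact hv a ha
    have h2 : j3sub (star (k : Matrix ν ν ℂ))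
        (j3sub (k : Matrix ν ν ℂ) (j3D ((k : Matrix ν ν ℂ).mulVec v) a)) = 0 := by
      rw [h1, map_zero]
    rw [← j3sub_mul, Matrix.mem_unitaryGroup_iff.1 k.2, j3sub_one] at h2
    exact h2
  obtain ⟨r, s, U, hU1, hU2, hperp, hcol⟩ := j3_basis V
  -- the isomorphism
  have hc1 : ∀ f : MvPolynomial ν ℂ, j3sub U.conjTranspose (j3sub U f) = f := by
    intro f
    rw [← j3sub_mul, hU2, j3sub_one]
  have hc2 : ∀ f : MvPolynomial (Fin r ⊕ Fin s) ℂ, j3sub U (j3sub U.conjTranspose f) = f := by
    intro f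
    rw [← j3sub_mul, hU1, j3sub_one]
  let φ : MvPolynomial ν ℂ ≃ₐ[ℂ] MvPolynomial (Fin r ⊕ Fin s) ℂ :=
    AlgEquiv.ofAlgHom (j3sub U) (j3sub U.conjTranspose)
      (AlgHom.ext fun f => hc2 f) (AlgHom.ext fun f => hc1 f)
  have hφ : ∀ f, φ f = j3sub U f := fun f => rfl
  -- invariants of `K` only involve the first block
  have hex : ∀ a ∈ InvAlg K, ∃ b : MvPolynomial (Fin r) ℂ,
      (rename Sum.inl b : MvPolynomial (Fin r ⊕ Fin s) ℂ) = j3sub U a := by
    intro a ha
    apply j3_exists_rename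
    intro j
    have h1 : pderiv (Sum.inr j) (j3sub U a) =
        j3D (Pi.single (Sum.inr j) 1 : Fin r ⊕ Fin s → ℂ) (j3sub U a) := by
      rw [j3D_apply, Finset.sum_eq_single (Sum.inr j)]
      · rw [Pi.single_eq_same, C_1, one_mul]
      · intro b _ hb
        rw [Pi.single_eq_of_ne hb, C_0, zero_mul]
      · intro h
        exact absurd (Finset.mem_univ _) h
    have h2 : U.mulVec (Pi.single (Sum.inr j) 1) = fun i => U i (Sum.inr j) := by
      rw [Matrix.mulVec_single_one]
      rfl
    rw [h1, j3D_sub, h2, (hVmem _).1 (hcol j) a ha, map_zero]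
  -- the block decomposition of an element of `K`
  have hblk : ∀ k ∈ K, ∀ i j, (U.conjTranspose * (k : Matrix ν ν ℂ) * U) (Sum.inl i)
      (Sum.inr j) = 0 := by
    intro k hk i j
    have h1 : (U.conjTranspose * (k : Matrix ν ν ℂ) * U) (Sum.inl i) (Sum.inr j) =
        (U.conjTranspose.mulVec ((k : Matrix ν ν ℂ).mulVec fun i => U i (Sum.inr j)))
          (Sum.inl i) := by
      rw [Matrix.mulVec_mulVec, Matrix.mul_apply]
      rfl
    rw [h1]
    exact hperp _ (hKV k hk _ (hcol j)) i
  have hblk' : ∀ k ∈ K, ∀ i j, (U.conjTranspose * (k : Matrix ν ν ℂ) * U) (Sum.inr i)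
      (Sum.inl j) = 0 := by
    intro k hk i j
    have h1 := hblk k⁻¹ (K.inv_mem hk) j i
    have h2 : (U.conjTranspose * ((k⁻¹ : Matrix.unitaryGroup ν ℂ) : Matrix ν ν ℂ) * U) =
        (U.conjTranspose * (k : Matrix ν ν ℂ) * U).conjTranspose := by
      rw [Matrix.conjTranspose_mul, Matrix.conjTranspose_mul, Matrix.conjTranspose_conjTranspose,
        Matrix.mul_assoc]
      rfl
    rw [h2, Matrix.conjTranspose_apply, star_eq_zero] at h1
    exact h1
  -- the group
  let K₁ : Subgroup (Matrix.unitaryGroup (Fin r) ℂ) :=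
    { carrier := {k | ∀ a ∈ InvAlg K, ∀ b : MvPolynomial (Fin r) ℂ,
        (rename Sum.inl b : MvPolynomial (Fin r ⊕ Fin s) ℂ) = j3sub U a →
          act (k : Matrix (Fin r) (Fin r) ℂ) b = b}
      mul_mem' := by
        intro k l hk hl a ha b hb
        have h1 : ((k * l : Matrix.unitaryGroup (Fin r) ℂ) : Matrix (Fin r) (Fin r) ℂ) =
          (k : Matrix (Fin r) (Fin r) ℂ) * (l : Matrix (Fin r) (Fin r) ℂ) := rfl
        rw [h1, act_mul, hk a ha b hb, hl a ha b hb]
      one_mem' := by
        intro a _ b _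
        exact act_one b
      inv_mem' := by
        intro k hk a ha b hb
        have h1 := hk a ha b hb
        have h2 : act ((k⁻¹ : Matrix.unitaryGroup (Fin r) ℂ) : Matrix (Fin r) (Fin r) ℂ)
            (act (k : Matrix (Fin r) (Fin r) ℂ) b) = b := by
          rw [← act_mul]
          have h3 : (k : Matrix (Fin r) (Fin r) ℂ) *
              ((k⁻¹ : Matrix.unitaryGroup (Fin r) ℂ) : Matrix (Fin r) (Fin r) ℂ) = 1 := by
            have := congrArg (Subtype.val) (mul_inv_cancel k)
            exact this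
          rw [h3, act_one]
        rwa [h1] at h2 }
  have hK₁ : ∀ k : Matrix.unitaryGroup (Fin r) ℂ, k ∈ K₁ ↔ ∀ a ∈ InvAlg K,
      ∀ b : MvPolynomial (Fin r) ℂ,
        (rename Sum.inl b : MvPolynomial (Fin r ⊕ Fin s) ℂ) = j3sub U a →
          act (k : Matrix (Fin r) (Fin r) ℂ) b = b := fun k => Iff.rfl
  -- images of invariants are invariant
  have hfwd : ∀ a ∈ InvAlg K, ∀ b : MvPolynomial (Fin r) ℂ,
      (rename Sum.inl b : MvPolynomial (Fin r ⊕ Fin s) ℂ) = j3sub U a → b ∈ InvAlg K₁ := by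
    intro a ha b hb k hk
    exact (hK₁ k).1 hk a ha b hb
  -- the first block of an element of `K` lies in `K₁`
  have hmem : ∀ k ∈ K, ∃ k₁ ∈ K₁, ∀ i j,
      (U.conjTranspose * (k : Matrix ν ν ℂ) * U) (Sum.inl i) (Sum.inl j) =
        (k₁ : Matrix (Fin r) (Fin r) ℂ) i j := by
    intro k hk
    set M := U.conjTranspose * (k : Matrix ν ν ℂ) * U with hM
    let k₀ : Matrix (Fin r) (Fin r) ℂ := fun i j => M (Sum.inl i) (Sum.inl j)
    have hMM : M * M.conjTranspose = 1 := by
      have h1 : M.conjTranspose = U.conjTranspose * star (k : Matrix ν ν ℂ) * U := by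
        rw [hM, Matrix.conjTranspose_mul, Matrix.conjTranspose_mul,
          Matrix.conjTranspose_conjTranspose, ← Matrix.mul_assoc]
        rfl
      rw [h1, hM]
      calc U.conjTranspose * (k : Matrix ν ν ℂ) * U * (U.conjTranspose * star (k : Matrix ν ν ℂ) * U)
          = U.conjTranspose * ((k : Matrix ν ν ℂ) * ((U * U.conjTranspose) *
              star (k : Matrix ν ν ℂ))) * U := by
            simp only [Matrix.mul_assoc]
        _ = 1 := by
            rw [hU2, Matrix.one_mul, Matrix.mem_unitaryGroup_iff.1 k.2, Matrix.mul_one, hU1]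
    have hk₀ : k₀ ∈ Matrix.unitaryGroup (Fin r) ℂ := by
      rw [Matrix.mem_unitaryGroup_iff]
      ext i j
      have h1 := congrFun (congrFun hMM (Sum.inl i)) (Sum.inl j)
      rw [Matrix.mul_apply, Fintype.sum_sum_type] at h1
      have h2 : ∑ x : Fin s, M (Sum.inl i) (Sum.inr x) * M.conjTranspose (Sum.inr x) (Sum.inl j) =
          0 := by
        apply Finset.sum_eq_zero
        intro x _
        rw [hM, hblk k hk, zero_mul]
      rw [h2, add_zero] at h1
      rw [Matrix.mul_apply]
      have h3 : ∑ x, k₀ i x * (star k₀) x j =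
          ∑ x : Fin r, M (Sum.inl i) (Sum.inl x) * M.conjTranspose (Sum.inl x) (Sum.inl j) := rfl
      rw [h3, h1, Matrix.one_apply, Matrix.one_apply]
      simp
    refine ⟨⟨k₀, hk₀⟩, ?_, fun i j => rfl⟩
    rw [hK₁]
    intro a ha b hb
    have h1 : j3sub M (rename Sum.inl b) = rename Sum.inl (act k₀ b) :=
      j3sub_blocks k₀ M (fun i j => rfl) (fun i j => hblk k hk i j) b
    have h2 : j3sub M (j3sub U a) = j3sub U a := by
      rw [← j3sub_mul]
      have h3 : U * M = (k : Matrix ν ν ℂ) * U := by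
        rw [hM, ← Matrix.mul_assoc, ← Matrix.mul_assoc, hU2, Matrix.one_mul]
      rw [h3, j3sub_mul, j3sub_eq_act, ha k hk]
    rw [hb, h2, ← hb] at h1
    exact (rename_injective _ Sum.inl_injective h1).symm
  -- invariants of `K₁` come from invariants of `K`
  have hbwd : ∀ b ∈ InvAlg K₁, j3sub U.conjTranspose (rename Sum.inl b) ∈ InvAlg K := by
    intro b hb k hk
    obtain ⟨k₁, hk₁, hkk⟩ := hmem k hk
    set M := U.conjTranspose * (k : Matrix ν ν ℂ) * U with hM
    have h1 : j3sub M (rename Sum.inl b) = rename Sum.inl (act (k₁ : Matrix (Fin r) (Fin r) ℂ) b) :=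
      j3sub_blocks _ M hkk (fun i j => hblk k hk i j) b
    rw [hb k₁ hk₁] at h1
    have h2 : M * U.conjTranspose = U.conjTranspose * (k : Matrix ν ν ℂ) := by
      rw [hM, Matrix.mul_assoc, hU2, Matrix.mul_one]
    have h3 : act (k : Matrix ν ν ℂ) (j3sub U.conjTranspose (rename Sum.inl b)) =
        j3sub U.conjTranspose (j3sub M (rename Sum.inl b)) := by
      rw [← j3sub_eq_act, ← j3sub_mul, ← j3sub_mul, h2]
    rw [h3, h1]
  refine ⟨r, s, φ, K₁, ?_, ?_, ?_⟩
  · intro k hk
    rw [hK₁]
    intro a ha b hb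
    exact hk b (hfwd a ha b hb)
  · intro v hv
    have hw : U.mulVec (Sum.elim v 0) ∈ V := by
      intro a ha
      obtain ⟨b, hb⟩ := hex a ha
      have h1 : j3D v b = 0 := by
        rw [j3D_apply]
        exact hv b (hfwd a ha b hb)
      have h2 : j3sub U (j3D (U.mulVec (Sum.elim v 0)) a) = 0 := by
        rw [← j3D_sub, ← hb, j3D_rename_inl, h1, map_zero]
      have h3 := hc1 (j3D (U.mulVec (Sum.elim v 0)) a)
      rw [h2, map_zero] at h3
      exact h3.symm
    funext i
    have h1 := hperp _ hw i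
    rw [Matrix.mulVec_mulVec, hU1, Matrix.one_mulVec, Sum.elim_inl] at h1
    exact h1
  · ext g
    rw [Subalgebra.mem_map, Subalgebra.mem_map]
    constructor
    · rintro ⟨a, ha, rfl⟩
      obtain ⟨b, hb⟩ := hex a ha
      exact ⟨b, hfwd a ha b hb, hb⟩
    · rintro ⟨b, hb, rfl⟩
      exact ⟨_, hbwd b hb, hc2 _⟩

end H50.Z
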