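import Pool.Agent.H50.Z.I1_Core
import Pool.Agent.H50.Z.J1_Avg
import Pool.Agent.H50.Z.J2_Transfer
import Pool.Agent.H50.Z.J3_Coord

/-! (J4) The theorem for arbitrary groups of unitary matrices. -/

open MvPolynomial H50.DO

set_option linter.unusedSectionVars false

namespace H50.Z

variable {ν : Type} [Fintype ν] [DecidableEq ν]

/-- the group of all unitary matrices fixing the invariants of `K` -/
noncomputable def Kmax (K : Subgroup (Matrix.unitaryGroup ν ℂ)) : Subgroup (Matrix.unitaryGroup ν ℂ) where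
  carrier := {k | ∀ a ∈ InvAlg K, act (k : Matrix ν ν ℂ) a = a}
  mul_mem' := by
    intro k l hk hl a ha
    have h : ((k * l : Matrix.unitaryGroup ν ℂ) : Matrix ν ν ℂ) = (k : Matrix ν ν ℂ) * l := rfl
    rw [h, act_mul, hk a ha, hl a ha]
  one_mem' := fun a _ => act_one a
  inv_mem' := by
    intro k hk a ha
    have h : act ((k⁻¹ : Matrix.unitaryGroup ν ℂ) : Matrix ν ν ℂ) (act (k : Matrix ν ν ℂ) a) = a := by
      rw [← act_mul]
      have h2 : (k : Matrix ν ν ℂ) * ((k⁻¹ : Matrix.unitaryGroup ν ℂ) : Matrix ν ν ℂ) = 1 := by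
        have h3 := congrArg (Subtype.val) (mul_inv_cancel k)
        exact h3
      rw [h2, act_one]
    rwa [hk a ha] at h

theorem InvAlg_Kmax (K : Subgroup (Matrix.unitaryGroup ν ℂ)) : InvAlg (Kmax K) = InvAlg K := by
  apply le_antisymm
  · intro f hf k hk
    exact hf k (fun a ha => ha k hk)
  · intro f hf k hk
    exact hk f hf

theorem maxK_Kmax (K : Subgroup (Matrix.unitaryGroup ν ℂ)) : MaxK (Kmax K) := by
  intro k hk a ha
  exact hk a (by rw [InvAlg_Kmax]; exact ha)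

/-- surjectivity implies graded surjectivity for every group of unitary matrices -/
theorem grSurj_of_surj (K : Subgroup (Matrix.unitaryGroup ν ℂ)) (hS : Surj (InvAlg K)) :
    GrSurj (InvAlg K) := by
  rw [← InvAlg_Kmax] at hS ⊢
  obtain ⟨r, s, φ, K₁, hmax, hnc, hA⟩ := exists_reduced (Kmax K) (maxK_Kmax K)
  have h1 : Surj (InvAlg K₁) := by
    apply surj_of_rename (ν₂ := Fin s)
    rw [← hA]
    exact surj_map φ _ hS
  have h2 := core K₁ hmax hnc h1
  have h3 := grSurj_rename (ν₂ := Fin s) _ h2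
  rw [← hA] at h3
  have h4 := grSurj_map φ.symm _ h3
  have h5 : ((InvAlg (Kmax K)).map (φ : MvPolynomial ν ℂ →ₐ[ℂ] MvPolynomial (Fin r ⊕ Fin s) ℂ)).map
      (φ.symm : MvPolynomial (Fin r ⊕ Fin s) ℂ →ₐ[ℂ] MvPolynomial ν ℂ) = InvAlg (Kmax K) := by
    rw [Subalgebra.map_map]
    have h6 : ((φ.symm : MvPolynomial (Fin r ⊕ Fin s) ℂ →ₐ[ℂ] MvPolynomial ν ℂ).comp
        (φ : MvPolynomial ν ℂ →ₐ[ℂ] MvPolynomial (Fin r ⊕ Fin s) ℂ)) = AlgHom.id ℂ _ := by
      ext f
      simp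
    rw [h6, Subalgebra.map_id]
  rwa [h5] at h4

end H50.Z
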