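import Pool.Agent.H50.Z.J4_Unitary

/-! (J5) The theorem for groups with a Zariski dense subgroup preserving a Hermitian form. -/

open MvPolynomial H50.DO

set_option linter.unusedSectionVars false

namespace H50.Z

variable {ν : Type} [Fintype ν] [DecidableEq ν]

/-! ### polynomials in the matrix entries -/

/-- evaluation of a polynomial at the entries of a matrix -/
noncomputable def evM (M : Matrix ν ν ℂ) : MvPolynomial (ν × ν) ℂ →+* ℂ := eval fun p => M p.1 p.2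

lemma exists_evM (f : MvPolynomial ν ℂ) : ∀ L : MvPolynomial ν ℂ →ₗ[ℂ] ℂ,
    ∃ F : MvPolynomial (ν × ν) ℂ, ∀ M : Matrix ν ν ℂ, evM M F = L (act M f) := by
  induction f using MvPolynomial.induction_on with
  | C a =>
    intro L
    refine ⟨C (L (C a)), fun M => ?_⟩
    rw [evM, eval_C, ← algebraMap_eq, AlgHom.commutes]
  | add p q hp hq =>
    intro L
    obtain ⟨F, hF⟩ := hp L
    obtain ⟨F', hF'⟩ := hq L
    exact ⟨F + F', fun M => by rw [map_add, hF, hF', map_add, map_add]⟩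
  | mul_X p i hp =>
    intro L
    have h : ∀ j, ∃ F : MvPolynomial (ν × ν) ℂ, ∀ M : Matrix ν ν ℂ,
        evM M F = L (act M p * X j) := by
      intro j
      obtain ⟨F, hF⟩ := hp (L ∘ₗ LinearMap.mulRight ℂ (X j))
      exact ⟨F, fun M => hF M⟩
    choose F hF using h
    refine ⟨∑ j, X (i, j) * F j, fun M => ?_⟩
    rw [map_sum, map_mul, act_X, Finset.mul_sum, map_sum]
    apply Finset.sum_congr rfl
    intro j _
    have h2 : act M p * (C (M i j) * X j) = M i j • (act M p * X j) := by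
      rw [smul_eq_C_mul]; ring
    rw [map_mul, hF, h2, map_smul, smul_eq_mul, evM, eval_X]

/-- if `f` is fixed by `K` it is fixed by the Zariski closure -/
lemma act_eq_of_dense {K Γ : Set (Matrix ν ν ℂ)}
    (hd : ∀ F : MvPolynomial (ν × ν) ℂ, (∀ k ∈ K, evM k F = 0) → ∀ g ∈ Γ, evM g F = 0)
    {f : MvPolynomial ν ℂ} (hf : ∀ k ∈ K, act k f = f) : ∀ g ∈ Γ, act g f = f := by
  intro g hg
  apply MvPolynomial.ext
  intro m
  obtain ⟨F, hF⟩ := exists_evM f (lcoeff ℂ m)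
  have h1 := hd (F - C (coeff m f)) (fun k hk => by
    rw [map_sub, hF, hf k hk, evM, eval_C, lcoeff_apply, sub_self]) g hg
  rw [map_sub, hF, evM, eval_C, lcoeff_apply, sub_eq_zero] at h1
  exact h1

/-- if `Q` commutes with `K` it commutes with the Zariski closure -/
lemma commute_of_dense {K Γ : Set (Matrix ν ν ℂ)}
    (hd : ∀ F : MvPolynomial (ν × ν) ℂ, (∀ k ∈ K, evM k F = 0) → ∀ g ∈ Γ, evM g F = 0)
    {Q : Module.End ℂ (MvPolynomial ν ℂ)} (hQ : ∀ k ∈ K, ∀ f, act k (Q f) = Q (act k f)) :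
    ∀ g ∈ Γ, ∀ f, act g (Q f) = Q (act g f) := by
  intro g hg f
  apply MvPolynomial.ext
  intro m
  obtain ⟨F, hF⟩ := exists_evM (Q f) (lcoeff ℂ m)
  obtain ⟨F', hF'⟩ := exists_evM f (lcoeff ℂ m ∘ₗ Q)
  have h1 := hd (F - F') (fun k hk => by
    rw [map_sub, hF, hF', LinearMap.comp_apply, hQ k hk, sub_self]) g hg
  rw [map_sub, hF, hF', LinearMap.comp_apply, lcoeff_apply, lcoeff_apply, sub_eq_zero] at h1
  exact h1

/-! ### linear changes of coordinates -/

/-- the automorphism `f ↦ f ∘ S` -/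
noncomputable def actE (S T : Matrix ν ν ℂ) (h1 : S * T = 1) (h2 : T * S = 1) :
    MvPolynomial ν ℂ ≃ₐ[ℂ] MvPolynomial ν ℂ :=
  AlgEquiv.ofAlgHom (act S) (act T)
    (by
      apply AlgHom.ext
      intro f
      rw [AlgHom.comp_apply, ← act_mul, h2, act_one, AlgHom.id_apply])
    (by
      apply AlgHom.ext
      intro f
      rw [AlgHom.comp_apply, ← act_mul, h1, act_one, AlgHom.id_apply])

lemma actE_apply (S T : Matrix ν ν ℂ) (h1 : S * T = 1) (h2 : T * S = 1) (f : MvPolynomial ν ℂ) :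
    actE S T h1 h2 f = act S f := rfl

lemma actE_symm_apply (S T : Matrix ν ν ℂ) (h1 : S * T = 1) (h2 : T * S = 1)
    (f : MvPolynomial ν ℂ) : (actE S T h1 h2).symm f = act T f := rfl

open scoped MatrixOrder ComplexOrder in
lemma exists_factor {H : Matrix ν ν ℂ} (hH : H.PosDef) :
    ∃ S T : Matrix ν ν ℂ, S * T = 1 ∧ T * S = 1 ∧ H = S.conjTranspose * S := by
  obtain ⟨S, hS⟩ := CStarAlgebra.nonneg_iff_eq_star_mul_self.mp hH.posSemidef.nonneg
  have h1 : IsUnit H := hH.isUnit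
  have h2 : IsUnit S := by
    rw [Matrix.isUnit_iff_isUnit_det] at h1 ⊢
    rw [hS, Matrix.det_mul] at h1
    exact isUnit_of_mul_isUnit_right h1
  obtain ⟨u, hu⟩ := h2
  refine ⟨S, (u⁻¹ : (Matrix ν ν ℂ)ˣ), ?_, ?_, hS⟩
  · rw [← hu, Units.mul_inv]
  · rw [← hu, Units.inv_mul]

open scoped ComplexOrder in
/-- the theorem for a group with a subgroup preserving a Hermitian form -/
theorem main_aux (A : Subalgebra ℂ (MvPolynomial ν ℂ)) (K : Subgroup (GL ν ℂ))
    {H : Matrix ν ν ℂ} (hH : H.PosDef)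
    (hK : ∀ k ∈ K, (k : Matrix ν ν ℂ).conjTranspose * H * (k : Matrix ν ν ℂ) = H)
    (hA : ∀ f, f ∈ A ↔ ∀ k ∈ K, act (k : Matrix ν ν ℂ) f = f) (hS : Surj A)
    {n : ℕ} {P : Module.End ℂ A} (hP : DOp n P) :
    ∃ Q : Module.End ℂ (MvPolynomial ν ℂ), DOp n Q ∧
      (∀ k ∈ K, ∀ f, act (k : Matrix ν ν ℂ) (Q f) = Q (act (k : Matrix ν ν ℂ) f)) ∧
      ∀ a : A, Q a = ((P a : A) : MvPolynomial ν ℂ) := by
  obtain ⟨S, T, hST, hTS, rfl⟩ := exists_factor hH
  have hct : T.conjTranspose * S.conjTranspose = 1 := by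
    rw [← Matrix.conjTranspose_mul, hST, Matrix.conjTranspose_one]
  -- the conjugated group
  have hu : ∀ k ∈ K, S * (k : Matrix ν ν ℂ) * T ∈ Matrix.unitaryGroup ν ℂ := by
    intro k hk
    rw [Matrix.mem_unitaryGroup_iff', Matrix.star_eq_conjTranspose, Matrix.conjTranspose_mul,
      Matrix.conjTranspose_mul]
    have h1 := hK k hk
    calc T.conjTranspose * ((k : Matrix ν ν ℂ).conjTranspose * S.conjTranspose) *
          (S * (k : Matrix ν ν ℂ) * T) =
        T.conjTranspose * ((k : Matrix ν ν ℂ).conjTranspose * (S.conjTranspose * S) *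
          (k : Matrix ν ν ℂ)) * T := by simp only [Matrix.mul_assoc]
      _ = (T.conjTranspose * S.conjTranspose) * (S * T) := by
        rw [h1]; simp only [Matrix.mul_assoc]
      _ = 1 := by rw [hct, hST, Matrix.mul_one]
  let K' : Subgroup (Matrix.unitaryGroup ν ℂ) :=
    { carrier := {u | ∃ k ∈ K, (u : Matrix ν ν ℂ) = S * (k : Matrix ν ν ℂ) * T}
      mul_mem' := by
        rintro u v ⟨k, hk, hku⟩ ⟨l, hl, hlv⟩
        refine ⟨k * l, K.mul_mem hk hl, ?_⟩
        have h1 : ((u * v : Matrix.unitaryGroup ν ℂ) : Matrix ν ν ℂ) = (u : Matrix ν ν ℂ) * v := rfl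
        have h2 : ((k * l : GL ν ℂ) : Matrix ν ν ℂ) = (k : Matrix ν ν ℂ) * l := rfl
        rw [h1, hku, hlv, h2]
        calc S * (k : Matrix ν ν ℂ) * T * (S * (l : Matrix ν ν ℂ) * T) =
            S * (k : Matrix ν ν ℂ) * (T * S) * (l : Matrix ν ν ℂ) * T := by
              simp only [Matrix.mul_assoc]
          _ = S * ((k : Matrix ν ν ℂ) * (l : Matrix ν ν ℂ)) * T := by
              rw [hTS, Matrix.mul_one]; simp only [Matrix.mul_assoc]
      one_mem' := by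
        refine ⟨1, K.one_mem, ?_⟩
        have h1 : ((1 : Matrix.unitaryGroup ν ℂ) : Matrix ν ν ℂ) = 1 := rfl
        have h2 : ((1 : GL ν ℂ) : Matrix ν ν ℂ) = 1 := rfl
        rw [h1, h2, Matrix.mul_one, hST]
      inv_mem' := by
        rintro u ⟨k, hk, hku⟩
        refine ⟨k⁻¹, K.inv_mem hk, ?_⟩
        have h1 : (u : Matrix ν ν ℂ) * (S * ((k⁻¹ : GL ν ℂ) : Matrix ν ν ℂ) * T) = 1 := by
          rw [hku]
          calc S * (k : Matrix ν ν ℂ) * T * (S * ((k⁻¹ : GL ν ℂ) : Matrix ν ν ℂ) * T) =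
              S * (k : Matrix ν ν ℂ) * (T * S) * ((k⁻¹ : GL ν ℂ) : Matrix ν ν ℂ) * T := by
                simp only [Matrix.mul_assoc]
            _ = S * ((k : Matrix ν ν ℂ) * ((k⁻¹ : GL ν ℂ) : Matrix ν ν ℂ)) * T := by
                rw [hTS, Matrix.mul_one]; simp only [Matrix.mul_assoc]
            _ = 1 := by
                rw [Units.mul_inv, Matrix.mul_one, hST]
        have h2 : ((u⁻¹ : Matrix.unitaryGroup ν ℂ) : Matrix ν ν ℂ) * (u : Matrix ν ν ℂ) = 1 :=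
          congrArg Subtype.val (inv_mul_cancel u)
        calc ((u⁻¹ : Matrix.unitaryGroup ν ℂ) : Matrix ν ν ℂ) =
            ((u⁻¹ : Matrix.unitaryGroup ν ℂ) : Matrix ν ν ℂ) *
              ((u : Matrix ν ν ℂ) * (S * ((k⁻¹ : GL ν ℂ) : Matrix ν ν ℂ) * T)) := by
              rw [h1, Matrix.mul_one]
          _ = _ := by rw [← Matrix.mul_assoc, h2, Matrix.one_mul] }
  have hmem : ∀ u : Matrix.unitaryGroup ν ℂ,
      u ∈ K' ↔ ∃ k ∈ K, (u : Matrix ν ν ℂ) = S * (k : Matrix ν ν ℂ) * T := fun _ => Iff.rfl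
  let φ := actE T S hTS hST
  have hφ : ∀ f, φ f = act T f := fun _ => rfl
  have hφs : ∀ f, φ.symm f = act S f := fun _ => rfl
  have hconj : ∀ (k : GL ν ℂ) (f : MvPolynomial ν ℂ),
      act (S * (k : Matrix ν ν ℂ) * T) f = φ (act (k : Matrix ν ν ℂ) (φ.symm f)) := by
    intro k f
    rw [act_mul, act_mul, hφ, hφs]
  have hAK : A.map (φ : MvPolynomial ν ℂ →ₐ[ℂ] MvPolynomial ν ℂ) = InvAlg K' := by
    apply le_antisymm
    · rintro _ ⟨f, hf, rfl⟩
      rw [mem_InvAlg]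
      rintro u ⟨k, hk, hku⟩
      rw [hku, hconj]
      change φ (act (k : Matrix ν ν ℂ) (φ.symm (φ f))) = φ f
      rw [φ.symm_apply_apply, (hA f).1 hf k hk]
    · intro f hf
      refine ⟨φ.symm f, ?_, φ.apply_symm_apply f⟩
      change φ.symm f ∈ A
      rw [hA]
      intro k hk
      have h1 := (mem_InvAlg.1 hf) ⟨S * (k : Matrix ν ν ℂ) * T, hu k hk⟩ ⟨k, hk, rfl⟩
      change act (S * (k : Matrix ν ν ℂ) * T) f = f at h1
      rw [hconj] at h1
      have h2 := congrArg φ.symm h1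
      rwa [φ.symm_apply_apply] at h2
  have hS' : Surj (InvAlg K') := by
    rw [← hAK]
    exact surj_map φ A hS
  have hG := grSurj_of_surj K' hS'
  -- transport
  let e : A ≃ₐ[ℂ] InvAlg K' :=
    (AlgEquiv.subalgebraMap φ A).trans (Subalgebra.equivOfEq _ _ hAK)
  have he : ∀ a : A, ((e a : InvAlg K') : MvPolynomial ν ℂ) = φ a := fun _ => rfl
  have hP' := DOp_conj e hP
  obtain ⟨Q₁, hQ₁, hQ₁P⟩ := hG n _ hP'
  obtain ⟨Q₂, hQ₂, hQ₂K, hQ₂P⟩ := exists_invariant_lift K' hQ₁ hQ₁P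
  refine ⟨_, DOp_conj φ.symm hQ₂, ?_, ?_⟩
  · intro k hk f
    change act (k : Matrix ν ν ℂ) (φ.symm (Q₂ (φ f))) = φ.symm (Q₂ (φ (act (k : Matrix ν ν ℂ) f)))
    have h1 := hQ₂K ⟨S * (k : Matrix ν ν ℂ) * T, hu k hk⟩ ⟨k, hk, rfl⟩ (φ f)
    change act (S * (k : Matrix ν ν ℂ) * T) (Q₂ (φ f)) =
      Q₂ (act (S * (k : Matrix ν ν ℂ) * T) (φ f)) at h1
    rw [hconj, hconj, φ.symm_apply_apply] at h1
    rw [← h1, φ.symm_apply_apply]
  · intro a
    change φ.symm (Q₂ (φ a)) = ((P a : A) : MvPolynomial ν ℂ)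
    have h1 := hQ₂P (e a)
    rw [he a] at h1
    rw [h1]
    change φ.symm ((e (P (e.symm (e a))) : InvAlg K') : MvPolynomial ν ℂ) = _
    rw [e.symm_apply_apply, he, φ.symm_apply_apply]

end H50.Z
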