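import Pool.Agent.H50.DO.Expr
import Pool.Agent.H97.KL.Quot

/-! (KL1) The lattice lemma in characteristic `p`. -/

open MvPolynomial H50.DO

set_option linter.unusedSectionVars false

namespace H50.Z

/-- `k` an infinite field of characteristic `p`, `K₀ = k(X)`. `A₀` is a subalgebra of `K₀[x]`
containing `h`, stable under all `λ`-coefficients of `e^{-λh} E e^{λh}` (`E, E₁, E₂` expressions over
`k`), on `A₀` this polynomial in `λ` has degree `≤ n` with top coefficient multiplication by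
`F ∈ K₀[x]`, and equals `b` times the one of `E₁` plus `b'` times the one of `E₂`. `x_i` is an arc
over `k[X]`, along which all `∂_i h` are regular, and `b, b'` vanish at `X = 0`. Then if `F` is regular along the arc, it
vanishes at `X = 0`. -/
theorem lattice_lemma {ν : Type} [Fintype ν] [DecidableEq ν] (k : Type) [Field k] [Infinite k] (p : ℕ)
    [Fact p.Prime] [CharP k p]
    (A₀ : Subalgebra (RatFunc k) (MvPolynomial ν (RatFunc k))) (h : MvPolynomial ν (RatFunc k))
    (hA : h ∈ A₀) (E E₁ E₂ : WExp ν k) (n : ℕ)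
    (b b' : MvPolynomial ν k) (F : MvPolynomial ν (RatFunc k)) (hF : F ∈ A₀)
    (hb : map (RatFunc.C : k →+* RatFunc k) b ∈ A₀) (hb' : map (RatFunc.C : k →+* RatFunc k) b' ∈ A₀)
    (h1 : ∀ E' ∈ [E, E₁, E₂], ∀ a ∈ A₀, ∀ l,
      (WExp.evT h (WExp.bc (RatFunc.C : k →+* RatFunc k) E')) (sgl a) l ∈ A₀)
    (h2 : ∀ a ∈ A₀, ∀ l, (WExp.evT h (WExp.bc (RatFunc.C : k →+* RatFunc k) E)) (sgl a) l =
      map (RatFunc.C : k →+* RatFunc k) b *
        (WExp.evT h (WExp.bc (RatFunc.C : k →+* RatFunc k) E₁)) (sgl a) l +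
      map (RatFunc.C : k →+* RatFunc k) b' *
        (WExp.evT h (WExp.bc (RatFunc.C : k →+* RatFunc k) E₂)) (sgl a) l)
    (h3 : ∀ a ∈ A₀, ∀ l, n < l → (WExp.evT h (WExp.bc (RatFunc.C : k →+* RatFunc k) E)) (sgl a) l = 0)
    (h4 : ∀ a ∈ A₀, (WExp.evT h (WExp.bc (RatFunc.C : k →+* RatFunc k) E)) (sgl a) n = F * a)
    (x η : ν → Polynomial k)
    (hη : ∀ i, eval (fun j => algebraMap (Polynomial k) (RatFunc k) (x j)) (pderiv i h) =
      algebraMap (Polynomial k) (RatFunc k) (η i))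
    (hb0 : eval (fun j => (x j).eval 0) b = 0) (hb0' : eval (fun j => (x j).eval 0) b' = 0)
    (φ : Polynomial k)
    (hφ : eval (fun j => algebraMap (Polynomial k) (RatFunc k) (x j)) F =
      algebraMap (Polynomial k) (RatFunc k) φ) :
    φ.eval 0 = 0 :=
  Pool.Agent.H97.KL.lattice_lemma' k p A₀ h E E₁ E₂ n b b' F hF hb hb' h1 h2 h3 h4 x η hη hb0 hb0'
    φ hφ

end H50.Z
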