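import Pool.Agent.H50.Z.KL2a_Calc
import Pool.Agent.H50.Z.Defs
import Pool.Agent.H50.DO.Univ

/-!
Homomorphisms, characteristic zero restrictions and the universal symbol, used for the reduction
modulo `p`.
-/

open MvPolynomial H50.DO

set_option linter.unusedSectionVars false

namespace H50.Z.KLr

section Homs

variable {σ τ : Type} {R R' : Type} [CommRing R] [CommRing R'] (ψ : R →+* R')

lemma map_aeval' (g : σ → MvPolynomial τ R) (B : MvPolynomial σ R) :
    map ψ (aeval g B) = aeval (fun j => map ψ (g j)) (map ψ B) := by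
  have h : (map ψ).comp ((aeval g : MvPolynomial σ R →ₐ[R] MvPolynomial τ R) :
      MvPolynomial σ R →+* MvPolynomial τ R) =
      ((aeval (fun j => map ψ (g j)) : MvPolynomial σ R' →ₐ[R'] MvPolynomial τ R') :
        MvPolynomial σ R' →+* MvPolynomial τ R').comp (map ψ) := by
    apply MvPolynomial.ringHom_ext
    · intro r; simp
    · intro i; simp
  exact RingHom.congr_fun h B

lemma pmap_aeval (g : σ → Polynomial R) (B : MvPolynomial σ R) :
    (aeval g B).map ψ = aeval (fun j => (g j).map ψ) (map ψ B) := by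
  have h : (Polynomial.mapRingHom ψ).comp ((aeval g : MvPolynomial σ R →ₐ[R] Polynomial R) :
      MvPolynomial σ R →+* Polynomial R) =
      ((aeval (fun j => (g j).map ψ) : MvPolynomial σ R' →ₐ[R'] Polynomial R') :
        MvPolynomial σ R' →+* Polynomial R').comp (map ψ) := by
    apply MvPolynomial.ringHom_ext
    · intro r; simp
    · intro i; simp
  exact RingHom.congr_fun h B

lemma peval_aeval (g : σ → Polynomial R) (t : R) (B : MvPolynomial σ R) :
    (aeval g B).eval t = eval (fun j => (g j).eval t) B := by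
  have h : (Polynomial.evalRingHom t).comp ((aeval g : MvPolynomial σ R →ₐ[R] Polynomial R) :
      MvPolynomial σ R →+* Polynomial R) = eval (fun j => (g j).eval t) := by
    apply MvPolynomial.ringHom_ext
    · intro r; simp
    · intro i; simp
  exact RingHom.congr_fun h B

lemma hom_eval (g : σ → R) (B : MvPolynomial σ R) :
    ψ (eval g B) = eval (fun j => ψ (g j)) (map ψ B) := by
  have h : ψ.comp (eval g) = (eval (fun j => ψ (g j))).comp (map ψ) := by
    apply MvPolynomial.ringHom_ext
    · intro r; simp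
    · intro i; simp
  exact RingHom.congr_fun h B

lemma eval_ratFunc {k : Type} [Field k] (g : σ → Polynomial k) (B : MvPolynomial σ k) :
    eval (fun j => algebraMap (Polynomial k) (RatFunc k) (g j))
      (map (RatFunc.C : k →+* RatFunc k) B) = algebraMap (Polynomial k) (RatFunc k) (aeval g B) := by
  have h : (eval (fun j => algebraMap (Polynomial k) (RatFunc k) (g j))).comp
      (map (RatFunc.C : k →+* RatFunc k)) = (algebraMap (Polynomial k) (RatFunc k)).comp
      ((aeval g : MvPolynomial σ k →ₐ[k] Polynomial k) : MvPolynomial σ k →+* Polynomial k) := by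
    apply MvPolynomial.ringHom_ext
    · intro r; simp
    · intro i; simp
  exact RingHom.congr_fun h B

lemma eval_aeval' (x : τ → R) (g : σ → MvPolynomial τ R) (B : MvPolynomial σ R) :
    eval x (aeval g B) = eval (fun j => eval x (g j)) B := by
  have h : (eval x).comp ((aeval g : MvPolynomial σ R →ₐ[R] MvPolynomial τ R) :
      MvPolynomial σ R →+* MvPolynomial τ R) = eval (fun j => eval x (g j)) := by
    apply MvPolynomial.ringHom_ext
    · intro r; simp
    · intro i; simp
  exact RingHom.congr_fun h B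

lemma aeval_mem_adjoin {μ : Type} (f : μ → MvPolynomial τ R) (B : MvPolynomial μ R) :
    aeval f B ∈ Algebra.adjoin R (Set.range f) := by
  rw [Algebra.adjoin_range_eq_range_aeval]
  exact ⟨B, rfl⟩

end Homs

/-- lifting a polynomial to a subring containing its coefficients -/
lemma exists_pmap_eq {R : Type} [CommRing R] (ι : R →+* ℂ) (g : Polynomial ℂ)
    (h : (g.coeffs : Set ℂ) ⊆ Set.range ι) : ∃ g' : Polynomial R, g'.map ι = g := by
  have h1 : g ∈ Polynomial.lifts ι := by
    rw [Polynomial.lifts_iff_coeff_lifts]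
    intro m
    by_cases hm : g.coeff m = 0
    · exact ⟨0, by simp [hm]⟩
    · exact h (Polynomial.coeff_mem_coeffs hm)
  exact (Polynomial.mem_lifts _).1 h1

section CharZero

variable {ν : Type} {A : Subalgebra ℂ (MvPolynomial ν ℂ)} {μ : Type}

lemma adR_eq_ad (f : MvPolynomial ν ℂ) (P : Module.End ℂ (MvPolynomial ν ℂ)) :
    adR f P = ad f P := rfl

lemma adW_restrict {Q : Module.End ℂ (MvPolynomial ν ℂ)} {P : Module.End ℂ A}
    (hPQ : ∀ a : A, Q a = ((P a : A) : MvPolynomial ν ℂ)) (f : μ → A) (w : List μ) :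
    ∃ P' : Module.End ℂ A,
      (∀ a : A, adW (fun j => (f j : MvPolynomial ν ℂ)) w Q a = ((P' a : A) : MvPolynomial ν ℂ)) ∧
      ∀ s, DOp (s + w.length) P → DOp s P' := by
  induction w with
  | nil => exact ⟨P, hPQ, fun s h => h⟩
  | cons j w ih =>
    obtain ⟨P', h1, h2⟩ := ih
    refine ⟨ad (f j) P', fun a => ?_, fun s h => ?_⟩
    · rw [adW_cons, adR_eq_ad]
      exact ad_restrict h1 (f j) a
    · have h3 : DOp (s + 1 + w.length) P := by
        rw [List.length_cons] at h
        rwa [show s + 1 + w.length = s + (w.length + 1) by ring]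
      exact h2 (s + 1) h3 (f j)

lemma DOp_adW {Q : Module.End ℂ (MvPolynomial ν ℂ)} (f : μ → MvPolynomial ν ℂ) (w : List μ)
    (s : ℕ) (h : DOp (s + w.length) Q) : DOp s (adW f w Q) := by
  induction w generalizing s with
  | nil => exact h
  | cons j w ih =>
    rw [adW_cons, adR_eq_ad]
    refine ih (s + 1) ?_ (f j)
    rw [List.length_cons] at h
    rwa [show s + 1 + w.length = s + (w.length + 1) by ring]

lemma adW_eq_zero {Q : Module.End ℂ (MvPolynomial ν ℂ)} {N : ℕ} (hQ : DOp N Q)
    (f : μ → MvPolynomial ν ℂ) (w : List μ) (hw : N ≤ w.length) : adW f w Q = 0 := by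
  have h := DOp_adW f w 0 (hQ.mono (by omega))
  exact h

lemma adW_one_mem {Q : Module.End ℂ (MvPolynomial ν ℂ)} {P : Module.End ℂ A}
    (hPQ : ∀ a : A, Q a = ((P a : A) : MvPolynomial ν ℂ)) (f : μ → A) (w : List μ) :
    adW (fun j => (f j : MvPolynomial ν ℂ)) w Q 1 ∈ A := by
  obtain ⟨P', h1, -⟩ := adW_restrict hPQ f w
  have h2 := h1 1
  rw [Subalgebra.coe_one] at h2
  rw [h2]
  exact (P' 1).2

lemma adW_one_eq_zero {Q : Module.End ℂ (MvPolynomial ν ℂ)} {P : Module.End ℂ A} {n : ℕ}
    (hn : DOp n P) (hPQ : ∀ a : A, Q a = ((P a : A) : MvPolynomial ν ℂ)) (f : μ → A)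
    (w : List μ) (hw : n ≤ w.length) :
    adW (fun j => (f j : MvPolynomial ν ℂ)) w Q 1 = 0 := by
  obtain ⟨P', h1, h3⟩ := adW_restrict hPQ f w
  have h2 := h1 1
  rw [Subalgebra.coe_one] at h2
  have h4 : P' = 0 := h3 0 (hn.mono (by omega))
  rw [h2, h4]
  rfl

end CharZero

section Univ

variable {ν μ : Type} [Fintype μ]

/-- the universal symbol `F(x, ∑ c_j df_j)` -/
noncomputable def uF {R : Type} [CommRing R] (f : μ → MvPolynomial ν R)
    (F : MvPolynomial (ν ⊕ ν) R) : MvPolynomial (ν ⊕ μ) R :=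
  aeval (Sum.elim (fun i => X (Sum.inl i))
    (fun i => ∑ j, X (Sum.inr j) * rename Sum.inl (pderiv i (f j)))) F

lemma map_uF {R R' : Type} [CommRing R] [CommRing R'] (ψ : R →+* R') (f : μ → MvPolynomial ν R)
    (F : MvPolynomial (ν ⊕ ν) R) : map ψ (uF f F) = uF (fun j => map ψ (f j)) (map ψ F) := by
  unfold uF
  rw [map_aeval']
  congr 2
  funext i
  rcases i with i | i
  · simp
  · simp [MvPolynomial.map_rename, MvPolynomial.pderiv_map]

lemma sp_uF {R : Type} [CommRing R] (c : μ → R) (f : μ → MvPolynomial ν R)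
    (F : MvPolynomial (ν ⊕ ν) R) :
    sp c (uF f F) = aeval (Sum.elim X (fun i => pderiv i (∑ j, C (c j) * f j))) F := by
  unfold uF
  have h : (sp c).comp (aeval (Sum.elim (fun i => X (Sum.inl i))
      (fun i => ∑ j, X (Sum.inr j) * rename Sum.inl (pderiv i (f j)))) :
        MvPolynomial (ν ⊕ ν) R →ₐ[R] MvPolynomial (ν ⊕ μ) R) =
      aeval (Sum.elim X (fun i => pderiv i (∑ j, C (c j) * f j))) := by
    apply MvPolynomial.algHom_ext
    intro i
    rcases i with i | i
    · simp [sp]
    · rw [AlgHom.comp_apply, aeval_X, aeval_X, Sum.elim_inr, Sum.elim_inr, map_sum, map_sum]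
      refine Finset.sum_congr rfl fun j _ => ?_
      rw [map_mul, sp_rename]
      simp [sp, Derivation.leibniz]
  exact AlgHom.congr_fun h F

/-- the universal symbol identity -/
lemma uS_eq_uF {A : Subalgebra ℂ (MvPolynomial ν ℂ)} {Q : Module.End ℂ (MvPolynomial ν ℂ)}
    {P : Module.End ℂ A} {n : ℕ} (hPQ : ∀ a : A, Q a = ((P a : A) : MvPolynomial ν ℂ))
    (f : μ → A) (E : WExp ν ℂ) (hE : WExp.ev E = Q) (F : MvPolynomial (ν ⊕ ν) ℂ)
    (hF : ∀ a : A, ((symb a n P : A) : MvPolynomial ν ℂ) = dsub (a : MvPolynomial ν ℂ) F) :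
    uS (fun j => (f j : MvPolynomial ν ℂ)) E 1 n = uF (fun j => (f j : MvPolynomial ν ℂ)) F := by
  apply eq_of_sp
  intro c
  have hmem : (∑ i, C (c i) * (f i : MvPolynomial ν ℂ)) ∈ A :=
    Subalgebra.sum_mem _ fun i _ => by
      rw [← MvPolynomial.smul_eq_C_mul]
      exact Subalgebra.smul_mem _ (f i).2 _
  have h2 := symb_restrict hPQ ⟨_, hmem⟩ n
  rw [sp_uS, evT_pow_apply, pow_one, hE, sp_uF]
  rw [h2, hF]
  rfl

end Univ

end H50.Z.KLr
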