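import Pool.Agent.H50.Z.KL1_Char
import Pool.Agent.H50.Z.KL2b_Hom

/-!
The application of the lattice lemma to the reduction modulo `p`.
-/

open MvPolynomial H50.DO

set_option linter.unusedSectionVars false

namespace H50.Z.KLr

lemma peval_map {R R' : Type} [CommRing R] [CommRing R'] (ψ : R →+* R') (g : Polynomial R) :
    (g.map ψ).eval 0 = ψ (g.eval 0) := by
  rw [← Polynomial.coeff_zero_eq_eval_zero, ← Polynomial.coeff_zero_eq_eval_zero,
    Polynomial.coeff_map]

/-- the expression of `E - b E₁ - b' E₂` -/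
noncomputable def dE {ν R : Type} [CommRing R] (E E₁ E₂ : WExp ν R) (b b' : MvPolynomial ν R) :
    WExp ν R :=
  .add E (.add (.comp (.mul (-b)) E₁) (.comp (.mul (-b')) E₂))

lemma evT_dE {ν R : Type} [CommRing R] (h : MvPolynomial ν R) (E E₁ E₂ : WExp ν R)
    (b b' : MvPolynomial ν R) (s : ℕ → MvPolynomial ν R) (l : ℕ) :
    WExp.evT h (dE E E₁ E₂ b b') s l =
      WExp.evT h E s l - b * WExp.evT h E₁ s l - b' * WExp.evT h E₂ s l := by
  simp only [dE, WExp.evT, LinearMap.add_apply, Pi.add_apply, Module.End.mul_apply, WExp.mulSeq,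
    LinearMap.coe_mk, AddHom.coe_mk]
  ring

lemma bc_dE {ν R R' : Type} [CommRing R] [CommRing R'] (ψ : R →+* R') (E E₁ E₂ : WExp ν R)
    (b b' : MvPolynomial ν R) :
    WExp.bc ψ (dE E E₁ E₂ b b') =
      dE (WExp.bc ψ E) (WExp.bc ψ E₁) (WExp.bc ψ E₂) (map ψ b) (map ψ b') := by
  simp only [dE, WExp.bc, map_neg]

/-- the conclusion for one reduction -/
lemma kl_p {ν : Type} [Fintype ν] [DecidableEq ν] {R : Type} [CommRing R] {k : Type} [Field k]
    [Infinite k] (p : ℕ) [Fact p.Prime] [CharP k p] (φ : R →+* k) {m : ℕ}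
    (fR : Fin m → MvPolynomial ν R) (E E₁ E₂ : WExp ν R) (n : ℕ) (hn : n < p)
    (hl : len E < p) (hl₁ : len E₁ < p) (hl₂ : len E₂ < p)
    (hW : ∀ E' ∈ [E, E₁, E₂], ∀ w : List (Fin m), ∃ q : MvPolynomial (Fin m) R,
      adW fR w (WExp.ev E') 1 = aeval fR q)
    (hW0 : ∀ w : List (Fin m), n < w.length → adW fR w (WExp.ev E) 1 = 0)
    (BR BR' : MvPolynomial (Fin m) R)
    (hWD : ∀ w : List (Fin m),
      adW fR w (WExp.ev (dE E E₁ E₂ (aeval fR BR) (aeval fR BR'))) 1 = 0)
    (FR : MvPolynomial (ν ⊕ ν) R) (huS : uS fR E 1 n = uF fR FR)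
    (xR ηR : ν → Polynomial R) (cR : Fin m → Polynomial R) (r : ℕ)
    (hη : ∀ i, Polynomial.X ^ r * ηR i = ∑ j, cR j * aeval xR (pderiv i (fR j)))
    (hb : eval (fun j => (xR j).eval 0) (aeval fR BR) = 0)
    (hb' : eval (fun j => (xR j).eval 0) (aeval fR BR') = 0) :
    φ (eval (Sum.elim (fun i => (xR i).eval 0) fun i => (ηR i).eval 0) FR) = 0 := by
  set ψ : R →+* RatFunc k := (RatFunc.C : k →+* RatFunc k).comp φ with hψ
  set fK : Fin m → MvPolynomial ν (RatFunc k) := fun j => map ψ (fR j) with hfK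
  set A₀ : Subalgebra (RatFunc k) (MvPolynomial ν (RatFunc k)) :=
    Algebra.adjoin (RatFunc k) (Set.range fK) with hA₀
  have hfA : ∀ j, fK j ∈ A₀ := fun j => Algebra.subset_adjoin ⟨j, rfl⟩
  let xk : ν → Polynomial k := fun i => (xR i).map φ
  let ηk : ν → Polynomial k := fun i => (ηR i).map φ
  let cc : Fin m → RatFunc k := fun j =>
    algebraMap (Polynomial k) (RatFunc k) ((cR j).map φ) /
      (algebraMap (Polynomial k) (RatFunc k) Polynomial.X) ^ r
  set h : MvPolynomial ν (RatFunc k) := ∑ j, C (cc j) * fK j with hh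
  have hhA : h ∈ A₀ := Subalgebra.sum_mem _ fun j _ => by
    rw [← smul_eq_C_mul]; exact Subalgebra.smul_mem _ (hfA j) _
  have hcharK : CharP (RatFunc k) p := by
    have : CharP k p := inferInstance
    exact charP_of_injective_ringHom (RatFunc.C : k →+* RatFunc k).injective p
  have hVA : ∀ j, ∀ a ∈ Subalgebra.toSubmodule A₀, fK j * a ∈ Subalgebra.toSubmodule A₀ :=
    fun j a ha => (Subalgebra.mem_toSubmodule A₀).2
      (A₀.mul_mem (hfA j) ((Subalgebra.mem_toSubmodule A₀).1 ha))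
  have hV0 : ∀ j, ∀ a ∈ (⊥ : Submodule (RatFunc k) (MvPolynomial ν (RatFunc k))),
      fK j * a ∈ (⊥ : Submodule (RatFunc k) (MvPolynomial ν (RatFunc k))) := by
    intro j a ha
    rw [Submodule.mem_bot] at ha ⊢
    rw [ha, mul_zero]
  -- transfer to `K`
  have hWK : ∀ (E' : WExp ν R) (w : List (Fin m)),
      adW fK w (WExp.ev (WExp.bc ψ E')) 1 = map ψ (adW fR w (WExp.ev E') 1) := by
    intro E' w
    have h1 := Rel_adW ψ (Rel_ev ψ E') fR w 1
    rw [map_one] at h1
    exact h1
  have hbcC : ∀ E' : WExp ν R,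
      WExp.bc (RatFunc.C : k →+* RatFunc k) (WExp.bc φ E') = WExp.bc ψ E' := fun E' => bc_bc _ _ _
  have hmapC : ∀ q : MvPolynomial ν R,
      map (RatFunc.C : k →+* RatFunc k) (map φ q) = map ψ q := fun q => MvPolynomial.map_map _ _ _
  have hmem : ∀ B : MvPolynomial (Fin m) R, map ψ (aeval fR B) ∈ A₀ := by
    intro B
    rw [map_aeval']
    exact aeval_mem_adjoin fK _
  have h1 : ∀ E' ∈ [E, E₁, E₂], ∀ a ∈ A₀, ∀ l, (WExp.evT h (WExp.bc ψ E')) (sgl a) l ∈ A₀ := by
    intro E' hE' a ha l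
    have hlen : len (WExp.bc ψ E') < p := by
      rw [len_bc]
      simp only [List.mem_cons, List.not_mem_nil, or_false] at hE'
      rcases hE' with rfl | rfl | rfl <;> assumption
    refine evT_mem p fK cc (WExp.bc ψ E') hlen (Subalgebra.toSubmodule A₀) hVA 0
      (fun w _ => ?_) a ha l (Nat.zero_le _)
    rw [hWK]
    obtain ⟨q, hq⟩ := hW E' hE' w
    rw [hq]
    exact hmem q
  have h2 : ∀ a ∈ A₀, ∀ l, (WExp.evT h (WExp.bc ψ E)) (sgl a) l =
      map ψ (aeval fR BR) * (WExp.evT h (WExp.bc ψ E₁)) (sgl a) l +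
      map ψ (aeval fR BR') * (WExp.evT h (WExp.bc ψ E₂)) (sgl a) l := by
    intro a ha l
    have hlen : len (WExp.bc ψ (dE E E₁ E₂ (aeval fR BR) (aeval fR BR'))) < p := by
      rw [len_bc]
      simp only [dE, len]
      omega
    have h3 := evT_mem p fK cc (WExp.bc ψ (dE E E₁ E₂ (aeval fR BR) (aeval fR BR'))) hlen ⊥ hV0 0
      (fun w _ => by rw [hWK, hWD, map_zero]; exact zero_mem _) a ha l (Nat.zero_le _)
    rw [Submodule.mem_bot, bc_dE, evT_dE] at h3
    linear_combination h3
  have h3 : ∀ a ∈ A₀, ∀ l, n < l → (WExp.evT h (WExp.bc ψ E)) (sgl a) l = 0 := by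
    intro a ha l hl'
    have hlen : len (WExp.bc ψ E) < p := by rw [len_bc]; exact hl
    have h4 := evT_mem p fK cc (WExp.bc ψ E) hlen ⊥ hV0 (n + 1)
      (fun w hw => by rw [hWK, hW0 w (by omega), map_zero]; exact zero_mem _) a ha l (by omega)
    rwa [Submodule.mem_bot] at h4
  -- the symbol
  set F₀ : MvPolynomial ν (RatFunc k) := aeval (Sum.elim X (fun i => pderiv i h)) (map ψ FR)
    with hF₀
  have hsym : (WExp.evT h (WExp.bc ψ E)) (sgl 1) n = F₀ := by
    have h4 := sp_uS cc fK (WExp.bc ψ E) 1 n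
    rw [pow_one] at h4
    have h5 := map_uS ψ fR E 1 n
    rw [huS, map_uF] at h5
    rw [hh, ← h4, ← h5, sp_uF]
  have hF₀A : F₀ ∈ A₀ := by
    rw [← hsym]
    exact h1 E (by simp) 1 (one_mem _) n
  have h4 : ∀ a ∈ A₀, (WExp.evT h (WExp.bc ψ E)) (sgl a) n = F₀ * a := by
    intro a ha
    rw [← hsym]
    exact evT_top p fK cc (WExp.bc ψ E) n hn
      (fun w hw => by rw [hWK, hW0 w hw, map_zero]) a ha
  -- the arc
  have hev : ∀ q : MvPolynomial ν R,
      eval (fun j => algebraMap (Polynomial k) (RatFunc k) (xk j)) (map ψ q) =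
        algebraMap (Polynomial k) (RatFunc k) ((aeval xR q).map φ) := by
    intro q
    rw [← hmapC, eval_ratFunc, pmap_aeval]
  have hηk : ∀ i, eval (fun j => algebraMap (Polynomial k) (RatFunc k) (xk j)) (pderiv i h) =
      algebraMap (Polynomial k) (RatFunc k) (ηk i) := by
    intro i
    have h5 : eval (fun j => algebraMap (Polynomial k) (RatFunc k) (xk j)) (pderiv i h) =
        ∑ j, cc j * algebraMap (Polynomial k) (RatFunc k) ((aeval xR (pderiv i (fR j))).map φ) := by
      rw [hh, map_sum, map_sum]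
      refine Finset.sum_congr rfl fun j _ => ?_
      rw [← hev, Derivation.leibniz, pderiv_C, smul_zero, add_zero, smul_eq_mul, map_mul, eval_C,
        hfK, MvPolynomial.pderiv_map]
    have hX : (algebraMap (Polynomial k) (RatFunc k) Polynomial.X) ^ r ≠ 0 := by
      apply pow_ne_zero
      exact RatFunc.algebraMap_ne_zero Polynomial.X_ne_zero
    have h6 := congrArg (fun q => algebraMap (Polynomial k) (RatFunc k) (q.map φ)) (hη i)
    simp only [Polynomial.map_mul, Polynomial.map_pow, Polynomial.map_X, map_mul, map_pow,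
      Polynomial.map_sum, map_sum] at h6
    rw [h5]
    apply mul_left_cancel₀ hX
    rw [h6, Finset.mul_sum]
    refine Finset.sum_congr rfl fun j _ => ?_
    simp only [cc]
    field_simp
  have hbk : eval (fun j => (xk j).eval 0) (map φ (aeval fR BR)) = 0 := by
    have h5 := hom_eval φ (fun j => (xR j).eval 0) (aeval fR BR)
    rw [hb, map_zero] at h5
    have h6 : (fun j => (xk j).eval 0) = fun j => φ ((xR j).eval 0) :=
      funext fun j => peval_map φ (xR j)
    rw [h6]
    exact h5.symm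
  have hbk' : eval (fun j => (xk j).eval 0) (map φ (aeval fR BR')) = 0 := by
    have h5 := hom_eval φ (fun j => (xR j).eval 0) (aeval fR BR')
    rw [hb', map_zero] at h5
    have h6 : (fun j => (xk j).eval 0) = fun j => φ ((xR j).eval 0) :=
      funext fun j => peval_map φ (xR j)
    rw [h6]
    exact h5.symm
  have hφ : eval (fun j => algebraMap (Polynomial k) (RatFunc k) (xk j)) F₀ =
      algebraMap (Polynomial k) (RatFunc k) (aeval (Sum.elim xk ηk) (map φ FR)) := by
    rw [hF₀, eval_aeval', ← eval_ratFunc, MvPolynomial.map_map]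
    congr 2
    funext i
    rcases i with i | i
    · simp
    · exact hηk i
  have hfin := lattice_lemma k p A₀ h hhA (WExp.bc φ E) (WExp.bc φ E₁) (WExp.bc φ E₂) n
    (map φ (aeval fR BR)) (map φ (aeval fR BR')) F₀ hF₀A (by rw [hmapC]; exact hmem BR)
    (by rw [hmapC]; exact hmem BR')
    (by
      intro E' hE' a ha l
      simp only [List.mem_cons, List.not_mem_nil, or_false] at hE'
      rcases hE' with rfl | rfl | rfl
      · rw [hbcC]; exact h1 E (by simp) a ha l
      · rw [hbcC]; exact h1 E₁ (by simp) a ha l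
      · rw [hbcC]; exact h1 E₂ (by simp) a ha l)
    (by
      intro a ha l
      rw [hbcC, hbcC, hbcC, hmapC, hmapC]
      exact h2 a ha l)
    (by
      intro a ha l hl'
      rw [hbcC]
      exact h3 a ha l hl')
    (by
      intro a ha
      rw [hbcC]
      exact h4 a ha)
    xk ηk hηk hbk hbk' (aeval (Sum.elim xk ηk) (map φ FR)) hφ
  rw [peval_aeval] at hfin
  rw [hom_eval, ← hfin]
  congr 2
  funext i
  rcases i with i | i
  · exact (peval_map φ (xR i)).symm
  · exact (peval_map φ (ηR i)).symm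

end H50.Z.KLr
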