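import Pool.Agent.H50.Z.KL1_Char
import Pool.Agent.H50.Z.Defs
import Pool.Agent.H50.DO.Univ
import Pool.Agent.H50.Z.KL2c_ModP

/-! (KL2) KL along polynomial arcs, by reduction modulo `p`. -/

open MvPolynomial H50.DO

set_option linter.unusedSectionVars false

namespace H50.Z

/-- KL along a polynomial arc. `A` is generated by `f_1, …, f_m`; `P = b P₁ + b' P₂` on `A`, all three
restrictions of operators on `S`; `P` has order `≤ n` with symbol `F`. Along an arc
`(x(t), c(t))` with `η = ∑ c_j (d f_j)(x)` regular, if `b, b'` vanish at `t = 0`, so does `F(x, η)`. -/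
theorem kl_arc {ν : Type} [Fintype ν] [DecidableEq ν] (A : Subalgebra ℂ (MvPolynomial ν ℂ)) {m : ℕ}
    (f : Fin m → MvPolynomial ν ℂ) (hf : A = Algebra.adjoin ℂ (Set.range f))
    {P P₁ P₂ : Module.End ℂ A} {Q Q₁ Q₂ : Module.End ℂ (MvPolynomial ν ℂ)} {N : ℕ}
    (hQ : DOp N Q) (hQ₁ : DOp N Q₁) (hQ₂ : DOp N Q₂)
    (hPQ : ∀ a : A, Q a = ((P a : A) : MvPolynomial ν ℂ))
    (hPQ₁ : ∀ a : A, Q₁ a = ((P₁ a : A) : MvPolynomial ν ℂ))
    (hPQ₂ : ∀ a : A, Q₂ a = ((P₂ a : A) : MvPolynomial ν ℂ))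
    (b b' : A) (hP : ∀ a, P a = b * P₁ a + b' * P₂ a) {n : ℕ} (hn : DOp (n + 1) P)
    (F : MvPolynomial (ν ⊕ ν) ℂ)
    (hF : ∀ a : A, ((symb a n P : A) : MvPolynomial ν ℂ) = dsub (a : MvPolynomial ν ℂ) F)
    (x : ν → Polynomial ℂ) (c : Fin m → Polynomial ℂ) (r : ℕ) (η : ν → Polynomial ℂ)
    (hη : ∀ i, Polynomial.X ^ r * η i = ∑ j, c j * aeval x (pderiv i (f j)))
    (hb : eval (fun j => (x j).eval 0) (b : MvPolynomial ν ℂ) = 0)
    (hb' : eval (fun j => (x j).eval 0) (b' : MvPolynomial ν ℂ) = 0) :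
    eval (Sum.elim (fun i => (x i).eval 0) fun i => (η i).eval 0) F = 0 := by
  classical
  by_contra hcon
  -- expressions
  obtain ⟨E₀, hE₀⟩ := isExpr_of_DOp hQ
  obtain ⟨E₁, hE₁⟩ := isExpr_of_DOp hQ₁
  obtain ⟨E₂, hE₂⟩ := isExpr_of_DOp hQ₂
  have hfA : ∀ j, f j ∈ A := fun j => by rw [hf]; exact Algebra.subset_adjoin ⟨j, rfl⟩
  let fA : Fin m → A := fun j => ⟨f j, hfA j⟩
  let EE : Fin 3 → WExp ν ℂ := ![E₀, E₁, E₂]
  let QQ : Fin 3 → Module.End ℂ (MvPolynomial ν ℂ) := ![Q, Q₁, Q₂]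
  let PP : Fin 3 → Module.End ℂ A := ![P, P₁, P₂]
  have hEE : ∀ i, WExp.ev (EE i) = QQ i := by
    intro i; fin_cases i <;> simp [EE, QQ, hE₀, hE₁, hE₂]
  have hQQ : ∀ i, DOp N (QQ i) := by
    intro i; fin_cases i
    · exact hQ
    · exact hQ₁
    · exact hQ₂
  have hPP : ∀ i, ∀ a : A, QQ i a = ((PP i a : A) : MvPolynomial ν ℂ) := by
    intro i; fin_cases i
    · exact hPQ
    · exact hPQ₁
    · exact hPQ₂
  let N₀ : ℕ := N + n + KLr.len E₀ + KLr.len E₁ + KLr.len E₂
  have hlen : ∀ i, KLr.len (EE i) ≤ N₀ := by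
    intro i; fin_cases i
    · show KLr.len E₀ ≤ N + n + KLr.len E₀ + KLr.len E₁ + KLr.len E₂
      omega
    · show KLr.len E₁ ≤ N + n + KLr.len E₀ + KLr.len E₁ + KLr.len E₂
      omega
    · show KLr.len E₂ ≤ N + n + KLr.len E₀ + KLr.len E₁ + KLr.len E₂
      omega
  -- certificates
  have hpoly : ∀ q ∈ A, ∃ B : MvPolynomial (Fin m) ℂ, aeval f B = q := by
    intro q hq
    rw [hf, Algebra.adjoin_range_eq_range_aeval] at hq
    obtain ⟨B, hB⟩ := hq
    exact ⟨B, hB⟩
  obtain ⟨B, hB⟩ := hpoly b b.2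
  obtain ⟨B', hB'⟩ := hpoly b' b'.2
  have hGex : ∀ (i : Fin 3) (w : List (Fin m)), ∃ G : MvPolynomial (Fin m) ℂ,
      aeval f G = KLr.adW f w (WExp.ev (EE i)) 1 := by
    intro i w
    apply hpoly
    rw [hEE]
    exact KLr.adW_one_mem (hPP i) fA w
  choose G hG using hGex
  -- the finitely generated ring
  let F₀ : Finset ℂ := ((Finset.univ.biUnion fun i => WExp.cf (EE i)) ∪
    (Finset.univ.biUnion fun j => (f j).coeffs)) ∪ (F.coeffs ∪ (B.coeffs ∪ B'.coeffs)) ∪
    ((Finset.univ.biUnion fun i => (x i).coeffs) ∪ (Finset.univ.biUnion fun i => (η i).coeffs) ∪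
      (Finset.univ.biUnion fun j => (c j).coeffs)) ∪
    (Finset.univ.biUnion fun i => (Finset.range (N₀ + 1)).biUnion fun l =>
      (Finset.univ : Finset (Fin l → Fin m)).biUnion fun g => (G i (List.ofFn g)).coeffs)
  let R : Subalgebra ℤ ℂ := Algebra.adjoin ℤ (F₀ : Set ℂ)
  have hRF : ∀ z ∈ F₀, z ∈ R := fun z hz => Algebra.subset_adjoin hz
  have hft : Algebra.FiniteType ℤ R := by
    rw [← Subalgebra.fg_iff_finiteType]
    exact Subalgebra.fg_adjoin_finset F₀
  let ι : R →+* ℂ := R.val.toRingHom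
  have hι : Function.Injective ι := Subtype.val_injective
  have hrange : ∀ z ∈ F₀, z ∈ Set.range ι := fun z hz => ⟨⟨z, hRF z hz⟩, rfl⟩
  have hER : ∀ i, ∃ E' : WExp ν R, WExp.bc ι E' = EE i := fun i =>
    WExp.exists_bc_eq ι (EE i) (fun z hz => hrange z (by
      simp only [F₀, Finset.mem_union, Finset.mem_biUnion, Finset.mem_univ, true_and]
      exact Or.inl (Or.inl (Or.inl (Or.inl ⟨i, hz⟩)))))
  choose ER hER using hER
  have hfR : ∀ j, ∃ q : MvPolynomial ν R, map ι q = f j := fun j =>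
    WExp.exists_map_eq ι (f j) (fun z hz => hrange z (by
      simp only [F₀, Finset.mem_union, Finset.mem_biUnion, Finset.mem_univ, true_and]
      exact Or.inl (Or.inl (Or.inl (Or.inr ⟨j, hz⟩)))))
  choose fR hfR using hfR
  obtain ⟨FR, hFR⟩ := WExp.exists_map_eq ι F (fun z hz => hrange z (by
      simp only [F₀, Finset.mem_union]
      exact Or.inl (Or.inl (Or.inr (Or.inl hz)))))
  obtain ⟨BR, hBR⟩ := WExp.exists_map_eq ι B (fun z hz => hrange z (by
      simp only [F₀, Finset.mem_union]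
      exact Or.inl (Or.inl (Or.inr (Or.inr (Or.inl hz))))))
  obtain ⟨BR', hBR'⟩ := WExp.exists_map_eq ι B' (fun z hz => hrange z (by
      simp only [F₀, Finset.mem_union]
      exact Or.inl (Or.inl (Or.inr (Or.inr (Or.inr hz))))))
  have hxR : ∀ i, ∃ q : Polynomial R, q.map ι = x i := fun i =>
    KLr.exists_pmap_eq ι (x i) (fun z hz => hrange z (by
      simp only [F₀, Finset.mem_union, Finset.mem_biUnion, Finset.mem_univ, true_and]
      exact Or.inl (Or.inr (Or.inl (Or.inl ⟨i, hz⟩)))))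
  choose xR hxR using hxR
  have hηR : ∀ i, ∃ q : Polynomial R, q.map ι = η i := fun i =>
    KLr.exists_pmap_eq ι (η i) (fun z hz => hrange z (by
      simp only [F₀, Finset.mem_union, Finset.mem_biUnion, Finset.mem_univ, true_and]
      exact Or.inl (Or.inr (Or.inl (Or.inr ⟨i, hz⟩)))))
  choose ηR hηR using hηR
  have hcR : ∀ i, ∃ q : Polynomial R, q.map ι = c i := fun i =>
    KLr.exists_pmap_eq ι (c i) (fun z hz => hrange z (by
      simp only [F₀, Finset.mem_union, Finset.mem_biUnion, Finset.mem_univ, true_and]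
      exact Or.inl (Or.inr (Or.inr ⟨i, hz⟩))))
  choose cR hcR using hcR
  have hGR : ∀ (i : Fin 3) (w : List (Fin m)), w.length ≤ N₀ →
      ∃ q : MvPolynomial (Fin m) R, map ι q = G i w := by
    intro i w hw
    apply WExp.exists_map_eq ι
    intro z hz
    apply hrange
    simp only [F₀, Finset.mem_union, Finset.mem_biUnion, Finset.mem_univ, true_and,
      Finset.mem_range]
    refine Or.inr ⟨i, w.length, by omega, w.get, ?_⟩
    rw [List.ofFn_get]
    exact hz
  have hfR' : (fun j => map ι (fR j)) = f := funext hfR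
  have hxR' : (fun j => (xR j).map ι) = x := funext hxR
  have hmapinj : Function.Injective (map ι : MvPolynomial ν R → MvPolynomial ν ℂ) :=
    MvPolynomial.map_injective ι hι
  have hmapinj' : Function.Injective (map ι : MvPolynomial (ν ⊕ Fin m) R → _) :=
    MvPolynomial.map_injective ι hι
  have hpinj : Function.Injective (Polynomial.map ι) := Polynomial.map_injective ι hι
  -- identities over `R`
  have hW : ∀ (i : Fin 3) (w : List (Fin m)),
      map ι (KLr.adW fR w (WExp.ev (ER i)) 1) = KLr.adW f w (WExp.ev (EE i)) 1 := by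
    intro i w
    have h1 := KLr.Rel_adW ι (KLr.Rel_ev ι (ER i)) fR w 1
    rw [map_one, hfR', hER] at h1
    exact h1.symm
  have hWpoly : ∀ (i : Fin 3) (w : List (Fin m)), ∃ q : MvPolynomial (Fin m) R,
      KLr.adW fR w (WExp.ev (ER i)) 1 = aeval fR q := by
    intro i w
    by_cases hw : w.length ≤ N₀
    · obtain ⟨q, hq⟩ := hGR i w hw
      refine ⟨q, hmapinj ?_⟩
      rw [hW, KLr.map_aeval', hfR', hq, hG]
    · refine ⟨0, hmapinj ?_⟩
      rw [hW, map_zero, map_zero, hEE, KLr.adW_eq_zero (hQQ i) f w (by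
        have : N ≤ N₀ := by
          show N ≤ N + n + KLr.len E₀ + KLr.len E₁ + KLr.len E₂
          omega
        omega)]
      rfl
  have hW0 : ∀ w : List (Fin m), n < w.length → KLr.adW fR w (WExp.ev (ER 0)) 1 = 0 := by
    intro w hw
    apply hmapinj
    rw [hW, map_zero, hEE]
    exact KLr.adW_one_eq_zero hn hPQ fA w (by omega)
  -- the difference
  set bR : MvPolynomial ν R := aeval fR BR with hbR
  set bR' : MvPolynomial ν R := aeval fR BR' with hbR'
  have hbι : map ι bR = b := by rw [hbR, KLr.map_aeval', hfR', hBR, hB]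
  have hbι' : map ι bR' = b' := by rw [hbR', KLr.map_aeval', hfR', hBR', hB']
  let ED : WExp ν R := KLr.dE (ER 0) (ER 1) (ER 2) bR bR'
  have hWD : ∀ w : List (Fin m), KLr.adW fR w (WExp.ev ED) 1 = 0 := by
    intro w
    apply hmapinj
    have h1 := KLr.Rel_adW ι (KLr.Rel_ev ι ED) fR w 1
    rw [map_one, hfR'] at h1
    rw [← h1, map_zero]
    have h2 : ∀ a : A, WExp.ev (WExp.bc ι ED) a =
        (((0 : Module.End ℂ A) a : A) : MvPolynomial ν ℂ) := by
      intro a
      have e0 : WExp.bc ι (ER 0) = E₀ := hER 0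
      have e1 : WExp.bc ι (ER 1) = E₁ := hER 1
      have e2 : WExp.bc ι (ER 2) = E₂ := hER 2
      simp only [ED, KLr.dE, WExp.bc, WExp.ev, LinearMap.add_apply, Module.End.mul_apply,
        LinearMap.mulLeft_apply, map_neg, hbι, hbι', e0, e1, e2, hE₀, hE₁, hE₂, hPQ, hPQ₁, hPQ₂,
        LinearMap.zero_apply, hP, Subalgebra.coe_add, Subalgebra.coe_mul, Subalgebra.coe_zero]
      ring
    exact KLr.adW_one_eq_zero (n := 0) (P := 0) rfl h2 fA w (Nat.zero_le _)
  -- the universal symbol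
  have huS : uS fR (ER 0) 1 n = KLr.uF fR FR := by
    apply hmapinj'
    rw [map_uS, KLr.map_uF, hfR', hER, hFR]
    exact KLr.uS_eq_uF hPQ fA E₀ hE₀ F hF
  -- the arc
  have hηRR : ∀ i, Polynomial.X ^ r * ηR i = ∑ j, cR j * aeval xR (pderiv i (fR j)) := by
    intro i
    apply hpinj
    rw [Polynomial.map_mul, Polynomial.map_pow, Polynomial.map_X, hηR, hη, Polynomial.map_sum]
    refine Finset.sum_congr rfl fun j _ => ?_
    rw [Polynomial.map_mul, hcR, KLr.pmap_aeval, hxR', ← MvPolynomial.pderiv_map, hfR]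
  have hx0 : (fun j => ι ((xR j).eval 0)) = fun j => (x j).eval 0 := by
    funext j
    rw [← hxR j, KLr.peval_map]
  have hη0 : (fun j => ι ((ηR j).eval 0)) = fun j => (η j).eval 0 := by
    funext j
    rw [← hηR j, KLr.peval_map]
  have hbR0 : eval (fun j => (xR j).eval 0) bR = 0 := by
    apply hι
    rw [KLr.hom_eval, hbι, map_zero, hx0, hb]
  have hbR0' : eval (fun j => (xR j).eval 0) bR' = 0 := by
    apply hι
    rw [KLr.hom_eval, hbι', map_zero, hx0, hb']
  set z : R := eval (Sum.elim (fun i => (xR i).eval 0) fun i => (ηR i).eval 0) FR with hz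
  have hzι : ι z = eval (Sum.elim (fun i => (x i).eval 0) fun i => (η i).eval 0) F := by
    rw [hz, KLr.hom_eval, hFR, ← hx0, ← hη0]
    congr 2
    funext i
    rcases i with i | i <;> rfl
  have hz0 : (N₀.factorial : R) * z ≠ 0 := by
    intro h0
    have h1 := congrArg ι h0
    rw [map_mul, map_natCast, map_zero, hzι] at h1
    rcases mul_eq_zero.1 h1 with h2 | h2
    · exact absurd h2 (by exact_mod_cast Nat.factorial_ne_zero N₀)
    · exact hcon h2
  obtain ⟨p, hp, k, hk, hkp, φ, hφ⟩ := exists_reduction R _ hz0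
  have : Fact p.Prime := ⟨hp⟩
  have hNp : N₀ < p := by
    by_contra hle
    push Not at hle
    apply hφ
    rw [map_mul, map_natCast, (CharP.cast_eq_zero_iff k p _).2 (hp.dvd_factorial.2 hle), zero_mul]
  have hlenR : ∀ i, KLr.len (ER i) < p := by
    intro i
    have h1 := hlen i
    rw [← hER i, KLr.len_bc] at h1
    omega
  have hnp : n < p := by
    have : n ≤ N₀ := by
      show n ≤ N + n + KLr.len E₀ + KLr.len E₁ + KLr.len E₂
      omega
    omega
  have hkp' : CharP (AlgebraicClosure k) p := inferInstance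
  have hfin := KLr.kl_p (k := AlgebraicClosure k) p ((algebraMap k (AlgebraicClosure k)).comp φ) fR
    (ER 0) (ER 1) (ER 2) n hnp (hlenR 0) (hlenR 1) (hlenR 2)
    (by
      intro E' hE' w
      simp only [List.mem_cons, List.not_mem_nil, or_false] at hE'
      rcases hE' with rfl | rfl | rfl
      · exact hWpoly 0 w
      · exact hWpoly 1 w
      · exact hWpoly 2 w)
    hW0 BR BR' hWD FR huS xR ηR cR r hηRR hbR0 hbR0'
  apply hφ
  rw [RingHom.comp_apply, map_eq_zero] at hfin
  rw [map_mul, hfin, mul_zero]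

end H50.Z
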