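import Pool.Agent.H50.DO.Expr

/-!
Calculus of commutators over an arbitrary base ring, used for the reduction modulo `p`.
-/

open MvPolynomial H50.DO

set_option linter.unusedSectionVars false

namespace H50.Z.KLr

section Any

variable {ν : Type} {R : Type} [CommRing R]

/-- commutator with a multiplication -/
noncomputable def adR (f : MvPolynomial ν R) (P : Module.End R (MvPolynomial ν R)) :
    Module.End R (MvPolynomial ν R) :=
  P * LinearMap.mulLeft R f - LinearMap.mulLeft R f * P

lemma adR_apply (f : MvPolynomial ν R) (P : Module.End R (MvPolynomial ν R))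
    (a : MvPolynomial ν R) : adR f P a = P (f * a) - f * P a := rfl

lemma adR_add (f : MvPolynomial ν R) (P Q : Module.End R (MvPolynomial ν R)) :
    adR f (P + Q) = adR f P + adR f Q := by
  refine LinearMap.ext fun a => ?_; simp only [adR_apply, LinearMap.add_apply]; ring

lemma adR_zero (f : MvPolynomial ν R) : adR f (0 : Module.End R (MvPolynomial ν R)) = 0 := by
  refine LinearMap.ext fun a => ?_; simp only [adR_apply, LinearMap.zero_apply]; ring

lemma adR_smul (f : MvPolynomial ν R) (c : R) (P : Module.End R (MvPolynomial ν R)) :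
    adR f (c • P) = c • adR f P := by
  refine LinearMap.ext fun a => ?_
  simp only [adR_apply, LinearMap.smul_apply, smul_eq_C_mul]
  ring

lemma adR_add_left (f g : MvPolynomial ν R) (P : Module.End R (MvPolynomial ν R)) :
    adR (f + g) P = adR f P + adR g P := by
  refine LinearMap.ext fun a => ?_; simp only [adR_apply, LinearMap.add_apply, add_mul, map_add]; ring

lemma adR_zero_left (P : Module.End R (MvPolynomial ν R)) : adR 0 P = 0 := by
  refine LinearMap.ext fun a => ?_; simp only [adR_apply, LinearMap.zero_apply, zero_mul, map_zero, sub_zero]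

lemma adR_C_mul_left (c : R) (f : MvPolynomial ν R) (P : Module.End R (MvPolynomial ν R)) :
    adR (C c * f) P = c • adR f P := by
  refine LinearMap.ext fun a => ?_
  simp only [adR_apply, LinearMap.smul_apply]
  rw [mul_assoc, ← smul_eq_C_mul, ← smul_eq_C_mul, map_smul, smul_mul_assoc, smul_sub]

lemma adR_sum_left {ι : Type} (s : Finset ι) (c : ι → R) (f : ι → MvPolynomial ν R)
    (P : Module.End R (MvPolynomial ν R)) :
    adR (∑ i ∈ s, C (c i) * f i) P = ∑ i ∈ s, c i • adR (f i) P := by
  classical
  induction s using Finset.induction_on with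
  | empty => rw [Finset.sum_empty, Finset.sum_empty, adR_zero_left]
  | insert i s hi ih => rw [Finset.sum_insert hi, Finset.sum_insert hi, adR_add_left, ih,
      adR_C_mul_left]

/-- iterated commutators -/
noncomputable def adIR (f : MvPolynomial ν R) : ℕ → Module.End R (MvPolynomial ν R) →
    Module.End R (MvPolynomial ν R)
  | 0, P => P
  | n + 1, P => adR f (adIR f n P)

lemma adIR_succ' (f : MvPolynomial ν R) (n : ℕ) (P : Module.End R (MvPolynomial ν R)) :
    adIR f n (adR f P) = adIR f (n + 1) P := by
  induction n with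
  | zero => rfl
  | succ n ih => rw [adIR, ih]; rfl

/-- the value `P (f^l a)` -/
lemma apply_pow_mul (f : MvPolynomial ν R) (P : Module.End R (MvPolynomial ν R))
    (a : MvPolynomial ν R) (l : ℕ) :
    P (f ^ l * a) = ∑ i ∈ Finset.range (l + 1),
      (l.choose i : MvPolynomial ν R) * (f ^ (l - i) * adIR f i P a) := by
  induction l generalizing P with
  | zero => simp [adIR]
  | succ l ih =>
    have h1 : P (f ^ (l + 1) * a) = adR f P (f ^ l * a) + f * P (f ^ l * a) := by
      rw [adR_apply, pow_succ', mul_assoc]; ring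
    rw [h1, ih, ih, Finset.mul_sum, Finset.sum_range_succ' (n := l + 1)]
    have h2 : ∑ i ∈ Finset.range (l + 1),
          f * ((l.choose i : MvPolynomial ν R) * (f ^ (l - i) * adIR f i P a)) =
        ∑ i ∈ Finset.range (l + 1),
          (l.choose (i + 1) : MvPolynomial ν R) * (f ^ (l + 1 - (i + 1)) * adIR f (i + 1) P a) +
        ((l.choose 0 : MvPolynomial ν R) * (f ^ (l + 1 - 0) * adIR f 0 P a)) := by
      rw [← Finset.sum_range_succ'
        (fun i => (l.choose i : MvPolynomial ν R) * (f ^ (l + 1 - i) * adIR f i P a)) (l + 1)]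
      rw [Finset.sum_range_succ _ (l + 1), Nat.choose_succ_self]
      simp only [Nat.cast_zero, zero_mul, add_zero]
      apply Finset.sum_congr rfl
      intro i hi
      rw [Finset.mem_range] at hi
      rw [show l + 1 - i = (l - i) + 1 by omega, pow_succ]
      ring
    rw [h2, ← add_assoc, ← Finset.sum_add_distrib]
    congr 1
    · apply Finset.sum_congr rfl
      intro i _
      rw [Nat.choose_succ_succ', Nat.cast_add, adIR_succ']
      rw [show l + 1 - (i + 1) = l - i by omega]
      ring
    · simp

/-- the coefficients of `e^{-cf} E e^{cf}` are the divided iterated commutators -/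
lemma evT_sgl (f : MvPolynomial ν R) (E : WExp ν R) (a : MvPolynomial ν R) (l : ℕ) :
    (l.factorial : MvPolynomial ν R) * WExp.evT f E (sgl a) l = adIR f l (WExp.ev E) a := by
  induction l using Nat.strong_induction_on with
  | _ l ih =>
    have h1 := WExp.Y_evT f E (sgl a) l
    rw [Y_sgl, apply_pow_mul] at h1
    unfold Y at h1
    rw [Finset.sum_range_succ, Finset.sum_range_succ] at h1
    have h2 : ∀ i ∈ Finset.range l, (l.descFactorial i : MvPolynomial ν R) *
        (f ^ (l - i) * WExp.evT f E (sgl a) i) =
        (l.choose i : MvPolynomial ν R) * (f ^ (l - i) * adIR f i (WExp.ev E) a) := by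
      intro i hi
      rw [← ih i (Finset.mem_range.1 hi), Nat.descFactorial_eq_factorial_mul_choose, Nat.cast_mul]
      ring
    rw [Finset.sum_congr rfl h2] at h1
    have h3 := add_left_cancel h1
    rw [Nat.descFactorial_self, Nat.sub_self, pow_zero, one_mul, Nat.choose_self, Nat.cast_one,
      one_mul, one_mul] at h3
    exact h3

/-- length of an expression -/
def len : WExp ν R → ℕ
  | .mul _ => 0
  | .d _ => 1
  | .add a b => max (len a) (len b)
  | .comp a b => len a + len b

lemma evT_supp (f : MvPolynomial ν R) (E : WExp ν R) (h : ℕ → MvPolynomial ν R) (s : ℕ)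
    (hs : ∀ l, s < l → h l = 0) (l : ℕ) (hl : s + len E < l) : WExp.evT f E h l = 0 := by
  induction E generalizing h s l with
  | mul q =>
    simp only [WExp.evT, WExp.mulSeq, LinearMap.coe_mk, AddHom.coe_mk]
    rw [hs l (by simp only [len] at hl; omega), mul_zero]
  | d i =>
    simp only [len] at hl
    obtain ⟨l, rfl⟩ : ∃ l', l = l' + 1 := ⟨l - 1, by omega⟩
    simp only [WExp.evT, T_succ]
    rw [hs (l + 1) (by omega), hs l (by omega), map_zero, mul_zero, add_zero]
  | add a b iha ihb =>
    simp only [len] at hl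
    simp only [WExp.evT, LinearMap.add_apply, Pi.add_apply]
    rw [iha h s hs l (by omega), ihb h s hs l (by omega), add_zero]
  | comp a b iha ihb =>
    simp only [len] at hl
    simp only [WExp.evT, Module.End.mul_apply]
    exact iha _ (s + len b) (fun l' hl' => ihb h s hs l' hl') l (by omega)

lemma evT_sgl_supp (f : MvPolynomial ν R) (E : WExp ν R) (a : MvPolynomial ν R) (l : ℕ)
    (hl : len E < l) : WExp.evT f E (sgl a) l = 0 := by
  apply evT_supp f E (sgl a) 0 _ l (by omega)
  intro l' hl'
  simp only [sgl]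
  rw [if_neg (by omega)]

/-- commutators along a word -/
noncomputable def adW {μ : Type} (f : μ → MvPolynomial ν R) (w : List μ)
    (P : Module.End R (MvPolynomial ν R)) : Module.End R (MvPolynomial ν R) :=
  w.foldr (fun j Q => adR (f j) Q) P

lemma adW_nil {μ : Type} (f : μ → MvPolynomial ν R) (P : Module.End R (MvPolynomial ν R)) :
    adW f [] P = P := rfl

lemma adW_cons {μ : Type} (f : μ → MvPolynomial ν R) (j : μ) (w : List μ)
    (P : Module.End R (MvPolynomial ν R)) : adW f (j :: w) P = adR (f j) (adW f w P) := rfl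

/-- induction over the products of the generators -/
lemma adjoin_span_induction {μ : Type} {k : Type} [CommRing k] (f : μ → MvPolynomial ν k)
    (M : Submodule k (MvPolynomial ν k)) (h1 : (1 : MvPolynomial ν k) ∈ M)
    (hmul : ∀ j, ∀ a ∈ M, f j * a ∈ M) :
    ∀ a ∈ Algebra.adjoin k (Set.range f), a ∈ M := by
  intro a ha
  have h2 : a ∈ Subalgebra.toSubmodule (Algebra.adjoin k (Set.range f)) := ha
  rw [Algebra.adjoin_eq_span] at h2
  refine Submodule.span_le.2 ?_ h2
  intro y hy
  change y ∈ Submonoid.closure (Set.range f) at hy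
  induction hy using Submonoid.closure_induction_left with
  | one => exact h1
  | mul_left x hx y _ ih =>
    obtain ⟨j, rfl⟩ := hx
    exact hmul j y ih

/-- values of the iterated commutators at the elements of the subalgebra are determined by the
values at `1` -/
lemma adW_mem {μ : Type} (f : μ → MvPolynomial ν R) (P : Module.End R (MvPolynomial ν R))
    (V : Submodule R (MvPolynomial ν R)) (hV : ∀ j, ∀ a ∈ V, f j * a ∈ V) (s : ℕ)
    (h : ∀ w : List μ, s ≤ w.length → adW f w P 1 ∈ V) :
    ∀ a ∈ Algebra.adjoin R (Set.range f), ∀ w : List μ, s ≤ w.length → adW f w P a ∈ V := by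
  let M : Submodule R (MvPolynomial ν R) :=
    { carrier := {a | ∀ w : List μ, s ≤ w.length → adW f w P a ∈ V}
      add_mem' := by
        intro a b ha hb w hw
        rw [map_add]
        exact add_mem (ha w hw) (hb w hw)
      zero_mem' := by
        intro w _
        rw [map_zero]
        exact zero_mem _
      smul_mem' := by
        intro c a ha w hw
        rw [map_smul]
        exact V.smul_mem c (ha w hw) }
  intro a ha
  have : a ∈ M := by
    refine adjoin_span_induction f M h ?_ a ha
    intro j a ha w hw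
    have h1 : adW f w P (f j * a) = adW f (j :: w) P a + f j * adW f w P a := by
      rw [adW_cons, adR_apply]; ring
    rw [h1]
    exact add_mem (ha (j :: w) (by simp only [List.length_cons]; omega)) (hV j _ (ha w hw))
  exact this

/-- the span of the commutators along words of length `l` -/
noncomputable def spW {μ : Type} (f : μ → MvPolynomial ν R) (P : Module.End R (MvPolynomial ν R))
    (l : ℕ) : Submodule R (Module.End R (MvPolynomial ν R)) :=
  Submodule.span R {T | ∃ w : List μ, w.length = l ∧ T = adW f w P}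

lemma adR_mem_spW {μ : Type} (f : μ → MvPolynomial ν R) (P : Module.End R (MvPolynomial ν R))
    (l : ℕ) (j : μ) {T : Module.End R (MvPolynomial ν R)} (hT : T ∈ spW f P l) :
    adR (f j) T ∈ spW f P (l + 1) := by
  unfold spW at hT
  induction hT using Submodule.span_induction with
  | mem x hx =>
    obtain ⟨w, hw, rfl⟩ := hx
    exact Submodule.subset_span ⟨j :: w, by simp [hw], rfl⟩
  | zero => rw [adR_zero]; exact zero_mem _
  | add x y _ _ hx hy => rw [adR_add]; exact add_mem hx hy
  | smul c x _ hx => rw [adR_smul]; exact Submodule.smul_mem _ _ hx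

lemma adIR_mem_spW {μ : Type} [Fintype μ] (f : μ → MvPolynomial ν R) (c : μ → R)
    (P : Module.End R (MvPolynomial ν R)) (l : ℕ) :
    adIR (∑ j, C (c j) * f j) l P ∈ spW f P l := by
  induction l with
  | zero => exact Submodule.subset_span ⟨[], rfl, rfl⟩
  | succ l ih =>
    rw [adIR, adR_sum_left]
    exact Submodule.sum_mem _ fun j _ => Submodule.smul_mem _ _ (adR_mem_spW f P l j ih)

lemma spW_apply_mem {μ : Type} (f : μ → MvPolynomial ν R) (P : Module.End R (MvPolynomial ν R))
    (V : Submodule R (MvPolynomial ν R)) (l : ℕ) (a : MvPolynomial ν R)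
    (h : ∀ w : List μ, w.length = l → adW f w P a ∈ V)
    {T : Module.End R (MvPolynomial ν R)} (hT : T ∈ spW f P l) : T a ∈ V := by
  unfold spW at hT
  induction hT using Submodule.span_induction with
  | mem x hx =>
    obtain ⟨w, hw, rfl⟩ := hx
    exact h w hw
  | zero => rw [LinearMap.zero_apply]; exact zero_mem _
  | add x y _ _ hx hy => rw [LinearMap.add_apply]; exact add_mem hx hy
  | smul c x _ hx => rw [LinearMap.smul_apply]; exact Submodule.smul_mem _ _ hx

end Any

section Field

variable {ν : Type} {K : Type} [Field K] {μ : Type} [Fintype μ]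

lemma fac_ne (p : ℕ) [hp : Fact p.Prime] [CharP K p] {l : ℕ} (hl : l < p) :
    ((l.factorial : ℕ) : K) ≠ 0 := by
  rw [Ne, CharP.cast_eq_zero_iff K p, hp.out.dvd_factorial]
  omega

/-- if the commutators along the words of length `≥ s` map `1` to `V`, then so do the coefficients of
index `≥ s` of the conjugated operator, on the whole subalgebra -/
lemma evT_mem (p : ℕ) [hp : Fact p.Prime] [CharP K p] (f : μ → MvPolynomial ν K) (c : μ → K)
    (E : WExp ν K) (hE : len E < p) (V : Submodule K (MvPolynomial ν K))
    (hV : ∀ j, ∀ a ∈ V, f j * a ∈ V) (s : ℕ)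
    (h : ∀ w : List μ, s ≤ w.length → adW f w (WExp.ev E) 1 ∈ V) (a : MvPolynomial ν K)
    (ha : a ∈ Algebra.adjoin K (Set.range f)) (l : ℕ) (hl : s ≤ l) :
    WExp.evT (∑ j, C (c j) * f j) E (sgl a) l ∈ V := by
  by_cases hlp : l < p
  · have h1 := evT_sgl (∑ j, C (c j) * f j) E a l
    have h2 : adIR (∑ j, C (c j) * f j) l (WExp.ev E) a ∈ V :=
      spW_apply_mem f _ V l a (fun w hw => adW_mem f _ V hV s h a ha w (by omega))
        (adIR_mem_spW f c _ l)
    rw [← h1, show ((l.factorial : ℕ) : MvPolynomial ν K) = C ((l.factorial : ℕ) : K) by simp,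
      ← smul_eq_C_mul] at h2
    have h3 := V.smul_mem (((l.factorial : ℕ) : K)⁻¹) h2
    rwa [smul_smul, inv_mul_cancel₀ (fac_ne p hlp), one_smul] at h3
  · rw [evT_sgl_supp _ _ _ _ (by omega)]
    exact zero_mem _

/-- the top coefficient is a multiplication -/
lemma evT_top (p : ℕ) [hp : Fact p.Prime] [CharP K p] (f : μ → MvPolynomial ν K) (c : μ → K)
    (E : WExp ν K) (n : ℕ) (hn : n < p)
    (h : ∀ w : List μ, n < w.length → adW f w (WExp.ev E) 1 = 0) (a : MvPolynomial ν K)
    (ha : a ∈ Algebra.adjoin K (Set.range f)) :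
    WExp.evT (∑ j, C (c j) * f j) E (sgl a) n =
      WExp.evT (∑ j, C (c j) * f j) E (sgl 1) n * a := by
  set T := adIR (∑ j, C (c j) * f j) n (WExp.ev E) with hT
  have hTm : T ∈ spW f (WExp.ev E) n := adIR_mem_spW f c _ n
  have hvan : ∀ a ∈ Algebra.adjoin K (Set.range f), ∀ j, adR (f j) T a = 0 := by
    intro a ha j
    have h1 : adR (f j) T a ∈ (⊥ : Submodule K (MvPolynomial ν K)) := by
      refine spW_apply_mem f _ ⊥ (n + 1) a (fun w hw => ?_) (adR_mem_spW f _ n j hTm)
      refine adW_mem f (WExp.ev E) ⊥ ?_ (n + 1) (fun w hw => ?_) a ha w (by omega)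
      · intro j a ha
        rw [Submodule.mem_bot] at ha ⊢
        rw [ha, mul_zero]
      · rw [Submodule.mem_bot]; exact h w (by omega)
    rwa [Submodule.mem_bot] at h1
  let M : Submodule K (MvPolynomial ν K) :=
    { carrier := {a | a ∈ Algebra.adjoin K (Set.range f) ∧ T a = T 1 * a}
      add_mem' := by
        rintro a b ⟨ha, ha'⟩ ⟨hb, hb'⟩
        exact ⟨add_mem ha hb, by rw [map_add, ha', hb', mul_add]⟩
      zero_mem' := ⟨zero_mem _, by rw [map_zero, mul_zero]⟩
      smul_mem' := by
        rintro r a ⟨ha, ha'⟩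
        exact ⟨Subalgebra.smul_mem _ ha r, by rw [map_smul, ha', mul_smul_comm]⟩ }
  have hM : a ∈ M := by
    refine adjoin_span_induction f M ⟨one_mem _, by rw [mul_one]⟩ ?_ a ha
    rintro j b ⟨hb, hb'⟩
    refine ⟨mul_mem (Algebra.subset_adjoin ⟨j, rfl⟩) hb, ?_⟩
    have h1 := hvan b hb j
    rw [adR_apply, sub_eq_zero] at h1
    rw [h1, hb']
    ring
  have h1 := evT_sgl (∑ j, C (c j) * f j) E a n
  have h2 := evT_sgl (∑ j, C (c j) * f j) E 1 n
  have h3 : T a = T 1 * a := hM.2
  rw [hT, ← h1, ← h2, mul_assoc] at h3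
  refine mul_left_cancel₀ ?_ h3
  rw [show ((n.factorial : ℕ) : MvPolynomial ν K) = C ((n.factorial : ℕ) : K) by simp, Ne,
    MvPolynomial.C_eq_zero]
  exact fac_ne p hn

end Field

section Transfer

variable {ν : Type} {R R' : Type} [CommRing R] [CommRing R'] (φ : R →+* R')

/-- `P'` is the base change of `P` -/
def Rel (P : Module.End R (MvPolynomial ν R)) (P' : Module.End R' (MvPolynomial ν R')) : Prop :=
  ∀ a, P' (map φ a) = map φ (P a)

lemma Rel_ev (E : WExp ν R) : Rel φ (WExp.ev E) (WExp.ev (WExp.bc φ E)) := by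
  induction E with
  | mul q => intro a; simp [WExp.ev, WExp.bc]
  | d i => intro a; simp [WExp.ev, WExp.bc, MvPolynomial.pderiv_map]
  | add a b iha ihb => intro x; simp only [WExp.ev, WExp.bc, LinearMap.add_apply, iha x, ihb x,
      map_add]
  | comp a b iha ihb =>
    intro x
    simp only [WExp.ev, WExp.bc, Module.End.mul_apply]
    rw [ihb x, iha]

lemma Rel_adR {P : Module.End R (MvPolynomial ν R)} {P' : Module.End R' (MvPolynomial ν R')}
    (h : Rel φ P P') (f : MvPolynomial ν R) : Rel φ (adR f P) (adR (map φ f) P') := by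
  intro a
  rw [adR_apply, adR_apply, ← map_mul (map φ) f a, h, h, map_sub, map_mul (map φ) f (P a)]

lemma Rel_adW {μ : Type} {P : Module.End R (MvPolynomial ν R)}
    {P' : Module.End R' (MvPolynomial ν R')}
    (h : Rel φ P P') (f : μ → MvPolynomial ν R) (w : List μ) :
    Rel φ (adW f w P) (adW (fun j => map φ (f j)) w P') := by
  induction w with
  | nil => exact h
  | cons j w ih => exact Rel_adR φ ih (f j)

lemma len_bc (E : WExp ν R) : len (WExp.bc φ E) = len E := by
  induction E with
  | mul q => rfl
  | d i => rfl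
  | add a b iha ihb => simp only [WExp.bc, len, iha, ihb]
  | comp a b iha ihb => simp only [WExp.bc, len, iha, ihb]

lemma bc_bc {R'' : Type} [CommRing R''] (ψ : R' →+* R'') (E : WExp ν R) :
    WExp.bc ψ (WExp.bc φ E) = WExp.bc (ψ.comp φ) E := by
  induction E with
  | mul q => simp only [WExp.bc, MvPolynomial.map_map]
  | d i => rfl
  | add a b iha ihb => simp only [WExp.bc, iha, ihb]
  | comp a b iha ihb => simp only [WExp.bc, iha, ihb]

end Transfer

end H50.Z.KLr
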