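import Pool.Agent.H50.Z.R1b_ReyL

/-!
(M0) Linear reductivity implies the existence of a dense unitary subgroup: definitions.

`Rg` is an algebra of functions on the group `G` (the regular functions); `LR Rg` says that all matrix
representations of `G` with coefficients in `Rg` are completely reducible.
The variables of `ℂ[x_ij, d]` are indexed by `Ix ν = (ν × ν) ⊕ Unit`; the group `GL ν ℂ` acts by
left multiplication (`act (Lm h) f = f ∘ (x ↦ h x)`) and by right multiplication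
(`act (Rm γ) f = f ∘ (x ↦ x γ)`), the variable `d` is multiplied with `det⁻¹`.
-/

open MvPolynomial Kronecker

set_option linter.unusedSectionVars false

namespace H50.Z.Mo

/-- all matrix representations with coefficients in `Rg` are completely reducible -/
def LR {G : Type} [Group G] (Rg : Subalgebra ℂ (G → ℂ)) : Prop :=
  ∀ (r : ℕ) (σ : G →* GL (Fin r) ℂ),
    (∀ i j, (fun g => ((σ g : GL (Fin r) ℂ) : Matrix (Fin r) (Fin r) ℂ) i j) ∈ Rg) →
    ∀ U : Submodule ℂ (Fin r → ℂ),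
      (∀ g, ∀ u ∈ U, ((σ g : GL (Fin r) ℂ) : Matrix (Fin r) (Fin r) ℂ).mulVec u ∈ U) →
      ∃ U' : Submodule ℂ (Fin r → ℂ),
        (∀ g, ∀ u ∈ U', ((σ g : GL (Fin r) ℂ) : Matrix (Fin r) (Fin r) ℂ).mulVec u ∈ U') ∧
        IsCompl U U'

/-- Reynolds operators: `R` is a projection onto the polynomials fixed by all substitutions `m g` -/
structure IsReyn {G σ : Type} [Fintype σ] [DecidableEq σ] (m : G → Matrix σ σ ℂ)
    (R : MvPolynomial σ ℂ →ₗ[ℂ] MvPolynomial σ ℂ) : Prop where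
  inv : ∀ f g, act (m g) (R f) = R f
  id : ∀ f, (∀ g, act (m g) f = f) → R f = f
  mul : ∀ f h, (∀ g, act (m g) f = f) → R (f * h) = f * R h
  comm : ∀ M : Matrix σ σ ℂ, (∀ g, M * m g = m g * M) → ∀ f, R (act M f) = act M (R f)
  hom : ∀ f n, f.IsHomogeneous n → (R f).IsHomogeneous n

/-- the algebra of polynomials fixed by all substitutions `m g` -/
noncomputable def Fx {G σ : Type} [Fintype σ] [DecidableEq σ] (m : G → Matrix σ σ ℂ) :
    Subalgebra ℂ (MvPolynomial σ ℂ) where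
  carrier := {f | ∀ g, act (m g) f = f}
  mul_mem' := by
    intro a b ha hb g
    rw [map_mul, ha g, hb g]
  add_mem' := by
    intro a b ha hb g
    rw [map_add, ha g, hb g]
  algebraMap_mem' := fun r g => (act (m g)).commutes r

lemma mem_Fx {G σ : Type} [Fintype σ] [DecidableEq σ] {m : G → Matrix σ σ ℂ}
    {f : MvPolynomial σ ℂ} : f ∈ Fx m ↔ ∀ g, act (m g) f = f := Iff.rfl

/-- index set of the variables `x_ij`, `d` -/
abbrev Ix (ν : Type) : Type := (ν × ν) ⊕ Unit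

variable {ν : Type} [Fintype ν] [DecidableEq ν]

/-- the substitution `x ↦ h x`, `d ↦ det(h)⁻¹ d` -/
noncomputable def Lm (h : GL ν ℂ) : Matrix (Ix ν) (Ix ν) ℂ :=
  Matrix.fromBlocks ((h : Matrix ν ν ℂ) ⊗ₖ (1 : Matrix ν ν ℂ)) 0 0
    (Matrix.diagonal fun _ => (h : Matrix ν ν ℂ).det⁻¹)

/-- the substitution `x ↦ x γ`, `d ↦ det(γ)⁻¹ d` -/
noncomputable def Rm (γ : GL ν ℂ) : Matrix (Ix ν) (Ix ν) ℂ :=
  Matrix.fromBlocks ((1 : Matrix ν ν ℂ) ⊗ₖ (γ : Matrix ν ν ℂ).transpose) 0 0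
    (Matrix.diagonal fun _ => (γ : Matrix ν ν ℂ).det⁻¹)

/-- the point `(h, det(h)⁻¹)` -/
noncomputable def pt (h : GL ν ℂ) : Ix ν → ℂ :=
  Sum.elim (fun p => (h : Matrix ν ν ℂ) p.1 p.2) fun _ => (h : Matrix ν ν ℂ).det⁻¹

lemma Lm_one : Lm (1 : GL ν ℂ) = 1 := by
  unfold Lm
  rw [Units.val_one, Matrix.one_kronecker_one, Matrix.det_one, inv_one]
  have h1 : (Matrix.diagonal fun _ => (1 : ℂ) : Matrix Unit Unit ℂ) = 1 := Matrix.diagonal_one
  rw [h1, Matrix.fromBlocks_one]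

lemma Rm_one : Rm (1 : GL ν ℂ) = 1 := by
  unfold Rm
  rw [Units.val_one, Matrix.transpose_one, Matrix.one_kronecker_one, Matrix.det_one, inv_one]
  have h1 : (Matrix.diagonal fun _ => (1 : ℂ) : Matrix Unit Unit ℂ) = 1 := Matrix.diagonal_one
  rw [h1, Matrix.fromBlocks_one]

lemma Lm_mul (g h : GL ν ℂ) : Lm (g * h) = Lm g * Lm h := by
  unfold Lm
  rw [Matrix.fromBlocks_multiply]
  simp only [Matrix.mul_zero, Matrix.zero_mul, add_zero, zero_add]
  rw [← Matrix.mul_kronecker_mul, Matrix.one_mul, Matrix.diagonal_mul_diagonal, Units.val_mul,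
    Matrix.det_mul, mul_inv]

lemma Rm_mul (γ δ : GL ν ℂ) : Rm (γ * δ) = Rm δ * Rm γ := by
  unfold Rm
  rw [Matrix.fromBlocks_multiply]
  simp only [Matrix.mul_zero, Matrix.zero_mul, add_zero, zero_add]
  rw [← Matrix.mul_kronecker_mul, Matrix.one_mul, Matrix.diagonal_mul_diagonal, Units.val_mul,
    Matrix.det_mul, mul_inv, Matrix.transpose_mul, mul_comm (γ : Matrix ν ν ℂ).det⁻¹]

lemma Lm_Rm (h γ : GL ν ℂ) : Lm h * Rm γ = Rm γ * Lm h := by
  unfold Lm Rm
  rw [Matrix.fromBlocks_multiply, Matrix.fromBlocks_multiply]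
  simp only [Matrix.mul_zero, Matrix.zero_mul, add_zero, zero_add]
  rw [← Matrix.mul_kronecker_mul, ← Matrix.mul_kronecker_mul, Matrix.diagonal_mul_diagonal,
    Matrix.diagonal_mul_diagonal, Matrix.one_mul, Matrix.mul_one, Matrix.one_mul, Matrix.mul_one,
    mul_comm (h : Matrix ν ν ℂ).det⁻¹]

lemma Lm_mulVec (g h : GL ν ℂ) : (Lm g).mulVec (pt h) = pt (g * h) := by
  funext i
  rcases i with ⟨i, j⟩ | u
  · simp only [Lm, pt, Matrix.mulVec, dotProduct, Fintype.sum_sum_type, Matrix.fromBlocks_apply₁₁,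
      Matrix.fromBlocks_apply₁₂, Sum.elim_inl, Matrix.zero_apply, zero_mul,
      Finset.sum_const_zero, add_zero, Units.val_mul, Matrix.mul_apply, Matrix.kroneckerMap_apply,
      Fintype.sum_prod_type, Matrix.one_apply]
    apply Finset.sum_congr rfl
    intro k _
    simp
  · simp only [Lm, pt, Matrix.mulVec, dotProduct, Fintype.sum_sum_type, Matrix.fromBlocks_apply₂₁,
      Matrix.fromBlocks_apply₂₂, Sum.elim_inl, Sum.elim_inr, Matrix.zero_apply, zero_mul,
      Finset.sum_const_zero, zero_add, Units.val_mul, Matrix.det_mul, mul_inv]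
    simp

lemma Rm_mulVec (γ h : GL ν ℂ) : (Rm γ).mulVec (pt h) = pt (h * γ) := by
  funext i
  rcases i with ⟨i, j⟩ | u
  · simp only [Rm, pt, Matrix.mulVec, dotProduct, Fintype.sum_sum_type, Matrix.fromBlocks_apply₁₁,
      Matrix.fromBlocks_apply₁₂, Sum.elim_inl, Matrix.zero_apply, zero_mul,
      Finset.sum_const_zero, add_zero, Units.val_mul, Matrix.mul_apply, Matrix.kroneckerMap_apply,
      Fintype.sum_prod_type, Matrix.one_apply, Matrix.transpose_apply]
    rw [Finset.sum_eq_single i]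
    · apply Finset.sum_congr rfl
      intro k _
      simp [mul_comm]
    · intro k _ hk
      simp [hk.symm]
    · intro h; exact absurd (Finset.mem_univ i) h
  · simp only [Rm, pt, Matrix.mulVec, dotProduct, Fintype.sum_sum_type, Matrix.fromBlocks_apply₂₁,
      Matrix.fromBlocks_apply₂₂, Sum.elim_inl, Sum.elim_inr, Matrix.zero_apply, zero_mul,
      Finset.sum_const_zero, zero_add, Units.val_mul, Matrix.det_mul, mul_inv]
    simp [mul_comm]

/-- `f(h γ)` -/
lemma eval_act_Rm (γ h : GL ν ℂ) (f : MvPolynomial (Ix ν) ℂ) :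
    eval (pt h) (act (Rm γ) f) = eval (pt (h * γ)) f := by
  rw [eval_act, Rm_mulVec]

/-- `f(g h)` -/
lemma eval_act_Lm (g h : GL ν ℂ) (f : MvPolynomial (Ix ν) ℂ) :
    eval (pt h) (act (Lm g) f) = eval (pt (g * h)) f := by
  rw [eval_act, Lm_mulVec]

/-- the relation `d det x = 1` as a polynomial -/
noncomputable def rel : MvPolynomial (Ix ν) ℂ :=
  (Matrix.of fun i j => (X (Sum.inl (i, j)) : MvPolynomial (Ix ν) ℂ)).det * X (Sum.inr ())

/-- left multiplication by a unitary matrix is unitary -/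
lemma Lm_unitary {u : GL ν ℂ} (hu : (u : Matrix ν ν ℂ) ∈ Matrix.unitaryGroup ν ℂ) :
    Lm u ∈ Matrix.unitaryGroup (Ix ν) ℂ := by
  rw [Matrix.mem_unitaryGroup_iff, Matrix.star_eq_conjTranspose] at hu ⊢
  unfold Lm
  rw [Matrix.fromBlocks_conjTranspose, Matrix.fromBlocks_multiply]
  simp only [Matrix.conjTranspose_zero, Matrix.mul_zero, Matrix.zero_mul, add_zero, zero_add]
  rw [Matrix.conjTranspose_kronecker, ← Matrix.mul_kronecker_mul, hu, Matrix.conjTranspose_one,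
    Matrix.mul_one, Matrix.one_kronecker_one, Matrix.diagonal_conjTranspose,
    Matrix.diagonal_mul_diagonal]
  have h1 : (Matrix.diagonal fun i : Unit => (u : Matrix ν ν ℂ).det⁻¹ *
      (star fun _ : Unit => (u : Matrix ν ν ℂ).det⁻¹) i : Matrix Unit Unit ℂ) = 1 := by
    rw [← Matrix.diagonal_one]
    congr 1
    funext i
    have h2 := congrArg Matrix.det hu
    rw [Matrix.det_mul, Matrix.det_conjTranspose, Matrix.det_one] at h2
    rw [Pi.star_apply, star_inv₀, ← mul_inv, h2, inv_one]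
  rw [h1, Matrix.fromBlocks_one]

/-! ### the diagonal one-parameter groups -/

/-- `diag(exp(z d_i))` -/
noncomputable def dg (d : ν → ℝ) (z : ℂ) : GL ν ℂ where
  val := Matrix.diagonal fun i => Complex.exp (z * d i)
  inv := Matrix.diagonal fun i => Complex.exp (-(z * d i))
  val_inv := by
    rw [Matrix.diagonal_mul_diagonal, ← Matrix.diagonal_one]
    congr 1
    funext i
    rw [← Complex.exp_add, add_neg_cancel, Complex.exp_zero]
  inv_val := by
    rw [Matrix.diagonal_mul_diagonal, ← Matrix.diagonal_one]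
    congr 1
    funext i
    rw [← Complex.exp_add, neg_add_cancel, Complex.exp_zero]

lemma coe_dg (d : ν → ℝ) (z : ℂ) :
    (dg d z : Matrix ν ν ℂ) = Matrix.diagonal fun i => Complex.exp (z * d i) := rfl

/-- `v diag(exp(z d_i)) v⁻¹` -/
noncomputable def Ex (v : GL ν ℂ) (d : ν → ℝ) (z : ℂ) : GL ν ℂ := v * dg d z * v⁻¹

/-- weight of the variables under left multiplication by `dg d z` -/
noncomputable def wt (d : ν → ℝ) : Ix ν → ℝ := Sum.elim (fun p => d p.1) fun _ => -∑ i, d i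

lemma Lm_dg (d : ν → ℝ) (z : ℂ) :
    Lm (dg d z) = Matrix.diagonal fun i => Complex.exp (z * wt d i) := by
  unfold Lm
  rw [coe_dg, Matrix.det_diagonal, ← Matrix.diagonal_one, Matrix.diagonal_kronecker_diagonal,
    ← Complex.exp_sum, ← Complex.exp_neg, Matrix.fromBlocks_diagonal]
  congr 1
  funext i
  rcases i with p | u
  · simp [wt]
  · simp [wt, Finset.mul_sum]

/-! ### the group `Γ` -/

section Gam

variable {G : Type} [Group G] (ρ : G →* GL ν ℂ)

/-- the substitutions `x ↦ x ρ(g)` -/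
noncomputable def mr : G → Matrix (Ix ν) (Ix ν) ℂ := fun g => Rm (ρ g)

/-- the group of all `γ` with `f(hγ) = f(h)` for all `f` fixed by `x ↦ x ρ(g)` -/
noncomputable def Gam : Subgroup (GL ν ℂ) where
  carrier := {γ | ∀ f ∈ Fx (mr ρ), ∀ h : GL ν ℂ, eval (pt (h * γ)) f = eval (pt h) f}
  mul_mem' := by
    intro a b ha hb f hf h
    rw [← mul_assoc, hb f hf, ha f hf]
  one_mem' := by
    intro f _ h
    rw [mul_one]
  inv_mem' := by
    intro a ha f hf h
    have h1 := ha f hf (h * a⁻¹)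
    rw [inv_mul_cancel_right] at h1
    exact h1.symm

lemma rho_mem_Gam (g : G) : ρ g ∈ Gam ρ := by
  intro f hf h
  rw [← eval_act_Rm]
  have h1 : act (Rm (ρ g)) f = f := hf g
  rw [h1]

lemma act_Lm_mem {f : MvPolynomial (Ix ν) ℂ} (hf : f ∈ Fx (mr ρ)) (h : GL ν ℂ) :
    act (Lm h) f ∈ Fx (mr ρ) := by
  intro g
  have h1 : act (mr ρ g) (act (Lm h) f) = act (Lm h) (act (mr ρ g) f) := by
    rw [← act_mul, ← act_mul]
    change act (Lm h * Rm (ρ g)) f = act (Rm (ρ g) * Lm h) f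
    rw [Lm_Rm]
  rw [h1, hf g]

/-- the elements of `Γ` which are unitary after conjugation by `h₀` -/
noncomputable def Kgr (h₀ : GL ν ℂ) : Subgroup (GL ν ℂ) where
  carrier := {κ | κ ∈ Gam ρ ∧
    ((h₀ * κ * h₀⁻¹ : GL ν ℂ) : Matrix ν ν ℂ) ∈ Matrix.unitaryGroup ν ℂ}
  mul_mem' := by
    rintro a b ⟨ha, ha'⟩ ⟨hb, hb'⟩
    refine ⟨(Gam ρ).mul_mem ha hb, ?_⟩
    have h1 : h₀ * (a * b) * h₀⁻¹ = (h₀ * a * h₀⁻¹) * (h₀ * b * h₀⁻¹) := by group
    rw [h1, Units.val_mul]
    exact (Matrix.unitaryGroup ν ℂ).mul_mem ha' hb'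
  one_mem' := by
    refine ⟨(Gam ρ).one_mem, ?_⟩
    rw [mul_one, mul_inv_cancel, Units.val_one]
    exact (Matrix.unitaryGroup ν ℂ).one_mem
  inv_mem' := by
    rintro a ⟨ha, ha'⟩
    refine ⟨(Gam ρ).inv_mem ha, ?_⟩
    have h1 : h₀ * a⁻¹ * h₀⁻¹ = (h₀ * a * h₀⁻¹)⁻¹ := by group
    rw [h1]
    have h2 : (((h₀ * a * h₀⁻¹)⁻¹ : GL ν ℂ) : Matrix ν ν ℂ) =
        star ((h₀ * a * h₀⁻¹ : GL ν ℂ) : Matrix ν ν ℂ) := by
      have h3 := Matrix.mem_unitaryGroup_iff'.1 ha'
      calc (((h₀ * a * h₀⁻¹)⁻¹ : GL ν ℂ) : Matrix ν ν ℂ) =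
          (star ((h₀ * a * h₀⁻¹ : GL ν ℂ) : Matrix ν ν ℂ) *
            ((h₀ * a * h₀⁻¹ : GL ν ℂ) : Matrix ν ν ℂ)) *
            (((h₀ * a * h₀⁻¹)⁻¹ : GL ν ℂ) : Matrix ν ν ℂ) := by rw [h3, Matrix.one_mul]
        _ = _ := by rw [Matrix.mul_assoc, Units.mul_inv, Matrix.mul_one]
    rw [h2]
    exact Unitary.star_mem ha'

end Gam

end H50.Z.Mo
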