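import Mathlib

/-!
(M1) In a completely reducible representation `W` one has `W = W^G ⊕ span {g w - w}`.

Proof. Let `T = span {g w - w}` (stable: `h (g w - w) = (hg) w - h w = ((hg) w - w) - (h w - w)`), and
`F = W^G` (stable). (1) `F ⊓ T = ⊥`: let `C` be a stable complement of `F`. For `w = f + c`:
`g w - w = g c - c ∈ C`, so `T ≤ C`. (2) `F ⊔ T = ⊤`: let `D` be a stable complement of `T`; for
`d ∈ D`, `g d - d ∈ T ⊓ D = ⊥`, so `D ≤ F`.
-/

set_option linter.unusedSectionVars false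

namespace H50.Z.Mo

/-- the fixed vectors -/
def fixS {G W : Type} [AddCommGroup W] [Module ℂ W] (τ : G → W →ₗ[ℂ] W) : Submodule ℂ W where
  carrier := {w | ∀ g, τ g w = w}
  add_mem' := by
    intro a b ha hb g
    rw [map_add, ha g, hb g]
  zero_mem' := fun g => map_zero _
  smul_mem' := by
    intro c a ha g
    rw [map_smul, ha g]

/-- the span of all `g w - w` -/
def movS {G W : Type} [AddCommGroup W] [Module ℂ W] (τ : G → W →ₗ[ℂ] W) : Submodule ℂ W :=
  Submodule.span ℂ {w | ∃ g w', w = τ g w' - w'}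

theorem isCompl_fixS {G W : Type} [Group G] [AddCommGroup W] [Module ℂ W] (τ : G → W →ₗ[ℂ] W)
    (hmul : ∀ g g', τ (g * g') = τ g ∘ₗ τ g')
    (hCR : ∀ U : Submodule ℂ W, (∀ g, ∀ u ∈ U, τ g u ∈ U) →
      ∃ U' : Submodule ℂ W, (∀ g, ∀ u ∈ U', τ g u ∈ U') ∧ IsCompl U U') :
    IsCompl (fixS τ) (movS τ) := by
  have hF : ∀ g, ∀ u ∈ fixS τ, τ g u ∈ fixS τ := by
    intro g u hu
    rw [hu g]
    exact hu
  have hT : ∀ g, ∀ u ∈ movS τ, τ g u ∈ movS τ := by
    intro g u hu
    have h1 : movS τ ≤ (movS τ).comap (τ g) := by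
      refine Submodule.span_le.2 ?_
      rintro _ ⟨g', w', rfl⟩
      change τ g (τ g' w' - w') ∈ movS τ
      have h2 : τ g (τ g' w' - w') = (τ (g * g') w' - w') - (τ g w' - w') := by
        rw [map_sub, hmul, LinearMap.comp_apply]
        abel
      rw [h2]
      exact Submodule.sub_mem _ (Submodule.subset_span ⟨_, _, rfl⟩)
        (Submodule.subset_span ⟨_, _, rfl⟩)
    exact h1 hu
  constructor
  · obtain ⟨C, hC, hFC⟩ := hCR _ hF
    have hTC : movS τ ≤ C := by
      refine Submodule.span_le.2 ?_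
      rintro _ ⟨g, w, rfl⟩
      have h1 : w ∈ fixS τ ⊔ C := by rw [hFC.sup_eq_top]; trivial
      obtain ⟨f, hf, c, hc, rfl⟩ := Submodule.mem_sup.1 h1
      have h2 : τ g (f + c) - (f + c) = τ g c - c := by
        rw [map_add, hf g]
        abel
      rw [h2]
      exact C.sub_mem (hC g c hc) hc
    exact hFC.disjoint.mono_right hTC
  · obtain ⟨D, hD, hTD⟩ := hCR _ hT
    have hDF : D ≤ fixS τ := by
      intro d hd g
      have h1 : τ g d - d ∈ movS τ ⊓ D :=
        ⟨Submodule.subset_span ⟨_, _, rfl⟩, D.sub_mem (hD g d hd) hd⟩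
      rw [hTD.inf_eq_bot, Submodule.mem_bot, sub_eq_zero] at h1
      exact h1
    rw [codisjoint_iff, eq_top_iff, ← hTD.sup_eq_top, sup_comm]
    exact sup_le_sup_right hDF _

end H50.Z.Mo
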