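import Pool.Agent.H50.Z.M0_Defs

/-!
(M2) Regular matrix coefficients: from `LR Rg` to complete reducibility of finite-dimensional
representations; the coefficients of `g ↦ act (m g) f`.
-/

open MvPolynomial

set_option linter.unusedSectionVars false

namespace H50.Z.Mo

/-- finite-dimensional representations with regular coefficients are completely reducible -/
theorem cr_of_LR {G : Type} [Group G] {Rg : Subalgebra ℂ (G → ℂ)} (hLR : LR Rg) {W : Type}
    [AddCommGroup W] [Module ℂ W] [FiniteDimensional ℂ W] (τ : G → W →ₗ[ℂ] W)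
    (h1 : τ 1 = LinearMap.id) (hmul : ∀ g g', τ (g * g') = τ g ∘ₗ τ g')
    (hreg : ∀ (w : W) (l : W →ₗ[ℂ] ℂ), (fun g => l (τ g w)) ∈ Rg) :
    ∀ U : Submodule ℂ W, (∀ g, ∀ u ∈ U, τ g u ∈ U) →
      ∃ U' : Submodule ℂ W, (∀ g, ∀ u ∈ U', τ g u ∈ U') ∧ IsCompl U U' := by
  intro U hU
  let r := Module.finrank ℂ W
  let b : Module.Basis (Fin r) ℂ W := Module.finBasis ℂ W
  let mt : G → Matrix (Fin r) (Fin r) ℂ := fun g => LinearMap.toMatrix b b (τ g)
  have hmt1 : mt 1 = 1 := by
    change LinearMap.toMatrix b b (τ 1) = 1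
    rw [h1, LinearMap.toMatrix_id]
  have hmtm : ∀ g g', mt (g * g') = mt g * mt g' := by
    intro g g'
    change LinearMap.toMatrix b b (τ (g * g')) = _
    rw [hmul, LinearMap.toMatrix_comp b b b]
  let σ : G →* GL (Fin r) ℂ :=
    { toFun := fun g => ⟨mt g, mt g⁻¹, by rw [← hmtm, mul_inv_cancel, hmt1],
        by rw [← hmtm, inv_mul_cancel, hmt1]⟩
      map_one' := Units.ext hmt1
      map_mul' := fun g g' => Units.ext (hmtm g g') }
  have hσ : ∀ g, ((σ g : GL (Fin r) ℂ) : Matrix (Fin r) (Fin r) ℂ) = mt g := fun _ => rfl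
  let e : W ≃ₗ[ℂ] (Fin r → ℂ) := b.equivFun
  have he : ∀ g w, e (τ g w) = (mt g).mulVec (e w) := by
    intro g w
    change b.equivFun (τ g w) = (LinearMap.toMatrix b b (τ g)).mulVec (b.equivFun w)
    have := LinearMap.toMatrix_mulVec_repr b b (τ g) w
    rw [Module.Basis.equivFun_apply, Module.Basis.equivFun_apply, this]
  obtain ⟨U', hU', hc⟩ := hLR r σ (by
    intro i j
    have h3 : (fun g => ((σ g : GL (Fin r) ℂ) : Matrix (Fin r) (Fin r) ℂ) i j) =
        fun g => (b.coord i) (τ g (b j)) := by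
      funext g
      rw [hσ]
      change LinearMap.toMatrix b b (τ g) i j = _
      rw [LinearMap.toMatrix_apply, Module.Basis.coord_apply]
    rw [h3]
    exact hreg _ _) (U.map (e : W →ₗ[ℂ] (Fin r → ℂ))) (by
    rintro g _ ⟨u, hu, rfl⟩
    rw [hσ]
    refine ⟨τ g u, hU g u hu, ?_⟩
    exact he g u)
  refine ⟨U'.comap (e : W →ₗ[ℂ] (Fin r → ℂ)), ?_, ?_⟩
  · intro g u hu
    change e (τ g u) ∈ U'
    rw [he]
    exact hU' g _ hu
  · have h4 : U = (U.map (e : W →ₗ[ℂ] (Fin r → ℂ))).comap (e : W →ₗ[ℂ] (Fin r → ℂ)) := by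
      rw [Submodule.comap_map_eq_of_injective e.injective]
    rw [h4]
    constructor
    · rw [disjoint_iff, ← Submodule.comap_inf, hc.inf_eq_bot]
      ext w
      simp
    · rw [codisjoint_iff, eq_top_iff]
      intro w _
      have h5 : e w ∈ U.map (e : W →ₗ[ℂ] (Fin r → ℂ)) ⊔ U' := by
        rw [hc.sup_eq_top]; trivial
      obtain ⟨a, ha, c, hc', hac⟩ := Submodule.mem_sup.1 h5
      rw [Submodule.mem_sup]
      refine ⟨e.symm a, ?_, e.symm c, ?_, ?_⟩
      · rw [Submodule.mem_comap]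
        change e (e.symm a) ∈ U.map (e : W →ₗ[ℂ] (Fin r → ℂ))
        rwa [e.apply_symm_apply]
      · rw [Submodule.mem_comap]
        change e (e.symm c) ∈ U'
        rwa [e.apply_symm_apply]
      · rw [← map_add, hac, e.symm_apply_apply]

/-- all coefficients of `g ↦ act (m g) f` are regular -/
theorem coeff_reg {G σ : Type} [Fintype σ] [DecidableEq σ] {Rg : Subalgebra ℂ (G → ℂ)}
    (m : G → Matrix σ σ ℂ) (hm : ∀ i j, (fun g => m g i j) ∈ Rg) (f : MvPolynomial σ ℂ) :
    ∀ l : MvPolynomial σ ℂ →ₗ[ℂ] ℂ, (fun g => l (act (m g) f)) ∈ Rg := by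
  induction f using MvPolynomial.induction_on with
  | C a =>
    intro l
    have h1 : (fun g => l (act (m g) (C a))) = algebraMap ℂ (G → ℂ) (l (C a)) := by
      funext g
      rw [← algebraMap_eq, AlgHom.commutes]
      rfl
    rw [h1]
    exact Rg.algebraMap_mem _
  | add p q hp hq =>
    intro l
    have h1 : (fun g => l (act (m g) (p + q))) =
        (fun g => l (act (m g) p)) + fun g => l (act (m g) q) := by
      funext g
      rw [map_add, map_add]
      rfl
    rw [h1]
    exact Rg.add_mem (hp l) (hq l)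
  | mul_X p i hp =>
    intro l
    have h1 : (fun g => l (act (m g) (p * X i))) =
        ∑ j, (fun g => m g i j) * fun g => (l ∘ₗ LinearMap.mulRight ℂ (X j)) (act (m g) p) := by
      funext g
      rw [Finset.sum_apply, map_mul, act_X, Finset.mul_sum, map_sum]
      apply Finset.sum_congr rfl
      intro j _
      have h2 : act (m g) p * (C (m g i j) * X j) = m g i j • (act (m g) p * X j) := by
        rw [smul_eq_C_mul]; ring
      rw [h2, map_smul, smul_eq_mul]
      rfl
    rw [h1]
    exact Rg.sum_mem fun j _ => Rg.mul_mem (hm i j) (hp _)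

end H50.Z.Mo
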