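import Pool.Agent.H50.Z.M1_CR
import Pool.Agent.H50.Z.M2_Coef

/-!
(M3) The Reynolds operator.

On `P = MvPolynomial σ ℂ` put `τ g = act (m g)`. Claim: `IsCompl (fixS τ) (movS τ)`. Each
homogeneous submodule `P_n` is finite-dimensional and stable (`act_isHomogeneous`), so
`P_n = P_n^G ⊕ span {τ g h - h : h ∈ P_n}` by `isCompl_fixS` and `cr_of_LR`, `coeff_reg` (a linear form
on `P_n` extends to `P`). The homogeneous components of an element of `fixS` (`movS`) are in
`fixS` (`movS`, even in the span over `h ∈ P_n`). `R` is the projection onto `fixS τ` along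
`movS τ`. `mul`: multiplication with `f ∈ fixS` preserves `fixS` and `movS`. `comm`: `act M`
preserves `fixS` and `movS`. `hom`: decompose `f ∈ P_n` within `P_n`.
-/

open MvPolynomial

set_option linter.unusedSectionVars false

namespace H50.Z.Mo

/-- homogeneous components commute with substitutions -/
lemma M3_homComp_act {σ : Type} [Fintype σ] [DecidableEq σ] (M : Matrix σ σ ℂ) (n : ℕ)
    (f : MvPolynomial σ ℂ) :
    homogeneousComponent n (act M f) = act M (homogeneousComponent n f) := by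
  conv_lhs => rw [← sum_homogeneousComponent f, map_sum, map_sum]
  have h1 : ∀ i ∈ Finset.range (f.totalDegree + 1),
      homogeneousComponent n (act M (homogeneousComponent i f)) =
        if n = i then act M (homogeneousComponent n f) else 0 := by
    intro i _
    rw [homogeneousComponent_of_mem (act_isHomogeneous M (homogeneousComponent_isHomogeneous i f))]
    by_cases h : n = i
    · rw [if_pos h, if_pos h, h]
    · rw [if_neg h, if_neg h]
  rw [Finset.sum_congr rfl h1, Finset.sum_ite_eq]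
  by_cases h : n ∈ Finset.range (f.totalDegree + 1)
  · rw [if_pos h]
  · rw [if_neg h]
    rw [Finset.mem_range, not_lt] at h
    rw [homogeneousComponent_eq_zero n f (by omega), map_zero]

section

variable {G σ : Type} [Group G] [Fintype σ] [DecidableEq σ]

/-- the action on polynomials -/
noncomputable def M3_tau (m : G → Matrix σ σ ℂ) (g : G) : MvPolynomial σ ℂ →ₗ[ℂ] MvPolynomial σ ℂ :=
  (act (m g)).toLinearMap

/-- the action on homogeneous polynomials -/
noncomputable def M3_tauN (m : G → Matrix σ σ ℂ) (n : ℕ) (g : G) :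
    homogeneousSubmodule σ ℂ n →ₗ[ℂ] homogeneousSubmodule σ ℂ n :=
  (M3_tau m g).restrict fun _ hf => act_isHomogeneous (m g) hf

lemma M3_coe_tauN (m : G → Matrix σ σ ℂ) (n : ℕ) (g : G) (f : homogeneousSubmodule σ ℂ n) :
    ((M3_tauN m n g f : homogeneousSubmodule σ ℂ n) : MvPolynomial σ ℂ) =
      act (m g) (f : MvPolynomial σ ℂ) := rfl

lemma M3_isComplN {Rg : Subalgebra ℂ (G → ℂ)} (hLR : LR Rg) (m : G → Matrix σ σ ℂ) (hm1 : m 1 = 1)
    (hmul : ∀ g g', m (g * g') = m g' * m g) (hm : ∀ i j, (fun g => m g i j) ∈ Rg) (n : ℕ) :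
    IsCompl (fixS (M3_tauN m n)) (movS (M3_tauN m n)) := by
  have hfd : FiniteDimensional ℂ (homogeneousSubmodule σ ℂ n) :=
    Module.Finite.iff_fg.2 (homogeneousSubmodule_fg σ ℂ n)
  have h1 : M3_tauN m n 1 = LinearMap.id := by
    apply LinearMap.ext
    intro f
    apply Subtype.ext
    rw [M3_coe_tauN, hm1, act_one]
    rfl
  have h2 : ∀ g g', M3_tauN m n (g * g') = M3_tauN m n g ∘ₗ M3_tauN m n g' := by
    intro g g'
    apply LinearMap.ext
    intro f
    apply Subtype.ext
    rw [M3_coe_tauN, hmul, act_mul]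
    rfl
  refine isCompl_fixS (M3_tauN m n) h2 (cr_of_LR hLR (M3_tauN m n) h1 h2 ?_)
  intro w l
  obtain ⟨l', hl'⟩ := LinearMap.exists_extend l
  have h3 := coeff_reg m hm (w : MvPolynomial σ ℂ) l'
  have h4 : (fun g => l (M3_tauN m n g w)) = fun g => l' (act (m g) (w : MvPolynomial σ ℂ)) := by
    funext g
    rw [← hl']
    rfl
  rw [h4]
  exact h3

/-- components of moved elements -/
lemma M3_comp_mov (m : G → Matrix σ σ ℂ) (n : ℕ) {f : MvPolynomial σ ℂ}
    (hf : f ∈ movS (M3_tau m)) :
    (⟨homogeneousComponent n f, homogeneousComponent_isHomogeneous n f⟩ :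
      homogeneousSubmodule σ ℂ n) ∈ movS (M3_tauN m n) := by
  have key : ∀ f ∈ movS (M3_tau m), ∃ u ∈ movS (M3_tauN m n),
      (u : MvPolynomial σ ℂ) = homogeneousComponent n f := by
    intro f hf
    refine Submodule.span_induction (p := fun f _ => ∃ u ∈ movS (M3_tauN m n),
      (u : MvPolynomial σ ℂ) = homogeneousComponent n f) ?_ ?_ ?_ ?_ hf
    · rintro _ ⟨g, w, rfl⟩
      obtain ⟨v, hv⟩ : ∃ v : homogeneousSubmodule σ ℂ n,
          (v : MvPolynomial σ ℂ) = homogeneousComponent n w :=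
        ⟨⟨homogeneousComponent n w, homogeneousComponent_isHomogeneous n w⟩, rfl⟩
      have h2 : M3_tauN m n g v - v ∈ movS (M3_tauN m n) :=
        Submodule.subset_span ⟨g, v, rfl⟩
      refine ⟨M3_tauN m n g v - v, h2, ?_⟩
      have h1 : M3_tau m g w = act (m g) w := rfl
      rw [Submodule.coe_sub, M3_coe_tauN, map_sub, h1, M3_homComp_act, hv]
    · exact ⟨0, Submodule.zero_mem _, by rw [map_zero]; rfl⟩
    · rintro a b _ _ ⟨u, hu, hu'⟩ ⟨v, hv, hv'⟩
      exact ⟨u + v, Submodule.add_mem _ hu hv, by rw [map_add, Submodule.coe_add, hu', hv']⟩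
    · rintro c a _ ⟨u, hu, hu'⟩
      exact ⟨c • u, Submodule.smul_mem _ c hu, by rw [map_smul, Submodule.coe_smul, hu']⟩
  obtain ⟨u, hu, hu'⟩ := key f hf
  have h1 : (⟨homogeneousComponent n f, homogeneousComponent_isHomogeneous n f⟩ :
      homogeneousSubmodule σ ℂ n) = u := Subtype.ext hu'.symm
  rw [h1]
  exact hu

lemma M3_comp_fix (m : G → Matrix σ σ ℂ) (n : ℕ) {f : MvPolynomial σ ℂ}
    (hf : f ∈ fixS (M3_tau m)) :
    (⟨homogeneousComponent n f, homogeneousComponent_isHomogeneous n f⟩ :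
      homogeneousSubmodule σ ℂ n) ∈ fixS (M3_tauN m n) := by
  intro g
  apply Subtype.ext
  rw [M3_coe_tauN]
  change act (m g) (homogeneousComponent n f) = homogeneousComponent n f
  rw [← M3_homComp_act]
  have h1 : act (m g) f = f := hf g
  rw [h1]

lemma M3_fix_le (m : G → Matrix σ σ ℂ) (n : ℕ) {f : homogeneousSubmodule σ ℂ n}
    (hf : f ∈ fixS (M3_tauN m n)) : (f : MvPolynomial σ ℂ) ∈ fixS (M3_tau m) := by
  intro g
  have h1 := congrArg Subtype.val (hf g)
  exact h1

lemma M3_mov_le (m : G → Matrix σ σ ℂ) (n : ℕ) {f : homogeneousSubmodule σ ℂ n}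
    (hf : f ∈ movS (M3_tauN m n)) : (f : MvPolynomial σ ℂ) ∈ movS (M3_tau m) := by
  refine Submodule.span_induction (p := fun (f : homogeneousSubmodule σ ℂ n) _ =>
    (f : MvPolynomial σ ℂ) ∈ movS (M3_tau m)) ?_ ?_ ?_ ?_ hf
  · rintro _ ⟨g, w, rfl⟩
    exact Submodule.subset_span ⟨g, (w : MvPolynomial σ ℂ), rfl⟩
  · exact Submodule.zero_mem _
  · intro a b _ _ ha hb
    exact Submodule.add_mem _ ha hb
  · intro c a _ ha
    exact Submodule.smul_mem _ c ha

/-- decomposition of homogeneous elements -/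
lemma M3_decompN {Rg : Subalgebra ℂ (G → ℂ)} (hLR : LR Rg) (m : G → Matrix σ σ ℂ) (hm1 : m 1 = 1)
    (hmul : ∀ g g', m (g * g') = m g' * m g) (hm : ∀ i j, (fun g => m g i j) ∈ Rg) (n : ℕ)
    {f : MvPolynomial σ ℂ} (hf : f.IsHomogeneous n) :
    ∃ a ∈ fixS (M3_tau m), ∃ b ∈ movS (M3_tau m), a.IsHomogeneous n ∧ a + b = f := by
  have h1 := (M3_isComplN hLR m hm1 hmul hm n).sup_eq_top
  have h2 : (⟨f, hf⟩ : homogeneousSubmodule σ ℂ n) ∈
      fixS (M3_tauN m n) ⊔ movS (M3_tauN m n) := by
    rw [h1]; exact Submodule.mem_top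
  obtain ⟨a, ha, b, hb, hab⟩ := Submodule.mem_sup.1 h2
  exact ⟨a, M3_fix_le m n ha, b, M3_mov_le m n hb, a.2, congrArg Subtype.val hab⟩

lemma M3_isCompl {Rg : Subalgebra ℂ (G → ℂ)} (hLR : LR Rg) (m : G → Matrix σ σ ℂ) (hm1 : m 1 = 1)
    (hmul : ∀ g g', m (g * g') = m g' * m g) (hm : ∀ i j, (fun g => m g i j) ∈ Rg) :
    IsCompl (fixS (M3_tau m)) (movS (M3_tau m)) := by
  constructor
  · rw [Submodule.disjoint_def]
    intro f hf1 hf2
    rw [← sum_homogeneousComponent f]
    apply Finset.sum_eq_zero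
    intro n _
    have h1 := (M3_isComplN hLR m hm1 hmul hm n).disjoint
    rw [Submodule.disjoint_def] at h1
    exact congrArg Subtype.val (h1 _ (M3_comp_fix m n hf1) (M3_comp_mov m n hf2))
  · rw [codisjoint_iff, eq_top_iff]
    intro f _
    rw [← sum_homogeneousComponent f]
    apply Submodule.sum_mem
    intro n _
    obtain ⟨a, ha, b, hb, -, hab⟩ := M3_decompN hLR m hm1 hmul hm n
      (homogeneousComponent_isHomogeneous n f)
    rw [← hab]
    exact Submodule.add_mem_sup ha hb

end

theorem exists_isReyn {G σ : Type} [Group G] [Fintype σ] [DecidableEq σ]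
    {Rg : Subalgebra ℂ (G → ℂ)} (hLR : LR Rg) (m : G → Matrix σ σ ℂ) (hm1 : m 1 = 1)
    (hmul : ∀ g g', m (g * g') = m g' * m g) (hm : ∀ i j, (fun g => m g i j) ∈ Rg) :
    ∃ R : MvPolynomial σ ℂ →ₗ[ℂ] MvPolynomial σ ℂ, IsReyn m R := by
  have hc := M3_isCompl hLR m hm1 hmul hm
  set F := fixS (M3_tau m) with hF
  set T := movS (M3_tau m) with hT
  set R := F.projection T hc with hR
  have key : ∀ a ∈ F, ∀ b ∈ T, R (a + b) = a := by
    intro a ha b hb
    rw [map_add, Submodule.projection_apply_of_mem_left hc ha,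
      (Submodule.projection_apply_eq_zero_iff hc).2 hb, add_zero]
  have hdec : ∀ f : MvPolynomial σ ℂ, ∃ a ∈ F, ∃ b ∈ T, a + b = f := by
    intro f
    have h1 : f ∈ F ⊔ T := by rw [hc.sup_eq_top]; exact Submodule.mem_top
    exact Submodule.mem_sup.1 h1
  refine ⟨R, ?_, ?_, ?_, ?_, ?_⟩
  · intro f g
    have h1 : R f ∈ F := Submodule.projection_apply_mem hc f
    exact h1 g
  · intro f hf
    exact Submodule.projection_apply_of_mem_left hc (fun g => hf g)
  · intro f h hf
    obtain ⟨a, ha, b, hb, rfl⟩ := hdec h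
    rw [mul_add, key a ha b hb]
    apply key
    · intro g
      change act (m g) (f * a) = f * a
      have h1 : act (m g) a = a := ha g
      rw [map_mul, hf g, h1]
    · refine Submodule.span_induction (p := fun b _ => f * b ∈ T) ?_ ?_ ?_ ?_ hb
      · rintro _ ⟨g, w, rfl⟩
        refine Submodule.subset_span ⟨g, f * w, ?_⟩
        change f * (act (m g) w - w) = act (m g) (f * w) - f * w
        rw [map_mul, hf g, mul_sub]
      · rw [mul_zero]; exact Submodule.zero_mem _
      · intro x y _ _ hx hy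
        rw [mul_add]; exact Submodule.add_mem _ hx hy
      · intro c x _ hx
        rw [mul_smul_comm]; exact Submodule.smul_mem _ c hx
  · intro M hM f
    obtain ⟨a, ha, b, hb, rfl⟩ := hdec f
    have hcm : ∀ g w, act (m g) (act M w) = act M (act (m g) w) := by
      intro g w
      rw [← act_mul, ← act_mul, hM g]
    rw [map_add, key a ha b hb]
    apply key
    · intro g
      change act (m g) (act M a) = act M a
      have h1 : act (m g) a = a := ha g
      rw [hcm, h1]
    · refine Submodule.span_induction (p := fun b _ => act M b ∈ T) ?_ ?_ ?_ ?_ hb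
      · rintro _ ⟨g, w, rfl⟩
        refine Submodule.subset_span ⟨g, act M w, ?_⟩
        change act M (act (m g) w - w) = act (m g) (act M w) - act M w
        rw [map_sub, hcm]
      · rw [map_zero]; exact Submodule.zero_mem _
      · intro x y _ _ hx hy
        rw [map_add]; exact Submodule.add_mem _ hx hy
      · intro c x _ hx
        rw [map_smul]; exact Submodule.smul_mem _ c hx
  · intro f n hf
    obtain ⟨a, ha, b, hb, ha', rfl⟩ := M3_decompN hLR m hm1 hmul hm n hf
    rw [key a ha b hb]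
    exact ha'

end H50.Z.Mo
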