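import Pool.Agent.H50.Z.M0_Defs
import Pool.Agent.H50.Z.R3_Hilbert

/-! (M4) Hilbert's finiteness theorem and the Nullstellensatz for the invariants, given a Reynolds
operator. -/

open MvPolynomial

set_option linter.unusedSectionVars false

namespace H50.Z.Mo

variable {G σ : Type} [Fintype σ] [DecidableEq σ]

/-- the invariants are graded -/
theorem M4_graded {m : G → Matrix σ σ ℂ} {R : MvPolynomial σ ℂ →ₗ[ℂ] MvPolynomial σ ℂ}
    (hR : IsReyn m R) {a : MvPolynomial σ ℂ} (ha : a ∈ Fx m) (i : ℕ) :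
    homogeneousComponent i a ∈ Fx m := by
  classical
  have h1 : homogeneousComponent i a = R (homogeneousComponent i a) := by
    conv_lhs => rw [← hR.id a ha]
    have h2 : R a = ∑ j ∈ Finset.range (a.totalDegree + 1), R (homogeneousComponent j a) := by
      conv_lhs => rw [← sum_homogeneousComponent a]
      rw [map_sum]
    rw [h2, map_sum]
    have h3 : ∀ j, homogeneousComponent i (R (homogeneousComponent j a)) =
        if j = i then R (homogeneousComponent j a) else 0 := fun j =>
      (homogeneousComponent_of_mem (hR.hom _ _ (homogeneousComponent_isHomogeneous j a))).trans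
        (by simp only [eq_comm])
    simp only [h3]
    rw [Finset.sum_ite_eq']
    split_ifs with h4
    · rfl
    · rw [Finset.mem_range, not_lt] at h4
      rw [homogeneousComponent_eq_zero _ _ (by omega), map_zero]
  rw [h1]
  exact fun g => hR.inv _ g

/-- the invariants are generated in bounded degree: copy the proof of `invAlg_finiteType` in
`R3_Hilbert` (`homogeneousComponent_mul_of_isHomogeneous` is there too) -/
theorem exists_degree_bound {m : G → Matrix σ σ ℂ} {R : MvPolynomial σ ℂ →ₗ[ℂ] MvPolynomial σ ℂ}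
    (hR : IsReyn m R) :
    ∃ D : ℕ, ∀ f ∈ Fx m, f ∈ Algebra.adjoin ℂ {h | h ∈ Fx m ∧ h.totalDegree ≤ D} := by
  classical
  have hfg : (Ideal.span {f : MvPolynomial σ ℂ | f ∈ Fx m ∧ ∃ d, 0 < d ∧ f.IsHomogeneous d}).FG :=
    IsNoetherian.noetherian _
  obtain ⟨T, hT, hspan⟩ := Submodule.fg_span_iff_fg_span_finset_subset _ |>.1 hfg
  refine ⟨T.sup totalDegree, ?_⟩
  have hsub : Algebra.adjoin ℂ (T : Set (MvPolynomial σ ℂ)) ≤
      Algebra.adjoin ℂ {h | h ∈ Fx m ∧ h.totalDegree ≤ T.sup totalDegree} := by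
    refine Algebra.adjoin_mono fun t ht => ⟨(hT ht).1, ?_⟩
    exact Finset.le_sup (f := totalDegree) (Finset.mem_coe.1 ht)
  have key : ∀ n : ℕ, ∀ a ∈ Fx m, a.IsHomogeneous n →
      a ∈ Algebra.adjoin ℂ (T : Set (MvPolynomial σ ℂ)) := by
    intro n
    induction n using Nat.strong_induction_on with
    | _ n ih =>
      intro a ha hn
      rcases Nat.eq_zero_or_pos n with rfl | hpos
      · have h6 : a = C (coeff 0 a) := by
          rw [← homogeneousComponent_zero]
          exact ((homogeneousComponent_of_mem hn).trans (if_pos rfl)).symm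
        rw [h6]
        exact (Algebra.adjoin ℂ (T : Set (MvPolynomial σ ℂ))).algebraMap_mem _
      · have h6 : a ∈ Submodule.span (MvPolynomial σ ℂ) (T : Set (MvPolynomial σ ℂ)) := by
          rw [← hspan]
          exact Ideal.subset_span ⟨ha, n, hpos, hn⟩
        obtain ⟨g, hg⟩ := Submodule.mem_span_finset'.1 h6
        choose dd hdpos hdh using fun t : T => (hT t.2).2
        have h7 : a = ∑ t : T, (if dd t ≤ n then homogeneousComponent (n - dd t) (g t) * (t : MvPolynomial σ ℂ)
            else 0) := by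
          conv_lhs => rw [← (homogeneousComponent_of_mem hn).trans (if_pos rfl), ← hg, map_sum]
          refine Finset.sum_congr rfl fun t _ => ?_
          rw [smul_eq_mul, homogeneousComponent_mul_of_isHomogeneous _ _ (hdh t)]
        rw [← hR.id a ha, h7, map_sum]
        refine sum_mem fun t _ => ?_
        split_ifs with hd
        · rw [mul_comm, hR.mul _ _ (hT t.2).1]
          refine mul_mem (Algebra.subset_adjoin t.2) (ih (n - dd t) (by have := hdpos t; omega) _
            (fun g => hR.inv _ g) (hR.hom _ _ (homogeneousComponent_isHomogeneous _ _)))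
        · rw [map_zero]
          exact zero_mem _
  intro a ha
  refine hsub ?_
  rw [← sum_homogeneousComponent a]
  exact sum_mem fun i _ => key i _ (M4_graded hR ha i) (homogeneousComponent_isHomogeneous _ _)

/-- characters of the algebra of invariants are evaluations: the ideal of `P` generated by `ker χ` is
proper (`1 = ∑ f_i p_i` with `f_i ∈ ker χ` gives `1 = ∑ f_i R p_i ∈ ker χ`), so it has a common zero
`x` by the Nullstellensatz, and `f - χ(f) ∈ ker χ` for `f ∈ Fx m` -/
theorem exists_point {m : G → Matrix σ σ ℂ} {R : MvPolynomial σ ℂ →ₗ[ℂ] MvPolynomial σ ℂ}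
    (hR : IsReyn m R) (χ : Fx m →ₐ[ℂ] ℂ) :
    ∃ x : σ → ℂ, ∀ a : Fx m, eval x (a : MvPolynomial σ ℂ) = χ a := by
  classical
  let I : Ideal (MvPolynomial σ ℂ) :=
    Ideal.span {f | ∃ a : Fx m, χ a = 0 ∧ (a : MvPolynomial σ ℂ) = f}
  have hI : ∀ x ∈ I, ∀ p : MvPolynomial σ ℂ,
      ∃ b : Fx m, χ b = 0 ∧ (b : MvPolynomial σ ℂ) = R (p * x) := by
    intro x hx
    refine Submodule.span_induction ?_ ?_ ?_ ?_ hx
    · rintro _ ⟨a, ha, rfl⟩ p
      refine ⟨a * ⟨R p, fun g => hR.inv _ g⟩, by rw [map_mul, ha, zero_mul], ?_⟩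
      rw [mul_comm p, hR.mul _ _ a.2]
      rfl
    · intro p
      exact ⟨0, map_zero _, by rw [mul_zero, map_zero]; rfl⟩
    · rintro x y _ _ hx hy p
      obtain ⟨b, hb, hb'⟩ := hx p
      obtain ⟨c, hc, hc'⟩ := hy p
      exact ⟨b + c, by rw [map_add, hb, hc, add_zero], by
        rw [mul_add, map_add, ← hb', ← hc']; rfl⟩
    · rintro q x _ hx p
      obtain ⟨b, hb, hb'⟩ := hx (p * q)
      exact ⟨b, hb, by rw [hb', smul_eq_mul, mul_assoc]⟩
  have hne : I ≠ ⊤ := by
    intro htop
    have h1 : (1 : MvPolynomial σ ℂ) ∈ I := by rw [htop]; trivial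
    obtain ⟨b, hb, hb'⟩ := hI 1 h1 1
    have h2 : R (1 * 1) = 1 := by
      rw [one_mul]
      exact hR.id 1 (fun g => map_one _)
    rw [h2] at hb'
    have h3 : b = 1 := Subtype.ext hb'
    rw [h3, map_one] at hb
    exact one_ne_zero hb
  obtain ⟨M, hM, hIM⟩ := Ideal.exists_le_maximal I hne
  obtain ⟨x, hx⟩ := isMaximal_iff_eq_vanishingIdeal_singleton.1 hM
  refine ⟨x, fun a => ?_⟩
  have h1 : ((a - algebraMap ℂ (Fx m) (χ a) : Fx m) : MvPolynomial σ ℂ) ∈ I :=
    Ideal.subset_span ⟨_, by rw [map_sub, AlgHom.commutes, Algebra.algebraMap_self, RingHom.id_apply,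
      sub_self], rfl⟩
  have h2 := hIM h1
  rw [hx, mem_vanishingIdeal_singleton_iff] at h2
  have h3 : ((a - algebraMap ℂ (Fx m) (χ a) : Fx m) : MvPolynomial σ ℂ)
      = (a : MvPolynomial σ ℂ) - C (χ a) := rfl
  rw [h3, map_sub] at h2
  have h4 : aeval x (C (χ a) : MvPolynomial σ ℂ) = χ a := by
    rw [aeval_C]; rfl
  rw [h4, sub_eq_zero] at h2
  rw [← h2]
  rfl

end H50.Z.Mo
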