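import Pool.Agent.H50.Z.M0_Defs

/-!
(M5) The unitarily invariant norm of linear functionals on polynomials of degree `k`.
-/

open MvPolynomial

set_option linter.unusedSectionVars false

namespace H50.Z.Mo

section

variable {σ : Type} [Fintype σ] [DecidableEq σ]

/-- `∑ |l(x_{v 1} ⋯ x_{v k})|²` over all `k`-tuples `v` of variables -/
noncomputable def nrm (k : ℕ) (l : MvPolynomial σ ℂ →ₗ[ℂ] ℂ) : ℝ :=
  ∑ v : Fin k → σ, ‖l (∏ i, X (v i))‖ ^ 2

lemma nrm_succ (k : ℕ) (l : MvPolynomial σ ℂ →ₗ[ℂ] ℂ) :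
    nrm (k + 1) l = ∑ i, nrm k (l ∘ₗ LinearMap.mulLeft ℂ (X i : MvPolynomial σ ℂ)) := by
  unfold nrm
  rw [← (Fin.consEquiv fun _ : Fin (k + 1) => σ).sum_comp, Fintype.sum_prod_type]
  apply Finset.sum_congr rfl
  intro i _
  apply Finset.sum_congr rfl
  intro v _
  rw [Fin.prod_univ_succ]
  simp only [Fin.consEquiv_apply, Fin.cons_zero, Fin.cons_succ, LinearMap.comp_apply,
    LinearMap.mulLeft_apply]

lemma unitary_sum {U : Matrix σ σ ℂ} (hU : U ∈ Matrix.unitaryGroup σ ℂ) (z : σ → ℂ) :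
    ∑ i, ‖∑ j, U i j * z j‖ ^ 2 = ∑ j, ‖z j‖ ^ 2 := by
  have h0 : ∀ w : σ → ℂ, ((∑ j, ‖w j‖ ^ 2 : ℝ) : ℂ) = star w ⬝ᵥ w := by
    intro w
    rw [Complex.ofReal_sum]
    apply Finset.sum_congr rfl
    intro i _
    rw [Pi.star_apply, Complex.ofReal_pow, ← Complex.conj_mul']
    rfl
  apply Complex.ofReal_injective
  have h1 := h0 (U.mulVec z)
  rw [h0 z]
  have h2 : ((∑ i, ‖∑ j, U i j * z j‖ ^ 2 : ℝ) : ℂ) = star (U.mulVec z) ⬝ᵥ (U.mulVec z) := h1
  rw [h2, Matrix.star_mulVec, Matrix.dotProduct_mulVec, Matrix.vecMul_vecMul,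
    ← Matrix.star_eq_conjTranspose, Matrix.mem_unitaryGroup_iff'.1 hU, Matrix.vecMul_one]

/-- `nrm` is invariant under unitary substitutions. Proof by induction on `k`: split off the
first variable (`Fin.consEquiv`/`Fin.prod_univ_succ`): `nrm (k+1) l = ∑ i, nrm k (l ∘ (X i * ·))`;
`l ∘ act U ∘ (X i * ·) = ∑ j, U i j • (l ∘ (X j * ·)) ∘ act U`; by induction
`nrm (k+1) (l ∘ act U) = ∑ i, nrm k (∑ j, U i j • l_j)`, and `∑ i |∑ j U i j z_j|² = ∑ j |z_j|²`. -/
theorem nrm_act {U : Matrix σ σ ℂ} (hU : U ∈ Matrix.unitaryGroup σ ℂ) (k : ℕ)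
    (l : MvPolynomial σ ℂ →ₗ[ℂ] ℂ) : nrm k (l ∘ₗ (act U).toLinearMap) = nrm k l := by
  induction k generalizing l with
  | zero =>
    unfold nrm
    apply Finset.sum_congr rfl
    intro v _
    rw [Finset.univ_eq_empty, Finset.prod_empty, LinearMap.comp_apply, AlgHom.toLinearMap_apply,
      map_one]
  | succ k ih =>
    have h1 : ∀ i : σ, (l ∘ₗ (act U).toLinearMap) ∘ₗ LinearMap.mulLeft ℂ (X i : MvPolynomial σ ℂ) =
        (∑ j, U i j • (l ∘ₗ LinearMap.mulLeft ℂ (X j : MvPolynomial σ ℂ))) ∘ₗ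
          (act U).toLinearMap := by
      intro i
      apply LinearMap.ext
      intro g
      simp only [LinearMap.comp_apply, LinearMap.mulLeft_apply, AlgHom.toLinearMap_apply, map_mul,
        act_X, LinearMap.sum_apply, LinearMap.smul_apply]
      rw [Finset.sum_mul, map_sum]
      apply Finset.sum_congr rfl
      intro j _
      rw [mul_assoc, ← smul_eq_C_mul, map_smul]
    have h2 : nrm (k + 1) (l ∘ₗ (act U).toLinearMap) =
        ∑ i, nrm k (∑ j, U i j • (l ∘ₗ LinearMap.mulLeft ℂ (X j : MvPolynomial σ ℂ))) := by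
      rw [nrm_succ]
      apply Finset.sum_congr rfl
      intro i _
      rw [h1 i, ih]
    rw [h2, nrm_succ]
    unfold nrm
    rw [Finset.sum_comm, Finset.sum_comm (s := Finset.univ (α := σ))]
    apply Finset.sum_congr rfl
    intro v _
    rw [← unitary_sum hU fun j => (l ∘ₗ LinearMap.mulLeft ℂ (X j : MvPolynomial σ ℂ)) (∏ i, X (v i))]
    apply Finset.sum_congr rfl
    intro i _
    rw [LinearMap.sum_apply]
    simp only [LinearMap.smul_apply, smul_eq_mul]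

end

variable {ν : Type} [Fintype ν] [DecidableEq ν]

/-- the functional `f ↦ (R f)(h)` -/
noncomputable def lam (R : MvPolynomial (Ix ν) ℂ →ₗ[ℂ] MvPolynomial (Ix ν) ℂ) (h : GL ν ℂ) :
    MvPolynomial (Ix ν) ℂ →ₗ[ℂ] ℂ :=
  (aeval (pt h) : MvPolynomial (Ix ν) ℂ →ₐ[ℂ] ℂ).toLinearMap ∘ₗ R

lemma lam_apply (R : MvPolynomial (Ix ν) ℂ →ₗ[ℂ] MvPolynomial (Ix ν) ℂ) (h : GL ν ℂ)
    (f : MvPolynomial (Ix ν) ℂ) : lam R h f = eval (pt h) (R f) := by
  rw [← coe_aeval_eq_eval]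
  rfl

/-- the function to be minimized -/
noncomputable def Nm (R : MvPolynomial (Ix ν) ℂ →ₗ[ℂ] MvPolynomial (Ix ν) ℂ) (D : ℕ)
    (h : GL ν ℂ) : ℝ := ∑ k ∈ Finset.range (D + 1), nrm k (lam R h)

variable {G : Type} [Group G] {ρ : G →* GL ν ℂ}
  {R : MvPolynomial (Ix ν) ℂ →ₗ[ℂ] MvPolynomial (Ix ν) ℂ}

/-- uses `IsReyn.comm` with `Lm_Rm`, and `eval_act_Lm` -/
theorem lam_mul (hR : IsReyn (mr ρ) R) (g h : GL ν ℂ) (f : MvPolynomial (Ix ν) ℂ) :
    lam R (g * h) f = lam R h (act (Lm g) f) := by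
  rw [lam_apply, lam_apply, hR.comm (Lm g) (fun x => Lm_Rm g (ρ x)), eval_act_Lm]

theorem Nm_unitary (hR : IsReyn (mr ρ) R) (D : ℕ) {u : GL ν ℂ}
    (hu : (u : Matrix ν ν ℂ) ∈ Matrix.unitaryGroup ν ℂ) (h : GL ν ℂ) :
    Nm R D (u * h) = Nm R D h := by
  unfold Nm
  apply Finset.sum_congr rfl
  intro k _
  have h1 : lam R (u * h) = lam R h ∘ₗ (act (Lm u)).toLinearMap := by
    apply LinearMap.ext
    intro f
    rw [lam_mul hR]
    rfl
  rw [h1, nrm_act (Lm_unitary hu)]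

/-- `Nm` only depends on the values of the invariants -/
theorem Nm_congr (hR : IsReyn (mr ρ) R) (D : ℕ) {h h' : GL ν ℂ}
    (hh : ∀ f ∈ Fx (mr ρ), eval (pt h) f = eval (pt h') f) : Nm R D h = Nm R D h' := by
  have h1 : lam R h = lam R h' := by
    apply LinearMap.ext
    intro f
    rw [lam_apply, lam_apply]
    exact hh _ (hR.inv f)
  unfold Nm
  rw [h1]

/-- diagonal matrices scale the monomials (`Lm_dg`, `lam_mul`) -/
theorem lam_dg (hR : IsReyn (mr ρ) R) (d : ν → ℝ) (z : ℂ) (h : GL ν ℂ) {k : ℕ} (v : Fin k → Ix ν) :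
    lam R (dg d z * h) (∏ i, X (v i)) =
      Complex.exp (z * ∑ i, (wt d (v i) : ℂ)) * lam R h (∏ i, X (v i)) := by
  rw [lam_mul hR, map_prod]
  have h1 : ∀ i, act (Lm (dg d z)) (X (v i)) =
      C (Complex.exp (z * wt d (v i))) * (X (v i) : MvPolynomial (Ix ν) ℂ) := by
    intro i
    rw [act_X, Lm_dg, Finset.sum_eq_single (v i)]
    · rw [Matrix.diagonal_apply_eq]
    · intro j _ hj
      rw [Matrix.diagonal_apply_ne _ hj.symm, C_0, zero_mul]
    · intro h2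
      exact absurd (Finset.mem_univ _) h2
  have h2 : ∏ i, act (Lm (dg d z)) (X (v i)) =
      Complex.exp (z * ∑ i, (wt d (v i) : ℂ)) • ∏ i, (X (v i) : MvPolynomial (Ix ν) ℂ) := by
    rw [Finset.prod_congr rfl fun i _ => h1 i, Finset.prod_mul_distrib, ← map_prod,
      smul_eq_C_mul, ← Complex.exp_sum, Finset.mul_sum]
  rw [h2, map_smul, smul_eq_mul]

/-- every polynomial of degree `≤ D` is a combination of the products `∏ i : Fin k, X (v i)` with
`k ≤ D` -/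
theorem mem_span_prod {σ : Type} [Fintype σ] [DecidableEq σ] {f : MvPolynomial σ ℂ} {D : ℕ}
    (hf : f.totalDegree ≤ D) :
    f ∈ Submodule.span ℂ {p : MvPolynomial σ ℂ | ∃ k ≤ D, ∃ v : Fin k → σ, p = ∏ i, X (v i)} := by
  rw [f.as_sum]
  apply Submodule.sum_mem
  intro s hs
  have h1 : monomial s (coeff s f) = coeff s f • monomial s (1 : ℂ) := by
    rw [smul_monomial, smul_eq_mul, mul_one]
  rw [h1]
  apply Submodule.smul_mem
  apply Submodule.subset_span
  have h2 : (s.sum fun _ e => e) ≤ D := (le_totalDegree hs).trans hf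
  refine ⟨(Finsupp.toMultiset s).toList.length, ?_,
    fun i => (Finsupp.toMultiset s).toList[i.1], ?_⟩
  · rw [Multiset.length_toList, Finsupp.card_toMultiset]
    exact h2
  · rw [Fin.prod_univ_fun_getElem (Finsupp.toMultiset s).toList fun i => (X i : MvPolynomial σ ℂ),
      ← Multiset.prod_coe, ← Multiset.map_coe, Multiset.coe_toList, Finsupp.toMultiset_map,
      Finsupp.prod_toMultiset, monomial_eq, C_1, one_mul,
      Finsupp.prod_mapDomain_index (fun b => pow_zero b) (fun b m n => pow_add b m n)]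

end H50.Z.Mo
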