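import Pool.Agent.H50.Z.M4_Hilb
import Pool.Agent.H50.Z.M5_Norm

/-!
(M6) `Nm R D` has a minimum.

Let `h_k` be a sequence with `Nm R D h_k → inf`. The numbers `lam R h_k (∏ X (v i))`, `|v| ≤ D`, are
bounded (their squares are bounded by `Nm`), so for a subsequence they all converge; by
`mem_span_prod` `lam R h_k f` converges for every `f` of degree `≤ D`, in particular
`eval (pt h_k) f = lam R h_k f` for `f ∈ Fx (mr ρ)` of degree `≤ D` (`IsReyn.id`). By `hD` (adjoin
induction) `eval (pt h_k) f` converges for all `f ∈ Fx (mr ρ)`; the limit `χ f` is an algebra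
homomorphism, so there is `x` with `eval x f = χ f` (`exists_point`). `rel ∈ Fx (mr ρ)` and
`eval (pt h_k) rel = 1`, so `eval x rel = 1`, and `x = pt h₀`. Then
`Nm R D h₀ = lim Nm R D h_k = inf`, since `lam R h₀ f = eval (pt h₀) (R f) = χ (R f)`.
-/

open MvPolynomial Filter Topology

set_option linter.unusedSectionVars false

namespace H50.Z.Mo

variable {ν : Type} [Fintype ν] [DecidableEq ν] {G : Type} [Group G] {ρ : G →* GL ν ℂ}
  {R : MvPolynomial (Ix ν) ℂ →ₗ[ℂ] MvPolynomial (Ix ν) ℂ}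

lemma eval_rel (x : Ix ν → ℂ) :
    eval x (rel : MvPolynomial (Ix ν) ℂ) =
      (Matrix.of fun i j => x (Sum.inl (i, j))).det * x (Sum.inr ()) := by
  unfold rel
  rw [map_mul, eval_X, RingHom.map_det]
  congr 2
  ext i j
  simp

lemma eval_pt_rel (h : GL ν ℂ) : eval (pt h) (rel : MvPolynomial (Ix ν) ℂ) = 1 := by
  rw [eval_rel]
  have h1 : (Matrix.of fun i j => pt h (Sum.inl (i, j))) = (h : Matrix ν ν ℂ) := by
    ext i j
    rfl
  rw [h1]
  change (h : Matrix ν ν ℂ).det * (h : Matrix ν ν ℂ).det⁻¹ = 1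
  exact mul_inv_cancel₀ (Matrix.GeneralLinearGroup.det_ne_zero h)

/-- `d det x` is invariant -/
theorem rel_mem : rel ∈ Fx (mr ρ) := by
  intro g
  apply MvPolynomial.funext
  intro x
  have h1 : eval x (act (mr ρ g) rel) = eval ((Rm (ρ g)).mulVec x) rel := eval_act _ _ _
  rw [h1, eval_rel, eval_rel]
  have h2 : (Matrix.of fun i j => (Rm (ρ g)).mulVec x (Sum.inl (i, j))) =
      (Matrix.of fun i j => x (Sum.inl (i, j))) * ((ρ g : GL ν ℂ) : Matrix ν ν ℂ) := by
    ext i j
    simp only [Rm, Matrix.mulVec, dotProduct, Fintype.sum_sum_type, Matrix.fromBlocks_apply₁₁,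
      Matrix.fromBlocks_apply₁₂, Matrix.zero_apply, zero_mul, Matrix.of_apply,
      Finset.sum_const_zero, add_zero, Matrix.mul_apply, Matrix.kroneckerMap_apply,
      Fintype.sum_prod_type, Matrix.one_apply, Matrix.transpose_apply]
    rw [Finset.sum_eq_single i]
    · apply Finset.sum_congr rfl
      intro k _
      simp [mul_comm]
    · intro k _ hk
      simp [hk.symm]
    · intro h; exact absurd (Finset.mem_univ i) h
  have h3 : (Rm (ρ g)).mulVec x (Sum.inr ()) =
      ((ρ g : GL ν ℂ) : Matrix ν ν ℂ).det⁻¹ * x (Sum.inr ()) := by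
    simp only [Rm, Matrix.mulVec, dotProduct, Fintype.sum_sum_type, Matrix.fromBlocks_apply₂₁,
      Matrix.fromBlocks_apply₂₂, Matrix.zero_apply, zero_mul,
      Finset.sum_const_zero, zero_add]
    simp
  rw [h2, h3, Matrix.det_mul]
  have h4 := Matrix.GeneralLinearGroup.det_ne_zero (ρ g)
  field_simp

theorem exists_pt {x : Ix ν → ℂ} (hx : eval x rel = 1) : ∃ h : GL ν ℂ, x = pt h := by
  rw [eval_rel] at hx
  have hd : (Matrix.of fun i j => x (Sum.inl (i, j))).det ≠ 0 := by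
    intro h0
    rw [h0, zero_mul] at hx
    exact zero_ne_one hx
  refine ⟨Matrix.GeneralLinearGroup.mkOfDetNeZero _ hd, ?_⟩
  funext i
  rcases i with ⟨i, j⟩ | u
  · rfl
  · change x (Sum.inr ()) = (Matrix.of fun i j => x (Sum.inl (i, j))).det⁻¹
    field_simp
    rw [mul_comm]
    exact hx

/-- index set of the products -/
abbrev TT (ν : Type) (D : ℕ) : Type := Σ k : Fin (D + 1), (Fin (k : ℕ) → Ix ν)

/-- the coordinates of `lam R h` -/
noncomputable def wv (R : MvPolynomial (Ix ν) ℂ →ₗ[ℂ] MvPolynomial (Ix ν) ℂ) (D : ℕ) (h : GL ν ℂ) :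
    TT ν D → ℂ := fun t => lam R h (∏ i, X (t.2 i))

lemma Nm_eq (R : MvPolynomial (Ix ν) ℂ →ₗ[ℂ] MvPolynomial (Ix ν) ℂ) (D : ℕ) (h : GL ν ℂ) :
    Nm R D h = ∑ t : TT ν D, ‖wv R D h t‖ ^ 2 := by
  unfold Nm nrm wv
  rw [Fintype.sum_sigma, Finset.sum_range]

lemma Nm_nonneg (R : MvPolynomial (Ix ν) ℂ →ₗ[ℂ] MvPolynomial (Ix ν) ℂ) (D : ℕ) (h : GL ν ℂ) :
    0 ≤ Nm R D h := by
  rw [Nm_eq]
  exact Finset.sum_nonneg fun t _ => by positivity

theorem exists_min (hR : IsReyn (mr ρ) R) {D : ℕ}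
    (hD : ∀ f ∈ Fx (mr ρ), f ∈ Algebra.adjoin ℂ {h | h ∈ Fx (mr ρ) ∧ h.totalDegree ≤ D}) :
    ∃ h₀ : GL ν ℂ, ∀ h : GL ν ℂ, Nm R D h₀ ≤ Nm R D h := by
  classical
  -- a minimizing sequence
  obtain ⟨u, -, hu, huS⟩ := exists_seq_tendsto_sInf (S := Set.range fun h : GL ν ℂ => Nm R D h)
    ⟨_, ⟨1, rfl⟩⟩ ⟨0, by rintro _ ⟨h, rfl⟩; exact Nm_nonneg R D h⟩
  choose hk hhk using huS
  set L : ℝ := sInf (Set.range fun h : GL ν ℂ => Nm R D h) with hL
  have hlow : ∀ h : GL ν ℂ, L ≤ Nm R D h := fun h =>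
    csInf_le ⟨0, by rintro _ ⟨h, rfl⟩; exact Nm_nonneg R D h⟩ ⟨h, rfl⟩
  have hlim : Tendsto (fun n => Nm R D (hk n)) atTop (𝓝 L) := by
    refine hu.congr fun n => ?_
    exact (hhk n).symm
  -- the coordinates are bounded
  obtain ⟨B, hB⟩ := hlim.bddAbove_range
  have hB' : ∀ n, Nm R D (hk n) ≤ B := fun n => hB ⟨n, rfl⟩
  have hbd : ∀ n, wv R D (hk n) ∈ Metric.closedBall (0 : TT ν D → ℂ) (Real.sqrt (max B 0)) := by
    intro n
    rw [mem_closedBall_zero_iff, pi_norm_le_iff_of_nonneg (Real.sqrt_nonneg _)]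
    intro t
    apply Real.le_sqrt_of_sq_le
    refine le_trans ?_ (le_max_left _ _)
    refine le_trans ?_ (hB' n)
    rw [Nm_eq]
    exact Finset.single_le_sum (f := fun t => ‖wv R D (hk n) t‖ ^ 2) (fun t _ => by positivity)
      (Finset.mem_univ t)
  obtain ⟨w, -, φ, hφ, hw⟩ := tendsto_subseq_of_bounded Metric.isBounded_closedBall hbd
  have hwt : ∀ t : TT ν D, Tendsto (fun n => wv R D (hk (φ n)) t) atTop (𝓝 (w t)) := by
    intro t
    exact (tendsto_pi_nhds.1 hw) t
  -- convergence on all polynomials of degree at most `D`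
  have hdeg : ∀ f : MvPolynomial (Ix ν) ℂ, f.totalDegree ≤ D →
      ∃ c, Tendsto (fun n => lam R (hk (φ n)) f) atTop (𝓝 c) := by
    intro f hf
    have h1 := mem_span_prod hf
    clear hf
    induction h1 using Submodule.span_induction with
    | mem x hx =>
      obtain ⟨k, hk', v, rfl⟩ := hx
      exact ⟨_, hwt ⟨⟨k, Nat.lt_succ_of_le hk'⟩, v⟩⟩
    | zero => exact ⟨0, by simp⟩
    | add x y _ _ hx hy =>
      obtain ⟨a, ha⟩ := hx
      obtain ⟨b, hb⟩ := hy
      refine ⟨a + b, (ha.add hb).congr fun n => ?_⟩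
      rw [map_add]
    | smul a x _ hx =>
      obtain ⟨b, hb⟩ := hx
      refine ⟨a * b, (hb.const_mul a).congr fun n => ?_⟩
      rw [map_smul, smul_eq_mul]
  -- convergence on all invariants
  have hinv : ∀ f ∈ Fx (mr ρ), ∃ c, Tendsto (fun n => eval (pt (hk (φ n))) f) atTop (𝓝 c) := by
    intro f hf
    have h1 := hD f hf
    clear hf
    induction h1 using Algebra.adjoin_induction with
    | mem x hx =>
      obtain ⟨c, hc⟩ := hdeg x hx.2
      refine ⟨c, hc.congr fun n => ?_⟩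
      rw [lam_apply, hR.id x hx.1]
    | algebraMap r =>
      refine ⟨r, tendsto_const_nhds.congr fun n => ?_⟩
      rw [MvPolynomial.algebraMap_eq, eval_C]
    | add x y _ _ hx hy =>
      obtain ⟨a, ha⟩ := hx
      obtain ⟨b, hb⟩ := hy
      refine ⟨a + b, (ha.add hb).congr fun n => ?_⟩
      rw [map_add]
    | mul x y _ _ hx hy =>
      obtain ⟨a, ha⟩ := hx
      obtain ⟨b, hb⟩ := hy
      refine ⟨a * b, (ha.mul hb).congr fun n => ?_⟩
      rw [map_mul]
  -- the limit character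
  choose! c hc using hinv
  have hcu : ∀ f ∈ Fx (mr ρ), ∀ b : ℂ,
      Tendsto (fun n => eval (pt (hk (φ n))) f) atTop (𝓝 b) → c f = b := fun f hf b hb =>
    tendsto_nhds_unique (hc f hf) hb
  let χ : Fx (mr ρ) →ₐ[ℂ] ℂ :=
    { toFun := fun a => c (a : MvPolynomial (Ix ν) ℂ)
      map_one' := by
        refine hcu _ (Fx (mr ρ)).one_mem _ (tendsto_const_nhds.congr fun n => ?_)
        rw [map_one]
      map_mul' := by
        intro a b
        refine hcu _ (a * b).2 _ (((hc _ a.2).mul (hc _ b.2)).congr fun n => ?_)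
        rw [MulMemClass.coe_mul, map_mul]
      map_zero' := by
        refine hcu _ (Fx (mr ρ)).zero_mem _ (tendsto_const_nhds.congr fun n => ?_)
        rw [map_zero]
      map_add' := by
        intro a b
        refine hcu _ (a + b).2 _ (((hc _ a.2).add (hc _ b.2)).congr fun n => ?_)
        rw [AddMemClass.coe_add, map_add]
      commutes' := by
        intro r
        refine hcu _ (algebraMap ℂ (Fx (mr ρ)) r).2 _ (tendsto_const_nhds.congr fun n => ?_)
        change _ = eval _ (algebraMap ℂ (MvPolynomial (Ix ν) ℂ) r)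
        rw [MvPolynomial.algebraMap_eq, eval_C]
        rfl }
  obtain ⟨x, hx⟩ := exists_point hR χ
  have hrel : eval x rel = 1 := by
    have h1 := hx ⟨rel, rel_mem⟩
    change eval x rel = c rel at h1
    rw [h1]
    refine hcu _ rel_mem _ (tendsto_const_nhds.congr fun n => ?_)
    rw [eval_pt_rel]
  obtain ⟨h₀, rfl⟩ := exists_pt hrel
  refine ⟨h₀, fun h => ?_⟩
  refine le_trans (le_of_eq ?_) (hlow h)
  -- the norm at `h₀` is the limit of the norms
  have hRm : ∀ f, R f ∈ Fx (mr ρ) := fun f g => hR.inv f g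
  have hconv : ∀ f, Tendsto (fun n => lam R (hk (φ n)) f) atTop (𝓝 (lam R h₀ f)) := by
    intro f
    have h1 := hc (R f) (hRm f)
    have h2 : eval (pt h₀) (R f) = c (R f) := hx ⟨R f, hRm f⟩
    rw [← h2, ← lam_apply] at h1
    refine h1.congr fun n => ?_
    rw [lam_apply]
  have hN : Tendsto (fun n => Nm R D (hk (φ n))) atTop (𝓝 (Nm R D h₀)) := by
    unfold Nm nrm
    refine tendsto_finsetSum _ fun k _ => tendsto_finsetSum _ fun v _ => ?_
    exact ((hconv _).norm).pow 2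
  exact tendsto_nhds_unique hN (hlim.comp hφ.tendsto_atTop)

end H50.Z.Mo
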