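import Pool.Agent.H50.Z.M0_Defs

/-!
(M7) Polar decomposition, the one-parameter groups `Ex v d z = v diag(exp(z d)) v⁻¹`, an identity
theorem, and a convexity lemma.
-/

open MvPolynomial

set_option linter.unusedSectionVars false

namespace H50.Z.Mo

variable {ν : Type} [Fintype ν] [DecidableEq ν]

lemma m7_dg_add (d : ν → ℝ) (z w : ℂ) : dg d (z + w) = dg d z * dg d w := by
  apply Units.ext
  rw [Units.val_mul, coe_dg, coe_dg, coe_dg, Matrix.diagonal_mul_diagonal]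
  congr 1
  funext i
  rw [← Complex.exp_add, add_mul]

lemma m7_dg_zero (d : ν → ℝ) : dg d 0 = 1 := by
  apply Units.ext
  rw [coe_dg, Units.val_one, ← Matrix.diagonal_one]
  congr 1
  funext i
  rw [zero_mul, Complex.exp_zero]

lemma Ex_add (v : GL ν ℂ) (d : ν → ℝ) (z w : ℂ) : Ex v d (z + w) = Ex v d z * Ex v d w := by
  unfold Ex
  rw [m7_dg_add]
  group

lemma Ex_zero (v : GL ν ℂ) (d : ν → ℝ) : Ex v d 0 = 1 := by
  unfold Ex
  rw [m7_dg_zero]
  group

lemma m7_inv_unitary {v : GL ν ℂ} (hv : (v : Matrix ν ν ℂ) ∈ Matrix.unitaryGroup ν ℂ) :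
    ((v⁻¹ : GL ν ℂ) : Matrix ν ν ℂ) = star (v : Matrix ν ν ℂ) := by
  have h3 := Matrix.mem_unitaryGroup_iff'.1 hv
  calc ((v⁻¹ : GL ν ℂ) : Matrix ν ν ℂ) =
      (star (v : Matrix ν ν ℂ) * (v : Matrix ν ν ℂ)) * ((v⁻¹ : GL ν ℂ) : Matrix ν ν ℂ) := by
        rw [h3, Matrix.one_mul]
    _ = _ := by rw [Matrix.mul_assoc, Units.mul_inv, Matrix.mul_one]

lemma m7_dg_unitary (d : ν → ℝ) (s : ℝ) :
    (dg d (Complex.I * s) : Matrix ν ν ℂ) ∈ Matrix.unitaryGroup ν ℂ := by
  rw [Matrix.mem_unitaryGroup_iff, Matrix.star_eq_conjTranspose, coe_dg,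
    Matrix.diagonal_conjTranspose, Matrix.diagonal_mul_diagonal, ← Matrix.diagonal_one]
  congr 1
  funext i
  rw [Pi.star_apply, Complex.star_def, ← Complex.exp_conj, ← Complex.exp_add]
  simp only [map_mul, Complex.conj_I, Complex.conj_ofReal]
  rw [neg_mul, neg_mul, add_neg_cancel, Complex.exp_zero]

/-- `Ex v d (i s)` is unitary -/
theorem Ex_unitary {v : GL ν ℂ} (hv : (v : Matrix ν ν ℂ) ∈ Matrix.unitaryGroup ν ℂ) (d : ν → ℝ)
    (s : ℝ) : (Ex v d (Complex.I * s) : Matrix ν ν ℂ) ∈ Matrix.unitaryGroup ν ℂ := by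
  unfold Ex
  rw [Units.val_mul, Units.val_mul, m7_inv_unitary hv]
  exact (Matrix.unitaryGroup ν ℂ).mul_mem ((Matrix.unitaryGroup ν ℂ).mul_mem hv (m7_dg_unitary d s))
    (Unitary.star_mem hv)

open scoped ComplexOrder in
/-- diagonalization of `g* g` -/
lemma m7_exists_diag (g : GL ν ℂ) : ∃ (v : GL ν ℂ) (l : ν → ℝ),
    (v : Matrix ν ν ℂ) ∈ Matrix.unitaryGroup ν ℂ ∧ (∀ i, 0 < l i) ∧
      star (g : Matrix ν ν ℂ) * (g : Matrix ν ν ℂ) =
        (v : Matrix ν ν ℂ) * Matrix.diagonal (fun i => ((l i : ℝ) : ℂ)) *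
          star (v : Matrix ν ν ℂ) := by
  have hinj : Function.Injective (g : Matrix ν ν ℂ).mulVec := by
    intro x y hxy
    have h1 := congrArg (Matrix.mulVec ((g⁻¹ : GL ν ℂ) : Matrix ν ν ℂ)) hxy
    rw [Matrix.mulVec_mulVec, Matrix.mulVec_mulVec, Units.inv_mul, Matrix.one_mulVec,
      Matrix.one_mulVec] at h1
    exact h1
  have hpd : (Matrix.conjTranspose (g : Matrix ν ν ℂ) * (g : Matrix ν ν ℂ)).PosDef :=
    Matrix.PosDef.conjTranspose_mul_self _ hinj
  have hh := hpd.isHermitian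
  have hspec := hh.spectral_theorem
  rw [Unitary.conjStarAlgAut_apply] at hspec
  refine ⟨⟨(hh.eigenvectorUnitary : Matrix ν ν ℂ), star (hh.eigenvectorUnitary : Matrix ν ν ℂ),
    Matrix.mem_unitaryGroup_iff.1 hh.eigenvectorUnitary.2,
    Matrix.mem_unitaryGroup_iff'.1 hh.eigenvectorUnitary.2⟩, hh.eigenvalues,
    hh.eigenvectorUnitary.2, fun i => hpd.eigenvalues_pos i, ?_⟩
  exact hspec

/-- polar decomposition: diagonalize the positive definite matrix `g* g = v diag(λ) v*`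
(`Matrix.IsHermitian.spectral_theorem`), `d = log λ / 2`, `k = g * (Ex v d 1)⁻¹` -/
theorem exists_polar (g : GL ν ℂ) : ∃ (k v : GL ν ℂ) (d : ν → ℝ),
    (k : Matrix ν ν ℂ) ∈ Matrix.unitaryGroup ν ℂ ∧ (v : Matrix ν ν ℂ) ∈ Matrix.unitaryGroup ν ℂ ∧
      g = k * Ex v d 1 := by
  obtain ⟨v, l, hv, hl, hg⟩ := m7_exists_diag g
  set d : ν → ℝ := fun i => Real.log (l i) / 2 with hd
  refine ⟨g * Ex v d (-1), v, d, ?_, hv, ?_⟩
  · have hstar : star ((Ex v d (-1) : GL ν ℂ) : Matrix ν ν ℂ) =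
        ((Ex v d (-1) : GL ν ℂ) : Matrix ν ν ℂ) := by
      unfold Ex
      rw [Units.val_mul, Units.val_mul, m7_inv_unitary hv, star_mul, star_mul, star_star,
        Matrix.mul_assoc]
      congr 2
      rw [coe_dg, Matrix.star_eq_conjTranspose, Matrix.diagonal_conjTranspose]
      congr 1
      funext i
      rw [Pi.star_apply, Complex.star_def, ← Complex.exp_conj]
      simp only [map_mul, map_neg, map_one, Complex.conj_ofReal]
    rw [Matrix.mem_unitaryGroup_iff', Units.val_mul, star_mul, hstar, Matrix.mul_assoc,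
      ← Matrix.mul_assoc (star (g : Matrix ν ν ℂ)), hg]
    have hvv := Matrix.mem_unitaryGroup_iff'.1 hv
    have hvv' := Matrix.mem_unitaryGroup_iff.1 hv
    unfold Ex
    rw [Units.val_mul, Units.val_mul, m7_inv_unitary hv]
    have e1 : ∀ a b : Matrix ν ν ℂ, (v : Matrix ν ν ℂ) * a * star (v : Matrix ν ν ℂ) *
        ((v : Matrix ν ν ℂ) * b * star (v : Matrix ν ν ℂ)) =
        (v : Matrix ν ν ℂ) * (a * b) * star (v : Matrix ν ν ℂ) := by
      intro a b
      calc _ = (v : Matrix ν ν ℂ) * a * (star (v : Matrix ν ν ℂ) * (v : Matrix ν ν ℂ)) * b *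
          star (v : Matrix ν ν ℂ) := by simp only [Matrix.mul_assoc]
        _ = _ := by rw [hvv, Matrix.mul_one]; simp only [Matrix.mul_assoc]
    rw [e1, e1, coe_dg, Matrix.diagonal_mul_diagonal, Matrix.diagonal_mul_diagonal]
    have e2 : (Matrix.diagonal fun i => Complex.exp (-1 * (d i : ℂ)) *
        (((l i : ℝ) : ℂ) * Complex.exp (-1 * (d i : ℂ))) : Matrix ν ν ℂ) = 1 := by
      rw [← Matrix.diagonal_one]
      congr 1
      funext i
      have h3 : Complex.exp (-1 * (d i : ℂ)) * (((l i : ℝ) : ℂ) * Complex.exp (-1 * (d i : ℂ))) =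
          ((l i : ℝ) : ℂ) * (Complex.exp (-1 * (d i : ℂ)) * Complex.exp (-1 * (d i : ℂ))) := by
        ring
      rw [h3, ← Complex.exp_add]
      have h4 : (-1 * (d i : ℂ) + -1 * (d i : ℂ)) = ((-(Real.log (l i)) : ℝ) : ℂ) := by
        rw [hd]
        push_cast
        ring
      rw [h4, ← Complex.ofReal_exp, ← Complex.ofReal_mul, Real.exp_neg, Real.exp_log (hl i),
        mul_inv_cancel₀ (hl i).ne', Complex.ofReal_one]
    rw [e2, Matrix.mul_one, hvv']
  · rw [mul_assoc, ← Ex_add, neg_add_cancel, Ex_zero, mul_one]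

/-- identity theorem for the entire function `z ↦ F(A Ex(z) B)` -/
theorem exp_ident (A B v : GL ν ℂ) (d : ν → ℝ) (F : MvPolynomial (ν × ν) ℂ)
    (h : ∀ s : ℝ, eval (fun p : ν × ν =>
      ((A * Ex v d (Complex.I * s) * B : GL ν ℂ) : Matrix ν ν ℂ) p.1 p.2) F = 0) (z : ℂ) :
    eval (fun p : ν × ν => ((A * Ex v d z * B : GL ν ℂ) : Matrix ν ν ℂ) p.1 p.2) F = 0 := by
  set f : ℂ → ℂ := fun z =>
    eval (fun p : ν × ν => ((A * Ex v d z * B : GL ν ℂ) : Matrix ν ν ℂ) p.1 p.2) F with hf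
  have hent : ∀ p : ν × ν, Differentiable ℂ fun z : ℂ =>
      ((A * Ex v d z * B : GL ν ℂ) : Matrix ν ν ℂ) p.1 p.2 := by
    intro p
    have h1 : (fun z : ℂ => ((A * Ex v d z * B : GL ν ℂ) : Matrix ν ν ℂ) p.1 p.2) =
        fun z : ℂ => ∑ k, ((A * v : GL ν ℂ) : Matrix ν ν ℂ) p.1 k * Complex.exp (z * d k) *
          ((v⁻¹ * B : GL ν ℂ) : Matrix ν ν ℂ) k p.2 := by
      funext z
      have h2 : A * Ex v d z * B = (A * v) * dg d z * (v⁻¹ * B) := by
        unfold Ex; group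
      rw [h2, Units.val_mul ((A * v) * dg d z), Matrix.mul_apply]
      apply Finset.sum_congr rfl
      intro k _
      rw [Units.val_mul (A * v), coe_dg, Matrix.mul_diagonal]
    rw [h1]
    fun_prop
  have hdiff : Differentiable ℂ f := by
    have h1 : f = fun z => ∑ e ∈ F.support, coeff e F * ∏ i, ((A * Ex v d z * B : GL ν ℂ) :
        Matrix ν ν ℂ) i.1 i.2 ^ e i := by
      funext z
      rw [hf]
      exact eval_eq' _ _
    rw [h1]
    apply Differentiable.fun_sum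
    intro e _
    apply Differentiable.const_mul
    apply Differentiable.fun_finsetProd
    intro i _
    exact (hent i).pow _
  have han : AnalyticOnNhd ℂ f Set.univ := fun x _ => hdiff.analyticAt x
  have hfreq : ∃ᶠ z in nhdsWithin (0 : ℂ) {0}ᶜ, f z = 0 := by
    have ht : Filter.Tendsto (fun s : ℝ => Complex.I * (s : ℂ)) (nhdsWithin 0 {0}ᶜ)
        (nhdsWithin (0 : ℂ) {0}ᶜ) := by
      apply tendsto_nhdsWithin_of_tendsto_nhds_of_eventually_within
      · have hc : Continuous fun s : ℝ => Complex.I * (s : ℂ) := by fun_prop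
        have h0 := hc.tendsto 0
        simp only [Complex.ofReal_zero, mul_zero] at h0
        exact h0.mono_left nhdsWithin_le_nhds
      · filter_upwards [self_mem_nhdsWithin] with s hs
        simp only [Set.mem_compl_iff, Set.mem_singleton_iff, mul_eq_zero, Complex.I_ne_zero,
          Complex.ofReal_eq_zero, false_or] at hs ⊢
        exact hs
    apply ht.frequently
    exact (Filter.Eventually.of_forall fun s => h s).frequently
  have := han.eqOn_zero_of_preconnected_of_frequently_eq_zero isPreconnected_univ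
    (Set.mem_univ 0) hfreq
  exact this (Set.mem_univ z)

/-- convexity: `∑ c (exp μ - 1)² = ∑ c exp (2 μ) - 2 ∑ c exp μ + ∑ c ≤ 0` -/
theorem conv_aux {ι : Type} (s : Finset ι) (c μ : ι → ℝ) (hc : ∀ i ∈ s, 0 ≤ c i)
    (h1 : ∑ i ∈ s, c i * Real.exp (2 * μ i) = ∑ i ∈ s, c i)
    (h2 : ∑ i ∈ s, c i ≤ ∑ i ∈ s, c i * Real.exp (μ i)) :
    ∀ i ∈ s, c i = 0 ∨ μ i = 0 := by
  have hnn : ∀ i ∈ s, 0 ≤ c i * (Real.exp (μ i) - 1) ^ 2 := fun i hi =>
    mul_nonneg (hc i hi) (sq_nonneg _)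
  have hsum : ∑ i ∈ s, c i * (Real.exp (μ i) - 1) ^ 2 = 0 := by
    apply le_antisymm _ (Finset.sum_nonneg hnn)
    have h3 : ∑ i ∈ s, c i * (Real.exp (μ i) - 1) ^ 2 =
        ∑ i ∈ s, c i * Real.exp (2 * μ i) - 2 * ∑ i ∈ s, c i * Real.exp (μ i) + ∑ i ∈ s, c i := by
      rw [Finset.mul_sum, ← Finset.sum_sub_distrib, ← Finset.sum_add_distrib]
      apply Finset.sum_congr rfl
      intro i _
      rw [two_mul, Real.exp_add]
      ring
    rw [h3, h1]
    linarith
  intro i hi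
  have h4 := (Finset.sum_eq_zero_iff_of_nonneg hnn).1 hsum i hi
  rcases mul_eq_zero.1 h4 with h5 | h5
  · exact Or.inl h5
  · right
    have h6 : Real.exp (μ i) = 1 := by
      have := pow_eq_zero_iff (two_ne_zero) |>.1 h5
      linarith
    exact Real.exp_eq_one_iff _ |>.1 h6

end H50.Z.Mo
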