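import Pool.Agent.H50.Z.M5_Norm
import Pool.Agent.H50.Z.M7_Polar

/-!
(M8) The invariants are constant along `z ↦ Ex v d z * h₀` if `h₀` is a minimum of `Nm` and
`Nm (Ex v d 1 * h₀) = Nm h₀`.

Put `y = v⁻¹ h₀`. For real `t`: `Nm (Ex v d t * h₀) = Nm (v * (dg d t * y)) = Nm (dg d t * y)
= ∑_k ∑_w |lam y (X_w)|² exp(2 t μ_w)`, `μ_w = ∑ wt d (w i)` (`lam_dg`). Apply `conv_aux` (values at
`t = 0, 1/2, 1`) to the sum over `Sigma`/the double sum: `lam y (X_w) = 0` or `μ_w = 0` for every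
`w` of length `≤ D`. So `lam (dg d z * y) (X_w) = lam y (X_w)` for all complex `z`, hence
`eval (pt (dg d z * y)) f = eval (pt y) f` for `f ∈ Fx (mr ρ)` of degree `≤ D` (`mem_span_prod`,
`IsReyn.id`, `lam_apply`), hence for all `f ∈ Fx (mr ρ)` (`hD`, adjoin induction). Finally for
`f ∈ Fx (mr ρ)`: `f (Ex v d z * h₀) = f (v * dg d z * y) = (act (Lm v) f)(dg d z * y) =
(act (Lm v) f)(y) = f(h₀)` (`act_Lm_mem`, `eval_act_Lm`).
-/

open MvPolynomial

set_option linter.unusedSectionVars false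

namespace H50.Z.Mo

variable {ν : Type} [Fintype ν] [DecidableEq ν] {G : Type} [Group G] {ρ : G →* GL ν ℂ}
  {R : MvPolynomial (Ix ν) ℂ →ₗ[ℂ] MvPolynomial (Ix ν) ℂ}

/-- the value of `Nm` at `dg d t * y` -/
lemma Nm_dg (hR : IsReyn (mr ρ) R) (D : ℕ) (d : ν → ℝ) (t : ℝ) (y : GL ν ℂ) :
    Nm R D (dg d (t : ℂ) * y) =
      ∑ p ∈ (Finset.range (D + 1)).sigma (fun k => (Finset.univ : Finset (Fin k → Ix ν))),
        ‖lam R y (∏ i, X (p.2 i))‖ ^ 2 * Real.exp (2 * (t * ∑ i, wt d (p.2 i))) := by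
  rw [Finset.sum_sigma]
  unfold Nm nrm
  refine Finset.sum_congr rfl fun k _ => Finset.sum_congr rfl fun w _ => ?_
  rw [lam_dg hR d (t : ℂ) y w, norm_mul, mul_pow, mul_comm]
  congr 1
  have h1 : (t : ℂ) * ∑ i, (wt d (w i) : ℂ) = ((t * ∑ i, wt d (w i) : ℝ) : ℂ) := by
    push_cast; rfl
  rw [h1, ← Complex.ofReal_exp, Complex.norm_real, Real.norm_eq_abs, abs_of_pos (Real.exp_pos _),
    ← Real.exp_nat_mul]
  congr 1

lemma dg_zero (d : ν → ℝ) : dg d 0 = 1 := by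
  apply Units.ext
  rw [coe_dg, Units.val_one, ← Matrix.diagonal_one]
  congr 1
  funext i
  rw [zero_mul, Complex.exp_zero]

/-- the functionals `lam` at a minimum -/
lemma lam_const (hR : IsReyn (mr ρ) R) {D : ℕ} {y : GL ν ℂ} {d : ν → ℝ}
    (h1 : Nm R D (dg d ((1 : ℝ) : ℂ) * y) = Nm R D y)
    (h2 : Nm R D y ≤ Nm R D (dg d ((1 / 2 : ℝ) : ℂ) * y)) (z : ℂ)
    {f : MvPolynomial (Ix ν) ℂ} (hf : f.totalDegree ≤ D) :
    lam R (dg d z * y) f = lam R y f := by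
  have h0 : Nm R D y = Nm R D (dg d ((0 : ℝ) : ℂ) * y) := by
    rw [Complex.ofReal_zero, dg_zero, one_mul]
  rw [h0, Nm_dg hR, Nm_dg hR] at h1
  rw [h0, Nm_dg hR, Nm_dg hR] at h2
  simp only [zero_mul, mul_zero, Real.exp_zero, mul_one, one_mul] at h1 h2
  have h2' : ∀ p : (k : ℕ) × (Fin k → Ix ν), 2 * (1 / 2 * ∑ i, wt d (p.2 i)) =
      ∑ i, wt d (p.2 i) := fun p => by ring
  simp only [h2'] at h2
  have key := conv_aux _ (fun p : (k : ℕ) × (Fin k → Ix ν) => ‖lam R y (∏ i, X (p.2 i))‖ ^ 2)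
    (fun p => ∑ i, wt d (p.2 i)) (fun p _ => by positivity) h1 h2
  have hX : ∀ k ≤ D, ∀ w : Fin k → Ix ν,
      lam R (dg d z * y) (∏ i, X (w i)) = lam R y (∏ i, X (w i)) := by
    intro k hk w
    have hmem : (⟨k, w⟩ : (k : ℕ) × (Fin k → Ix ν)) ∈
        (Finset.range (D + 1)).sigma (fun k => (Finset.univ : Finset (Fin k → Ix ν))) := by
      rw [Finset.mem_sigma]
      exact ⟨Finset.mem_range.2 (by simpa using Nat.lt_succ_of_le hk), Finset.mem_univ _⟩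
    rw [lam_dg hR]
    rcases key _ hmem with h | h
    · have h3 : lam R y (∏ i, X (w i)) = 0 := by
        have h4 : ‖lam R y (∏ i, X (w i))‖ ^ 2 = 0 := h
        rwa [sq_eq_zero_iff, norm_eq_zero] at h4
      rw [h3, mul_zero]
    · have h3 : ∑ i, wt d (w i) = 0 := h
      have h4 : ∑ i, (wt d (w i) : ℂ) = 0 := by
        rw [← Complex.ofReal_sum, h3, Complex.ofReal_zero]
      rw [h4, mul_zero, Complex.exp_zero, one_mul]
  have hspan := mem_span_prod hf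
  clear hf
  induction hspan using Submodule.span_induction with
  | mem p hp =>
    obtain ⟨k, hk, w, rfl⟩ := hp
    exact hX k hk w
  | zero => rw [map_zero, map_zero]
  | add a b _ _ ha hb => rw [map_add, map_add, ha, hb]
  | smul c a _ ha => rw [map_smul, map_smul, ha]

theorem const_of_min (hR : IsReyn (mr ρ) R) {D : ℕ}
    (hD : ∀ f ∈ Fx (mr ρ), f ∈ Algebra.adjoin ℂ {h | h ∈ Fx (mr ρ) ∧ h.totalDegree ≤ D})
    {h₀ : GL ν ℂ} (hmin : ∀ h : GL ν ℂ, Nm R D h₀ ≤ Nm R D h) {v : GL ν ℂ}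
    (hv : (v : Matrix ν ν ℂ) ∈ Matrix.unitaryGroup ν ℂ) {d : ν → ℝ}
    (h1 : Nm R D (Ex v d 1 * h₀) = Nm R D h₀) (z : ℂ) {f : MvPolynomial (Ix ν) ℂ}
    (hf : f ∈ Fx (mr ρ)) : eval (pt (Ex v d z * h₀)) f = eval (pt h₀) f := by
  set y : GL ν ℂ := v⁻¹ * h₀ with hy
  have e1 : ∀ z : ℂ, Ex v d z * h₀ = v * (dg d z * y) := by
    intro z
    rw [hy]; unfold Ex; simp only [mul_assoc]
  have e2 : v * y = h₀ := by rw [hy, mul_inv_cancel_left]
  have hNy : Nm R D h₀ = Nm R D y := by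
    conv_lhs => rw [← e2]
    exact Nm_unitary hR D hv y
  have hNz : ∀ z : ℂ, Nm R D (Ex v d z * h₀) = Nm R D (dg d z * y) := by
    intro z
    rw [e1 z]
    exact Nm_unitary hR D hv _
  have g1 : Nm R D (dg d ((1 : ℝ) : ℂ) * y) = Nm R D y := by
    rw [Complex.ofReal_one, ← hNz, h1, hNy]
  have g2 : Nm R D y ≤ Nm R D (dg d ((1 / 2 : ℝ) : ℂ) * y) := by
    rw [← hNz, ← hNy]
    exact hmin _
  -- invariants of small degree
  have hsmall : ∀ f ∈ {h | h ∈ Fx (mr ρ) ∧ h.totalDegree ≤ D},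
      eval (pt (dg d z * y)) f = eval (pt y) f := by
    rintro f ⟨hf1, hf2⟩
    have h3 := lam_const hR g1 g2 z hf2
    rw [lam_apply, lam_apply, hR.id f hf1] at h3
    exact h3
  -- all invariants
  have hall : ∀ f ∈ Fx (mr ρ), eval (pt (dg d z * y)) f = eval (pt y) f := by
    intro f hf
    have h3 := hD f hf
    clear hf
    induction h3 using Algebra.adjoin_induction with
    | mem p hp => exact hsmall p hp
    | algebraMap r => simp [algebraMap_eq]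
    | add a b _ _ ha hb => rw [map_add, map_add, ha, hb]
    | mul a b _ _ ha hb => rw [map_mul, map_mul, ha, hb]
  rw [e1 z, ← eval_act_Lm, hall _ (act_Lm_mem ρ hf v), eval_act_Lm, e2]

end H50.Z.Mo
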