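import Pool.Agent.H50.Z.M8_Const

/-!
(M9) Density of the unitary part, and `Γ` fixes the invariants `O(V)^G`.
-/

open MvPolynomial

set_option linter.unusedSectionVars false

namespace H50.Z.Mo

variable {ν : Type} [Fintype ν] [DecidableEq ν] {G : Type} [Group G] {ρ : G →* GL ν ℂ}
  {R : MvPolynomial (Ix ν) ℂ →ₗ[ℂ] MvPolynomial (Ix ν) ℂ}

/-- Let `γ ∈ Γ`, `h₀ γ h₀⁻¹ = k * Ex v d 1` (`exists_polar`). `Nm (Ex v d 1 * h₀) =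
Nm (k * Ex v d 1 * h₀) = Nm (h₀ γ) = Nm h₀` (`Nm_unitary`, `Nm_congr`). By `const_of_min` the elements
`γ_z = h₀⁻¹ Ex v d z h₀` are in `Γ` (for general `h`: `f(h γ_z) = (act (Lm (h h₀⁻¹)) f)(Ex v d z h₀)`).
`κ = γ γ_1⁻¹ = h₀⁻¹ k h₀ ∈ Kgr`, `γ_{is} ∈ Kgr` (`Ex_unitary`), so `κ γ_{is} ∈ Kgr` and
`F(κ γ_{is}) = 0` for real `s`; `exp_ident` with `A = κ h₀⁻¹`, `B = h₀`, `z = 1`: `F(γ) = 0`. -/
theorem dens (hR : IsReyn (mr ρ) R) {D : ℕ}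
    (hD : ∀ f ∈ Fx (mr ρ), f ∈ Algebra.adjoin ℂ {h | h ∈ Fx (mr ρ) ∧ h.totalDegree ≤ D})
    {h₀ : GL ν ℂ} (hmin : ∀ h : GL ν ℂ, Nm R D h₀ ≤ Nm R D h) (F : MvPolynomial (ν × ν) ℂ)
    (hF : ∀ κ ∈ Kgr ρ h₀, eval (fun p : ν × ν => (κ : Matrix ν ν ℂ) p.1 p.2) F = 0) :
    ∀ γ ∈ Gam ρ, eval (fun p : ν × ν => (γ : Matrix ν ν ℂ) p.1 p.2) F = 0 := by
  intro γ hγ
  obtain ⟨k, v, d, hk, hv, hp⟩ := exists_polar (h₀ * γ * h₀⁻¹)
  have hkey : k * (Ex v d 1 * h₀) = h₀ * γ := by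
    rw [← mul_assoc, ← hp]
    group
  have h1 : Nm R D (Ex v d 1 * h₀) = Nm R D h₀ := by
    rw [← Nm_unitary hR D hk (Ex v d 1 * h₀), hkey]
    exact Nm_congr hR D fun f hf => hγ f hf h₀
  have hmem : ∀ z : ℂ, h₀⁻¹ * Ex v d z * h₀ ∈ Gam ρ := by
    intro z f hf h
    have e1 : h * (h₀⁻¹ * Ex v d z * h₀) = (h * h₀⁻¹) * (Ex v d z * h₀) := by group
    rw [e1, ← eval_act_Lm, const_of_min hR hD hmin hv h1 z (act_Lm_mem ρ hf _), eval_act_Lm,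
      inv_mul_cancel_right]
  have hγ' : γ = (h₀⁻¹ * k * h₀) * (h₀⁻¹ * Ex v d 1 * h₀) := by
    have e1 : (h₀⁻¹ * k * h₀) * (h₀⁻¹ * Ex v d 1 * h₀) = h₀⁻¹ * (k * (Ex v d 1 * h₀)) := by group
    rw [e1, hkey, inv_mul_cancel_left]
  have hκ : h₀⁻¹ * k * h₀ ∈ Kgr ρ h₀ := by
    constructor
    · have e1 : h₀⁻¹ * k * h₀ = γ * (h₀⁻¹ * Ex v d 1 * h₀)⁻¹ := eq_mul_inv_of_mul_eq hγ'.symm
      rw [e1]
      exact (Gam ρ).mul_mem hγ ((Gam ρ).inv_mem (hmem 1))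
    · have e1 : h₀ * (h₀⁻¹ * k * h₀) * h₀⁻¹ = k := by group
      rw [e1]
      exact hk
  have hz : ∀ s : ℝ, h₀⁻¹ * Ex v d (Complex.I * s) * h₀ ∈ Kgr ρ h₀ := by
    intro s
    constructor
    · exact hmem _
    · have e1 : h₀ * (h₀⁻¹ * Ex v d (Complex.I * s) * h₀) * h₀⁻¹ = Ex v d (Complex.I * s) := by
        group
      rw [e1]
      exact Ex_unitary hv d s
  have h2 := exp_ident (h₀⁻¹ * k * h₀ * h₀⁻¹) h₀ v d F (fun s => by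
    have e1 : h₀⁻¹ * k * h₀ * h₀⁻¹ * Ex v d (Complex.I * s) * h₀ =
        (h₀⁻¹ * k * h₀) * (h₀⁻¹ * Ex v d (Complex.I * s) * h₀) := by group
    rw [e1]
    exact hF _ ((Kgr ρ h₀).mul_mem hκ (hz s))) 1
  have e2 : h₀⁻¹ * k * h₀ * h₀⁻¹ * Ex v d 1 * h₀ = γ := by
    rw [hγ']
    group
  rw [e2] at h2
  exact h2

/-- the matrix part of a point of `Ix ν → ℂ` -/
noncomputable def mpt (y : Ix ν → ℂ) : Matrix ν ν ℂ := Matrix.of fun i j => y (Sum.inl (i, j))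

/-- the polynomial `f(adj(x) d w)` -/
noncomputable def Phi (f : MvPolynomial ν ℂ) (w : ν → ℂ) : MvPolynomial (Ix ν) ℂ :=
  aeval (fun i : ν => X (Sum.inr ()) * ∑ j, (Matrix.of fun i j =>
    (X (Sum.inl (i, j)) : MvPolynomial (Ix ν) ℂ)).adjugate i j * C (w j)) f

lemma eval_Phi (f : MvPolynomial ν ℂ) (w : ν → ℂ) (y : Ix ν → ℂ) :
    eval y (Phi f w) = eval (y (Sum.inr ()) • (mpt y).adjugate.mulVec w) f := by
  unfold Phi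
  rw [← coe_aeval_eq_eval, ← coe_aeval_eq_eval]
  change ((aeval y : MvPolynomial (Ix ν) ℂ →ₐ[ℂ] ℂ).comp (aeval _)) f = aeval _ f
  congr 1
  apply algHom_ext
  intro i
  rw [AlgHom.comp_apply, aeval_X, aeval_X, map_mul, aeval_X, map_sum, Pi.smul_apply, smul_eq_mul]
  congr 1
  rw [Matrix.mulVec, dotProduct]
  apply Finset.sum_congr rfl
  intro j _
  rw [map_mul, aeval_C]
  have h1 : (aeval y : MvPolynomial (Ix ν) ℂ →ₐ[ℂ] ℂ) ((Matrix.of fun i j =>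
      (X (Sum.inl (i, j)) : MvPolynomial (Ix ν) ℂ)).adjugate i j) = (mpt y).adjugate i j := by
    have h2 := AlgHom.map_adjugate (aeval y : MvPolynomial (Ix ν) ℂ →ₐ[ℂ] ℂ)
      (Matrix.of fun i j => (X (Sum.inl (i, j)) : MvPolynomial (Ix ν) ℂ))
    have h3 : (aeval y : MvPolynomial (Ix ν) ℂ →ₐ[ℂ] ℂ).mapMatrix
        (Matrix.of fun i j => (X (Sum.inl (i, j)) : MvPolynomial (Ix ν) ℂ)) = mpt y := by
      ext i j
      simp [mpt]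
    rw [h3] at h2
    rw [← h2]
    rfl
  rw [h1]
  rfl

lemma coe_inv_eq (γ : GL ν ℂ) : ((γ⁻¹ : GL ν ℂ) : Matrix ν ν ℂ) =
    (γ : Matrix ν ν ℂ).det⁻¹ • (γ : Matrix ν ν ℂ).adjugate := by
  rw [Matrix.coe_units_inv, Matrix.inv_def, Ring.inverse_eq_inv']

lemma mpt_Rm (γ : GL ν ℂ) (y : Ix ν → ℂ) :
    mpt ((Rm γ).mulVec y) = mpt y * (γ : Matrix ν ν ℂ) := by
  ext i j
  simp only [mpt, Rm, Matrix.of_apply, Matrix.mulVec, dotProduct, Fintype.sum_sum_type,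
    Matrix.fromBlocks_apply₁₁, Matrix.fromBlocks_apply₁₂, Matrix.zero_apply, zero_mul,
    Finset.sum_const_zero, add_zero, Matrix.mul_apply, Matrix.kroneckerMap_apply,
    Fintype.sum_prod_type, Matrix.one_apply, Matrix.transpose_apply]
  rw [Finset.sum_eq_single i]
  · apply Finset.sum_congr rfl
    intro k _
    simp [mul_comm]
  · intro k _ hk
    simp [hk.symm]
  · intro h; exact absurd (Finset.mem_univ i) h

lemma inr_Rm (γ : GL ν ℂ) (y : Ix ν → ℂ) :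
    (Rm γ).mulVec y (Sum.inr ()) = (γ : Matrix ν ν ℂ).det⁻¹ * y (Sum.inr ()) := by
  simp only [Rm, Matrix.mulVec, dotProduct, Fintype.sum_sum_type,
    Matrix.fromBlocks_apply₂₁, Matrix.fromBlocks_apply₂₂, Matrix.zero_apply, zero_mul,
    Finset.sum_const_zero, zero_add]
  simp

lemma Phi_mem {f : MvPolynomial ν ℂ} (hf : ∀ g, act ((ρ g : GL ν ℂ) : Matrix ν ν ℂ) f = f)
    (w : ν → ℂ) : Phi f w ∈ Fx (mr ρ) := by
  intro g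
  apply MvPolynomial.funext
  intro y
  rw [eval_act, eval_Phi, eval_Phi]
  change eval ((Rm (ρ g)).mulVec y (Sum.inr ()) •
    (mpt ((Rm (ρ g)).mulVec y)).adjugate.mulVec w) f = _
  rw [mpt_Rm, inr_Rm, Matrix.adjugate_mul_distrib]
  have h1 : ((((ρ g : GL ν ℂ) : Matrix ν ν ℂ).det⁻¹ * y (Sum.inr ())) •
      (((ρ g : GL ν ℂ) : Matrix ν ν ℂ).adjugate * (mpt y).adjugate).mulVec w) =
      ((ρ g⁻¹ : GL ν ℂ) : Matrix ν ν ℂ).mulVec (y (Sum.inr ()) • (mpt y).adjugate.mulVec w) := by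
    rw [map_inv, coe_inv_eq, Matrix.mulVec_smul, Matrix.smul_mulVec, Matrix.mulVec_mulVec,
      smul_smul, mul_comm]
  rw [h1, ← eval_act, hf g⁻¹]

/-- `Γ` fixes `O(V)^G`. For `f ∈ O(V)^G` and `w : ν → ℂ` consider the polynomial
`Φ = f(adj(x) d w) ∈ ℂ[x_ij, d]`, `Φ(h) = f(h⁻¹ w)`. It is in `Fx (mr ρ)` since
`adj(xρ(g)) d det(ρ(g))⁻¹ w = ρ(g)⁻¹ adj(x) d w` and `f ∘ ρ(g)⁻¹ = f` (check at all points with
`MvPolynomial.funext`). So `Φ(γ) = Φ(1)`: `f(γ⁻¹ w) = f(w)` for all `w`. -/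
theorem gam_fix {f : MvPolynomial ν ℂ} (hf : ∀ g, act ((ρ g : GL ν ℂ) : Matrix ν ν ℂ) f = f)
    {γ : GL ν ℂ} (hγ : γ ∈ Gam ρ) : act (γ : Matrix ν ν ℂ) f = f := by
  have key : ∀ (h : GL ν ℂ) (w : ν → ℂ),
      eval (pt h) (Phi f w) = eval (((h⁻¹ : GL ν ℂ) : Matrix ν ν ℂ).mulVec w) f := by
    intro h w
    rw [eval_Phi, coe_inv_eq, Matrix.smul_mulVec]
    rfl
  apply MvPolynomial.funext
  intro w
  rw [eval_act]
  have h1 := hγ (Phi f ((γ : Matrix ν ν ℂ).mulVec w)) (Phi_mem hf _) 1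
  rw [key, key, one_mul, inv_one, Units.val_one, Matrix.one_mulVec, Matrix.mulVec_mulVec,
    Units.inv_mul, Matrix.one_mulVec] at h1
  exact h1.symm

end H50.Z.Mo
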