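import Pool.Agent.H50.Z.M0_Defs

/-!
(MX) Regular functions on a linear group `G ⊆ GL_m(ℂ)`.
-/

open MvPolynomial

set_option linter.unusedSectionVars false

namespace H50.Z.Mo

/-- `f` is a polynomial in the matrix entries and `det⁻¹` -/
def IsReg {m : ℕ} (G : Subgroup (GL (Fin m) ℂ)) (f : G → ℂ) : Prop :=
  ∃ (F : MvPolynomial (Fin m × Fin m) ℂ) (N : ℕ), ∀ g : G,
    f g * ((g : GL (Fin m) ℂ) : Matrix (Fin m) (Fin m) ℂ).det ^ N =
      eval (fun p => ((g : GL (Fin m) ℂ) : Matrix (Fin m) (Fin m) ℂ) p.1 p.2) F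

/-- the determinant as a polynomial -/
noncomputable def dt (m : ℕ) : MvPolynomial (Fin m × Fin m) ℂ :=
  (Matrix.of fun i j => (X (i, j) : MvPolynomial (Fin m × Fin m) ℂ)).det

lemma eval_dt {m : ℕ} (M : Matrix (Fin m) (Fin m) ℂ) : eval (fun p => M p.1 p.2) (dt m) = M.det := by
  rw [dt, RingHom.map_det]
  congr 1
  ext i j
  simp

/-- the adjugate as a matrix of polynomials -/
noncomputable def aj {m : ℕ} (i j : Fin m) : MvPolynomial (Fin m × Fin m) ℂ :=
  (Matrix.of fun i j => (X (i, j) : MvPolynomial (Fin m × Fin m) ℂ)).adjugate i j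

lemma eval_aj {m : ℕ} (M : Matrix (Fin m) (Fin m) ℂ) (i j : Fin m) :
    eval (fun p => M p.1 p.2) (aj i j) = M.adjugate i j := by
  have h1 := RingHom.map_adjugate (eval (fun p : Fin m × Fin m => M p.1 p.2))
    (Matrix.of fun i j => (X (i, j) : MvPolynomial (Fin m × Fin m) ℂ))
  have h2 : (eval (fun p : Fin m × Fin m => M p.1 p.2)).mapMatrix
      (Matrix.of fun i j => (X (i, j) : MvPolynomial (Fin m × Fin m) ℂ)) = M := by
    ext i j
    simp
  rw [h2] at h1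
  rw [← h1]
  rfl

/-- the algebra of regular functions -/
noncomputable def regAlg {m : ℕ} (G : Subgroup (GL (Fin m) ℂ)) : Subalgebra ℂ (G → ℂ) where
  carrier := {f | IsReg G f}
  mul_mem' := by
    rintro a b ⟨F, N, hF⟩ ⟨F', N', hF'⟩
    refine ⟨F * F', N + N', fun g => ?_⟩
    rw [map_mul, ← hF, ← hF', Pi.mul_apply, pow_add]
    ring
  add_mem' := by
    rintro a b ⟨F, N, hF⟩ ⟨F', N', hF'⟩
    refine ⟨F * dt m ^ N' + F' * dt m ^ N, N + N', fun g => ?_⟩
    rw [map_add, map_mul, map_mul, ← hF, ← hF', Pi.add_apply, pow_add, map_pow, map_pow,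
      eval_dt]
    ring
  algebraMap_mem' := by
    intro r
    refine ⟨C r, 0, fun g => ?_⟩
    rw [eval_C, pow_zero, mul_one]
    rfl

lemma mem_regAlg {m : ℕ} {G : Subgroup (GL (Fin m) ℂ)} {f : G → ℂ} : f ∈ regAlg G ↔ IsReg G f :=
  Iff.rfl

lemma isReg_entry {m : ℕ} {G : Subgroup (GL (Fin m) ℂ)} (i j : Fin m) :
    IsReg G fun g => ((g : GL (Fin m) ℂ) : Matrix (Fin m) (Fin m) ℂ) i j :=
  ⟨X (i, j), 0, fun g => by rw [pow_zero, mul_one, eval_X]⟩

lemma det_ne_zero {m : ℕ} {G : Subgroup (GL (Fin m) ℂ)} (g : G) :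
    ((g : GL (Fin m) ℂ) : Matrix (Fin m) (Fin m) ℂ).det ≠ 0 :=
  ((Matrix.isUnit_iff_isUnit_det _).1 (g : GL (Fin m) ℂ).isUnit).ne_zero

lemma isReg_det {m : ℕ} {G : Subgroup (GL (Fin m) ℂ)} :
    IsReg G fun g => ((g : GL (Fin m) ℂ) : Matrix (Fin m) (Fin m) ℂ).det :=
  ⟨dt m, 0, fun g => by rw [pow_zero, mul_one, eval_dt]⟩

lemma isReg_entry_inv {m : ℕ} {G : Subgroup (GL (Fin m) ℂ)} (i j : Fin m) :
    IsReg G fun g => (((g⁻¹ : G) : GL (Fin m) ℂ) : Matrix (Fin m) (Fin m) ℂ) i j := by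
  refine ⟨aj i j, 1, fun g => ?_⟩
  have h1 : (((g⁻¹ : G) : GL (Fin m) ℂ) : Matrix (Fin m) (Fin m) ℂ) =
      ((g : GL (Fin m) ℂ) : Matrix (Fin m) (Fin m) ℂ)⁻¹ := by
    rw [InvMemClass.coe_inv, Matrix.coe_units_inv]
  change (((g⁻¹ : G) : GL (Fin m) ℂ) : Matrix (Fin m) (Fin m) ℂ) i j *
    ((g : GL (Fin m) ℂ) : Matrix (Fin m) (Fin m) ℂ).det ^ 1 = _
  rw [eval_aj, pow_one, h1, Matrix.inv_def, Matrix.smul_apply, smul_eq_mul, Ring.inverse_eq_inv',
    mul_comm, ← mul_assoc, mul_inv_cancel₀ (det_ne_zero g), one_mul]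

/-- polynomials in regular functions are regular -/
lemma isReg_eval {m : ℕ} {G : Subgroup (GL (Fin m) ℂ)} {ι : Type} (c : ι → G → ℂ)
    (hc : ∀ i, IsReg G (c i)) (F : MvPolynomial ι ℂ) : IsReg G fun g => eval (fun i => c i g) F := by
  change (fun g => eval (fun i => c i g) F) ∈ regAlg G
  induction F using MvPolynomial.induction_on with
  | C a =>
    have h1 : (fun g : G => eval (fun i => c i g) (C a : MvPolynomial ι ℂ)) =
        algebraMap ℂ (G → ℂ) a := by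
      funext g
      rw [eval_C]
      rfl
    rw [h1]
    exact (regAlg G).algebraMap_mem a
  | add p q hp hq =>
    have h1 : (fun g : G => eval (fun i => c i g) (p + q)) =
        (fun g : G => eval (fun i => c i g) p) + fun g : G => eval (fun i => c i g) q := by
      funext g
      rw [map_add]
      rfl
    rw [h1]
    exact (regAlg G).add_mem hp hq
  | mul_X p i hp =>
    have h1 : (fun g : G => eval (fun i => c i g) (p * X i)) =
        (fun g : G => eval (fun i => c i g) p) * c i := by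
      funext g
      rw [map_mul, eval_X]
      rfl
    rw [h1]
    exact (regAlg G).mul_mem hp (hc i)

/-- regular functions are stable under inversion: the entries of `g⁻¹` are `adj(g) / det(g)` -/
theorem isReg_inv {m : ℕ} {G : Subgroup (GL (Fin m) ℂ)} {f : G → ℂ} (hf : IsReg G f) :
    IsReg G fun g => f g⁻¹ := by
  obtain ⟨F, N, hF⟩ := hf
  have h1 : IsReg G fun g => eval (fun p : Fin m × Fin m =>
      (((g⁻¹ : G) : GL (Fin m) ℂ) : Matrix (Fin m) (Fin m) ℂ) p.1 p.2) F :=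
    isReg_eval (fun (p : Fin m × Fin m) (g : G) =>
      (((g⁻¹ : G) : GL (Fin m) ℂ) : Matrix (Fin m) (Fin m) ℂ) p.1 p.2)
      (fun p => isReg_entry_inv p.1 p.2) F
  have h2 : (fun g : G => f g⁻¹) = (fun g => eval (fun p : Fin m × Fin m =>
      (((g⁻¹ : G) : GL (Fin m) ℂ) : Matrix (Fin m) (Fin m) ℂ) p.1 p.2) F) *
      (fun g : G => ((g : GL (Fin m) ℂ) : Matrix (Fin m) (Fin m) ℂ).det) ^ N := by
    funext g
    rw [Pi.mul_apply, Pi.pow_apply, ← hF, mul_assoc, ← mul_pow]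
    have h3 : (((g⁻¹ : G) : GL (Fin m) ℂ) : Matrix (Fin m) (Fin m) ℂ).det *
        ((g : GL (Fin m) ℂ) : Matrix (Fin m) (Fin m) ℂ).det = 1 := by
      rw [← Matrix.det_mul, InvMemClass.coe_inv, Units.inv_mul, Matrix.det_one]
    rw [h3, one_pow, mul_one]
  rw [h2]
  exact (regAlg G).mul_mem h1 ((regAlg G).pow_mem isReg_det N)

/-- `det(ρ(g))⁻¹ = det(ρ(g⁻¹))` is regular -/
theorem isReg_det_inv {m : ℕ} {G : Subgroup (GL (Fin m) ℂ)} {ν : Type} [Fintype ν] [DecidableEq ν]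
    (ρ : G →* GL ν ℂ) (hρ : ∀ i j, IsReg G fun g => ((ρ g : GL ν ℂ) : Matrix ν ν ℂ) i j) :
    IsReg G fun g => (((ρ g : GL ν ℂ) : Matrix ν ν ℂ).det)⁻¹ := by
  have h1 : IsReg G fun g => ((ρ g : GL ν ℂ) : Matrix ν ν ℂ).det := by
    have h2 := isReg_eval (fun (p : ν × ν) (g : G) => ((ρ g : GL ν ℂ) : Matrix ν ν ℂ) p.1 p.2)
      (fun p => hρ p.1 p.2) ((Matrix.of fun i j => (X (i, j) : MvPolynomial (ν × ν) ℂ)).det)
    have h3 : (fun g : G => eval (fun p : ν × ν => ((ρ g : GL ν ℂ) : Matrix ν ν ℂ) p.1 p.2)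
        (Matrix.of fun i j => (X (i, j) : MvPolynomial (ν × ν) ℂ)).det) =
        fun g => ((ρ g : GL ν ℂ) : Matrix ν ν ℂ).det := by
      funext g
      rw [RingHom.map_det]
      congr 1
      ext i j
      simp
    rw [h3] at h2
    exact h2
  have h4 := isReg_inv h1
  have h5 : (fun g : G => (((ρ g : GL ν ℂ) : Matrix ν ν ℂ).det)⁻¹) =
      fun g : G => ((ρ g⁻¹ : GL ν ℂ) : Matrix ν ν ℂ).det := by
    funext g
    apply inv_eq_of_mul_eq_one_left
    rw [← Matrix.det_mul, map_inv, Units.inv_mul, Matrix.det_one]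
  rw [h5]
  exact h4

end H50.Z.Mo
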