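import Pool.Agent.H50.Z.M3_Reyn
import Pool.Agent.H50.Z.M6_Min
import Pool.Agent.H50.Z.M9_Dens
import Pool.Agent.H50.Z.MX_Reg
import Pool.Agent.H50.Z.J5_Red

/-!
(MZ) A linearly reductive group has a dense unitary subgroup; the main theorem for linearly reductive
groups.
-/

open MvPolynomial H50.DO

set_option linter.unusedSectionVars false

namespace H50.Z.Mo

variable {ν : Type} [Fintype ν] [DecidableEq ν]

open scoped ComplexOrder in
theorem exists_unitary_dense {G : Type} [Group G] {Rg : Subalgebra ℂ (G → ℂ)} (hLR : LR Rg)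
    (ρ : G →* GL ν ℂ) (h1 : ∀ i j, (fun g => ((ρ g : GL ν ℂ) : Matrix ν ν ℂ) i j) ∈ Rg)
    (h2 : (fun g => (((ρ g : GL ν ℂ) : Matrix ν ν ℂ).det)⁻¹) ∈ Rg) :
    ∃ (K : Subgroup (GL ν ℂ)) (H : Matrix ν ν ℂ), H.PosDef ∧
      (∀ k ∈ K, (k : Matrix ν ν ℂ).conjTranspose * H * (k : Matrix ν ν ℂ) = H) ∧
      (∀ f : MvPolynomial ν ℂ, (∀ g, act ((ρ g : GL ν ℂ) : Matrix ν ν ℂ) f = f) →
        ∀ k ∈ K, act (k : Matrix ν ν ℂ) f = f) ∧
      ∀ F : MvPolynomial (ν × ν) ℂ, (∀ k ∈ K, evM (k : Matrix ν ν ℂ) F = 0) →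
        ∀ g, evM ((ρ g : GL ν ℂ) : Matrix ν ν ℂ) F = 0 := by
  have hm : ∀ i j, (fun g => mr ρ g i j) ∈ Rg := by
    intro i j
    rcases i with ⟨i, i'⟩ | i <;> rcases j with ⟨j, j'⟩ | j
    · by_cases hij : i = j
      · have h3 : (fun g => mr ρ g (Sum.inl (i, i')) (Sum.inl (j, j'))) =
            fun g => ((ρ g : GL ν ℂ) : Matrix ν ν ℂ) j' i' := by
          funext g
          simp [mr, Rm, hij]
        rw [h3]
        exact h1 _ _
      · have h3 : (fun g => mr ρ g (Sum.inl (i, i')) (Sum.inl (j, j'))) = 0 := by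
          funext g
          simp [mr, Rm, hij]
        rw [h3]
        exact Rg.zero_mem
    · have h3 : (fun g => mr ρ g (Sum.inl (i, i')) (Sum.inr j)) = 0 := by
        funext g
        simp [mr, Rm]
      rw [h3]
      exact Rg.zero_mem
    · have h3 : (fun g => mr ρ g (Sum.inr i) (Sum.inl (j, j'))) = 0 := by
        funext g
        simp [mr, Rm]
      rw [h3]
      exact Rg.zero_mem
    · have h3 : (fun g => mr ρ g (Sum.inr i) (Sum.inr j)) =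
          fun g => (((ρ g : GL ν ℂ) : Matrix ν ν ℂ).det)⁻¹ := by
        funext g
        simp [mr, Rm]
      rw [h3]
      exact h2
  obtain ⟨R, hR⟩ := exists_isReyn hLR (mr ρ) (by rw [mr, map_one, Rm_one])
    (fun g g' => by rw [mr, mr, mr, map_mul, Rm_mul]) hm
  obtain ⟨D, hD⟩ := exists_degree_bound hR
  obtain ⟨h₀, hmin⟩ := exists_min hR hD
  refine ⟨Kgr ρ h₀, (h₀ : Matrix ν ν ℂ).conjTranspose * (h₀ : Matrix ν ν ℂ), ?_, ?_, ?_, ?_⟩
  · apply Matrix.PosDef.conjTranspose_mul_self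
    exact Matrix.mulVec_injective_of_isUnit h₀.isUnit
  · rintro k ⟨_, hk⟩
    have h3 := Matrix.mem_unitaryGroup_iff'.1 hk
    rw [Matrix.star_eq_conjTranspose, Units.val_mul, Units.val_mul, Matrix.conjTranspose_mul,
      Matrix.conjTranspose_mul] at h3
    have h4 : (h₀ : Matrix ν ν ℂ).conjTranspose *
        ((h₀⁻¹ : GL ν ℂ) : Matrix ν ν ℂ).conjTranspose = 1 := by
      rw [← Matrix.conjTranspose_mul, Units.inv_mul, Matrix.conjTranspose_one]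
    calc (k : Matrix ν ν ℂ).conjTranspose * ((h₀ : Matrix ν ν ℂ).conjTranspose *
          (h₀ : Matrix ν ν ℂ)) * (k : Matrix ν ν ℂ) =
        ((h₀ : Matrix ν ν ℂ).conjTranspose * ((h₀⁻¹ : GL ν ℂ) : Matrix ν ν ℂ).conjTranspose) *
          ((k : Matrix ν ν ℂ).conjTranspose * ((h₀ : Matrix ν ν ℂ).conjTranspose *
          (h₀ : Matrix ν ν ℂ)) * (k : Matrix ν ν ℂ)) *
          (((h₀⁻¹ : GL ν ℂ) : Matrix ν ν ℂ) * (h₀ : Matrix ν ν ℂ)) := by
          rw [h4, Units.inv_mul, Matrix.mul_one, Matrix.one_mul]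
      _ = (h₀ : Matrix ν ν ℂ).conjTranspose *
          (((h₀⁻¹ : GL ν ℂ) : Matrix ν ν ℂ).conjTranspose *
            ((k : Matrix ν ν ℂ).conjTranspose * (h₀ : Matrix ν ν ℂ).conjTranspose) *
            ((h₀ : Matrix ν ν ℂ) * (k : Matrix ν ν ℂ) * ((h₀⁻¹ : GL ν ℂ) : Matrix ν ν ℂ))) *
          (h₀ : Matrix ν ν ℂ) := by simp only [Matrix.mul_assoc]
      _ = _ := by rw [h3, Matrix.mul_one]
  · rintro f hf k ⟨hk, _⟩
    exact gam_fix hf hk
  · intro F hF g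
    exact dens hR hD hmin F hF _ (rho_mem_Gam ρ g)

/-- the main theorem: if all differential operators on the invariants lift, they have
`G`-invariant lifts of the same order -/
theorem main_LR {G : Type} [Group G] {Rg : Subalgebra ℂ (G → ℂ)} (hLR : LR Rg)
    (ρ : G →* GL ν ℂ) (h1 : ∀ i j, (fun g => ((ρ g : GL ν ℂ) : Matrix ν ν ℂ) i j) ∈ Rg)
    (h2 : (fun g => (((ρ g : GL ν ℂ) : Matrix ν ν ℂ).det)⁻¹) ∈ Rg)
    (A : Subalgebra ℂ (MvPolynomial ν ℂ))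
    (hA : ∀ f, f ∈ A ↔ ∀ g, act ((ρ g : GL ν ℂ) : Matrix ν ν ℂ) f = f) (hS : Surj A)
    {n : ℕ} {P : Module.End ℂ A} (hP : DOp n P) :
    ∃ Q : Module.End ℂ (MvPolynomial ν ℂ), DOp n Q ∧
      (∀ g, ∀ f, act ((ρ g : GL ν ℂ) : Matrix ν ν ℂ) (Q f) =
        Q (act ((ρ g : GL ν ℂ) : Matrix ν ν ℂ) f)) ∧
      ∀ a : A, Q a = ((P a : A) : MvPolynomial ν ℂ) := by
  obtain ⟨K, H, hH, hK, hfix, hd⟩ := exists_unitary_dense hLR ρ h1 h2
  have hd' : ∀ F : MvPolynomial (ν × ν) ℂ,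
      (∀ k ∈ {M : Matrix ν ν ℂ | ∃ k ∈ K, M = (k : Matrix ν ν ℂ)}, evM k F = 0) →
      ∀ g ∈ {M : Matrix ν ν ℂ | ∃ g : G, M = ((ρ g : GL ν ℂ) : Matrix ν ν ℂ)}, evM g F = 0 := by
    rintro F hF _ ⟨g, rfl⟩
    exact hd F (fun k hk => hF _ ⟨k, hk, rfl⟩) g
  have hAK : ∀ f, f ∈ A ↔ ∀ k ∈ K, act (k : Matrix ν ν ℂ) f = f := by
    intro f
    rw [hA]
    constructor
    · exact fun h => hfix f h
    · intro h g
      refine act_eq_of_dense hd' ?_ _ ⟨g, rfl⟩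
      rintro _ ⟨k, hk, rfl⟩
      exact h k hk
  obtain ⟨Q, hQ, hQK, hQP⟩ := main_aux A K hH hK hAK hS hP
  refine ⟨Q, hQ, ?_, hQP⟩
  intro g f
  refine commute_of_dense hd' ?_ _ ⟨g, rfl⟩ f
  rintro _ ⟨k, hk, rfl⟩
  exact hQK k hk

end H50.Z.Mo
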