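import Pool.Agent.H50.Z.Defs

/-!
(R1) The Reynolds operator of a group of unitary matrices (no topology on the group): on
`S_{≤ m}` it is a finite linear combination of group elements.
-/

open MvPolynomial

set_option linter.unusedSectionVars false

namespace H50.Z

variable {ν : Type} [Fintype ν] [DecidableEq ν]

/-! ### a multiplicative star closed set of matrices -/

section Alg

variable {ι κ : Type} [Fintype ι] [DecidableEq ι]

/-- the pairing of matrices as an inner product of a Euclidean space -/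
noncomputable def mvec (x : Matrix ι ι ℂ) : EuclideanSpace ℂ (ι × ι) :=
  WithLp.toLp 2 fun p => x p.1 p.2

lemma mvec_add (x y : Matrix ι ι ℂ) : mvec (x + y) = mvec x + mvec y := rfl

lemma mvec_smul (c : ℂ) (x : Matrix ι ι ℂ) : mvec (c • x) = c • mvec x := rfl

lemma mvec_injective : Function.Injective (mvec (ι := ι)) := by
  intro x y h
  ext i j
  have := congrArg (fun v : EuclideanSpace ℂ (ι × ι) => v (i, j)) h
  exact this

/-- `mvec` as a linear equivalence -/
noncomputable def mvecL : Matrix ι ι ℂ →ₗ[ℂ] EuclideanSpace ℂ (ι × ι) where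
  toFun := mvec
  map_add' := mvec_add
  map_smul' := mvec_smul

lemma inner_mvec (x y : Matrix ι ι ℂ) :
    inner ℂ (mvec x) (mvec y) = (x.conjTranspose * y).trace := by
  rw [EuclideanSpace.inner_eq_star_dotProduct]
  simp only [dotProduct, mvec, Matrix.trace, Matrix.diag_apply, Matrix.mul_apply,
    Matrix.conjTranspose_apply, Pi.star_apply]
  rw [Fintype.sum_prod_type, Finset.sum_comm]
  apply Finset.sum_congr rfl
  intro i _
  apply Finset.sum_congr rfl
  intro j _
  ring

/-- a subspace `J` closed under `x, y ↦ x y` and under conjugate transposition has a unit -/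
lemma exists_unit (J : Submodule ℂ (Matrix ι ι ℂ)) (hmul : ∀ x ∈ J, ∀ y ∈ J, x * y ∈ J)
    (hstar : ∀ x ∈ J, x.conjTranspose ∈ J) :
    ∃ u ∈ J, ∀ x ∈ J, u * x = x ∧ x * u = x := by
  obtain ⟨y, hy, z, hz, hyz⟩ := (J.map mvecL).exists_add_mem_mem_orthogonal (mvec (1 : Matrix ι ι ℂ))
  obtain ⟨u, hu, rfl⟩ := hy
  have hz' : z = mvec (1 - u) := by
    have h1 : mvec (1 : Matrix ι ι ℂ) = mvec u + z := hyz
    have h2 : mvec (1 : Matrix ι ι ℂ) = mvec u + mvec (1 - u) := by
      rw [← mvec_add]; congr 1; abel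
    exact add_left_cancel (h1.symm.trans h2)
  subst hz'
  have horth : ∀ x ∈ J, (x.conjTranspose * (1 - u)).trace = 0 := by
    intro x hx
    rw [← inner_mvec]
    exact (Submodule.mem_orthogonal _ _).1 hz _ ⟨x, hx, rfl⟩
  have hzero : ∀ w : Matrix ι ι ℂ, (w.conjTranspose * w).trace = 0 → w = 0 := by
    intro w hw
    rw [← inner_mvec] at hw
    have := inner_self_eq_zero.1 hw
    apply mvec_injective
    rw [this]
    rfl
  refine ⟨u, hu, fun x hx => ⟨?_, ?_⟩⟩
  · -- w = (1 - u) x ∈ J
    have hw : (1 - u) * x ∈ J := by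
      rw [sub_mul, one_mul]
      exact J.sub_mem hx (hmul u hu x hx)
    have h1 : (((1 - u) * x).conjTranspose * ((1 - u) * x)).trace = 0 := by
      rw [← Matrix.mul_assoc, Matrix.trace_mul_comm, ← Matrix.mul_assoc]
      have h2 : (((1 - u) * x) * x.conjTranspose) ∈ J := hmul _ hw _ (hstar x hx)
      have h3 := horth _ h2
      rw [Matrix.conjTranspose_mul, Matrix.conjTranspose_conjTranspose] at h3
      exact h3
    have := hzero _ h1
    rw [sub_mul, one_mul, sub_eq_zero] at this
    exact this.symm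
  · have hw : x * (1 - u) ∈ J := by
      rw [mul_sub, mul_one]
      exact J.sub_mem hx (hmul x hx u hu)
    have h1 : ((x * (1 - u)).conjTranspose * (x * (1 - u))).trace = 0 := by
      rw [← Matrix.mul_assoc]
      have h2 : x.conjTranspose * (x * (1 - u)) ∈ J := hmul _ (hstar x hx) _ hw
      have h3 := horth _ h2
      rw [Matrix.conjTranspose_mul, Matrix.conjTranspose_conjTranspose] at h3
      exact h3
    have := hzero _ h1
    rw [mul_sub, mul_one, sub_eq_zero] at this
    exact this.symm

/-- a group acting unitarily: an affine combination of the group elements which absorbs all of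
them -/
lemma exists_absorb {G : Type} [Group G] (D : G →* Matrix ι ι ℂ) (hD : ∀ g, (D g).conjTranspose = D g⁻¹)
    (K : Subgroup G) :
    ∃ (s : Finset G) (c : G → ℂ), (∀ k ∈ s, k ∈ K) ∧ ∑ k ∈ s, c k = 1 ∧
      ∀ k ∈ K, (∑ l ∈ s, c l • D l) * D k = ∑ l ∈ s, c l • D l ∧
        D k * (∑ l ∈ s, c l • D l) = ∑ l ∈ s, c l • D l := by
  let J : Submodule ℂ (Matrix ι ι ℂ) := Submodule.span ℂ ((fun k => D k - 1) '' (K : Set G))
  have hJ : ∀ k ∈ K, D k - 1 ∈ J := fun k hk => Submodule.subset_span ⟨k, hk, rfl⟩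
  have hright : ∀ x ∈ J, ∀ k ∈ K, x * D k ∈ J := by
    intro x hx k hk
    induction hx using Submodule.span_induction with
    | mem x h =>
      obtain ⟨l, hl, rfl⟩ := h
      have : (D l - 1) * D k = (D (l * k) - 1) - (D k - 1) := by
        rw [map_mul, sub_mul, one_mul]; abel
      simp only
      rw [this]
      exact J.sub_mem (hJ _ (K.mul_mem hl hk)) (hJ _ hk)
    | zero => rw [zero_mul]; exact J.zero_mem
    | add x y _ _ hx hy => rw [add_mul]; exact J.add_mem hx hy
    | smul a x _ hx => rw [smul_mul_assoc]; exact J.smul_mem _ hx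
  have hmul : ∀ x ∈ J, ∀ y ∈ J, x * y ∈ J := by
    intro x hx y hy
    induction hy using Submodule.span_induction with
    | mem y h =>
      obtain ⟨l, hl, rfl⟩ := h
      simp only
      rw [mul_sub, mul_one]
      exact J.sub_mem (hright x hx l hl) hx
    | zero => rw [mul_zero]; exact J.zero_mem
    | add y z _ _ hy hz => rw [mul_add]; exact J.add_mem hy hz
    | smul a y _ hy => rw [mul_smul_comm]; exact J.smul_mem _ hy
  have hstar : ∀ x ∈ J, x.conjTranspose ∈ J := by
    intro x hx
    induction hx using Submodule.span_induction with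
    | mem x h =>
      obtain ⟨l, hl, rfl⟩ := h
      simp only
      rw [Matrix.conjTranspose_sub, Matrix.conjTranspose_one, hD]
      exact hJ _ (K.inv_mem hl)
    | zero => rw [Matrix.conjTranspose_zero]; exact J.zero_mem
    | add x y _ _ hx hy => rw [Matrix.conjTranspose_add]; exact J.add_mem hx hy
    | smul a x _ hx => rw [Matrix.conjTranspose_smul]; exact J.smul_mem _ hx
  obtain ⟨u, hu, hunit⟩ := exists_unit J hmul hstar
  -- `(1 - u, 1)` is in the span of the `(D k, 1)`
  let P : Submodule ℂ (Matrix ι ι ℂ × ℂ) :=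
    Submodule.span ℂ ((fun k => (D k, (1 : ℂ))) '' (K : Set G))
  have hP : ∀ k ∈ K, (D k, (1 : ℂ)) ∈ P := fun k hk => Submodule.subset_span ⟨k, hk, rfl⟩
  have hP1 : ((1 : Matrix ι ι ℂ), (1 : ℂ)) ∈ P := by
    have := hP 1 K.one_mem
    rwa [map_one] at this
  have hJP : ∀ x ∈ J, (x, (0 : ℂ)) ∈ P := by
    intro x hx
    induction hx using Submodule.span_induction with
    | mem x h =>
      obtain ⟨l, hl, rfl⟩ := h
      have := P.sub_mem (hP l hl) hP1
      rwa [Prod.mk_sub_mk, sub_self] at this
    | zero => exact P.zero_mem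
    | add x y _ _ hx hy =>
      have := P.add_mem hx hy
      rwa [Prod.mk_add_mk, add_zero] at this
    | smul a x _ hx =>
      have := P.smul_mem a hx
      rwa [Prod.smul_mk, smul_zero] at this
  have hmem : (1 - u, (1 : ℂ)) ∈ P := by
    have := P.sub_mem hP1 (hJP u hu)
    rwa [Prod.mk_sub_mk, sub_zero] at this
  rw [Finsupp.mem_span_image_iff_linearCombination] at hmem
  obtain ⟨c, hc, hsum⟩ := hmem
  rw [Finsupp.linearCombination_apply, Finsupp.sum] at hsum
  have h1 : ∑ k ∈ c.support, c k • D k = 1 - u := by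
    have := congrArg Prod.fst hsum
    rw [Prod.fst_sum] at this
    exact this
  have h2 : ∑ k ∈ c.support, c k = 1 := by
    have := congrArg Prod.snd hsum
    rw [Prod.snd_sum] at this
    simpa using this
  refine ⟨c.support, c, fun k hk => ?_, h2, fun k hk => ?_⟩
  · exact (Finsupp.mem_supported _ _).1 hc hk
  · rw [h1]
    have := hunit _ (hJ k hk)
    constructor
    · have h3 := this.1
      rw [mul_sub, mul_one] at h3
      rw [sub_mul, one_mul]
      have h4 : u * D k = D k - 1 + u := by
        rw [← h3]; abel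
      rw [h4]; abel
    · have h3 := this.2
      rw [sub_mul, one_mul] at h3
      rw [mul_sub, mul_one]
      have h4 : D k * u = D k - 1 + u := by
        rw [← h3]; abel
      rw [h4]; abel

end Alg

/-! ### the tensor power of `1 ⊕ V` -/

section Tensor

/-- the matrix `1 ⊕ M` -/
def mplus (M : Matrix ν ν ℂ) : Matrix (Option ν) (Option ν) ℂ :=
  fun i j => match i, j with
    | none, none => 1
    | none, some _ => 0
    | some _, none => 0
    | some i, some j => M i j

lemma mplus_one : mplus (1 : Matrix ν ν ℂ) = 1 := by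
  ext i j
  cases i <;> cases j <;> simp [mplus, Matrix.one_apply]

lemma mplus_mul (M N : Matrix ν ν ℂ) : mplus (M * N) = mplus M * mplus N := by
  ext i j
  cases i <;> cases j <;>
    simp [mplus, Matrix.mul_apply, Fintype.sum_option]

lemma mplus_star (M : Matrix ν ν ℂ) : (mplus M).conjTranspose = mplus M.conjTranspose := by
  ext i j
  cases i <;> cases j <;> simp [mplus]

/-- the tensor power -/
def tpow (m : ℕ) (M : Matrix (Option ν) (Option ν) ℂ) :
    Matrix (Fin m → Option ν) (Fin m → Option ν) ℂ :=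
  fun I J => ∏ l, M (I l) (J l)

lemma tpow_one (m : ℕ) : tpow m (1 : Matrix (Option ν) (Option ν) ℂ) = 1 := by
  ext I J
  rw [tpow, Matrix.one_apply]
  split_ifs with h
  · subst h
    simp
  · obtain ⟨l, hl⟩ := Function.ne_iff.1 h
    exact Finset.prod_eq_zero (Finset.mem_univ l) (by rw [Matrix.one_apply, if_neg hl])

lemma tpow_mul (m : ℕ) (M N : Matrix (Option ν) (Option ν) ℂ) :
    tpow m (M * N) = tpow m M * tpow m N := by
  ext I J
  rw [tpow, Matrix.mul_apply]
  simp only [Matrix.mul_apply]
  rw [Finset.prod_univ_sum]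
  rw [Fintype.piFinset_univ]
  apply Finset.sum_congr rfl
  intro L _
  rw [tpow, tpow, ← Finset.prod_mul_distrib]

lemma tpow_star (m : ℕ) (M : Matrix (Option ν) (Option ν) ℂ) :
    (tpow m M).conjTranspose = tpow m M.conjTranspose := by
  ext I J
  rw [Matrix.conjTranspose_apply, tpow, tpow, star_prod]
  rfl

/-- the representation on the tensor power -/
noncomputable def tRep (m : ℕ) :
    Matrix.unitaryGroup ν ℂ →* Matrix (Fin m → Option ν) (Fin m → Option ν) ℂ where
  toFun k := tpow m (mplus (k : Matrix ν ν ℂ))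
  map_one' := by
    rw [Matrix.UnitaryGroup.one_val, mplus_one, tpow_one]
  map_mul' k l := by
    rw [Matrix.UnitaryGroup.mul_val, mplus_mul, tpow_mul]

lemma tRep_star (m : ℕ) (k : Matrix.unitaryGroup ν ℂ) :
    (tRep m k).conjTranspose = tRep m k⁻¹ := by
  change (tpow m (mplus (k : Matrix ν ν ℂ))).conjTranspose = tpow m (mplus _)
  rw [tpow_star, mplus_star, Matrix.UnitaryGroup.inv_val]
  rfl

/-- the variable or `1` -/
noncomputable def Xp : Option ν → MvPolynomial ν ℂ
  | none => 1
  | some i => X i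

lemma act_Xp (M : Matrix ν ν ℂ) (o : Option ν) :
    act M (Xp o) = ∑ o', C (mplus M o o') * Xp o' := by
  cases o with
  | none =>
    rw [Fintype.sum_option]
    simp [Xp, mplus]
  | some i =>
    rw [Fintype.sum_option]
    simp [Xp, mplus, act_X]

/-- the polynomial attached to a vector of the tensor power -/
noncomputable def tPoly (m : ℕ) : ((Fin m → Option ν) → ℂ) →ₗ[ℂ] MvPolynomial ν ℂ where
  toFun v := ∑ I, C (v I) * ∏ l, Xp (I l)
  map_add' v w := by
    rw [← Finset.sum_add_distrib]
    apply Finset.sum_congr rfl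
    intro I _
    rw [Pi.add_apply, C_add, add_mul]
  map_smul' c v := by
    rw [RingHom.id_apply, Finset.smul_sum]
    apply Finset.sum_congr rfl
    intro I _
    rw [Pi.smul_apply, smul_eq_mul, C_mul, smul_eq_C_mul, mul_assoc]

lemma tPoly_apply (m : ℕ) (v : (Fin m → Option ν) → ℂ) :
    tPoly m v = ∑ I, C (v I) * ∏ l, Xp (I l) := rfl

lemma act_tPoly (m : ℕ) (M : Matrix ν ν ℂ) (v : (Fin m → Option ν) → ℂ) :
    act M (tPoly m v) = tPoly m (Matrix.vecMul v (tpow m (mplus M))) := by
  rw [tPoly_apply, tPoly_apply, map_sum]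
  have h : ∀ I : Fin m → Option ν, act M (C (v I) * ∏ l, Xp (I l)) =
      ∑ J, C (v I * tpow m (mplus M) I J) * ∏ l, Xp (J l) := by
    intro I
    rw [map_mul, map_prod]
    have h1 : ∀ l, act M (Xp (I l)) = ∑ o', C (mplus M (I l) o') * Xp o' :=
      fun l => act_Xp M (I l)
    simp only [h1]
    rw [Finset.prod_univ_sum, Fintype.piFinset_univ]
    rw [algHom_C, algebraMap_eq, Finset.mul_sum]
    apply Finset.sum_congr rfl
    intro J _
    rw [Finset.prod_mul_distrib, C_mul, tpow, map_prod, mul_assoc]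
  simp only [h]
  rw [Finset.sum_comm]
  apply Finset.sum_congr rfl
  intro J _
  rw [Matrix.vecMul, dotProduct, map_sum, Finset.sum_mul]

lemma exists_prod_Xp (m : ℕ) : ∀ s : ν →₀ ℕ, s.degree ≤ m →
    ∃ I : Fin m → Option ν, ∏ l, Xp (I l) = monomial s (1 : ℂ) := by
  induction m with
  | zero =>
    intro s hs
    have : s = 0 := by
      rw [← Finsupp.degree_eq_zero_iff]
      omega
    subst this
    exact ⟨Fin.elim0, by simp⟩
  | succ m ih =>
    intro s hs
    by_cases h0 : s = 0
    · subst h0
      exact ⟨fun _ => none, by simp [Xp]⟩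
    · obtain ⟨i, hi⟩ : ∃ i, s i ≠ 0 := by
        by_contra hcon
        push Not at hcon
        exact h0 (Finsupp.ext hcon)
      have hsplit : s = Finsupp.single i 1 + (s - Finsupp.single i 1) := by
        rw [add_tsub_cancel_of_le]
        rw [Finsupp.single_le_iff]
        omega
      have hdeg : (s - Finsupp.single i 1).degree ≤ m := by
        have h1 : s.degree = 1 + (s - Finsupp.single i 1).degree := by
          conv_lhs => rw [hsplit]
          rw [map_add, Finsupp.degree_single]
        omega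
      obtain ⟨I, hI⟩ := ih _ hdeg
      refine ⟨Fin.cons (some i) I, ?_⟩
      rw [Fin.prod_univ_succ]
      simp only [Fin.cons_zero, Fin.cons_succ]
      rw [hI]
      conv_rhs => rw [hsplit]
      rw [Xp, X, monomial_mul, one_mul]

lemma exists_tPoly (m : ℕ) (f : MvPolynomial ν ℂ) (hf : f.totalDegree ≤ m) :
    ∃ v, tPoly m v = f := by
  have hmem : f ∈ LinearMap.range (tPoly (ν := ν) m) := by
    rw [f.as_sum]
    apply Submodule.sum_mem
    intro s hs
    have hdeg : s.degree ≤ m := by
      have h := le_totalDegree hs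
      rw [Finsupp.degree]
      exact le_trans h hf
    obtain ⟨I, hI⟩ := exists_prod_Xp m s hdeg
    refine ⟨fun J => if J = I then coeff s f else 0, ?_⟩
    rw [tPoly_apply]
    rw [Finset.sum_eq_single I]
    · rw [if_pos rfl, hI, C_mul_monomial, mul_one]
    · intro J _ hJ
      rw [if_neg hJ, C_0, zero_mul]
    · intro h
      exact absurd (Finset.mem_univ I) h
  exact hmem

end Tensor

/-- the combination of group elements -/
noncomputable def comb (s : Finset (Matrix.unitaryGroup ν ℂ)) (c : Matrix.unitaryGroup ν ℂ → ℂ) :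
    MvPolynomial ν ℂ →ₗ[ℂ] MvPolynomial ν ℂ :=
  ∑ k ∈ s, c k • (act (k : Matrix ν ν ℂ)).toLinearMap

lemma comb_apply (s : Finset (Matrix.unitaryGroup ν ℂ)) (c : Matrix.unitaryGroup ν ℂ → ℂ)
    (f : MvPolynomial ν ℂ) : comb s c f = ∑ k ∈ s, c k • act (k : Matrix ν ν ℂ) f := by
  rw [comb, LinearMap.sum_apply]
  rfl

lemma comb_tPoly (m : ℕ) (s : Finset (Matrix.unitaryGroup ν ℂ)) (c : Matrix.unitaryGroup ν ℂ → ℂ)
    (v : (Fin m → Option ν) → ℂ) :
    comb s c (tPoly m v) = tPoly m (Matrix.vecMul v (∑ k ∈ s, c k • tRep m k)) := by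
  rw [comb_apply]
  have h : Matrix.vecMul v (∑ k ∈ s, c k • tRep m k) =
      ∑ k ∈ s, c k • Matrix.vecMul v (tRep m k) := by
    rw [Matrix.vecMul_sum]
    apply Finset.sum_congr rfl
    intro k _
    rw [Matrix.vecMul_smul]
  rw [h, map_sum]
  apply Finset.sum_congr rfl
  intro k _
  rw [map_smul, act_tPoly]
  rfl

/-- There is a linear projection onto the invariants which in bounded degree is a finite linear combination of
elements of `K`. Proof: the span of the differences `k - 1` in the endomorphisms of a tensor power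
of `1 ⊕ V` is closed under products and adjoints, so it has a unit `u`, and `1 - u` does it. -/
theorem exists_rey (K : Subgroup (Matrix.unitaryGroup ν ℂ)) :
    ∃ ρ : MvPolynomial ν ℂ →ₗ[ℂ] MvPolynomial ν ℂ, (∀ f, ρ f ∈ InvAlg K) ∧
      (∀ f ∈ InvAlg K, ρ f = f) ∧
      ∀ m : ℕ, ∃ (s : Finset (Matrix.unitaryGroup ν ℂ)) (c : Matrix.unitaryGroup ν ℂ → ℂ),
        (∀ k ∈ s, k ∈ K) ∧ ∑ k ∈ s, c k = 1 ∧
        ∀ f : MvPolynomial ν ℂ, f.totalDegree ≤ m →
          ρ f = ∑ k ∈ s, c k • act (k : Matrix ν ν ℂ) f := by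
  have h := fun m : ℕ => exists_absorb (tRep (ν := ν) m) (tRep_star m) K
  choose s c hs hc habs using h
  let E : ℕ → MvPolynomial ν ℂ →ₗ[ℂ] MvPolynomial ν ℂ := fun m => comb (s m) (c m)
  -- invariants are fixed by combinations
  have hfix : ∀ (m : ℕ) (f : MvPolynomial ν ℂ), f ∈ InvAlg K → E m f = f := by
    intro m f hf
    change comb (s m) (c m) f = f
    rw [comb_apply]
    rw [Finset.sum_congr rfl (fun k hk => by rw [hf k (hs m k hk)]), ← Finset.sum_smul, hc, one_smul]
  -- the values are invariant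
  have hinv : ∀ (m : ℕ) (f : MvPolynomial ν ℂ), f.totalDegree ≤ m → E m f ∈ InvAlg K := by
    intro m f hf k hk
    obtain ⟨v, rfl⟩ := exists_tPoly m f hf
    change act (k : Matrix ν ν ℂ) (comb (s m) (c m) (tPoly m v)) = comb (s m) (c m) (tPoly m v)
    rw [comb_tPoly, act_tPoly, Matrix.vecMul_vecMul]
    have : (∑ l ∈ s m, c m l • tRep m l) * tpow m (mplus (k : Matrix ν ν ℂ)) =
        ∑ l ∈ s m, c m l • tRep m l := (habs m k hk).1
    rw [this]
  -- combinations of group elements are absorbed
  have habsorb : ∀ (m m' : ℕ) (f : MvPolynomial ν ℂ), f.totalDegree ≤ m →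
      E m (E m' f) = E m f := by
    intro m m' f hf
    obtain ⟨v, rfl⟩ := exists_tPoly m f hf
    change comb (s m) (c m) (comb (s m') (c m') (tPoly m v)) = comb (s m) (c m) (tPoly m v)
    rw [comb_tPoly, comb_tPoly, comb_tPoly, Matrix.vecMul_vecMul]
    congr 2
    rw [Finset.sum_mul]
    have : ∀ k ∈ s m', (c m' k • tRep m k) * (∑ l ∈ s m, c m l • tRep m l) =
        c m' k • ∑ l ∈ s m, c m l • tRep m l := by
      intro k hk
      rw [smul_mul_assoc, (habs m k (hs m' k hk)).2]
    rw [Finset.sum_congr rfl this, ← Finset.sum_smul, hc, one_smul]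
  have hcons : ∀ (m m' : ℕ) (f : MvPolynomial ν ℂ), f.totalDegree ≤ m → f.totalDegree ≤ m' →
      E m f = E m' f := by
    intro m m' f hm hm'
    rw [← habsorb m m' f hm, hfix m _ (hinv m' f hm')]
  let ρ : MvPolynomial ν ℂ →ₗ[ℂ] MvPolynomial ν ℂ :=
    { toFun := fun f => E f.totalDegree f
      map_add' := by
        intro f g
        have hfg : (f + g).totalDegree ≤ max f.totalDegree g.totalDegree := totalDegree_add f g
        rw [hcons (f + g).totalDegree (max f.totalDegree g.totalDegree) (f + g) le_rfl hfg,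
          hcons f.totalDegree (max f.totalDegree g.totalDegree) f le_rfl (le_max_left _ _),
          hcons g.totalDegree (max f.totalDegree g.totalDegree) g le_rfl (le_max_right _ _), map_add]
      map_smul' := by
        intro a f
        rw [hcons (a • f).totalDegree f.totalDegree (a • f) le_rfl (totalDegree_smul_le a f),
          map_smul, RingHom.id_apply] }
  have hρ : ∀ (m : ℕ) (f : MvPolynomial ν ℂ), f.totalDegree ≤ m → ρ f = E m f :=
    fun m f hf => hcons _ _ f le_rfl hf
  refine ⟨ρ, fun f => hinv _ f le_rfl, fun f hf => hfix _ f hf, fun m => ?_⟩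
  refine ⟨s m, c m, hs m, hc m, fun f hf => ?_⟩
  rw [hρ m f hf]
  exact comb_apply _ _ _

end H50.Z
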